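import Pool.Agent.GD3.Nx
import Pool.Agent.TGF.Pt

set_option autoImplicit false

/-!
# GD3-Ps: values at the terms [x] P

PLAN.  P := lg (algebraMap p.P), HF: ψ (bx x μ) = 0 for x ∈ El (S ∪ P), μ ∈ TS 1 (SG S); FS.n1.
ps_zero: x = 0: nx_zero.  v x > 0: lg x = m P + w, w ∈ SG S (SG_insert), m = v x ≠ 0: 0 = ψ (bx x (w1 (lg x))) (nx_self) = m ψ (bx x (w1 P)) + ψ (bx x (w1 w)), the last term is 0 (HF.sm).
v x < 0: x⁻¹ (nx_inv, El_inv).
ps_one: x ≠ 0, 1, v(1 - x) > 0 (so v x = 0): nx_three: ψ([x]P) = ψ([1]P) - ψ([1-x]P) - ψ([1-1/x]P), and 1 - x, 1 - 1/x = -(1-x)/x are zeros at P in El (S ∪ P): ps_zero.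
-/

noncomputable section

open Polynomial TensorProduct
open scoped Classical

namespace GD3

open Helper14.Gon Helper14.W4 QPL TGF

universe u

section
variable {K k : Type u} [Field K] [Field k] {p : SRG.Pl K k} {V : AC (RatFunc K) k}
  {S : Set K[X]}

variable {W : Type u} [AddCommGroup W] [Module ℚ W]

private lemma Ps_zsmul (j : ℕ) {F : Type u} [Field F] (m : ℤ) (v : Additive Fˣ) (ω : Tx j F) :
    wT j (m • v) ω = (m : ℚ) • wT j v ω := by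
  have h : wT j (m • v) = m • wT j v := map_zsmul (wTH j) m v
  rw [h, LinearMap.smul_apply, Int.cast_smul_eq_zsmul]

theorem ps_zero (hP : p.P ∉ S) (hV : IsPt p V) {ψ : X 1 (RatFunc K) →ₗ[ℚ] W}
    {ϕ : RatFunc K → RatFunc K → W} (h : HF p S ψ ϕ) {x : RatFunc K}
    (hx : El (insert p.P S) x) (h0 : x = 0 ∨ V.vH (lg x) ≠ 0) :
    ψ (bx x (w1 (lg (algebraMap K[X] (RatFunc K) p.P)))) = 0 := by
  by_cases hx0 : x = 0
  · rw [hx0]
    exact h.fs.n1 _ (nx_zero 1 _)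
  have hv : V.vH (lg x) ≠ 0 := h0.resolve_left hx0
  obtain ⟨m, w, hw, hm⟩ := SG_insert p hP hx.1
  have hP0 : algebraMap K[X] (RatFunc K) p.P ≠ 0 := RatFunc.algebraMap_ne_zero p.irr.ne_zero
  have hvm : V.vH (lg x) = (m : ℚ) := by
    rw [hm, map_add, map_zsmul, SG_v hV hP hw, add_zero, TGF.vH_lg V hP0, hV.vP, zsmul_eq_mul,
      mul_one]
  have hm0 : (m : ℚ) ≠ 0 := by
    rw [← hvm]
    exact hv
  have h3 := h.fs.n1 _ (nx_self x)
  have h4 : w1 w ∈ TS 1 (SG S) := wT_mem_TS 0 hw (TS_zero _ _)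
  have h5 : w1 (lg x) = (m : ℚ) • w1 (lg (algebraMap K[X] (RatFunc K) p.P)) + w1 w := by
    rw [w1, hm, wT_add, LinearMap.add_apply, Ps_zsmul, w1, w1]
  rw [h5, bx_add, map_add, h.sm x hx _ h4, add_zero, bx_smul, map_smul] at h3
  exact (smul_eq_zero.1 h3).resolve_left hm0

theorem ps_one (hP : p.P ∉ S) (hV : IsPt p V) {ψ : X 1 (RatFunc K) →ₗ[ℚ] W}
    {ϕ : RatFunc K → RatFunc K → W} (h : HF p S ψ ϕ) {x : RatFunc K}
    (hx : El (insert p.P S) x) (h0 : 0 < V.vH (lg (1 - x))) :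
    ψ (bx x (w1 (lg (algebraMap K[X] (RatFunc K) p.P)))) =
      ψ (bx 1 (w1 (lg (algebraMap K[X] (RatFunc K) p.P)))) := by
  by_cases hx0 : x = 0
  · rw [hx0, sub_zero, lg_one, map_zero] at h0
    exact absurd h0 (lt_irrefl _)
  by_cases hx1 : x = 1
  · rw [hx1]
  have h1x : 1 - x ≠ 0 := sub_ne_zero.2 (Ne.symm hx1)
  have hv1 : 0 < V.v (1 - x) := by
    rwa [TGF.vH_lg V h1x] at h0
  have hvx : V.v x = 0 := by
    have h6 := V.add_lt (x := (1 : RatFunc K)) (y := -(1 - x)) one_ne_zero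
      (Or.inr (by rw [TGF.v_neg V h1x, TGF.v_one V]; exact hv1))
    have h7 : (1 : RatFunc K) + -(1 - x) = x := by ring
    rw [h7, TGF.v_one V] at h6
    exact h6.2.1
  have h3 := h.fs.n1 _ (nx_three 1 x hx0 hx1 (w1 (lg (algebraMap K[X] (RatFunc K) p.P))))
  have h4 := ps_zero hP hV h (El_sub hx) (Or.inr h0.ne')
  have h5 := ps_zero hP hV h (x := 1 - x⁻¹) (El_sub (El_inv hx)) (by
    right
    have h8 : (1 : RatFunc K) - x⁻¹ = -(1 - x) / x := by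
      rw [eq_div_iff hx0, sub_mul, inv_mul_cancel₀ hx0]; ring
    have h9 : -(1 - x) / x ≠ 0 := div_ne_zero (neg_ne_zero.2 h1x) hx0
    rw [h8, lg_div (neg_ne_zero.2 h1x) hx0, map_sub, TGF.vH_lg V (neg_ne_zero.2 h1x), TGF.vH_lg V hx0,
      TGF.v_neg V h1x, hvx, sub_zero]
    exact hv1.ne')
  rw [map_sub, map_add, map_add, h4, h5, add_zero, add_zero] at h3
  exact sub_eq_zero.1 h3

end

end GD3
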