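import Pool.Agent.GD3.Cls
import Pool.Agent.GD3.Ps

set_option autoImplicit false

/-!
# GD3-Al1: ϕ on four elements of a class

PLAN.  Write q(u, v) for the element u / v of K(t), u, v ∈ XA p S c; q(u, v) is a 1-unit or 1, in El (S ∪ P) (xa_sub).
(a) three elements: ϕ (q(u,w)) (q(v,w)) = 0: if u = v: FS.self; if u = w or v = w: FV.one and swap.  Otherwise x = 1 - u/w = (w-u)/w, y = 1 - v/w: x, y ≠ 0, 1, x ≠ y, FS.star: ϕ x y = ψ(star 0 x y u0), and every term of the star element is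
[z] w1 λ with z ∈ El (S ∪ P): z = x/y = (w-u)/(w-v), 1 - z = (u-v)/(w-v) ; z = y(1-x)/(x(1-y)) = (w-v)u/((w-u)v), 1 - z = w(v-u)/((w-u)v) ; z = x, y, 1 ; (1-x)/(1-y) = u/v ; 1 - x = u/w ; 1 - y = v/w.  Slots: G = lg(u/v) ∈ SG S,
lg (x/y) ∈ SG S (the P cancels), lg y = P + (..), lg x = P + (..): the terms with V_S-slots vanish by HF.sm; the two terms [1 - x] P and - [1 - y] P cancel: both ψ-values are equal to ψ([1]P) by ps_one.  So ϕ x y = 0, and ϕ (1-x)(1-y) = ϕ x y (FV.sub twice, swap).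
(b) four elements u, v, w, z: in B_2 the five-term relation for x = w/v... gives: ϕ(·, t) applied to {w/v} + {v/z} + {z/w} equals ϕ(s, t) for s = {z(w-v)/(w(z-v))} - {(v-w)/(v-z)} up to sign, both entries in El S: FV.five with x = w/v, y = z/v (distinct, ≠ 1):
g(w/v) - g(z/v) + g(z/w) = g((1 - v/w)/(1 - v/z)) - g((1 - w/v)/(1 - z/v)), g(z/v) = - g(v/z).  Write σ(v,w,z) for the pair of El S entries.  So with E(t) := ϕ({w/v} + {v/z} + {z/w}, t) (t ∈ El (S ∪ P)) we have E(t) = 0 for t ∈ El S (HF.ph), and E(u/z) = ϕ(w/v, u/z)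
 as the other terms vanish by (a) (ϕ(v/z, u/z) = 0, ϕ(z/w, u/z): w/z and u/z have the common denominator z); E(u/w) = ϕ(v/z, u/w), E(z/w) = 0.  Apply linearity in t to {u/z} + {z/w} + {w/u} (again El S entries): E(u/z) + E(z/w) + E(w/u) = 0, so
 ϕ(w/v, u/z) = E(u/z) = - E(w/u) = E(u/w) = ϕ(v/z, u/w).  Put β(v,w,u,z) := ϕ(v/w, u/z): β(v,w,u,z) = -β(w,v,u,z) = -β(v,w,z,u) = -β(u,z,v,w), and the relation is -β(v,w,u,z) = β(v,z,u,w).  The transpositions (v w), (u z), (w z) change the sign, they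
 generate all permutations of the four places, and the exchange (v,w) ↔ (u,z) is a product of two transpositions (v u)(w z), so β(u,z,v,w) = β(v,w,u,z); with β(u,z,v,w) = -β(v,w,u,z) we get β = 0.  (If two of the four are equal: (a).)
-/

noncomputable section

open Polynomial TensorProduct
open scoped Classical

namespace GD3

open Helper14.Gon Helper14.W4 QPL TGF

universe u

section
variable {K k : Type u} [Field K] [Field k] {p : SRG.Pl K k} {V : AC (RatFunc K) k}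
  {S : Set K[X]}


private lemma al1_sgi (_hP : p.P ∉ S) : SG S ≤ SG (insert p.P S) := SG_mono (Set.subset_insert _ _)

private lemma al1_P_mem (p : SRG.Pl K k) (S : Set K[X]) :
    lg (algebraMap K[X] (RatFunc K) p.P) ∈ SG (insert p.P S) := by
  refine SG_pl p.irr.ne_zero (Or.inr fun Q hm hi hd => ?_)
  have h1 : Associated Q p.P := hi.associated_of_dvd p.irr hd
  exact Set.mem_insert_iff.2 (Or.inl (eq_of_monic_of_associated hm p.monic h1))

private lemma al1_P_v (hV : IsPt p V) : V.vH (lg (algebraMap K[X] (RatFunc K) p.P)) = 1 := by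
  have h0 : algebraMap K[X] (RatFunc K) p.P ≠ 0 := by
    intro h
    exact p.irr.ne_zero (RatFunc.algebraMap_injective K (by rw [h, map_zero]))
  rw [TGF.vH_lg V h0, hV.vP]

/-- the elements of the class -/
private def al1_X (p : SRG.Pl K k) (S : Set K[X]) (c : k) (a : RatFunc K) : Prop :=
  ∃ u : K[X], XA p S c u ∧ a = algebraMap K[X] (RatFunc K) u

private lemma al1_m0 {c : k} {a : RatFunc K} (ha : al1_X p S c a) : a ≠ 0 := by
  obtain ⟨u, hu, rfl⟩ := ha
  intro h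
  exact hu.1 (RatFunc.algebraMap_injective K (by rw [h, map_zero]))

private lemma al1_m1 {c : k} {a : RatFunc K} (ha : al1_X p S c a) : lg a ∈ SG S := by
  obtain ⟨u, hu, rfl⟩ := ha
  exact SG_pl hu.1 hu.2.1

private lemma al1_m2 (hS : SRG.Adm S p.d) (hP : p.P ∉ S) {c : k} {a b : RatFunc K}
    (ha : al1_X p S c a) (hb : al1_X p S c b) (hab : a ≠ b) :
    ∃ δ ∈ SG S, lg (a - b) = lg (algebraMap K[X] (RatFunc K) p.P) + δ := by
  obtain ⟨u, hu, rfl⟩ := ha
  obtain ⟨w, hw, rfl⟩ := hb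
  obtain ⟨D, h1, h2, h3⟩ := xa_sub hS hP hu hw
  have h4 : D ≠ 0 := h3 fun e => hab (by rw [e])
  have h5 : algebraMap K[X] (RatFunc K) p.P ≠ 0 := by
    intro h
    exact p.irr.ne_zero (RatFunc.algebraMap_injective K (by rw [h, map_zero]))
  have h6 : algebraMap K[X] (RatFunc K) D ≠ 0 := by
    intro h
    exact h4 (RatFunc.algebraMap_injective K (by rw [h, map_zero]))
  refine ⟨lg (algebraMap K[X] (RatFunc K) D), SG_pl h4 h2, ?_⟩
  rw [← map_sub, h1, map_mul, lg_mul h5 h6]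

private lemma al1_w1_mem {a : Additive (RatFunc K)ˣ} (ha : a ∈ SG S) :
    w1 a ∈ TS 1 (SG S) := wT_mem_TS 0 ha (TS_zero _ _)

private lemma al1_w1_add {F : Type u} [Field F] (a b : Additive Fˣ) :
    w1 (a + b) = w1 a + w1 b := by
  rw [w1, w1, w1, wT_add, LinearMap.add_apply]

variable {W : Type u} [AddCommGroup W] [Module ℚ W]

section
variable {F : Type u} [Field F] {ψ : X 1 F →ₗ[ℚ] W} {ϕ : F → F → W}

private lemma al1_one1 (h : FS ψ ϕ) (y : F) : ϕ 1 y = 0 := by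
  obtain ⟨g, hg⟩ := h.fv y
  rw [← hg, g.one]

private lemma al1_one2 (h : FS ψ ϕ) (y : F) : ϕ y 1 = 0 := by
  rw [h.swap, al1_one1 h, neg_zero]

private lemma al1_inv1 (h : FS ψ ϕ) (x y : F) : ϕ x⁻¹ y = - ϕ x y := by
  obtain ⟨g, hg⟩ := h.fv y
  rw [← hg, ← hg, g.inv]

private lemma al1_inv2 (h : FS ψ ϕ) (x y : F) : ϕ x y⁻¹ = - ϕ x y := by
  rw [h.swap, al1_inv1 h, h.swap x y]

private lemma al1_sub1 (h : FS ψ ϕ) (x y : F) : ϕ (1 - x) y = - ϕ x y := by
  obtain ⟨g, hg⟩ := h.fv y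
  rw [← hg, ← hg, g.sub]

private lemma al1_sub2 (h : FS ψ ϕ) (x y : F) : ϕ x (1 - y) = - ϕ x y := by
  rw [h.swap, al1_sub1 h, h.swap x y]

private lemma al1_di1 (h : FS ψ ϕ) (a b y : F) : ϕ (a / b) y = - ϕ (b / a) y := by
  rw [← al1_inv1 h, inv_div]

private lemma al1_di2 (h : FS ψ ϕ) (a b y : F) : ϕ y (a / b) = - ϕ y (b / a) := by
  rw [← al1_inv2 h, inv_div]

end

/-- three elements of a class, pairwise distinct -/
private lemma al1_three0 (hS : SRG.Adm S p.d) (hP : p.P ∉ S) (hV : IsPt p V)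
    {ψ : X 1 (RatFunc K) →ₗ[ℚ] W} {ϕ : RatFunc K → RatFunc K → W} (h : HF p S ψ ϕ) {c : k}
    {u v w : RatFunc K} (hu : al1_X p S c u) (hv : al1_X p S c v) (hw : al1_X p S c w)
    (huv : u ≠ v) (huw : u ≠ w) (hvw : v ≠ w) : ϕ (u / w) (v / w) = 0 := by
  have u0' := al1_m0 hu
  have v0' := al1_m0 hv
  have w0' := al1_m0 hw
  have lu := al1_m1 hu
  have lv := al1_m1 hv
  have lw := al1_m1 hw
  obtain ⟨δ1, d1, e1⟩ := al1_m2 hS hP hw hu (Ne.symm huw)
  obtain ⟨δ2, d2, e2⟩ := al1_m2 hS hP hw hv (Ne.symm hvw)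
  obtain ⟨δ3, d3, e3⟩ := al1_m2 hS hP hu hv huv
  obtain ⟨δ4, d4, e4⟩ := al1_m2 hS hP hv hu (Ne.symm huv)
  have n1 : w - u ≠ 0 := sub_ne_zero.2 (Ne.symm huw)
  have n2 : w - v ≠ 0 := sub_ne_zero.2 (Ne.symm hvw)
  have n3 : u - v ≠ 0 := sub_ne_zero.2 huv
  have n4 : v - u ≠ 0 := sub_ne_zero.2 (Ne.symm huv)
  have le := al1_sgi (p := p) (S := S) hP
  have pm := al1_P_mem p S
  set π0 := lg (algebraMap K[X] (RatFunc K) p.P) with hπ0
  set x := 1 - u / w with hx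
  set y := 1 - v / w with hy
  have ex : x = (w - u) / w := by rw [hx, eq_div_iff w0', sub_mul, div_mul_cancel₀ _ w0', one_mul]
  have ey : y = (w - v) / w := by rw [hy, eq_div_iff w0', sub_mul, div_mul_cancel₀ _ w0', one_mul]
  have x0 : x ≠ 0 := by rw [ex]; exact div_ne_zero n1 w0'
  have y0 : y ≠ 0 := by rw [ey]; exact div_ne_zero n2 w0'
  have x1' : 1 - x = u / w := by rw [hx]; ring
  have y1' : 1 - y = v / w := by rw [hy]; ring
  have x1 : x ≠ 1 := by
    intro e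
    rw [e, sub_self] at x1'
    exact div_ne_zero u0' w0' x1'.symm
  have y1 : y ≠ 1 := by
    intro e
    rw [e, sub_self] at y1'
    exact div_ne_zero v0' w0' y1'.symm
  have xy : x ≠ y := by
    intro e
    rw [ex, ey, div_left_inj' w0'] at e
    exact huv (sub_right_injective e)
  have lx : lg x = π0 + (δ1 - lg w) := by rw [ex, lg_div n1 w0', e1]; abel
  have ly : lg y = π0 + (δ2 - lg w) := by rw [ey, lg_div n2 w0', e2]; abel
  have lx1 : lg (1 - x) = lg u - lg w := by rw [x1', lg_div u0' w0']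
  have ly1 : lg (1 - y) = lg v - lg w := by rw [y1', lg_div v0' w0']
  have Elx : El (insert p.P S) x := by
    refine ⟨?_, ?_⟩
    · rw [lx]
      exact add_mem pm (le (sub_mem d1 lw))
    · rw [lx1]
      exact le (sub_mem lu lw)
  have Ely : El (insert p.P S) y := by
    refine ⟨?_, ?_⟩
    · rw [ly]
      exact add_mem pm (le (sub_mem d2 lw))
    · rw [ly1]
      exact le (sub_mem lv lw)
  have hs1 : lg ((1 - x) / (1 - y)) ∈ SG S := by
    rw [x1', y1', lg_div (div_ne_zero u0' w0') (div_ne_zero v0' w0'), lg_div u0' w0', lg_div v0' w0']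
    exact sub_mem (sub_mem lu lw) (sub_mem lv lw)
  have hs2 : lg (x / y) = δ1 - δ2 := by
    rw [lg_div x0 y0, lx, ly]; abel
  have hs2' : lg (x / y) ∈ SG S := by
    rw [hs2]
    exact sub_mem d1 d2
  have El1 : El (insert p.P S) (x / y) := by
    refine ⟨le hs2', ?_⟩
    have e : 1 - x / y = (u - v) / (w - v) := by
      rw [ex, ey]
      field_simp
      ring
    rw [e, lg_div n3 n2, e3, e2]
    have e' : π0 + δ3 - (π0 + δ2) = δ3 - δ2 := by abel
    rw [e']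
    exact le (sub_mem d3 d2)
  have El2 : El (insert p.P S) (y * (1 - x) / (x * (1 - y))) := by
    have x1n : 1 - x ≠ 0 := sub_ne_zero.2 (Ne.symm x1)
    have y1n : 1 - y ≠ 0 := sub_ne_zero.2 (Ne.symm y1)
    refine ⟨?_, ?_⟩
    · rw [lg_div (mul_ne_zero y0 x1n) (mul_ne_zero x0 y1n), lg_mul y0 x1n, lg_mul x0 y1n]
      exact sub_mem (add_mem Ely.1 Elx.2) (add_mem Elx.1 Ely.2)
    · have e : 1 - y * (1 - x) / (x * (1 - y)) = w * (v - u) / ((w - u) * v) := by
        rw [x1', y1', ex, ey]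
        field_simp
        ring
      rw [e, lg_div (mul_ne_zero w0' n4) (mul_ne_zero n1 v0'), lg_mul w0' n4, lg_mul n1 v0', e4, e1]
      exact sub_mem (add_mem (le lw) (add_mem pm (le d4))) (add_mem (add_mem pm (le d1)) (le lv))
  have El3 : El (insert p.P S) ((1 - x) / (1 - y)) := by
    refine ⟨le hs1, ?_⟩
    have e : 1 - (1 - x) / (1 - y) = (v - u) / v := by
      rw [x1', y1']
      field_simp
    rw [e, lg_div n4 v0', e4]
    exact sub_mem (add_mem pm (le d4)) (le lv)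
  have El0 : El (insert p.P S) (1 : RatFunc K) := by
    refine ⟨?_, ?_⟩
    · rw [lg_one]; exact zero_mem _
    · rw [sub_self, lg_zero]; exact zero_mem _
  have vP := al1_P_v hV
  rw [← hπ0] at vP
  have vx : 0 < V.vH (lg (1 - (1 - x))) := by
    rw [sub_sub_cancel, lx, map_add, SG_v hV hP (sub_mem d1 lw), vP]
    norm_num
  have vy : 0 < V.vH (lg (1 - (1 - y))) := by
    rw [sub_sub_cancel, ly, map_add, SG_v hV hP (sub_mem d2 lw), vP]
    norm_num
  have p1 := ps_one hP hV h (El_sub Elx) vx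
  have p2 := ps_one hP hV h (El_sub Ely) vy
  rw [← hπ0] at p1 p2
  have q1 : ψ (bx (1 - x) (w1 (lg y))) = ψ (bx 1 (w1 π0)) := by
    rw [ly, al1_w1_add, bx_add, map_add, p1,
      h.sm _ (El_sub Elx) _ (al1_w1_mem (sub_mem d2 lw)), add_zero]
  have q2 : ψ (bx (1 - y) (w1 (lg x))) = ψ (bx 1 (w1 π0)) := by
    rw [lx, al1_w1_add, bx_add, map_add, p2,
      h.sm _ (El_sub Ely) _ (al1_w1_mem (sub_mem d1 lw)), add_zero]
  have m1 := al1_w1_mem hs1
  have m2 := al1_w1_mem hs2'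
  have key : ψ (star 0 x y (u0 (RatFunc K))) = 0 := by
    have e : star 0 x y (u0 (RatFunc K)) =
      bx (x / y) (w1 (lg ((1 - x) / (1 - y)))) -
      bx (y * (1 - x) / (x * (1 - y))) (w1 (lg ((1 - x) / (1 - y)))) -
      bx x (w1 (lg ((1 - x) / (1 - y)))) -
      bx y (w1 (lg ((1 - x) / (1 - y)))) +
      bx 1 (w1 (lg ((1 - x) / (1 - y)))) +
      bx ((1 - x) / (1 - y)) (w1 (lg (x / y))) +
      bx (1 - x) (w1 (lg y)) - bx (1 - y) (w1 (lg x)) := rfl
    rw [e, map_sub, map_add, map_add, map_add, map_sub, map_sub, map_sub, q1, q2,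
      h.sm _ El1 _ m1, h.sm _ El2 _ m1, h.sm _ Elx _ m1, h.sm _ Ely _ m1, h.sm _ El0 _ m1,
      h.sm _ El3 _ m2]
    abel
  have r1 : ϕ x y = ϕ (u / w) (v / w) := by
    rw [hx, hy, al1_sub1 h.fs, al1_sub2 h.fs, neg_neg]
  rw [← r1, ← h.fs.star x y x0 x1 y0 y1 xy, key]

/-- three elements of a class -/
private lemma al1_three (hS : SRG.Adm S p.d) (hP : p.P ∉ S) (hV : IsPt p V)
    {ψ : X 1 (RatFunc K) →ₗ[ℚ] W} {ϕ : RatFunc K → RatFunc K → W} (h : HF p S ψ ϕ) {c : k}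
    {u v w : RatFunc K} (hu : al1_X p S c u) (hv : al1_X p S c v) (hw : al1_X p S c w) :
    ϕ (u / w) (v / w) = 0 := by
  by_cases huv : u = v
  · rw [huv]; exact h.fs.self _
  by_cases huw : u = w
  · rw [huw, div_self (al1_m0 hw)]; exact al1_one1 h.fs _
  by_cases hvw : v = w
  · rw [hvw, div_self (al1_m0 hw)]; exact al1_one2 h.fs _
  exact al1_three0 hS hP hV h hu hv hw huv huw hvw

/-- the five-term relation for three elements of a class -/
private lemma al1_five (hS : SRG.Adm S p.d) (hP : p.P ∉ S)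
    {ψ : X 1 (RatFunc K) →ₗ[ℚ] W} {ϕ : RatFunc K → RatFunc K → W} (h : HF p S ψ ϕ) {c : k}
    {v w z : RatFunc K} (hv : al1_X p S c v) (hw : al1_X p S c w) (hz : al1_X p S c z)
    (hvw : v ≠ w) (hvz : v ≠ z) (hwz : w ≠ z) :
    ∃ a b : RatFunc K, El S a ∧ El S b ∧ ∀ t : RatFunc K,
      ϕ (w / v) t + ϕ (v / z) t + ϕ (z / w) t = ϕ a t - ϕ b t := by
  have v0' := al1_m0 hv
  have w0' := al1_m0 hw
  have z0' := al1_m0 hz
  have lv := al1_m1 hv
  have lw := al1_m1 hw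
  have lz := al1_m1 hz
  obtain ⟨δ1, d1, e1⟩ := al1_m2 hS hP hw hv (Ne.symm hvw)
  obtain ⟨δ2, d2, e2⟩ := al1_m2 hS hP hz hv (Ne.symm hvz)
  obtain ⟨δ3, d3, e3⟩ := al1_m2 hS hP hz hw (Ne.symm hwz)
  obtain ⟨δ4, d4, e4⟩ := al1_m2 hS hP hv hw hvw
  obtain ⟨δ5, d5, e5⟩ := al1_m2 hS hP hv hz hvz
  obtain ⟨δ6, d6, e6⟩ := al1_m2 hS hP hw hz hwz
  have n1 : w - v ≠ 0 := sub_ne_zero.2 (Ne.symm hvw)
  have n2 : z - v ≠ 0 := sub_ne_zero.2 (Ne.symm hvz)
  have n3 : z - w ≠ 0 := sub_ne_zero.2 (Ne.symm hwz)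
  have n4 : v - w ≠ 0 := sub_ne_zero.2 hvw
  have n5 : v - z ≠ 0 := sub_ne_zero.2 hvz
  have n6 : w - z ≠ 0 := sub_ne_zero.2 hwz
  set π0 := lg (algebraMap K[X] (RatFunc K) p.P) with hπ0
  have ea : (1 - (w / v)⁻¹) / (1 - (z / v)⁻¹) = z * (w - v) / (w * (z - v)) := by
    rw [inv_div, inv_div]
    have h1 : 1 - v / w = (w - v) / w := by
      rw [eq_div_iff w0', sub_mul, div_mul_cancel₀ _ w0', one_mul]
    have h2 : 1 - v / z = (z - v) / z := by
      rw [eq_div_iff z0', sub_mul, div_mul_cancel₀ _ z0', one_mul]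
    rw [h1, h2]
    field_simp
  have eb : (1 - w / v) / (1 - z / v) = (v - w) / (v - z) := by
    have h1 : 1 - w / v = (v - w) / v := by
      rw [eq_div_iff v0', sub_mul, div_mul_cancel₀ _ v0', one_mul]
    have h2 : 1 - z / v = (v - z) / v := by
      rw [eq_div_iff v0', sub_mul, div_mul_cancel₀ _ v0', one_mul]
    rw [h1, h2]
    field_simp
  refine ⟨z * (w - v) / (w * (z - v)), (v - w) / (v - z), ⟨?_, ?_⟩, ⟨?_, ?_⟩, ?_⟩
  · rw [lg_div (mul_ne_zero z0' n1) (mul_ne_zero w0' n2), lg_mul z0' n1, lg_mul w0' n2, e1, e2]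
    have e : lg z + (π0 + δ1) - (lg w + (π0 + δ2)) = lg z + δ1 - (lg w + δ2) := by abel
    rw [e]
    exact sub_mem (add_mem lz d1) (add_mem lw d2)
  · have e : 1 - z * (w - v) / (w * (z - v)) = v * (z - w) / (w * (z - v)) := by
      field_simp
      ring
    rw [e, lg_div (mul_ne_zero v0' n3) (mul_ne_zero w0' n2), lg_mul v0' n3, lg_mul w0' n2, e3, e2]
    have e' : lg v + (π0 + δ3) - (lg w + (π0 + δ2)) = lg v + δ3 - (lg w + δ2) := by abel
    rw [e']
    exact sub_mem (add_mem lv d3) (add_mem lw d2)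
  · rw [lg_div n4 n5, e4, e5]
    have e : π0 + δ4 - (π0 + δ5) = δ4 - δ5 := by abel
    rw [e]
    exact sub_mem d4 d5
  · have e : 1 - (v - w) / (v - z) = (w - z) / (v - z) := by
      field_simp
      ring
    rw [e, lg_div n6 n5, e6, e5]
    have e' : π0 + δ6 - (π0 + δ5) = δ6 - δ5 := by abel
    rw [e']
    exact sub_mem d6 d5
  · intro t
    obtain ⟨g, hg⟩ := h.fs.fv t
    have x0 : w / v ≠ 0 := div_ne_zero w0' v0'
    have y0 : z / v ≠ 0 := div_ne_zero z0' v0'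
    have x1 : w / v ≠ 1 := fun e => hvw ((div_eq_one_iff_eq v0').1 e).symm
    have y1 : z / v ≠ 1 := fun e => hvz ((div_eq_one_iff_eq v0').1 e).symm
    have xy : w / v ≠ z / v := fun e => hwz ((div_left_inj' v0').1 e)
    have h1 := g.five (w / v) (z / v) x0 x1 y0 y1 xy
    rw [ea, eb] at h1
    have h2 : z / v / (w / v) = z / w := by
      field_simp
    have h3 : g.g (z / v) = - g.g (v / z) := by
      rw [← g.inv, inv_div]
    rw [h2, h3] at h1
    rw [← hg, ← hg, ← hg, ← hg, ← hg]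
    have h4 : g.g (w / v) + g.g (v / z) + g.g (z / w) -
        (g.g (z * (w - v) / (w * (z - v))) - g.g ((v - w) / (v - z))) =
      g.g (w / v) - - g.g (v / z) + g.g (z / w) - g.g (z * (w - v) / (w * (z - v))) +
        g.g ((v - w) / (v - z)) := by abel
    rw [← sub_eq_zero, h4, h1]

/-- exchange of the second and the fourth place -/
private lemma al1_ex (hS : SRG.Adm S p.d) (hP : p.P ∉ S) (hV : IsPt p V)
    {ψ : X 1 (RatFunc K) →ₗ[ℚ] W} {ϕ : RatFunc K → RatFunc K → W} (h : HF p S ψ ϕ) {c : k}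
    {u v w z : RatFunc K} (hu : al1_X p S c u) (hv : al1_X p S c v) (hw : al1_X p S c w)
    (hz : al1_X p S c z) (huw : u ≠ w) (huz : u ≠ z)
    (hvw : v ≠ w) (hvz : v ≠ z) (hwz : w ≠ z) :
    ϕ (v / w) (u / z) = - ϕ (v / z) (u / w) := by
  obtain ⟨a, b, ea, eb, h1⟩ := al1_five hS hP h hv hw hz hvw hvz hwz
  obtain ⟨a', b', ea', eb', h2⟩ := al1_five hS hP h hz hu hw (Ne.symm huz) (Ne.symm hwz) huw
  -- the values of the second combination at level `S` are zero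
  have h3 : ∀ s : RatFunc K, El S s → ϕ s (u / z) + ϕ s (z / w) + ϕ s (w / u) = 0 := by
    intro s hs
    have h4 := h2 s
    rw [h.ph _ _ ea' hs, h.ph _ _ eb' hs, sub_zero] at h4
    rw [h.fs.swap s (u / z), h.fs.swap s (z / w), h.fs.swap s (w / u), ← neg_add, ← neg_add,
      h4, neg_zero]
  have t1 := h1 (u / z)
  have t2 := h1 (z / w)
  have t3 := h1 (w / u)
  have ha := h3 a ea
  have hb := h3 b eb
  -- the first value
  have c1 : ϕ (v / z) (u / z) = 0 := al1_three hS hP hV h hv hu hz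
  have c2 : ϕ (z / w) (u / z) = 0 := by
    rw [al1_di1 h.fs, al1_three hS hP hV h hw hu hz, neg_zero]
  have c3 : ϕ (w / v) (z / w) = 0 := by
    rw [al1_di1 h.fs, al1_three hS hP hV h hv hz hw, neg_zero]
  have c4 : ϕ (v / z) (z / w) = 0 := by
    rw [al1_di2 h.fs, al1_three hS hP hV h hv hw hz, neg_zero]
  have c5 : ϕ (z / w) (z / w) = 0 := h.fs.self _
  have c6 : ϕ (w / v) (w / u) = 0 := by
    rw [al1_di1 h.fs, al1_di2 h.fs, al1_three hS hP hV h hv hu hw, neg_zero, neg_zero]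
  have c7 : ϕ (z / w) (w / u) = 0 := by
    rw [al1_di2 h.fs, al1_three hS hP hV h hz hu hw, neg_zero]
  rw [c1, c2, add_zero, add_zero] at t1
  rw [c3, c4, c5, add_zero, add_zero] at t2
  rw [c6, c7, zero_add, add_zero] at t3
  have k1 : ϕ (w / v) (u / z) + ϕ (v / z) (w / u) = 0 := by
    have e : ϕ (w / v) (u / z) + ϕ (v / z) (w / u) =
        (ϕ a (u / z) + ϕ a (z / w) + ϕ a (w / u)) -
          (ϕ b (u / z) + ϕ b (z / w) + ϕ b (w / u)) := by
      rw [t1, t3]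
      have e2 : ϕ a (u / z) - ϕ b (u / z) + (ϕ a (w / u) - ϕ b (w / u)) =
          (ϕ a (u / z) + ϕ a (z / w) + ϕ a (w / u)) -
          (ϕ b (u / z) + ϕ b (z / w) + ϕ b (w / u)) - (ϕ a (z / w) - ϕ b (z / w)) := by abel
      rw [e2, ← t2, sub_zero]
    rw [e, ha, hb, sub_zero]
  rw [al1_di1 h.fs, al1_di2 h.fs w u] at k1
  rw [← sub_eq_zero, sub_neg_eq_add]
  have k2 : ϕ (v / w) (u / z) + ϕ (v / z) (u / w) =
    - (- ϕ (v / w) (u / z) + - ϕ (v / z) (u / w)) := by abel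
  rw [k2, k1, neg_zero]

private lemma al1_four0 (hS : SRG.Adm S p.d) (hP : p.P ∉ S) (hV : IsPt p V)
    {ψ : X 1 (RatFunc K) →ₗ[ℚ] W} {ϕ : RatFunc K → RatFunc K → W} (h : HF p S ψ ϕ) {c : k}
    {u v w z : RatFunc K} (hu : al1_X p S c u) (hv : al1_X p S c v) (hw : al1_X p S c w)
    (hz : al1_X p S c z) : ϕ (v / w) (u / z) = 0 := by
  by_cases hvw : v = w
  · rw [hvw, div_self (al1_m0 hw)]; exact al1_one1 h.fs _
  by_cases huz : u = z
  · rw [huz, div_self (al1_m0 hz)]; exact al1_one2 h.fs _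
  by_cases hwz : w = z
  · rw [hwz]; exact al1_three hS hP hV h hv hu hz
  by_cases hvz : v = z
  · rw [hvz, al1_di1 h.fs, al1_three hS hP hV h hw hu hz, neg_zero]
  by_cases huw : u = w
  · rw [huw, al1_di2 h.fs, al1_three hS hP hV h hv hz hw, neg_zero]
  by_cases huv : u = v
  · rw [huv, al1_di1 h.fs, al1_di2 h.fs, al1_three hS hP hV h hw hz hv, neg_zero, neg_zero]
  have s1 : ϕ (v / w) (u / z) = - ϕ (v / z) (u / w) :=
    al1_ex hS hP hV h hu hv hw hz huw huz hvw hvz hwz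
  have s2 : ϕ (v / z) (u / w) = ϕ (z / v) (w / u) := by
    rw [al1_di1 h.fs v z, al1_di2 h.fs u w, neg_neg]
  have s3 : ϕ (z / v) (w / u) = - ϕ (z / u) (w / v) :=
    al1_ex hS hP hV h hw hz hv hu (Ne.symm hvw) (Ne.symm huw) (Ne.symm hvz) (Ne.symm huz)
      (Ne.symm huv)
  have s4 : ϕ (z / u) (w / v) = ϕ (u / z) (v / w) := by
    rw [al1_di1 h.fs z u, al1_di2 h.fs w v, neg_neg]
  have s5 : ϕ (u / z) (v / w) = - ϕ (v / w) (u / z) := h.fs.swap _ _
  have s6 : ϕ (v / w) (u / z) = - ϕ (v / w) (u / z) := by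
    rw [s2, s3, s4, s5, neg_neg] at s1
    exact s1
  have s7 : (2 : ℚ) • ϕ (v / w) (u / z) = 0 := by
    rw [two_smul]
    nth_rewrite 2 [s6]
    exact add_neg_cancel _
  exact (smul_eq_zero.1 s7).resolve_left two_ne_zero


theorem al_four (hS : SRG.Adm S p.d) (hP : p.P ∉ S) (hV : IsPt p V)
    {ψ : X 1 (RatFunc K) →ₗ[ℚ] W} {ϕ : RatFunc K → RatFunc K → W} (h : HF p S ψ ϕ) {c : k}
    {u v w z : K[X]} (hu : XA p S c u) (hv : XA p S c v) (hw : XA p S c w)
    (hz : XA p S c z) :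
    ϕ (algebraMap K[X] (RatFunc K) v / algebraMap K[X] (RatFunc K) w)
      (algebraMap K[X] (RatFunc K) u / algebraMap K[X] (RatFunc K) z) = 0 :=
  al1_four0 hS hP hV h ⟨u, hu, rfl⟩ ⟨v, hv, rfl⟩ ⟨w, hw, rfl⟩ ⟨z, hz, rfl⟩

end

end GD3
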