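import Pool.Agent.GD3.Hat
import Pool.Agent.TGF.Om1
import Pool.Agent.TGF.Fv
import Pool.Agent.TGF.Pt

set_option autoImplicit false

/-!
# GD3-Bn: the quadratic form b and the function ν

PLAN.  exists_bn: `exists_hat` gives H; `exists_chi hS hP hV 1 H` (TGF/Om1.lean) gives χ with
H (bx x μ) = v(1 - x) χ(x) μ - v(x) χ(1 - x) μ for x in El (S ∪ P), μ ∈ TS 1 (SG S).  b0 (v, w) = χ v (w1 w)
(w1 is additive: wT_add, wTH).  Unit x (v x = 0, so lg x ∈ SG S by SG_insert_v): h [x] = H ([x] w1 x) = v(1 - x) b0(x, x).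
Zero x (v x = i > 0, an integer; SG_insert gives lg x = m P + w, w ∈ SG S, P := lg p.P, i = m as v P = 1, v w = 0; v(1 - x) = 0):
h [x] = H ([x] w1 w) + i H ([x] w1 P) = - i b0(1 - x, w) + i H ([x] w1 P) = i (H([x] w1 P) + i b0(1 - x, P) - b0(1 - x, x)), and
x ↦ H ([x] w1 P) is in FV (fv_of), i b0(1 - x, P) is the value at x of the FV function x ↦ v(x) b0(1-x, P) - v(1-x) b0(x, P)
(a form O(1 - x, x), O(a, c) = v(c) b0(a, P) - v(a) b0(c, P), alternating: Helper11.Gon.AF, AF.St, the FV axioms of AF.St are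
AF.St_inv, AF.five, see FV.tw in SRG/Defs.lean).  (v(1 - x) = 0 if v x > 0: P does not divide a denominator; see psi_pos in TGF/Psi1.lean, chi_quad in TGF/Om2.lean.)
bn_change: f := b - b' is bilinear with f g g = 0 for g ∈ H := KG p S.  Extend f to the rational vector space WQ (or ℚ ⊗ E^*), let π be a linear projection onto
the span of H, G(v, w) := f(π v, π w) + f(π v, w - π w) - f(π w, v - π v).  G is alternating (f(π v, π v) = 0: π v is a rational combination of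
elements of H, so a multiple of an element of H) and G(g, w) = f(g, w) for g ∈ H.  For a zero x: 1 - x is a 1-unit, lg (1 - x) ∈ KG p S (mem_KG), so
ν' := ν - G(1 - x, x) works.  For a unit x with v(1 - x) ≠ 0: lg x ∈ KG p S; if v(1 - x) = 0 both sides are 0.
exists_bn_sym: b(v, w) := (b0(v, w) + b0(w, v)) / 2 and bn_change.
-/

noncomputable section

open Polynomial TensorProduct
open scoped Classical

namespace GD3

open Helper14.Gon Helper14.W4 QPL TGF

universe u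

section
variable {K k : Type u} [Field K] [Field k] {p : SRG.Pl K k} {V : AC (RatFunc K) k}
  {S : Set K[X]}

variable {W : Type u} [AddCommGroup W] [Module ℚ W]

private lemma bn_am {A : K[X]} (hA : A ≠ 0) : algebraMap K[X] (RatFunc K) A ≠ 0 :=
  RatFunc.algebraMap_ne_zero hA

/-- a smooth element near `1` is in `KG` -/
private lemma bn_near (hP : p.P ∉ S) (hV : IsPt p V) {y : RatFunc K} (hy : y ≠ 0)
    (hyS : lg y ∈ SG S) (h1 : 0 < V.v (1 - y)) (hy1 : 1 - y ≠ 0) : lg y ∈ SRG.KG p S := by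
  obtain ⟨A, B, hA, hB, hA', hB', e⟩ := (SG_iff S y hy).1 hyS
  have hBd : ¬ p.P ∣ B := fun h2 => by
    rcases hB' with h3 | h3
    · exact hB h3
    · exact hP (h3 p.P p.monic p.irr h2)
  have h3 : 1 - y = algebraMap K[X] (RatFunc K) (B - A) / algebraMap K[X] (RatFunc K) B := by
    rw [e, map_sub, _root_.sub_div, div_self (bn_am hB)]
  have hBA : B - A ≠ 0 := by
    intro h4
    rw [h3, h4, map_zero, zero_div] at hy1
    exact hy1 rfl
  have h5 : (1 - y) * algebraMap K[X] (RatFunc K) B = algebraMap K[X] (RatFunc K) (B - A) := by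
    rw [h3, div_mul_cancel₀ _ (bn_am hB)]
  have h6 := V.v_mul hy1 (bn_am hB)
  rw [h5, hV.v B hBd, add_zero] at h6
  have h7 : p.P ∣ B - A := by
    by_contra h8
    rw [hV.v _ h8] at h6
    linarith
  have h8 : p.P ∣ A - B := by
    rw [← neg_sub]
    exact (dvd_neg).2 h7
  rw [e, lg_div (bn_am hA) (bn_am hB)]
  exact SRG.KG_mk hA hB hA' hB' h8

private lemma bn_v1 : V.v (1 : RatFunc K) = 0 := by
  have h := V.v_mul (x := (1 : RatFunc K)) (y := 1) one_ne_zero one_ne_zero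
  rw [mul_one] at h
  linarith

private lemma bn_vneg (x : RatFunc K) (hx : x ≠ 0) : V.v (-x) = V.v x := by
  have h1 := V.v_mul (x := (-1 : RatFunc K)) (y := -1) (neg_ne_zero.2 one_ne_zero)
    (neg_ne_zero.2 one_ne_zero)
  rw [neg_mul_neg, mul_one, bn_v1] at h1
  have h2 := V.v_mul (x := (-1 : RatFunc K)) (neg_ne_zero.2 one_ne_zero) hx
  rw [neg_one_mul] at h2
  linarith

theorem kg_unit (hS : SRG.Adm S p.d) (hP : p.P ∉ S) (hV : IsPt p V) {x : RatFunc K}
    (hx : El (insert p.P S) x) (h0 : V.vH (lg x) = 0) (h1 : V.vH (lg (1 - x)) ≠ 0) :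
    lg x ∈ SRG.KG p S ∧ 0 < V.vH (lg (1 - x)) := by
  have hx1 : 1 - x ≠ 0 := by
    intro h
    rw [h, lg_zero, map_zero] at h1
    exact h1 rfl
  have hx0 : x ≠ 0 := by
    intro h
    rw [h, sub_zero, lg_one, map_zero] at h1
    exact h1 rfl
  rw [TGF.vH_lg V hx1] at h1 ⊢
  rw [TGF.vH_lg V hx0] at h0
  have hxS : lg x ∈ SG S := SG_insert_v hV hP hx.1 (by rw [TGF.vH_lg V hx0]; exact h0)
  have h2 : V.v (1 : RatFunc K) = V.v (-x) := by rw [bn_v1, bn_vneg x hx0, h0]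
  have hpos : 0 < V.v (1 - x) := by
    by_cases h3 : V.lc 1 + V.lc (-x) = 0
    · rcases V.add_eq one_ne_zero (neg_ne_zero.2 hx0) h2 h3 with h4 | h4
      · rw [← sub_eq_add_neg] at h4
        exact absurd h4 hx1
      · rwa [bn_v1, ← sub_eq_add_neg] at h4
    · have h4 := (V.add_ne one_ne_zero (neg_ne_zero.2 hx0) h2 h3).2.1
      rw [← sub_eq_add_neg, bn_v1] at h4
      exact absurd h4 h1
  exact ⟨bn_near hP hV hx0 hxS hpos hx1, hpos⟩

theorem kg_zero (hS : SRG.Adm S p.d) (hP : p.P ∉ S) (hV : IsPt p V) {x : RatFunc K}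
    (hx : El (insert p.P S) x) (h0 : 0 < V.vH (lg x)) :
    lg (1 - x) ∈ SRG.KG p S ∧ V.vH (lg (1 - x)) = 0 := by
  have hx0 : x ≠ 0 := by
    intro h
    rw [h, lg_zero, map_zero] at h0
    exact absurd h0 (lt_irrefl _)
  rw [TGF.vH_lg V hx0] at h0
  obtain ⟨h2, h3, -⟩ := V.add_lt (x := (1 : RatFunc K)) (y := -x) one_ne_zero
    (Or.inr (by rw [bn_v1, bn_vneg x hx0]; exact h0))
  rw [← sub_eq_add_neg] at h2 h3
  rw [bn_v1] at h3
  have h4 : V.vH (lg (1 - x)) = 0 := by rw [TGF.vH_lg V h2]; exact h3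
  have h5 : lg (1 - x) ∈ SG S := SG_insert_v hV hP hx.2 h4
  refine ⟨bn_near hP hV h2 h5 ?_ ?_, h4⟩
  · rw [sub_sub_cancel]; exact h0
  · rw [sub_sub_cancel]; exact hx0

/-- evaluation of a five-term function -/
private def bn_ev {F : Type u} [Field F] {T : Type u} [AddCommGroup T] [Module ℚ T]
    (g : SRG.FV F (T →ₗ[ℚ] W)) (ω : T) : SRG.FV F W where
  g := fun x => g.g x ω
  zero := by rw [g.zero, LinearMap.zero_apply]
  one := by rw [g.one, LinearMap.zero_apply]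
  inv := fun x => by rw [g.inv, LinearMap.neg_apply]
  sub := fun x => by rw [g.sub, LinearMap.neg_apply]
  five := fun x y a b c d e => by
    have h := LinearMap.congr_fun (g.five x y a b c d e) ω
    rw [LinearMap.add_apply, LinearMap.sub_apply, LinearMap.add_apply, LinearMap.sub_apply,
      LinearMap.zero_apply] at h
    exact h

private lemma bn_w1_add {F : Type u} [Field F] (a b : Additive Fˣ) :
    w1 (a + b) = w1 a + w1 b := by
  rw [w1, w1, w1, wT_add, LinearMap.add_apply]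

private lemma bn_w1_zsmul {F : Type u} [Field F] (m : ℤ) (a : Additive Fˣ) :
    w1 (m • a) = (m : ℚ) • w1 a := by
  have h : wT 0 (m • a) = m • wT 0 a := map_zsmul (wTH 0) m a
  rw [w1, w1, h, LinearMap.smul_apply, Int.cast_smul_eq_zsmul]

private lemma bn_w1_mem {a : Additive (RatFunc K)ˣ} (ha : a ∈ SG S) :
    w1 a ∈ TS 1 (SG S) := wT_mem_TS 0 ha (TS_zero _ _)

/-- the bilinear map of `χ` -/
private def bn_b {F : Type u} [Field F] (χ : Additive Fˣ →+ (Tx 1 F →ₗ[ℚ] W)) :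
    Additive Fˣ →+ Additive Fˣ →+ W :=
  AddMonoidHom.mk' (fun v => AddMonoidHom.mk' (fun w => χ v (w1 w))
    (fun a b => by rw [bn_w1_add, map_add]))
    (fun a b => by
      ext w
      change χ (a + b) (w1 w) = χ a (w1 w) + χ b (w1 w)
      rw [map_add, LinearMap.add_apply])

private lemma bn_b_apply {F : Type u} [Field F] (χ : Additive Fˣ →+ (Tx 1 F →ₗ[ℚ] W))
    (v w : Additive Fˣ) : bn_b χ v w = χ v (w1 w) := rfl

/-- the alternating form `O(a, c) = v(a) β(c) - v(c) β(a)` -/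
private def bn_O {G : Type u} [AddCommGroup G] (θ : G →+ ℚ) (β : G →+ W) : G →+ G →+ W :=
  AddMonoidHom.mk' (fun a => AddMonoidHom.mk' (fun c => θ a • β c - θ c • β a)
    (fun c d => by rw [map_add, map_add]; module))
    (fun a b => by
      ext c
      change θ (a + b) • β c - θ c • β (a + b) =
        (θ a • β c - θ c • β a) + (θ b • β c - θ c • β b)
      rw [map_add, map_add]; module)

private lemma bn_O_apply {G : Type u} [AddCommGroup G] (θ : G →+ ℚ) (β : G →+ W) (a c : G) :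
    bn_O θ β a c = θ a • β c - θ c • β a := rfl

theorem exists_bn (hS : SRG.Adm S p.d) (hP : p.P ∉ S) (hV : IsPt p V) (hQ : QD S)
    (h : X 0 (RatFunc K) →ₗ[ℚ] W) (h1 : ∀ z ∈ NX 0 (RatFunc K), h z = 0)
    (h2 : ∀ z ∈ Lv 0 S, h z = 0) :
    ∃ (b : Additive (RatFunc K)ˣ →+ Additive (RatFunc K)ˣ →+ W) (ν : SRG.FV (RatFunc K) W),
      BN p V S h b ν := by
  obtain ⟨H, hH1, hH2, hH3⟩ := exists_hat hQ h h1 h2
  obtain ⟨χ, hχ⟩ := exists_chi hS hP hV 1 H hH1 hH2
  obtain ⟨g, hg⟩ := fv_of 1 H hH1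
  have hh : ∀ x : RatFunc K, h (bx x (u0 (RatFunc K))) = H (bx x (w1 (lg x))) := by
    intro x
    rw [← hH3, d3_bx]
    rfl
  obtain ⟨π, hπ⟩ : ∃ π, π = lg (algebraMap K[X] (RatFunc K) p.P) := ⟨_, rfl⟩
  have hπ1 : V.vH π = 1 := by
    rw [hπ, TGF.vH_lg V (bn_am p.irr.ne_zero), hV.vP]
  let o : Helper11.Gon.AF (RatFunc K) W :=
    ⟨bn_O V.vH ((bn_b χ).flip π), fun v => by rw [bn_O_apply, sub_self]⟩
  refine ⟨bn_b χ, SRG.FV.tw (bn_ev g (w1 π)) o, ?_, ?_⟩
  · intro x hx h0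
    rw [hh, hχ x hx _ (bn_w1_mem (SG_insert_v hV hP hx.1 h0)), h0, zero_smul, sub_zero, bn_b_apply]
  · intro x hx h0
    obtain ⟨hk, hv1⟩ := kg_zero hS hP hV hx h0
    obtain ⟨m, w, hw, hm⟩ := SG_insert p hP hx.1
    rw [← hπ] at hm
    have hvm : V.vH (lg x) = (m : ℚ) := by
      rw [hm, map_add, map_zsmul, SG_v hV hP hw, hπ1, add_zero, zsmul_eq_mul, mul_one]
    have e1 : H (bx x (w1 (lg x))) = (m : ℚ) • H (bx x (w1 π)) + H (bx x (w1 w)) := by
      rw [hm, bn_w1_add, bn_w1_zsmul, bx_add, bx_smul, map_add, map_smul]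
    have e2 : H (bx x (w1 w)) = - ((m : ℚ) • χ (lg (1 - x)) (w1 w)) := by
      rw [hχ x hx _ (bn_w1_mem hw), hv1, zero_smul, zero_sub, hvm]
    have e3 : χ (lg (1 - x)) (w1 (lg x)) =
        (m : ℚ) • χ (lg (1 - x)) (w1 π) + χ (lg (1 - x)) (w1 w) := by
      rw [hm, bn_w1_add, bn_w1_zsmul, map_add, map_smul]
    have e4 : (SRG.FV.tw (bn_ev g (w1 π)) o).g x =
        H (bx x (w1 π)) + (m : ℚ) • χ (lg (1 - x)) (w1 π) := by
      change g.g x (w1 π) + (V.vH (lg x) • (bn_b χ) (lg (1 - x)) π -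
        V.vH (lg (1 - x)) • (bn_b χ) (lg x) π) = _
      rw [hg, hv1, zero_smul, sub_zero, hvm, bn_b_apply]
    rw [hh, e1, e2, e4, hvm, bn_b_apply, e3]
    module

/-! ### bilinear forms on `F^* ⊗ ℚ` -/

/-- the linear extension -/
private def bn_l {G : Type u} [AddCommGroup G] : (G →+ W) →+ ((ℚ ⊗[ℤ] G) →ₗ[ℚ] W) :=
  AddMonoidHom.mk' (fun f => LinearMap.liftBaseChange ℚ f.toIntLinearMap)
    (fun f g => by
      refine TensorProduct.AlgebraTensorModule.ext fun q v => ?_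
      rw [LinearMap.add_apply, LinearMap.liftBaseChange_tmul, LinearMap.liftBaseChange_tmul,
        LinearMap.liftBaseChange_tmul, ← smul_add]
      rfl)

private lemma bn_l_toQ {G : Type u} [AddCommGroup G] (f : G →+ W) (v : G) :
    bn_l f (toQ v) = f v := by
  change LinearMap.liftBaseChange ℚ f.toIntLinearMap (toQ v) = f v
  rw [toQ, LinearMap.liftBaseChange_tmul, one_smul]
  rfl

/-- the bilinear extension -/
private def bn_ll {G : Type u} [AddCommGroup G] (f : G →+ G →+ W) :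
    (ℚ ⊗[ℤ] G) →ₗ[ℚ] (ℚ ⊗[ℤ] G) →ₗ[ℚ] W :=
  bn_l (W := (ℚ ⊗[ℤ] G) →ₗ[ℚ] W) (bn_l.comp f)

private lemma bn_ll_toQ {G : Type u} [AddCommGroup G] (f : G →+ G →+ W) (v w : G) :
    bn_ll f (toQ v) (toQ w) = f v w := by
  rw [bn_ll, bn_l_toQ, AddMonoidHom.comp_apply, bn_l_toQ]

/-- a bilinear form which is zero on the diagonal of a subspace `U` agrees with an alternating
form on `U × M` -/
private lemma bn_alt {M : Type u} [AddCommGroup M] [Module ℚ M] (f : M →ₗ[ℚ] M →ₗ[ℚ] W)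
    (U : Submodule ℚ M) (hU : ∀ x ∈ U, f x x = 0) :
    ∃ G : M →ₗ[ℚ] M →ₗ[ℚ] W, (∀ x, G x x = 0) ∧ ∀ x ∈ U, ∀ y, G x y = f x y := by
  obtain ⟨ρ, hρ⟩ := U.subtype.exists_leftInverse_of_injective (Submodule.ker_subtype _)
  have hρ' : ∀ x ∈ U, (ρ x : M) = x := fun x hx => by
    have h3 := LinearMap.congr_fun hρ ⟨x, hx⟩
    exact congrArg Subtype.val h3
  let π : M →ₗ[ℚ] M := U.subtype ∘ₗ ρ
  have hπ : ∀ x, π x ∈ U := fun x => (ρ x).2
  have hπ' : ∀ x ∈ U, π x = x := hρ'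
  refine ⟨(f ∘ₗ π) - ((f ∘ₗ π).flip ∘ₗ (LinearMap.id - π)), fun x => ?_, fun x hx y => ?_⟩
  · change f (π x) x - f (π x) (x - π x) = 0
    rw [map_sub, hU _ (hπ x), sub_zero, sub_self]
  · change f (π x) y - f (π y) (x - π x) = f x y
    rw [hπ' x hx, sub_self, map_zero, sub_zero]

private lemma bn_span {G : Type u} [AddCommGroup G] (f : G →+ G →+ W) (H : AddSubgroup G)
    (hf : ∀ g ∈ H, f g g = 0) :
    ∀ x ∈ Submodule.span ℚ {z : ℚ ⊗[ℤ] G | ∃ g ∈ H, z = toQ g}, bn_ll f x x = 0 := by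
  have hsw : ∀ g ∈ H, ∀ g' ∈ H, f g g' = - f g' g := by
    intro g hg g' hg'
    have h3 := hf (g + g') (H.add_mem hg hg')
    rw [map_add f, AddMonoidHom.add_apply, map_add, map_add, hf g hg, hf g' hg', zero_add,
      add_zero] at h3
    exact eq_neg_of_add_eq_zero_left h3
  have hsw2 : ∀ x ∈ Submodule.span ℚ {z : ℚ ⊗[ℤ] G | ∃ g ∈ H, z = toQ g},
      ∀ g' ∈ H, bn_ll f x (toQ g') = - bn_ll f (toQ g') x := by
    intro x hx g' hg'
    induction hx using Submodule.span_induction with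
    | mem x hx =>
      obtain ⟨g, hg, rfl⟩ := hx
      rw [bn_ll_toQ, bn_ll_toQ, hsw g hg g' hg']
    | zero => rw [map_zero, LinearMap.zero_apply, map_zero, neg_zero]
    | add x y _ _ hx hy =>
      rw [map_add, LinearMap.add_apply, map_add, hx, hy, neg_add]
    | smul q x _ hx =>
      rw [map_smul, LinearMap.smul_apply, map_smul, hx, smul_neg]
  have hsw3 : ∀ x ∈ Submodule.span ℚ {z : ℚ ⊗[ℤ] G | ∃ g ∈ H, z = toQ g},
      ∀ y ∈ Submodule.span ℚ {z : ℚ ⊗[ℤ] G | ∃ g ∈ H, z = toQ g},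
        bn_ll f x y = - bn_ll f y x := by
    intro x hx y hy
    induction hy using Submodule.span_induction with
    | mem y hy =>
      obtain ⟨g, hg, rfl⟩ := hy
      exact hsw2 x hx g hg
    | zero =>
      rw [map_zero (bn_ll f), LinearMap.zero_apply, neg_zero]
      exact map_zero _
    | add y z _ _ hy hz =>
      rw [map_add, map_add, LinearMap.add_apply, hy, hz, neg_add]
    | smul q y _ hy =>
      rw [map_smul, map_smul, LinearMap.smul_apply, hy, smul_neg]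
  intro x hx
  have h3 := hsw3 x hx x hx
  have h4 : (2 : ℚ) • bn_ll f x x = 0 := by
    rw [two_smul]
    nth_rewrite 1 [h3]
    exact neg_add_cancel _
  exact (smul_eq_zero.1 h4).resolve_left two_ne_zero

/-- the alternating form on the group -/
private lemma bn_grp {G : Type u} [AddCommGroup G] (f : G →+ G →+ W) (H : AddSubgroup G)
    (hf : ∀ g ∈ H, f g g = 0) :
    ∃ O : G →+ G →+ W, (∀ x, O x x = 0) ∧ ∀ x ∈ H, ∀ y, O x y = f x y := by
  obtain ⟨B, hB1, hB2⟩ := bn_alt (bn_ll f) _ (bn_span f H hf)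
  have ta : ∀ a b : G, (toQ (a + b) : ℚ ⊗[ℤ] G) = toQ a + toQ b := fun a b => by
    rw [toQ, toQ, toQ, tmul_add]
  refine ⟨AddMonoidHom.mk' (fun v => AddMonoidHom.mk' (fun w => B (toQ v) (toQ w))
    (fun a b => by rw [ta, map_add])) (fun a b => ?_), fun x => ?_, fun x hx y => ?_⟩
  · ext w
    change B (toQ (a + b)) (toQ w) = B (toQ a) (toQ w) + B (toQ b) (toQ w)
    rw [ta, map_add, LinearMap.add_apply]
  · exact hB1 _
  · change B (toQ x) (toQ y) = f x y
    rw [hB2 (toQ x) (Submodule.subset_span ⟨x, hx, rfl⟩), bn_ll_toQ]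

theorem bn_change (hS : SRG.Adm S p.d) (hP : p.P ∉ S) (hV : IsPt p V)
    {h : X 0 (RatFunc K) →ₗ[ℚ] W}
    {b : Additive (RatFunc K)ˣ →+ Additive (RatFunc K)ˣ →+ W} {ν : SRG.FV (RatFunc K) W}
    (H : BN p V S h b ν) (b' : Additive (RatFunc K)ˣ →+ Additive (RatFunc K)ˣ →+ W)
    (hb : ∀ g ∈ SRG.KG p S, b' g g = b g g) :
    ∃ ν' : SRG.FV (RatFunc K) W, BN p V S h b' ν' := by
  obtain ⟨O, hO1, hO2⟩ := bn_grp (b - b') (SRG.KG p S) (fun g hg => by
    change b g g - b' g g = 0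
    rw [hb g hg, sub_self])
  let o : Helper11.Gon.AF (RatFunc K) W := ⟨O, hO1⟩
  refine ⟨SRG.FV.tw ν o, ?_, ?_⟩
  · intro x hx h0
    rw [H.un x hx h0]
    by_cases h1 : V.vH (lg (1 - x)) = 0
    · rw [h1, zero_smul, zero_smul]
    · rw [hb _ (kg_unit hS hP hV hx h0 h1).1]
  · intro x hx h0
    obtain ⟨hk, hv1⟩ := kg_zero hS hP hV hx h0
    have e1 : (SRG.FV.tw ν o).g x = ν.g x - (b (lg (1 - x)) (lg x) - b' (lg (1 - x)) (lg x)) := by
      have e2 : (SRG.FV.tw ν o).g x = ν.g x + o.O (lg x) (lg (1 - x)) := rfl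
      have e3 : o.O (lg (1 - x)) (lg x) = b (lg (1 - x)) (lg x) - b' (lg (1 - x)) (lg x) :=
        hO2 _ hk _
      rw [e2, o.swap, e3]
      exact (sub_eq_add_neg _ _).symm
    rw [H.ze x hx h0, e1]
    congr 1
    abel

theorem exists_bn_sym (hS : SRG.Adm S p.d) (hP : p.P ∉ S) (hV : IsPt p V) (hQ : QD S)
    (h : X 0 (RatFunc K) →ₗ[ℚ] W) (h1 : ∀ z ∈ NX 0 (RatFunc K), h z = 0)
    (h2 : ∀ z ∈ Lv 0 S, h z = 0) :
    ∃ (b : Additive (RatFunc K)ˣ →+ Additive (RatFunc K)ˣ →+ W) (ν : SRG.FV (RatFunc K) W),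
      (∀ v w, b v w = b w v) ∧ BN p V S h b ν := by
  obtain ⟨b0, ν0, H⟩ := exists_bn hS hP hV hQ h h1 h2
  let b : Additive (RatFunc K)ˣ →+ Additive (RatFunc K)ˣ →+ W :=
    AddMonoidHom.mk' (fun v => AddMonoidHom.mk' (fun w => (2⁻¹ : ℚ) • (b0 v w + b0 w v))
      (fun a c => by
        rw [map_add, map_add, AddMonoidHom.add_apply]
        module))
      (fun a c => by
        ext w
        change (2⁻¹ : ℚ) • (b0 (a + c) w + b0 w (a + c)) =
          (2⁻¹ : ℚ) • (b0 a w + b0 w a) + (2⁻¹ : ℚ) • (b0 c w + b0 w c)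
        rw [map_add, map_add, AddMonoidHom.add_apply]
        module)
  have hb : ∀ v w, b v w = (2⁻¹ : ℚ) • (b0 v w + b0 w v) := fun v w => rfl
  obtain ⟨ν', H'⟩ := bn_change hS hP hV H b (fun g _ => by
    rw [hb, ← two_smul ℚ, smul_smul, inv_mul_cancel₀ two_ne_zero, one_smul])
  exact ⟨b, ν', fun v w => by rw [hb, hb, add_comm], H'⟩

end

end GD3
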