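import Pool.Agent.GD3.Defs
import Pool.Agent.TGF.Rl2
import Pool.Agent.SRG.Red
import Pool.Agent.SRG.Gen
import Pool.Agent.SRG.VanIns

set_option autoImplicit false

/-!
# GD3-Red3: reduction of five-term functions, bounded degrees

PLAN.  SRG/Red1.lean (small), SRG/Red2.lean (bar) and SRG/Red.lean (red) prove this under the hypothesis for 1-units A / B with (A - B)/P smooth and of ARBITRARY degree; the proofs only use it for deg A, deg B ≤ 2 d - 1
(then (A - B) / P has degree ≤ d - 1 and is smooth): in `small` the 1-units are (A b)/(a B), C b/(c B), C a/(A c) with deg A, B, C ≤ d + (d - 1)/2, a, b the Pade section (deg a ≤ d/2, deg b ≤ (d - 1)/2), c = b - a (deg ≤ d / 2):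
all of degree ≤ d + (d - 1)/2 + d/2 = 2 d - 1.  In `bar` all elements have smaller height.  Copy the three files (their private lemmas) into this one with the bounded hypothesis h of the theorem below, giving
red' : ∃ ψ : SRG.FV k W, ∀ A B C, A + C = B, A, B, C ≠ 0 smooth over S: G f A B = ψ.g (p.r A / p.r B).
Then red_all: let φ := the pull back of ψ (TGF.fv_place V ψ, TGF/Rl2.lean: φ.g x = ψ.g (V.lc x) if x = 0 or V.v x = 0, else 0) and g := f - φ (SRG.FV.diff).  Van S g n for all n by red' (IsPt: V.lc of A/B is p.r A / p.r B, V.v = 0).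
g vanishes at A / B, P ∣ A - B, A, B smooth of degree ≤ d + (d - 1)/2 (≤ 2 d - 1): f by h, φ as the reduction is 1.  van_insert (SRG/VanIns.lean): Van (insert P S) g (d + (d - 1)/2); gen_all (SRG/Gen.lean) with Adm.insert: Van (insert P S) g n
for all n.  So g.g x = 0 for x in El (insert P S) (El_iff), x = 0, 1 trivial.
-/

noncomputable section

open Polynomial TensorProduct
open scoped Classical

section
namespace SRG

open Helper11.Gon

universe u v w

variable {K : Type u} [Field K] {W : Type w} [AddCommGroup W] [Module ℚ W]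
  {k : Type v} [Field k] {p : Pl K k} {S : Set K[X]}

private theorem r3_small (s : Sec p) (hS : Adm S p.d) (hP : p.P ∉ S) (f : FV (RatFunc K) W)
    (h : ∀ A B : K[X], A ≠ 0 → B ≠ 0 → Sm S A → Sm S B → p.P ∣ A - B →
      A.natDegree ≤ 2 * p.d - 1 → B.natDegree ≤ 2 * p.d - 1 → G f A B = 0) {A B C : K[X]} (hs : A + C = B) (hA0 : A ≠ 0) (hB0 : B ≠ 0) (hC0 : C ≠ 0)
    (hA : Sm S A) (hB : Sm S B) (hC : Sm S C) (dA : A.natDegree ≤ p.d + (p.d - 1) / 2)
    (dB : B.natDegree ≤ p.d + (p.d - 1) / 2) :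
    G f A B = G f (s.a (p.r A / p.r B)) (s.b (p.r A / p.r B)) := by
  have hd := p.d_pos
  have nA : p.r A ≠ 0 := fun e => hA.not_dvd hA0 p.monic p.irr hP ((p.ker A).1 e)
  have nB : p.r B ≠ 0 := fun e => hB.not_dvd hB0 p.monic p.irr hP ((p.ker B).1 e)
  have nC : p.r C ≠ 0 := fun e => hC.not_dvd hC0 p.monic p.irr hP ((p.ker C).1 e)
  have nx : p.r A / p.r B ≠ 0 := div_ne_zero nA nB
  obtain ⟨x, hx⟩ : ∃ x, x = p.r A / p.r B := ⟨_, rfl⟩
  have hxB : x * p.r B = p.r A := by rw [hx, div_mul_cancel₀ _ nB]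
  rw [← hx] at nx ⊢
  have a0 := s.a_ne x nx
  have b0 := s.b_ne x nx
  have da := s.a_deg x
  have db := s.b_deg x
  have he := s.eq x nx
  have rb : p.r (s.b x) ≠ 0 := Pl.ne b0 (by omega)
  have w0 : s.b x - s.a x ≠ 0 := by
    intro e
    have e1 : p.r (s.b x) = p.r (s.a x) := by rw [sub_eq_zero.1 e]
    rw [he] at e1
    have e2 : x = 1 := by
      have e3 : (x - 1) * p.r (s.b x) = 0 := by linear_combination -e1
      exact sub_eq_zero.1 ((mul_eq_zero.1 e3).resolve_right rb)
    rw [e2, one_mul] at hxB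
    apply nC
    have e4 : p.r A + p.r C = p.r B := by rw [← map_add, hs]
    linear_combination e4 + hxB
  have dw : (s.b x - s.a x).natDegree < p.d := by
    have h1 := natDegree_sub_le (s.b x) (s.a x)
    have h2 : max (s.b x).natDegree (s.a x).natDegree < p.d := max_lt (by omega) (by omega)
    omega
  have sa : Sm S (s.a x) := hS.sm (by omega)
  have sb : Sm S (s.b x) := hS.sm (by omega)
  have sw : Sm S (s.b x - s.a x) := hS.sm dw
  obtain ⟨E, hE⟩ : p.P ∣ s.a x * B - s.b x * A := by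
    rw [← p.ker, map_sub, map_mul, map_mul, he]
    linear_combination p.r (s.b x) * hxB
  have dE : E.natDegree < p.d := by
    rcases eq_or_ne E 0 with e0 | e0
    · rw [e0, natDegree_zero]
      omega
    have h1 := natDegree_mul p.irr.ne_zero e0
    rw [← hE] at h1
    have h2 := natDegree_sub_le (s.a x * B) (s.b x * A)
    have h3 := natDegree_mul_le (p := s.a x) (q := B)
    have h4 := natDegree_mul_le (p := s.b x) (q := A)
    have h5 : max (s.a x * B).natDegree (s.b x * A).natDegree ≤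
        p.d / 2 + (p.d + (p.d - 1) / 2) := max_le (by omega) (by omega)
    have h6 : p.d = p.P.natDegree := rfl
    omega
  have sE : Sm S E := hS.sm dE
  have key := five3 f (A := A) (B := B) (C := C) (A' := A) (B' := B) (C' := C) (p := 1) (q := 1)
    (r := 1) (u := s.a x) (v := s.b x) (w := s.b x - s.a x) one_ne_zero one_ne_zero one_ne_zero
    a0 b0 w0 hA0 hB0 hC0 (one_mul A).symm (one_mul B).symm (one_mul C).symm hs (by ring)
  rw [one_mul, one_mul] at key
  have dC : C.natDegree ≤ p.d + (p.d - 1) / 2 := by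
    have h1 := natDegree_sub_le B A
    have h2 : max B.natDegree A.natDegree ≤ p.d + (p.d - 1) / 2 := max_le dB dA
    have h3 : C = B - A := by rw [← hs]; ring
    rw [h3]
    exact h1.trans h2
  have dw' : (s.b x - s.a x).natDegree ≤ p.d / 2 := by
    have h1 := natDegree_sub_le (s.b x) (s.a x)
    have h2 : max (s.b x).natDegree (s.a x).natDegree ≤ p.d / 2 := max_le (by omega) (by omega)
    omega
  have hm : ∀ U Y : K[X], U.natDegree ≤ p.d + (p.d - 1) / 2 → Y.natDegree ≤ p.d / 2 →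
      (U * Y).natDegree ≤ 2 * p.d - 1 := by
    intro U Y h1 h2
    have h3 := natDegree_mul_le (p := U) (q := Y)
    omega
  have hm' : ∀ U Y : K[X], U.natDegree ≤ p.d + (p.d - 1) / 2 → Y.natDegree ≤ p.d / 2 →
      (Y * U).natDegree ≤ 2 * p.d - 1 := by
    intro U Y h1 h2
    rw [mul_comm]
    exact hm U Y h1 h2
  have db' : (s.b x).natDegree ≤ p.d / 2 := by omega
  rw [key, h (s.a x * B) (s.b x * A) (mul_ne_zero a0 hB0) (mul_ne_zero b0 hA0) (sa.mul hB)
    (sb.mul hA) ⟨E, hE⟩ (hm' _ _ dB da) (hm' _ _ dA db'), h (C * s.a x) (A * (s.b x - s.a x))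
    (mul_ne_zero hC0 a0) (mul_ne_zero hA0 w0) (hC.mul sa) (hA.mul sw)
    ⟨E, by rw [← hE, ← hs]; ring⟩ (hm _ _ dC da) (hm _ _ dA dw'),
    h (C * s.b x) (B * (s.b x - s.a x)) (mul_ne_zero hC0 b0) (mul_ne_zero hB0 w0) (hC.mul sb)
    (hB.mul sw) ⟨E, by rw [← hE, ← hs]; ring⟩ (hm _ _ dC db') (hm _ _ dB dw')]
  rw [sub_zero, add_zero, sub_zero]

private lemma r3_dpos (p : Pl K k) : 0 < p.d := p.irr.natDegree_pos

private lemma r3_r_ne {A : K[X]} (h0 : A ≠ 0) (hd : A.natDegree < p.d) : p.r A ≠ 0 := by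
  intro h
  have h1 := Polynomial.natDegree_le_of_dvd ((p.ker A).1 h) h0
  unfold Pl.d at hd
  omega

private lemma r3_key (s : Sec p) (hS : Adm S p.d) (hP : p.P ∉ S) (f : FV (RatFunc K) W)
    (h : ∀ A B : K[X], A ≠ 0 → B ≠ 0 → Sm S A → Sm S B → p.P ∣ A - B →
      A.natDegree ≤ 2 * p.d - 1 → B.natDegree ≤ 2 * p.d - 1 → G f A B = 0) {A B C : K[X]} (z : k) (hz0 : z ≠ 0) (hz1 : z ≠ 1) (hs : A + C = B)
    (hrB : p.r B ≠ 0) (hrA : p.r A = z * p.r B)
    (hA : Sm S A) (hB : Sm S B) (hC : Sm S C) (dA : A.natDegree ≤ p.d + (p.d - 1) / 2)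
    (dB : B.natDegree ≤ p.d + (p.d - 1) / 2) :
    G f A B = G f (s.a z) (s.b z) := by
  have hA0 : A ≠ 0 := by
    rintro rfl
    rw [map_zero] at hrA
    exact mul_ne_zero hz0 hrB hrA.symm
  have hB0 : B ≠ 0 := by
    rintro rfl
    exact hrB (map_zero _)
  have hC0 : C ≠ 0 := by
    rintro rfl
    rw [add_zero] at hs
    rw [hs] at hrA
    have : (1 - z) * p.r B = 0 := by
      linear_combination hrA
    rcases mul_eq_zero.1 this with h1 | h1
    · exact hz1 (sub_eq_zero.1 h1).symm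
    · exact hrB h1
  have h1 := r3_small s hS hP f h hs hA0 hB0 hC0 hA hB hC dA dB
  have h2 : p.r A / p.r B = z := by
    rw [hrA, mul_div_cancel_right₀ _ hrB]
  rw [h2] at h1
  exact h1

private theorem r3_bar (s : Sec p) (hS : Adm S p.d) (hP : p.P ∉ S) (f : FV (RatFunc K) W)
    (h : ∀ A B : K[X], A ≠ 0 → B ≠ 0 → Sm S A → Sm S B → p.P ∣ A - B →
      A.natDegree ≤ 2 * p.d - 1 → B.natDegree ≤ 2 * p.d - 1 → G f A B = 0) : ∃ ψ : FV k W, ∀ ξ : k, ξ ≠ 0 → ξ ≠ 1 →
        ψ.g ξ = G f (s.a ξ) (s.b ξ) := by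
  have hd := r3_dpos p
  have hab : ∀ x : k, x ≠ 0 → (s.a x).natDegree ≤ p.d / 2 ∧ (s.b x).natDegree ≤ (p.d - 1) / 2 ∧
      p.r (s.b x) ≠ 0 ∧ p.r (s.a x) ≠ 0 ∧ p.r (s.a x) = x * p.r (s.b x) ∧
      Sm S (s.a x) ∧ Sm S (s.b x) ∧ Sm S (s.a x - s.b x) ∧ Sm S (s.b x - s.a x) ∧
      (s.a x - s.b x).natDegree ≤ p.d / 2 ∧ (s.b x - s.a x).natDegree ≤ p.d / 2 := by
    intro x hx
    have h1 := s.a_deg x
    have h2 := s.b_deg x
    have h3 : (s.a x - s.b x).natDegree ≤ p.d / 2 :=
      (Polynomial.natDegree_sub_le _ _).trans (max_le h1 (by omega))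
    have h4 : (s.b x - s.a x).natDegree ≤ p.d / 2 :=
      (Polynomial.natDegree_sub_le _ _).trans (max_le (by omega) h1)
    exact ⟨h1, h2, r3_r_ne (s.b_ne x hx) (by omega), r3_r_ne (s.a_ne x hx) (by omega),
      s.eq x hx, hS.sm (by omega), hS.sm (by omega), hS.sm (by omega), hS.sm (by omega), h3, h4⟩
  let g : k → W := fun x => if x = 0 ∨ x = 1 then 0 else G f (s.a x) (s.b x)
  have hg : ∀ x : k, x ≠ 0 → x ≠ 1 → g x = G f (s.a x) (s.b x) := by
    intro x h0 h1
    exact if_neg (by rintro (h | h); exacts [h0 h, h1 h])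
  have hg0 : ∀ x : k, x = 0 ∨ x = 1 → g x = 0 := fun x hx => if_pos hx
  refine ⟨⟨g, hg0 0 (Or.inl rfl), hg0 1 (Or.inr rfl), ?_, ?_, ?_⟩, hg⟩
  · intro x
    by_cases hx : x = 0 ∨ x = 1
    · have h1 : x⁻¹ = 0 ∨ x⁻¹ = 1 := by
        rcases hx with rfl | rfl
        · left; exact inv_zero
        · right; exact inv_one
      rw [hg0 _ hx, hg0 _ h1, neg_zero]
    · obtain ⟨h0, h1⟩ := not_or.1 hx
      obtain ⟨d1, d2, rb, ra, re, sa, sb, sab, sba, d3, d4⟩ := hab x h0
      have h1' : x⁻¹ ≠ 1 := fun hh => h1 (inv_eq_one.1 hh)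
      rw [hg x h0 h1, hg _ (inv_ne_zero h0) h1', ← G_swap]
      refine (r3_key s hS hP f h (C := s.a x - s.b x) x⁻¹ (inv_ne_zero h0) h1' (by ring) ra ?_
        sb sa sab (by omega) (by omega)).symm
      rw [re, inv_mul_cancel_left₀ h0]
  · intro x
    by_cases hx : x = 0 ∨ x = 1
    · have h1 : 1 - x = 0 ∨ 1 - x = 1 := by
        rcases hx with rfl | rfl
        · right; exact sub_zero _
        · left; exact sub_self _
      rw [hg0 _ hx, hg0 _ h1, neg_zero]
    · obtain ⟨h0, h1⟩ := not_or.1 hx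
      obtain ⟨d1, d2, rb, ra, re, sa, sb, sab, sba, d3, d4⟩ := hab x h0
      have h0' : 1 - x ≠ 0 := fun hh => h1 (sub_eq_zero.1 hh).symm
      have h1' : 1 - x ≠ 1 := fun hh => h0 (by linear_combination -hh)
      rw [hg x h0 h1, hg _ h0' h1']
      rw [← r3_key s hS hP f h (A := s.b x - s.a x) (B := s.b x) (C := s.a x) (1 - x) h0' h1'
        (by ring) rb (by rw [map_sub, re]; ring) sba sb sa (by omega) (by omega)]
      exact G_compl f (by ring)
  · intro x y hx0 hx1 hy0 hy1 hxy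
    obtain ⟨d1, d2, rb, ra, re, sa, sb, sab, sba, d3, d4⟩ := hab x hx0
    obtain ⟨d1', d2', rb', ra', re', sa', sb', sab', sba', d3', d4'⟩ := hab y hy0
    have hx1' : 1 - x ≠ 0 := fun hh => hx1 (sub_eq_zero.1 hh).symm
    have hy1' : 1 - y ≠ 0 := fun hh => hy1 (sub_eq_zero.1 hh).symm
    have hyx : y - x ≠ 0 := fun hh => hxy (sub_eq_zero.1 hh).symm
    have rab : p.r (s.a x - s.b x) = -(1 - x) * p.r (s.b x) := by
      rw [map_sub, re]; ring
    have rba : p.r (s.b x - s.a x) = (1 - x) * p.r (s.b x) := by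
      rw [map_sub, re]; ring
    have rab' : p.r (s.a y - s.b y) = -(1 - y) * p.r (s.b y) := by
      rw [map_sub, re']; ring
    have rba' : p.r (s.b y - s.a y) = (1 - y) * p.r (s.b y) := by
      rw [map_sub, re']; ring
    have z1 : y / x ≠ 0 := div_ne_zero hy0 hx0
    have z1' : y / x ≠ 1 := fun hh => hxy ((div_eq_one_iff_eq hx0).1 hh).symm
    have e2 : (1 - x⁻¹) / (1 - y⁻¹) = ((1 - x) * y) / (x * (1 - y)) := by
      have : 1 - y⁻¹ ≠ 0 := by
        intro hh
        apply hy1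
        have := sub_eq_zero.1 hh
        exact inv_eq_one.1 this.symm
      rw [div_eq_div_iff this (mul_ne_zero hx0 hy1')]
      field_simp
      ring
    have z2 : ((1 - x) * y) / (x * (1 - y)) ≠ 0 :=
      div_ne_zero (mul_ne_zero hx1' hy0) (mul_ne_zero hx0 hy1')
    have z2' : ((1 - x) * y) / (x * (1 - y)) ≠ 1 := by
      rw [Ne, div_eq_one_iff_eq (mul_ne_zero hx0 hy1')]
      intro hh
      exact hyx (by linear_combination hh)
    have z3 : (1 - x) / (1 - y) ≠ 0 := div_ne_zero hx1' hy1'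
    have z3' : (1 - x) / (1 - y) ≠ 1 := by
      rw [Ne, div_eq_one_iff_eq hy1']
      intro hh
      exact hyx (by linear_combination hh)
    have k1 : G f (s.a y * s.b x) (s.b y * s.a x) = G f (s.a (y / x)) (s.b (y / x)) := by
      have dd : (s.b y * s.a x - s.a y * s.b x).natDegree < p.d := by
        refine lt_of_le_of_lt (Polynomial.natDegree_sub_le _ _) (max_lt ?_ ?_)
        · exact lt_of_le_of_lt Polynomial.natDegree_mul_le (by omega)
        · exact lt_of_le_of_lt Polynomial.natDegree_mul_le (by omega)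
      refine r3_key s hS hP f h (C := s.b y * s.a x - s.a y * s.b x) (y / x) z1 z1' (by ring)
        ?_ ?_ (sa'.mul sb) (sb'.mul sa) (hS.sm dd)
        (Polynomial.natDegree_mul_le.trans (by omega))
        (Polynomial.natDegree_mul_le.trans (by omega))
      · rw [map_mul]
        exact mul_ne_zero rb' ra
      · rw [map_mul, map_mul, re, re']
        field_simp
    have k2 : G f ((s.a x - s.b x) * s.a y) (s.a x * (s.a y - s.b y)) =
        G f (s.a (((1 - x) * y) / (x * (1 - y)))) (s.b (((1 - x) * y) / (x * (1 - y)))) := by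
      have dd : (s.b x * s.a y - s.a x * s.b y).natDegree < p.d := by
        refine lt_of_le_of_lt (Polynomial.natDegree_sub_le _ _) (max_lt ?_ ?_)
        · exact lt_of_le_of_lt Polynomial.natDegree_mul_le (by omega)
        · exact lt_of_le_of_lt Polynomial.natDegree_mul_le (by omega)
      refine r3_key s hS hP f h (C := s.b x * s.a y - s.a x * s.b y) _ z2 z2' (by ring)
        ?_ ?_ (sab.mul sa') (sa.mul sab') (hS.sm dd)
        (Polynomial.natDegree_mul_le.trans (by omega))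
        (Polynomial.natDegree_mul_le.trans (by omega))
      · rw [map_mul, rab']
        exact mul_ne_zero ra (mul_ne_zero (neg_ne_zero.2 hy1') rb')
      · rw [map_mul, map_mul, rab, rab', re, re']
        field_simp
    have k3 : G f ((s.b x - s.a x) * s.b y) (s.b x * (s.b y - s.a y)) =
        G f (s.a ((1 - x) / (1 - y))) (s.b ((1 - x) / (1 - y))) := by
      have dd : (s.a x * s.b y - s.b x * s.a y).natDegree < p.d := by
        refine lt_of_le_of_lt (Polynomial.natDegree_sub_le _ _) (max_lt ?_ ?_)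
        · exact lt_of_le_of_lt Polynomial.natDegree_mul_le (by omega)
        · exact lt_of_le_of_lt Polynomial.natDegree_mul_le (by omega)
      refine r3_key s hS hP f h (C := s.a x * s.b y - s.b x * s.a y) _ z3 z3' (by ring)
        ?_ ?_ (sba.mul sb') (sb.mul sba') (hS.sm dd)
        (Polynomial.natDegree_mul_le.trans (by omega))
        (Polynomial.natDegree_mul_le.trans (by omega))
      · rw [map_mul, rba']
        exact mul_ne_zero rb (mul_ne_zero hy1' rb')
      · rw [map_mul, map_mul, rba, rba']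
        field_simp
    rw [e2]
    change g x - g y + g (y / x) - g (((1 - x) * y) / (x * (1 - y))) +
      g ((1 - x) / (1 - y)) = 0
    rw [hg x hx0 hx1, hg y hy0 hy1, hg _ z1 z1', hg _ z2 z2', hg _ z3 z3', ← k1, ← k2, ← k3]
    have nz : ∀ A : K[X], A ≠ 0 → algebraMap K[X] (RatFunc K) A ≠ 0 := fun A hA hh =>
      hA ((IsFractionRing.injective K[X] (RatFunc K)) (by rw [hh, map_zero]))
    have nza := nz _ (s.a_ne x hx0)
    have nzb := nz _ (s.b_ne x hx0)
    have nza' := nz _ (s.a_ne y hy0)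
    have nzb' := nz _ (s.b_ne y hy0)
    have ne1 : s.b x - s.a x ≠ 0 := by
      intro hh
      rw [hh, map_zero] at rba
      exact mul_ne_zero hx1' rb rba.symm
    have ne1' : s.b y - s.a y ≠ 0 := by
      intro hh
      rw [hh, map_zero] at rba'
      exact mul_ne_zero hy1' rb' rba'.symm
    have ne2 : s.a x * s.b y - s.a y * s.b x ≠ 0 := by
      intro hh
      have h1 : p.r (s.a x * s.b y - s.a y * s.b x) = 0 := by rw [hh, map_zero]
      rw [map_sub, map_mul, map_mul, re, re'] at h1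
      have h2 : (y - x) * (p.r (s.b x) * p.r (s.b y)) = 0 := by linear_combination -h1
      exact mul_ne_zero hyx (mul_ne_zero rb rb') h2
    have n1 := nz _ ne1
    have n1' := nz _ ne1'
    have n2 := nz _ ne2
    rw [map_sub] at n1 n1' n2
    rw [map_mul, map_mul] at n2
    set α := algebraMap K[X] (RatFunc K) (s.a x) with hα
    set β := algebraMap K[X] (RatFunc K) (s.b x) with hβ
    set α' := algebraMap K[X] (RatFunc K) (s.a y) with hα'
    set β' := algebraMap K[X] (RatFunc K) (s.b y) with hβ'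
    have X0 : α / β ≠ 0 := div_ne_zero nza nzb
    have X1 : α / β ≠ 1 := by
      rw [Ne, div_eq_one_iff_eq nzb]
      intro hh
      exact n1 (by rw [hh, sub_self])
    have Y0 : α' / β' ≠ 0 := div_ne_zero nza' nzb'
    have Y1 : α' / β' ≠ 1 := by
      rw [Ne, div_eq_one_iff_eq nzb']
      intro hh
      exact n1' (by rw [hh, sub_self])
    have XY : α / β ≠ α' / β' := by
      rw [Ne, div_eq_div_iff nzb nzb']
      intro hh
      exact n2 (by rw [hh, sub_self])
    have key := f.five _ _ X0 X1 Y0 Y1 XY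
    have q1 : α' / β' / (α / β) = (α' * β) / (β' * α) := by
      field_simp
    have q2 : (1 - (α / β)⁻¹) / (1 - (α' / β')⁻¹) = ((α - β) * α') / (α * (α' - β')) := by
      have m1 : α' - β' ≠ 0 := by
        intro hh
        exact n1' (by linear_combination -hh)
      have m2 : 1 - (α' / β')⁻¹ ≠ 0 := by
        rw [inv_div, one_sub_div nza']
        exact div_ne_zero m1 nza'
      rw [div_eq_div_iff m2 (mul_ne_zero nza m1), inv_div, inv_div]
      field_simp
    have q3 : (1 - α / β) / (1 - α' / β') = ((β - α) * β') / (β * (β' - α')) := by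
      have m2 : 1 - α' / β' ≠ 0 := by
        rw [one_sub_div nzb']
        exact div_ne_zero n1' nzb'
      rw [div_eq_div_iff m2 (mul_ne_zero nzb n1')]
      field_simp
    rw [q1, q2, q3] at key
    simp only [G, map_mul, map_sub, ← hα, ← hβ, ← hα', ← hβ']
    exact key

end SRG
end

namespace GD3

open Helper14.Gon Helper14.W4 QPL TGF

universe u

section
variable {K k : Type u} [Field K] [Field k] {p : SRG.Pl K k} {V : AC (RatFunc K) k}
  {S : Set K[X]}

variable {W : Type u} [AddCommGroup W] [Module ℚ W]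

theorem red_all (hS : SRG.Adm S p.d) (hP : p.P ∉ S) (hV : IsPt p V)
    (f : SRG.FV (RatFunc K) W)
    (h : ∀ A B : K[X], A ≠ 0 → B ≠ 0 → SRG.Sm S A → SRG.Sm S B → p.P ∣ A - B →
      A.natDegree ≤ 2 * p.d - 1 → B.natDegree ≤ 2 * p.d - 1 → SRG.G f A B = 0) :
    ∃ g : SRG.FV k W, ∀ x : RatFunc K, El (insert p.P S) x → f.g x = ev V g x := by
  obtain ⟨s⟩ := SRG.exists_sec p
  obtain ⟨ψ, hψ⟩ := SRG.r3_bar s hS hP f h
  obtain ⟨φ, hφ⟩ := TGF.fv_place V ψ
  have hd : 1 ≤ p.d := p.irr.natDegree_pos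
  have inj : ∀ A : K[X], A ≠ 0 → algebraMap K[X] (RatFunc K) A ≠ 0 := fun A hA hh =>
    hA ((IsFractionRing.injective K[X] (RatFunc K)) (by rw [hh, map_zero]))
  have hGd : ∀ A B : K[X], SRG.G (f.diff φ) A B = SRG.G f A B - SRG.G φ A B := fun _ _ => rfl
  have hpull : ∀ A B : K[X], A ≠ 0 → B ≠ 0 → SRG.Sm S A → SRG.Sm S B →
      SRG.G φ A B = ψ.g (p.r A / p.r B) := by
    intro A B hA0 hB0 hA hB
    have nA : ¬ p.P ∣ A := hA.not_dvd hA0 p.monic p.irr hP
    have nB : ¬ p.P ∣ B := hB.not_dvd hB0 p.monic p.irr hP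
    have hA' := inj A hA0
    have hB' := inj B hB0
    have hv : V.v (algebraMap K[X] (RatFunc K) A / algebraMap K[X] (RatFunc K) B) = 0 := by
      rw [V.v_div hA' hB', hV.v A nA, hV.v B nB, sub_zero]
    show φ.g (algebraMap K[X] (RatFunc K) A / algebraMap K[X] (RatFunc K) B) = _
    rw [hφ, if_pos (Or.inr hv), map_div₀, hV.lc A nA, hV.lc B nB]
  have hV1 : SRG.Van S (f.diff φ) (p.d + (p.d - 1) / 2) := by
    intro A B C hs hA hB hC dA dB
    by_cases hA0 : A = 0
    · rw [hA0]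
      exact SRG.G_zero_left _ B
    by_cases hB0 : B = 0
    · rw [hB0]
      exact SRG.G_zero_right _ A
    by_cases hC0 : C = 0
    · rw [hC0, add_zero] at hs
      rw [hs]
      exact SRG.G_self _ B
    have nA : p.r A ≠ 0 := fun e => hA.not_dvd hA0 p.monic p.irr hP ((p.ker A).1 e)
    have nB : p.r B ≠ 0 := fun e => hB.not_dvd hB0 p.monic p.irr hP ((p.ker B).1 e)
    have nC : p.r C ≠ 0 := fun e => hC.not_dvd hC0 p.monic p.irr hP ((p.ker C).1 e)
    have n1 : p.r A / p.r B ≠ 1 := by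
      intro e
      rw [div_eq_one_iff_eq nB, ← hs, map_add] at e
      exact nC (by linear_combination -e)
    rw [hGd, hpull A B hA0 hB0 hA hB, SRG.r3_small s hS hP f h hs hA0 hB0 hC0 hA hB hC dA dB,
      hψ _ (div_ne_zero nA nB) n1, sub_self]
  have hV2 : SRG.Van (insert p.P S) (f.diff φ) (p.d + (p.d - 1) / 2) := by
    refine SRG.van_insert p.monic p.irr (f.diff φ) hV1 ?_
    intro A B hA0 hB0 hA hB hd2 dA dB
    have nB : p.r B ≠ 0 := fun e => hB.not_dvd hB0 p.monic p.irr hP ((p.ker B).1 e)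
    have e1 : p.r A = p.r B := by
      have h1 := (p.ker (A - B)).2 hd2
      rw [map_sub] at h1
      exact sub_eq_zero.1 h1
    rw [hGd, hpull A B hA0 hB0 hA hB, h A B hA0 hB0 hA hB hd2 (by omega) (by omega), e1,
      div_self nB, ψ.one, sub_zero]
  refine ⟨ψ, fun x hx => ?_⟩
  by_cases hx0 : x = 0
  · rw [hx0, f.zero]
    exact (if_neg (fun hh => hh.1 rfl)).symm
  by_cases hx1 : x = 1
  · rw [hx1, f.one]
    have h1 : V.v (1 : RatFunc K) = 0 := V.v_one
    show (0 : W) = if (1 : RatFunc K) ≠ 0 ∧ V.v (1 : RatFunc K) = 0 then ψ.g (V.lc 1) else 0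
    rw [if_pos ⟨one_ne_zero, h1⟩, map_one, ψ.one]
  obtain ⟨A, B, D, hA0, hB0, hD0, hABD, hA, hB, hD, hxe⟩ := (El_iff _ x hx0 hx1).1 hx
  have h1 := SRG.gen_all hd (hS.insert p.monic p.irr rfl) (f.diff φ) hV2
    (max A.natDegree B.natDegree) A B D hABD hA hB hD (le_max_left _ _) (le_max_right _ _)
  have h2 : f.g x - φ.g x = 0 := by
    rw [hxe]
    exact h1
  rw [sub_eq_zero.1 h2, hφ x]
  show _ = if x ≠ 0 ∧ V.v x = 0 then ψ.g (V.lc x) else 0
  by_cases hv : V.v x = 0
  · rw [if_pos (Or.inr hv), if_pos ⟨hx0, hv⟩]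
  · rw [if_neg (by rintro (h3 | h3); exacts [hx0 h3, hv h3]), if_neg (fun h3 => hv h3.2)]

end

end GD3
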