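import Pool.Agent.GD3.Al1
import Pool.Agent.GD3.Red3
import Pool.Agent.GD3.Bn

set_option autoImplicit false

/-!
# GD3-Al2: ϕ on zeros and 1-units

PLAN.  al_low: for a fixed low 1-unit k1 = A/B (deg ≤ d, smooth, P ∣ A - B) the function f(x) = ϕ(x, k1) (FS.fv) vanishes at every 1-unit A'/B' of degree ≤ 2 d - 1: with c = p.r B' ≠ 0, A', B' ∈ XA p S c, cls_one moves k1 to the class c, al_four.
red_all: ϕ(x, k1) = ev V g x for x ∈ El (S ∪ P); so ϕ(x, k1) = 0 if v x ≠ 0 (x ≠ 0) or x̄ = 1.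
al_pos: x, y ∈ El (S ∪ P) with v x > 0, v y > 0.  Fix y; f(x') := ϕ(x', y).  In B_2: {y} = - {1 - y}, 1 - y is a 1-unit, lg (1 - y) ∈ KG p S is a sum Σ m_j g_j, g_j = pl A_j - pl B_j low (KG_low).
The chain z := bx y u0 - v(y) (Σ_j m_j bx (1 - A_j/B_j) u0) ∈ Lv 0 (S ∪ P) satisfies gr = 0 (gr V y = - v(y) w1 (lg (1-y)), gr V (1 - A_j/B_j) = - w1 g_j), so z ∈ Lv 0 S ⊔ Rel 0 E: `exists_chi hS hP hV 0 ((Lv 0 S ⊔ Rel 0 E).mkQ)`
(TGF/Om1.lean) gives the value of the class of z in terms of gr z (χ linear, contraction; extend χ to Tx 1 by koszul0).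
So for every FV function F: F(y) = v(y) Σ m_j F(1 - A_j/B_j) + (F on El S entries).  Apply this to F = ϕ(·, x) and to x in the same way:
ϕ(x, y) = ϕ(x, low part of y) + ϕ(x, s_y), first term 0 by al_low; ϕ(x, s_y) = ϕ(low part of x, s_y) + ϕ(s_x, s_y) = ϕ(low x, y) - ϕ(low x, low y) + 0 = 0.  (s_x, s_y combinations of El S entries, HF.ph.)
-/

noncomputable section

open Polynomial TensorProduct
open scoped Classical

namespace GD3

open Helper14.Gon Helper14.W4 QPL TGF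

universe u

section
variable {F : Type u} [Field F] {W : Type u} [AddCommGroup W] [Module ℚ W]

/-- the bilinear map on chains with the values `ϕ x y` -/
private def al2_T (ϕ : F → F → W) : X 0 F →ₗ[ℚ] X 0 F →ₗ[ℚ] W :=
  xl fun x => (e0 F).smulRight (xl fun y => (e0 F).smulRight (ϕ x y))

private lemma al2_T_bx (ϕ : F → F → W) (x y : F) (ω ω' : Tx 0 F) :
    al2_T ϕ (bx x ω) (bx y ω') = e0 F ω • (e0 F ω' • ϕ x y) := by
  rw [al2_T, xl_bx, LinearMap.smulRight_apply, LinearMap.smul_apply, xl_bx,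
    LinearMap.smulRight_apply]

private lemma al2_e0 : e0 F (u0 F) = 1 := by
  rw [u0, e0_dm]

private lemma al2_T_u (ϕ : F → F → W) (x y : F) :
    al2_T ϕ (bx x (u0 F)) (bx y (u0 F)) = ϕ x y := by
  rw [al2_T_bx, al2_e0, one_smul, one_smul]

private lemma al2_swap {ϕ : F → F → W} (hs : ∀ x y, ϕ x y = - ϕ y x) (z w : X 0 F) :
    al2_T ϕ z w = - al2_T ϕ w z := by
  refine x_ind (fun z => al2_T ϕ z w = - al2_T ϕ w z) ?_ ?_ ?_ z
  · show al2_T ϕ 0 w = - al2_T ϕ w 0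
    rw [map_zero, map_zero, LinearMap.zero_apply, neg_zero]
  · intro a b ha hb
    show al2_T ϕ (a + b) w = - al2_T ϕ w (a + b)
    rw [map_add, map_add, LinearMap.add_apply, ha, hb, neg_add]
  · intro x ω
    refine x_ind (fun w => al2_T ϕ (bx x ω) w = - al2_T ϕ w (bx x ω)) ?_ ?_ ?_ w
    · show al2_T ϕ (bx x ω) 0 = - al2_T ϕ 0 (bx x ω)
      rw [map_zero, map_zero, LinearMap.zero_apply, neg_zero]
    · intro a b ha hb
      show al2_T ϕ (bx x ω) (a + b) = - al2_T ϕ (a + b) (bx x ω)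
      rw [map_add, map_add, LinearMap.add_apply, ha, hb, neg_add]
    · intro y ω'
      show al2_T ϕ (bx x ω) (bx y ω') = - al2_T ϕ (bx y ω') (bx x ω)
      rw [al2_T_bx, al2_T_bx, hs x y, smul_neg, smul_neg, smul_comm]

private def al2_fv (c : ℚ) (g : SRG.FV F W) : SRG.FV F W where
  g := fun x => c • g.g x
  zero := by rw [g.zero, smul_zero]
  one := by rw [g.one, smul_zero]
  inv := fun x => by rw [g.inv, smul_neg]
  sub := fun x => by rw [g.sub, smul_neg]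
  five := fun x y hx hx1 hy hy1 hxy => by
    have h := g.five x y hx hx1 hy hy1 hxy
    rw [← smul_sub, ← smul_add, ← smul_sub, ← smul_add, h, smul_zero]

private lemma al2_rel {ψ : X 1 F →ₗ[ℚ] W} {ϕ : F → F → W} (h : FS ψ ϕ) {r : X 0 F}
    (hr : r ∈ Rel 0 F) (z : X 0 F) : al2_T ϕ z r = 0 := by
  refine x_ind (fun z => al2_T ϕ z r = 0) ?_ ?_ ?_ z
  · show al2_T ϕ 0 r = 0
    rw [map_zero, LinearMap.zero_apply]
  · intro a b ha hb
    show al2_T ϕ (a + b) r = 0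
    rw [map_add, LinearMap.add_apply, ha, hb, add_zero]
  · intro x ω
    show al2_T ϕ (bx x ω) r = 0
    refine rel_of_fv' 0 (al2_T ϕ (bx x ω)) (fun ω' => ?_) hr
    obtain ⟨g, hg⟩ := h.fv x
    refine ⟨al2_fv (-(e0 F ω * e0 F ω')) g, fun y => ?_⟩
    show -(e0 F ω * e0 F ω') • g.g y = al2_T ϕ (bx x ω) (bx y ω')
    rw [al2_T_bx, hg, h.swap x y, smul_smul, smul_neg, neg_smul]

private lemma al2_rel' {ψ : X 1 F →ₗ[ℚ] W} {ϕ : F → F → W} (h : FS ψ ϕ) {r : X 0 F}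
    (hr : r ∈ Rel 0 F) (z : X 0 F) : al2_T ϕ r z = 0 := by
  rw [al2_swap h.swap, al2_rel h hr, neg_zero]

end

section
variable {K k : Type u} [Field K] [Field k] {p : SRG.Pl K k} {V : AC (RatFunc K) k}
  {S : Set K[X]}

variable {W : Type u} [AddCommGroup W] [Module ℚ W]

private lemma al2_lv {ψ : X 1 (RatFunc K) →ₗ[ℚ] W} {ϕ : RatFunc K → RatFunc K → W}
    (h : HF p S ψ ϕ) {z w : X 0 (RatFunc K)} (hz : z ∈ Lv 0 S) (hw : w ∈ Lv 0 S) :
    al2_T ϕ z w = 0 := by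
  rw [Lv] at hz hw
  induction hz using Submodule.span_induction with
  | mem z hz =>
    obtain ⟨x, ω, hx, _, rfl⟩ := hz
    induction hw using Submodule.span_induction with
    | mem w hw =>
      obtain ⟨y, ω', hy, _, rfl⟩ := hw
      rw [al2_T_bx, h.ph x y hx hy, smul_zero, smul_zero]
    | zero => exact map_zero _
    | add a b _ _ ha hb => rw [map_add, ha, hb, add_zero]
    | smul c a _ ha => rw [map_smul, ha, smul_zero]
  | zero => rw [map_zero, LinearMap.zero_apply]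
  | add a b _ _ ha hb => rw [map_add, LinearMap.add_apply, ha, hb, add_zero]
  | smul c a _ ha => rw [map_smul, LinearMap.smul_apply, ha, smul_zero]

/-- low 1-units -/
private structure al2_L (p : SRG.Pl K k) (S : Set K[X]) (A B : K[X]) : Prop where
  a0 : A ≠ 0
  b0 : B ≠ 0
  sa : SRG.Sm S A
  sb : SRG.Sm S B
  dv : p.P ∣ A - B
  da : A.natDegree ≤ p.d
  db : B.natDegree ≤ p.d

private lemma al2_ndvd (hP : p.P ∉ S) {B : K[X]} (hB : B ≠ 0) (sB : SRG.Sm S B) :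
    ¬ p.P ∣ B := by
  intro h
  rcases sB with h1 | h1
  · exact hB h1
  · exact hP (h1 p.P p.monic p.irr h)

/-- `ϕ` vanishes at pairs of an element of non-zero order and a low 1-unit -/
private lemma al2_low (hS : SRG.Adm S p.d) (hP : p.P ∉ S) (hV : IsPt p V)
    {ψ : X 1 (RatFunc K) →ₗ[ℚ] W} {ϕ : RatFunc K → RatFunc K → W} (h : HF p S ψ ϕ)
    {A B : K[X]} (hAB : al2_L p S A B) {t : RatFunc K} (ht : El (insert p.P S) t)
    (h0 : 0 < V.vH (lg t)) :
    ϕ t (algebraMap K[X] (RatFunc K) A / algebraMap K[X] (RatFunc K) B) = 0 := by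
  obtain ⟨f, hf⟩ := h.fs.fv (algebraMap K[X] (RatFunc K) A / algebraMap K[X] (RatFunc K) B)
  obtain ⟨g, hg⟩ := red_all hS hP hV f (by
    intro A' B' hA' hB' sA' sB' hd dA' dB'
    rw [SRG.G, hf]
    have hc : p.r B' ≠ 0 := fun h1 => al2_ndvd hP hB' sB' ((p.ker B').1 h1)
    have hr : p.r A' = p.r B' := by
      have h1 := (p.ker (A' - B')).2 hd
      rw [map_sub, sub_eq_zero] at h1
      exact h1
    obtain ⟨u, w, hu, hw, _, e⟩ := cls_one hS hP hc hAB.a0 hAB.b0 hAB.sa hAB.sb hAB.dv hAB.da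
      hAB.db
    rw [e]
    exact al_four hS hP hV h (c := p.r B') hu ⟨hA', sA', dA', hr⟩ ⟨hB', sB', dB', rfl⟩ hw)
  have ht0 : t ≠ 0 := by
    rintro rfl
    rw [lg_zero, map_zero] at h0
    exact lt_irrefl _ h0
  rw [← hf, hg t ht, ev, if_neg]
  rintro ⟨_, h1⟩
  rw [TGF.vH_lg V ht0, h1] at h0
  exact lt_irrefl _ h0

private lemma al2_am {A : K[X]} (hA : A ≠ 0) : algebraMap K[X] (RatFunc K) A ≠ 0 :=
  RatFunc.algebraMap_ne_zero hA

private lemma al2_one_sub {A B : K[X]} (hB : B ≠ 0) :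
    1 - algebraMap K[X] (RatFunc K) A / algebraMap K[X] (RatFunc K) B =
      algebraMap K[X] (RatFunc K) (B - A) / algebraMap K[X] (RatFunc K) B := by
  rw [map_sub, _root_.sub_div, div_self (al2_am hB)]

/-- the complement of a low 1-unit -/
private lemma al2_z (hP : p.P ∉ S) (hV : IsPt p V) {A B : K[X]} (hAB : al2_L p S A B)
    (hne : A ≠ B) :
    El (insert p.P S) (1 - algebraMap K[X] (RatFunc K) A / algebraMap K[X] (RatFunc K) B) ∧
      V.vH (lg (1 - algebraMap K[X] (RatFunc K) A / algebraMap K[X] (RatFunc K) B)) = 1 ∧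
      lg (algebraMap K[X] (RatFunc K) A / algebraMap K[X] (RatFunc K) B) ∈ SG S := by
  have hBA : B - A ≠ 0 := sub_ne_zero.2 (Ne.symm hne)
  have hdv : p.P ∣ B - A := by
    rw [← neg_sub]
    exact (dvd_neg).2 hAB.dv
  obtain ⟨C, hC⟩ := hdv
  have hC0 : C ≠ 0 := by
    rintro rfl
    rw [mul_zero] at hC
    exact hBA hC
  have hCd : C.natDegree = 0 := by
    have h1 : (B - A).natDegree ≤ p.d := (natDegree_sub_le B A).trans (max_le hAB.db hAB.da)
    rw [hC, natDegree_mul p.irr.ne_zero hC0] at h1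
    have h2 : p.d = p.P.natDegree := rfl
    omega
  have hCu : IsUnit C := by
    rw [Polynomial.isUnit_iff_degree_eq_zero, degree_eq_natDegree hC0, hCd]
    rfl
  have hCn : ¬ p.P ∣ C := fun h1 => p.irr.not_isUnit (isUnit_of_dvd_unit h1 hCu)
  have hsP : SRG.Sm (insert p.P S) p.P := by
    right
    intro Q hQm hQi hQ
    have h1 : Associated Q p.P := hQi.associated_of_dvd p.irr hQ
    rw [eq_of_monic_of_associated hQm p.monic h1]
    exact Set.mem_insert _ _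
  have hsC : SRG.Sm (insert p.P S) C := by
    right
    intro Q _ hQi hQ
    exact absurd (isUnit_of_dvd_unit hQ hCu) hQi.not_isUnit
  have hSG : lg (algebraMap K[X] (RatFunc K) A / algebraMap K[X] (RatFunc K) B) ∈ SG S := by
    rw [lg_div (al2_am hAB.a0) (al2_am hAB.b0)]
    exact (SG S).sub_mem (SG_pl hAB.a0 hAB.sa) (SG_pl hAB.b0 hAB.sb)
  have hlg : lg (1 - algebraMap K[X] (RatFunc K) A / algebraMap K[X] (RatFunc K) B) =
      lg (algebraMap K[X] (RatFunc K) p.P) + lg (algebraMap K[X] (RatFunc K) C) -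
        lg (algebraMap K[X] (RatFunc K) B) := by
    rw [al2_one_sub hAB.b0, lg_div (al2_am hBA) (al2_am hAB.b0), hC, map_mul,
      lg_mul (al2_am p.irr.ne_zero) (al2_am hC0)]
  refine ⟨⟨?_, ?_⟩, ?_, hSG⟩
  · rw [hlg]
    exact (SG _).sub_mem ((SG _).add_mem (SG_pl p.irr.ne_zero hsP) (SG_pl hC0 hsC))
      (SG_mono (Set.subset_insert _ _) (SG_pl hAB.b0 hAB.sb))
  · rw [sub_sub_cancel]
    exact SG_mono (Set.subset_insert _ _) hSG
  · rw [hlg, map_sub, map_add, TGF.vH_lg V (al2_am p.irr.ne_zero), TGF.vH_lg V (al2_am hC0), hV.vP,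
      hV.v C hCn, SG_v hV hP (SG_pl hAB.b0 hAB.sb), add_zero, sub_zero]

/-- the span of the complements of the low 1-units -/
private def al2_LL (p : SRG.Pl K k) (S : Set K[X]) : Submodule ℚ (X 0 (RatFunc K)) :=
  Submodule.span ℚ {z | ∃ A B : K[X], al2_L p S A B ∧ A ≠ B ∧
    z = bx (1 - algebraMap K[X] (RatFunc K) A / algebraMap K[X] (RatFunc K) B) (u0 (RatFunc K))}

private lemma al2_key (hS : SRG.Adm S p.d) (hP : p.P ∉ S) (hV : IsPt p V)
    {N : Type u} [AddCommGroup N] [Module ℚ N] (f : X 0 (RatFunc K) →ₗ[ℚ] N)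
    (χ : Additive (RatFunc K)ˣ →+ (Tx 0 (RatFunc K) →ₗ[ℚ] N))
    (hχ : ∀ x : RatFunc K, El (insert p.P S) x → ∀ μ ∈ TS 0 (SG S),
      f (bx x μ) = V.vH (lg (1 - x)) • χ (lg x) μ - V.vH (lg x) • χ (lg (1 - x)) μ)
    (g : Additive (RatFunc K)ˣ) (hg : g ∈ SRG.KG p S) :
    χ g (u0 (RatFunc K)) ∈ (al2_LL p S).map f := by
  have hu : u0 (RatFunc K) ∈ TS 0 (SG S) :=
    Submodule.subset_span ⟨fun i => i.elim0, fun i => i.elim0, rfl⟩
  rw [KG_low hS hP] at hg
  induction hg using AddSubgroup.closure_induction with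
  | mem g hg =>
    obtain ⟨A, B, hA, hB, sA, sB, hd, dA, dB, rfl⟩ := hg
    by_cases hne : A = B
    · rw [hne, sub_self, map_zero, LinearMap.zero_apply]
      exact Submodule.zero_mem _
    · have hAB : al2_L p S A B := ⟨hA, hB, sA, sB, hd, dA, dB⟩
      obtain ⟨h1, h2, h3⟩ := al2_z hP hV hAB hne
      have h4 := hχ _ h1 _ hu
      rw [sub_sub_cancel, SG_v hV hP h3, h2, zero_smul, one_smul, zero_sub,
        lg_div (al2_am hA) (al2_am hB)] at h4
      have h5 : χ (SRG.pl A - SRG.pl B) (u0 (RatFunc K)) =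
          - f (bx (1 - algebraMap K[X] (RatFunc K) A / algebraMap K[X] (RatFunc K) B)
              (u0 (RatFunc K))) := by
        rw [h4, neg_neg]
        rfl
      rw [h5]
      refine Submodule.neg_mem _ (Submodule.mem_map_of_mem ?_)
      exact Submodule.subset_span ⟨A, B, hAB, hne, rfl⟩
  | zero =>
    rw [map_zero, LinearMap.zero_apply]
    exact Submodule.zero_mem _
  | add a b _ _ ha hb =>
    rw [map_add, LinearMap.add_apply]
    exact Submodule.add_mem _ ha hb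
  | neg a _ ha =>
    rw [map_neg, LinearMap.neg_apply]
    exact Submodule.neg_mem _ ha

private lemma al2_dec' (hS : SRG.Adm S p.d) (hP : p.P ∉ S) (hV : IsPt p V)
    {N : Type u} [AddCommGroup N] [Module ℚ N] (f : X 0 (RatFunc K) →ₗ[ℚ] N)
    (h1 : ∀ z ∈ Rel 0 (RatFunc K), f z = 0) (h2 : ∀ z ∈ Lv 0 S, f z = 0) {y : RatFunc K}
    (hy : El (insert p.P S) y) (vy : 0 < V.vH (lg y)) :
    f (bx y (u0 (RatFunc K))) ∈ (al2_LL p S).map f := by
  obtain ⟨χ, hχ⟩ := exists_chi hS hP hV 0 f h1 h2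
  have hu : u0 (RatFunc K) ∈ TS 0 (SG S) :=
    Submodule.subset_span ⟨fun i => i.elim0, fun i => i.elim0, rfl⟩
  obtain ⟨h3, h4⟩ := kg_zero hS hP hV hy vy
  have h5 := hχ y hy _ hu
  rw [h4, zero_smul, zero_sub] at h5
  rw [h5]
  exact Submodule.neg_mem _ (Submodule.smul_mem _ _ (al2_key hS hP hV f χ hχ _ h3))

private lemma al2_dec (hS : SRG.Adm S p.d) (hP : p.P ∉ S) (hV : IsPt p V) {y : RatFunc K}
    (hy : El (insert p.P S) y) (vy : 0 < V.vH (lg y)) :
    ∃ l ∈ al2_LL p S, ∃ s ∈ Lv 0 S, ∃ r ∈ Rel 0 (RatFunc K),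
      bx y (u0 (RatFunc K)) = l + (s + r) := by
  have h4 := al2_dec' hS hP hV (Lv 0 S ⊔ Rel 0 (RatFunc K)).mkQ
    (fun z hz => (Submodule.Quotient.mk_eq_zero _).2 (Submodule.mem_sup_right hz))
    (fun z hz => (Submodule.Quotient.mk_eq_zero _).2 (Submodule.mem_sup_left hz)) hy vy
  obtain ⟨l, hl, e⟩ := Submodule.mem_map.1 h4
  have h5 : bx y (u0 (RatFunc K)) - l ∈ Lv 0 S ⊔ Rel 0 (RatFunc K) :=
    (Submodule.Quotient.eq _).1 e.symm
  obtain ⟨s, hs, r, hr, e2⟩ := Submodule.mem_sup.1 h5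
  refine ⟨l, hl, s, hs, r, hr, ?_⟩
  rw [e2, add_sub_cancel]

private lemma al2_A (hS : SRG.Adm S p.d) (hP : p.P ∉ S) (hV : IsPt p V)
    {ψ : X 1 (RatFunc K) →ₗ[ℚ] W} {ϕ : RatFunc K → RatFunc K → W} (h : HF p S ψ ϕ)
    {t : RatFunc K} (ht : El (insert p.P S) t) (h0 : 0 < V.vH (lg t)) {l : X 0 (RatFunc K)}
    (hl : l ∈ al2_LL p S) : al2_T ϕ (bx t (u0 (RatFunc K))) l = 0 := by
  rw [al2_LL] at hl
  induction hl using Submodule.span_induction with
  | mem l hl =>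
    obtain ⟨A, B, hAB, _, rfl⟩ := hl
    obtain ⟨g, hg⟩ := h.fs.fv t
    rw [al2_T_u, h.fs.swap, ← hg, g.sub, hg, h.fs.swap, neg_neg,
      al2_low hS hP hV h hAB ht h0, neg_zero]
  | zero => exact map_zero _
  | add a b _ _ ha hb => rw [map_add, ha, hb, add_zero]
  | smul c a _ ha => rw [map_smul, ha, smul_zero]

private lemma al2_B (hS : SRG.Adm S p.d) (hP : p.P ∉ S) (hV : IsPt p V)
    {ψ : X 1 (RatFunc K) →ₗ[ℚ] W} {ϕ : RatFunc K → RatFunc K → W} (h : HF p S ψ ϕ)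
    {l l' : X 0 (RatFunc K)} (hl : l ∈ al2_LL p S) (hl' : l' ∈ al2_LL p S) :
    al2_T ϕ l l' = 0 := by
  rw [al2_LL] at hl
  induction hl using Submodule.span_induction with
  | mem l hl =>
    obtain ⟨A, B, hAB, hne, rfl⟩ := hl
    obtain ⟨h1, h2, _⟩ := al2_z hP hV hAB hne
    exact al2_A hS hP hV h h1 (by rw [h2]; exact one_pos) hl'
  | zero => rw [map_zero, LinearMap.zero_apply]
  | add a b _ _ ha hb => rw [map_add, LinearMap.add_apply, ha, hb, add_zero]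
  | smul c a _ ha => rw [map_smul, LinearMap.smul_apply, ha, smul_zero]

theorem al_pos (hS : SRG.Adm S p.d) (hP : p.P ∉ S) (hV : IsPt p V)
    {ψ : X 1 (RatFunc K) →ₗ[ℚ] W} {ϕ : RatFunc K → RatFunc K → W} (h : HF p S ψ ϕ)
    {x y : RatFunc K} (hx : El (insert p.P S) x) (hy : El (insert p.P S) y)
    (vx : 0 < V.vH (lg x)) (vy : 0 < V.vH (lg y)) : ϕ x y = 0 := by
  obtain ⟨lx, hlx, sx, hsx, rx, hrx, ex⟩ := al2_dec hS hP hV hx vx
  obtain ⟨ly, hly, sy, hsy, ry, hry, ey⟩ := al2_dec hS hP hV hy vy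
  have h1 : ϕ x y = al2_T ϕ (bx x (u0 (RatFunc K))) sy := by
    rw [← al2_T_u ϕ x y, ey, map_add, map_add, al2_A hS hP hV h hx vx hly,
      al2_rel h.fs hry, zero_add, add_zero]
  have h2 : al2_T ϕ (bx x (u0 (RatFunc K))) sy = al2_T ϕ lx sy := by
    rw [ex, map_add, map_add, LinearMap.add_apply, LinearMap.add_apply, al2_lv h hsx hsy,
      al2_rel' h.fs hrx, zero_add, add_zero]
  have h3 : al2_T ϕ lx (bx y (u0 (RatFunc K))) = al2_T ϕ lx sy := by
    rw [ey, map_add, map_add, al2_B hS hP hV h hlx hly, al2_rel h.fs hry, zero_add, add_zero]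
  rw [h1, h2, ← h3, al2_swap h.fs.swap, al2_A hS hP hV h hy vy hlx, neg_zero]

end

end GD3
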