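import Pool.Agent.GD3.Res2

set_option autoImplicit false

/-!
# GD3-BInj: the terms `B_2 ⊗ Λ^j`, `B_3 ⊗ Λ^j` inject for field extensions
-/

noncomputable section

open Polynomial TensorProduct
open scoped Classical

namespace GD3

open Helper14.Gon Helper14.W4 Helper14.Loc QPL TGF

universe u

section
variable {A B C D : Type u} [AddCommGroup A] [AddCommGroup B] [AddCommGroup C] [AddCommGroup D]

private lemma bi_comp (f : A →ₗ[ℤ] B) (g : C →ₗ[ℤ] D) :
    (AlgebraTensorModule.distribBaseChange ℤ ℚ B D).toLinearMap ∘ₗ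
        (LinearMap.baseChange ℚ (TensorProduct.map f g)) =
      (TensorProduct.map (LinearMap.baseChange ℚ f) (LinearMap.baseChange ℚ g)) ∘ₗ
        (AlgebraTensorModule.distribBaseChange ℤ ℚ A C).toLinearMap := by
  ext a c
  rfl

private lemma bi_app (f : A →ₗ[ℤ] B) (g : C →ₗ[ℤ] D) (z : ℚ ⊗[ℤ] (A ⊗[ℤ] C)) :
    AlgebraTensorModule.distribBaseChange ℤ ℚ B D
        (LinearMap.baseChange ℚ (TensorProduct.map f g) z) =
      TensorProduct.map (LinearMap.baseChange ℚ f) (LinearMap.baseChange ℚ g)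
        (AlgebraTensorModule.distribBaseChange ℤ ℚ A C z) :=
  LinearMap.congr_fun (bi_comp f g) z

private lemma bi_inj (f : A →ₗ[ℤ] B) (g : C →ₗ[ℤ] D)
    (hf : Function.Injective (LinearMap.baseChange ℚ f))
    (hg : Function.Injective (LinearMap.baseChange ℚ g)) :
    Function.Injective (LinearMap.baseChange ℚ (TensorProduct.map f g)) := by
  have h3 : Function.Injective (TensorProduct.map (LinearMap.baseChange ℚ f)
      (LinearMap.baseChange ℚ g)) := TensorProduct.map_injective_of_flat_flat _ _ hf hg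
  intro x y hxy
  apply (AlgebraTensorModule.distribBaseChange ℤ ℚ A C).injective
  apply h3
  exact (bi_app f g x).symm.trans ((congrArg _ hxy).trans (bi_app f g y))

private lemma bi_left (f : A →ₗ[ℤ] B) (g : C →ₗ[ℤ] D) (e : C) (θ : C →ₗ[ℤ] ℤ) (he : θ e = 1)
    (h : Function.Injective (LinearMap.baseChange ℚ (TensorProduct.map f g))) :
    Function.Injective (LinearMap.baseChange ℚ f) := by
  rw [injective_iff_map_eq_zero]
  intro x hx
  have h1 : (AlgebraTensorModule.distribBaseChange ℤ ℚ A C).symm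
      (x ⊗ₜ[ℚ] ((1 : ℚ) ⊗ₜ[ℤ] e)) = 0 := by
    apply h
    rw [map_zero]
    apply (AlgebraTensorModule.distribBaseChange ℤ ℚ B D).injective
    refine (bi_app f g _).trans ?_
    refine (congrArg _ (LinearEquiv.apply_symm_apply _ _)).trans ?_
    rw [TensorProduct.map_tmul, hx, zero_tmul, map_zero]
  have h2 : x ⊗ₜ[ℚ] ((1 : ℚ) ⊗ₜ[ℤ] e) = 0 := (LinearEquiv.map_eq_zero_iff _).1 h1
  have h4 := congrArg (fun t => TensorProduct.rid ℚ _ (LinearMap.lTensor _
    ((AlgebraTensorModule.rid ℤ ℚ ℚ).toLinearMap ∘ₗ (LinearMap.baseChange ℚ θ)) t)) h2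
  simpa [he] using h4

end

section
variable {M L : Type u} [Field M] [Field L]

theorem rs_inj_of (k j : ℕ) (φ : M →+* L) (h : Function.Injective (rs k 0 φ)) :
    Function.Injective (rs k j φ) := by
  have h0 : Function.Injective (resC (k + 1) 0 φ) := by
    rw [injective_iff_map_eq_zero]
    intro z hz
    have h1 : rs k 0 φ ((eC M k 0).symm z) = 0 := by
      apply (eC L k 0).injective
      rw [rs_eq, LinearEquiv.apply_symm_apply, hz, map_zero]
    have h2 := (injective_iff_map_eq_zero _).1 h _ h1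
    exact (LinearEquiv.map_eq_zero_iff _).1 h2
  have h1 : Function.Injective (LinearMap.baseChange ℚ (resB (k + 1) φ).toIntLinearMap) :=
    bi_left _ (resL 0 φ) (one0 M) (exteriorPower.zeroEquiv ℤ (Additive Mˣ)).toLinearMap
      zeroEquiv_one0 h0
  have h3 : Function.Injective (resC (k + 1) j φ) := bi_inj _ _ h1 (resT_injective φ j)
  rw [injective_iff_map_eq_zero]
  intro z hz
  have h4 : resC (k + 1) j φ (eC M k j z) = 0 := by rw [← rs_eq, hz, map_zero]
  have h7 := (injective_iff_map_eq_zero _).1 h3 _ h4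
  exact (LinearEquiv.map_eq_zero_iff _).1 h7

private lemma bi_top (j : ℕ) (φ : M →+* L) (z : CC 0 j M) (h : rs 0 j φ z = 0) :
    z ∈ ZC M 0 j := by
  rw [mem_ZC]
  have h1 : resC 1 j φ (eC M 0 j z) = 0 := by rw [← rs_eq, h, map_zero]
  have h2 := resT_dT j φ (eC M 0 j z)
  rw [h1, map_zero] at h2
  exact resT_injective φ (j + 2) (h2.symm.trans (map_zero _).symm)

private lemma bi_mid (j : ℕ) (φ : M →+* L) (z : CC 1 j M) (h : rs 1 j φ z = 0)
    (hi : Function.Injective (rs 0 (j + 1) φ)) : z ∈ ZC M 1 j := by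
  rw [mem_ZC]
  have h1 : resC 2 j φ (eC M 1 j z) = 0 := by rw [← rs_eq, h, map_zero]
  have h2 := resC_dC 0 j φ (eC M 1 j z)
  rw [h1, map_zero] at h2
  have h3 : rs 0 (j + 1) φ ((eC M 0 (j + 1)).symm (dC 0 j (eC M 1 j z))) = 0 := by
    apply (eC L 0 (j + 1)).injective
    rw [rs_eq, LinearEquiv.apply_symm_apply, map_zero]
    exact h2.symm
  have h4 := (injective_iff_map_eq_zero _).1 hi _ h3
  exact (LinearEquiv.map_eq_zero_iff _).1 h4

private lemma bi_one (k : ℕ) (φ : M →+* L) (hi : Function.Injective (hm k 0 φ))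
    (h : ∀ z : CC k 0 M, rs k 0 φ z = 0 → z ∈ ZC M k 0) : Function.Injective (rs k 0 φ) := by
  rw [injective_iff_map_eq_zero]
  intro z hz
  obtain ⟨h1, e⟩ := hm_ind k 0 φ ⟨z, h z hz⟩
  have e0 : hc (⟨rs k 0 φ z, h1⟩ : ↥(ZC L k 0)) = 0 := by
    have e1 : (⟨rs k 0 φ z, h1⟩ : ↥(ZC L k 0)) = 0 := Subtype.ext hz
    rw [e1]
    rfl
  have h2 : hc (⟨z, h z hz⟩ : ↥(ZC M k 0)) = 0 := by
    apply hi
    rw [e, map_zero]
    exact e0
  have h3 : z ∈ BC M k 0 :=
    (Submodule.Quotient.mk_eq_zero ((BC M k 0).submoduleOf (ZC M k 0))).1 h2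
  exact (Submodule.mem_bot ℚ).1 h3

end

section
variable {M L : Type u} [Field M] [Field L]

/-- `B_2(M) ⊗ Λ^j M^* ⊗ ℚ → B_2(L) ⊗ Λ^j L^* ⊗ ℚ` is injective -/
theorem rs0_inj (j : ℕ) (φ : M →+* L) : Function.Injective (rs 0 j φ) :=
  rs_inj_of 0 j φ (bi_one 0 φ (inj0 0 φ) fun z hz => bi_top 0 φ z hz)

/-- `B_3(M) ⊗ Λ^j M^* ⊗ ℚ → B_3(L) ⊗ Λ^j L^* ⊗ ℚ` is injective -/
theorem rs1_inj (j : ℕ) (φ : M →+* L) : Function.Injective (rs 1 j φ) :=
  rs_inj_of 1 j φ (bi_one 1 φ (inj1 φ) fun z hz => bi_mid 0 φ z hz (rs0_inj 1 φ))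

end

end GD3
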