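import Pool.Agent.GD3.Al2

set_option autoImplicit false

/-!
# GD3-Be: the form Ψ

For `y ∈ El (S ∪ P)` with positive value the function `ϕ(·, y)` is the pull back of a five-term function `γ y` on `k` (`red_all`, `al_pos`).
`be_B f` is the linear map on `X 0 E` with the values `f y` on the `[y]`; `Ψ ξ` is the map `be_B (fun y => γ y ξ)` composed with a linear section of
`[y] ↦ gr y` on the span of the `[y]`, `y` positive.  It is well defined since a combination of these `[y]` with image `0` is in `Lv 0 S ⊔ Rel 0 E` (`exists_chi`).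
-/

noncomputable section

open Polynomial TensorProduct
open scoped Classical

namespace GD3

open Helper14.Gon Helper14.W4 QPL TGF

universe u

section
variable {K k : Type u} [Field K] [Field k] {p : SRG.Pl K k} {V : AC (RatFunc K) k}
  {S : Set K[X]}

variable {W : Type u} [AddCommGroup W] [Module ℚ W]

/-! ### linear algebra -/

private def be_map {F : Type u} [Field F] {W₁ W₂ : Type u} [AddCommGroup W₁] [Module ℚ W₁] [AddCommGroup W₂] [Module ℚ W₂]
    (A : W₁ →ₗ[ℚ] W₂) (g : SRG.FV F W₁) : SRG.FV F W₂ where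
  g := fun x => A (g.g x)
  zero := by rw [g.zero, map_zero]
  one := by rw [g.one, map_zero]
  inv := fun x => by rw [g.inv, map_neg]
  sub := fun x => by rw [g.sub, map_neg]
  five := fun x y a b c d e => by
    have h := congrArg A (g.five x y a b c d e)
    rw [map_zero, map_add, map_sub, map_add, map_sub] at h
    exact h

private lemma be_map_g {F : Type u} [Field F] {W₁ W₂ : Type u} [AddCommGroup W₁] [Module ℚ W₁] [AddCommGroup W₂] [Module ℚ W₂]
    (A : W₁ →ₗ[ℚ] W₂) (g : SRG.FV F W₁) (x : F) : (be_map A g).g x = A (g.g x) := rfl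

private def be_pi {F : Type u} [Field F] {ι : Type u} {W₁ : Type u} [AddCommGroup W₁] (γ : ι → SRG.FV F W₁) :
    SRG.FV F (ι → W₁) where
  g := fun x i => (γ i).g x
  zero := funext fun i => (γ i).zero
  one := funext fun i => (γ i).one
  inv := fun x => funext fun i => (γ i).inv x
  sub := fun x => funext fun i => (γ i).sub x
  five := fun x y a b c d e => funext fun i => (γ i).five x y a b c d e

private def be_A (F : Type u) [Field F] (W₁ : Type u) [AddCommGroup W₁] [Module ℚ W₁] : W₁ →ₗ[ℚ] (Tx 0 F →ₗ[ℚ] W₁) where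
  toFun w := (LinearMap.toSpanSingleton ℚ W₁ w) ∘ₗ (e0 F)
  map_add' v w := LinearMap.ext fun ω => smul_add (e0 F ω) v w
  map_smul' q w := LinearMap.ext fun ω => smul_comm (e0 F ω) q w

private lemma be_A_apply {F : Type u} [Field F] {W₁ : Type u} [AddCommGroup W₁] [Module ℚ W₁] (w : W₁) (ω : Tx 0 F) :
    be_A F W₁ w ω = e0 F ω • w := rfl

private lemma be_e0 (F : Type u) [Field F] : e0 F (u0 F) = 1 := e0_dm _

private def be_B (F : Type u) [Field F] (W₁ : Type u) [AddCommGroup W₁] [Module ℚ W₁] : (F → W₁) →ₗ[ℚ] (X 0 F →ₗ[ℚ] W₁) where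
  toFun f := xl fun y => be_A F W₁ (f y)
  map_add' f g := x_ext fun y ω => by
    rw [LinearMap.add_apply, xl_bx, xl_bx, xl_bx, Pi.add_apply, map_add, LinearMap.add_apply]
  map_smul' q f := x_ext fun y ω => by
    rw [LinearMap.smul_apply, xl_bx, xl_bx, Pi.smul_apply, map_smul, LinearMap.smul_apply, RingHom.id_apply]

private lemma be_B_bx {F : Type u} [Field F] {W₁ : Type u} [AddCommGroup W₁] [Module ℚ W₁] (f : F → W₁) (y : F) (ω : Tx 0 F) :
    be_B F W₁ f (bx y ω) = e0 F ω • f y := by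
  change xl (fun y => be_A F W₁ (f y)) (bx y ω) = _
  rw [xl_bx, be_A_apply]

private lemma be_B_u0 {F : Type u} [Field F] {W₁ : Type u} [AddCommGroup W₁] [Module ℚ W₁] (f : F → W₁) (y : F) :
    be_B F W₁ f (bx y (u0 F)) = f y := by
  rw [be_B_bx, be_e0, one_smul]

/-- a linear section over the image of a subspace -/
private lemma be_sec {M N : Type u} [AddCommGroup M] [Module ℚ M] [AddCommGroup N] [Module ℚ N] (f : M →ₗ[ℚ] N)
    (P : Submodule ℚ M) : ∃ σ : N →ₗ[ℚ] M, ∀ z ∈ P, σ (f z) ∈ P ∧ f (σ (f z)) = f z := by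
  let f' : P →ₗ[ℚ] N := f ∘ₗ P.subtype
  obtain ⟨s, hs⟩ := f'.rangeRestrict.exists_rightInverse_of_surjective f'.range_rangeRestrict
  obtain ⟨t, ht⟩ := LinearMap.exists_extend s
  refine ⟨P.subtype ∘ₗ t, fun z hz => ⟨(t (f z)).2, ?_⟩⟩
  have h1 : t (f z) = s ⟨f z, ⟨⟨z, hz⟩, rfl⟩⟩ := LinearMap.congr_fun ht ⟨f z, ⟨⟨z, hz⟩, rfl⟩⟩
  have h2 := LinearMap.congr_fun hs ⟨f z, ⟨⟨z, hz⟩, rfl⟩⟩
  have h3 := congrArg Subtype.val h2
  change f (t (f z) : M) = f z
  rw [h1]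
  exact h3

/-! ### the function `gr` -/

private lemma be_gr_sub (V : AC (RatFunc K) k) (x : RatFunc K) : gr V (1 - x) = - gr V x := by
  rw [gr, gr, sub_sub_cancel, neg_sub]

private lemma be_w1_sub (a b : Additive (RatFunc K)ˣ) : w1 (a - b) = w1 a - w1 b := by
  rw [w1, w1, w1, sub_eq_add_neg, wT_add, wT_neg, LinearMap.add_apply, LinearMap.neg_apply, sub_eq_add_neg]

private lemma be_gr_inv (V : AC (RatFunc K) k) {x : RatFunc K} (hx : x ≠ 0) (hx1 : x ≠ 1) : gr V x⁻¹ = - gr V x := by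
  have h1x : 1 - x ≠ 0 := sub_ne_zero.2 (Ne.symm hx1)
  have e1 : 1 - x⁻¹ = (-(1 - x)) / x := by
    field_simp
    ring
  have e2 : V.vH (lg (-(1 - x))) = V.vH (lg (1 - x)) := by
    rw [QPL.vH_lg V (neg_ne_zero.2 h1x), QPL.vH_lg V h1x, V.v_neg]
  have e3 : w1 (lg (-(1 - x))) = w1 (lg (1 - x)) := by
    rw [w1, w1, wT_lg_neg 0 h1x]
  have e4 : w1 (-lg x) = - w1 (lg x) := by
    rw [w1, w1, wT_neg, LinearMap.neg_apply]
  rw [gr, gr, e1, lg_inv, lg_div (neg_ne_zero.2 h1x) hx, be_w1_sub, map_sub, map_neg, e2, e3, e4]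
  module

private lemma be_gr_zero (V : AC (RatFunc K) k) : gr V (0 : RatFunc K) = 0 := by
  rw [gr, sub_zero, lg_zero, lg_one, map_zero, zero_smul, sub_zero]

private lemma be_gr_one (V : AC (RatFunc K) k) : gr V (1 : RatFunc K) = 0 := by
  rw [gr, sub_self, lg_zero, lg_one, map_zero, zero_smul, sub_zero]

private lemma be_El_zero (S : Set K[X]) : El S (0 : RatFunc K) := by
  refine ⟨?_, ?_⟩
  · rw [lg_zero]
    exact (SG S).zero_mem
  · rw [sub_zero, lg_one]
    exact (SG S).zero_mem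

private lemma be_El_one (S : Set K[X]) : El S (1 : RatFunc K) := by
  have h := El_sub (be_El_zero S)
  rwa [sub_zero] at h

/-- the elements of level `S ∪ P` -/
private lemma be_cases (hP : p.P ∉ S) (hV : IsPt p V) {x : RatFunc K} (hx : El (insert p.P S) x) :
    (El S x ∧ gr V x = 0) ∨ ∃ x' : RatFunc K, El (insert p.P S) x' ∧ 0 < V.vH (lg x') ∧
      (∀ Ψ : SRG.FV k (Tx 1 (RatFunc K) →ₗ[ℚ] W), ev V Ψ x = 0) ∧ ∃ q : ℚ, gr V x = q • gr V x' ∧
        ∀ F : SRG.FV (RatFunc K) W, F.g x = q • F.g x' := by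
  by_cases hx0 : x = 0
  · left
    rw [hx0]
    exact ⟨be_El_zero S, be_gr_zero V⟩
  by_cases hx1 : x = 1
  · left
    rw [hx1]
    exact ⟨be_El_one S, be_gr_one V⟩
  have h1x : 1 - x ≠ 0 := sub_ne_zero.2 (Ne.symm hx1)
  have e0 := QPL.vH_lg V hx0
  have e1 := QPL.vH_lg V h1x
  have nx : -x ≠ 0 := neg_ne_zero.2 hx0
  have s1 : 1 + -x = 1 - x := (sub_eq_add_neg 1 x).symm
  rcases lt_trichotomy (V.v x) 0 with h | h | h
  · right
    refine ⟨x⁻¹, El_inv hx, ?_, fun Ψ => if_neg fun h2 => ?_, -1, ?_, fun F => ?_⟩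
    · rw [lg_inv, map_neg, e0]
      linarith
    · exact absurd h2.2 h.ne
    · rw [be_gr_inv V hx0 hx1, neg_one_smul, neg_neg]
    · rw [F.inv, neg_one_smul, neg_neg]
  · by_cases hl : V.lc x = 1
    · right
      have h2 := V.add_eq (x := (1 : RatFunc K)) (y := -x) one_ne_zero nx (by rw [V.v_one, V.v_neg, h])
        (by rw [map_one, V.lc_neg, hl, add_neg_cancel])
      rw [s1] at h2
      have h3 := h2.resolve_left h1x
      rw [V.v_one] at h3
      refine ⟨1 - x, El_sub hx, ?_, fun Ψ => ?_, -1, ?_, fun F => ?_⟩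
      · rw [e1]
        exact h3
      · rw [ev, if_pos ⟨hx0, h⟩, hl, Ψ.one]
      · rw [be_gr_sub, neg_one_smul, neg_neg]
      · rw [F.sub, neg_one_smul, neg_neg]
    · left
      have h2 := V.add_ne (x := (1 : RatFunc K)) (y := -x) one_ne_zero nx (by rw [V.v_one, V.v_neg, h])
        (by
          rw [map_one, V.lc_neg, ← sub_eq_add_neg]
          exact sub_ne_zero.2 (Ne.symm hl))
      rw [s1] at h2
      have h3 : V.v (1 - x) = 0 := by rw [h2.2.1, V.v_one]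
      rw [h] at e0
      rw [h3] at e1
      refine ⟨⟨SG_insert_v hV hP hx.1 e0, SG_insert_v hV hP hx.2 e1⟩, ?_⟩
      rw [gr, e0, e1, zero_smul, zero_smul, sub_zero]
  · right
    refine ⟨x, hx, ?_, fun Ψ => if_neg fun h2 => ?_, 1, ?_, fun F => ?_⟩
    · rw [e0]
      exact h
    · exact absurd h2.2 h.ne'
    · rw [one_smul]
    · rw [one_smul]

/-! ### the functions `γ y` -/

private lemma be_gam (hS : SRG.Adm S p.d) (hP : p.P ∉ S) (hV : IsPt p V)
    {ψ : X 1 (RatFunc K) →ₗ[ℚ] W} {ϕ : RatFunc K → RatFunc K → W} (h : HF p S ψ ϕ) {y : RatFunc K}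
    (hy : El (insert p.P S) y) (vy : 0 < V.vH (lg y)) :
    ∃ g : SRG.FV k W, ∀ x : RatFunc K, El (insert p.P S) x → ϕ x y = ev V g x := by
  obtain ⟨f, hf⟩ := h.fs.fv y
  have h1 : ∀ A B : K[X], A ≠ 0 → B ≠ 0 → SRG.Sm S A → SRG.Sm S B → p.P ∣ A - B →
      A.natDegree ≤ 2 * p.d - 1 → B.natDegree ≤ 2 * p.d - 1 → SRG.G f A B = 0 := by
    intro A B hA hB sA sB hd dA dB
    by_cases hAB : A = B
    · rw [hAB]
      exact SRG.G_self f B
    have hC : B - A ≠ 0 := sub_ne_zero.2 (Ne.symm hAB)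
    have ha : algebraMap K[X] (RatFunc K) A ≠ 0 := RatFunc.algebraMap_ne_zero hA
    have hb : algebraMap K[X] (RatFunc K) B ≠ 0 := RatFunc.algebraMap_ne_zero hB
    have hc : algebraMap K[X] (RatFunc K) (B - A) ≠ 0 := RatFunc.algebraMap_ne_zero hC
    obtain ⟨D, hD⟩ : p.P ∣ B - A := by
      rw [← neg_sub]
      exact (dvd_neg).2 hd
    have hD0 : D ≠ 0 := by
      rintro rfl
      exact hC (by rw [hD, mul_zero])
    have hPd : p.P.natDegree = p.d := rfl
    have hp0 : p.P ≠ 0 := p.irr.ne_zero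
    have dD : D.natDegree < p.d := by
      have h2 : (B - A).natDegree = p.d + D.natDegree := by
        rw [hD, Polynomial.natDegree_mul hp0 hD0, hPd]
      have h3 : (B - A).natDegree ≤ 2 * p.d - 1 := (Polynomial.natDegree_sub_le B A).trans (max_le dB dA)
      have h4 : 1 ≤ p.d := p.irr.natDegree_pos
      omega
    have sP : SRG.Sm (insert p.P S) p.P := by
      right
      intro Q hQm hQi hQd
      have h2 : Associated Q p.P := (hQi.dvd_irreducible_iff_associated p.irr).1 hQd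
      rw [Polynomial.eq_of_monic_of_associated hQm p.monic h2]
      exact Set.mem_insert _ _
    have sC : SRG.Sm (insert p.P S) (B - A) := by
      rw [hD]
      exact sP.mul ((hS.sm dD).mono (Set.subset_insert _ _))
    have hx : 1 - algebraMap K[X] (RatFunc K) A / algebraMap K[X] (RatFunc K) B =
        algebraMap K[X] (RatFunc K) (B - A) / algebraMap K[X] (RatFunc K) B := by
      rw [map_sub, _root_.sub_div, div_self hb]
    have sub : S ⊆ insert p.P S := Set.subset_insert _ _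
    have hEl : El (insert p.P S) (algebraMap K[X] (RatFunc K) A / algebraMap K[X] (RatFunc K) B) := by
      refine ⟨?_, ?_⟩
      · rw [lg_div ha hb]
        exact (SG _).sub_mem (SG_pl hA (sA.mono sub)) (SG_pl hB (sB.mono sub))
      · rw [hx, lg_div hc hb]
        exact (SG _).sub_mem (SG_pl hC sC) (SG_pl hB (sB.mono sub))
    have hv : 0 < V.vH (lg (1 - algebraMap K[X] (RatFunc K) A / algebraMap K[X] (RatFunc K) B)) := by
      have v1 : V.v (algebraMap K[X] (RatFunc K) B) = 0 :=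
        hV.v B (sB.not_dvd hB p.monic p.irr hP)
      have v2 : V.v (algebraMap K[X] (RatFunc K) D) = 0 := by
        refine hV.v D fun h2 => ?_
        have h3 := Polynomial.natDegree_le_of_dvd h2 hD0
        rw [hPd] at h3
        omega
      have hd0 : algebraMap K[X] (RatFunc K) D ≠ 0 := RatFunc.algebraMap_ne_zero hD0
      have hpp : algebraMap K[X] (RatFunc K) p.P ≠ 0 := RatFunc.algebraMap_ne_zero hp0
      rw [hx, lg_div hc hb, map_sub, QPL.vH_lg V hb, QPL.vH_lg V hc, v1, hD, map_mul, V.v_mul hpp hd0, hV.vP, v2]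
      norm_num
    have h5 := al_pos hS hP hV h (El_sub hEl) hy hv vy
    rw [← hf, f.sub, neg_eq_zero] at h5
    exact h5
  obtain ⟨g, hg⟩ := red_all hS hP hV f h1
  exact ⟨g, fun x hx => by rw [← hf, hg x hx]⟩

/-! ### chains of positive elements -/

private def be_P (p : SRG.Pl K k) (V : AC (RatFunc K) k) (S : Set K[X]) : Submodule ℚ (X 0 (RatFunc K)) :=
  Submodule.span ℚ {z | ∃ y : RatFunc K, El (insert p.P S) y ∧ 0 < V.vH (lg y) ∧ z = bx y (u0 (RatFunc K))}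

private lemma be_gQ {Q : Type u} [AddCommGroup Q] [Module ℚ Q] (π : X 0 (RatFunc K) →ₗ[ℚ] Q)
    (χ : Additive (RatFunc K)ˣ →+ (Tx 0 (RatFunc K) →ₗ[ℚ] Q)) (h : ∀ y : RatFunc K, El (insert p.P S) y →
      π (bx y (u0 (RatFunc K))) = V.vH (lg (1 - y)) • χ (lg y) (u0 (RatFunc K)) -
        V.vH (lg y) • χ (lg (1 - y)) (u0 (RatFunc K))) {z : X 0 (RatFunc K)} (hz : z ∈ be_P p V S)
    (h0 : be_B (RatFunc K) (Tx 1 (RatFunc K)) (gr V) z = 0) : π z = 0 := by
  obtain ⟨Om, hOm⟩ := koszul0 χ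
  have h1 : be_P p V S ≤ LinearMap.ker (π - Om ∘ₗ (be_B (RatFunc K) (Tx 1 (RatFunc K)) (gr V))) := by
    rw [be_P, Submodule.span_le]
    rintro z ⟨y, hy, -, rfl⟩
    rw [SetLike.mem_coe, LinearMap.mem_ker, LinearMap.sub_apply, h y hy, LinearMap.comp_apply, be_B_u0, gr,
      map_sub, map_smul, map_smul, w1, w1, hOm, hOm, sub_self]
  have h2 := LinearMap.mem_ker.1 (h1 hz)
  rwa [LinearMap.sub_apply, LinearMap.comp_apply, h0, map_zero, sub_zero] at h2

private lemma be_ker (hS : SRG.Adm S p.d) (hP : p.P ∉ S) (hV : IsPt p V) {z : X 0 (RatFunc K)} (hz : z ∈ be_P p V S)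
    (h0 : be_B (RatFunc K) (Tx 1 (RatFunc K)) (gr V) z = 0) : z ∈ Lv 0 S ⊔ Rel 0 (RatFunc K) := by
  obtain ⟨χ, hχ⟩ := exists_chi hS hP hV 0 ((Lv 0 S ⊔ Rel 0 (RatFunc K)).mkQ)
    (fun z hz => (Submodule.Quotient.mk_eq_zero _).2 (Submodule.mem_sup_right hz))
    (fun z hz => (Submodule.Quotient.mk_eq_zero _).2 (Submodule.mem_sup_left hz))
  have h2 := be_gQ (V := V) _ χ (fun y hy => hχ y hy (u0 (RatFunc K)) (TS_zero (SG S) (u0 (RatFunc K)))) hz h0
  exact (Submodule.Quotient.mk_eq_zero _).1 h2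

private lemma be_lv {ψ : X 1 (RatFunc K) →ₗ[ℚ] W} {ϕ : RatFunc K → RatFunc K → W} (h : HF p S ψ ϕ) {x : RatFunc K}
    (hx : El S x) {a : X 0 (RatFunc K)} (ha : a ∈ Lv 0 S) : be_B (RatFunc K) W (ϕ x) a = 0 := by
  have h1 : Lv 0 S ≤ LinearMap.ker (be_B (RatFunc K) W (ϕ x)) := by
    rw [Lv, Submodule.span_le]
    rintro z ⟨y, ω, hy, -, rfl⟩
    rw [SetLike.mem_coe, LinearMap.mem_ker, be_B_bx, h.ph x y hx hy, smul_zero]
  exact LinearMap.mem_ker.1 (h1 ha)

private def be_F {F : Type u} [Field F] {W₁ : Type u} [AddCommGroup W₁] [Module ℚ W₁] (g : SRG.FV F W₁) :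
    SRG.FV F (Tx 0 F →ₗ[ℚ] W₁) := be_map (be_A F W₁) g

private lemma be_F_g {F : Type u} [Field F] {W₁ : Type u} [AddCommGroup W₁] [Module ℚ W₁] (g : SRG.FV F W₁) (x : F) :
    (be_F g).g x = be_A F W₁ (g.g x) := rfl

private lemma be_rel0 {W₁ : Type u} [AddCommGroup W₁] [Module ℚ W₁] (g : SRG.FV (RatFunc K) W₁)
    {b : X 0 (RatFunc K)} (hb : b ∈ Rel 0 (RatFunc K)) : be_B (RatFunc K) W₁ (fun y => g.g y) b = 0 := by
  have h1 : be_B (RatFunc K) W₁ (fun y => g.g y) = xl (fun y => (be_F g).g y) := by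
    refine x_ext fun y ω => ?_
    rw [be_B_bx, xl_bx, be_F_g, be_A_apply]
  have h2 := rel_of_fv 0 (be_F g) hb
  rw [h1]
  exact h2

private lemma be_rel {ψ : X 1 (RatFunc K) →ₗ[ℚ] W} {ϕ : RatFunc K → RatFunc K → W} (h : HF p S ψ ϕ) (x : RatFunc K)
    {b : X 0 (RatFunc K)} (hb : b ∈ Rel 0 (RatFunc K)) : be_B (RatFunc K) W (ϕ x) b = 0 := by
  obtain ⟨g, hg⟩ := h.fs.fv x
  have h3 : ϕ x = - fun y => g.g y := by
    funext y
    rw [Pi.neg_apply, hg, h.fs.swap x y]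
  rw [h3, map_neg, LinearMap.neg_apply, be_rel0 g hb, neg_zero]

private lemma be_kill {ψ : X 1 (RatFunc K) →ₗ[ℚ] W} {ϕ : RatFunc K → RatFunc K → W} (h : HF p S ψ ϕ) {x : RatFunc K}
    (hx : El S x) {z : X 0 (RatFunc K)} (hz : z ∈ Lv 0 S ⊔ Rel 0 (RatFunc K)) :
    be_B (RatFunc K) W (ϕ x) z = 0 := by
  obtain ⟨a, ha, b, hb, rfl⟩ := Submodule.mem_sup.1 hz
  rw [map_add, be_lv h hx ha, be_rel h x hb, add_zero]

theorem exists_be (hS : SRG.Adm S p.d) (hP : p.P ∉ S) (hV : IsPt p V)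
    {ψ : X 1 (RatFunc K) →ₗ[ℚ] W} {ϕ : RatFunc K → RatFunc K → W} (h : HF p S ψ ϕ) :
    ∃ Ψ : SRG.FV k (Tx 1 (RatFunc K) →ₗ[ℚ] W), ∀ x y : RatFunc K, El (insert p.P S) x →
      El (insert p.P S) y → ϕ x y = ev V Ψ x (gr V y) - ev V Ψ y (gr V x) := by
  have hγ : ∀ y : RatFunc K, ∃ g : SRG.FV k W, El (insert p.P S) y → 0 < V.vH (lg y) →
      ∀ x : RatFunc K, El (insert p.P S) x → ϕ x y = ev V g x := by
    intro y
    by_cases hy : El (insert p.P S) y ∧ 0 < V.vH (lg y)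
    · obtain ⟨g, hg⟩ := be_gam hS hP hV h hy.1 hy.2
      exact ⟨g, fun _ _ => hg⟩
    · exact ⟨⟨fun _ => 0, rfl, rfl, fun _ => neg_zero.symm, fun _ => neg_zero.symm, fun _ _ _ _ _ _ _ => by simp⟩,
        fun h1 h2 => absurd ⟨h1, h2⟩ hy⟩
  choose γ hγ using hγ
  obtain ⟨σ, hσ⟩ := be_sec (be_B (RatFunc K) (Tx 1 (RatFunc K)) (gr V)) (be_P p V S)
  let Ψ : SRG.FV k (Tx 1 (RatFunc K) →ₗ[ℚ] W) :=
    be_map ((LinearMap.lcomp ℚ W σ) ∘ₗ (be_B (RatFunc K) W)) (be_pi γ)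
  have hΨ : ∀ (ξ : k) (ω : Tx 1 (RatFunc K)), Ψ.g ξ ω = be_B (RatFunc K) W (fun y => (γ y).g ξ) (σ ω) := fun ξ ω => rfl
  -- the values of the form
  have key : ∀ x y : RatFunc K, El S x → El (insert p.P S) y → 0 < V.vH (lg y) → ϕ x y = ev V Ψ x (gr V y) := by
    intro x y hx hy vy
    have hx' : El (insert p.P S) x := El_mono (Set.subset_insert _ _) hx
    rw [hγ y hy vy x hx', ev, ev]
    by_cases hxu : x ≠ 0 ∧ V.v x = 0
    · rw [if_pos hxu, if_pos hxu, hΨ]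
      have hyP : bx y (u0 (RatFunc K)) ∈ be_P p V S := Submodule.subset_span ⟨y, hy, vy, rfl⟩
      obtain ⟨s1, s2⟩ := hσ _ hyP
      rw [be_B_u0] at s1 s2
      have h1 : be_P p V S ≤ LinearMap.ker (be_B (RatFunc K) W (fun y => (γ y).g (V.lc x)) - be_B (RatFunc K) W (ϕ x)) := by
        refine Submodule.span_le.2 ?_
        rintro _ ⟨w, hw, vw, rfl⟩
        rw [SetLike.mem_coe, LinearMap.mem_ker, LinearMap.sub_apply, be_B_u0, be_B_u0, hγ w hw vw x hx', ev, if_pos hxu, sub_self]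
      have hz : σ (gr V y) - bx y (u0 (RatFunc K)) ∈ be_P p V S := Submodule.sub_mem _ s1 hyP
      have h2 := be_ker hS hP hV hz (by rw [map_sub, s2, be_B_u0, sub_self])
      have h3 := be_kill h hx h2
      have h4 := h1 hz
      rw [LinearMap.mem_ker, LinearMap.sub_apply, h3, sub_zero, map_sub, be_B_u0] at h4
      exact (sub_eq_zero.1 h4).symm
    · rw [if_neg hxu, if_neg hxu, LinearMap.zero_apply]
  have ev0 : ∀ x : RatFunc K, ev V Ψ x 0 = 0 := fun x => map_zero _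
  refine ⟨Ψ, fun x y hx hy => ?_⟩
  obtain ⟨fy, hfy⟩ := h.fs.fv y
  rcases be_cases (W := W) hP hV hx with ⟨hxS, gx⟩ | ⟨x', hx', vx', ex, q, gx, fx⟩
  · rw [gx, ev0, sub_zero]
    rcases be_cases (W := W) hP hV hy with ⟨hyS, gy⟩ | ⟨y', hy', vy', ey, q, gy, fy'⟩
    · rw [gy, ev0]
      exact h.ph x y hxS hyS
    · obtain ⟨fx, hfx⟩ := h.fs.fv x
      have h1 := fy' fx
      rw [hfx, hfx, h.fs.swap y x, h.fs.swap y' x, smul_neg, neg_inj] at h1
      rw [h1, key x y' hxS hy' vy', gy, map_smul]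
  · rw [ex Ψ, LinearMap.zero_apply, zero_sub, ← hfy, fx fy, hfy]
    rcases be_cases (W := W) hP hV hy with ⟨hyS, gy⟩ | ⟨y', hy', vy', ey, q', gy, fy'⟩
    · rw [h.fs.swap x' y, key y x' hyS hx' vx', gx, map_smul, smul_neg]
    · obtain ⟨fx', hfx'⟩ := h.fs.fv x'
      have h1 := fy' fx'
      rw [hfx', hfx', h.fs.swap y x', h.fs.swap y' x', smul_neg, neg_inj, al_pos hS hP hV h hx' hy' vx' vy', smul_zero] at h1
      rw [h1, smul_zero, ey Ψ, LinearMap.zero_apply, neg_zero]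

end

end GD3
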