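import Pool.Agent.GD3.Low

set_option autoImplicit false

/-!
# GD3-Cls: 1-units as quotients of two elements of a class

`cls_one`: if `c ≠ 0` and `A`, `B` are nonzero, smooth, of degree at most `d`, `P ∣ A - B`, then
there is `M ≠ 0` of degree less than `d` with `p.r M * p.r B = c`; it is smooth, and `u = M A`,
`w = M B` are in the class of `c`.
`KG_cls`: the 1-units are generated by the quotients of two elements of a class.
`xa_sub`: the difference of two elements of a class is `P` times a smooth polynomial.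
-/

noncomputable section

open Polynomial TensorProduct
open scoped Classical

namespace GD3

open Helper14.Gon Helper14.W4 QPL TGF

universe u

section
variable {K k : Type u} [Field K] [Field k] {p : SRG.Pl K k} {V : AC (RatFunc K) k}
  {S : Set K[X]}

private lemma cls_r {A B : K[X]} : p.P ∣ A - B ↔ p.r A = p.r B := by
  rw [← p.ker, map_sub, sub_eq_zero]

private lemma cls_dpos : 0 < p.d := p.irr.natDegree_pos

/-- a nonzero class has a nonzero representative of degree less than `d` -/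
private lemma cls_rep (x : k) : ∃ M : K[X], M.natDegree < p.d ∧ p.r M = x := by
  obtain ⟨M₀, hM₀⟩ := p.surj x
  refine ⟨M₀ %ₘ p.P, ?_, ?_⟩
  · apply Polynomial.natDegree_modByMonic_lt M₀ p.monic
    intro h
    have := cls_dpos (p := p)
    unfold SRG.Pl.d at this
    rw [h, Polynomial.natDegree_one] at this
    exact lt_irrefl _ this
  · have h1 : p.P ∣ M₀ %ₘ p.P - M₀ := by
      refine ⟨- (M₀ /ₘ p.P), ?_⟩
      have h2 := Polynomial.modByMonic_add_div M₀ p.P
      linear_combination h2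
    rw [cls_r.1 h1, hM₀]

theorem cls_one (hS : SRG.Adm S p.d) (hP : p.P ∉ S) {c : k} (hc : c ≠ 0) {A B : K[X]}
    (hA : A ≠ 0) (hB : B ≠ 0) (sA : SRG.Sm S A) (sB : SRG.Sm S B) (h : p.P ∣ A - B)
    (dA : A.natDegree ≤ p.d) (dB : B.natDegree ≤ p.d) :
    ∃ u w : K[X], XA p S c u ∧ XA p S c w ∧ SRG.pl A - SRG.pl B = SRG.pl u - SRG.pl w ∧
      algebraMap K[X] (RatFunc K) A / algebraMap K[X] (RatFunc K) B =
        algebraMap K[X] (RatFunc K) u / algebraMap K[X] (RatFunc K) w := by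
  have hB0 : p.r B ≠ 0 := by
    intro h0
    exact sB.not_dvd hB p.monic p.irr hP ((p.ker B).1 h0)
  obtain ⟨M, hMd, hMr⟩ := cls_rep (p := p) (c / p.r B)
  have hMB : p.r M * p.r B = c := by
    rw [hMr, div_mul_cancel₀ _ hB0]
  have hM0 : M ≠ 0 := by
    intro h0
    rw [h0, map_zero, zero_mul] at hMB
    exact hc hMB.symm
  have hMs : SRG.Sm S M := hS.sm hMd
  have hAB : p.r A = p.r B := cls_r.1 h
  have hnd : ∀ Y : K[X], Y.natDegree ≤ p.d → (M * Y).natDegree ≤ 2 * p.d - 1 := by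
    intro Y hY
    have h1 := Polynomial.natDegree_mul_le (p := M) (q := Y)
    omega
  refine ⟨M * A, M * B, ⟨mul_ne_zero hM0 hA, hMs.mul sA, hnd A dA, ?_⟩,
    ⟨mul_ne_zero hM0 hB, hMs.mul sB, hnd B dB, ?_⟩, ?_, ?_⟩
  · rw [map_mul, hAB, hMB]
  · rw [map_mul, hMB]
  · rw [SRG.pl_mul hM0 hA, SRG.pl_mul hM0 hB]
    abel
  · have hM1 : algebraMap K[X] (RatFunc K) M ≠ 0 := by
      rw [Ne, map_eq_zero_iff _ (RatFunc.algebraMap_injective K)]
      exact hM0
    rw [map_mul, map_mul, mul_div_mul_left _ _ hM1]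

theorem KG_cls (hS : SRG.Adm S p.d) (hP : p.P ∉ S) {c : k} (hc : c ≠ 0) : SRG.KG p S =
    AddSubgroup.closure {x | ∃ u w : K[X], XA p S c u ∧ XA p S c w ∧
      x = SRG.pl u - SRG.pl w} := by
  apply le_antisymm
  · rw [KG_low hS hP, AddSubgroup.closure_le]
    rintro x ⟨A, B, hA, hB, sA, sB, h, dA, dB, rfl⟩
    obtain ⟨u, w, hu, hw, h1, -⟩ := cls_one hS hP hc hA hB sA sB h dA dB
    rw [h1]
    exact AddSubgroup.subset_closure ⟨u, w, hu, hw, rfl⟩
  · rw [AddSubgroup.closure_le]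
    rintro x ⟨u, w, hu, hw, rfl⟩
    exact SRG.KG_mk hu.1 hw.1 hu.2.1 hw.2.1 (cls_r.2 (hu.2.2.2.trans hw.2.2.2.symm))

/-- the difference of two elements of a class is `P` times a smooth polynomial -/
theorem xa_sub (hS : SRG.Adm S p.d) (hP : p.P ∉ S) {c : k} {u w : K[X]} (hu : XA p S c u)
    (hw : XA p S c w) : ∃ D : K[X], u - w = p.P * D ∧ SRG.Sm S D ∧ (u ≠ w → D ≠ 0) := by
  obtain ⟨D, hD⟩ : p.P ∣ u - w := cls_r.2 (hu.2.2.2.trans hw.2.2.2.symm)
  refine ⟨D, hD, ?_, ?_⟩
  · by_cases h0 : D = 0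
    · rw [h0]
      exact SRG.sm_zero S
    · apply hS.sm
      have h1 : (u - w).natDegree ≤ 2 * p.d - 1 :=
        (Polynomial.natDegree_sub_le u w).trans (max_le hu.2.2.1 hw.2.2.1)
      rw [hD, Polynomial.natDegree_mul p.irr.ne_zero h0] at h1
      have h2 : 0 < p.d := cls_dpos
      have h3 : p.P.natDegree = p.d := rfl
      omega
  · intro hne h0
    rw [h0, mul_zero, sub_eq_zero] at hD
    exact hne hD

end

end GD3
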