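import Pool.Agent.TGF.RL
import Pool.Agent.TGF.Lvs
import Pool.Agent.TGF.Fin
import Pool.Agent.Helper14.W4.Lk3

set_option autoImplicit false

/-!
# GD3: formal cocycles of weight three (definitions)

`D F` is the space of formal combinations of symbols `⟨x, y⟩` (`x, y ∈ F`), standing for
`{x} ∧ {y} ∈ Λ² B_2(F)`; `dS : D F → X 2 F` maps `⟨x, y⟩` to `[y] (1 - x) ∧ x - [x] (1 - y) ∧ y`.
A formal cocycle is a pair `(y, σ)`, `y : X 1 F`, `σ : D F`, with `d3 y + dS σ ∈ Rel`.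
`St F` is the space of the formal cocycles `(w, 0)`, `w ∈ NX 1 F`, `(star x y, - ⟨x, y⟩)`, `(0, r)`,
`r ∈ D0 F` (the relations of `Λ² B_2`).
-/

noncomputable section

open Polynomial TensorProduct
open scoped Classical

namespace GD3

open Helper14.Gon Helper14.W4 QPL TGF

universe u v w

section
variable (F : Type u) [Field F]

/-- formal combinations of symbols `⟨x, y⟩` -/
abbrev D : Type u := (F × F) →₀ ℚ

/-- formal cochains -/
abbrev C1 : Type u := X 1 F × D F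

variable {F}

/-- the symbol `⟨x, y⟩` -/
def sb (x y : F) : D F := Finsupp.single (x, y) 1

/-- `a ∈ Λ^1` -/
def w1 (a : Additive Fˣ) : Tx 1 F := wT 0 a (u0 F)

/-- `a ∧ b ∈ Λ^2` -/
def w2 (a b : Additive Fˣ) : Tx 2 F := wT 1 a (w1 b)

/-- multiplication by `μ ∈ Λ^j`: `[x] ↦ [x] μ` -/
def mu (j : ℕ) (μ : Tx j F) : X 0 F →ₗ[ℚ] X j F :=
  xl fun x => (LinearMap.toSpanSingleton ℚ (X j F) (bx x μ)) ∘ₗ (e0 F)

variable (F)

/-- the map `⟨x, y⟩ ↦ [y] (1 - x) ∧ x - [x] (1 - y) ∧ y` -/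
def dS : D F →ₗ[ℚ] X 2 F :=
  Finsupp.linearCombination ℚ fun p : F × F =>
    bx p.2 (w2 (lg (1 - p.1)) (lg p.1)) - bx p.1 (w2 (lg (1 - p.2)) (lg p.2))

/-- the differential of a formal cochain -/
def dC1 : C1 F →ₗ[ℚ] X 2 F := (d3 1).coprod (dS F)

/-- formal cocycles -/
def CZ : Submodule ℚ (C1 F) := (Rel 2 F).comap (dC1 F)

/-- the relations of `Λ² B_2` -/
def D0 : Submodule ℚ (D F) := Submodule.span ℚ
  ({z | ∃ x : F, z = sb x x} ∪ {z | ∃ x y : F, z = sb x y + sb y x} ∪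
   {z | ∃ y : F, z = sb 0 y} ∪ {z | ∃ y : F, z = sb 1 y} ∪
   {z | ∃ x y : F, z = sb x y + sb x⁻¹ y} ∪ {z | ∃ x y : F, z = sb x y + sb (1 - x) y} ∪
   {z | ∃ x x' y : F, x ≠ 0 ∧ x ≠ 1 ∧ x' ≠ 0 ∧ x' ≠ 1 ∧ x ≠ x' ∧
      z = sb x y - sb x' y + sb (x' / x) y - sb ((1 - x⁻¹) / (1 - x'⁻¹)) y +
        sb ((1 - x) / (1 - x')) y})

/-- the trivial formal cocycles -/
def St : Submodule ℚ (C1 F) := Submodule.span ℚ
  ({c | ∃ w ∈ NX 1 F, c = (w, 0)} ∪
   {c | ∃ x y : F, x ≠ 0 ∧ x ≠ 1 ∧ y ≠ 0 ∧ y ≠ 1 ∧ x ≠ y ∧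
      c = (star 0 x y (u0 F), - sb x y)} ∪
   {c | ∃ r ∈ D0 F, c = (0, r)})

variable {F}

lemma dS_sb (x y : F) : dS F (sb x y) =
    bx y (w2 (lg (1 - x)) (lg x)) - bx x (w2 (lg (1 - y)) (lg y)) := by
  rw [dS, sb, Finsupp.linearCombination_single, one_smul]

lemma dC1_apply (c : C1 F) : dC1 F c = d3 1 c.1 + dS F c.2 := by
  rw [dC1, LinearMap.coprod_apply]

lemma mem_CZ {c : C1 F} : c ∈ CZ F ↔ d3 1 c.1 + dS F c.2 ∈ Rel 2 F := by
  rw [CZ, Submodule.mem_comap, dC1_apply]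

/-- induction on formal combinations of symbols -/
lemma D_ind (p : D F → Prop) (h0 : p 0) (hadd : ∀ a b, p a → p b → p (a + b))
    (h1 : ∀ (q : ℚ) (x y : F), p (q • sb x y)) (z : D F) : p z := by
  induction z using Finsupp.induction_linear with
  | zero => exact h0
  | add a b ha hb => exact hadd a b ha hb
  | single xy q =>
    have h := h1 q xy.1 xy.2
    rw [sb, Finsupp.smul_single, smul_eq_mul, mul_one] at h
    exact h

/-- linear maps on `D F` agreeing on symbols are equal -/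
lemma D_ext {N : Type v} [AddCommGroup N] [Module ℚ N] {f g : D F →ₗ[ℚ] N}
    (h : ∀ x y : F, f (sb x y) = g (sb x y)) : f = g := by
  refine Finsupp.lhom_ext fun p q => ?_
  have h1 := h p.1 p.2
  have h2 : (Finsupp.single p q : D F) = q • sb p.1 p.2 := by
    rw [sb, Finsupp.smul_single, smul_eq_mul, mul_one]
  rw [h2, map_smul, map_smul, h1]

/-- the linear map on `D F` with given values on the symbols -/
def dl {N : Type v} [AddCommGroup N] [Module ℚ N] (ϕ : F → F → N) : D F →ₗ[ℚ] N :=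
  Finsupp.linearCombination ℚ fun p : F × F => ϕ p.1 p.2

@[simp] lemma dl_sb {N : Type v} [AddCommGroup N] [Module ℚ N] (ϕ : F → F → N) (x y : F) :
    dl ϕ (sb x y) = ϕ x y := by
  rw [dl, sb, Finsupp.linearCombination_single, one_smul]

end

/-! ### functoriality -/

section
variable {F : Type u} [Field F] {L : Type v} [Field L]

/-- the map on formal combinations of symbols induced by a field homomorphism -/
def mD (φ : F →+* L) : D F →ₗ[ℚ] D L := dl fun x y => sb (φ x) (φ y)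

/-- specialisation of formal combinations of symbols -/
def spD (V : QPL.AC F L) : D F →ₗ[ℚ] D L :=
  dl fun x y => if x ≠ 0 ∧ V.v x = 0 ∧ y ≠ 0 ∧ V.v y = 0 then sb (V.lc x) (V.lc y) else 0

@[simp] lemma mD_sb (φ : F →+* L) (x y : F) : mD φ (sb x y) = sb (φ x) (φ y) := by
  rw [mD, dl_sb]

lemma spD_sb (V : QPL.AC F L) (x y : F) : spD V (sb x y) =
    if x ≠ 0 ∧ V.v x = 0 ∧ y ≠ 0 ∧ V.v y = 0 then sb (V.lc x) (V.lc y) else 0 := by
  rw [spD, dl_sb]

end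

/-! ### levels -/

section
variable {K : Type u} [Field K]

/-- the formal combinations of symbols of level `S` -/
def DL (S : Set K[X]) : Submodule ℚ (D (RatFunc K)) :=
  Submodule.span ℚ {z | ∃ x y : RatFunc K, El S x ∧ El S y ∧ z = sb x y}

/-- the formal cochains of level `S` -/
def CL (S : Set K[X]) : Submodule ℚ (C1 (RatFunc K)) := (Lv 1 S).prod (DL S)

/-- `x = A / B` with `A`, `B` of degree at most `n` -/
def Ht (n : ℕ) (x : RatFunc K) : Prop := ∃ A B : K[X], B ≠ 0 ∧ A.natDegree ≤ n ∧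
  B.natDegree ≤ n ∧ x = algebraMap K[X] (RatFunc K) A / algebraMap K[X] (RatFunc K) B

/-- the chains of level `S ∪ P`, the entries `x` of the terms `[x] P` of height at most
`d + (d - 1) / 2` -/
def LvP {k : Type v} [Field k] (p : SRG.Pl K k) (S : Set K[X]) :
    Submodule ℚ (X 1 (RatFunc K)) :=
  Submodule.span ℚ ({z | ∃ (x : RatFunc K) (ω : Tx 1 (RatFunc K)), El (insert p.P S) x ∧
    ω ∈ TS 1 (SG S) ∧ z = bx x ω} ∪
    {z | ∃ x : RatFunc K, El (insert p.P S) x ∧ Ht (p.d + (p.d - 1) / 2) x ∧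
      z = bx x (w1 (lg (algebraMap K[X] (RatFunc K) p.P)))})

/-- exactness in codegree one with formal cochains, `j = 1` -/
def Ex1 (S : Set K[X]) : Prop := ∀ y ∈ Lv 2 S, d2 2 y = 0 →
  (∀ (k : Type u) [Field k] (p : SRG.Pl K k) (V : AC (RatFunc K) k), IsPt p V → p.P ∈ S →
    reX V 1 y ∈ BX 1 k) →
  ∃ c ∈ CL S, ∃ w : X 2 K,
    y - dC1 (RatFunc K) c - mX 2 (RatFunc.C : K →+* RatFunc K) w ∈ Rel 2 (RatFunc K)

/-- level-exactness in codegree one, `j = 0` -/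
def ExL (S : Set K[X]) : Prop := ∀ y ∈ Lv 1 S, d2 1 y = 0 →
  (∀ (k : Type u) [Field k] (p : SRG.Pl K k) (V : AC (RatFunc K) k), IsPt p V → p.P ∈ S →
    reX V 0 y ∈ Rel 0 k) →
  ∃ A ∈ Lv 0 S, ∃ c : X 1 K,
    y - d3 0 A - mX 1 (RatFunc.C : K →+* RatFunc K) c ∈ Rel 1 (RatFunc K)

/-- chains whose differential is of level `S` are of level `S` modulo null chains -/
def QD (S : Set K[X]) : Prop := ∀ b : X 0 (RatFunc K),
  d3 0 b ∈ Lv 1 S ⊔ Rel 1 (RatFunc K) → b ∈ Lv 0 S ⊔ NX 0 (RatFunc K)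

end

/-! ### functionals -/

section
variable {F : Type u} [Field F] {W : Type w} [AddCommGroup W] [Module ℚ W]

/-- a functional `(ψ, ϕ)` on formal cochains which vanishes on `St F` -/
structure FS (ψ : X 1 F →ₗ[ℚ] W) (ϕ : F → F → W) : Prop where
  n1 : ∀ z ∈ NX 1 F, ψ z = 0
  star : ∀ x y : F, x ≠ 0 → x ≠ 1 → y ≠ 0 → y ≠ 1 → x ≠ y → ψ (star 0 x y (u0 F)) = ϕ x y
  self : ∀ x : F, ϕ x x = 0
  swap : ∀ x y : F, ϕ x y = - ϕ y x
  fv : ∀ y : F, ∃ g : SRG.FV F W, ∀ x : F, g.g x = ϕ x y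

end

section
variable {K : Type u} [Field K] {W : Type w} [AddCommGroup W] [Module ℚ W]

/-- the functional vanishes on the cochains of level `S` -/
structure KL (S : Set K[X]) (ψ : X 1 (RatFunc K) →ₗ[ℚ] W) (ϕ : RatFunc K → RatFunc K → W) :
    Prop where
  lv : ∀ z ∈ Lv 1 S, ψ z = 0
  ph : ∀ x y : RatFunc K, El S x → El S y → ϕ x y = 0

/-- the functional vanishes on the cochains of level `S` and on the chains of level `S ∪ P` with
slots of level `S` -/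
structure HF {k : Type v} [Field k] (p : SRG.Pl K k) (S : Set K[X])
    (ψ : X 1 (RatFunc K) →ₗ[ℚ] W) (ϕ : RatFunc K → RatFunc K → W) : Prop where
  fs : FS ψ ϕ
  sm : ∀ x : RatFunc K, El (insert p.P S) x → ∀ μ ∈ TS 1 (SG S), ψ (bx x μ) = 0
  ph : ∀ x y : RatFunc K, El S x → El S y → ϕ x y = 0

/-- the class of `{x}` in `p(S ∪ P) / p(S)`: `v(1 - x) x - v(x) (1 - x) ∈ Λ^1` -/
def gr {k : Type v} [Field k] (V : AC (RatFunc K) k) (x : RatFunc K) : Tx 1 (RatFunc K) :=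
  V.vH (lg (1 - x)) • w1 (lg x) - V.vH (lg x) • w1 (lg (1 - x))

/-- the value of `g` at the reduction of `x` (zero if `x` is not a unit) -/
def ev {k : Type v} [Field k] (V : AC (RatFunc K) k) (g : SRG.FV k W) (x : RatFunc K) : W :=
  if x ≠ 0 ∧ V.v x = 0 then g.g (V.lc x) else 0

/-- the smooth polynomials of degree at most `2 d - 1` in the class `c` modulo `P` -/
def XA {k : Type v} [Field k] (p : SRG.Pl K k) (S : Set K[X]) (c : k) (A : K[X]) : Prop :=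
  A ≠ 0 ∧ SRG.Sm S A ∧ A.natDegree ≤ 2 * p.d - 1 ∧ p.r A = c

/-- the chains of level `S ∪ P` with slots of level `S` -/
def Lw {k : Type v} [Field k] (p : SRG.Pl K k) (S : Set K[X]) (j : ℕ) :
    Submodule ℚ (X j (RatFunc K)) :=
  Submodule.span ℚ {z | ∃ (x : RatFunc K) (ω : Tx j (RatFunc K)), El (insert p.P S) x ∧
    ω ∈ TS j (SG S) ∧ z = bx x ω}

/-- `b` and `ν` describe the functional `h` on the chains of level `S ∪ P` -/
structure BN {k : Type v} [Field k] (p : SRG.Pl K k) (V : AC (RatFunc K) k) (S : Set K[X])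
    (h : X 0 (RatFunc K) →ₗ[ℚ] W)
    (b : Additive (RatFunc K)ˣ →+ Additive (RatFunc K)ˣ →+ W) (ν : SRG.FV (RatFunc K) W) :
    Prop where
  un : ∀ x : RatFunc K, El (insert p.P S) x → V.vH (lg x) = 0 →
    h (bx x (u0 (RatFunc K))) = V.vH (lg (1 - x)) • b (lg x) (lg x)
  ze : ∀ x : RatFunc K, El (insert p.P S) x → 0 < V.vH (lg x) →
    h (bx x (u0 (RatFunc K))) = V.vH (lg x) • (ν.g x - b (lg (1 - x)) (lg x))

/-- `b` and `ν` describe the functional `ψ` on the chains of level `S ∪ P` with slots of level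
`S` -/
structure BNL {k : Type v} [Field k] (p : SRG.Pl K k) (V : AC (RatFunc K) k) (S : Set K[X])
    (ψ : X 1 (RatFunc K) →ₗ[ℚ] W)
    (b : Additive (RatFunc K)ˣ →+ Additive (RatFunc K)ˣ →+ (Tx 1 (RatFunc K) →ₗ[ℚ] W))
    (ν : SRG.FV (RatFunc K) (Tx 1 (RatFunc K) →ₗ[ℚ] W)) : Prop where
  un : ∀ x : RatFunc K, El (insert p.P S) x → V.vH (lg x) = 0 → ∀ μ ∈ TS 1 (SG S),
    ψ (bx x μ) = V.vH (lg (1 - x)) • b (lg x) (lg x) μ
  ze : ∀ x : RatFunc K, El (insert p.P S) x → 0 < V.vH (lg x) → ∀ μ ∈ TS 1 (SG S),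
    ψ (bx x μ) = V.vH (lg x) • (ν.g x μ - b (lg (1 - x)) (lg x) μ)

end

end GD3
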