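import Pool.Agent.GD3.Defs
import Pool.Agent.QPL.At
import Pool.Agent.QPL.RecFin
import Pool.Agent.QPL.ColimA
import Pool.Agent.TGF.JD

set_option autoImplicit false

/-!
# GD3: total residues, closedness, places (definitions)

`tot y` is the sum of the residues of the chain `y` over `K(t)` at the points of `K` and at
infinity.  `CLd n L`: every polynomial over `L` of positive degree less than `n` has a root in `L`.
`Over b ι V`: the valuation `V` of `L` (residue field `N`) lies over the point `s = b` of `N(s)`.
-/

noncomputable section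

open Polynomial TensorProduct
open scoped Classical

namespace GD3

open Helper14.Gon Helper14.W4 QPL TGF

universe u v w

section
variable {K : Type u} [Field K]

/-- the valuation at `t = a` -/
def VA (a : K) : AC (RatFunc K) K := (exists_at a).choose

/-- the valuation at infinity -/
def VI : AC (RatFunc K) K := exists_inf.choose

lemma VA_at (a : K) : IsAt a (VA a) := (exists_at a).choose_spec

lemma VI_inf : IsInf (VI : AC (RatFunc K) K) := exists_inf.choose_spec

lemma res_fin (y : X 1 (RatFunc K)) : ∃ s : Finset K, ∀ a, a ∉ s → reX (VA a) 0 y = 0 :=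
  reX_fin VA VA_at 0 y

/-- the total residue -/
def tot : X 1 (RatFunc K) →ₗ[ℚ] X 0 K where
  toFun y := (∑ᶠ a : K, reX (VA a) 0 y) + reX VI 0 y
  map_add' y z := by
    obtain ⟨s, hs⟩ := res_fin y
    obtain ⟨t, ht⟩ := res_fin z
    have h1 : (Function.support fun a : K => reX (VA a) 0 y).Finite :=
      s.finite_toSet.subset fun a ha => by
        by_contra h
        exact ha (hs a h)
    have h2 : (Function.support fun a : K => reX (VA a) 0 z).Finite :=
      t.finite_toSet.subset fun a ha => by
        by_contra h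
        exact ha (ht a h)
    have h3 : (fun a : K => reX (VA a) 0 (y + z)) =
        fun a : K => reX (VA a) 0 y + reX (VA a) 0 z := funext fun a => map_add _ _ _
    rw [h3, finsum_add_distrib h1 h2, map_add]
    abel
  map_smul' c y := by
    obtain ⟨s, hs⟩ := res_fin y
    have h1 : (Function.support fun a : K => reX (VA a) 0 y).Finite :=
      s.finite_toSet.subset fun a ha => by
        by_contra h
        exact ha (hs a h)
    have h3 : (fun a : K => reX (VA a) 0 (c • y)) =
        fun a : K => c • reX (VA a) 0 y := funext fun a => map_smul _ _ _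
    rw [h3, ← smul_finsum c, map_smul, RingHom.id_apply, smul_add]

lemma tot_eq (y : X 1 (RatFunc K)) (s : Finset K) (hs : ∀ a, a ∉ s → reX (VA a) 0 y = 0) :
    tot y = ∑ a ∈ s, reX (VA a) 0 y + reX VI 0 y := by
  change (∑ᶠ a : K, reX (VA a) 0 y) + reX VI 0 y = _
  rw [finsum_eq_sum_of_support_subset (fun a : K => reX (VA a) 0 y) (s := s)]
  intro a ha
  by_contra h
  exact ha (hs a h)

end

/-- every polynomial of positive degree less than `n` has a root -/
def CLd (n : ℕ) (L : Type u) [Field L] : Prop :=
  ∀ f : L[X], 0 < f.natDegree → f.natDegree < n → ∃ x : L, f.eval x = 0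

/-- the valuation `V` lies over the point `b` of the line over `N` -/
def Over {N : Type u} {L : Type v} [Field N] [Field L] (b : N) (ι : RatFunc N →+* L)
    (V : AC L N) : Prop :=
  ∀ W : AC (RatFunc N) N, IsAt b W → ∀ x : RatFunc N, x ≠ 0 →
    V.v (ι x) = W.v x ∧ (W.v x = 0 → V.lc (ι x) = W.lc x)

/-- the image of a formal cochain -/
def mC {F : Type u} {L : Type v} [Field F] [Field L] (φ : F →+* L) : C1 F →ₗ[ℚ] C1 L :=
  (mX 1 φ).prodMap (mD φ)

/-- the specialisation of a formal cochain -/
def spC {F : Type u} {L : Type v} [Field F] [Field L] (V : AC F L) : C1 F →ₗ[ℚ] C1 L :=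
  (spX V 1).prodMap (spD V)

@[simp] lemma mC_fst {F : Type u} {L : Type v} [Field F] [Field L] (φ : F →+* L) (c : C1 F) :
    (mC φ c).1 = mX 1 φ c.1 := rfl

@[simp] lemma mC_snd {F : Type u} {L : Type v} [Field F] [Field L] (φ : F →+* L) (c : C1 F) :
    (mC φ c).2 = mD φ c.2 := rfl

@[simp] lemma spC_fst {F : Type u} {L : Type v} [Field F] [Field L] (V : AC F L) (c : C1 F) :
    (spC V c).1 = spX V 1 c.1 := rfl

@[simp] lemma spC_snd {F : Type u} {L : Type v} [Field F] [Field L] (V : AC F L) (c : C1 F) :
    (spC V c).2 = spD V c.2 := rfl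

/-- the valuation `U` of `N(s)(t)` is the Gauss valuation over the point `s = b` (the leading
coefficients of elements of nonzero valuation are twisted by the powers of a constant) -/
structure IsGs {N : Type u} [Field N] (b : N) (U : AC (RatFunc (RatFunc N)) (RatFunc N)) :
    Prop where
  v : ∀ (W : AC (RatFunc N) N), IsAt b W → ∀ a : RatFunc N, a ≠ 0 →
    U.v (RatFunc.C a) = W.v a ∧ (W.v a = 0 → U.lc (RatFunc.C a) = RatFunc.C (W.lc a))
  pol : ∀ (W : AC (RatFunc N) N), IsAt b W → ∀ A : (RatFunc N)[X],
    (∀ i, A.coeff i ≠ 0 → 0 ≤ W.v (A.coeff i)) → (∃ i, A.coeff i ≠ 0 ∧ W.v (A.coeff i) = 0) →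
    U.v (algebraMap (RatFunc N)[X] (RatFunc (RatFunc N)) A) = 0 ∧
    ∃ B : N[X], (∀ i, B.coeff i = if A.coeff i ≠ 0 ∧ W.v (A.coeff i) = 0 then
      W.lc (A.coeff i) else 0) ∧
      U.lc (algebraMap (RatFunc N)[X] (RatFunc (RatFunc N)) A) =
        algebraMap N[X] (RatFunc N) B

end GD3
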