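import Pool.Agent.GD3.Ex1
import Pool.Agent.TGF.Dr

set_option autoImplicit false

/-!
# GD3-Lift1: lifts of cocycles by formal cocycles

PLAN.  Copy of resid_X3 (TGF/Dr.lean) for j = 0 with rl1, ex1_lt and formal cochains.  S = SRG.lt K p.d.  The first lift: w = Σ q_i [ξ_i] goes to v0 = Σ q_i [r(ξ_i)] w1 (lg P), r(ξ) = a/b the Pade section (SRG.exists_sec), ξ ≠ 0 (for ξ = 0 take 0): v0 ∈ LvP p S (height ≤ d/2 ≤ d + (d-1)/2) and
reX V 0 v0 - w ∈ Z0 0 k; r(ξ) ∈ El S because a, b, b - a have degree < d (if b = a, r = 1).  d3 1 v0 ∈ Lv 2 (insert P S), residue - d3 0 w ∈ Rel.  rl1: d3 1 v0 = dC1 (A, σ) + y' + Rel, A ∈ Lw p S 1; ex1_lt: y' = dC1 c' + mX w' + Rel with c' ∈ CL S.  The constant part: dC1 c'' - mX 2 C w' ∈ Rel for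
c'' = (v0, 0) - (A, σ) - c'; specialise by the place of exists_spec (cz_sp like computation: sp of dC1 is dC1 of (spX, spD) modulo Rel, Fr.lean: prove the needed identity from there): w' = dC1 (spX W 1 c''.1, spD W c''.2) modulo Rel 2 K; c := c'' - (mX 1 C .., mD C ..).  Constants are in Lw p S 1 and in DL S.
reX V 0 of A, of c'.1 and of constants is 0 (slots in TS 1 (SG S): reX_TS, SG_v; reX_Lv; reX_const).
-/

noncomputable section

open Polynomial TensorProduct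
open scoped Classical

namespace GD3

open Helper14.Gon Helper14.W4 QPL TGF

universe u

section
variable {L k : Type u} [Field L] [Field k]

private lemma lf_w2 {F : Type u} [Field F] (x : F) :
    w2 (lg (1 - x)) (lg x) = d2 0 (bx x (u0 F)) := (d2_bx 0 x (u0 F)).symm

private lemma lf_dS {F : Type u} [Field F] (x y : F) :
    dS F (sb x y) = bx y (d2 0 (bx x (u0 F))) - bx x (d2 0 (bx y (u0 F))) := by
  rw [dS_sb, lf_w2, lf_w2]

private lemma lf_spT_u0 (V : AC L k) : spT V 0 (u0 L) = u0 k := by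
  change tm 0 V.lH (dm (fun i => i.elim0)) = _
  rw [tm_dm, u0]
  congr 1
  funext i
  exact i.elim0

private lemma lf_resT_u0 (φ : L →+* k) : resT 0 φ (u0 L) = u0 k := by
  rw [resT_eq_tm]
  change tm 0 (resU φ) (dm (fun i => i.elim0)) = _
  rw [tm_dm, u0]
  congr 1
  funext i
  exact i.elim0

private lemma lf_zero {F : Type u} [Field F] {j : ℕ} (ω : Tx j F) : bx 0 ω ∈ Rel j F :=
  Submodule.subset_span (Or.inl (Or.inl (Or.inl (Or.inl ⟨ω, rfl⟩))))

private lemma lf_sp_bx (V : AC L k) (x y : L) (hy : y = 0 ∨ V.v y = 0) (hx : x = 0 ∨ V.v x = 0) :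
    spX V 2 (bx y (d2 0 (bx x (u0 L)))) = bx (V.lc y) (d2 0 (bx (V.lc x) (u0 k))) := by
  rw [spX_bx, if_pos hy]
  have h := spT_d2 V 0 (bx x (u0 L))
  rw [spX_bx, if_pos hx, lf_spT_u0] at h
  exact congrArg (bx (V.lc y)) h

private lemma lf_sp_bx0 (V : AC L k) (x y : L) (hx : ¬ (x = 0 ∨ V.v x = 0)) :
    spX V 2 (bx y (d2 0 (bx x (u0 L)))) = 0 := by
  rw [spX_bx]
  have h := spT_d2 V 0 (bx x (u0 L))
  rw [spX_bx, if_neg hx, map_zero] at h
  have h2 : bx (V.lc y) (spT V 2 (d2 0 (bx x (u0 L)))) = 0 :=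
    (congrArg (bx (V.lc y)) h).trans (bx_zero _)
  rw [h2, ite_self]

private lemma lf_sp_bx1 (V : AC L k) (y : L) (ω : Tx 2 L) (hy : ¬ (y = 0 ∨ V.v y = 0)) :
    spX V 2 (bx y ω) = 0 := by
  rw [spX_bx, if_neg hy]

private lemma lf_sp_sb (V : AC L k) (x y : L) :
    spX V 2 (dS L (sb x y)) - dS k (spD V (sb x y)) ∈ Rel 2 k := by
  rw [lf_dS, map_sub, spD_sb]
  by_cases hx : x = 0 ∨ V.v x = 0
  · by_cases hy : y = 0 ∨ V.v y = 0
    · rw [lf_sp_bx V x y hy hx, lf_sp_bx V y x hx hy]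
      by_cases hx0 : x = 0
      · rw [if_neg (fun h => h.1 hx0), map_zero, sub_zero, hx0, map_zero]
        have h1 : d2 0 (bx (0 : k) (u0 k)) = 0 := d2_rel 0 (lf_zero _)
        have h2 : bx (V.lc y) (d2 0 (bx (0 : k) (u0 k))) = 0 :=
          (congrArg (bx (V.lc y)) h1).trans (bx_zero _)
        rw [h2, zero_sub]
        exact Submodule.neg_mem _ (lf_zero _)
      · by_cases hy0 : y = 0
        · rw [if_neg (fun h => h.2.2.1 hy0), map_zero, sub_zero, hy0, map_zero]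
          have h1 : d2 0 (bx (0 : k) (u0 k)) = 0 := d2_rel 0 (lf_zero _)
          have h2 : bx (V.lc x) (d2 0 (bx (0 : k) (u0 k))) = 0 :=
            (congrArg (bx (V.lc x)) h1).trans (bx_zero _)
          rw [h2, sub_zero]
          exact lf_zero _
        · rw [if_pos ⟨hx0, hx.resolve_left hx0, hy0, hy.resolve_left hy0⟩, lf_dS, sub_self]
          exact Submodule.zero_mem _
    · rw [if_neg (fun h => hy (Or.inr h.2.2.2)), map_zero, sub_zero, lf_sp_bx1 V y _ hy,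
        lf_sp_bx0 V y x hy, sub_zero]
      exact Submodule.zero_mem _
  · rw [if_neg (fun h => hx (Or.inr h.2.1)), map_zero, sub_zero, lf_sp_bx1 V x _ hx,
      lf_sp_bx0 V x y hx, sub_zero]
    exact Submodule.zero_mem _

private lemma lf_sp_dS (V : AC L k) (σ : D L) :
    spX V 2 (dS L σ) - dS k (spD V σ) ∈ Rel 2 k := by
  induction σ using D_ind with
  | h0 => rw [map_zero, map_zero, map_zero, map_zero, sub_zero]; exact Submodule.zero_mem _
  | hadd a b ha hb =>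
    rw [map_add, map_add, map_add, map_add]
    have h := Submodule.add_mem _ ha hb
    rwa [← add_sub_add_comm] at h
  | h1 q x y =>
    rw [map_smul, map_smul, map_smul, map_smul, ← smul_sub]
    exact Submodule.smul_mem _ _ (lf_sp_sb V x y)

private lemma lf_mX_dS (φ : L →+* k) (σ : D L) : mX 2 φ (dS L σ) = dS k (mD φ σ) := by
  have h : (mX 2 φ) ∘ₗ (dS L) = (dS k) ∘ₗ (mD φ) := by
    refine D_ext fun x y => ?_
    rw [LinearMap.comp_apply, LinearMap.comp_apply, lf_dS, mD_sb, lf_dS, map_sub, mX_bx, mX_bx]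
    have h1 := resT_d2 0 φ (bx x (u0 L))
    have h2 := resT_d2 0 φ (bx y (u0 L))
    rw [mX_bx, lf_resT_u0] at h1 h2
    exact congrArg₂ (· - ·) (congrArg (bx (φ y)) h1) (congrArg (bx (φ x)) h2)
  exact LinearMap.congr_fun h σ

/-- specialisation of the differential of a formal cochain -/
private lemma lf_sp_dC (V : AC L k) (c : C1 L) :
    spX V 2 (dC1 L c) - dC1 k (spX V 1 c.1, spD V c.2) ∈ Rel 2 k := by
  rw [dC1_apply, dC1_apply, map_add]
  have h : spX V 2 (d3 1 c.1) = d3 1 (spX V 1 c.1) := spX_d3 V 1 c.1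
  rw [h]
  have h2 : d3 1 (spX V 1 c.1) + spX V 2 (dS L c.2) -
      (d3 1 ((spX V 1 c.1, spD V c.2) : C1 k).1 + dS k ((spX V 1 c.1, spD V c.2) : C1 k).2) =
      spX V 2 (dS L c.2) - dS k (spD V c.2) := by
    change d3 1 (spX V 1 c.1) + spX V 2 (dS L c.2) - (d3 1 (spX V 1 c.1) + dS k (spD V c.2)) = _
    rw [add_sub_add_left_eq_sub]
  rw [h2]
  exact lf_sp_dS V c.2

/-- the image of the differential of a formal cochain -/
private lemma lf_mX_dC (φ : L →+* k) (a : X 1 L) (τ : D L) :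
    mX 2 φ (dC1 L (a, τ)) = dC1 k (mX 1 φ a, mD φ τ) := by
  rw [dC1_apply, dC1_apply, map_add]
  change mX 2 φ (d3 1 a) + mX 2 φ (dS L τ) = d3 1 (mX 1 φ a) + dS k (mD φ τ)
  rw [lf_mX_dS]
  congr 1
  exact mX_d3 1 φ a

end

section
variable {K k : Type u} [Field K] [Field k] {p : SRG.Pl K k} {V : AC (RatFunc K) k}
  {S : Set K[X]}

private lemma lf_not_mem (p : SRG.Pl K k) : p.P ∉ SRG.lt K p.d := fun h =>
  lt_irrefl _ h.2.2

private lemma lf_pi (p : SRG.Pl K k) (S : Set K[X]) :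
    lg (algebraMap K[X] (RatFunc K) p.P) ∈ SG (insert p.P S) := by
  refine SG_pl p.irr.ne_zero (Or.inr fun Q hQm hQi hQP => ?_)
  have h1 : Associated Q p.P := (hQi.dvd_irreducible_iff_associated p.irr).1 hQP
  rw [Polynomial.eq_of_monic_of_associated hQm p.monic h1]
  exact Set.mem_insert _ _

private lemma lf_C (a : K) : algebraMap K[X] (RatFunc K) (C a) =
    (RatFunc.C : K →+* RatFunc K) a := RatFunc.algebraMap_C a

private lemma lf_lgC (S : Set K[X]) (a : K) : lg ((RatFunc.C : K →+* RatFunc K) a) ∈ SG S := by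
  by_cases ha : a = 0
  · rw [ha, map_zero, lg_zero]
    exact (SG S).zero_mem
  · rw [← lf_C]
    refine SG_pl (C_ne_zero.2 ha) (Or.inr fun Q _ hQi hQa => ?_)
    exact absurd (isUnit_of_dvd_unit hQa (isUnit_C.2 (IsUnit.mk0 a ha))) hQi.not_isUnit

private lemma lf_ElC (S : Set K[X]) (a : K) : El S ((RatFunc.C : K →+* RatFunc K) a) := by
  refine ⟨lf_lgC S a, ?_⟩
  have h : 1 - (RatFunc.C : K →+* RatFunc K) a = (RatFunc.C : K →+* RatFunc K) (1 - a) := by
    rw [map_sub, map_one]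
  rw [h]
  exact lf_lgC S (1 - a)

private lemma lf_resU (S : Set K[X]) (v : Additive Kˣ) :
    resU (RatFunc.C : K →+* RatFunc K) v ∈ SG S := by
  have h : v = lg ((Additive.toMul v : Kˣ) : K) := (lg_unit (Additive.toMul v)).symm
  rw [h, resU_lg]
  exact lf_lgC S _

private lemma lf_resT (S : Set K[X]) (ω : Tx 1 K) :
    resT 1 (RatFunc.C : K →+* RatFunc K) ω ∈ TS 1 (SG S) := by
  rw [resT_eq_tm]
  exact TS_map 1 _ (fun v _ => lf_resU S v) (TS_top 1 ω)

private lemma lf_const (p : SRG.Pl K k) (S : Set K[X]) (a : X 1 K) :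
    mX 1 (RatFunc.C : K →+* RatFunc K) a ∈ Lw p S 1 := by
  refine x_ind (fun a => mX 1 (RatFunc.C : K →+* RatFunc K) a ∈ Lw p S 1) ?_ ?_ ?_ a
  · rw [map_zero]
    exact Submodule.zero_mem _
  · intro a b ha hb
    rw [map_add]
    exact Submodule.add_mem _ ha hb
  · intro x ω
    rw [mX_bx]
    exact Submodule.subset_span ⟨_, _, lf_ElC _ x, lf_resT S ω, rfl⟩

private lemma lf_constD (S : Set K[X]) (τ : D K) :
    mD (RatFunc.C : K →+* RatFunc K) τ ∈ DL S := by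
  induction τ using D_ind with
  | h0 => rw [map_zero]; exact Submodule.zero_mem _
  | hadd a b ha hb => rw [map_add]; exact Submodule.add_mem _ ha hb
  | h1 q x y =>
    rw [map_smul, mD_sb]
    exact Submodule.smul_mem _ _ (Submodule.subset_span ⟨_, _, lf_ElC S x, lf_ElC S y, rfl⟩)

private lemma lf_DL_mono {S S' : Set K[X]} (h : S ⊆ S') : DL S ≤ DL S' := by
  refine Submodule.span_mono ?_
  rintro z ⟨x, y, h1, h2, rfl⟩
  exact ⟨x, y, El_mono h h1, El_mono h h2, rfl⟩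

private lemma lf_Lv_Lw (p : SRG.Pl K k) (S : Set K[X]) : Lv 1 S ≤ Lw p S 1 := by
  refine Submodule.span_mono ?_
  rintro z ⟨x, ω, h1, h2, rfl⟩
  exact ⟨x, ω, El_mono (Set.subset_insert _ _) h1, h2, rfl⟩

private lemma lf_Lw_LvP (p : SRG.Pl K k) (S : Set K[X]) : Lw p S 1 ≤ LvP p S := by
  refine Submodule.span_mono ?_
  rintro z ⟨x, ω, h1, h2, rfl⟩
  exact Or.inl ⟨x, ω, h1, h2, rfl⟩

private lemma lf_LvP_Lv (p : SRG.Pl K k) (S : Set K[X]) : LvP p S ≤ Lv 1 (insert p.P S) := by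
  rw [LvP, Submodule.span_le]
  rintro z (⟨x, ω, h1, h2, rfl⟩ | ⟨x, h1, -, rfl⟩)
  · exact Submodule.subset_span ⟨x, ω, h1, TS_mono 1 (SG_mono (Set.subset_insert _ _)) h2, rfl⟩
  · exact Submodule.subset_span ⟨x, _, h1, wT_mem_TS 0 (lf_pi p S) (TS_zero _ _), rfl⟩

private lemma lf_re (hP : p.P ∉ S) (hV : IsPt p V) {z : X 1 (RatFunc K)} (hz : z ∈ Lw p S 1) :
    reX V 0 z = 0 := by
  have h : Lw p S 1 ≤ LinearMap.ker (reX V 0) := by
    rw [Lw, Submodule.span_le]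
    rintro z ⟨x, ω, -, h2, rfl⟩
    change reX V 0 (bx x ω) = 0
    have h3 : ctT 0 V.vH ω = 0 := ctT_TS 0 (fun g hg => SG_v hV hP hg) h2
    have h4 : reT V 0 ω = 0 := by
      rw [reT, LinearMap.comp_apply, h3, map_zero]
    rw [reX_bx, h4, bx_zero, ite_self]
  exact h hz

/-- smooth lifts of small height -/
private lemma lf_El (hS : SRG.Adm S p.d) (hV : IsPt p V) {ξ : k} (h : ξ ≠ 0) :
    ∃ x : RatFunc K, El S x ∧ V.v x = 0 ∧ V.lc x = ξ ∧ Ht (p.d + (p.d - 1) / 2) x := by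
  by_cases hξ : ξ = 1
  · refine ⟨1, ⟨?_, ?_⟩, v_one V, ?_, 1, 1, one_ne_zero, ?_, ?_, ?_⟩
    · rw [lg_one]
      exact (SG S).zero_mem
    · rw [sub_self, lg_zero]
      exact (SG S).zero_mem
    · rw [hξ, map_one]
    · rw [natDegree_one]
      exact Nat.zero_le _
    · rw [natDegree_one]
      exact Nat.zero_le _
    · rw [map_one, div_one]
  have hd := p.d_pos
  obtain ⟨A, B, hA, hB, hA1, hB1, hr⟩ := SRG.pade p ξ h
  have hA2 : A.natDegree < p.d := by omega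
  have hB2 : B.natDegree < p.d := by omega
  have hrA : p.r A ≠ 0 := SRG.Pl.ne hA hA2
  have hrB : p.r B ≠ 0 := SRG.Pl.ne hB hB2
  have hPA : ¬ p.P ∣ A := fun h1 => hrA ((p.ker A).2 h1)
  have hPB : ¬ p.P ∣ B := fun h1 => hrB ((p.ker B).2 h1)
  have hBA : B - A ≠ 0 := by
    intro h1
    have h2 : p.r A = p.r B := by rw [sub_eq_zero.1 h1]
    rw [h2] at hr
    exact hξ (mul_right_cancel₀ hrB (by rw [one_mul]; exact hr.symm))
  have hBA2 : (B - A).natDegree < p.d :=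
    lt_of_le_of_lt (natDegree_sub_le B A) (max_lt hB2 hA2)
  have hAm : algebraMap K[X] (RatFunc K) A ≠ 0 := RatFunc.algebraMap_ne_zero hA
  have hBm : algebraMap K[X] (RatFunc K) B ≠ 0 := RatFunc.algebraMap_ne_zero hB
  have hx0 : algebraMap K[X] (RatFunc K) A / algebraMap K[X] (RatFunc K) B ≠ 0 :=
    div_ne_zero hAm hBm
  have hx1 : algebraMap K[X] (RatFunc K) A / algebraMap K[X] (RatFunc K) B ≠ 1 := by
    intro h1
    rw [div_eq_one_iff_eq hBm] at h1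
    exact hBA (by rw [RatFunc.algebraMap_injective K h1, sub_self])
  refine ⟨algebraMap K[X] (RatFunc K) A / algebraMap K[X] (RatFunc K) B, ?_, ?_, ?_,
    A, B, hB, by omega, by omega, rfl⟩
  · exact (El_iff S _ hx0 hx1).2 ⟨A, B, B - A, hA, hB, hBA, by ring, hS.sm hA2, hS.sm hB2,
      hS.sm hBA2, rfl⟩
  · have h1 := V.v_mul hx0 hBm
    rw [div_mul_cancel₀ _ hBm, hV.v A hPA, hV.v B hPB, add_zero] at h1
    exact h1.symm
  · rw [map_div₀, hV.lc A hPA, hV.lc B hPB, hr, mul_div_cancel_right₀ _ hrB]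

/-- the first lift -/
private lemma lf_lift (hS : SRG.Adm S p.d) (hV : IsPt p V) (w : X 0 k) :
    ∃ v ∈ LvP p S, reX V 0 v - w ∈ Z0 0 k := by
  refine x_ind (fun w => ∃ v ∈ LvP p S, reX V 0 v - w ∈ Z0 0 k) ?_ ?_ ?_ w
  · refine ⟨0, Submodule.zero_mem _, ?_⟩
    rw [map_zero, sub_zero]
    exact Submodule.zero_mem _
  · rintro a b ⟨v, hv, hva⟩ ⟨v', hv', hvb⟩
    refine ⟨v + v', Submodule.add_mem _ hv hv', ?_⟩
    have h1 : reX V 0 (v + v') - (a + b) = (reX V 0 v - a) + (reX V 0 v' - b) := by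
      rw [map_add]
      abel
    rw [h1]
    exact Submodule.add_mem _ hva hvb
  · intro ξ η
    by_cases hξ : ξ = 0
    · refine ⟨0, Submodule.zero_mem _, ?_⟩
      rw [map_zero, zero_sub, hξ]
      exact Submodule.neg_mem _ ⟨η, rfl⟩
    · obtain ⟨x, hx, hvx, hlx, hht⟩ := lf_El hS hV hξ
      obtain ⟨ω, -, hη⟩ := TS_sp_surj hS hV 0 η
      have h0 : V.vH (lg (algebraMap K[X] (RatFunc K) p.P)) = 1 := by
        rw [QPL.vH_lg V (RatFunc.algebraMap_ne_zero p.irr.ne_zero), hV.vP]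
      have h1 : reT V 0 (wT 0 (lg (algebraMap K[X] (RatFunc K) p.P)) ω) = spT V 0 ω := by
        rw [TGF.reT_wT_zero, h0, one_smul]
      refine ⟨bx x (wT 0 (lg (algebraMap K[X] (RatFunc K) p.P)) ω), ?_, ?_⟩
      · have h2 : bx x (wT 0 (lg (algebraMap K[X] (RatFunc K) p.P)) ω) =
            e0 (RatFunc K) ω • bx x (w1 (lg (algebraMap K[X] (RatFunc K) p.P))) := by
          rw [← bx_smul, w1, ← map_smul, e0_inj]
        rw [h2]
        exact Submodule.smul_mem _ _ (Submodule.subset_span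
          (Or.inr ⟨x, El_mono (Set.subset_insert _ _) hx, hht, rfl⟩))
      · rw [reX_bx, if_pos (Or.inr hvx), h1, hη, hlx, sub_self]
        exact Submodule.zero_mem _

theorem lift1 (hV : IsPt p V) (w : X 0 k) (hw : w ∈ ZX 0 k) :
    ∃ c ∈ CZ (RatFunc K), c.1 ∈ LvP p (SRG.lt K p.d) ∧ c.1 ∈ Lv 1 (insert p.P (SRG.lt K p.d)) ∧
      c.2 ∈ DL (insert p.P (SRG.lt K p.d)) ∧ reX V 0 c.1 - w ∈ Z0 0 k := by
  have hS : SRG.Adm (SRG.lt K p.d) p.d := SRG.adm_lt p.d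
  have hP : p.P ∉ SRG.lt K p.d := lf_not_mem p
  obtain ⟨v0, hv0, hr0⟩ := lf_lift hS hV w
  have hv1 : v0 ∈ Lv 1 (insert p.P (SRG.lt K p.d)) := lf_LvP_Lv p _ hv0
  have hw' : d3 0 w ∈ Rel 1 k := hw
  have hres : reX V 1 (d3 1 v0) ∈ Rel 1 k := by
    rw [reX_d3]
    have h1 : d3 0 (reX V 0 v0) = d3 0 w := by
      have h2 := Z0_d3 hr0
      rw [map_sub] at h2
      exact sub_eq_zero.1 h2
    rw [h1]
    exact neg_mem hw'
  obtain ⟨A, hA, σ, hσ, y', hy', hRL⟩ := rl1 hS hP hV (d3_Lv 1 hv1) (d2_d3 1 v0) hres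
  have hd2 : d2 2 y' = 0 := by
    have h1 := d2_rel 2 hRL
    have h2 : d2 2 (d3 1 v0) = 0 := d2_d3 1 v0
    rw [map_sub, map_sub, h2, d2_dC1, sub_zero, zero_sub, neg_eq_zero] at h1
    exact h1
  obtain ⟨c', hc', w', hw2⟩ := ex1_lt (K := K) p.d y' hy' hd2 (by
    intro k' _ p' V' hV' _
    have h1 := reX_rel V' 1 hRL
    have h3 : reX V' 1 (dC1 (RatFunc K) (A, σ)) = - d3 0 (reX V' 0 A) := by
      rw [dC1_apply, map_add]
      change reX V' 1 (d3 1 A) + reX V' 1 (dS (RatFunc K) σ) = _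
      rw [reX_dS, add_zero, reX_d3]
    have h4 : reX V' 1 (d3 1 v0) = - d3 0 (reX V' 0 v0) := reX_d3 V' 0 v0
    have h2 : reX V' 1 y' = - d3 0 (reX V' 0 v0 - reX V' 0 A) -
        reX V' 1 (d3 1 v0 - dC1 (RatFunc K) (A, σ) - y') := by
      rw [map_sub (reX V' 1), map_sub (reX V' 1), h3, h4, map_sub (d3 0)]
      abel
    rw [h2]
    refine sub_mem ?_ (Submodule.mem_sup_right h1)
    exact neg_mem (Submodule.mem_sup_left (LinearMap.mem_range_self _ _)))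
  have hu : dC1 (RatFunc K) ((v0, 0) - (A, σ) - c') -
      mX 2 (RatFunc.C : K →+* RatFunc K) w' ∈ Rel 2 (RatFunc K) := by
    have h1 := add_mem hRL hw2
    have h3 : dC1 (RatFunc K) ((v0, 0) : C1 (RatFunc K)) = d3 1 v0 := by
      rw [dC1_apply]
      change d3 1 v0 + dS (RatFunc K) 0 = _
      rw [map_zero, add_zero]
    have h2 : dC1 (RatFunc K) ((v0, 0) - (A, σ) - c') -
        mX 2 (RatFunc.C : K →+* RatFunc K) w' =
        d3 1 v0 - dC1 (RatFunc K) (A, σ) - y' +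
          (y' - dC1 (RatFunc K) c' - mX 2 (RatFunc.C : K →+* RatFunc K) w') := by
      rw [map_sub (dC1 (RatFunc K)), map_sub (dC1 (RatFunc K)), h3]
      abel
    rw [h2]
    exact h1
  obtain ⟨W, hW, -⟩ := exists_spec K
  obtain ⟨c2, hc2⟩ : ∃ c2 : C1 (RatFunc K), c2 = (v0, 0) - (A, σ) - c' := ⟨_, rfl⟩
  rw [← hc2] at hu
  have h3 := spX_rel W 2 hu
  rw [map_sub, hW] at h3
  have h4 := lf_sp_dC W c2
  have h5 : dC1 K (spX W 1 c2.1, spD W c2.2) - w' ∈ Rel 2 K := by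
    have h6 := sub_mem h3 h4
    rwa [sub_sub_sub_cancel_left] at h6
  have h7 := mX_rel 2 (RatFunc.C : K →+* RatFunc K) h5
  rw [map_sub, lf_mX_dC] at h7
  have h8 := sub_mem hu h7
  rw [sub_sub_sub_cancel_right, ← map_sub] at h8
  have e1 : (c2 - (mX 1 (RatFunc.C : K →+* RatFunc K) (spX W 1 c2.1),
      mD (RatFunc.C : K →+* RatFunc K) (spD W c2.2))).1 =
      v0 - (A + c'.1 + mX 1 (RatFunc.C : K →+* RatFunc K) (spX W 1 c2.1)) := by
    change c2.1 - mX 1 (RatFunc.C : K →+* RatFunc K) (spX W 1 c2.1) = _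
    have e2 : c2.1 = v0 - A - c'.1 := by rw [hc2]; rfl
    rw [← sub_sub, ← sub_sub, ← e2]
  have e3 : (c2 - (mX 1 (RatFunc.C : K →+* RatFunc K) (spX W 1 c2.1),
      mD (RatFunc.C : K →+* RatFunc K) (spD W c2.2))).2 =
      0 - σ - c'.2 - mD (RatFunc.C : K →+* RatFunc K) (spD W c2.2) := by
    change c2.2 - mD (RatFunc.C : K →+* RatFunc K) (spD W c2.2) = _
    have e2 : c2.2 = 0 - σ - c'.2 := by rw [hc2]; rfl
    rw [← e2]
  have hc1 : c'.1 ∈ Lv 1 (SRG.lt K p.d) := hc'.1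
  have hc3 : c'.2 ∈ DL (SRG.lt K p.d) := hc'.2
  have hB : A + c'.1 + mX 1 (RatFunc.C : K →+* RatFunc K) (spX W 1 c2.1) ∈
      Lw p (SRG.lt K p.d) 1 :=
    add_mem (add_mem hA (lf_Lv_Lw p _ hc1)) (lf_const p _ _)
  have hsub : DL (SRG.lt K p.d) ≤ DL (insert p.P (SRG.lt K p.d)) :=
    lf_DL_mono (Set.subset_insert _ _)
  have hfin : v0 - (A + c'.1 + mX 1 (RatFunc.C : K →+* RatFunc K) (spX W 1 c2.1)) ∈
      LvP p (SRG.lt K p.d) := sub_mem hv0 (lf_Lw_LvP p _ hB)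
  refine ⟨c2 - (mX 1 (RatFunc.C : K →+* RatFunc K) (spX W 1 c2.1),
      mD (RatFunc.C : K →+* RatFunc K) (spD W c2.2)), h8, ?_, ?_, ?_, ?_⟩
  · rw [e1]
    exact hfin
  · rw [e1]
    exact lf_LvP_Lv p _ hfin
  · rw [e3]
    exact sub_mem (sub_mem (sub_mem (zero_mem _) hσ) (hsub hc3)) (hsub (lf_constD _ _))
  · rw [e1, map_sub, lf_re hP hV hB, sub_zero]
    exact hr0

end

end GD3
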