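import Pool.Agent.GD3.Defs
import Pool.Agent.TGF.Pf
import Pool.Agent.TGF.Rl2
import Pool.Agent.TGF.Fin

set_option autoImplicit false

/-!
# GD3-Fr: formal cocycles: residues, specialisation, functoriality

PLAN.  dS: reX V 1 (dS L σ) = 0: for a symbol: residue of [x] (1 - y) ∧ y: reT V 1 (w2 (lg (1-y)) (lg y)) = v(1-y) w1(lc y) - v(y) w1(lc (1-y)) = 0 in Tx 1 k in all cases (v y > 0: lc (1-y) = 1 and v(1-y) = 0; v y < 0: v(1-y) = v y, lc (1-y) = - lc y and lg (-1) is torsion (wT of it is 0: Helper14/W4 wT_neg_one);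
v y = 0, v(1-y) > 0: lc y = 1; otherwise both valuations are 0; y = 0, 1: lg 0 = 0, lg 1 = 0).  This is the computation `reT_d2` / d2 (bx y u0) in TGF/Pf.lean: reT V 1 (d2 0 (bx y u0)) = ... .
cz_res: reX V 1 (d3 1 c.1) = - d3 0 (reX V 0 c.1) (reX_d3) and reX_rel.
sp_dS: spX V 2 (dS L σ) - dS k (spD V σ) ∈ Rel 2 k: x, y ≠ 0 with v x = v y = 0: exact equality (if ȳ = 1 then (1-y) ∧ y specialises to 0: lc y = 1; and w2 (lg (1 - ȳ)) (lg ȳ) = w2 (lg 0) (lg 1) = 0); otherwise spT V 2 (w2 (lg (1-y)) (lg y)) = 0 if v y ≠ 0, and for v x ≠ 0 the entry [x] goes to 0; x = 0: the entry [0] gives elements of Rel 2.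
cz_sp: spX_d3, spX_rel.  cz_map: mX_d3, mX_rel, mX of dS = dS of mD.
rd_unit: reduction facts.
st_res: c ∈ St L: reX V 0 c.1 ∈ NX 0 k: by the generators (span_induction): w ∈ NX 1 L: L2.re_N (TGF/Fin.lean, Laws of th2; th2.re = reX, th2.N = NX); the star elements by hypothesis hU; (0, r): 0.
st_cz: St F ≤ CZ F: NX 1 ≤ ZX 1 (mem_ZX, bdry is in the kernel of dC); d3_star; dS of the generators of D0 is in Rel 2 (Hf.lean has the same computation; here by the generators of D0: dS (sb x x) = 0, dS(sb x y + sb y x) = 0, sb 0 y: [y](1 ∧ 0) - [0].. ∈ Rel, and the five-term relation in x: the first part of dS is the alternating form (1-x) ∧ x, d2_rel).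
-/

noncomputable section

open Polynomial TensorProduct
open scoped Classical

namespace GD3

open Helper14.Gon Helper14.W4 QPL TGF

universe u

section
variable {L k : Type u} [Field L] [Field k]

private lemma fr_w2 {F : Type u} [Field F] (x : F) :
    w2 (lg (1 - x)) (lg x) = d2 0 (bx x (u0 F)) := (d2_bx 0 x (u0 F)).symm

private lemma fr_dS {F : Type u} [Field F] (x y : F) :
    dS F (sb x y) = bx y (d2 0 (bx x (u0 F))) - bx x (d2 0 (bx y (u0 F))) := by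
  rw [dS_sb, fr_w2, fr_w2]

private lemma fr_spT_u0 (V : AC L k) : spT V 0 (u0 L) = u0 k := by
  change tm 0 V.lH (dm (fun i => i.elim0)) = _
  rw [tm_dm, u0]
  congr 1
  funext i
  exact i.elim0

private lemma fr_resT_u0 (φ : L →+* k) : resT 0 φ (u0 L) = u0 k := by
  rw [resT_eq_tm]
  change tm 0 (resU φ) (dm (fun i => i.elim0)) = _
  rw [tm_dm, u0]
  congr 1
  funext i
  exact i.elim0

private lemma fr_zero {F : Type u} [Field F] {j : ℕ} (ω : Tx j F) : bx 0 ω ∈ Rel j F :=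
  Submodule.subset_span (Or.inl (Or.inl (Or.inl (Or.inl ⟨ω, rfl⟩))))

private lemma fr_one {F : Type u} [Field F] {j : ℕ} (ω : Tx j F) : bx 1 ω ∈ Rel j F :=
  Submodule.subset_span (Or.inl (Or.inl (Or.inl (Or.inr ⟨ω, rfl⟩))))

private lemma fr_inv {F : Type u} [Field F] {j : ℕ} (x : F) (ω : Tx j F) : bx x ω + bx x⁻¹ ω ∈ Rel j F :=
  Submodule.subset_span (Or.inl (Or.inl (Or.inr ⟨x, ω, rfl⟩)))

private lemma fr_sub {F : Type u} [Field F] {j : ℕ} (x : F) (ω : Tx j F) : bx x ω + bx (1 - x) ω ∈ Rel j F :=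
  Submodule.subset_span (Or.inl (Or.inr ⟨x, ω, rfl⟩))

private lemma fr_five {F : Type u} [Field F] {j : ℕ} {x y : F} (ω : Tx j F) (h1 : x ≠ 0) (h2 : x ≠ 1) (h3 : y ≠ 0)
    (h4 : y ≠ 1) (h5 : x ≠ y) : five x y ω ∈ Rel j F :=
  Submodule.subset_span (Or.inr ⟨x, y, ω, h1, h2, h3, h4, h5, rfl⟩)

private lemma fr_sp_bx (V : AC L k) (x y : L) (hy : y = 0 ∨ V.v y = 0) (hx : x = 0 ∨ V.v x = 0) :
    spX V 2 (bx y (d2 0 (bx x (u0 L)))) = bx (V.lc y) (d2 0 (bx (V.lc x) (u0 k))) := by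
  rw [spX_bx, if_pos hy]
  have h := spT_d2 V 0 (bx x (u0 L))
  rw [spX_bx, if_pos hx, fr_spT_u0] at h
  exact congrArg (bx (V.lc y)) h

private lemma fr_sp_bx0 (V : AC L k) (x y : L) (hx : ¬ (x = 0 ∨ V.v x = 0)) :
    spX V 2 (bx y (d2 0 (bx x (u0 L)))) = 0 := by
  rw [spX_bx]
  have h := spT_d2 V 0 (bx x (u0 L))
  rw [spX_bx, if_neg hx, map_zero] at h
  have h2 : bx (V.lc y) (spT V 2 (d2 0 (bx x (u0 L)))) = 0 := (congrArg (bx (V.lc y)) h).trans (bx_zero _)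
  rw [h2, ite_self]

private lemma fr_sp_bx1 (V : AC L k) (y : L) (ω : Tx 2 L) (hy : ¬ (y = 0 ∨ V.v y = 0)) :
    spX V 2 (bx y ω) = 0 := by
  rw [spX_bx, if_neg hy]

private lemma fr_sp_sb (V : AC L k) (x y : L) :
    spX V 2 (dS L (sb x y)) - dS k (spD V (sb x y)) ∈ Rel 2 k := by
  rw [fr_dS, map_sub, spD_sb]
  by_cases hx : x = 0 ∨ V.v x = 0
  · by_cases hy : y = 0 ∨ V.v y = 0
    · rw [fr_sp_bx V x y hy hx, fr_sp_bx V y x hx hy]
      by_cases hx0 : x = 0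
      · rw [if_neg (fun h => h.1 hx0), map_zero, sub_zero, hx0, map_zero]
        have h1 : d2 0 (bx (0 : k) (u0 k)) = 0 := d2_rel 0 (fr_zero _)
        have h2 : bx (V.lc y) (d2 0 (bx (0 : k) (u0 k))) = 0 := (congrArg (bx (V.lc y)) h1).trans (bx_zero _)
        rw [h2, zero_sub]
        exact Submodule.neg_mem _ (fr_zero _)
      · by_cases hy0 : y = 0
        · rw [if_neg (fun h => h.2.2.1 hy0), map_zero, sub_zero, hy0, map_zero]
          have h1 : d2 0 (bx (0 : k) (u0 k)) = 0 := d2_rel 0 (fr_zero _)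
          have h2 : bx (V.lc x) (d2 0 (bx (0 : k) (u0 k))) = 0 := (congrArg (bx (V.lc x)) h1).trans (bx_zero _)
          rw [h2, sub_zero]
          exact fr_zero _
        · rw [if_pos ⟨hx0, hx.resolve_left hx0, hy0, hy.resolve_left hy0⟩, fr_dS, sub_self]
          exact Submodule.zero_mem _
    · rw [if_neg (fun h => hy (Or.inr h.2.2.2)), map_zero, sub_zero, fr_sp_bx1 V y _ hy, fr_sp_bx0 V y x hy, sub_zero]
      exact Submodule.zero_mem _
  · rw [if_neg (fun h => hx (Or.inr h.2.1)), map_zero, sub_zero, fr_sp_bx1 V x _ hx, fr_sp_bx0 V x y hx, sub_zero]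
    exact Submodule.zero_mem _

private lemma fr_sp_dS (V : AC L k) (σ : D L) : spX V 2 (dS L σ) - dS k (spD V σ) ∈ Rel 2 k := by
  induction σ using D_ind with
  | h0 => rw [map_zero, map_zero, map_zero, map_zero, sub_zero]; exact Submodule.zero_mem _
  | hadd a b ha hb =>
    rw [map_add, map_add, map_add, map_add]
    have h := Submodule.add_mem _ ha hb
    rwa [← add_sub_add_comm] at h
  | h1 q x y =>
    rw [map_smul, map_smul, map_smul, map_smul, ← smul_sub]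
    exact Submodule.smul_mem _ _ (fr_sp_sb V x y)

private lemma fr_mX_dS (φ : L →+* k) (σ : D L) : mX 2 φ (dS L σ) = dS k (mD φ σ) := by
  have h : (mX 2 φ) ∘ₗ (dS L) = (dS k) ∘ₗ (mD φ) := by
    refine D_ext fun x y => ?_
    rw [LinearMap.comp_apply, LinearMap.comp_apply, fr_dS, mD_sb, fr_dS, map_sub, mX_bx, mX_bx]
    have h1 := resT_d2 0 φ (bx x (u0 L))
    have h2 := resT_d2 0 φ (bx y (u0 L))
    rw [mX_bx, fr_resT_u0] at h1 h2
    exact congrArg₂ (· - ·) (congrArg (bx (φ y)) h1) (congrArg (bx (φ x)) h2)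
  exact LinearMap.congr_fun h σ

private lemma fr_nx {j : ℕ} {w : X (j + 1) L} (hw : w ∈ NX (j + 1) L) : w ∈ ZX (j + 1) L := by
  rw [mem_ZX]
  have h : c3 (j + 1) w ∈ bdry L 1 (j + 1) := hw
  obtain ⟨y, hy⟩ := h
  rw [← hy]
  exact LinearMap.congr_fun (dC_dC 0 j) y

private lemma fr_D0 {r : D L} (hr : r ∈ D0 L) : dS L r ∈ Rel 2 L := by
  have key : D0 L ≤ (Rel 2 L).comap (dS L) := by
    rw [D0, Submodule.span_le]
    rintro z ((((((⟨x, rfl⟩ | ⟨x, y, rfl⟩) | ⟨y, rfl⟩) | ⟨y, rfl⟩) | ⟨x, y, rfl⟩) | ⟨x, y, rfl⟩) |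
      ⟨x, x', y, h1, h2, h3, h4, h5, rfl⟩)
    · change dS L (sb x x) ∈ Rel 2 L
      rw [fr_dS, sub_self]
      exact Submodule.zero_mem _
    · change dS L (sb x y + sb y x) ∈ Rel 2 L
      rw [map_add, fr_dS, fr_dS, sub_add_sub_cancel, sub_self]
      exact Submodule.zero_mem _
    · change dS L (sb 0 y) ∈ Rel 2 L
      rw [fr_dS, d2_rel 0 (fr_zero _)]
      exact Submodule.sub_mem _ (by rw [bx_zero]; exact Submodule.zero_mem _) (fr_zero _)
    · change dS L (sb 1 y) ∈ Rel 2 L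
      rw [fr_dS, d2_rel 0 (fr_one _)]
      exact Submodule.sub_mem _ (by rw [bx_zero]; exact Submodule.zero_mem _) (fr_one _)
    · change dS L (sb x y + sb x⁻¹ y) ∈ Rel 2 L
      have e : dS L (sb x y + sb x⁻¹ y) = bx y (d2 0 (bx x (u0 L) + bx x⁻¹ (u0 L))) -
          (bx x (d2 0 (bx y (u0 L))) + bx x⁻¹ (d2 0 (bx y (u0 L)))) := by
        rw [map_add, fr_dS, fr_dS, map_add, bx_add]
        abel
      rw [e, d2_rel 0 (fr_inv x _)]
      exact Submodule.sub_mem _ (by rw [bx_zero]; exact Submodule.zero_mem _) (fr_inv x _)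
    · change dS L (sb x y + sb (1 - x) y) ∈ Rel 2 L
      have e : dS L (sb x y + sb (1 - x) y) = bx y (d2 0 (bx x (u0 L) + bx (1 - x) (u0 L))) -
          (bx x (d2 0 (bx y (u0 L))) + bx (1 - x) (d2 0 (bx y (u0 L)))) := by
        rw [map_add, fr_dS, fr_dS, map_add, bx_add]
        abel
      rw [e, d2_rel 0 (fr_sub x _)]
      exact Submodule.sub_mem _ (by rw [bx_zero]; exact Submodule.zero_mem _) (fr_sub x _)
    · change dS L (sb x y - sb x' y + sb (x' / x) y - sb ((1 - x⁻¹) / (1 - x'⁻¹)) y +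
        sb ((1 - x) / (1 - x')) y) ∈ Rel 2 L
      have e : dS L (sb x y - sb x' y + sb (x' / x) y - sb ((1 - x⁻¹) / (1 - x'⁻¹)) y +
        sb ((1 - x) / (1 - x')) y) = bx y (d2 0 (five x x' (u0 L))) - five x x' (d2 0 (bx y (u0 L))) := by
        rw [five, five, map_add, map_sub, map_add, map_sub, fr_dS, fr_dS, fr_dS, fr_dS, fr_dS, map_add, map_sub,
          map_add, map_sub]
        rw [← bxL_apply y (_ + _), map_add, map_sub, map_add, map_sub, bxL_apply, bxL_apply, bxL_apply, bxL_apply,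
          bxL_apply]
        abel
      rw [e, d2_rel 0 (fr_five _ h1 h2 h3 h4 h5)]
      exact Submodule.sub_mem _ (by rw [bx_zero]; exact Submodule.zero_mem _) (fr_five _ h1 h2 h3 h4 h5)
  exact key hr

theorem reX_dS (V : AC L k) (σ : D L) : reX V 1 (dS L σ) = 0 := by
  have h : (reX V 1) ∘ₗ (dS L) = 0 := by
    refine D_ext fun x y => ?_
    rw [LinearMap.comp_apply, LinearMap.zero_apply, fr_dS, map_sub, reX_bx, reX_bx, reT_d2_zero, reT_d2_zero, bx_zero,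
      bx_zero, ite_self, ite_self, sub_zero]
  exact LinearMap.congr_fun h σ

theorem cz_res (V : AC L k) {c : C1 L} (hc : c ∈ CZ L) : reX V 0 c.1 ∈ ZX 0 k := by
  rw [mem_CZ] at hc
  have h1 := reX_rel V 1 hc
  rw [map_add, reX_dS, add_zero, reX_d3] at h1
  have h2 := Submodule.neg_mem _ h1
  rw [neg_neg] at h2
  exact h2

theorem cz_sp (V : AC L k) {c : C1 L} (hc : c ∈ CZ L) :
    ((spX V 1 c.1, spD V c.2) : C1 k) ∈ CZ k := by
  rw [mem_CZ] at hc ⊢
  have h1 := spX_rel V 2 hc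
  rw [map_add, spX_d3] at h1
  have h2 := Submodule.sub_mem _ h1 (fr_sp_dS V c.2)
  rw [add_sub_assoc, sub_sub_cancel] at h2
  exact h2

theorem cz_map (φ : L →+* k) {c : C1 L} (hc : c ∈ CZ L) :
    ((mX 1 φ c.1, mD φ c.2) : C1 k) ∈ CZ k := by
  rw [mem_CZ] at hc ⊢
  have h1 := mX_rel 2 φ hc
  rw [map_add, mX_d3, fr_mX_dS] at h1
  exact h1

theorem st_res (V : AC L k) (hU : ∀ x y : L, x ≠ 0 → x ≠ 1 → y ≠ 0 → y ≠ 1 → x ≠ y →
    reX V 0 (star 0 x y (u0 L)) ∈ NX 0 k) {c : C1 L} (hc : c ∈ St L) :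
    reX V 0 c.1 ∈ NX 0 k := by
  have key : St L ≤ (NX 0 k).comap ((reX V 0) ∘ₗ (LinearMap.fst ℚ (X 1 L) (D L))) := by
    rw [St, Submodule.span_le]
    rintro z ((⟨w, hw, rfl⟩ | ⟨x, y, h1, h2, h3, h4, h5, rfl⟩) | ⟨r, hr, rfl⟩)
    · exact L2.re_N L k V 0 w hw
    · exact hU x y h1 h2 h3 h4 h5
    · change reX V 0 0 ∈ NX 0 k
      rw [map_zero]
      exact Submodule.zero_mem _
  exact key hc

theorem st_cz {c : C1 L} (hc : c ∈ St L) : c ∈ CZ L := by
  have key : St L ≤ CZ L := by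
    rw [St, Submodule.span_le]
    rintro z ((⟨w, hw, rfl⟩ | ⟨x, y, h1, h2, h3, h4, h5, rfl⟩) | ⟨r, hr, rfl⟩)
    · change (w, 0) ∈ CZ L
      rw [mem_CZ, map_zero, add_zero]
      exact fr_nx hw
    · change (star 0 x y (u0 L), - sb x y) ∈ CZ L
      rw [mem_CZ, map_neg, dS_sb]
      have h := d3_star 0 h1 h2 h3 h4 h5 (u0 L)
      have e : d3 1 (star 0 x y (u0 L)) + -(bx y (w2 (lg (1 - x)) (lg x)) - bx x (w2 (lg (1 - y)) (lg y))) =
          d3 1 (star 0 x y (u0 L)) + bx x (w2 (lg (1 - y)) (lg y)) - bx y (w2 (lg (1 - x)) (lg x)) := by abel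
      rw [e]
      exact h
    · change (0, r) ∈ CZ L
      rw [mem_CZ, map_zero, zero_add]
      exact fr_D0 hr
  exact key hc

end

end GD3
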