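import Pool.Agent.GD3.Ps

set_option autoImplicit false

/-!
# GD3-E5: comparison of two lifts

PLAN.  e5: i := v(x' - x) > 0 (x, x' ∈ El S have the same reduction), X := 1 - x, Y := 1 - x / x' = (x' - x) / x'.  X, Y ≠ 0, 1, X ≠ Y (x' ≠ 1), 1 - X = x, 1 - Y = x / x', G = (1 - X)/(1 - Y) = x', C = X / Y = (1 - x) x' / (x' - x), 1 - C = x (x' - 1)/(x' - x),
y(1-x)/(x(1-y)) = (x' - x)/(1 - x), 1 - (x' - x)/(1 - x) = (1 - x')/(1 - x).  All entries are in El (S ∪ P) as x, x', 1 - x, 1 - x', x - x' are smooth.  FS.star: ψ (star 0 X Y u0) = ϕ X Y.  Terms with slot G = lg x' ∈ SG S vanish (HF.sm).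
bx G (w1 (lg (X/Y))): lg (X/Y) = (smooth) - lg (x' - x), lg (x' - x) = i P + w, w ∈ SG S: gives - i ψ([x'] P).  bx (1 - X) (w1 (lg Y)) = [x] (lg (x' - x) - lg x') gives i ψ([x] P).  bx (1 - Y) (w1 (lg X)): slot lg (1 - x) ∈ SG S: 0.
So i (ψ([x]P) - ψ([x']P)) = ϕ X Y = ϕ (1 - x) (1 - x/x') = ϕ x (x/x') (FV.sub twice, swap) = ev V Ψ x (gr V (x/x')) - ev V Ψ (x/x') (gr V x) = Ψ(x̄)(i w1 (lg (x/x'))) - 0, since gr V x = 0 (El S) and gr V (x/x') = v(1 - x/x') w1 (lg (x/x')), v(1 - x/x') = v((x'-x)/x') = i.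
e5_ref: ξ = V.lc x.  Let r_ξ = s.a ξ / s.b ξ, s a Pade section (SRG.exists_sec), r_ξ ∈ El S, reduction ξ (exists_El in TGF/Lift.lean has such an element, but here its height ≤ d/2 is needed: deg a ≤ d/2, deg b ≤ (d-1)/2; smooth by Adm.sm; b - a of degree ≤ d / 2 < d, so smooth or d = 1 ..;
for d ≥ 1 d/2 < d).  If x = A/B has height ≤ d + (d-1)/2 then x - r = (A b - a B)/(B b), degree of the numerator ≤ d + (d-1)/2 + d/2 = 2 d - 1, divisible by P (same reduction), the quotient has degree ≤ d - 1, so it is smooth: lg (x - r) ∈ SG (insert P S).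
B may be taken coprime to A; B is smooth as x is in SG S (SG_iff, uniqueness of num/denom up to common factors: take A, B = num, denom: num and denom divide the given A, B; smoothness of num, denom from lg x ∈ SG S).  μ0 ξ := ψ([r_ξ]P) - Ψ(ξ)(w1 (lg r_ξ)); if x = r trivial.  Note V.lc x ≠ 1 is automatic for x ≠ 1 in El S.
-/

noncomputable section

open Polynomial TensorProduct
open scoped Classical

namespace GD3

open Helper14.Gon Helper14.W4 QPL TGF

universe u


section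
variable {F : Type u} [Field F]

private lemma e5_w1_add (a b : Additive Fˣ) : w1 (a + b) = w1 a + w1 b := by
  rw [w1, w1, w1, wT_add, LinearMap.add_apply]

private lemma e5_w1_neg (a : Additive Fˣ) : w1 (-a) = - w1 a := by
  rw [w1, w1, wT_neg, LinearMap.neg_apply]

private lemma e5_w1_sub (a b : Additive Fˣ) : w1 (a - b) = w1 a - w1 b := by
  rw [sub_eq_add_neg, e5_w1_add, e5_w1_neg, sub_eq_add_neg]

private lemma e5_w1_zsmul (m : ℤ) (a : Additive Fˣ) : w1 (m • a) = (m : ℚ) • w1 a := by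
  have h1 : wTH 0 (m • a) = m • wTH 0 a := map_zsmul _ _ _
  have h2 : wT 0 (m • a) = m • wT 0 a := h1
  rw [w1, w1, h2, LinearMap.smul_apply, Int.cast_smul_eq_zsmul]

private lemma e5_w1_mem {G : AddSubgroup (Additive Fˣ)} {a : Additive Fˣ} (ha : a ∈ G) :
    w1 a ∈ TS 1 G := wT_mem_TS 0 ha (TS_zero _ _)

end

section
variable {K k : Type u} [Field K] [Field k] {p : SRG.Pl K k} {V : AC (RatFunc K) k}
  {S : Set K[X]}

variable {W : Type u} [AddCommGroup W] [Module ℚ W]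

private lemma e5_am {A : K[X]} (hA : A ≠ 0) : algebraMap K[X] (RatFunc K) A ≠ 0 :=
  RatFunc.algebraMap_ne_zero hA

private lemma e5_neg {F : Type u} [Field F] {x : F} (hx : x ≠ 0) : lg (-x) = lg (-1 : F) + lg x := by
  rw [← lg_mul (neg_ne_zero.2 one_ne_zero) hx, neg_one_mul]

private lemma e5_m1 (S : Set K[X]) : lg (-1 : RatFunc K) ∈ SG S := by
  have h1 : IsUnit (-1 : K[X]) := isUnit_one.neg
  have h2 := SG_pl (S := S) (A := (-1 : K[X])) h1.ne_zero (Or.inr fun Q _ hQi hQA =>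
    absurd (isUnit_of_dvd_unit hQA h1) hQi.not_isUnit)
  rwa [map_neg, map_one] at h2

private lemma e5_swap {G : Set K[X]} {x y : RatFunc K} (h : lg (x - y) ∈ SG G) (hne : x ≠ y) :
    lg (y - x) ∈ SG G := by
  have h1 : y - x = -(x - y) := by ring
  rw [h1, e5_neg (sub_ne_zero.2 hne)]
  exact (SG G).add_mem (e5_m1 G) h

theorem e5 (hS : SRG.Adm S p.d) (hP : p.P ∉ S) (hV : IsPt p V)
    {ψ : X 1 (RatFunc K) →ₗ[ℚ] W} {ϕ : RatFunc K → RatFunc K → W} (h : HF p S ψ ϕ)
    {Ψ : SRG.FV k (Tx 1 (RatFunc K) →ₗ[ℚ] W)} (hΨ : ∀ x y : RatFunc K, El (insert p.P S) x →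
      El (insert p.P S) y → ϕ x y = ev V Ψ x (gr V y) - ev V Ψ y (gr V x))
    {x x' : RatFunc K} (hx : El S x) (hx' : El S x') (x0 : x ≠ 0) (x0' : x' ≠ 0) (x1 : x ≠ 1)
    (x1' : x' ≠ 1) (hne : x ≠ x') (hl : V.lc x = V.lc x')
    (hs : lg (x - x') ∈ SG (insert p.P S)) :
    ψ (bx x (w1 (lg (algebraMap K[X] (RatFunc K) p.P)))) -
      ψ (bx x' (w1 (lg (algebraMap K[X] (RatFunc K) p.P)))) =
        Ψ.g (V.lc x) (w1 (lg x) - w1 (lg x')) := by
  have hss : S ⊆ insert p.P S := Set.subset_insert _ _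
  have n0 : 1 - x ≠ 0 := sub_ne_zero.2 (Ne.symm x1)
  have n0' : 1 - x' ≠ 0 := sub_ne_zero.2 (Ne.symm x1')
  have nd : x' - x ≠ 0 := sub_ne_zero.2 (Ne.symm hne)
  have hs' : lg (x' - x) ∈ SG (insert p.P S) := e5_swap hs hne
  have ux : lg x ∈ SG (insert p.P S) := SG_mono hss hx.1
  have ux' : lg x' ∈ SG (insert p.P S) := SG_mono hss hx'.1
  have uy : lg (1 - x) ∈ SG (insert p.P S) := SG_mono hss hx.2
  have uy' : lg (1 - x') ∈ SG (insert p.P S) := SG_mono hss hx'.2
  obtain ⟨m, w, hw, hmw⟩ := SG_insert p hP hs'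
  have vx : V.v x = 0 := by
    rw [← TGF.vH_lg V x0]
    exact SG_v hV hP hx.1
  have vx' : V.v x' = 0 := by
    rw [← TGF.vH_lg V x0']
    exact SG_v hV hP hx'.1
  have vm : V.vH (lg (x' - x)) = m := by
    rw [hmw, map_add, SG_v hV hP hw, add_zero, map_zsmul, TGF.vH_lg V (e5_am p.irr.ne_zero), hV.vP,
      zsmul_eq_mul, mul_one]
  have hm : (m : ℚ) ≠ 0 := by
    have h1 : V.v (-x) = 0 := by rw [v_neg V x0, vx]
    have h2 : V.lc x' + V.lc (-x) = 0 := by rw [lc_neg, hl, add_neg_cancel]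
    rcases V.add_eq x0' (neg_ne_zero.2 x0) (by rw [vx', h1]) h2 with h3 | h3
    · exact absurd (by rw [sub_eq_add_neg]; exact h3) nd
    · rw [← sub_eq_add_neg, vx'] at h3
      rw [← vm, TGF.vH_lg V nd]
      exact h3.ne'
  -- the two arguments
  have hX0 : 1 - x ≠ 0 := n0
  have hX1 : 1 - x ≠ 1 := by
    intro h1
    exact x0 (by linear_combination -h1)
  have hxx : x / x' ≠ 0 := div_ne_zero x0 x0'
  have eY : 1 - x / x' = (x' - x) / x' := by field_simp
  have hY0 : 1 - x / x' ≠ 0 := by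
    rw [eY]
    exact div_ne_zero nd x0'
  have hY1 : 1 - x / x' ≠ 1 := by
    intro h1
    exact hxx (by linear_combination -h1)
  have hXY : 1 - x ≠ 1 - x / x' := by
    intro h1
    have h2 : x * (x' - 1) = 0 := by
      have h3 : x = x / x' := by linear_combination -h1
      rw [eq_div_iff x0'] at h3
      linear_combination h3
    rcases mul_eq_zero.1 h2 with h3 | h3
    · exact x0 h3
    · exact x1' (sub_eq_zero.1 h3)
  have hst := h.fs.star (1 - x) (1 - x / x') hX0 hX1 hY0 hY1 hXY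
  have e1 : (1 - (1 - x)) / (1 - (1 - x / x')) = x' := by
    rw [sub_sub_cancel, sub_sub_cancel]
    field_simp
  have e2 : (1 - x) / (1 - x / x') = (1 - x) * x' / (x' - x) := by
    rw [eY]
    field_simp
  have e3 : (1 - x / x') * (1 - (1 - x)) / ((1 - x) * (1 - (1 - x / x'))) = (x' - x) / (1 - x) := by
    rw [sub_sub_cancel, sub_sub_cancel, eY]
    field_simp
  have e4 : 1 - (1 - x) = x := sub_sub_cancel _ _
  have e5 : 1 - (1 - x / x') = x / x' := sub_sub_cancel _ _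
  -- logarithms
  have l1 : lg ((1 - x) * x' / (x' - x)) = lg (1 - x) + lg x' - lg (x' - x) := by
    rw [lg_div (mul_ne_zero n0 x0') nd, lg_mul n0 x0']
  have l2 : lg (1 - x / x') = lg (x' - x) - lg x' := by
    rw [eY, lg_div nd x0']
  have l3 : lg (x / x') = lg x - lg x' := lg_div x0 x0'
  -- membership
  have El1 : El (insert p.P S) ((1 - x) * x' / (x' - x)) := by
    refine ⟨?_, ?_⟩
    · rw [l1]
      exact (SG _).sub_mem ((SG _).add_mem uy ux') hs'
    · have h1 : 1 - (1 - x) * x' / (x' - x) = (-1) * (x * (1 - x')) / (x' - x) := by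
        field_simp
        ring
      rw [h1, lg_div (mul_ne_zero (neg_ne_zero.2 one_ne_zero) (mul_ne_zero x0 n0')) nd,
        lg_mul (neg_ne_zero.2 one_ne_zero) (mul_ne_zero x0 n0'), lg_mul x0 n0']
      exact (SG _).sub_mem ((SG _).add_mem (e5_m1 _) ((SG _).add_mem ux uy')) hs'
  have El2 : El (insert p.P S) ((x' - x) / (1 - x)) := by
    refine ⟨?_, ?_⟩
    · rw [lg_div nd n0]
      exact (SG _).sub_mem hs' uy
    · have h1 : 1 - (x' - x) / (1 - x) = (1 - x') / (1 - x) := by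
        field_simp
        ring
      rw [h1, lg_div n0' n0]
      exact (SG _).sub_mem uy' uy
  have El3 : El (insert p.P S) (1 - x) := El_sub (El_mono hss hx)
  have El4 : El (insert p.P S) (x / x') := by
    refine ⟨?_, ?_⟩
    · rw [l3]
      exact (SG _).sub_mem ux ux'
    · rw [l2]
      exact (SG _).sub_mem hs' ux'
  have El5 : El (insert p.P S) (1 - x / x') := El_sub El4
  have El6 : El (insert p.P S) (1 : RatFunc K) := by
    refine ⟨?_, ?_⟩
    · rw [lg_one]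
      exact (SG _).zero_mem
    · rw [sub_self, lg_zero]
      exact (SG _).zero_mem
  have Elx : El (insert p.P S) x := El_mono hss hx
  have Elx' : El (insert p.P S) x' := El_mono hss hx'
  have mG : w1 (lg x') ∈ TS 1 (SG S) := e5_w1_mem hx'.1
  -- the star
  rw [TGF.star, e1, e2, e3, e4, e5] at hst
  have hst' : ψ (bx ((1 - x) * x' / (x' - x)) (w1 (lg x')) - bx ((x' - x) / (1 - x)) (w1 (lg x')) -
      bx (1 - x) (w1 (lg x')) - bx (1 - x / x') (w1 (lg x')) + bx 1 (w1 (lg x')) +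
      bx x' (w1 (lg ((1 - x) * x' / (x' - x)))) + bx x (w1 (lg (1 - x / x'))) -
      bx (x / x') (w1 (lg (1 - x)))) = ϕ (1 - x) (1 - x / x') := hst
  rw [map_sub, map_add, map_add, map_add, map_sub, map_sub, map_sub,
    h.sm _ El1 _ mG, h.sm _ El2 _ mG, h.sm _ El3 _ mG, h.sm _ El5 _ mG, h.sm _ El6 _ mG,
    h.sm _ El4 _ (e5_w1_mem hx.2)] at hst'
  have t1 : ψ (bx x' (w1 (lg ((1 - x) * x' / (x' - x))))) =
      -((m : ℚ) • ψ (bx x' (w1 (lg (algebraMap K[X] (RatFunc K) p.P))))) := by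
    have h1 : lg ((1 - x) * x' / (x' - x)) = (lg (1 - x) + lg x' - w) +
        -(m • lg (algebraMap K[X] (RatFunc K) p.P)) := by
      rw [l1, hmw]
      abel
    rw [h1, e5_w1_add, bx_add, map_add, h.sm _ Elx' _ (e5_w1_mem ((SG S).sub_mem
      ((SG S).add_mem hx.2 hx'.1) hw)), zero_add, ← neg_zsmul, e5_w1_zsmul, bx_smul, map_smul,
      Int.cast_neg, neg_smul]
  have t2 : ψ (bx x (w1 (lg (1 - x / x')))) =
      (m : ℚ) • ψ (bx x (w1 (lg (algebraMap K[X] (RatFunc K) p.P)))) := by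
    have h1 : lg (1 - x / x') = (w - lg x') + m • lg (algebraMap K[X] (RatFunc K) p.P) := by
      rw [l2, hmw]
      abel
    rw [h1, e5_w1_add, bx_add, map_add, h.sm _ Elx _ (e5_w1_mem ((SG S).sub_mem hw hx'.1)),
      zero_add, e5_w1_zsmul, bx_smul, map_smul]
  rw [t1, t2] at hst'
  -- the right side
  obtain ⟨g1, hg1⟩ := h.fs.fv (1 - x / x')
  obtain ⟨g2, hg2⟩ := h.fs.fv x
  have r1 : ϕ (1 - x) (1 - x / x') = ϕ x (x / x') := by
    rw [← hg1, g1.sub, hg1, h.fs.swap x (1 - x / x'), neg_neg, ← hg2, g2.sub, hg2,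
      h.fs.swap x (x / x')]
  have r2 : ϕ x (x / x') = (m : ℚ) • Ψ.g (V.lc x) (w1 (lg x) - w1 (lg x')) := by
    have g3 : gr V x = 0 := by
      rw [gr, SG_v hV hP hx.1, SG_v hV hP hx.2, zero_smul, zero_smul, sub_self]
    have g4 : gr V (x / x') = (m : ℚ) • (w1 (lg x) - w1 (lg x')) := by
      rw [gr, l3, l2, map_sub, map_sub, vm, SG_v hV hP hx.1, SG_v hV hP hx'.1, sub_self, sub_zero,
        zero_smul, sub_zero, e5_w1_sub]
    rw [hΨ x (x / x') Elx El4, g3, g4, map_zero, sub_zero, map_smul, ev, if_pos ⟨x0, vx⟩]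
  rw [r1, r2] at hst'
  have hfin : (m : ℚ) • (ψ (bx x (w1 (lg (algebraMap K[X] (RatFunc K) p.P)))) -
      ψ (bx x' (w1 (lg (algebraMap K[X] (RatFunc K) p.P))))) =
      (m : ℚ) • Ψ.g (V.lc x) (w1 (lg x) - w1 (lg x')) := by
    rw [← hst', smul_sub]
    abel
  have h9 := congrArg (fun z => (m : ℚ)⁻¹ • z) hfin
  simp only [smul_smul, inv_mul_cancel₀ hm, one_smul] at h9
  exact h9

theorem e5_ref (hS : SRG.Adm S p.d) (hP : p.P ∉ S) (hV : IsPt p V)
    {ψ : X 1 (RatFunc K) →ₗ[ℚ] W} {ϕ : RatFunc K → RatFunc K → W} (h : HF p S ψ ϕ)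
    {Ψ : SRG.FV k (Tx 1 (RatFunc K) →ₗ[ℚ] W)} (hΨ : ∀ x y : RatFunc K, El (insert p.P S) x →
      El (insert p.P S) y → ϕ x y = ev V Ψ x (gr V y) - ev V Ψ y (gr V x)) :
    ∃ μ0 : k → W, ∀ x : RatFunc K, El S x → x ≠ 0 → x ≠ 1 → Ht (p.d + (p.d - 1) / 2) x →
      ψ (bx x (w1 (lg (algebraMap K[X] (RatFunc K) p.P)))) =
        μ0 (V.lc x) + Ψ.g (V.lc x) (w1 (lg x)) := by
  obtain ⟨s⟩ := SRG.exists_sec p
  have hd := p.d_pos
  refine ⟨fun ξ => ψ (bx (algebraMap K[X] (RatFunc K) (s.a ξ) / algebraMap K[X] (RatFunc K) (s.b ξ))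
      (w1 (lg (algebraMap K[X] (RatFunc K) p.P)))) -
      Ψ.g ξ (w1 (lg (algebraMap K[X] (RatFunc K) (s.a ξ) / algebraMap K[X] (RatFunc K) (s.b ξ)))), ?_⟩
  intro x hx x0 x1 hH
  beta_reduce
  have hξ0 : V.lc x ≠ 0 := V.lc_ne x0
  have n1 : 1 - x ≠ 0 := sub_ne_zero.2 (Ne.symm x1)
  have vx : V.v x = 0 := by
    rw [← TGF.vH_lg V x0]
    exact SG_v hV hP hx.1
  have hξ1 : V.lc x ≠ 1 := by
    intro h1
    have h2 : V.v (-x) = 0 := by rw [v_neg V x0, vx]
    have h3 : V.lc 1 + V.lc (-x) = 0 := by rw [lc_neg, h1, map_one, add_neg_cancel]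
    rcases V.add_eq one_ne_zero (neg_ne_zero.2 x0) (by rw [v_one, h2]) h3 with h4 | h4
    · exact n1 (by rw [sub_eq_add_neg]; exact h4)
    · rw [← sub_eq_add_neg, v_one, ← TGF.vH_lg V n1, SG_v hV hP hx.2] at h4
      exact lt_irrefl _ h4
  generalize hξ : V.lc x = ξ at hξ0 hξ1
  have a0 := s.a_ne ξ hξ0
  have b0 := s.b_ne ξ hξ0
  have da := s.a_deg ξ
  have db := s.b_deg ξ
  have hr := s.eq ξ hξ0
  generalize s.a ξ = a at a0 da hr
  generalize s.b ξ = b at b0 db hr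
  have da' : a.natDegree < p.d := by omega
  have db' : b.natDegree < p.d := by omega
  obtain ⟨r, er⟩ : ∃ r : RatFunc K, r = algebraMap K[X] (RatFunc K) a / algebraMap K[X] (RatFunc K) b :=
    ⟨_, rfl⟩
  rw [← er]
  have ra : p.r a ≠ 0 := SRG.Pl.ne a0 da'
  have rb : p.r b ≠ 0 := SRG.Pl.ne b0 db'
  have Pa : ¬ p.P ∣ a := fun h1 => ra ((p.ker a).2 h1)
  have Pb : ¬ p.P ∣ b := fun h1 => rb ((p.ker b).2 h1)
  have ba : b - a ≠ 0 := by
    intro h1
    have h2 : p.r a = p.r b := by rw [sub_eq_zero.1 h1]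
    rw [h2] at hr
    exact hξ1 (mul_right_cancel₀ rb (by rw [one_mul]; exact hr.symm))
  have dba : (b - a).natDegree < p.d :=
    lt_of_le_of_lt (natDegree_sub_le b a) (max_lt db' da')
  have am := e5_am a0
  have bm := e5_am b0
  have r0 : r ≠ 0 := by
    rw [er]
    exact div_ne_zero am bm
  have r1 : r ≠ 1 := by
    intro h1
    rw [er, div_eq_one_iff_eq bm] at h1
    exact ba (by rw [RatFunc.algebraMap_injective K h1, sub_self])
  have hrS : El S r := (El_iff S _ r0 r1).2 ⟨a, b, b - a, a0, b0, ba, by ring, hS.sm da', hS.sm db',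
    hS.sm dba, er⟩
  have lr : V.lc r = ξ := by
    rw [er, map_div₀, hV.lc a Pa, hV.lc b Pb, hr, mul_div_cancel_right₀ _ rb]
  by_cases hxr : x = r
  · rw [hxr]
    abel
  -- the fraction
  obtain ⟨A₀, B₀, hB₀, dA₀, dB₀, ex⟩ := hH
  have hA₀ : A₀ ≠ 0 := by
    rintro rfl
    rw [map_zero, zero_div] at ex
    exact x0 ex
  have hA : x.num ≠ 0 := RatFunc.num_ne_zero x0
  have hB : x.denom ≠ 0 := x.denom_ne_zero
  have dA : x.num.natDegree ≤ p.d + (p.d - 1) / 2 := by
    have h1 : x.num ∣ A₀ := by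
      rw [ex]
      exact RatFunc.num_div_dvd _ hB₀
    exact (natDegree_le_of_dvd h1 hA₀).trans dA₀
  have dB : x.denom.natDegree ≤ p.d + (p.d - 1) / 2 := by
    have h1 : x.denom ∣ B₀ := by
      rw [ex]
      exact RatFunc.denom_div_dvd _ _
    exact (natDegree_le_of_dvd h1 hB₀).trans dB₀
  have sB : SRG.Sm S x.denom := by
    obtain ⟨A', B', hA', hB', -, sB', e'⟩ := (SG_iff S x x0).1 hx.1
    right
    intro Q hQm hQi hQd
    rcases sB' with h1 | h1
    · exact absurd h1 hB'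
    · refine h1 Q hQm hQi (hQd.trans ?_)
      rw [e']
      exact RatFunc.denom_div_dvd _ _
  have exx := (RatFunc.num_div_denom x).symm
  generalize x.num = A at hA dA exx
  generalize x.denom = B at hB dB sB exx
  have Am := e5_am hA
  have Bm := e5_am hB
  have eAB : x * algebraMap K[X] (RatFunc K) B = algebraMap K[X] (RatFunc K) A := by
    rw [exx, div_mul_cancel₀ _ Bm]
  have rAB : p.r A = ξ * p.r B := by
    have PB : ¬ p.P ∣ B := by
      intro hPB
      rcases sB with h1 | h1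
      · exact hB h1
      · exact hP (h1 p.P p.monic p.irr hPB)
    have hvA : V.v (algebraMap K[X] (RatFunc K) A) = 0 := by
      rw [← eAB, V.v_mul x0 Bm, vx, hV.v B PB, add_zero]
    have PA : ¬ p.P ∣ A := by
      intro hPA
      have h1 : FiniteMultiplicity p.P A := FiniteMultiplicity.of_not_isUnit p.irr.not_isUnit hA
      obtain ⟨c, hc, hc'⟩ := h1.exists_eq_pow_mul_and_not_dvd
      have h2 := (pt_pow hV (multiplicity p.P A) hc').1
      rw [← hc, hvA] at h2
      have h3 : multiplicity p.P A = 0 := by exact_mod_cast h2.symm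
      rw [h3, pow_zero, one_mul] at hc
      rw [← hc] at hc'
      exact hc' hPA
    rw [← hV.lc A PA, ← hV.lc B PB, ← eAB, map_mul, hξ]
  have hN0 : A * b - a * B ≠ 0 := by
    intro h1
    apply hxr
    rw [exx, er, div_eq_div_iff Bm bm, ← map_mul, ← map_mul, sub_eq_zero.1 h1]
  have hPN : p.P ∣ A * b - a * B := by
    rw [← p.ker, map_sub, map_mul, map_mul, rAB, hr]
    ring
  obtain ⟨Q', hQ'⟩ := hPN
  have hQ0 : Q' ≠ 0 := by
    rintro rfl
    rw [mul_zero] at hQ'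
    exact hN0 hQ'
  have dQ : Q'.natDegree < p.d := by
    have h1 : (A * b - a * B).natDegree ≤ 2 * p.d - 1 := by
      refine (natDegree_sub_le _ _).trans (max_le ?_ ?_)
      · refine natDegree_mul_le.trans ?_
        omega
      · refine natDegree_mul_le.trans ?_
        omega
    rw [hQ', natDegree_mul p.irr.ne_zero hQ0] at h1
    have h2 : p.P.natDegree = p.d := rfl
    omega
  have hs : lg (x - r) ∈ SG (insert p.P S) := by
    have h1 : x - r = algebraMap K[X] (RatFunc K) p.P * algebraMap K[X] (RatFunc K) Q' /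
        (algebraMap K[X] (RatFunc K) B * algebraMap K[X] (RatFunc K) b) := by
      rw [← map_mul, ← hQ', exx, er, div_sub_div _ _ Bm bm, map_sub, map_mul, map_mul]
      congr 1
      ring
    have Pm := e5_am p.irr.ne_zero
    have Qm := e5_am hQ0
    have hss : SG S ≤ SG (insert p.P S) := SG_mono (Set.subset_insert _ _)
    rw [h1, lg_div (mul_ne_zero Pm Qm) (mul_ne_zero Bm bm), lg_mul Pm Qm, lg_mul Bm bm]
    refine (SG _).sub_mem ((SG _).add_mem ?_ (hss (SG_pl hQ0 (hS.sm dQ))))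
      ((SG _).add_mem (hss (SG_pl hB sB)) (hss (SG_pl b0 (hS.sm db'))))
    refine SG_pl p.irr.ne_zero (Or.inr fun Q hQm hQi hQP => ?_)
    have h2 : Associated Q p.P := (hQi.dvd_irreducible_iff_associated p.irr).1 hQP
    rw [Polynomial.eq_of_monic_of_associated hQm p.monic h2]
    exact Set.mem_insert _ _
  have key := e5 hS hP hV h hΨ hx hrS x0 r0 x1 r1 hxr (by rw [hξ, lr]) hs
  rw [hξ, map_sub] at key
  rw [sub_eq_iff_eq_add.1 key]
  abel

end

end GD3
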