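import Pool.Agent.GD3.Hom
import Pool.Agent.Helper42.LT.SKb

set_option autoImplicit false

/-!
# GD3-Nx: null chains

PLAN.  In weight three [0], [x] - [1/x] and [x] + [1 - x] + [1 - 1/x] - [1] are null (rationally), and [x] x is a coboundary.
nx_mu: ker c3 is stable under multiplication by μ ∈ Λ^j: the operator `tn 3 j μ` on Cx 3 0 (Helper14/W4, tn_PB) and
c3 j (mu j μ z) = tn 3 j μ (c3 0 z) (check on z = bx x ω, e0_inj); NX 0 F = ker c3 (bdry F 1 0 = ⊥) and ker c3 ≤ NX j.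
nx_self: d3 0 (bx x u0) = bx x (w1 (lg x)) and NX 1 contains the image of d3 0 (bdry, mem_bdry1 in TGF/Cc.lean).
nx_inv, nx_three (chains over F, x ≠ 0; x ≠ 0, 1): over F(t) the chains [t] - [1/t] and [t] + [1 - t] + [1 - 1/t] - [1] are in ZX 0
(d3 of it is in Rel 1: {1 - x} = -{x}, {1/x} = -{x}, lg (-1) is torsion), so nx_spec at t = x and at t = 0 (QPL.exists_at; for
the second chain the value at 0 is [1] + [0] - [1]) gives the result for j = 0; then multiply by μ with nx_mu (mu j μ (bx x u0) = bx x μ, mu_bx).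
Alternatively three3 of Helper42/LT/SKa.lean.
-/

noncomputable section

open Polynomial TensorProduct
open scoped Classical

namespace GD3

open Helper14.Gon Helper14.W4 QPL TGF

universe u

section
variable {K : Type u} [Field K]

private lemma Nx_sC_b3 (c : K) (x : P1 (RatFunc K)) :
    sC c 1 0 (Helper42.LT.b3 x) = Helper42.LT.b3 (spec c x) := by
  have e := sC_PB c 1 0 x (u0 (RatFunc K))
  rw [Helper42.LT.b3, Helper42.LT.b3]
  refine e.trans ?_
  congr 1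
  rw [u0, sT_dm, u0]
  congr 1
  funext i
  exact i.elim0

private lemma Nx_dC_b3 {F : Type u} [Field F] (x : P1 F) :
    dC 0 0 (Helper42.LT.b3 x) = Helper42.LT.tn 2 1 (wT 0 (lgP x) (u0 F)) (bb x) := by
  have h := dC_PB 0 0 x (u0 F)
  refine h.trans ?_
  rw [bb, Helper42.LT.tn_PB]

private lemma Nx_spX (c : K) : spec c (some (RatFunc.X : RatFunc K)) = some c := by
  have h := spec_poly c (Polynomial.X : K[X])
  rw [RatFunc.algebraMap_X] at h
  simpa using h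

private lemma Nx_fy : Helper42.LT.fy (0 : K) 1 = RatFunc.X := by
  rw [Helper42.LT.fy, map_zero, sub_zero, sub_zero, map_one, div_one]

private lemma Nx_three (x : K) (hx : x ≠ 0) :
    Helper42.LT.b3 (some x) + Helper42.LT.b3 (some (1 - x)) + Helper42.LT.b3 (some (1 - x⁻¹)) =
      Helper42.LT.b3 (some (1 : K)) := by
  have h := Helper42.LT.three3 (zero_ne_one : (0 : K) ≠ 1)
  rw [Nx_fy] at h
  have h1 := congrArg (sC x 1 0) h
  have s1 := Nx_spX x
  rw [map_add, map_add, Nx_sC_b3, Nx_sC_b3, Nx_sC_b3, Nx_sC_b3, s1, spec_one_sub s1,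
    spec_one_sub (sp_inv_some s1 hx), spec_one] at h1
  exact h1

private lemma Nx_inv0 :
    Helper42.LT.b3 (some (RatFunc.X : RatFunc K)) =
      Helper42.LT.b3 (some (RatFunc.X⁻¹ : RatFunc K)) := by
  have hX : (RatFunc.X : RatFunc K) ≠ 0 := RatFunc.X_ne_zero
  have e : lg (RatFunc.X⁻¹ : RatFunc K) = - lg (RatFunc.X : RatFunc K) := lg_inv _
  have hd : dC 0 0 (Helper42.LT.b3 (some (RatFunc.X : RatFunc K)) -
      Helper42.LT.b3 (some (RatFunc.X⁻¹ : RatFunc K))) = 0 := by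
    have hb : bb (some (RatFunc.X⁻¹ : RatFunc K)) = - bb (some (RatFunc.X : RatFunc K)) :=
      eq_neg_of_add_eq_zero_right (bb_inv (RatFunc.X : RatFunc K))
    have hn := Helper42.LT.tn_smul 2 1 (-1 : ℚ) (wT 0 (lg (RatFunc.X : RatFunc K)) (u0 _))
      (bb (some (RatFunc.X : RatFunc K)))
    rw [neg_smul, one_smul, neg_smul, one_smul] at hn
    rw [map_sub, Nx_dC_b3, Nx_dC_b3, lgP_some, lgP_some, e, wT_neg, LinearMap.neg_apply, hb,
      map_neg, hn, neg_neg, sub_self]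
  have hc := const_cyc (1 : K) 1 _ hd
  have s1 := Nx_spX (1 : K)
  have hs : sC (1 : K) 1 0 (Helper42.LT.b3 (some (RatFunc.X : RatFunc K)) -
      Helper42.LT.b3 (some (RatFunc.X⁻¹ : RatFunc K))) = 0 := by
    rw [map_sub, Nx_sC_b3, Nx_sC_b3, s1, sp_inv_some s1 one_ne_zero, inv_one, sub_self]
  rw [hs, map_zero] at hc
  exact sub_eq_zero.1 hc.symm

private lemma Nx_inv (x : K) (hx : x ≠ 0) :
    Helper42.LT.b3 (some x) = Helper42.LT.b3 (some x⁻¹) := by
  have h1 := congrArg (sC x 1 0) (Nx_inv0 (K := K))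
  have s1 := Nx_spX x
  rw [Nx_sC_b3, Nx_sC_b3, s1, sp_inv_some s1 hx] at h1
  exact h1

end

section
variable {F : Type u} [Field F]

lemma mu_bx (j : ℕ) (μ : Tx j F) (x : F) : mu j μ (bx x (u0 F)) = bx x μ := by
  rw [mu, xl_bx, LinearMap.comp_apply, u0, e0_dm, LinearMap.toSpanSingleton_apply, one_smul]

private lemma Nx_mem {j : ℕ} {z : X j F} (h : c3 j z = 0) : z ∈ NX j F := by
  change c3 j z ∈ bdry F 1 j
  rw [h]
  exact zero_mem _

private lemma Nx_mem0 {z : X 0 F} (h : z ∈ NX 0 F) : c3 0 z = 0 := by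
  have h1 : c3 0 z ∈ (⊥ : Submodule ℚ (Cx 3 0 F)) := h
  exact (Submodule.mem_bot ℚ).1 h1

private lemma Nx_c3_mu (j : ℕ) (μ : Tx j F) (z : X 0 F) :
    c3 j (mu j μ z) = Helper42.LT.tn 3 j μ (c3 0 z) := by
  have h : (c3 j) ∘ₗ (mu j μ) = (Helper42.LT.tn 3 j μ) ∘ₗ (c3 0) := by
    refine x_ext fun x ω => ?_
    rw [LinearMap.comp_apply, LinearMap.comp_apply, c3_bx, Helper42.LT.tn_PB', mu, xl_bx,
      LinearMap.comp_apply, LinearMap.toSpanSingleton_apply, map_smul, c3_bx]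
  exact LinearMap.congr_fun h z

theorem nx_mu (j : ℕ) (μ : Tx j F) (z : X 0 F) (hz : z ∈ NX 0 F) : mu j μ z ∈ NX j F := by
  refine Nx_mem ?_
  rw [Nx_c3_mu, Nx_mem0 hz, map_zero]

theorem nx_zero (j : ℕ) (μ : Tx j F) : bx 0 μ ∈ NX j F := by
  refine Nx_mem ?_
  rw [c3_bx, cl_zero 2, map_zero, LinearMap.zero_apply]

theorem nx_inv (j : ℕ) (x : F) (hx : x ≠ 0) (μ : Tx j F) : bx x μ - bx x⁻¹ μ ∈ NX j F := by
  have h : bx x (u0 F) - bx x⁻¹ (u0 F) ∈ NX 0 F := by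
    refine Nx_mem ?_
    rw [map_sub, c3_bx, c3_bx]
    exact sub_eq_zero.2 (Nx_inv x hx)
  have h1 := nx_mu j μ _ h
  rw [map_sub, mu_bx, mu_bx] at h1
  exact h1

theorem nx_three (j : ℕ) (x : F) (hx : x ≠ 0) (hx1 : x ≠ 1) (μ : Tx j F) :
    bx x μ + bx (1 - x) μ + bx (1 - x⁻¹) μ - bx 1 μ ∈ NX j F := by
  have h : bx x (u0 F) + bx (1 - x) (u0 F) + bx (1 - x⁻¹) (u0 F) - bx 1 (u0 F) ∈ NX 0 F := by
    refine Nx_mem ?_
    rw [map_sub, map_add, map_add, c3_bx, c3_bx, c3_bx, c3_bx]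
    exact sub_eq_zero.2 (Nx_three x hx)
  have h1 := nx_mu j μ _ h
  rw [map_sub, map_add, map_add, mu_bx, mu_bx, mu_bx, mu_bx] at h1
  exact h1

theorem nx_self (x : F) : bx x (w1 (lg x)) ∈ NX 1 F := by
  have h : bx x (w1 (lg x)) = d3 0 (bx x (u0 F)) := by
    rw [d3_bx, w1]
  change c3 1 (bx x (w1 (lg x))) ∈ bdry F 1 1
  rw [h]
  exact (mem_bdry1 0 _).2 ⟨_, rfl⟩

theorem nx_le_zx (j : ℕ) : NX j F ≤ ZX j F := by
  intro z hz
  rw [mem_ZX]
  cases j with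
  | zero => rw [Nx_mem0 hz, map_zero]
  | succ j =>
    obtain ⟨w, hw⟩ : ∃ w : Cx 4 j F, dC 1 j w = c3 (j + 1) z := hz
    rw [← hw]
    exact LinearMap.congr_fun (dC_dC 0 j) w

end

end GD3
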