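import Pool.Agent.GD3.Defs
import Pool.Agent.GD3.Nx
import Pool.Agent.TGF.Star1
import Pool.Agent.TGF.Fv
import Pool.Agent.TGF.S

set_option autoImplicit false

/-!
# GD3-Hf: change of a functional by a functional on Λ^2-slots

PLAN.  fs_change: ψ' = ψ - ω ∘ d3 1, ϕ' x y = ϕ x y - ω (dS F (sb x y)), ω kills Rel 2 F.
 n1: z ∈ NX 1 F: d3 1 z ∈ Rel 2 F (nx_le_zx, ZX = comap of Rel).  star: d3_star (TGF/Star1) with μ = u0 F: d3 1 (star 0 x y u0) - dS (sb x y) ∈ Rel 2 (dS_sb, w2, w1).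
 self: dS (sb x x) = 0.  swap: dS (sb x y) = - dS (sb y x).  fv in x: x ↦ ω (bx y (w2 (1 - x) x)) is FV (W2-alternating form: a map Tx 2 → W composed with (1 - x) ∧ x: FV since d2 0 kills Rel 0 (d2_rel, fv_of, rel_of_fv'; or
 AF.St)), x ↦ ω (bx x μ) is FV since ω kills Rel 2 (fv_of).  Sums and differences of FV functions: define them by hand (FV.diff in SRG/Defs.lean).
hf_of_omega: HF.sm and HF.ph: El S x, El S y: ϕ x y = 0 (KL.ph) and dS (sb x y) has entries in El S and slots w2 of elements of SG S (wT_mem_TS): ω is 0.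
-/

noncomputable section

open Polynomial TensorProduct
open scoped Classical

namespace GD3

open Helper14.Gon Helper14.W4 QPL TGF

universe u

section
variable {K k : Type u} [Field K] [Field k] {p : SRG.Pl K k} {V : AC (RatFunc K) k}
  {S : Set K[X]}

variable {W : Type u} [AddCommGroup W] [Module ℚ W]

/-- the composition of a five-term function with a linear map -/
private def hf_comp {F : Type u} [Field F] {W' : Type u} [AddCommGroup W'] [Module ℚ W']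
    (g : SRG.FV F W') (l : W' →ₗ[ℚ] W) : SRG.FV F W where
  g := fun x => l (g.g x)
  zero := by rw [g.zero, map_zero]
  one := by rw [g.one, map_zero]
  inv := fun x => by rw [g.inv, map_neg]
  sub := fun x => by rw [g.sub, map_neg]
  five := fun x y hx hx1 hy hy1 hxy => by
    rw [← map_sub, ← map_add, ← map_sub, ← map_add, g.five x y hx hx1 hy hy1 hxy, map_zero]

private lemma hf_bx {F : Type u} [Field F] (ω : X 2 F →ₗ[ℚ] W) (hω : ∀ z ∈ Rel 2 F, ω z = 0)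
    (μ : Tx 2 F) : ∃ g : SRG.FV F W, ∀ x : F, g.g x = ω (bx x μ) := by
  obtain ⟨g, hg⟩ := fv_of 2 ω hω
  exact ⟨hf_comp g (LinearMap.applyₗ μ), fun x => hg x μ⟩

private lemma hf_w2 {F : Type u} [Field F] (ω : X 2 F →ₗ[ℚ] W) (y : F) :
    ∃ g : SRG.FV F W, ∀ x : F, g.g x = ω (bx y (w2 (lg (1 - x)) (lg x))) := by
  obtain ⟨g, hg⟩ := fv_of 0 (ω ∘ₗ bxL y ∘ₗ d2 0) (fun z hz => by
    rw [LinearMap.comp_apply, LinearMap.comp_apply, d2_rel 0 hz, map_zero, map_zero])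
  refine ⟨hf_comp g (LinearMap.applyₗ (u0 F)), fun x => ?_⟩
  have h := hg x (u0 F)
  rw [LinearMap.comp_apply, LinearMap.comp_apply, d2_bx, bxL_apply] at h
  exact h

private lemma hf_mem {S : Set K[X]} {a b : Additive (RatFunc K)ˣ} (ha : a ∈ SG S)
    (hb : b ∈ SG S) : w2 a b ∈ TS 2 (SG S) :=
  wT_mem_TS 1 ha (wT_mem_TS 0 hb (dm_mem_TS fun i => i.elim0))

theorem fs_change {F : Type u} [Field F] {ψ : X 1 F →ₗ[ℚ] W} {ϕ : F → F → W} (h : FS ψ ϕ)
    (ω : X 2 F →ₗ[ℚ] W) (hω : ∀ z ∈ Rel 2 F, ω z = 0) :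
    FS (ψ - ω ∘ₗ d3 1) (fun x y => ϕ x y - ω (dS F (sb x y))) where
  n1 := by
    intro z hz
    have h1 : d3 1 z ∈ Rel 2 F := nx_le_zx 1 hz
    rw [LinearMap.sub_apply, LinearMap.comp_apply, h.n1 z hz, hω _ h1, sub_zero]
  star := by
    intro x y hx hx1 hy hy1 hxy
    have h1 := hω _ (d3_star 0 hx hx1 hy hy1 hxy (u0 F))
    rw [map_sub, map_add] at h1
    rw [LinearMap.sub_apply, LinearMap.comp_apply, h.star x y hx hx1 hy hy1 hxy, dS_sb, map_sub]
    have h2 : ω (d3 1 (TGF.star 0 x y (u0 F))) =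
        ω (bx y (w2 (lg (1 - x)) (lg x))) - ω (bx x (w2 (lg (1 - y)) (lg y))) := by
      rw [eq_sub_iff_add_eq]
      exact sub_eq_zero.1 h1
    rw [h2]
  self := by
    intro x
    show ϕ x x - ω (dS F (sb x x)) = 0
    rw [h.self, dS_sb, sub_self, map_zero, sub_zero]
  swap := by
    intro x y
    show ϕ x y - ω (dS F (sb x y)) = - (ϕ y x - ω (dS F (sb y x)))
    rw [h.swap x y, dS_sb, dS_sb, map_sub, map_sub]
    abel
  fv := by
    intro y
    obtain ⟨g1, hg1⟩ := h.fv y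
    obtain ⟨g2, hg2⟩ := hf_w2 ω y
    obtain ⟨g3, hg3⟩ := hf_bx ω hω (w2 (lg (1 - y)) (lg y))
    refine ⟨g1.diff (g2.diff g3), fun x => ?_⟩
    show g1.g x - (g2.g x - g3.g x) = ϕ x y - ω (dS F (sb x y))
    rw [hg1, hg2, hg3, dS_sb, map_sub]

theorem hf_of_omega {ψ : X 1 (RatFunc K) →ₗ[ℚ] W} {ϕ : RatFunc K → RatFunc K → W}
    (h : FS ψ ϕ) (hk : KL S ψ ϕ) (ω : X 2 (RatFunc K) →ₗ[ℚ] W)
    (h1 : ∀ z ∈ Rel 2 (RatFunc K), ω z = 0)
    (h2 : ∀ x : RatFunc K, El S x → ∀ μ ∈ TS 2 (SG S), ω (bx x μ) = 0)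
    (h3 : ∀ x : RatFunc K, El (insert p.P S) x → ∀ μ ∈ TS 1 (SG S),
      ω (d3 1 (bx x μ)) = ψ (bx x μ)) :
    HF p S (ψ - ω ∘ₗ d3 1) (fun x y => ϕ x y - ω (dS (RatFunc K) (sb x y))) where
  fs := fs_change h ω h1
  sm := by
    intro x hx μ hμ
    rw [LinearMap.sub_apply, LinearMap.comp_apply, h3 x hx μ hμ, sub_self]
  ph := by
    intro x y hx hy
    show ϕ x y - ω (dS (RatFunc K) (sb x y)) = 0
    rw [hk.ph x y hx hy, dS_sb, map_sub, h2 y hy _ (hf_mem hx.2 hx.1),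
      h2 x hx _ (hf_mem hy.2 hy.1), sub_self, sub_self]

end

end GD3
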