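import Pool.Agent.GD3.Om
import Pool.Agent.GD3.Hf
import Pool.Agent.GD3.Be
import Pool.Agent.GD3.E5
import Pool.Agent.GD3.Fr

set_option autoImplicit false

/-!
# GD3-Rl2: the reduction lemma for formal cocycles

`hf_zero`: a functional which vanishes on the cochains of level `S` and on the chains with slots of level `S`
vanishes on the formal cocycles of level `S ∪ P` of small height without residue; it is compared with the
functional on `Λ²`-slots given by the form `Ψ`.  `rl2`: apply this to the quotient of the formal cochains by the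
sum of `CL S` and `St`.
-/

noncomputable section

open Polynomial TensorProduct
open scoped Classical

namespace GD3

open Helper14.Gon Helper14.W4 QPL TGF

universe u

section
variable {K k : Type u} [Field K] [Field k] {p : SRG.Pl K k} {V : AC (RatFunc K) k}
  {S : Set K[X]}

variable {W : Type u} [AddCommGroup W] [Module ℚ W]

/-! ### the functional on `Λ²`-slots -/

private lemma Rl2_fvmap {F : Type u} [Field F] {W₁ W₂ : Type u} [AddCommGroup W₁] [Module ℚ W₁]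
    [AddCommGroup W₂] [Module ℚ W₂] (T : W₁ →ₗ[ℚ] W₂) (g : SRG.FV F W₁) :
    ∃ g' : SRG.FV F W₂, ∀ x, g'.g x = T (g.g x) := by
  refine ⟨⟨fun x => T (g.g x), ?_, ?_, ?_, ?_, ?_⟩, fun x => rfl⟩
  · rw [g.zero, map_zero]
  · rw [g.one, map_zero]
  · intro x
    rw [g.inv, map_neg]
  · intro x
    rw [g.sub, map_neg]
  · intro x y hx hx1 hy hy1 hxy
    have h := congrArg T (g.five x y hx hx1 hy hy1 hxy)
    rw [map_add, map_sub, map_add, map_sub, map_zero] at h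
    exact h

private lemma Rl2_ev_fv (Ψ : SRG.FV k (Tx 1 (RatFunc K) →ₗ[ℚ] W)) :
    ∃ φ : SRG.FV (RatFunc K) (Tx 1 (RatFunc K) →ₗ[ℚ] W), ∀ x, φ.g x = ev V Ψ x := by
  obtain ⟨φ, hφ⟩ := fv_place V Ψ
  refine ⟨φ, fun x => ?_⟩
  rw [hφ x, ev]
  by_cases h0 : x = 0
  · rw [if_pos (Or.inl h0), if_neg (fun h => h.1 h0), h0, map_zero, Ψ.zero]
  · by_cases h1 : V.v x = 0
    · rw [if_pos (Or.inr h1), if_pos ⟨h0, h1⟩]
    · rw [if_neg (by rintro (h2 | h2); exacts [h0 h2, h1 h2]), if_neg (fun h => h1 h.2)]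

/-- the functional `[x] μ ↦ Ψ(x̄)(ct μ)` -/
private def Rl2_Lam (V : AC (RatFunc K) k) (Ψ : SRG.FV k (Tx 1 (RatFunc K) →ₗ[ℚ] W)) :
    X 2 (RatFunc K) →ₗ[ℚ] W :=
  xl fun x => (ev V Ψ x) ∘ₗ (ctT 1 V.vH)

private lemma Rl2_Lam_bx (Ψ : SRG.FV k (Tx 1 (RatFunc K) →ₗ[ℚ] W)) (x : RatFunc K)
    (μ : Tx 2 (RatFunc K)) : Rl2_Lam V Ψ (bx x μ) = ev V Ψ x (ctT 1 V.vH μ) := by
  rw [Rl2_Lam, xl_bx]
  rfl

private lemma Rl2_Lam_rel (Ψ : SRG.FV k (Tx 1 (RatFunc K) →ₗ[ℚ] W)) {z : X 2 (RatFunc K)}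
    (hz : z ∈ Rel 2 (RatFunc K)) : Rl2_Lam V Ψ z = 0 := by
  refine rel_of_fv' 2 (Rl2_Lam V Ψ) (fun μ => ?_) hz
  obtain ⟨φ, hφ⟩ := Rl2_ev_fv (V := V) Ψ
  obtain ⟨g, hg⟩ := Rl2_fvmap (LinearMap.applyₗ (ctT 1 V.vH μ) : (Tx 1 (RatFunc K) →ₗ[ℚ] W) →ₗ[ℚ] W) φ
  refine ⟨g, fun x => ?_⟩
  rw [hg x, hφ x, Rl2_Lam_bx]
  rfl

/-- contraction of `a ∧ b` -/
private lemma Rl2_ct (θ : Additive (RatFunc K)ˣ →+ ℚ) (a b : Additive (RatFunc K)ˣ) :
    ctT 1 θ (w2 a b) = θ a • w1 b - θ b • w1 a := by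
  have h1 : ctT (0 + 1) θ (wT (0 + 1) a (wT 0 b (u0 (RatFunc K)))) =
      θ a • wT 0 b (u0 (RatFunc K)) - wT 0 a (ctT 0 θ (wT 0 b (u0 (RatFunc K)))) := ctT_wT 0 θ a _
  rw [ctT_wT_zero, map_smul] at h1
  exact h1

private lemma Rl2_ct_gr (x : RatFunc K) : ctT 1 V.vH (w2 (lg (1 - x)) (lg x)) = gr V x := by
  rw [Rl2_ct, gr]

private lemma Rl2_Lam_sb (Ψ : SRG.FV k (Tx 1 (RatFunc K) →ₗ[ℚ] W)) (x y : RatFunc K) :
    Rl2_Lam V Ψ (dS (RatFunc K) (sb x y)) = ev V Ψ y (gr V x) - ev V Ψ x (gr V y) := by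
  rw [dS_sb, map_sub, Rl2_Lam_bx, Rl2_Lam_bx, Rl2_ct_gr, Rl2_ct_gr]

private lemma Rl2_Lam_dS {Ψ : SRG.FV k (Tx 1 (RatFunc K) →ₗ[ℚ] W)} {ϕ : RatFunc K → RatFunc K → W}
    (hΨ : ∀ x y : RatFunc K, El (insert p.P S) x →
      El (insert p.P S) y → ϕ x y = ev V Ψ x (gr V y) - ev V Ψ y (gr V x))
    {σ : D (RatFunc K)} (hσ : σ ∈ DL (insert p.P S)) :
    Rl2_Lam V Ψ (dS (RatFunc K) σ) = - dl ϕ σ := by
  induction hσ using Submodule.span_induction with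
  | mem z hz =>
    obtain ⟨x, y, hx, hy, rfl⟩ := hz
    rw [Rl2_Lam_sb, dl_sb, hΨ x y hx hy, neg_sub]
  | zero => rw [map_zero, map_zero, map_zero, neg_zero]
  | add a b _ _ ha hb => rw [map_add, map_add, map_add, ha, hb, neg_add]
  | smul c a _ ha => rw [map_smul, map_smul, map_smul, ha, smul_neg]

/-! ### the functional on the residues -/

/-- the functional `[ξ] ω ↦ e0 ω • m ξ` -/
private def Rl2_mu (m : k → W) : X 0 k →ₗ[ℚ] W :=
  xl fun ξ => (LinearMap.toSpanSingleton ℚ W (m ξ)) ∘ₗ (e0 k)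

private lemma Rl2_mu_bx (m : k → W) (ξ : k) (ω : Tx 0 k) :
    Rl2_mu m (bx ξ ω) = e0 k ω • m ξ := by
  rw [Rl2_mu, xl_bx]
  rfl

private lemma Rl2_sp (V : AC (RatFunc K) k) : e0 k (spT V 0 (u0 (RatFunc K))) = 1 := by
  rw [TGF.spT, u0, tm_dm, e0_dm]

private lemma Rl2_vP (hV : IsPt p V) : V.vH (lg (algebraMap K[X] (RatFunc K) p.P)) = 1 := by
  rw [TGF.vH_lg V (RatFunc.algebraMap_ne_zero p.irr.ne_zero)]
  exact hV.vP

private lemma Rl2_reX (hV : IsPt p V) {x : RatFunc K} (h : x = 0 ∨ V.v x = 0) (m : k → W) :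
    Rl2_mu m (reX V 0 (bx x (w1 (lg (algebraMap K[X] (RatFunc K) p.P))))) = m (V.lc x) := by
  rw [reX_bx, if_pos h, Rl2_mu_bx, w1, TGF.reT_wT_zero, Rl2_vP hV, one_smul, Rl2_sp, one_smul]

/-! ### one-units -/

private lemma Rl2_cases (V : AC (RatFunc K) k) {x : RatFunc K} (h0 : x ≠ 0) (hv : V.v x = 0) :
    (V.lc x = 1 ∧ (x = 1 ∨ (x ≠ 1 ∧ 0 < V.v (1 - x)))) ∨ (V.lc x ≠ 1 ∧ x ≠ 1 ∧ V.v (1 - x) = 0) := by
  have hn : -x ≠ 0 := neg_ne_zero.2 h0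
  have hvn : V.v (1 : RatFunc K) = V.v (-x) := by rw [v_neg V h0, hv, v_one]
  by_cases h1 : V.lc x = 1
  · left
    refine ⟨h1, ?_⟩
    have h2 : V.lc (1 : RatFunc K) + V.lc (-x) = 0 := by
      rw [map_one, lc_neg, h1, add_neg_cancel]
    by_cases hx1 : x = 1
    · exact Or.inl hx1
    rcases V.add_eq one_ne_zero hn hvn h2 with h3 | h3
    · rw [← sub_eq_add_neg] at h3
      exact absurd (sub_eq_zero.1 h3).symm hx1
    · rw [v_one, ← sub_eq_add_neg] at h3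
      exact Or.inr ⟨hx1, h3⟩
  · right
    have h2 : V.lc (1 : RatFunc K) + V.lc (-x) ≠ 0 := by
      rw [map_one, lc_neg, ← sub_eq_add_neg]
      exact sub_ne_zero.2 (Ne.symm h1)
    obtain ⟨h3, h4, -⟩ := V.add_ne one_ne_zero hn hvn h2
    rw [← sub_eq_add_neg] at h3 h4
    rw [v_one] at h4
    refine ⟨h1, ?_, h4⟩
    rintro rfl
    exact h3 (sub_self _)

private lemma Rl2_ev_zero (Ψ : SRG.FV k (Tx 1 (RatFunc K) →ₗ[ℚ] W)) {x : RatFunc K}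
    (h : x = 0 ∨ V.v x ≠ 0) : ev V Ψ x = 0 := by
  rw [ev, if_neg]
  rintro ⟨h0, h1⟩
  rcases h with h | h
  · exact h0 h
  · exact h h1

private lemma Rl2_ev_unit (Ψ : SRG.FV k (Tx 1 (RatFunc K) →ₗ[ℚ] W)) {x : RatFunc K}
    (h0 : x ≠ 0) (h1 : V.v x = 0) : ev V Ψ x = Ψ.g (V.lc x) := by
  rw [ev, if_pos ⟨h0, h1⟩]

private lemma Rl2_Lam_d3 (Ψ : SRG.FV k (Tx 1 (RatFunc K) →ₗ[ℚ] W)) (x : RatFunc K)
    (ω : Tx 1 (RatFunc K)) : Rl2_Lam V Ψ (d3 1 (bx x ω)) =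
      - ev V Ψ x (wT 0 (lg x) (ctT 0 V.vH ω)) := by
  rw [d3_bx, Rl2_Lam_bx]
  have h1 : ctT (0 + 1) V.vH (wT (0 + 1) (lg x) ω) =
      V.vH (lg x) • ω - wT 0 (lg x) (ctT 0 V.vH ω) := ctT_wT 0 V.vH (lg x) ω
  have h2 : ctT 1 V.vH (wT 1 (lg x) ω) = V.vH (lg x) • ω - wT 0 (lg x) (ctT 0 V.vH ω) := h1
  rw [h2, map_sub, map_smul]
  by_cases h0 : x = 0
  · rw [Rl2_ev_zero Ψ (Or.inl h0), LinearMap.zero_apply, LinearMap.zero_apply, smul_zero, sub_zero, neg_zero]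
  by_cases hv : V.v x = 0
  · rw [TGF.vH_lg V h0, hv, zero_smul, zero_sub]
  · rw [Rl2_ev_zero Ψ (Or.inr hv), LinearMap.zero_apply, LinearMap.zero_apply, smul_zero, sub_zero, neg_zero]

theorem hf_zero (hS : SRG.Adm S p.d) (hP : p.P ∉ S) (hV : IsPt p V)
    {ψ : X 1 (RatFunc K) →ₗ[ℚ] W} {ϕ : RatFunc K → RatFunc K → W} (h : HF p S ψ ϕ)
    {y : X 1 (RatFunc K)} {σ : D (RatFunc K)} (hy : y ∈ LvP p S)
    (hσ : σ ∈ DL (insert p.P S)) (hc : (y, σ) ∈ CZ (RatFunc K)) (hr : reX V 0 y ∈ Z0 0 k) :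
    ψ y + dl ϕ σ = 0 := by
  obtain ⟨Ψ, hΨ⟩ := exists_be hS hP hV h
  obtain ⟨μ0, hμ0⟩ := e5_ref hS hP hV h hΨ
  obtain ⟨m, hm⟩ : ∃ m : k → W, m = fun ξ => if ξ = 0 then 0 else if ξ = 1 then
      ψ (bx 1 (w1 (lg (algebraMap K[X] (RatFunc K) p.P)))) else μ0 ξ := ⟨_, rfl⟩
  have m0 : m 0 = 0 := by rw [hm]; exact if_pos rfl
  have m1 : m 1 = ψ (bx 1 (w1 (lg (algebraMap K[X] (RatFunc K) p.P)))) := by
    rw [hm]
    show (if (1 : k) = 0 then (0 : W) else if (1 : k) = 1 then _ else _) = _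
    rw [if_neg one_ne_zero, if_pos rfl]
  have m2 : ∀ ξ, ξ ≠ 0 → ξ ≠ 1 → m ξ = μ0 ξ := by
    intro ξ h0 h1
    rw [hm]
    show (if ξ = 0 then (0 : W) else if ξ = 1 then _ else _) = _
    rw [if_neg h0, if_neg h1]
  have key : ψ y = - Rl2_Lam V Ψ (d3 1 y) + Rl2_mu m (reX V 0 y) := by
    clear hc hr
    induction hy using Submodule.span_induction with
    | mem z hz =>
      rcases hz with ⟨x, ω, hx, hω, rfl⟩ | ⟨x, hx, hh, rfl⟩
      · rw [h.sm x hx ω hω, Rl2_Lam_d3, ctT_TS 0 (fun v hv => SG_v hV hP hv) hω, map_zero, map_zero,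
          neg_zero, neg_zero, reX_TS V 0 (fun v hv => SG_v hV hP hv) x hω, map_zero, add_zero]
      · have hct : ctT 0 V.vH (w1 (lg (algebraMap K[X] (RatFunc K) p.P))) = u0 (RatFunc K) := by
          rw [w1, ctT_wT_zero, Rl2_vP hV, one_smul]
        rw [Rl2_Lam_d3, hct, neg_neg]
        by_cases h0 : x = 0
        · rw [ps_zero hP hV h hx (Or.inl h0), Rl2_ev_zero Ψ (Or.inl h0), LinearMap.zero_apply, zero_add,
            Rl2_reX hV (Or.inl h0), h0, map_zero, m0]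
        by_cases hv : V.v x = 0
        · rw [Rl2_reX hV (Or.inr hv), Rl2_ev_unit Ψ h0 hv]
          rcases Rl2_cases V h0 hv with ⟨h1, h2⟩ | ⟨h1, h2, h3⟩
          · rw [h1, Ψ.one, LinearMap.zero_apply, zero_add, m1]
            rcases h2 with h2 | ⟨h4, h2⟩
            · rw [h2]
            · refine ps_one hP hV h hx ?_
              rw [TGF.vH_lg V (sub_ne_zero.2 (Ne.symm h4))]
              exact h2
          · have hxS : El S x := by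
              refine ⟨SG_insert_v hV hP hx.1 ?_, SG_insert_v hV hP hx.2 ?_⟩
              · rw [TGF.vH_lg V h0, hv]
              · rw [TGF.vH_lg V (sub_ne_zero.2 (Ne.symm h2)), h3]
            rw [hμ0 x hxS h0 h2 hh, m2 _ (V.lc_ne h0) h1, add_comm]
            rfl
        · have hv' : V.vH (lg x) ≠ 0 := by
            rw [TGF.vH_lg V h0]
            exact hv
          rw [ps_zero hP hV h hx (Or.inr hv'), Rl2_ev_zero Ψ (Or.inr hv), LinearMap.zero_apply, zero_add,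
            reX_bx, if_neg (by rintro (h1 | h1); exacts [h0 h1, hv h1]), map_zero]
    | zero => rw [map_zero, map_zero, map_zero, map_zero, map_zero, neg_zero, add_zero]
    | add a b _ _ ha hb =>
      rw [map_add, map_add, map_add, map_add, map_add, ha, hb]
      abel
    | smul c a _ ha =>
      rw [map_smul, map_smul, map_smul, map_smul, map_smul, ha, smul_add, smul_neg]
  have h1 : Rl2_mu m (reX V 0 y) = 0 := by
    obtain ⟨ω, hω⟩ := hr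
    rw [← hω, bxL_apply, Rl2_mu_bx, m0, smul_zero]
  have h2 := Rl2_Lam_rel (V := V) Ψ (mem_CZ.1 hc)
  rw [map_add, Rl2_Lam_dS hΨ hσ] at h2
  have h3 : Rl2_Lam V Ψ (d3 1 y) = dl ϕ σ := by
    have h4 : Rl2_Lam V Ψ (d3 1 y) + - dl ϕ σ = 0 := h2
    rw [← sub_eq_add_neg] at h4
    exact sub_eq_zero.1 h4
  rw [key, h1, add_zero, h3, neg_add_cancel]

/-! ### the reduction lemma -/

private lemma Rl2_fs (N : Submodule ℚ (C1 (RatFunc K))) (hN : St (RatFunc K) ≤ N) :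
    FS (N.mkQ ∘ₗ LinearMap.inl ℚ (X 1 (RatFunc K)) (D (RatFunc K)))
      (fun x y => N.mkQ ((0, sb x y) : C1 (RatFunc K))) := by
  have h0 : ∀ c : C1 (RatFunc K), c ∈ St (RatFunc K) → N.mkQ c = 0 := by
    intro c hc
    rw [Submodule.mkQ_apply, Submodule.Quotient.mk_eq_zero]
    exact hN hc
  have hD : ∀ r ∈ D0 (RatFunc K), N.mkQ ((0, r) : C1 (RatFunc K)) = 0 := by
    intro r hr
    exact h0 _ (Submodule.subset_span (Or.inr ⟨r, hr, rfl⟩))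
  have hg : ∀ r, r ∈ ({z : D (RatFunc K) | ∃ x : RatFunc K, z = sb x x} ∪
      {z | ∃ x y : RatFunc K, z = sb x y + sb y x} ∪
      {z | ∃ y : RatFunc K, z = sb 0 y} ∪ {z | ∃ y : RatFunc K, z = sb 1 y} ∪
      {z | ∃ x y : RatFunc K, z = sb x y + sb x⁻¹ y} ∪ {z | ∃ x y : RatFunc K, z = sb x y + sb (1 - x) y} ∪
      {z | ∃ x x' y : RatFunc K, x ≠ 0 ∧ x ≠ 1 ∧ x' ≠ 0 ∧ x' ≠ 1 ∧ x ≠ x' ∧
        z = sb x y - sb x' y + sb (x' / x) y - sb ((1 - x⁻¹) / (1 - x'⁻¹)) y +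
          sb ((1 - x) / (1 - x')) y}) → N.mkQ ((0, r) : C1 (RatFunc K)) = 0 := by
    intro r hr
    exact hD r (Submodule.subset_span hr)
  have hadd : ∀ a b : D (RatFunc K), N.mkQ ((0, a + b) : C1 (RatFunc K)) =
      N.mkQ ((0, a) : C1 (RatFunc K)) + N.mkQ ((0, b) : C1 (RatFunc K)) := by
    intro a b
    rw [← map_add]
    congr 1
  have hsub : ∀ a b : D (RatFunc K), N.mkQ ((0, a - b) : C1 (RatFunc K)) =
      N.mkQ ((0, a) : C1 (RatFunc K)) - N.mkQ ((0, b) : C1 (RatFunc K)) := by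
    intro a b
    rw [← map_sub]
    congr 1
  refine ⟨?_, ?_, ?_, ?_, ?_⟩
  · intro z hz
    exact h0 _ (Submodule.subset_span (Or.inl (Or.inl ⟨z, hz, rfl⟩)))
  · intro x y hx hx1 hy hy1 hxy
    have h1 := h0 _ (Submodule.subset_span (Or.inl (Or.inr ⟨x, y, hx, hx1, hy, hy1, hxy, rfl⟩)))
    have h2 : ((star 0 x y (u0 (RatFunc K)), - sb x y) : C1 (RatFunc K)) =
        (star 0 x y (u0 (RatFunc K)), 0) - (0, sb x y) := by
      refine Prod.ext ?_ ?_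
      · show _ = _ - (0 : X 1 (RatFunc K))
        rw [sub_zero]
      · show - sb x y = (0 : D (RatFunc K)) - sb x y
        rw [zero_sub]
    rw [h2, map_sub, sub_eq_zero] at h1
    exact h1
  · intro x
    exact hg _ (Or.inl (Or.inl (Or.inl (Or.inl (Or.inl (Or.inl ⟨x, rfl⟩))))))
  · intro x y
    have h1 := hg _ (Or.inl (Or.inl (Or.inl (Or.inl (Or.inl (Or.inr ⟨x, y, rfl⟩))))))
    rw [hadd] at h1
    exact eq_neg_of_add_eq_zero_left h1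
  · intro y
    refine ⟨⟨fun x => N.mkQ ((0, sb x y) : C1 (RatFunc K)), ?_, ?_, ?_, ?_, ?_⟩, fun x => rfl⟩
    · exact hg _ (Or.inl (Or.inl (Or.inl (Or.inl (Or.inr ⟨y, rfl⟩)))))
    · exact hg _ (Or.inl (Or.inl (Or.inl (Or.inr ⟨y, rfl⟩))))
    · intro x
      have h1 := hg _ (Or.inl (Or.inl (Or.inr ⟨x, y, rfl⟩)))
      rw [hadd] at h1
      exact eq_neg_of_add_eq_zero_right h1
    · intro x
      have h1 := hg _ (Or.inl (Or.inr ⟨x, y, rfl⟩))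
      rw [hadd] at h1
      exact eq_neg_of_add_eq_zero_right h1
    · intro x x' hx hx1 hx' hx1' hne
      have h1 := hg _ (Or.inr ⟨x, x', y, hx, hx1, hx', hx1', hne, rfl⟩)
      rw [hadd, hsub, hadd, hsub] at h1
      exact h1

theorem rl2 (hS : SRG.Adm S p.d) (hP : p.P ∉ S) (hV : IsPt p V) (hQ : QD S)
    (c : C1 (RatFunc K)) (hc : c ∈ CZ (RatFunc K)) (hy : c.1 ∈ LvP p S)
    (hσ : c.2 ∈ DL (insert p.P S)) (hr : reX V 0 c.1 ∈ Z0 0 k) :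
    ∃ c' ∈ CL S, c - c' ∈ St (RatFunc K) := by
  obtain ⟨N, hN⟩ : ∃ N : Submodule ℚ (C1 (RatFunc K)), N = CL S ⊔ St (RatFunc K) := ⟨_, rfl⟩
  have hN1 : CL S ≤ N := by rw [hN]; exact le_sup_left
  have hN2 : St (RatFunc K) ≤ N := by rw [hN]; exact le_sup_right
  have hfs := Rl2_fs N hN2
  have hkl : KL S (N.mkQ ∘ₗ LinearMap.inl ℚ (X 1 (RatFunc K)) (D (RatFunc K)))
      (fun x y => N.mkQ ((0, sb x y) : C1 (RatFunc K))) := by
    refine ⟨fun z hz => ?_, fun x y hx hy => ?_⟩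
    · show N.mkQ ((z, 0) : C1 (RatFunc K)) = 0
      rw [Submodule.mkQ_apply, Submodule.Quotient.mk_eq_zero]
      exact hN1 (Submodule.mem_prod.2 ⟨hz, Submodule.zero_mem _⟩)
    · rw [Submodule.mkQ_apply, Submodule.Quotient.mk_eq_zero]
      exact hN1 (Submodule.mem_prod.2 ⟨Submodule.zero_mem _, Submodule.subset_span ⟨x, y, hx, hy, rfl⟩⟩)
  obtain ⟨ω, w1', w2', w3'⟩ := exists_omega hS hP hV hQ hfs hkl
  have hf := hf_of_omega hfs hkl ω w1' w2' w3'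
  have e1 := hf_zero hS hP hV hf hy hσ hc hr
  have e2 : dl (fun x y => N.mkQ ((0, sb x y) : C1 (RatFunc K)) - ω (dS (RatFunc K) (sb x y))) =
      N.mkQ ∘ₗ LinearMap.inr ℚ (X 1 (RatFunc K)) (D (RatFunc K)) - ω ∘ₗ dS (RatFunc K) := by
    refine D_ext fun x y => ?_
    rw [dl_sb]
    rfl
  rw [e2] at e1
  have e3 : ω (d3 1 c.1 + dS (RatFunc K) c.2) = 0 := w1' _ (mem_CZ.1 hc)
  have e4 : N.mkQ c = 0 := by
    have e5 : N.mkQ ((c.1, 0) : C1 (RatFunc K)) - ω (d3 1 c.1) +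
        (N.mkQ ((0, c.2) : C1 (RatFunc K)) - ω (dS (RatFunc K) c.2)) = 0 := e1
    have e6 : c = ((c.1, 0) : C1 (RatFunc K)) + (0, c.2) :=
      Prod.ext (add_zero _).symm (zero_add _).symm
    rw [map_add] at e3
    rw [e6, map_add]
    have e7 : N.mkQ ((c.1, 0) : C1 (RatFunc K)) + N.mkQ ((0, c.2) : C1 (RatFunc K)) =
        (N.mkQ ((c.1, 0) : C1 (RatFunc K)) - ω (d3 1 c.1) +
        (N.mkQ ((0, c.2) : C1 (RatFunc K)) - ω (dS (RatFunc K) c.2))) +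
        (ω (d3 1 c.1) + ω (dS (RatFunc K) c.2)) := by abel
    rw [e7, e5, e3, add_zero]
  rw [Submodule.mkQ_apply, Submodule.Quotient.mk_eq_zero, hN] at e4
  obtain ⟨c', hc', t, ht, hct⟩ := Submodule.mem_sup.1 e4
  refine ⟨c', hc', ?_⟩
  rw [← hct, add_sub_cancel_left]
  exact ht

end

end GD3
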