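import Pool.Agent.GD3.Gl2
import Pool.Agent.GD3.Rl2
import Pool.Agent.GD3.Fr
import Pool.Agent.QPL.RecFin
import Pool.Agent.TGF.Pt

set_option autoImplicit false

/-!
# GD3-Rec1: reciprocity for formal cocycles of linear level

The chains satisfying reciprocity form a subspace `Rec1_R`, which contains the null chains, the first components of the elements of `St`, the
constants and the products of a linear polynomial with a constant chain.  Induction on the finite set of linear primes: the entries are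
replaced by entries of height at most one (`gl_fin`), the residue at the prime is removed, and `rl2` gives a cochain of smaller level.
-/

noncomputable section

open Polynomial TensorProduct
open scoped Classical

namespace GD3

open Helper14.Gon Helper14.W4 QPL TGF

universe u

section
variable {K : Type u} [Field K]

/-! ### finite stages -/

private def Rec1_ok (n : ℕ) (T : Finset K[X]) : Prop :=
  ∀ Q ∈ T, Q.Monic ∧ Irreducible Q ∧ Q.natDegree = n

private lemma Rec1_ok_empty (n : ℕ) : Rec1_ok n (∅ : Finset K[X]) :=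
  fun Q hQ => absurd hQ (Finset.notMem_empty Q)

private lemma Rec1_ok_union {n : ℕ} {T T' : Finset K[X]} (h : Rec1_ok n T) (h' : Rec1_ok n T') :
    Rec1_ok n (T ∪ T') := fun Q hQ => (Finset.mem_union.1 hQ).elim (h Q) (h' Q)

private lemma Rec1_sub_left (n : ℕ) (T T' : Finset K[X]) :
    SRG.lt K n ∪ (T : Set K[X]) ⊆ SRG.lt K n ∪ ((T ∪ T' : Finset K[X]) : Set K[X]) :=
  Set.union_subset_union_right _ (Finset.coe_subset.2 Finset.subset_union_left)

private lemma Rec1_sub_right (n : ℕ) (T T' : Finset K[X]) :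
    SRG.lt K n ∪ (T' : Set K[X]) ⊆ SRG.lt K n ∪ ((T ∪ T' : Finset K[X]) : Set K[X]) :=
  Set.union_subset_union_right _ (Finset.coe_subset.2 Finset.subset_union_right)

private lemma Rec1_sm (n : ℕ) {A : K[X]} (hA : A ≠ 0) (hs : SRG.Sm (SRG.lt K (n + 1)) A) :
    ∃ T : Finset K[X], Rec1_ok n T ∧ SRG.Sm (SRG.lt K n ∪ (T : Set K[X])) A := by
  refine ⟨((UniqueFactorizationMonoid.normalizedFactors A).toFinset).filter
    (fun Q => Q.Monic ∧ Irreducible Q ∧ Q.natDegree = n), fun Q hQ =>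
      (Finset.mem_filter.1 hQ).2, Or.inr fun Q hQm hQi hQA => ?_⟩
  rcases hs with h0 | hs
  · exact absurd h0 hA
  have h1 : Q.natDegree < n + 1 := (hs Q hQm hQi hQA).2.2
  rcases Nat.lt_succ_iff_lt_or_eq.1 h1 with h2 | h2
  · exact Or.inl ⟨hQm, hQi, h2⟩
  · right
    refine Finset.mem_coe.2 (Finset.mem_filter.2 ⟨?_, hQm, hQi, h2⟩)
    rw [Multiset.mem_toFinset, UniqueFactorizationMonoid.mem_normalizedFactors_iff' hA]
    exact ⟨hQi, hQm.normalize_eq_self, hQA⟩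

private lemma Rec1_SG (n : ℕ) {v : Additive (RatFunc K)ˣ} (hv : v ∈ SG (SRG.lt K (n + 1))) :
    ∃ T : Finset K[X], Rec1_ok n T ∧ v ∈ SG (SRG.lt K n ∪ (T : Set K[X])) := by
  induction hv using AddSubgroup.closure_induction with
  | mem v hv =>
    obtain ⟨A, hA, hA', rfl⟩ := hv
    obtain ⟨T, hT, hT'⟩ := Rec1_sm n hA hA'
    exact ⟨T, hT, SG_pl hA hT'⟩
  | zero => exact ⟨∅, Rec1_ok_empty n, AddSubgroup.zero_mem _⟩
  | add v w _ _ hv hw =>
    obtain ⟨T, hT, hT'⟩ := hv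
    obtain ⟨U, hU, hU'⟩ := hw
    exact ⟨T ∪ U, Rec1_ok_union hT hU, AddSubgroup.add_mem _ (SG_mono (Rec1_sub_left n T U) hT')
      (SG_mono (Rec1_sub_right n T U) hU')⟩
  | neg v _ hv =>
    obtain ⟨T, hT, hT'⟩ := hv
    exact ⟨T, hT, AddSubgroup.neg_mem _ hT'⟩

private lemma Rec1_El (n : ℕ) {x : RatFunc K} (hx : El (SRG.lt K (n + 1)) x) :
    ∃ T : Finset K[X], Rec1_ok n T ∧ El (SRG.lt K n ∪ (T : Set K[X])) x := by
  obtain ⟨T1, a1, b1⟩ := Rec1_SG n hx.1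
  obtain ⟨T2, a2, b2⟩ := Rec1_SG n hx.2
  exact ⟨T1 ∪ T2, Rec1_ok_union a1 a2, SG_mono (Rec1_sub_left n T1 T2) b1,
    SG_mono (Rec1_sub_right n T1 T2) b2⟩

private lemma Rec1_DL_mono {S S' : Set K[X]} (h : S ⊆ S') : DL S ≤ DL S' := by
  refine Submodule.span_mono ?_
  rintro z ⟨x, y, hx, hy, rfl⟩
  exact ⟨x, y, El_mono h hx, El_mono h hy, rfl⟩

private lemma Rec1_DL (n : ℕ) {z : D (RatFunc K)} (hz : z ∈ DL (SRG.lt K (n + 1))) :
    ∃ T : Finset K[X], Rec1_ok n T ∧ z ∈ DL (SRG.lt K n ∪ (T : Set K[X])) := by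
  induction hz using Submodule.span_induction with
  | mem z hz =>
    obtain ⟨x, y, hx, hy, rfl⟩ := hz
    obtain ⟨T1, a1, b1⟩ := Rec1_El n hx
    obtain ⟨T2, a2, b2⟩ := Rec1_El n hy
    exact ⟨T1 ∪ T2, Rec1_ok_union a1 a2, Submodule.subset_span
      ⟨x, y, El_mono (Rec1_sub_left n T1 T2) b1, El_mono (Rec1_sub_right n T1 T2) b2, rfl⟩⟩
  | zero => exact ⟨∅, Rec1_ok_empty n, Submodule.zero_mem _⟩
  | add a b _ _ ha hb =>
    obtain ⟨T, hT, hT'⟩ := ha
    obtain ⟨U, hU, hU'⟩ := hb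
    exact ⟨T ∪ U, Rec1_ok_union hT hU, Submodule.add_mem _
      (Rec1_DL_mono (Rec1_sub_left n T U) hT') (Rec1_DL_mono (Rec1_sub_right n T U) hU')⟩
  | smul c a _ ha =>
    obtain ⟨T, hT, hT'⟩ := ha
    exact ⟨T, hT, Submodule.smul_mem _ c hT'⟩

private lemma Rec1_CL (n : ℕ) {c : C1 (RatFunc K)} (hc : c ∈ CL (SRG.lt K (n + 1))) :
    ∃ T : Finset K[X], Rec1_ok n T ∧ c ∈ CL (SRG.lt K n ∪ (T : Set K[X])) := by
  obtain ⟨T1, a1, b1⟩ := Lv_fin 1 n hc.1
  obtain ⟨T2, a2, b2⟩ := Rec1_DL n hc.2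
  exact ⟨T1 ∪ T2, Rec1_ok_union a1 a2, Lv_mono 1 (Rec1_sub_left n T1 T2) b1,
    Rec1_DL_mono (Rec1_sub_right n T1 T2) b2⟩

/-! ### the chains satisfying reciprocity -/

private def Rec1_R (V : K → AC (RatFunc K) K) (V' : AC (RatFunc K) K) :
    Submodule ℚ (X 1 (RatFunc K)) where
  carrier := {z | ∃ s : Finset K, (∀ a, a ∉ s → reX (V a) 0 z = 0) ∧
    ∑ a ∈ s, reX (V a) 0 z + reX V' 0 z ∈ NX 0 K}
  zero_mem' := ⟨∅, fun a _ => map_zero _, by
    rw [Finset.sum_empty, map_zero, add_zero]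
    exact Submodule.zero_mem _⟩
  add_mem' := by
    rintro x y ⟨s, hs, hs'⟩ ⟨t, ht, ht'⟩
    refine ⟨s ∪ t, fun a ha => ?_, ?_⟩
    · rw [Finset.mem_union, not_or] at ha
      rw [map_add, hs a ha.1, ht a ha.2, add_zero]
    · have h1 : ∑ a ∈ s, reX (V a) 0 x = ∑ a ∈ s ∪ t, reX (V a) 0 x :=
        Finset.sum_subset Finset.subset_union_left fun a _ ha => hs a ha
      have h2 : ∑ a ∈ t, reX (V a) 0 y = ∑ a ∈ s ∪ t, reX (V a) 0 y :=
        Finset.sum_subset Finset.subset_union_right fun a _ ha => ht a ha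
      have h3 : ∑ a ∈ s ∪ t, reX (V a) 0 (x + y) + reX V' 0 (x + y) =
          (∑ a ∈ s, reX (V a) 0 x + reX V' 0 x) + (∑ a ∈ t, reX (V a) 0 y + reX V' 0 y) := by
        rw [h1, h2, map_add]
        simp only [map_add]
        rw [Finset.sum_add_distrib]
        abel
      rw [h3]
      exact Submodule.add_mem _ hs' ht'
  smul_mem' := by
    rintro q x ⟨s, hs, hs'⟩
    refine ⟨s, fun a ha => by rw [map_smul, hs a ha, smul_zero], ?_⟩
    have h : ∑ a ∈ s, reX (V a) 0 (q • x) + reX V' 0 (q • x) =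
        q • (∑ a ∈ s, reX (V a) 0 x + reX V' 0 x) := by
      rw [map_smul]
      simp only [map_smul]
      rw [← Finset.smul_sum, smul_add]
    rw [h]
    exact Submodule.smul_mem _ q hs'

private lemma Rec1_of {V : K → AC (RatFunc K) K} {V' : AC (RatFunc K) K} (hV : ∀ a, IsAt a (V a))
    {z : X 1 (RatFunc K)} (h : ∀ a, reX (V a) 0 z ∈ NX 0 K) (h' : reX V' 0 z ∈ NX 0 K) :
    z ∈ Rec1_R V V' := by
  obtain ⟨s, hs⟩ := reX_fin V hV 0 z
  exact ⟨s, hs, Submodule.add_mem _ (Submodule.sum_mem _ fun a _ => h a) h'⟩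

private lemma Rec1_C (a : K) :
    algebraMap K[X] (RatFunc K) (C a) = (RatFunc.C : K →+* RatFunc K) a :=
  RatFunc.algebraMap_C a

private lemma Rec1_at {a : K} {W : AC (RatFunc K) K} (hW : IsAt a W) (x : K) (hx : x ≠ 0) :
    (W.comap (RatFunc.C : K →+* RatFunc K)).v x = 0 ∧
      (W.comap (RatFunc.C : K →+* RatFunc K)).lc x = (RingHom.id K) x := by
  have hC : (C x : K[X]) ≠ 0 := C_ne_zero.2 hx
  have hr : (C x : K[X]).rootMultiplicity a = 0 := by
    refine rootMultiplicity_eq_zero ?_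
    rw [IsRoot.def, eval_C]
    exact hx
  constructor
  · change W.v (RatFunc.C x) = 0
    rw [← Rec1_C, hW.v _ hC, hr, Nat.cast_zero]
  · change W.lc (RatFunc.C x) = x
    rw [← Rec1_C, hW.lc _ hC, hr, pow_zero, divByMonic_one, eval_C]

private lemma Rec1_inf {W : AC (RatFunc K) K} (hW : IsInf W) (x : K) (hx : x ≠ 0) :
    (W.comap (RatFunc.C : K →+* RatFunc K)).v x = 0 ∧
      (W.comap (RatFunc.C : K →+* RatFunc K)).lc x = (RingHom.id K) x := by
  have hC : (C x : K[X]) ≠ 0 := C_ne_zero.2 hx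
  constructor
  · change W.v (RatFunc.C x) = 0
    rw [← Rec1_C, hW.v _ hC, natDegree_C, Nat.cast_zero, neg_zero]
  · change W.lc (RatFunc.C x) = x
    rw [← Rec1_C, hW.lc _ hC, leadingCoeff_C]

private lemma Rec1_sp {W : AC (RatFunc K) K}
    (h : ∀ x : K, x ≠ 0 → (W.comap (RatFunc.C : K →+* RatFunc K)).v x = 0 ∧
      (W.comap (RatFunc.C : K →+* RatFunc K)).lc x = (RingHom.id K) x) (j : ℕ) (z : X j K) :
    spX W j (mX j (RatFunc.C : K →+* RatFunc K) z) = z := by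
  rw [← spX_comap, spX_triv _ (RingHom.id K) h, mX_id]

private lemma Rec1_re {W : AC (RatFunc K) K}
    (h : ∀ x : K, x ≠ 0 → (W.comap (RatFunc.C : K →+* RatFunc K)).v x = 0 ∧
      (W.comap (RatFunc.C : K →+* RatFunc K)).lc x = (RingHom.id K) x) (j : ℕ) (z : X (j + 1) K) :
    reX W j (mX (j + 1) (RatFunc.C : K →+* RatFunc K) z) = 0 := by
  rw [← reX_comap, reX_triv _ _ h]

private lemma Rec1_const {V : K → AC (RatFunc K) K} {V' : AC (RatFunc K) K}
    (hV : ∀ a, IsAt a (V a)) (hV' : IsInf V') (z : X 1 K) :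
    mX 1 (RatFunc.C : K →+* RatFunc K) z ∈ Rec1_R V V' := by
  refine Rec1_of hV (fun a => ?_) ?_
  · rw [Rec1_re (Rec1_at (hV a))]
    exact Submodule.zero_mem _
  · rw [Rec1_re (Rec1_inf hV')]
    exact Submodule.zero_mem _

private lemma Rec1_ne (a : K) : algebraMap K[X] (RatFunc K) (Polynomial.X - C a) ≠ 0 :=
  RatFunc.algebraMap_ne_zero (X_sub_C_ne_zero a)

private lemma Rec1_lin {V : K → AC (RatFunc K) K} {V' : AC (RatFunc K) K}
    (hV : ∀ a, IsAt a (V a)) (hV' : IsInf V') (a : K) (z : X 0 K) :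
    wX 0 (lg (algebraMap K[X] (RatFunc K) (Polynomial.X - C a)))
      (mX 0 (RatFunc.C : K →+* RatFunc K) z) ∈ Rec1_R V V' := by
  have h1 : ∀ b : K, reX (V b) 0 (wX 0 (lg (algebraMap K[X] (RatFunc K) (Polynomial.X - C a)))
      (mX 0 (RatFunc.C : K →+* RatFunc K) z)) = (if b = a then (1 : ℚ) else 0) • z := by
    intro b
    rw [reX_wX_zero, Rec1_sp (Rec1_at (hV b)), TGF.vH_lg _ (Rec1_ne a),
      (hV b).v _ (X_sub_C_ne_zero a), rootMultiplicity_X_sub_C]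
    split_ifs
    · rw [Nat.cast_one]
    · rw [Nat.cast_zero]
  refine ⟨{a}, fun b hb => ?_, ?_⟩
  · rw [h1, if_neg (fun h => hb (Finset.mem_singleton.2 h)), zero_smul]
  · rw [Finset.sum_singleton, h1, if_pos rfl, reX_wX_zero, Rec1_sp (Rec1_inf hV'),
      TGF.vH_lg _ (Rec1_ne a), hV'.v _ (X_sub_C_ne_zero a), natDegree_X_sub_C, Nat.cast_one, one_smul,
      neg_smul, one_smul, add_neg_cancel]
    exact Submodule.zero_mem _

/-! ### constants -/

private lemma Rec1_lgC (S : Set K[X]) (x : K) : lg ((RatFunc.C : K →+* RatFunc K) x) ∈ SG S := by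
  by_cases hx : x = 0
  · rw [hx, map_zero, lg_zero]
    exact AddSubgroup.zero_mem _
  · rw [← Rec1_C]
    refine SG_pl (C_ne_zero.2 hx) (Or.inr fun Q _ hQi hQA => ?_)
    exact absurd (isUnit_of_dvd_unit hQA (isUnit_C.2 (IsUnit.mk0 x hx))) hQi.not_isUnit

private lemma Rec1_ElC (S : Set K[X]) (x : K) : El S ((RatFunc.C : K →+* RatFunc K) x) := by
  refine ⟨Rec1_lgC S x, ?_⟩
  have h : 1 - (RatFunc.C : K →+* RatFunc K) x = (RatFunc.C : K →+* RatFunc K) (1 - x) := by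
    rw [map_sub, map_one]
  rw [h]
  exact Rec1_lgC S _

private lemma Rec1_HtC (n : ℕ) (x : K) : Ht n ((RatFunc.C : K →+* RatFunc K) x) := by
  refine ⟨C x, 1, one_ne_zero, ?_, ?_, ?_⟩
  · rw [natDegree_C]
    exact Nat.zero_le n
  · rw [natDegree_one]
    exact Nat.zero_le n
  · rw [map_one, div_one, Rec1_C]

private lemma Rec1_w1 (v : Additive (RatFunc K)ˣ) (ω : Tx 0 (RatFunc K)) :
    wT 0 v ω = e0 (RatFunc K) ω • w1 v := by
  conv_lhs => rw [← e0_inj ω]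
  rw [map_smul]
  rfl

/-! ### chains with entries of height one -/

private lemma Rec1_ins {S : Set K[X]} (p : SRG.Pl K K) (hP : p.P ∉ S) : SG (insert p.P S) ≤
    SG S ⊔ AddSubgroup.zmultiples (lg (algebraMap K[X] (RatFunc K) p.P)) := by
  intro v hv
  obtain ⟨m, w, hw, rfl⟩ := SG_insert p hP hv
  rw [add_comm]
  exact AddSubgroup.mem_sup.2 ⟨w, hw, m • lg (algebraMap K[X] (RatFunc K) p.P),
    AddSubgroup.mem_zmultiples_iff.2 ⟨m, rfl⟩, rfl⟩

private lemma Rec1_lv {S : Set K[X]} (p : SRG.Pl K K) (hP : p.P ∉ S) (hd : p.d = 1)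
    (hg : ∀ z ∈ Lv 0 (insert p.P S), z ∈ Submodule.span ℚ {b : X 0 (RatFunc K) |
      ∃ x : RatFunc K, El (insert p.P S) x ∧ Ht 1 x ∧ b = bx x (u0 (RatFunc K))} ⊔
        NX 0 (RatFunc K)) : Lv 1 (insert p.P S) ≤ LvP p S ⊔ NX 1 (RatFunc K) := by
  refine Submodule.span_le.2 ?_
  rintro z ⟨x, ω, hx, hω, rfl⟩
  have h1 : bx x (u0 (RatFunc K)) ∈ Lv 0 (insert p.P S) :=
    Submodule.subset_span ⟨x, _, hx, TS_zero _ _, rfl⟩
  have h2 : Submodule.span ℚ {b : X 0 (RatFunc K) |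
      ∃ x : RatFunc K, El (insert p.P S) x ∧ Ht 1 x ∧ b = bx x (u0 (RatFunc K))} ⊔
        NX 0 (RatFunc K) ≤ (LvP p S ⊔ NX 1 (RatFunc K)).comap (mu 1 ω) := by
    refine sup_le (Submodule.span_le.2 ?_) fun z hz => Submodule.mem_sup_right (nx_mu 1 ω z hz)
    rintro b ⟨y, hy, hy', rfl⟩
    change mu 1 ω (bx y (u0 (RatFunc K))) ∈ LvP p S ⊔ NX 1 (RatFunc K)
    rw [mu_bx]
    obtain ⟨a, ha, b, -, rfl⟩ := TS_ins 0 (Rec1_ins p hP) hω
    rw [Rec1_w1, bx_add, bx_smul]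
    refine Submodule.mem_sup_left (Submodule.add_mem _ (Submodule.subset_span (Or.inl
      ⟨y, a, hy, ha, rfl⟩)) (Submodule.smul_mem _ _ (Submodule.subset_span (Or.inr
      ⟨y, hy, ?_, rfl⟩))))
    rw [hd]
    exact hy'
  have h3 : mu 1 ω (bx x (u0 (RatFunc K))) ∈ LvP p S ⊔ NX 1 (RatFunc K) := h2 (hg _ h1)
  rw [mu_bx] at h3
  exact h3

private lemma Rec1_cl {S : Set K[X]} (p : SRG.Pl K K) (z : X 0 K) :
    wX 0 (lg (algebraMap K[X] (RatFunc K) p.P)) (mX 0 (RatFunc.C : K →+* RatFunc K) z) ∈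
      LvP p S := by
  induction z using x_ind with
  | h0 =>
    rw [map_zero, map_zero]
    exact Submodule.zero_mem _
  | hadd a b ha hb =>
    rw [map_add, map_add]
    exact Submodule.add_mem _ ha hb
  | h1 x ω =>
    rw [mX_bx, wX_bx, Rec1_w1, bx_smul]
    exact Submodule.smul_mem _ _ (Submodule.subset_span (Or.inr
      ⟨_, Rec1_ElC _ x, Rec1_HtC _ x, rfl⟩))

private lemma Rec1_cz {v : Additive (RatFunc K)ˣ} {α : X 0 K} (hα : α ∈ ZX 0 K) :
    ((wX 0 v (mX 0 (RatFunc.C : K →+* RatFunc K) α), 0) : C1 (RatFunc K)) ∈ CZ (RatFunc K) := by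
  rw [mem_CZ]
  have h1 : mX 0 (RatFunc.C : K →+* RatFunc K) α ∈ ZX 0 (RatFunc K) :=
    L2.map_Z K (RatFunc K) (RatFunc.C : K →+* RatFunc K) 0 α hα
  have h2 : wX 0 v (mX 0 (RatFunc.C : K →+* RatFunc K) α) ∈ ZX 1 (RatFunc K) :=
    L2.cup_Z (RatFunc K) 0 v _ h1
  change d3 1 (wX 0 v (mX 0 (RatFunc.C : K →+* RatFunc K) α)) + dS (RatFunc K) 0 ∈
    Rel 2 (RatFunc K)
  rw [map_zero, add_zero]
  exact h2

/-! ### the induction -/

private theorem Rec1_main
    (hU : ∀ (V : AC (RatFunc K) K) (x y : RatFunc K), x ≠ 0 → x ≠ 1 → y ≠ 0 → y ≠ 1 → x ≠ y →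
      reX V 0 (star 0 x y (u0 (RatFunc K))) ∈ NX 0 K)
    (V : K → AC (RatFunc K) K) (V' : AC (RatFunc K) K) (hV : ∀ a, IsAt a (V a))
    (hV' : IsInf V') (T : Finset K[X]) : Rec1_ok 1 T → ∀ c : C1 (RatFunc K),
      c ∈ CZ (RatFunc K) → c ∈ CL (SRG.lt K 1 ∪ (T : Set K[X])) → c.1 ∈ Rec1_R V V' := by
  have hst : ∀ t : C1 (RatFunc K), t ∈ St (RatFunc K) → t.1 ∈ Rec1_R V V' := fun t ht =>
    Rec1_of hV (fun a => st_res (V a) (hU (V a)) ht) (st_res V' (hU V') ht)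
  induction T using Finset.induction_on with
  | empty =>
    intro _ c _ hl
    have h0 : SRG.lt K 1 ∪ ((∅ : Finset K[X]) : Set K[X]) ⊆ SRG.lt K 0 := by
      rintro Q (hQ | hQ)
      · have h1 : 0 < Q.natDegree := hQ.2.1.natDegree_pos
        exact absurd hQ.2.2 (by omega)
      · exact absurd hQ (Finset.notMem_empty Q)
    obtain ⟨z, hz⟩ := Lv_const 1 (Lv_mono 1 h0 hl.1)
    rw [hz]
    exact Rec1_const hV hV' z
  | insert Q T hQT ih =>
    intro hT c hc hl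
    obtain ⟨hQm, hQi, hQd⟩ := hT Q (Finset.mem_insert_self Q T)
    have hT' : Rec1_ok 1 T := fun Q' hQ' => hT Q' (Finset.mem_insert_of_mem hQ')
    obtain ⟨a, ha⟩ : ∃ a : K, Q = Polynomial.X - C a := by
      refine ⟨-Q.coeff 0, ?_⟩
      rw [map_neg, sub_neg_eq_add]
      exact hQm.eq_X_add_C hQd
    obtain ⟨p, hpP, hpr⟩ : ∃ p : SRG.Pl K K, p.P = Q ∧ p.r = evalRingHom a :=
      ⟨⟨Q, hQm, hQi, evalRingHom a, fun x => ⟨C x, by rw [coe_evalRingHom, eval_C]⟩, fun A => by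
        rw [coe_evalRingHom, ha, dvd_iff_isRoot]
        rfl⟩, rfl, rfl⟩
    have hpd : p.d = 1 := by
      change p.P.natDegree = 1
      rw [hpP, hQd]
    have hPS : p.P ∉ SRG.lt K 1 ∪ (T : Set K[X]) := by
      rw [hpP]
      rintro (h | h)
      · exact absurd h.2.2 (by omega)
      · exact hQT h
    have hAdm : SRG.Adm (SRG.lt K 1 ∪ (T : Set K[X])) p.d := by
      rw [hpd]
      refine ⟨?_, ?_, ?_, ?_⟩
      · rintro Q' (h | h)
        · exact h.1
        · exact (hT' Q' h).1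
      · rintro Q' (h | h)
        · exact h.2.1
        · exact (hT' Q' h).2.1
      · rintro Q' (h | h)
        · exact h.2.2.le
        · exact (hT' Q' h).2.2.le
      · intro Q' h1 h2 h3
        exact Or.inl ⟨h1, h2, h3⟩
    have hPt : IsPt p (V a) := by
      have hne : (Polynomial.X - C a : K[X]) ≠ 0 := X_sub_C_ne_zero a
      have hm : (Polynomial.X - C a : K[X]).rootMultiplicity a = 1 := by
        rw [rootMultiplicity_X_sub_C, if_pos rfl]
      have hroot : ∀ A : K[X], ¬ p.P ∣ A → A ≠ 0 ∧ A.rootMultiplicity a = 0 := by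
        intro A hA
        refine ⟨?_, rootMultiplicity_eq_zero fun h => hA ?_⟩
        · rintro rfl
          exact hA (dvd_zero _)
        · rw [hpP, ha]
          exact dvd_iff_isRoot.2 h
      refine ⟨?_, ?_, fun A hA => ?_, fun A hA => ?_⟩
      · rw [hpP, ha, (hV a).v _ hne, hm, Nat.cast_one]
      · rw [hpP, ha, (hV a).lc _ hne, hm, pow_one]
        have h1 : (Polynomial.X - C a : K[X]) /ₘ (Polynomial.X - C a) = 1 := by
          have h2 := mul_divByMonic_cancel_left (1 : K[X]) (monic_X_sub_C a)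
          rw [mul_one] at h2
          exact h2
        rw [h1, eval_one]
      · rw [(hV a).v _ (hroot A hA).1, (hroot A hA).2, Nat.cast_zero]
      · rw [(hV a).lc _ (hroot A hA).1, (hroot A hA).2, pow_zero, divByMonic_one, hpr]
        rfl
    have hQD : QD (SRG.lt K 1 ∪ (T : Set K[X])) := qd_of_exL (exL_stage 1 T hT')
    have hins : SRG.lt K 1 ∪ ((insert Q T : Finset K[X]) : Set K[X]) =
        insert p.P (SRG.lt K 1 ∪ (T : Set K[X])) := by
      rw [Finset.coe_insert, Set.union_insert, hpP]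
    have hgl := gl_fin (insert Q T) hT
    rw [hins] at hl hgl
    obtain ⟨y, hy, w, hw, hyw⟩ := Submodule.mem_sup.1 (Rec1_lv p hPS hpd hgl hl.1)
    have hwSt : ((w, 0) : C1 (RatFunc K)) ∈ St (RatFunc K) :=
      Submodule.subset_span (Or.inl (Or.inl ⟨w, hw, rfl⟩))
    have hc2 : ((y, c.2) : C1 (RatFunc K)) ∈ CZ (RatFunc K) := by
      have h1 : ((y, c.2) : C1 (RatFunc K)) = c - (w, 0) := by
        refine Prod.ext ?_ ?_
        · change y = c.1 - w
          rw [← hyw, add_sub_cancel_right]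
        · change c.2 = c.2 - 0
          rw [sub_zero]
      rw [h1]
      exact Submodule.sub_mem _ hc (st_cz hwSt)
    have hα0 := cz_res (V a) hc2
    have hα : reX (V a) 0 y ∈ ZX 0 K := hα0
    obtain ⟨α, hαe⟩ : ∃ α, α = reX (V a) 0 y := ⟨_, rfl⟩
    rw [← hαe] at hα
    obtain ⟨t, ht⟩ : ∃ t, t = wX 0 (lg (algebraMap K[X] (RatFunc K) p.P))
      (mX 0 (RatFunc.C : K →+* RatFunc K) α) := ⟨_, rfl⟩
    have htP : t ∈ LvP p (SRG.lt K 1 ∪ (T : Set K[X])) := by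
      rw [ht]
      exact Rec1_cl p α
    have htZ : ((t, 0) : C1 (RatFunc K)) ∈ CZ (RatFunc K) := by
      rw [ht]
      exact Rec1_cz hα
    have htR : t ∈ Rec1_R V V' := by
      rw [ht, hpP, ha]
      exact Rec1_lin hV hV' a α
    have hc3 : ((y - t, c.2) : C1 (RatFunc K)) ∈ CZ (RatFunc K) := by
      have h1 : ((y - t, c.2) : C1 (RatFunc K)) = (y, c.2) - (t, 0) := by
        refine Prod.ext rfl ?_
        change c.2 = c.2 - 0
        rw [sub_zero]
      rw [h1]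
      exact Submodule.sub_mem _ hc2 htZ
    have hr : reX (V a) 0 (y - t) ∈ Z0 0 K := by
      have h1 : reX (V a) 0 t = α := by
        rw [ht, reX_wX_zero, Rec1_sp (Rec1_at (hV a)), TGF.vH_lg _ (RatFunc.algebraMap_ne_zero
          p.irr.ne_zero), hPt.vP, one_smul]
      rw [map_sub, h1, hαe, sub_self]
      exact Submodule.zero_mem _
    obtain ⟨c', hc', hcc⟩ := rl2 hAdm hPS hPt hQD ((y - t, c.2) : C1 (RatFunc K)) hc3
      (Submodule.sub_mem _ hy htP) hl.2 hr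
    have hc'Z : c' ∈ CZ (RatFunc K) := by
      have h1 : c' = ((y - t, c.2) : C1 (RatFunc K)) - (((y - t, c.2) : C1 (RatFunc K)) - c') := by
        rw [sub_sub_cancel]
      rw [h1]
      exact Submodule.sub_mem _ hc3 (st_cz hcc)
    have h1 : c'.1 ∈ Rec1_R V V' := ih hT' c' hc'Z hc'
    have h2 : (((y - t, c.2) : C1 (RatFunc K)) - c').1 ∈ Rec1_R V V' := hst _ hcc
    have h3 : c.1 = (((y - t, c.2) : C1 (RatFunc K)) - c').1 + c'.1 + t + w := by
      rw [← hyw]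
      change y + w = (y - t - c'.1) + c'.1 + t + w
      abel
    rw [h3]
    exact Submodule.add_mem _ (Submodule.add_mem _ (Submodule.add_mem _ h2 h1) htR) (hst _ hwSt)

theorem rec1 (c : C1 (RatFunc K)) (hc : c ∈ CZ (RatFunc K)) (hl : c ∈ CL (SRG.lt K 2))
    (hU : ∀ (V : AC (RatFunc K) K) (x y : RatFunc K), x ≠ 0 → x ≠ 1 → y ≠ 0 → y ≠ 1 → x ≠ y →
      reX V 0 (star 0 x y (u0 (RatFunc K))) ∈ NX 0 K)
    (V : K → AC (RatFunc K) K) (V' : AC (RatFunc K) K) (hV : ∀ a, IsAt a (V a))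
    (hV' : IsInf V') : ∃ s : Finset K, (∀ a, a ∉ s → reX (V a) 0 c.1 = 0) ∧
      ∑ a ∈ s, reX (V a) 0 c.1 + reX V' 0 c.1 ∈ NX 0 K := by
  obtain ⟨T, hT, hT'⟩ := Rec1_CL 1 hl
  exact Rec1_main hU V V' hV hV' T hT c hc hT'

end

end GD3
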