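import Pool.Agent.GD3.Defs2

set_option autoImplicit false

/-!
# GD3-Spl: closed fields: polynomials of small degree split

PLAN.  lt_cl: Q monic irreducible of degree < n; it has a root (CLd), so degree 1 (Polynomial.degree_eq_one_of_irreducible_of_root).  SRG.lt L n = monic irreducible polynomials of degree < n.
sm_cl: A monic irreducible divisor Q of A ≠ 0 has degree ≤ deg A < n, so it is in lt L 2.
root_cl: f over N (CLd n N), f ≠ 0 of degree < n, i : N → Nb a field extension, y ∈ Nb a root of f: y = i c for some c ∈ N: f splits over N (induction on the degree: divide by X - C x, f = (X - C x) g, or use sm_cl: f is a product of a constant and linear factors).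
-/

noncomputable section

open Polynomial TensorProduct
open scoped Classical

namespace GD3

open Helper14.Gon Helper14.W4 QPL TGF

universe u

section

theorem lt_cl {L : Type u} [Field L] {n : ℕ} (h : CLd n L) {Q : L[X]} (hQ : Q ∈ SRG.lt L n) :
    Q ∈ SRG.lt L 2 := by
  obtain ⟨h1, h2, h3⟩ := hQ
  obtain ⟨x, hx⟩ := h Q h2.natDegree_pos h3
  have h4 : Q.degree = 1 := Polynomial.degree_eq_one_of_irreducible_of_root h2 hx
  have h5 : Q.natDegree = 1 := Polynomial.natDegree_eq_of_degree_eq_some h4
  exact ⟨h1, h2, by rw [h5]; exact one_lt_two⟩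

theorem sm_cl {L : Type u} [Field L] {n : ℕ} (h : CLd n L) {A : L[X]} (hA : A.natDegree < n) :
    SRG.Sm (SRG.lt L 2) A := by
  by_cases hA0 : A = 0
  · exact Or.inl hA0
  · refine Or.inr fun Q hQ1 hQ2 hQ3 => lt_cl h ⟨hQ1, hQ2, ?_⟩
    exact lt_of_le_of_lt (Polynomial.natDegree_le_of_dvd hQ3 hA0) hA

private theorem spl_root {N Nb : Type u} [Field N] [Field Nb] {n : ℕ} (h : CLd n N)
    (i : N →+* Nb) (y : Nb) : ∀ (m : ℕ) (f : N[X]), f.natDegree = m → f ≠ 0 →
    f.natDegree < n → f.eval₂ i y = 0 → ∃ c : N, i c = y := by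
  intro m
  induction m using Nat.strong_induction_on with
  | _ m ih =>
    intro f hm hf hd hy
    have hpos : 0 < f.natDegree := by
      rcases Nat.eq_zero_or_pos f.natDegree with h0 | h0
      · exfalso
        rw [Polynomial.eq_C_of_natDegree_eq_zero h0, Polynomial.eval₂_C] at hy
        have h1 : f.coeff 0 = 0 := (map_eq_zero i).1 hy
        apply hf
        rw [Polynomial.eq_C_of_natDegree_eq_zero h0, h1, Polynomial.C_0]
      · exact h0
    obtain ⟨x, hx⟩ := h f hpos hd
    obtain ⟨g, hg⟩ := Polynomial.dvd_iff_isRoot.2 hx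
    have hg0 : g ≠ 0 := by
      intro h0
      apply hf
      rw [hg, h0, mul_zero]
    have hdeg : f.natDegree = 1 + g.natDegree := by
      rw [hg, Polynomial.natDegree_mul (Polynomial.X_sub_C_ne_zero x) hg0,
        Polynomial.natDegree_X_sub_C]
    rw [hg, Polynomial.eval₂_mul, Polynomial.eval₂_sub, Polynomial.eval₂_X,
      Polynomial.eval₂_C] at hy
    rcases mul_eq_zero.1 hy with h1 | h1
    · exact ⟨x, (sub_eq_zero.1 h1).symm⟩
    · exact ih g.natDegree (by omega) g rfl hg0 (by omega) h1

theorem root_cl {N Nb : Type u} [Field N] [Field Nb] {n : ℕ} (h : CLd n N) (i : N →+* Nb)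
    (f : N[X]) (hf : f ≠ 0) (hd : f.natDegree < n) (y : Nb) (hy : f.eval₂ i y = 0) :
    ∃ c : N, i c = y :=
  spl_root h i y f.natDegree f rfl hf hd hy

end

end GD3
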