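import Pool.Agent.GD3.Nx
import Pool.Agent.TGF.Rl2

set_option autoImplicit false

/-!
# GD3-Un: star elements are unramified

PLAN.  For every valuation V : AC L k and x, y ≠ 0, 1, x ≠ y in L: the residue of star 0 x y u0 is null.  Notation: a bar for V.lc, v for V.v; reX V 0 (bx z (w1 λ)) = v(λ) [z̄] if v z = 0 (or z = 0), else 0 (reX_bx, reT_wT_zero, spT of u0 is u0).
star = ([C] - [D] - [x] - [y] + [1]) G + [G] C + [1-x] y - [1-y] x with C = x/y, D = y(1-x)/(x(1-y)) = G/C, G = (1-x)/(1-y).  NX 0 k contains [0], [ξ] - [1/ξ] (nx_inv) and [ξ] + [1-ξ] + [1-1/ξ] - [1] (nx_three).  Distinguish v x, v y and v(1-x), v(1-y):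
each of x, y has one of the types: zero (v x > 0), pole (v x < 0, then v(1-x) = v x, lc(1-x) = - lc x), 1-unit (v x = 0, v(1-x) > 0, x̄ = 1) and generic unit (v x = v (1-x) = 0, 1 - x̄ = lc (1-x), AC.add_lt, add_ne, add_eq).
By the symmetry star x y ↔ star y x (up to NX 1, or just do the cases).  v(G) = v(1-x) - v(1-y), v(C) = v x - v y, v(y), v(x) are the multiplicities.
generic, generic: all multiplicities are 0 except when.. none: v(C) = v(G) = 0: residue 0.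
zero, generic (v x = i > 0): multiplicity of G is 0; [G] C gives i [Ḡ], Ḡ = 1/(1-ȳ), [1-x] y: 0, - [1-y] x gives - i [1-ȳ]: total i([1/(1-ȳ)] - [1-ȳ]), null by nx_inv.
zero (i), zero (j): G = 1-unit, v(G) = 0, [Ḡ] = [1] with multiplicity i - j, [1] j - [1] i: total 0.
1-unit (v(1-x) = i), generic: v(G) = i: i([C̄] - 0 - [1] - [ȳ] + [1]), C̄ = 1/ȳ; D has v = i ≠ 0; [G]: v(G) ≠ 0: 0 ; [1-x] y: 0; - [1-y] x: v x = 0: 0.  Total i([1/ȳ] - [ȳ]): null.
1-unit (i), zero (v y = j): v(G) = i: C has v = -j ≠ 0: 0; D: v = j + i: 0; - [1] i; [y]: v y ≠ 0: 0; + [1] i; [G] C: 0; [1-x] y: v(1-x) ≠ 0: 0 ; - [1-y] x: 0.  Total 0.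
1-unit (i), 1-unit (j): v(G) = i - j =: m; m([1] - [D̄ if m = 0] - [1] - [1] + [1]) = 0 for m ≠ 0 (then v D = m ≠ 0), and m = 0 gives 0; other terms v C = 0, v y = v x = 0.  Total 0.
pole (v x = -i), generic: v(1-x) = -i, G: v = -i; C: v = -i; D = G/C: v = 0, D̄ = (lc(1-x)/lc x) ȳ/(1-ȳ) = - ȳ/(1-ȳ); -i( - [D̄] - [ȳ] + [1]) + 0 + 0 - [1-ȳ] (-i): i([D̄] + [ȳ] - [1] + [1-ȳ]), D̄ = -ȳ/(1-ȳ) = 1/(1 - 1/ȳ): [D̄] ~ [1 - 1/ȳ]: three-term: null.
pole (i), zero (v y = j): v G = -i, v C = -i-j, v D = j: -i(0 - 0 - 0 - 0 + [1]) + 0 + [1-x]: v ≠ 0: 0 - [1] (-i) = 0.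
pole (i), 1-unit (v(1-y) = j): v G = -i-j, v C = -i, v D = -j: (-i-j)( - [1] + [1]) + 0 + 0 (v y = 0) - 0 = 0.
pole (i), pole (j): v G = j - i =: m, v C = m, D: v = 0, D̄ = 1: if m ≠ 0: m(0 - [1] - 0 - 0 + [1]) + 0 + 0 - 0 = 0; if m = 0 everything is 0 (the terms [1-x] y have v(1-x) ≠ 0).
The remaining cases (x generic and y special, etc.) are treated in the same way (x ↔ y exchanges C ↔ 1/C, D ↔ 1/D, G ↔ 1/G).  When an entry such as C̄ is 1 nothing special happens.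
-/

noncomputable section

open Polynomial TensorProduct
open scoped Classical

namespace GD3

open Helper14.Gon Helper14.W4 QPL TGF

universe u

section
variable {k : Type u} [Field k]

/-- the chain `[l]` if `q = 0` -/
private def un_E (q : ℚ) (l : k) : X 0 k := if q = 0 then bx l (u0 k) else 0

private lemma un_E0 (l : k) : un_E 0 l = bx l (u0 k) := if_pos rfl

private lemma un_En {q : ℚ} (h : q ≠ 0) (l : k) : un_E q l = 0 := if_neg h

private def un_T (v w : ℚ) (l m : k) : Prop :=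
  (0 < v ∧ w = 0 ∧ m = 1) ∨ (v < 0 ∧ w = v ∧ m = -l) ∨ (v = 0 ∧ 0 < w ∧ l = 1) ∨
    (v = 0 ∧ w = 0 ∧ l ≠ 1 ∧ m = 1 - l)

private def un_S (v w v' w' : ℚ) (l m l' m' : k) : X 0 k :=
  (w - w') • (un_E (v - v') (l / l') - un_E (v' + w - (v + w')) (l' * m / (l * m')) - un_E v l -
    un_E v' l' + un_E 0 1) + (v - v') • un_E (w - w') (m / m') + v' • un_E w m - v • un_E w' m'

private lemma un_inv {l : k} (hl : l ≠ 0) (q : ℚ) :
    q • (bx l⁻¹ (u0 k) - bx l (u0 k)) ∈ NX 0 k := by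
  refine Submodule.smul_mem _ _ ?_
  have h := nx_inv 0 l hl (u0 k)
  have h2 := (NX 0 k).neg_mem h
  rwa [neg_sub] at h2

private lemma un_Einv {q : ℚ} {l : k} (hl : l ≠ 0) : un_E q l - un_E (-q) l⁻¹ ∈ NX 0 k := by
  by_cases h : q = 0
  · subst h
    rw [neg_zero, un_E0, un_E0]
    exact nx_inv 0 l hl (u0 k)
  · rw [un_En h, un_En (neg_ne_zero.2 h), sub_zero]
    exact Submodule.zero_mem _

private lemma un_swap {v w v' w' : ℚ} {l m l' m' : k} (hl : l ≠ 0) (hm : m ≠ 0) (hl' : l' ≠ 0)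
    (hm' : m' ≠ 0) (h : un_S v w v' w' l m l' m' ∈ NX 0 k) : un_S v' w' v w l' m' l m ∈ NX 0 k := by
  have h1 : un_S v' w' v w l' m' l m + un_S v w v' w' l m l' m' ∈ NX 0 k := by
    have e : un_S v' w' v w l' m' l m + un_S v w v' w' l m l' m' =
        (w - w') • (un_E (v - v') (l / l') - un_E (-(v - v')) (l / l')⁻¹) -
        (w - w') • (un_E (v' + w - (v + w')) (l' * m / (l * m')) -
          un_E (-(v' + w - (v + w'))) (l' * m / (l * m'))⁻¹) +
        (v - v') • (un_E (w - w') (m / m') - un_E (-(w - w')) (m / m')⁻¹) := by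
      have e1 : (l / l')⁻¹ = l' / l := inv_div l l'
      have e2 : (m / m')⁻¹ = m' / m := inv_div m m'
      have e3 : (l' * m / (l * m'))⁻¹ = l * m' / (l' * m) := inv_div _ _
      have e4 : -(v - v') = v' - v := by ring
      have e5 : -(w - w') = w' - w := by ring
      have e6 : -(v' + w - (v + w')) = v + w' - (v' + w) := by ring
      rw [e1, e2, e3, e4, e5, e6, un_S, un_S]
      module
    rw [e]
    refine Submodule.add_mem _ (Submodule.sub_mem _ ?_ ?_) ?_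
    · exact Submodule.smul_mem _ _ (un_Einv (div_ne_zero hl hl'))
    · exact Submodule.smul_mem _ _ (un_Einv (div_ne_zero (mul_ne_zero hl' hm) (mul_ne_zero hl hm')))
    · exact Submodule.smul_mem _ _ (un_Einv (div_ne_zero hm hm'))
  have h2 := Submodule.sub_mem _ h1 h
  rwa [add_sub_cancel_right] at h2

private lemma un_eq0 {a : X 0 k} (h : a = 0) : a ∈ NX 0 k := by
  rw [h]
  exact Submodule.zero_mem _

/-- generic, generic -/
private lemma un_gg {v w v' w' : ℚ} {l m l' m' : k} (h1 : v = 0) (h2 : w = 0) (h3 : v' = 0)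
    (h4 : w' = 0) : un_S v w v' w' l m l' m' ∈ NX 0 k := by
  subst h1 h2 h3 h4
  refine un_eq0 ?_
  rw [un_S]
  simp only [sub_self, zero_smul, add_zero]

/-- zero, generic -/
private lemma un_zg {v w v' w' : ℚ} {l m l' m' : k} (h2 : w = 0) (hm : m = 1)
    (h3 : v' = 0) (h4 : w' = 0) (hm' : m' ≠ 0) : un_S v w v' w' l m l' m' ∈ NX 0 k := by
  subst h2 h3 h4 hm
  have e : un_S v 0 0 0 l 1 l' m' = v • (bx m'⁻¹ (u0 k) - bx m' (u0 k)) := by
    rw [un_S]
    simp only [sub_self, zero_smul, sub_zero, zero_add, un_E0, one_div, add_zero, smul_sub]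
  rw [e]
  exact un_inv hm' v

/-- zero, zero -/
private lemma un_zz {v w v' w' : ℚ} {l m l' m' : k} (h2 : w = 0) (hm : m = 1)
    (h4 : w' = 0) (hm' : m' = 1) : un_S v w v' w' l m l' m' ∈ NX 0 k := by
  subst h2 h4 hm hm'
  refine un_eq0 ?_
  rw [un_S]
  simp only [sub_self, zero_smul, zero_add, un_E0, div_one]
  module

/-- one-unit, generic -/
private lemma un_ug {v w v' w' : ℚ} {l m l' m' : k} (h1 : v = 0) (h2 : 0 < w) (hl : l = 1)
    (h3 : v' = 0) (h4 : w' = 0) (hl' : l' ≠ 0) : un_S v w v' w' l m l' m' ∈ NX 0 k := by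
  subst h1 h3 h4 hl
  have e : un_S 0 w 0 0 1 m l' m' = w • (bx l'⁻¹ (u0 k) - bx l' (u0 k)) := by
    rw [un_S]
    simp only [sub_self, zero_smul, sub_zero, zero_add, un_E0, one_div, add_zero, un_En h2.ne']
    module
  rw [e]
  exact un_inv hl' w

/-- one-unit, zero -/
private lemma un_uz {v w v' w' : ℚ} {l m l' m' : k} (h1 : v = 0) (h2 : 0 < w) (hl : l = 1)
    (h3 : 0 < v') (h4 : w' = 0) : un_S v w v' w' l m l' m' ∈ NX 0 k := by
  subst h1 h4 hl
  refine un_eq0 ?_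
  have e1 : (0 : ℚ) - v' ≠ 0 := by
    intro h
    linarith
  have e2 : v' + w - (0 + 0) ≠ 0 := by
    intro h
    linarith
  have e3 : w - 0 ≠ 0 := by
    intro h
    linarith
  rw [un_S, un_En e1, un_En e2, un_En e3, un_En h3.ne', un_En h2.ne', un_E0]
  module

/-- one-unit, one-unit -/
private lemma un_uu {v w v' w' : ℚ} {l m l' m' : k} (h1 : v = 0) (h2 : 0 < w) (hl : l = 1)
    (h3 : v' = 0) (h4 : 0 < w') (hl' : l' = 1) : un_S v w v' w' l m l' m' ∈ NX 0 k := by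
  subst h1 h3 hl hl'
  refine un_eq0 ?_
  rw [un_S, sub_self, un_E0, un_E0, un_En h2.ne', un_En h4.ne', div_one, zero_add, zero_add]
  by_cases h : w - w' = 0
  · rw [h]
    module
  · rw [un_En h, un_En h]
    module

/-- pole, generic -/
private lemma un_pg {v w v' w' : ℚ} {l m l' m' : k} (h1 : v < 0) (h2 : w = v) (hm : m = -l)
    (hl : l ≠ 0) (h3 : v' = 0) (h4 : w' = 0) (hl' : l' ≠ 0) (hl1 : l' ≠ 1) (hm' : m' = 1 - l') :
    un_S v w v' w' l m l' m' ∈ NX 0 k := by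
  subst h2 h3 h4 hm hm'
  have hs : (1 : k) - l' ≠ 0 := sub_ne_zero.2 (Ne.symm hl1)
  have hq : (1 : k) - l'⁻¹ ≠ 0 := by
    rw [sub_ne_zero]
    intro h
    apply hl1
    rw [← inv_inv l', ← h, inv_one]
  have e0 : l' * -l / (l * (1 - l')) = (1 - l'⁻¹)⁻¹ := by
    rw [div_eq_iff (mul_ne_zero hl hs)]
    have h5 : (1 - l'⁻¹) * l' = l' - 1 := by
      rw [sub_mul, one_mul, inv_mul_cancel₀ hl']
    have h6 : (1 - l'⁻¹)⁻¹ * (l' - 1) = l' := by
      rw [← h5, ← mul_assoc, inv_mul_cancel₀ hq, one_mul]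
    calc l' * -l = (1 - l'⁻¹)⁻¹ * (l' - 1) * -l := by rw [h6]
      _ = (1 - l'⁻¹)⁻¹ * (l * (1 - l')) := by ring
  have e : un_S w w 0 0 l (-l) l' (1 - l') =
      (-w) • ((bx l' (u0 k) + bx (1 - l') (u0 k) + bx (1 - l'⁻¹) (u0 k) - bx 1 (u0 k)) +
        (bx (1 - l'⁻¹)⁻¹ (u0 k) - bx (1 - l'⁻¹) (u0 k))) := by
    have e1 : w - 0 ≠ 0 := by
      intro h
      linarith
    have e2 : (0 : ℚ) + w - (w + 0) = 0 := by ring
    rw [un_S, e0, un_En e1, un_En e1, un_En h1.ne, un_En h1.ne, e2, un_E0, un_E0, un_E0, un_E0]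
    module
  rw [e]
  refine Submodule.smul_mem _ _ (Submodule.add_mem _ (nx_three 0 l' hl' hl1 (u0 k)) ?_)
  have h7 := un_inv hq (1 : ℚ)
  rwa [one_smul] at h7

/-- pole, zero -/
private lemma un_pz {v w v' w' : ℚ} {l m l' m' : k} (h1 : v < 0) (h2 : w = v)
    (h3 : 0 < v') (h4 : w' = 0) (hm' : m' = 1) :
    un_S v w v' w' l m l' m' ∈ NX 0 k := by
  subst h2 h4 hm'
  refine un_eq0 ?_
  have e1 : w - v' ≠ 0 := by
    intro h
    linarith
  have e2 : v' + w - (w + 0) ≠ 0 := by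
    intro h
    linarith
  have e3 : w - 0 ≠ 0 := by
    intro h
    linarith
  rw [un_S, un_En e1, un_En e2, un_En e3, un_En h1.ne, un_En h3.ne', un_En h1.ne, un_E0]
  module

/-- pole, one-unit -/
private lemma un_pu {v w v' w' : ℚ} {l m l' m' : k} (h1 : v < 0) (h2 : w = v)
    (h3 : v' = 0) (h4 : 0 < w') (hl' : l' = 1) :
    un_S v w v' w' l m l' m' ∈ NX 0 k := by
  subst h2 h3 hl'
  refine un_eq0 ?_
  have e1 : w - 0 ≠ 0 := by
    intro h
    linarith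
  have e2 : 0 + w - (w + w') ≠ 0 := by
    intro h
    linarith
  have e3 : w - w' ≠ 0 := by
    intro h
    linarith
  rw [un_S, un_En e1, un_En e2, un_En e3, un_En h1.ne, un_En h1.ne, un_En h4.ne', un_E0]
  module

/-- pole, pole -/
private lemma un_pp {v w v' w' : ℚ} {l m l' m' : k} (h1 : v < 0) (h2 : w = v) (hm : m = -l)
    (hl : l ≠ 0) (h3 : v' < 0) (h4 : w' = v') (hl' : l' ≠ 0) (hm' : m' = -l') :
    un_S v w v' w' l m l' m' ∈ NX 0 k := by
  subst h2 h4 hm hm'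
  refine un_eq0 ?_
  have e0 : l' * -l / (l * -l') = 1 := by
    rw [div_eq_one_iff_eq (mul_ne_zero hl (neg_ne_zero.2 hl'))]
    ring
  have e2 : w' + w - (w + w') = 0 := by ring
  rw [un_S, e0, e2, un_En h1.ne, un_En h3.ne, un_En h1.ne, un_En h3.ne, un_E0]
  by_cases h : w - w' = 0
  · rw [h]
    module
  · rw [un_En h, un_En h]
    module

private lemma un_main {v w v' w' : ℚ} {l m l' m' : k} (hl : l ≠ 0) (hm : m ≠ 0) (hl' : l' ≠ 0)
    (hm' : m' ≠ 0) (h : un_T v w l m) (h' : un_T v' w' l' m') :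
    un_S v w v' w' l m l' m' ∈ NX 0 k := by
  rcases h with ⟨a1, a2, a3⟩ | ⟨a1, a2, a3⟩ | ⟨a1, a2, a3⟩ | ⟨a1, a2, a3, a4⟩
  · rcases h' with ⟨b1, b2, b3⟩ | ⟨b1, b2, b3⟩ | ⟨b1, b2, b3⟩ | ⟨b1, b2, b3, b4⟩
    · exact un_zz a2 a3 b2 b3
    · exact un_swap hl' hm' hl hm (un_pz b1 b2 a1 a2 a3)
    · exact un_swap hl' hm' hl hm (un_uz b1 b2 b3 a1 a2)
    · exact un_zg a2 a3 b1 b2 hm'
  · rcases h' with ⟨b1, b2, b3⟩ | ⟨b1, b2, b3⟩ | ⟨b1, b2, b3⟩ | ⟨b1, b2, b3, b4⟩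
    · exact un_pz a1 a2 b1 b2 b3
    · exact un_pp a1 a2 a3 hl b1 b2 hl' b3
    · exact un_pu a1 a2 b1 b2 b3
    · exact un_pg a1 a2 a3 hl b1 b2 hl' b3 b4
  · rcases h' with ⟨b1, b2, b3⟩ | ⟨b1, b2, b3⟩ | ⟨b1, b2, b3⟩ | ⟨b1, b2, b3, b4⟩
    · exact un_uz a1 a2 a3 b1 b2
    · exact un_swap hl' hm' hl hm (un_pu b1 b2 a1 a2 a3)
    · exact un_uu a1 a2 a3 b1 b2 b3
    · exact un_ug a1 a2 a3 b1 b2 hl'
  · rcases h' with ⟨b1, b2, b3⟩ | ⟨b1, b2, b3⟩ | ⟨b1, b2, b3⟩ | ⟨b1, b2, b3, b4⟩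
    · exact un_swap hl' hm' hl hm (un_zg b2 b3 a1 a2 hm)
    · exact un_swap hl' hm' hl hm (un_pg b1 b2 b3 hl' a1 a2 hl a3 a4)
    · exact un_swap hl' hm' hl hm (un_ug b1 b2 b3 a1 a2 hl)
    · exact un_gg a1 a2 b1 b2

end

section
variable {L k : Type u} [Field L] [Field k]

private lemma un_v_one (V : AC L k) : V.v 1 = 0 := by
  have h := V.v_mul (x := (1 : L)) (y := 1) one_ne_zero one_ne_zero
  rw [mul_one] at h
  linarith

private lemma un_neg (V : AC L k) {x : L} (hx : x ≠ 0) :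
    V.v (-x) = V.v x ∧ V.lc (-x) = - V.lc x := by
  have hn : (-1 : L) ≠ 0 := neg_ne_zero.2 one_ne_zero
  have h0 : V.v (-1) = 0 := by
    have h := V.v_mul (x := (-1 : L)) (y := -1) hn hn
    have h1 : (-1 : L) * -1 = 1 := by ring
    rw [h1, un_v_one] at h
    linarith
  have h1 : V.lc (-1) = -1 := by
    by_contra hne
    have h2 : V.lc 1 + V.lc (-1) ≠ 0 := by
      rw [map_one]
      intro h
      exact hne (eq_neg_of_add_eq_zero_right h)
    have h3 := (V.add_ne (x := (1 : L)) (y := -1) one_ne_zero hn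
      (by rw [un_v_one, h0]) h2).1
    exact h3 (add_neg_cancel 1)
  have e : -x = -1 * x := by ring
  refine ⟨?_, ?_⟩
  · rw [e, V.v_mul hn hx, h0, zero_add]
  · rw [e, map_mul, h1]
    ring

private lemma un_ty (V : AC L k) {x : L} (h0 : x ≠ 0) (hx1 : x ≠ 1) :
    un_T (V.v x) (V.v (1 - x)) (V.lc x) (V.lc (1 - x)) := by
  have hn : -x ≠ 0 := neg_ne_zero.2 h0
  obtain ⟨g1, g2⟩ := un_neg V h0
  rcases lt_trichotomy (V.v x) 0 with h | h | h
  · right
    left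
    have h1 := V.add_lt (x := -x) (y := 1) hn (Or.inr (by rw [g1, un_v_one]; exact h))
    have h2 : -x + 1 = 1 - x := by ring
    rw [h2, g1, g2] at h1
    exact ⟨h, h1.2.1, h1.2.2⟩
  · right
    right
    by_cases hl : V.lc x = 1
    · left
      refine ⟨h, ?_, hl⟩
      have h1 := V.add_eq (x := 1) (y := -x) one_ne_zero hn
        (by rw [g1, un_v_one, h]) (by rw [g2, map_one, hl, add_neg_cancel])
      rw [← sub_eq_add_neg, un_v_one] at h1
      rcases h1 with h2 | h2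
      · exact absurd (sub_eq_zero.1 h2).symm hx1
      · exact h2
    · right
      have h1 := V.add_ne (x := 1) (y := -x) one_ne_zero hn
        (by rw [g1, un_v_one, h])
        (by
          rw [g2, map_one]
          intro h3
          exact hl (add_neg_eq_zero.1 h3).symm)
      rw [← sub_eq_add_neg, un_v_one, g2, map_one, ← sub_eq_add_neg] at h1
      exact ⟨h, h1.2.1, hl, h1.2.2⟩
  · left
    have h1 := V.add_lt (x := 1) (y := -x) one_ne_zero
      (Or.inr (by rw [g1, un_v_one]; exact h))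
    rw [← sub_eq_add_neg, un_v_one, map_one] at h1
    exact ⟨h, h1.2.1, h1.2.2⟩

private lemma un_u0 (V : AC L k) : TGF.spT V 0 (u0 L) = u0 k := by
  rw [u0, u0, TGF.spT, tm_dm]
  congr 1
  funext i
  exact i.elim0

private lemma un_re (V : AC L k) {z a : L} (hz : z ≠ 0) (ha : a ≠ 0) :
    reX V 0 (bx z (wT 0 (lg a) (u0 L))) = V.v a • un_E (V.v z) (V.lc z) := by
  rw [reX_bx, TGF.reT_wT_zero, TGF.vH_lg V ha, un_u0, bx_smul]
  by_cases h : V.v z = 0
  · rw [if_pos (Or.inr h), h, un_E0]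
  · rw [if_neg (by rintro (h2 | h2); exacts [hz h2, h h2]), un_En h, smul_zero]

private lemma un_div (V : AC L k) {x y : L} (hx : x ≠ 0) (hy : y ≠ 0) :
    V.v (x / y) = V.v x - V.v y := by
  have h := V.v_mul (x := x / y) (y := y) (div_ne_zero hx hy) hy
  rw [div_mul_cancel₀ x hy] at h
  linarith

theorem star_unr (V : AC L k) {x y : L} (hx : x ≠ 0) (hx1 : x ≠ 1) (hy : y ≠ 0) (hy1 : y ≠ 1)
    (hxy : x ≠ y) : reX V 0 (star 0 x y (u0 L)) ∈ NX 0 k := by
  have sx : (1 : L) - x ≠ 0 := sub_ne_zero.2 (Ne.symm hx1)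
  have sy : (1 : L) - y ≠ 0 := sub_ne_zero.2 (Ne.symm hy1)
  have hC : x / y ≠ 0 := div_ne_zero hx hy
  have hG : (1 - x) / (1 - y) ≠ 0 := div_ne_zero sx sy
  have hD : y * (1 - x) / (x * (1 - y)) ≠ 0 := div_ne_zero (mul_ne_zero hy sx) (mul_ne_zero hx sy)
  have e : reX V 0 (star 0 x y (u0 L)) =
      un_S (V.v x) (V.v (1 - x)) (V.v y) (V.v (1 - y)) (V.lc x) (V.lc (1 - x)) (V.lc y)
        (V.lc (1 - y)) := by
    rw [TGF.star, map_sub, map_add, map_add, map_add, map_sub, map_sub, map_sub,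
      un_re V hC hG, un_re V hD hG, un_re V hx hG, un_re V hy hG, un_re V one_ne_zero hG,
      un_re V hG hC, un_re V sx hy, un_re V sy hx, un_div V hx hy, un_div V sx sy,
      un_div V (mul_ne_zero hy sx) (mul_ne_zero hx sy), V.v_mul hy sx, V.v_mul hx sy, un_v_one,
      map_one, map_div₀, map_div₀, map_div₀, map_mul, map_mul, un_S]
    module
  rw [e]
  exact un_main (V.lc_ne hx) (V.lc_ne sx) (V.lc_ne hy) (V.lc_ne sy) (un_ty V hx hx1) (un_ty V hy hy1)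

end

end GD3
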