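import Pool.Agent.GD3.Lm
import Pool.Agent.GD3.Spl
import Pool.Agent.GD3.Lift1
import Pool.Agent.GD3.Rec1
import Pool.Agent.GD3.Un
import Pool.Agent.QPL.TrA
import Pool.Agent.QPL.TrB
import Pool.Agent.QPL.TrC
import Pool.Agent.QPL.TrD
import Pool.Agent.QPL.TrE
import Pool.Agent.QPL.TrF

set_option autoImplicit false

/-!
# GD3-Desc: transfers for fields which are only closed in small degrees

PLAN.  sum_roots': QPL.sum_roots (QPL/TrG.lean) without the hypothesis IsAlgClosed Kb (not used in its proof), for th2 (TGF.L2 : Laws th2, th2.re = reX, th2.map = mX): copy the proof.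
tot_mem: for y : X 1 (RatFunc M) and S = insert p.P (lt M p.d) level: fiber_sum (QPL/TrF) with g a = reX (VA a) 0 (mX 1 (rm ι) y).
desc: strong induction on p.d for all k, p, T, w (as QPL/Tr.lean).  lift1 (V from exists_pt p) gives c; cL := mC (rm ι) c ∈ CZ (cz_map), ∈ CL (SRG.lt L 2) (lv_map, dl_map: every Q ∈ insert p.P (lt M p.d) has degree ≤ p.d, Q.map ι has degree < p.d + 1: sm_cl).  rec1 for cL with VA, VI, hU from star_unr:
the sum over s of the residues plus the residue at infinity is in NX 0 L.  Put Dm := (ZX 0 M).map (mX 0 ι) ⊔ NX 0 L.  fiber_sum with P0 = p.P: transcendental a: re_tr; P' ≠ p.P monic irreducible: closed point p' (exists_pl_irr), V' (exists_pt), if P' has no root in L the sum is empty; T' = the set of all embeddings over ι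
(finite: they correspond to the roots, emb_exists, emb_ext); if deg P' < p.d the sum is a multiple of Σ map y (reX V' 0 c.1), in Dm by the induction hypothesis (cz_res; CLd (p'.d + 1) L since p'.d + 1 ≤ p.d + 1) ; if deg P' ≥ p.d then P' is not in the level: reX V' 0 c.1 = 0 (reX_Lv).  Infinity: re_inf, cz_res.
So the sum over the roots of p.P is in Dm; sum_roots' and reX V 0 c.1 - w ∈ Z0 (null); divide by the multiplicity m > 0.
-/

noncomputable section

open Polynomial TensorProduct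
open scoped Classical

namespace GD3

open Helper14.Gon Helper14.W4 QPL TGF

universe u

section
variable {M k L : Type u} [Field M] [Field k] [Field L]

/-- the roots in `L` and the embeddings -/
private theorem Desc_mem (ι : M →+* L) (p : SRG.Pl M k) (a : L) :
    a ∈ (p.P.map ι).roots.toFinset ↔ p.P.eval₂ ι a = 0 := by
  rw [Multiset.mem_toFinset, mem_roots (p.monic.map ι).ne_zero, IsRoot.def, eval_map]

theorem sum_roots' (ι : M →+* L) (p : SRG.Pl M k) (V : AC (RatFunc M) k) (hV : IsPt p V)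
    (T : Finset (k →+* L)) (hT : ∀ y, y ∈ T ↔ y.comp (p.r.comp Polynomial.C) = ι)
    (z : X 1 (RatFunc M)) : ∃ m : ℕ, 0 < m ∧
      ∑ a ∈ (p.P.map ι).roots.toFinset, reX (VA a) 0 (mX 1 (rm ι) z) =
        (m : ℚ) • ∑ y ∈ T, mX 0 y (reX V 0 z) := by
  have h1 := sum_T p ι T hT (fun a => reX (VA a) 0 (mX 1 (rm ι) z))
  rcases T.eq_empty_or_nonempty with h0 | ⟨y0, hy0⟩
  · refine ⟨1, one_pos, ?_⟩
    rw [← h1, h0, Finset.sum_empty, Finset.sum_empty, smul_zero]
  · have hy0' := (hT y0).1 hy0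
    refine ⟨(p.P.map ι).rootMultiplicity (y0 (p.r X)),
      mult_pos p.P p.irr.ne_zero ι _ (emb_root p ι hy0'), ?_⟩
    rw [← h1, Finset.smul_sum]
    refine Finset.sum_congr rfl fun y hy => ?_
    have hy' := (hT y).1 hy
    have h2 : reX (VA (y (p.r X))) 0 (mX 1 (rm ι) z) =
        ((p.P.map ι).rootMultiplicity (y (p.r X)) : ℚ) • mX 0 y (reX V 0 z) :=
      re_alg th2 L2 ι p V hV (y (p.r X)) (VA (y (p.r X))) (VA_at _) y hy' rfl 0 z
    rw [mult_const p.P p.irr ι _ _ (emb_root p ι hy') (emb_root p ι hy0')] at h2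
    exact h2

theorem exists_T' (ι : M →+* L) (p : SRG.Pl M k) :
    ∃ T : Finset (k →+* L), ∀ y, y ∈ T ↔ y.comp (p.r.comp Polynomial.C) = ι := by
  have hex : ∀ a ∈ (p.P.map ι).roots.toFinset, ∃ y : k →+* L,
      y.comp (p.r.comp C) = ι ∧ y (p.r X) = a := fun a ha =>
    emb_exists p ι a ((Desc_mem ι p a).1 ha)
  choose f hf using hex
  refine ⟨(p.P.map ι).roots.toFinset.attach.image fun a => f a.1 a.2, fun y => ?_⟩
  rw [Finset.mem_image]
  constructor
  · rintro ⟨a, -, rfl⟩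
    exact (hf a.1 a.2).1
  · intro hy
    have hr := (Desc_mem ι p _).2 (emb_root p ι hy)
    refine ⟨⟨y (p.r X), hr⟩, Finset.mem_attach _ _, ?_⟩
    exact emb_ext p ι (hf _ hr).1 hy (hf _ hr).2

private lemma Desc_cld {m n : ℕ} (h : m ≤ n) {F : Type u} [Field F] (hF : CLd n F) : CLd m F :=
  fun f h0 h1 => hF f h0 (lt_of_lt_of_le h1 h)

private lemma Desc_tr (ι : M →+* L) (a : L) (ha : ∀ P : M[X], P ≠ 0 → P.eval₂ ι a ≠ 0)
    (z : X 1 (RatFunc M)) : reX (VA a) 0 (mX 1 (rm ι) z) = 0 :=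
  re_tr th2 L2 ι a (VA a) (VA_at a) ha 0 z

private lemma Desc_inf (ι : M →+* L) (z : X 1 (RatFunc M)) :
    reX VI 0 (mX 1 (rm ι) z) = mX 0 ι (reX VI 0 z) :=
  re_inf th2 L2 ι VI VI_inf VI VI_inf 0 z

private lemma Desc_cz (W : AC (RatFunc M) M) (c : C1 (RatFunc M)) (hc : c ∈ CZ (RatFunc M)) :
    reX W 0 c.1 ∈ ZX 0 M := cz_res W hc

private lemma Desc_czi (c : C1 (RatFunc M)) (hc : c ∈ CZ (RatFunc M)) :
    reX (VI : AC (RatFunc M) M) 0 c.1 ∈ ZX 0 M := Desc_cz VI c hc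

private lemma Desc_null {z : X 0 k} (hz : z ∈ Z0 0 k) : z ∈ NX 0 k := by
  rw [NX, Submodule.mem_comap, Z0_c3 hz]
  exact Submodule.zero_mem _

/-- the transfer, with the target as a submodule -/
private theorem Desc_aux (ι : M →+* L) (n : ℕ) : ∀ (k : Type u) [Field k] (p : SRG.Pl M k),
    p.P.natDegree = n → CLd (n + 1) L → ∀ (T : Finset (k →+* L)),
    (∀ y, y ∈ T ↔ y.comp (p.r.comp C) = ι) → ∀ w : X 0 k, w ∈ ZX 0 k →
      ∑ y ∈ T, mX 0 y w ∈ (ZX 0 M).map (mX 0 ι) ⊔ NX 0 L := by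
  induction n using Nat.strong_induction_on with
  | _ n ih =>
    intro k _ p hn hL T hT w hw
    set D : Submodule ℚ (X 0 L) := (ZX 0 M).map (mX 0 ι) ⊔ NX 0 L with hD
    have hND : ∀ x, x ∈ NX 0 L → x ∈ D := fun x hx => Submodule.mem_sup_right hx
    have hZD : ∀ x, x ∈ ZX 0 M → mX 0 ι x ∈ D := fun x hx =>
      Submodule.mem_sup_left (Submodule.mem_map_of_mem hx)
    obtain ⟨V, hV⟩ := TGF.exists_pt p
    obtain ⟨c, hc, -, hl1, hl2, hcw⟩ := lift1 hV w hw
    have hsm : ∀ Q ∈ insert p.P (SRG.lt M p.d), SRG.Sm (SRG.lt L 2) (Q.map ι) := by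
      intro Q hQ
      refine sm_cl hL ?_
      rw [natDegree_map]
      rcases Set.mem_insert_iff.1 hQ with rfl | h
      · omega
      · have h2 := h.2.2
        unfold SRG.Pl.d at h2
        omega
    obtain ⟨S, hS, hSN⟩ := rec1 (mC (rm ι) c) (cz_map (rm ι) hc)
      ⟨lv_map ι hsm 1 hl1, dl_map ι hsm hl2⟩
      (fun V x y h1 h2 h3 h4 h5 => star_unr V h1 h2 h3 h4 h5) VA VI VA_at VI_inf
    rw [mC_fst] at hSN
    have hS' : ∀ a, a ∉ S → reX (VA a) 0 (mX 1 (rm ι) c.1) = 0 := hS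
    have hinf : reX VI 0 (mX 1 (rm ι) c.1) ∈ D := by
      rw [Desc_inf ι c.1]
      exact hZD _ (Desc_czi c hc)
    have hsum : ∑ a ∈ S, reX (VA a) 0 (mX 1 (rm ι) c.1) ∈ D := by
      have h3 := D.sub_mem (hND _ hSN) hinf
      rw [add_sub_cancel_right] at h3
      exact h3
    have hfib := fiber_sum ι D.toAddSubgroup (fun a => reX (VA a) 0 (mX 1 (rm ι) c.1)) S hS'
      p.P p.monic p.irr (fun a ha => Desc_tr ι a ha c.1) (by
        intro P hm hi hne
        obtain ⟨k', _, p', rfl⟩ := exists_pl_irr P hm hi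
        obtain ⟨V', hV'⟩ := TGF.exists_pt p'
        obtain ⟨T', hT'⟩ := exists_T' ι p'
        obtain ⟨m, _, hm'⟩ := sum_roots' ι p' V' hV' T' hT' c.1
        change ∑ a ∈ (p'.P.map ι).roots.toFinset, reX (VA a) 0 (mX 1 (rm ι) c.1) ∈ D
        rw [hm']
        refine D.smul_mem _ ?_
        by_cases hd : p'.P.natDegree < n
        · exact ih _ hd k' p' rfl (Desc_cld (by omega) hL) T' hT' (reX V' 0 c.1) (cz_res V' hc)
        · have hnot : p'.P ∉ insert p.P (SRG.lt M p.d) := by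
            intro h
            rcases Set.mem_insert_iff.1 h with h | h
            · exact hne h
            · have h2 := h.2.2
              unfold SRG.Pl.d at h2
              omega
          rw [reX_Lv hV' hnot 0 hl1]
          have h0 : ∑ y ∈ T', mX 0 y (0 : X 0 k') = 0 :=
            Finset.sum_eq_zero fun y _ => map_zero _
          rw [h0]
          exact zero_mem _)
    have hroots : ∑ a ∈ (p.P.map ι).roots.toFinset, reX (VA a) 0 (mX 1 (rm ι) c.1) ∈ D := by
      have h1 := D.sub_mem hsum hfib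
      rw [sub_sub_cancel] at h1
      exact h1
    obtain ⟨m, hm, hm'⟩ := sum_roots' ι p V hV T hT c.1
    rw [hm'] at hroots
    have hmq : (m : ℚ) ≠ 0 := by exact_mod_cast hm.ne'
    have h4 : ∑ y ∈ T, mX 0 y (reX V 0 c.1) ∈ D := by
      have h5 := D.smul_mem (m : ℚ)⁻¹ hroots
      rw [smul_smul, inv_mul_cancel₀ hmq, one_smul] at h5
      exact h5
    have h6 : ∑ y ∈ T, mX 0 y (reX V 0 c.1) - ∑ y ∈ T, mX 0 y w ∈ D := by
      rw [← Finset.sum_sub_distrib]
      refine D.sum_mem fun y _ => ?_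
      rw [← map_sub]
      exact hND _ (L2.map_N _ _ y 0 _ (Desc_null hcw))
    have h7 := D.sub_mem h4 h6
    rw [sub_sub_cancel] at h7
    exact h7

theorem desc (p : SRG.Pl M k) (ι : M →+* L) (hL : CLd (p.d + 1) L) (T : Finset (k →+* L))
    (hT : ∀ y, y ∈ T ↔ y.comp (p.r.comp Polynomial.C) = ι) (w : X 0 k) (hw : w ∈ ZX 0 k) :
    ∃ s ∈ ZX 0 M, ∑ y ∈ T, mX 0 y w - mX 0 ι s ∈ NX 0 L := by
  obtain ⟨x, hx, y, hy, h⟩ := Submodule.mem_sup.1 (Desc_aux ι p.d k p rfl hL T hT w hw)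
  obtain ⟨s, hs, rfl⟩ := hx
  refine ⟨s, hs, ?_⟩
  rw [← h, add_sub_cancel_left]
  exact hy

end

end GD3
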