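import Pool.Agent.GD3.Defs
import Pool.Agent.TGF.Cp

set_option autoImplicit false

/-!
# GD3-Ex0: level-exactness in codegree one, j = 0

The induction over the levels of `TGF/Cp` with control of the level of the chain `A`: the chains
`A` which occur in the reduction lemma are combinations of terms `[x] μ` with `x` of level
`insert P S` and slots of level `S`.
-/

noncomputable section

open Polynomial TensorProduct
open scoped Classical

namespace GD3

open Helper14.Gon Helper14.W4 QPL TGF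

universe u

section
variable {K : Type u} [Field K]

private lemma ex0_insert {k : Type u} [Field k] {p : SRG.Pl K k} {V : AC (RatFunc K) k}
    {S : Set K[X]} (hS : SRG.Adm S p.d) (hP : p.P ∉ S) (hV : IsPt p V) (h : ExL S) :
    ExL (insert p.P S) := by
  intro y hy h2 hres
  obtain ⟨A1, hA1, y', hy', hrel⟩ := RL_core hS hP hV 0
    (Submodule.span ℚ {z | ∃ (x : RatFunc K) (μ : Tx 0 (RatFunc K)), El (insert p.P S) x ∧
      μ ∈ TS 0 (SG S) ∧ z = bx x μ})
    (fun x hx μ hμ => Submodule.subset_span ⟨x, μ, hx, hμ, rfl⟩)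
    (fun ψ _ _ x _ μ _ h0 => psi_ker_zero x h0) hy h2 (hres k p V hV (Set.mem_insert _ _))
  have hA1L : A1 ∈ Lv 0 (insert p.P S) := by
    refine (Submodule.span_le.2 ?_) hA1
    rintro z ⟨x, μ, hx, hμ, rfl⟩
    exact Submodule.subset_span ⟨x, μ, hx, TS_mono 0 (SG_mono (Set.subset_insert _ _)) hμ, rfl⟩
  have h2' : d2 1 y' = 0 := by
    have e := d2_rel 1 hrel
    rw [map_sub, map_sub, h2, d2_d3, sub_zero, zero_sub, neg_eq_zero] at e
    exact e
  have hres' : ∀ (k' : Type u) [Field k'] (p' : SRG.Pl K k') (V' : AC (RatFunc K) k'),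
      IsPt p' V' → p'.P ∈ S → reX V' 0 y' ∈ Rel 0 k' := by
    intro k' _ p' V' hV' hP'
    have e : y' = y - d3 0 A1 - (y - d3 0 A1 - y') := by abel
    rw [e, map_sub, map_sub, reX_d3_zero, sub_zero]
    exact Submodule.sub_mem _ (hres k' p' V' hV' (Set.mem_insert_of_mem _ hP'))
      (reX_rel V' 0 hrel)
  obtain ⟨A', hA', c, hc⟩ := h y' hy' h2' hres'
  refine ⟨A1 + A', Submodule.add_mem _ hA1L (Lv_mono 0 (Set.subset_insert _ _) hA'), c, ?_⟩
  have e : y - d3 0 (A1 + A') - mX 1 (RatFunc.C : K →+* RatFunc K) c =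
      (y - d3 0 A1 - y') + (y' - d3 0 A' - mX 1 (RatFunc.C : K →+* RatFunc K) c) := by
    rw [map_add]
    abel
  rw [e]
  exact Submodule.add_mem _ hrel hc

private lemma ex0_union (n : ℕ) (h : ExL (SRG.lt K n)) (T : Finset K[X])
    (hT : ∀ Q ∈ T, Q.Monic ∧ Irreducible Q ∧ Q.natDegree = n) :
    ExL (SRG.lt K n ∪ (T : Set K[X])) := by
  classical
  induction T using Finset.induction_on with
  | empty =>
    rw [Finset.coe_empty, Set.union_empty]
    exact h
  | insert Q T hQ ih =>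
    have ih' := ih fun R hR => hT R (Finset.mem_insert_of_mem hR)
    obtain ⟨hm, hi, hn⟩ := hT Q (Finset.mem_insert_self _ _)
    obtain ⟨k, _, p, hp⟩ := SRG.exists_plOf hm hi
    obtain ⟨V, hV⟩ := exists_pt p
    have hd : p.d = n := by
      rw [SRG.Pl.d, hp, hn]
    have hS : SRG.Adm (SRG.lt K n ∪ (T : Set K[X])) p.d := by
      rw [hd]
      refine ⟨?_, ?_, ?_, ?_⟩
      · rintro R (hR | hR)
        · exact hR.1
        · exact (hT R (Finset.mem_insert_of_mem hR)).1
      · rintro R (hR | hR)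
        · exact hR.2.1
        · exact (hT R (Finset.mem_insert_of_mem hR)).2.1
      · rintro R (hR | hR)
        · exact hR.2.2.le
        · exact (hT R (Finset.mem_insert_of_mem hR)).2.2.le
      · intro R h1 h2 h3
        exact Or.inl ⟨h1, h2, h3⟩
    have hPS : p.P ∉ SRG.lt K n ∪ (T : Set K[X]) := by
      rw [hp]
      rintro (h1 | h1)
      · exact absurd hn (h1.2.2).ne
      · exact hQ h1
    have e : SRG.lt K n ∪ ((insert Q T : Finset K[X]) : Set K[X]) =
        insert p.P (SRG.lt K n ∪ (T : Set K[X])) := by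
      rw [hp, Finset.coe_insert, Set.union_insert]
    rw [e]
    exact ex0_insert hS hPS hV ih'

private lemma ex0_lt (n : ℕ) : ExL (SRG.lt K n) := by
  induction n with
  | zero =>
    intro y hy _ _
    obtain ⟨c, hc⟩ := Lv_const 1 hy
    refine ⟨0, Submodule.zero_mem _, c, ?_⟩
    rw [map_zero, sub_zero, hc, sub_self]
    exact Submodule.zero_mem _
  | succ n ih =>
    intro y hy h2 hres
    obtain ⟨T, hT, hyT⟩ := Lv_fin 1 n hy
    have hsub : SRG.lt K n ∪ (T : Set K[X]) ⊆ SRG.lt K (n + 1) := by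
      rintro R (hR | hR)
      · exact ⟨hR.1, hR.2.1, hR.2.2.trans (Nat.lt_succ_self n)⟩
      · obtain ⟨h3, h4, h5⟩ := hT R hR
        exact ⟨h3, h4, h5 ▸ Nat.lt_succ_self _⟩
    obtain ⟨A, hA, c, hc⟩ := ex0_union n ih T hT y hyT h2
      (fun k _ p V hV hP => hres k p V hV (hsub hP))
    exact ⟨A, Lv_mono 0 hsub hA, c, hc⟩

theorem exL_stage (n : ℕ) (T : Finset K[X])
    (hT : ∀ Q ∈ T, Q.Monic ∧ Irreducible Q ∧ Q.natDegree = n) :
    ExL (SRG.lt K n ∪ (T : Set K[X])) :=
  ex0_union n (ex0_lt n) T hT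

theorem exL_lt (n : ℕ) : ExL (SRG.lt K n) := ex0_lt n

end

end GD3
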