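import Pool.Agent.GD3.Defs2
import Pool.Agent.TGF.S
import Pool.Agent.TGF.Cc

set_option autoImplicit false

/-!
# GD3-Gen3: generators of the null chains in B_3

PLAN.  NX 0 k = ker (c3 0) (bdry k 1 0 = ⊥).  Helper14.Gon: B 3 k = ZP k ⧸ R 3 k, R 3 k is the subgroup generated by {0}, {∞} and spec 0 α - spec 1 α, α ∈ A 3 (RatFunc k) (Helper14/Gon/Basic.lean, Iface).  Chains: the map ch : ZP k → X 0 k, [some x] ↦ bx x (u0 k), [none] ↦ 0.
c3 0 z = 0 ⇒ some positive integer multiple: z = Σ q_x bx x u0 (e0_inj), clear denominators: n z = ch ξ, ξ ∈ ZP k, and PB 3 0 (cl ξ) (u0) = 0 in ℚ ⊗ (B 3 ⊗ Λ^0) implies that the class of ξ in B 3 k is torsion: m ξ ∈ R 3 k (Helper14/W4 or QPL have this: see the proofs of QPL/CxMap.lean, base_R, RQ; TGF/S.lean ker_c2 is the analogue for B_2; Coh.lean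
line 212: Cx k 0 ≅ ℚ ⊗ B k).  AddSubgroup.closure_induction on R 3 k: {0} goes to Z0, {∞} to 0, α: β := ch α ∈ X 0 (RatFunc k): α ∈ A 3 = ker (deltaS (R 2)) : Σ n_i {f_i} ⊗ f_i = 0 in B_2 ⊗ F^*, so β ∈ ZX 0 (mem_ZX, dC 0 0 (c3 0 β) = 0, see Helper14/W4/H5 or RecX for cl and dC of PB), and
ch (spec 0 α) - ch (spec 1 α) - (spX W0 0 β - spX W1 0 β) ∈ Z0: for a single f: spec b (some f) = W_b.rd (some f) (IsAt.rd) = none if W.v f < 0, some (ini 0 f) otherwise: ini = 0 if W.v f > 0 (a multiple of [0], while spX gives 0), lc f if W.v f = 0.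
-/

noncomputable section

open Polynomial TensorProduct
open scoped Classical

namespace GD3

open Helper14.Gon Helper14.W4 QPL TGF

universe u v w

section
variable {F : Type u} [Field F]

/-- the chain of a point -/
private def g3_p : P1 F → X 0 F
  | none => 0
  | some x => bx x (u0 F)

/-- the chain of a formal combination of points -/
private def g3_ch : ZP F →+ X 0 F := ext g3_p

private lemma g3_ch_none : g3_ch (br (none : P1 F)) = 0 := by
  rw [g3_ch, ext_br]; rfl

private lemma g3_ch_some (x : F) : g3_ch (br (some x : P1 F)) = bx x (u0 F) := by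
  rw [g3_ch, ext_br]; rfl

/-- clearing denominators -/
private lemma g3_clear (z : X 0 F) : ∃ (N : ℤ) (ξ : ZP F), N ≠ 0 ∧ N • z = g3_ch ξ := by
  refine x_ind (fun z => ∃ (N : ℤ) (ξ : ZP F), N ≠ 0 ∧ N • z = g3_ch ξ) ?_ ?_ ?_ z
  · exact ⟨1, 0, one_ne_zero, by rw [map_zero, smul_zero]⟩
  · rintro a b ⟨N, ξ, hN, h1⟩ ⟨M, η, hM, h2⟩
    refine ⟨N * M, M • ξ + N • η, mul_ne_zero hN hM, ?_⟩
    rw [map_add, map_zsmul, map_zsmul, ← h1, ← h2, smul_add, smul_smul, smul_smul, mul_comm M N]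
  · intro x ω
    set q : ℚ := e0 F ω with hq
    have h1 : ω = q • u0 F := (e0_inj ω).symm
    refine ⟨(q.den : ℤ), q.num • br (some x), ?_, ?_⟩
    · exact_mod_cast q.den_ne_zero
    · rw [map_zsmul, g3_ch_some, h1, bx_smul, ← Int.cast_smul_eq_zsmul ℚ,
        ← Int.cast_smul_eq_zsmul ℚ, smul_smul]
      congr 1
      rw [mul_comm]
      have h2 := Rat.mul_den_eq_num q
      exact_mod_cast h2

private lemma g3_fst_add (a b : ZP F) : fst 3 (a + b) = fst 3 a + fst 3 b := by
  rw [fst, QuotientAddGroup.mk_add, add_tmul, toQ, tmul_add, fst, fst]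

private lemma g3_c3 (ξ : ZP F) : c3 0 (g3_ch ξ) = fst 3 ξ := by
  have h : ((c3 0 : X 0 F →ₗ[ℚ] Cx 3 0 F).toAddMonoidHom).comp g3_ch =
      AddMonoidHom.mk' (fun ξ : ZP F => fst 3 ξ) (fun a b => g3_fst_add a b) := by
    refine Helper14.Gon.hom_ext fun p => ?_
    change c3 0 (g3_ch (br p)) = fst 3 (br p)
    cases p with
    | none =>
      rw [g3_ch_none, map_zero]
      exact (fst_eq_zero (br_inf_mem 2)).symm
    | some x =>
      rw [g3_ch_some, c3_bx]
      exact PB_toQ 3 0 _ _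
  exact DFunLike.congr_fun h ξ

/-- the class of `ξ` is torsion -/
private lemma g3_tors {ξ : ZP F} (h : fst 3 ξ = 0) : ∃ M : ℤ, M ≠ 0 ∧ M • ξ ∈ R 3 F := by
  rw [fst, toQ_eq_zero] at h
  obtain ⟨M, hM, h1⟩ := h
  refine ⟨M, hM, ?_⟩
  let e : B 3 F ⊗[ℤ] Lam 0 F ≃ₗ[ℤ] B 3 F :=
    (LinearEquiv.lTensor (B 3 F) (exteriorPower.zeroEquiv ℤ (Additive Fˣ))).trans
      (TensorProduct.rid ℤ _)
  have h2 : ∀ b : B 3 F, e (b ⊗ₜ[ℤ] one0 F) = b := by
    intro b
    change TensorProduct.rid ℤ (B 3 F)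
      (b ⊗ₜ[ℤ] (exteriorPower.zeroEquiv ℤ (Additive Fˣ) (one0 F))) = b
    rw [one0, exteriorPower.zeroEquiv_ιMulti, TensorProduct.rid_tmul, one_smul]
  have h3 := congrArg e h1
  rw [map_zsmul, h2, map_zero] at h3
  exact (QuotientAddGroup.eq_zero_iff _).1 h3

end

section
variable {k : Type u} [Field k]

private lemma g3_spT {L : Type v} [Field L] (V : AC L k) : TGF.spT V 0 (u0 L) = u0 k := by
  have h := tm_dm 0 V.lH (Fin.elim0 : Fin 0 → Additive Lˣ)
  have e1 : (dm (Fin.elim0 : Fin 0 → Additive Lˣ) : Tx 0 L) = u0 L := rfl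
  have e2 : (fun i : Fin 0 => V.lH ((Fin.elim0 : Fin 0 → Additive Lˣ) i)) =
      (Fin.elim0 : Fin 0 → Additive kˣ) := funext fun i => i.elim0
  rw [e2, e1] at h
  exact h

/-- specialisation of a point, up to `Z0` -/
private lemma g3_sp {b : k} {W : AC (RatFunc k) k} (hW : IsAt b W) (α : ZP (RatFunc k)) :
    g3_ch (specZ b α) - spX W 0 (g3_ch α) ∈ Z0 0 k := by
  induction α using Finsupp.induction_linear with
  | zero =>
    rw [map_zero, map_zero, map_zero, map_zero, sub_zero]
    exact zero_mem _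
  | add f g hf hg =>
    rw [map_add, map_add, map_add, map_add, add_sub_add_comm]
    exact add_mem hf hg
  | single p m =>
    have h1 : (Finsupp.single p m : ZP (RatFunc k)) = m • br p := by
      change Finsupp.single p m = m • Finsupp.single p (1 : ℤ)
      rw [Finsupp.smul_single, smul_eq_mul, mul_one]
    have h2 : specZ b (br p) = br (spec b p) := specZ_single b p 1
    have h3 : g3_ch (br (spec b p)) - spX W 0 (g3_ch (br p)) ∈ Z0 0 k := by
      rw [← hW.rd]
      cases p with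
      | none =>
        rw [g3_ch_none, map_zero, sub_zero]
        change g3_ch (br (none : P1 k)) ∈ Z0 0 k
        rw [g3_ch_none]
        exact zero_mem _
      | some f =>
        rw [g3_ch_some, spX_bx, g3_spT]
        have h4 : W.rd (some f) = if f ≠ 0 ∧ W.v f < 0 then none else some (W.ini 0 f) := rfl
        by_cases hf : f = 0
        · have h5 : W.rd (some f) = some 0 := by
            rw [h4, if_neg (fun h => h.1 hf)]
            congr 1
            rw [AC.ini, if_neg (fun h => h.1 hf)]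
          rw [h5, g3_ch_some, if_pos (Or.inl hf), hf, map_zero, sub_self]
          exact zero_mem _
        rcases lt_trichotomy (W.v f) 0 with hv | hv | hv
        · rw [h4, if_pos ⟨hf, hv⟩, g3_ch_none, if_neg, sub_zero]
          · exact zero_mem _
          · rintro (h | h)
            · exact hf h
            · exact absurd h hv.ne
        · have h5 : W.rd (some f) = some (W.lc f) := by
            rw [h4, if_neg (fun h => absurd hv h.2.ne)]
            congr 1
            rw [AC.ini, if_pos ⟨hf, hv⟩]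
          rw [h5, g3_ch_some, if_pos (Or.inr hv), sub_self]
          exact zero_mem _
        · have h5 : W.rd (some f) = some 0 := by
            rw [h4, if_neg (fun h => absurd h.2 (not_lt.2 hv.le))]
            congr 1
            rw [AC.ini, if_neg (fun h => absurd h.2 hv.ne')]
          rw [h5, g3_ch_some, if_neg, sub_zero]
          · exact ⟨u0 k, rfl⟩
          · rintro (h | h)
            · exact hf h
            · exact absurd h hv.ne'
    have h6 : g3_ch (specZ b (m • br p)) - spX W 0 (g3_ch (m • br p)) =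
        m • (g3_ch (br (spec b p)) - spX W 0 (g3_ch (br p))) := by
      rw [zsmul_sub, map_zsmul, h2, map_zsmul, map_zsmul, map_zsmul]
    rw [h1, h6]
    exact zsmul_mem h3 m

private lemma g3_R (W0 W1 : AC (RatFunc k) k) (h0 : IsAt 0 W0) (h1 : IsAt 1 W1) {ξ : ZP k}
    (hξ : ξ ∈ R 3 k) : g3_ch ξ ∈ Submodule.span ℚ {η : X 0 k | ∃ β ∈ ZX 0 (RatFunc k),
      η = spX W0 0 β - spX W1 0 β} ⊔ Z0 0 k := by
  have h2 : R 3 k = relFrom (A 3 (RatFunc k)) := R_add_two 1
  rw [h2, relFrom] at hξ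
  induction hξ using AddSubgroup.closure_induction with
  | zero => rw [map_zero]; exact zero_mem _
  | add a b _ _ ha hb => rw [map_add]; exact add_mem ha hb
  | neg a _ ha => rw [map_neg]; exact neg_mem ha
  | mem a ha =>
    rcases ha with ha | ⟨α, hα, rfl⟩
    · rcases ha with rfl | ha
      · rw [g3_ch_some]
        exact Submodule.mem_sup_right ⟨u0 k, rfl⟩
      · have h3 : a = br none := ha
        rw [h3, g3_ch_none]
        exact zero_mem _
    · have h3 : g3_ch α ∈ ZX 0 (RatFunc k) := by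
        rw [mem_ZX, g3_c3]
        exact cyc_of_tors 1 ⟨1, one_ne_zero, by rw [one_zsmul]; exact hα⟩
      have h4 : g3_ch (specZ 0 α - specZ 1 α) =
          (spX W0 0 (g3_ch α) - spX W1 0 (g3_ch α)) +
          ((g3_ch (specZ 0 α) - spX W0 0 (g3_ch α)) -
            (g3_ch (specZ 1 α) - spX W1 0 (g3_ch α))) := by
        rw [map_sub]; abel
      rw [h4]
      refine add_mem (Submodule.mem_sup_left (Submodule.subset_span ⟨g3_ch α, h3, rfl⟩)) ?_
      exact Submodule.mem_sup_right (sub_mem (g3_sp h0 α) (g3_sp h1 α))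

theorem nx0_gen (W0 W1 : AC (RatFunc k) k) (h0 : IsAt 0 W0) (h1 : IsAt 1 W1) (z : X 0 k)
    (hz : z ∈ NX 0 k) : z ∈ Submodule.span ℚ {η : X 0 k | ∃ β ∈ ZX 0 (RatFunc k),
      η = spX W0 0 β - spX W1 0 β} ⊔ Z0 0 k := by
  have h2 : c3 0 z = 0 := hz
  obtain ⟨N, ξ, hN, h3⟩ := g3_clear z
  have h4 : fst 3 ξ = 0 := by
    rw [← g3_c3, ← h3, map_zsmul, h2, smul_zero]
  obtain ⟨M, hM, h5⟩ := g3_tors h4
  have h6 := g3_R W0 W1 h0 h1 h5
  rw [map_zsmul, ← h3, smul_smul, ← Int.cast_smul_eq_zsmul ℚ] at h6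
  have h7 : ((M * N : ℤ) : ℚ) ≠ 0 := by exact_mod_cast mul_ne_zero hM hN
  exact (Submodule.smul_mem_iff _ h7).1 h6

end

end GD3
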