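import Pool.Agent.GD3.Defs
import Pool.Agent.TGF.Dict
import Pool.Agent.TLO.Lo8
import Pool.Agent.TGF.Cc

set_option autoImplicit false

/-!
# GD3-Hom: homotopy invariance of the first cohomology

`zx_const`: the cocycles of degree zero over `K(t)` are constant modulo null chains (`cyc_surj`).
`spX_NX0`: specialisations of null chains are null chains.
`nx_spec`: two specialisations at rational places of a cocycle differ by a null chain.
-/

noncomputable section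

open Polynomial TensorProduct
open scoped Classical

namespace GD3

open Helper14.Gon Helper14.W4 QPL TGF

universe u

section
variable {F : Type u} [Field F]

private lemma hom_nx (z : X 0 F) : z ∈ NX 0 F ↔ c3 0 z = 0 := by
  change c3 0 z ∈ (⊥ : Submodule ℚ (Cx 3 0 F)) ↔ c3 0 z = 0
  exact Submodule.mem_bot ℚ

end

section
variable {L k : Type u} [Field L] [Field k]

private theorem hom_kill (V : AC L k) (j : ℕ) {β : ZP L} (hβ : β ∈ R 3 L) :
    (PB 3 j (QuotientAddGroup.mk (V.rdZ β) : B 3 k)) ∘ₗ (spT V j) = 0 := by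
  obtain ⟨N, hN, h1⟩ := rdZ_R 1 V β hβ
  have h2 : N • (QuotientAddGroup.mk (V.rdZ β) : B 3 k) = 0 :=
    (QuotientAddGroup.eq_zero_iff _).2 h1
  have h3 : PB 3 j (QuotientAddGroup.mk (V.rdZ β) : B 3 k) = 0 := by
    have h4 : N • PB 3 j (QuotientAddGroup.mk (V.rdZ β) : B 3 k) = 0 := by
      rw [← map_nsmul, h2, map_zero]
    have h5 : ((N : ℚ)) • PB 3 j (QuotientAddGroup.mk (V.rdZ β) : B 3 k) = 0 := by
      rw [Nat.cast_smul_eq_nsmul]
      exact h4
    rcases smul_eq_zero.1 h5 with h6 | h6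
    · exact absurd (Nat.cast_eq_zero.1 h6) hN.ne'
    · exact h6
  rw [h3, LinearMap.zero_comp]

private theorem hom_spC (V : AC L k) (j : ℕ) : ∃ ρ : Cx 3 j L →ₗ[ℚ] Cx 3 j k,
    ∀ (x : P1 L) (ω : Tx j L), ρ (PB 3 j (cl 3 x) ω) = PB 3 j (cl 3 (V.rd x)) (spT V j ω) := by
  refine ⟨liftC (QuotientAddGroup.lift (R 3 L)
    (AddMonoidHom.mk' (fun α => (PB 3 j (QuotientAddGroup.mk (V.rdZ α))) ∘ₗ (spT V j))
      (by
        intro a b
        rw [map_add, QuotientAddGroup.mk_add, map_add]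
        rfl)) (fun β hβ => hom_kill V j hβ)), fun x ω => ?_⟩
  rw [liftC_PB]
  change PB 3 j (QuotientAddGroup.mk (V.rdZ (br x))) (spT V j ω) = _
  have h : V.rdZ (br x) = br (V.rd x) := AC.rdZ_single V x 1
  rw [h]

private theorem hom_pt (V : AC L k) (j : ℕ) (x : L) (ω : Tx j k) :
    PB 3 j (cl 3 (V.rd (some x))) ω =
      if x = 0 ∨ V.v x = 0 then PB 3 j (cl 3 (some (V.lc x))) ω else 0 := by
  have h0 : (cl 3 (some 0) : B 3 k) = 0 := (QuotientAddGroup.eq_zero_iff _).2 (br_zero_mem 2)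
  have hi : (cl 3 (none : P1 k) : B 3 k) = 0 := (QuotientAddGroup.eq_zero_iff _).2 (br_inf_mem 2)
  by_cases hx : x = 0
  · rw [if_pos (Or.inl hx), hx, AC.rd_zero, map_zero]
  · by_cases hv : V.v x = 0
    · rw [if_pos (Or.inr hv), AC.rd_unit V hx hv]
    · rw [if_neg (fun h => h.elim hx hv)]
      rcases lt_or_gt_of_ne hv with h | h
      · rw [AC.rd_neg V hx h, hi, map_zero]
        rfl
      · rw [AC.rd_pos V h, h0, map_zero]
        rfl

end

section
variable {K : Type u} [Field K]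

theorem zx_const (w : X 0 (RatFunc K)) (hw : w ∈ ZX 0 (RatFunc K)) :
    ∃ c ∈ ZX 0 K, w - mX 0 (RatFunc.C : K →+* RatFunc K) c ∈ NX 0 (RatFunc K) := by
  have h1 : c3 0 w ∈ cyc (RatFunc K) 1 0 := (mem_ZX 0 w).1 hw
  obtain ⟨y, hy, hyz⟩ := cyc_surj 1 (c3 0 w) h1
  obtain ⟨c, hc⟩ := c3_surj 0 y
  refine ⟨c, (mem_ZX 0 c).2 ?_, ?_⟩
  · rw [hc]
    exact hy
  · rw [hom_nx, map_sub, ← resC_c3, hc, sub_eq_zero]
    exact hyz.symm

theorem spX_NX0 {L k : Type u} [Field L] [Field k] (V : AC L k) (z : X 0 L) (hz : z ∈ NX 0 L) :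
    spX V 0 z ∈ NX 0 k := by
  rw [hom_nx] at hz ⊢
  obtain ⟨ρ, hρ⟩ := hom_spC V 0
  have h : (c3 0) ∘ₗ (spX V 0) = ρ ∘ₗ (c3 0) := by
    refine x_ext fun x ω => ?_
    rw [LinearMap.comp_apply, LinearMap.comp_apply, spX_bx, c3_bx]
    have h1 := hρ (some x) ω
    have h2 := hom_pt V 0 x (spT V 0 ω)
    refine Eq.trans ?_ (h2.symm.trans h1.symm)
    split_ifs
    · rw [c3_bx]
    · rw [map_zero]
  have h3 := LinearMap.congr_fun h z
  rw [LinearMap.comp_apply, LinearMap.comp_apply, hz, map_zero] at h3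
  exact h3

private lemma hom_t0 (W : AC (RatFunc K) K) (ω : Tx 0 K) :
    spT W 0 (resT 0 (RatFunc.C : K →+* RatFunc K) ω) = ω := by
  have h : (spT W 0) ∘ₗ (resT 0 (RatFunc.C : K →+* RatFunc K)) = LinearMap.id := by
    refine Helper14.W4.Tx_ext fun v => ?_
    change tm 0 W.lH (tm 0 (resU (RatFunc.C : K →+* RatFunc K)) (dm v)) = dm v
    rw [tm_dm, tm_dm]
    congr 1
    funext i
    exact i.elim0
  exact LinearMap.congr_fun h ω

private lemma hom_cst (W : AC (RatFunc K) K)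
    (hW : ∀ c : K, c ≠ 0 → W.v (RatFunc.C c) = 0 ∧ W.lc (RatFunc.C c) = c) (c : X 0 K) :
    spX W 0 (mX 0 (RatFunc.C : K →+* RatFunc K) c) - c ∈ NX 0 K := by
  rw [hom_nx]
  have h : (c3 0) ∘ₗ ((spX W 0) ∘ₗ (mX 0 (RatFunc.C : K →+* RatFunc K))) = c3 0 := by
    refine x_ext fun x ω => ?_
    rw [LinearMap.comp_apply, LinearMap.comp_apply, mX_bx, spX_bx, hom_t0]
    by_cases hx : x = 0
    · rw [hx, map_zero, if_pos (Or.inl rfl), map_zero]
    · rw [if_pos (Or.inr (hW x hx).1), (hW x hx).2]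
  have h1 := LinearMap.congr_fun h c
  rw [LinearMap.comp_apply, LinearMap.comp_apply] at h1
  rw [map_sub, h1, sub_self]

theorem nx_spec (w : X 0 (RatFunc K)) (hw : w ∈ ZX 0 (RatFunc K)) (W W' : AC (RatFunc K) K)
    (hW : ∀ c : K, c ≠ 0 → W.v (RatFunc.C c) = 0 ∧ W.lc (RatFunc.C c) = c)
    (hW' : ∀ c : K, c ≠ 0 → W'.v (RatFunc.C c) = 0 ∧ W'.lc (RatFunc.C c) = c) :
    spX W 0 w - spX W' 0 w ∈ NX 0 K := by
  obtain ⟨c, _, hc⟩ := zx_const w hw
  have h1 := spX_NX0 W _ hc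
  have h2 := spX_NX0 W' _ hc
  rw [map_sub] at h1 h2
  have h3 := Submodule.add_mem _ (Submodule.sub_mem _ h1 h2)
    (Submodule.sub_mem _ (hom_cst W hW c) (hom_cst W' hW' c))
  have h4 : spX W 0 w - spX W 0 (mX 0 (RatFunc.C : K →+* RatFunc K) c) -
      (spX W' 0 w - spX W' 0 (mX 0 (RatFunc.C : K →+* RatFunc K) c)) +
      (spX W 0 (mX 0 (RatFunc.C : K →+* RatFunc K) c) - c -
        (spX W' 0 (mX 0 (RatFunc.C : K →+* RatFunc K) c) - c)) = spX W 0 w - spX W' 0 w := by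
    abel
  rw [h4] at h3
  exact h3

end

end GD3
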