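import Pool.Agent.GD3.Defs
import Pool.Agent.GD3.Hom
import Pool.Agent.TGF.Rl2
import Pool.Agent.TGF.Rl

set_option autoImplicit false

/-!
# GD3-Qd: chains with a differential of level S

The differential `y + r` of `b` is exact on the level `S` up to a constant chain; the specialisation of `exists_spec`
shows that the constant chain is a differential, so `b` is a cocycle up to chains of level `S`, and `zx_const` applies.
-/

noncomputable section

open Polynomial TensorProduct
open scoped Classical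

namespace GD3

open Helper14.Gon Helper14.W4 QPL TGF

universe u

section
variable {K : Type u} [Field K] {S : Set K[X]}

private lemma qd_sm (a : K) (ha : a ≠ 0) : SRG.Sm S (C a) := by
  refine Or.inr fun Q _ hQi hQA => ?_
  exact absurd (isUnit_of_dvd_unit hQA (isUnit_C.2 (IsUnit.mk0 a ha))) hQi.not_isUnit

private lemma qd_lg (a : K) : lg ((RatFunc.C : K →+* RatFunc K) a) ∈ SG S := by
  by_cases ha : a = 0
  · rw [ha, map_zero, lg_zero]
    exact (SG S).zero_mem
  · have h1 := SG_pl (S := S) (C_ne_zero.2 ha) (qd_sm a ha)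
    have h2 : algebraMap K[X] (RatFunc K) (C a) = (RatFunc.C : K →+* RatFunc K) a :=
      RatFunc.algebraMap_C a
    rwa [h2] at h1

private lemma qd_El (a : K) : El S ((RatFunc.C : K →+* RatFunc K) a) := by
  refine ⟨qd_lg a, ?_⟩
  have h1 : (1 : RatFunc K) - (RatFunc.C : K →+* RatFunc K) a =
      (RatFunc.C : K →+* RatFunc K) (1 - a) := by
    rw [map_sub, map_one]
  rw [h1]
  exact qd_lg _

private lemma qd_const (z : X 0 K) : mX 0 (RatFunc.C : K →+* RatFunc K) z ∈ Lv 0 S := by
  induction z using x_ind with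
  | h0 =>
    rw [map_zero]
    exact Submodule.zero_mem _
  | hadd a b ha hb =>
    rw [map_add]
    exact Submodule.add_mem _ ha hb
  | h1 x ω =>
    rw [mX_bx]
    exact Submodule.subset_span ⟨_, _, qd_El x, TS_zero _ _, rfl⟩

theorem qd_of_exL (h : ExL S) : QD S := by
  intro b hb
  obtain ⟨y, hy, r, hr, hyr⟩ := Submodule.mem_sup.1 hb
  have h2 : d2 1 y = 0 := by
    have h3 := d2_d3 0 b
    rw [← hyr, map_add, d2_rel (0 + 1) hr, add_zero] at h3
    exact h3
  obtain ⟨A, hA, c, hc⟩ := h y hy h2 (by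
    intro k _ p V _ _
    have h3 : y = d3 0 b - r := by
      rw [← hyr, add_sub_cancel_right]
    rw [h3, map_sub, reX_d3_zero, zero_sub]
    exact neg_mem (reX_rel V 0 hr))
  have hu : d3 0 (b - A) - mX 1 (RatFunc.C : K →+* RatFunc K) c ∈ Rel 1 (RatFunc K) := by
    have h3 := add_mem hc hr
    have h4 : d3 0 (b - A) - mX 1 (RatFunc.C : K →+* RatFunc K) c =
        y - d3 0 A - mX 1 (RatFunc.C : K →+* RatFunc K) c + r := by
      rw [map_sub, ← hyr]
      abel
    rw [h4]
    exact h3
  obtain ⟨W, hW, -⟩ := exists_spec K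
  have h3 := spX_rel W 1 hu
  rw [map_sub, hW] at h3
  have h4 : spX W 1 (d3 0 (b - A)) = d3 0 (spX W 0 (b - A)) := spX_d3 W 0 _
  rw [h4] at h3
  have h5 := mX_rel 1 (RatFunc.C : K →+* RatFunc K) h3
  rw [map_sub] at h5
  have h6 : mX 1 (RatFunc.C : K →+* RatFunc K) (d3 0 (spX W 0 (b - A))) =
      d3 0 (mX 0 (RatFunc.C : K →+* RatFunc K) (spX W 0 (b - A))) := mX_d3 0 _ _
  rw [h6] at h5
  have h7 := sub_mem hu h5
  rw [sub_sub_sub_cancel_right, ← map_sub] at h7
  have h8 : b - A - mX 0 (RatFunc.C : K →+* RatFunc K) (spX W 0 (b - A)) ∈ ZX 0 (RatFunc K) := h7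
  obtain ⟨c', -, hc'⟩ := zx_const _ h8
  have h9 : b = (A + mX 0 (RatFunc.C : K →+* RatFunc K) (spX W 0 (b - A)) +
      mX 0 (RatFunc.C : K →+* RatFunc K) c') +
      (b - A - mX 0 (RatFunc.C : K →+* RatFunc K) (spX W 0 (b - A)) -
        mX 0 (RatFunc.C : K →+* RatFunc K) c') := by abel
  rw [h9]
  exact Submodule.add_mem _ (Submodule.mem_sup_left (Submodule.add_mem _
    (Submodule.add_mem _ hA (qd_const _)) (qd_const _))) (Submodule.mem_sup_right hc')

end

end GD3
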