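import Pool.Agent.GD3.Hp2
import Pool.Agent.GD3.Gen3
import Pool.Agent.GD3.Rl2
import Pool.Agent.GD3.Rec1
import Pool.Agent.GD3.Un
import Pool.Agent.GD3.Ex0
import Pool.Agent.GD3.Qd
import Pool.Agent.GD3.Spl

set_option autoImplicit false

/-!
# GD3-End1: a class which dies in the field of degree d

PLAN.  Let 𝓗 be the set of η ∈ X 0 k for which there is c ∈ CZ (RatFunc N), c.1 ∈ LvP q (lt N d), c.2 ∈ DL (insert q.P (lt N d)), reX Vq 0 c.1 - η ∈ Z0, tot c.1 ∈ NX 0 N: a submodule; it contains Z0 0 k (c = 0) and the generators (hp); nx0_gen: NX 0 k ≤ 𝓗.  Let η := mX 0 (q.r.comp C) ξ, c for it.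
c' := (wX 0 (lg q.P) (mX 0 C ξ), 0) - c ∈ CZ (d3 1 (wX 0 v z) = - wX 1 v (d3 0 z), L2.cup_Z, L2.map_Z); its first component is in LvP (constants have height 0 and are in El; wX 0 (lg P) (bx x ω) = bx x (e0 ω w1 P)), residue at q: reX Vq 0 (wX 0 (lg P) (mX 0 C ξ)) = v(P) sp = mX 0 (q.r.comp C) ξ up to Z0 (L2.re_cup_zero; Vq of constants).
rl2 with S = lt N d (SRG.adm_lt, q.P ∉ lt N d, QD from qd_of_exL (exL_lt d)): c' = c'' + t, c'' ∈ CL (lt N d) = CL (lt N 2) (lt_cl), t ∈ St; c'' ∈ CZ (st_cz).  rec1 (star_unr) : tot c''.1 ∈ NX 0 N (tot_eq); tot t.1 ∈ NX 0 N (st_res at VA a and VI, tot_eq: every summand is in NX 0).  So tot (c'.1) ∈ NX 0 N and tot (wX 0 (lg P) (mX 0 C ξ)) ∈ NX 0 N.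
This total residue is: at a ∈ N: VA a of P is 0 (rootMultiplicity of a in the irreducible P of degree ≥ 2 is 0): 0; at infinity v(P) = - d: - d spX VI 0 (mX 0 C ξ) = - d ξ up to Z0.  So d ξ ∈ NX 0 N, ξ ∈ NX 0 N.
-/

noncomputable section

open Polynomial TensorProduct
open scoped Classical

namespace GD3

open Helper14.Gon Helper14.W4 QPL TGF

universe u

section
variable {N k : Type u} [Field N] [Field k]

private lemma end1_sm {K : Type u} [Field K] (S : Set K[X]) (x : K) :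
    lg (RatFunc.C x : RatFunc K) ∈ SG S := by
  by_cases hx : x = 0
  · rw [hx, map_zero, lg_zero]
    exact (SG S).zero_mem
  · have h1 : (Polynomial.C x : K[X]) ≠ 0 := Polynomial.C_ne_zero.2 hx
    have h2 := SG_pl (S := S) h1 (Or.inr fun Q _ hi hd =>
      absurd (isUnit_of_dvd_unit hd (Polynomial.isUnit_C.2 (isUnit_iff_ne_zero.2 hx)))
        hi.not_isUnit)
    rwa [RatFunc.algebraMap_C] at h2

private lemma end1_el {K : Type u} [Field K] (S : Set K[X]) (x : K) :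
    El S (RatFunc.C x : RatFunc K) := by
  refine ⟨end1_sm S x, ?_⟩
  have h1 : (1 : RatFunc K) - RatFunc.C x = RatFunc.C (1 - x) := by rw [map_sub, map_one]
  rw [h1]
  exact end1_sm S (1 - x)

private lemma end1_lvp (q : SRG.Pl N k) (S : Set N[X]) (ξ : X 0 N) :
    wX 0 (lg (algebraMap N[X] (RatFunc N) q.P)) (mX 0 (RatFunc.C : N →+* RatFunc N) ξ) ∈
      LvP q S := by
  refine x_ind (fun ξ => wX 0 (lg (algebraMap N[X] (RatFunc N) q.P))
    (mX 0 (RatFunc.C : N →+* RatFunc N) ξ) ∈ LvP q S) ?_ ?_ ?_ ξ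
  · rw [map_zero, map_zero]
    exact Submodule.zero_mem _
  · intro a b ha hb
    rw [map_add, map_add]
    exact Submodule.add_mem _ ha hb
  · intro x ω
    rw [mX_bx, wX_bx, ← e0_inj (resT 0 (RatFunc.C : N →+* RatFunc N) ω), map_smul, bx_smul]
    refine Submodule.smul_mem _ _ (Submodule.subset_span (Or.inr ⟨RatFunc.C x, end1_el _ x,
      ⟨Polynomial.C x, 1, one_ne_zero, ?_, ?_, ?_⟩, rfl⟩))
    · rw [Polynomial.natDegree_C]
      exact Nat.zero_le _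
    · rw [Polynomial.natDegree_one]
      exact Nat.zero_le _
    · rw [map_one, div_one, RatFunc.algebraMap_C]

private lemma end1_spq (q : SRG.Pl N k) {Vq : AC (RatFunc N) k} (hVq : IsPt q Vq) (ξ : X 0 N) :
    spX Vq 0 (mX 0 (RatFunc.C : N →+* RatFunc N) ξ) = mX 0 (q.r.comp Polynomial.C) ξ := by
  rw [← TGF.spX_comap, TGF.spX_triv (Vq.comap (RatFunc.C : N →+* RatFunc N))
    (q.r.comp Polynomial.C) ?_]
  intro x hx
  have h1 : ¬ q.P ∣ Polynomial.C x := fun h => q.irr.not_isUnit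
    (isUnit_of_dvd_unit h (Polynomial.isUnit_C.2 (isUnit_iff_ne_zero.2 hx)))
  have h2 := hVq.v _ h1
  have h3 := hVq.lc _ h1
  rw [RatFunc.algebraMap_C] at h2 h3
  exact ⟨h2, h3⟩

private lemma end1_spI (ξ : X 0 N) :
    spX (VI : AC (RatFunc N) N) 0 (mX 0 (RatFunc.C : N →+* RatFunc N) ξ) = ξ := by
  rw [← TGF.spX_comap, TGF.spX_triv ((VI : AC (RatFunc N) N).comap
    (RatFunc.C : N →+* RatFunc N)) (RingHom.id N) ?_, TGF.mX_id]
  intro x hx
  have h1 : (Polynomial.C x : N[X]) ≠ 0 := Polynomial.C_ne_zero.2 hx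
  have h2 := VI_inf.v _ h1
  have h3 := VI_inf.lc _ h1
  rw [RatFunc.algebraMap_C] at h2 h3
  rw [Polynomial.natDegree_C, Nat.cast_zero, neg_zero] at h2
  rw [Polynomial.leadingCoeff_C] at h3
  exact ⟨h2, h3⟩

private lemma end1_ex (q : SRG.Pl N k) (hN : CLd q.d N) (hd : 2 ≤ q.d) (Vq : AC (RatFunc N) k)
    (hVq : IsPt q Vq) (η : X 0 k) (hη : η ∈ NX 0 k) :
    ∃ c ∈ CZ (RatFunc N), c.1 ∈ LvP q (SRG.lt N q.d) ∧ c.2 ∈ DL (insert q.P (SRG.lt N q.d)) ∧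
      reX Vq 0 c.1 - η ∈ Z0 0 k ∧ tot c.1 ∈ NX 0 N := by
  obtain ⟨W0, hW0⟩ := exists_at (0 : k)
  obtain ⟨W1, hW1⟩ := exists_at (1 : k)
  obtain ⟨a, ha, b, hb, rfl⟩ := Submodule.mem_sup.1 (nx0_gen W0 W1 hW0 hW1 η hη)
  have h2 : ∃ c ∈ CZ (RatFunc N), c.1 ∈ LvP q (SRG.lt N q.d) ∧
      c.2 ∈ DL (insert q.P (SRG.lt N q.d)) ∧
      reX Vq 0 c.1 - a ∈ Z0 0 k ∧ tot c.1 ∈ NX 0 N := by
    clear hη hb
    induction ha using Submodule.span_induction with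
    | mem x hx =>
      obtain ⟨β, hβ, rfl⟩ := hx
      exact hp q hN hd Vq hVq W0 W1 hW0 hW1 β hβ
    | zero =>
      refine ⟨0, Submodule.zero_mem _, Submodule.zero_mem _, Submodule.zero_mem _, ?_, ?_⟩
      · rw [Prod.fst_zero, map_zero, sub_zero]
        exact Submodule.zero_mem _
      · rw [Prod.fst_zero, map_zero]
        exact Submodule.zero_mem _
    | add x y _ _ hx hy =>
      obtain ⟨c, hc, h1, h2, h3, h4⟩ := hx
      obtain ⟨c', hc', h1', h2', h3', h4'⟩ := hy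
      refine ⟨c + c', Submodule.add_mem _ hc hc', Submodule.add_mem _ h1 h1',
        Submodule.add_mem _ h2 h2', ?_, ?_⟩
      · rw [Prod.fst_add, map_add, add_sub_add_comm]
        exact Submodule.add_mem _ h3 h3'
      · rw [Prod.fst_add, map_add]
        exact Submodule.add_mem _ h4 h4'
    | smul r x _ hx =>
      obtain ⟨c, hc, h1, h2, h3, h4⟩ := hx
      refine ⟨r • c, Submodule.smul_mem _ _ hc, Submodule.smul_mem _ _ h1,
        Submodule.smul_mem _ _ h2, ?_, ?_⟩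
      · rw [Prod.smul_fst, map_smul, ← smul_sub]
        exact Submodule.smul_mem _ _ h3
      · rw [Prod.smul_fst, map_smul]
        exact Submodule.smul_mem _ _ h4
  obtain ⟨c, hc, h3, h4, h5, h6⟩ := h2
  refine ⟨c, hc, h3, h4, ?_, h6⟩
  rw [← sub_sub]
  exact Submodule.sub_mem _ h5 hb

private lemma end1_unr (V : AC (RatFunc N) N) (x y : RatFunc N) (hx : x ≠ 0) (hx1 : x ≠ 1)
    (hy : y ≠ 0) (hy1 : y ≠ 1) (hxy : x ≠ y) :
    reX V 0 (star 0 x y (u0 (RatFunc N))) ∈ NX 0 N := star_unr V hx hx1 hy hy1 hxy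

private lemma end1_st1 (V : AC (RatFunc N) N) {t : C1 (RatFunc N)} (ht : t ∈ St (RatFunc N)) :
    reX V 0 t.1 ∈ NX 0 N := st_res V (end1_unr V) ht

private lemma end1_st {t : C1 (RatFunc N)} (ht : t ∈ St (RatFunc N)) : tot t.1 ∈ NX 0 N := by
  obtain ⟨s, hs⟩ := res_fin t.1
  rw [tot_eq _ s hs]
  exact Submodule.add_mem _ (Submodule.sum_mem _ fun a _ => end1_st1 _ ht) (end1_st1 _ ht)

private lemma end1_lin {c : C1 (RatFunc N)} (hc : c ∈ CZ (RatFunc N))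
    (hl : c ∈ CL (SRG.lt N 2)) : tot c.1 ∈ NX 0 N := by
  obtain ⟨s, hs, hs2⟩ := rec1 c hc hl end1_unr VA VI VA_at VI_inf
  rw [tot_eq _ s hs]
  exact hs2

private lemma end1_cl {S S' : Set N[X]} (h : S ⊆ S') {c : C1 (RatFunc N)} (hc : c ∈ CL S) :
    c ∈ CL S' := by
  refine ⟨Lv_mono 1 h hc.1, Submodule.span_mono ?_ hc.2⟩
  rintro z ⟨x, y, hx, hy, rfl⟩
  exact ⟨x, y, El_mono h hx, El_mono h hy, rfl⟩

private lemma end1_red (q : SRG.Pl N k) (hN : CLd q.d N) (Vq : AC (RatFunc N) k)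
    (hVq : IsPt q Vq) (c : C1 (RatFunc N)) (hc : c ∈ CZ (RatFunc N))
    (h1 : c.1 ∈ LvP q (SRG.lt N q.d)) (h2 : c.2 ∈ DL (insert q.P (SRG.lt N q.d)))
    (h3 : reX Vq 0 c.1 ∈ Z0 0 k) : tot c.1 ∈ NX 0 N := by
  have hPS : q.P ∉ SRG.lt N q.d := fun h1 => lt_irrefl _ h1.2.2
  obtain ⟨c', hl, ht⟩ := rl2 (SRG.adm_lt q.d) hPS hVq (qd_of_exL (exL_lt q.d)) c hc h1 h2 h3
  have hcz : c' ∈ CZ (RatFunc N) := by
    have h4 := Submodule.sub_mem _ hc (st_cz ht)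
    rwa [sub_sub_cancel] at h4
  have h5 := end1_lin hcz (end1_cl (fun Q hQ => lt_cl hN hQ) hl)
  have h6 := end1_st ht
  rw [Prod.fst_sub, map_sub] at h6
  have h7 := Submodule.add_mem _ h6 h5
  rwa [sub_add_cancel] at h7

private lemma end1_cz (v : Additive (RatFunc N)ˣ) (ξ : X 0 N) (hξ : ξ ∈ ZX 0 N) :
    ((wX 0 v (mX 0 (RatFunc.C : N →+* RatFunc N) ξ), 0) : C1 (RatFunc N)) ∈
      CZ (RatFunc N) := by
  rw [mem_CZ]
  change d3 1 (wX 0 v (mX 0 (RatFunc.C : N →+* RatFunc N) ξ)) + dS (RatFunc N) 0 ∈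
    Rel 2 (RatFunc N)
  rw [map_zero, add_zero, TGF.d3_wX]
  refine Submodule.neg_mem _ (TGF.wX_rel 1 v ?_)
  rw [← TGF.mX_d3]
  exact TGF.mX_rel 1 _ hξ

private lemma end1_tot (q : SRG.Pl N k) (hd : 2 ≤ q.d) (ξ : X 0 N) :
    tot (wX 0 (lg (algebraMap N[X] (RatFunc N) q.P))
      (mX 0 (RatFunc.C : N →+* RatFunc N) ξ)) = -(q.d : ℚ) • ξ := by
  have hPne : algebraMap N[X] (RatFunc N) q.P ≠ 0 := RatFunc.algebraMap_ne_zero q.irr.ne_zero
  have h0 : ∀ a, a ∉ (∅ : Finset N) → reX (VA a) 0 (wX 0 (lg (algebraMap N[X] (RatFunc N) q.P))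
      (mX 0 (RatFunc.C : N →+* RatFunc N) ξ)) = 0 := by
    intro a _
    have hr : ¬ q.P.IsRoot a := by
      intro hr
      have h1 := Polynomial.degree_eq_one_of_irreducible_of_root q.irr hr
      have h2 := Polynomial.natDegree_eq_of_degree_eq_some h1
      have h3 : q.d = 1 := h2
      omega
    rw [TGF.reX_wX_zero, TGF.vH_lg (VA a) hPne, (VA_at a).v q.P q.irr.ne_zero,
      Polynomial.rootMultiplicity_eq_zero hr, Nat.cast_zero, zero_smul]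
  rw [tot_eq _ ∅ h0, Finset.sum_empty, zero_add, TGF.reX_wX_zero, TGF.vH_lg VI hPne,
    VI_inf.v q.P q.irr.ne_zero, end1_spI ξ]
  rfl

private lemma end1_fin (q : SRG.Pl N k) (hN : CLd q.d N) (Vq : AC (RatFunc N) k)
    (hVq : IsPt q Vq) (ξ : X 0 N) (hξ : ξ ∈ ZX 0 N) (c : C1 (RatFunc N))
    (hc : c ∈ CZ (RatFunc N)) (hc1 : c.1 ∈ LvP q (SRG.lt N q.d))
    (hc2 : c.2 ∈ DL (insert q.P (SRG.lt N q.d)))
    (hc3 : reX Vq 0 c.1 - mX 0 (q.r.comp Polynomial.C) ξ ∈ Z0 0 k) :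
    tot (wX 0 (lg (algebraMap N[X] (RatFunc N) q.P))
      (mX 0 (RatFunc.C : N →+* RatFunc N) ξ) - c.1) ∈ NX 0 N := by
  have hPne : algebraMap N[X] (RatFunc N) q.P ≠ 0 := RatFunc.algebraMap_ne_zero q.irr.ne_zero
  have h1 : Vq.vH (lg (algebraMap N[X] (RatFunc N) q.P)) = 1 := by
    rw [TGF.vH_lg Vq hPne, hVq.vP]
  refine end1_red q hN Vq hVq (((wX 0 (lg (algebraMap N[X] (RatFunc N) q.P))
      (mX 0 (RatFunc.C : N →+* RatFunc N) ξ), 0) : C1 (RatFunc N)) - c)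
    (Submodule.sub_mem _ (end1_cz _ ξ hξ) hc) ?_ ?_ ?_
  · rw [Prod.fst_sub]
    exact Submodule.sub_mem _ (end1_lvp q _ ξ) hc1
  · rw [Prod.snd_sub]
    exact Submodule.sub_mem _ (Submodule.zero_mem _) hc2
  · rw [Prod.fst_sub, map_sub, TGF.reX_wX_zero, h1, one_smul, end1_spq q hVq, ← neg_sub]
    exact Submodule.neg_mem _ hc3

theorem end1 (q : SRG.Pl N k) (hN : CLd q.d N) (hd : 2 ≤ q.d) (ξ : X 0 N) (hξ : ξ ∈ ZX 0 N)
    (h : mX 0 (q.r.comp Polynomial.C) ξ ∈ NX 0 k) : ξ ∈ NX 0 N := by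
  obtain ⟨Vq, hVq⟩ := exists_pt q
  obtain ⟨c, hc, hc1, hc2, hc3, hc4⟩ := end1_ex q hN hd Vq hVq _ h
  have h1 := end1_fin q hN Vq hVq ξ hξ c hc hc1 hc2 hc3
  rw [map_sub, end1_tot q hd] at h1
  have h2 := Submodule.add_mem _ h1 hc4
  rw [sub_add_cancel] at h2
  have hdq : (-(q.d : ℚ)) ≠ 0 := by
    have h1 : (q.d : ℚ) ≠ 0 := by
      have h2 : q.d ≠ 0 := by omega
      exact_mod_cast h2
    exact neg_ne_zero.2 h1
  have h5 := Submodule.smul_mem (NX 0 N) (-(q.d : ℚ))⁻¹ h2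
  rwa [smul_smul, inv_mul_cancel₀ hdq, one_smul] at h5

end

end GD3
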