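import Pool.Agent.GD3.Rl1
import Pool.Agent.TGF.Cp

set_option autoImplicit false

/-!
# GD3-Ex1: exactness in codegree one with formal cochains, j = 1

PLAN.  Copy of TGF/Cp.lean (Ex_insert, Ex_union, Ex_lt) for j = 1 with rl1 in the place of RL and dC1 in the place of d3, all levels controlled: the lift v (lift_X) is in Lv 1 (insert P S) and enters as the formal cochain (v, 0); A ∈ Lw p S 1 is in Lv 1 (insert P S) (TS_mono), DL_mono.
d2 2 (dC1 c) = 0 (d2_d3 and d2 2 (dS σ) = 0: 2-forms commute).  Residues: reX V' 1 (dC1 c) = - d3 0 (reX V' 0 c.1) + 0 (reX_d3, reX_dS) ∈ BX 1.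
-/

noncomputable section

open Polynomial TensorProduct
open scoped Classical

namespace GD3

open Helper14.Gon Helper14.W4 QPL TGF

universe u

section
variable {K : Type u} [Field K]

private lemma Ex1_comm {F : Type u} [Field F] (a b c d : Additive Fˣ) (ω : Tx 0 F) :
    wT 3 a (wT 2 b (wT 1 c (wT 0 d ω))) = wT 3 c (wT 2 d (wT 1 a (wT 0 b ω))) := by
  rw [wT_wT 1 b c, map_neg, wT_wT 2 a c, neg_neg, wT_wT 0 b d, map_neg, map_neg, wT_wT 1 a d,
    map_neg, neg_neg]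

private lemma Ex1_d2_dS {F : Type u} [Field F] (σ : D F) : d2 2 (dS F σ) = 0 := by
  refine D_ind (fun z => d2 2 (dS F z) = 0) ?_ ?_ ?_ σ
  · rw [map_zero, map_zero]
  · intro a b ha hb
    rw [map_add, map_add, ha, hb, add_zero]
  · intro q x y
    rw [map_smul, map_smul, dS_sb, map_sub, d2_bx, d2_bx]
    unfold w2 w1
    rw [Ex1_comm, sub_self, smul_zero]

theorem d2_dC1 {F : Type u} [Field F] (c : C1 F) : d2 2 (dC1 F c) = 0 := by
  rw [dC1_apply, map_add, d2_d3, Ex1_d2_dS, add_zero]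

private lemma Ex1_rel_le {F : Type u} [Field F] : Rel 1 F ≤ BX 1 F :=
  le_sup_right (a := LinearMap.range (d3 0 : X 0 F →ₗ[ℚ] X 1 F))

private lemma Ex1_re_d3 {k : Type u} [Field k] (V : AC (RatFunc K) k)
    (B : X 1 (RatFunc K)) : reX V 1 (d3 1 B) ∈ BX 1 k := by
  rw [reX_d3]
  exact Submodule.mem_sup_left (Submodule.neg_mem _ ⟨reX V 0 B, rfl⟩)

private lemma Ex1_re_dC1 {k : Type u} [Field k] (V : AC (RatFunc K) k)
    (c : C1 (RatFunc K)) : reX V 1 (dC1 (RatFunc K) c) ∈ BX 1 k := by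
  rw [dC1_apply, map_add, reX_dS, add_zero]
  exact Ex1_re_d3 V c.1

private lemma Ex1_first {k : Type u} [Field k] {p : SRG.Pl K k} {V : AC (RatFunc K) k}
    {S : Set K[X]} (hS : SRG.Adm S p.d) (hP : p.P ∉ S) (hV : IsPt p V)
    (y : X 2 (RatFunc K)) (hr : reX V 1 y ∈ BX 1 k) :
    ∃ v ∈ Lv 1 (insert p.P S), reX V 1 (y + d3 1 v) ∈ Rel 1 k := by
  obtain ⟨a, ⟨w, rfl⟩, r, hr1, hr2⟩ := Submodule.mem_sup.1 hr
  obtain ⟨v, hv, hw⟩ := lift_X hS hP hV 0 w
  refine ⟨v, hv, ?_⟩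
  have h1 := Z0_d3 hw
  rw [map_sub, sub_eq_zero] at h1
  rw [map_add, reX_d3, h1, ← hr2]
  have h2 : d3 0 w + r + -d3 0 w = r := by abel
  rw [h2]
  exact hr1

private lemma Ex1_DL_mono {S S' : Set K[X]} (h : S ⊆ S') : DL S ≤ DL S' := by
  refine Submodule.span_mono ?_
  rintro z ⟨x, y, hx, hy, rfl⟩
  exact ⟨x, y, El_mono h hx, El_mono h hy, rfl⟩

private lemma Ex1_CL_mono {S S' : Set K[X]} (h : S ⊆ S') : CL S ≤ CL S' :=
  Submodule.prod_mono (Lv_mono 1 h) (Ex1_DL_mono h)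

private lemma Ex1_Lw {k : Type u} [Field k] (p : SRG.Pl K k) (S : Set K[X]) :
    Lw p S 1 ≤ Lv 1 (insert p.P S) := by
  refine Submodule.span_mono ?_
  rintro z ⟨x, ω, hx, hω, rfl⟩
  exact ⟨x, ω, hx, TS_mono 1 (SG_mono (Set.subset_insert _ _)) hω, rfl⟩

private theorem Ex1_insert {k : Type u} [Field k] {p : SRG.Pl K k} {V : AC (RatFunc K) k}
    {S : Set K[X]} (hS : SRG.Adm S p.d) (hP : p.P ∉ S) (hV : IsPt p V) (h : Ex1 S) :
    Ex1 (insert p.P S) := by
  intro y hy h2 hres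
  obtain ⟨v, hv, hr⟩ := Ex1_first hS hP hV y (hres k p V hV (Set.mem_insert _ _))
  have hy1 : y + d3 1 v ∈ Lv 2 (insert p.P S) := Submodule.add_mem _ hy (d3_Lv 1 hv)
  have h21 : d2 2 (y + d3 1 v) = 0 := by
    rw [map_add, h2, d2_d3, add_zero]
  obtain ⟨A1, hA1, σ, hσ, y', hy', hrel⟩ := rl1 hS hP hV hy1 h21 hr
  have h2' : d2 2 y' = 0 := by
    have e := d2_rel 2 hrel
    rw [map_sub, map_sub, h21, d2_dC1, sub_zero, zero_sub, neg_eq_zero] at e
    exact e
  have hres' : ∀ (k' : Type u) [Field k'] (p' : SRG.Pl K k') (V' : AC (RatFunc K) k'),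
      IsPt p' V' → p'.P ∈ S → reX V' 1 y' ∈ BX 1 k' := by
    intro k' _ p' V' hV' hP'
    have e : y' = y + d3 1 v - dC1 (RatFunc K) (A1, σ) -
        (y + d3 1 v - dC1 (RatFunc K) (A1, σ) - y') := by
      abel
    rw [e, map_sub, map_sub, map_add]
    refine Submodule.sub_mem _ (Submodule.sub_mem _ (Submodule.add_mem _
      (hres k' p' V' hV' (Set.mem_insert_of_mem _ hP')) (Ex1_re_d3 V' _)) (Ex1_re_dC1 V' _)) ?_
    exact Ex1_rel_le (reX_rel V' 1 hrel)
  obtain ⟨c', hc', w, hw⟩ := h y' hy' h2' hres'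
  refine ⟨(A1, σ) + c' - (v, 0), ?_, w, ?_⟩
  · refine Submodule.sub_mem _ (Submodule.add_mem _ ?_ ?_) ?_
    · exact Submodule.mem_prod.2 ⟨Ex1_Lw p S hA1, hσ⟩
    · exact Ex1_CL_mono (Set.subset_insert _ _) hc'
    · exact Submodule.mem_prod.2 ⟨hv, Submodule.zero_mem _⟩
  · have e1 : dC1 (RatFunc K) (v, 0) = d3 1 v := by
      rw [dC1_apply, map_zero, add_zero]
    have e : y - dC1 (RatFunc K) ((A1, σ) + c' - (v, 0)) -
        mX 2 (RatFunc.C : K →+* RatFunc K) w =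
        (y + d3 1 v - dC1 (RatFunc K) (A1, σ) - y') +
          (y' - dC1 (RatFunc K) c' - mX 2 (RatFunc.C : K →+* RatFunc K) w) := by
      rw [map_sub, map_add, e1]
      abel
    rw [e]
    exact Submodule.add_mem _ hrel hw

private theorem Ex1_union (n : ℕ) (h : Ex1 (SRG.lt K n)) (T : Finset K[X])
    (hT : ∀ Q ∈ T, Q.Monic ∧ Irreducible Q ∧ Q.natDegree = n) :
    Ex1 (SRG.lt K n ∪ (T : Set K[X])) := by
  classical
  induction T using Finset.induction_on with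
  | empty =>
    rw [Finset.coe_empty, Set.union_empty]
    exact h
  | insert Q T hQ ih =>
    have ih' := ih fun R hR => hT R (Finset.mem_insert_of_mem hR)
    obtain ⟨hm, hi, hn⟩ := hT Q (Finset.mem_insert_self _ _)
    obtain ⟨k, _, p, hp⟩ := SRG.exists_plOf hm hi
    obtain ⟨V, hV⟩ := exists_pt p
    have hd : p.d = n := by
      rw [SRG.Pl.d, hp, hn]
    have hS : SRG.Adm (SRG.lt K n ∪ (T : Set K[X])) p.d := by
      rw [hd]
      refine ⟨?_, ?_, ?_, ?_⟩
      · rintro R (hR | hR)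
        · exact hR.1
        · exact (hT R (Finset.mem_insert_of_mem hR)).1
      · rintro R (hR | hR)
        · exact hR.2.1
        · exact (hT R (Finset.mem_insert_of_mem hR)).2.1
      · rintro R (hR | hR)
        · exact hR.2.2.le
        · exact (hT R (Finset.mem_insert_of_mem hR)).2.2.le
      · intro R h1 h2 h3
        exact Or.inl ⟨h1, h2, h3⟩
    have hPS : p.P ∉ SRG.lt K n ∪ (T : Set K[X]) := by
      rw [hp]
      rintro (h1 | h1)
      · exact absurd hn (h1.2.2).ne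
      · exact hQ h1
    have e : SRG.lt K n ∪ ((insert Q T : Finset K[X]) : Set K[X]) =
        insert p.P (SRG.lt K n ∪ (T : Set K[X])) := by
      rw [hp, Finset.coe_insert, Set.union_insert]
    rw [e]
    exact Ex1_insert hS hPS hV ih'

theorem ex1_lt (n : ℕ) : Ex1 (SRG.lt K n) := by
  induction n with
  | zero =>
    intro y hy _ _
    obtain ⟨c, hc⟩ := Lv_const 2 hy
    refine ⟨0, Submodule.zero_mem _, c, ?_⟩
    rw [map_zero, sub_zero, hc, sub_self]
    exact Submodule.zero_mem _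
  | succ n ih =>
    intro y hy h2 hres
    obtain ⟨T, hT, hyT⟩ := Lv_fin 2 n hy
    have hsub : SRG.lt K n ∪ (T : Set K[X]) ⊆ SRG.lt K (n + 1) := by
      rintro R (hR | hR)
      · exact ⟨hR.1, hR.2.1, hR.2.2.trans (Nat.lt_succ_self n)⟩
      · obtain ⟨h3, h4, h5⟩ := hT R hR
        exact ⟨h3, h4, h5 ▸ Nat.lt_succ_self _⟩
    obtain ⟨c, hc, w, hw⟩ := Ex1_union n ih T hT y hyT h2
      (fun k _ p V hV hP => hres k p V hV (hsub hP))
    exact ⟨c, Ex1_CL_mono hsub hc, w, hw⟩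

end

end GD3
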