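import Pool.Agent.GD3.End1
import Pool.Agent.QPL.ColimN
import Pool.Agent.QPL.TrA
import Pool.Agent.SRG.Stage

set_option autoImplicit false

/-!
# GD3-Fin1: injectivity for algebraic extensions

PLAN.  First L := AlgebraicClosure M case: let z ∈ ZX 0 M with image null in Mb = AlgebraicClosure M, suppose z ∉ NX 0 M.  Zorn on the subfields N of Mb containing the image of M for which the image of z in N (mX 0 (M → N) z) is not in NX 0 N: chains: the union N∞ of a chain; if the image were null in N∞, colimN_NX (QPL/ColimN.lean) gives a finite set S of N∞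
such that it is null in every intermediate field containing S, so in a member of the chain.  N maximal.  N is not algebraically closed in Mb (if N = Mb contradiction).  There is an irreducible monic polynomial over N of degree ≥ 2 (otherwise N is algebraically closed, and as Mb is algebraic over N, N = Mb); let d be the smallest degree ≥ 2 and P such a polynomial: CLd d N:
every f of positive degree < d has an irreducible factor of degree < d, so of degree 1, a root.  k := AdjoinRoot P or SRG.exists_plOf: q : SRG.Pl N k with q.P = P, q.d = d.  k embeds into Mb over N (a root of P in Mb; emb_exists in QPL/TrA.lean): y : k → Mb; the image of k is a subfield properly larger than N (P has a root there, but not in N), so z is null in it (maximality),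
hence null in k (isomorphic).  end1: z null in N: contradiction.  General algebraic φ : M → L: embed L into Mb over M (IsAlgClosed.lift), null in L implies null in Mb (L2.map_N).
-/

noncomputable section

open Polynomial TensorProduct
open scoped Classical

namespace GD3

open Helper14.Gon Helper14.W4 QPL TGF

universe u

section
private theorem fin1_NX {F L : Type u} [Field F] [Field L] (φ : F →+* L) (z : X 0 F)
    (hz : z ∈ NX 0 F) : mX 0 φ z ∈ NX 0 L := by
  have hz' : c3 0 z ∈ bdry F 1 0 := hz
  change c3 0 (mX 0 φ z) ∈ bdry L 1 0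
  rw [c3_mX]
  exact resC_bdry φ 1 0 hz'

private theorem fin1_ZX {F L : Type u} [Field F] [Field L] (φ : F →+* L) (z : X 0 F)
    (hz : z ∈ ZX 0 F) : mX 0 φ z ∈ ZX 0 L := by
  have hz' : d3 0 z ∈ TGF.Rel (0 + 1) F := hz
  change d3 0 (mX 0 φ z) ∈ TGF.Rel (0 + 1) L
  rw [← TGF.mX_d3]
  exact TGF.mX_rel (0 + 1) φ hz'

/-- a class null over the union of a chain of intermediate fields is null over a member -/
private theorem fin1_chain {M Mb : Type u} [Field M] [Field Mb] [Algebra M Mb] (z : X 0 M)
    (c : Set (IntermediateField M Mb)) (hc : IsChain (· ≤ ·) c) (N0 : IntermediateField M Mb)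
    (hN0 : N0 ∈ c)
    (h : mX 0 (algebraMap M (⨆ i : c, (i : IntermediateField M Mb) : IntermediateField M Mb)) z ∈
      NX 0 (⨆ i : c, (i : IntermediateField M Mb) : IntermediateField M Mb)) :
    ∃ N ∈ c, mX 0 (algebraMap M N) z ∈ NX 0 N := by
  obtain ⟨S, hS⟩ := colimN_NX _ 0 z h
  have : Nonempty c := ⟨⟨N0, hN0⟩⟩
  have hdir : Directed (· ≤ ·) fun i : c => (i : IntermediateField M Mb) := hc.directed
  have hcoe := IntermediateField.coe_iSup_of_directed hdir
  have key : ∀ T : Finset (⨆ i : c, (i : IntermediateField M Mb) : IntermediateField M Mb),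
      ∃ i : c, ∀ x ∈ T, (x : Mb) ∈ (i : IntermediateField M Mb) := by
    intro T
    induction T using Finset.induction_on with
    | empty => exact ⟨⟨N0, hN0⟩, fun x hx => absurd hx (Finset.notMem_empty x)⟩
    | insert a T _ ih =>
      obtain ⟨i, hi⟩ := ih
      have ha : (a : Mb) ∈ ⋃ i : c, ((i : IntermediateField M Mb) : Set Mb) := by
        rw [← hcoe]
        exact a.2
      obtain ⟨j, hj⟩ := Set.mem_iUnion.1 ha
      obtain ⟨l, hil, hjl⟩ := hdir i j
      refine ⟨l, fun x hx => ?_⟩
      rcases Finset.mem_insert.1 hx with rfl | hx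
      · exact hjl hj
      · exact hil (hi x hx)
  obtain ⟨i, hi⟩ := key S
  have hle : (i : IntermediateField M Mb) ≤ ⨆ i : c, (i : IntermediateField M Mb) :=
    le_iSup (fun i : c => (i : IntermediateField M Mb)) i
  refine ⟨i, i.2, hS _ (algebraMap M (i : IntermediateField M Mb))
    (IntermediateField.inclusion hle).toRingHom ?_ ?_⟩
  · exact RingHom.ext fun x => rfl
  · intro x hx
    exact ⟨⟨x, hi x hx⟩, rfl⟩

/-- the minimal degree of an irreducible polynomial of degree at least two -/
private theorem fin1_deg {N : Type u} [Field N] (P : N[X]) (hm : P.Monic) (hi : Irreducible P)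
    (hd : 2 ≤ P.natDegree) : ∃ Q : N[X], Q.Monic ∧ Irreducible Q ∧ 2 ≤ Q.natDegree ∧
      CLd Q.natDegree N := by
  have hex : ∃ n, ∃ Q : N[X], Q.Monic ∧ Irreducible Q ∧ 2 ≤ Q.natDegree ∧ Q.natDegree = n :=
    ⟨_, P, hm, hi, hd, rfl⟩
  obtain ⟨Q, h1, h2, h3, h4⟩ := Nat.find_spec hex
  refine ⟨Q, h1, h2, h3, ?_⟩
  intro f hf0 hf1
  have hnu : ¬ IsUnit f := fun hu => by
    have := Polynomial.natDegree_eq_zero_of_isUnit hu
    omega
  obtain ⟨g, hg1, hg2, hg3⟩ := Polynomial.exists_monic_irreducible_factor f hnu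
  have hfne : f ≠ 0 := by
    rintro rfl
    rw [Polynomial.natDegree_zero] at hf0
    exact lt_irrefl 0 hf0
  have hle : g.natDegree ≤ f.natDegree := Polynomial.natDegree_le_of_dvd hg3 hfne
  have hpos : 0 < g.natDegree := hg2.natDegree_pos
  have hg4 : g.natDegree = 1 := by
    by_contra hne
    have h5 : Nat.find hex ≤ g.natDegree :=
      Nat.find_min' hex ⟨g, hg1, hg2, by omega, rfl⟩
    omega
  obtain ⟨x, hx⟩ := Polynomial.exists_root_of_degree_eq_one
    ((Polynomial.degree_eq_iff_natDegree_eq hg2.ne_zero).2 hg4)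
  exact ⟨x, hx.dvd hg3⟩

/-- a null class over `Mb` is null over an intermediate field containing everything -/
private theorem fin1_top {M Mb : Type u} [Field M] [Field Mb] [Algebra M Mb] (z : X 0 M)
    (h : mX 0 (algebraMap M Mb) z ∈ NX 0 Mb) (N : IntermediateField M Mb)
    (hN : ∀ a : Mb, a ∈ N) : mX 0 (algebraMap M N) z ∈ NX 0 N := by
  let e : Mb →+* N := (RingHom.id Mb).codRestrict N.toSubfield hN
  have he : e.comp (algebraMap M Mb) = algebraMap M N := RingHom.ext fun x => rfl
  rw [← he, TGF.mX_comp]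
  exact fin1_NX e _ h

/-- maximality passes null classes to the residue field -/
private theorem fin1_k {M Mb : Type u} [Field M] [Field Mb] [Algebra M Mb] (z : X 0 M)
    (N : IntermediateField M Mb)
    (hmax : ∀ N' : IntermediateField M Mb, N ≤ N' → ¬ N' ≤ N →
      mX 0 (algebraMap M N') z ∈ NX 0 N')
    {k : Type u} [Field k] (q : SRG.Pl N k) (hd : 2 ≤ q.d) (b : Mb)
    (hb : q.P.eval₂ (algebraMap N Mb) b = 0) :
    mX 0 (q.r.comp Polynomial.C) (mX 0 (algebraMap M N) z) ∈ NX 0 k := by
  obtain ⟨y, hy1, hy2⟩ := emb_exists q (algebraMap N Mb) b hb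
  have hyN : ∀ x : N, y (q.r (Polynomial.C x)) = (x : Mb) := fun x => DFunLike.congr_fun hy1 x
  let N' : IntermediateField M Mb := y.fieldRange.toIntermediateField fun x =>
    ⟨q.r (Polynomial.C (algebraMap M N x)), hyN _⟩
  have hle : N ≤ N' := fun x hx => ⟨q.r (Polynomial.C ⟨x, hx⟩), hyN _⟩
  have hbN' : b ∈ N' := ⟨q.r Polynomial.X, hy2⟩
  have hbN : b ∉ N := by
    intro hbN
    have h1 : (q.P.eval (⟨b, hbN⟩ : N)) = 0 := by
      have h2 : algebraMap N Mb (q.P.eval (⟨b, hbN⟩ : N)) = 0 := by
        rw [← Polynomial.eval₂_at_apply]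
        exact hb
      exact (map_eq_zero _).1 h2
    have h3 := Polynomial.natDegree_eq_of_degree_eq_some
      (Polynomial.degree_eq_one_of_irreducible_of_root q.irr h1)
    have h4 : q.d = 1 := h3
    omega
  have hnull := hmax N' hle fun h => hbN (h hbN')
  have hbij : Function.Bijective y.rangeRestrictField := y.rangeRestrictField_bijective
  let e1 : k ≃+* y.fieldRange := RingEquiv.ofBijective _ hbij
  let e2 : N' →+* y.fieldRange :=
    { toFun := fun x => ⟨x.1, x.2⟩
      map_one' := rfl
      map_mul' := fun _ _ => rfl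
      map_zero' := rfl
      map_add' := fun _ _ => rfl }
  let e : N' →+* k := e1.symm.toRingHom.comp e2
  have he : e.comp (algebraMap M N') = (q.r.comp Polynomial.C).comp (algebraMap M N) := by
    refine RingHom.ext fun x => ?_
    refine y.injective ?_
    have h1 : ∀ w : y.fieldRange, y (e1.symm w) = (w : Mb) := by
      intro w
      have h2 := e1.apply_symm_apply w
      exact congrArg Subtype.val h2
    have h3 : y (e (algebraMap M N' x)) = algebraMap M Mb x := h1 _
    have h4 : y (q.r (Polynomial.C (algebraMap M N x))) = algebraMap M Mb x := hyN _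
    change y (e (algebraMap M N' x)) = y (q.r (Polynomial.C (algebraMap M N x)))
    rw [h3, h4]
  rw [← TGF.mX_comp, ← he, TGF.mX_comp]
  exact fin1_NX e _ hnull

private theorem fin1_max {M Mb : Type u} [Field M] [Field Mb] [Algebra M Mb] [IsAlgClosed Mb]
    [Algebra.IsAlgebraic M Mb] (z : X 0 M) (hz : z ∈ ZX 0 M)
    (h : mX 0 (algebraMap M Mb) z ∈ NX 0 Mb) (N : IntermediateField M Mb)
    (hmax : ∀ N' : IntermediateField M Mb, N ≤ N' → ¬ N' ≤ N →
      mX 0 (algebraMap M N') z ∈ NX 0 N') : mX 0 (algebraMap M N) z ∈ NX 0 N := by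
  by_cases hN : ∀ a : Mb, a ∈ N
  · exact fin1_top z h N hN
  push Not at hN
  obtain ⟨a, ha⟩ := hN
  have hint : IsIntegral N a := (Algebra.IsAlgebraic.isAlgebraic (R := M) a).tower_top N
    |>.isIntegral
  have hdeg : 2 ≤ (minpoly N a).natDegree := by
    refine (minpoly.two_le_natDegree_iff hint).2 ?_
    rintro ⟨x, rfl⟩
    exact ha x.2
  obtain ⟨P, hP1, hP2, hP3, hP4⟩ := fin1_deg (minpoly N a) (minpoly.monic hint)
    (minpoly.irreducible hint) hdeg
  obtain ⟨k, ik, q, rfl⟩ := SRG.exists_plOf hP1 hP2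
  have hdne : q.P.degree ≠ 0 := (Polynomial.degree_pos_of_irreducible hP2).ne'
  obtain ⟨b, hb⟩ := IsAlgClosed.exists_eval₂_eq_zero (algebraMap N Mb) q.P hdne
  exact end1 q hP4 hP3 _ (fin1_ZX _ z hz) (fin1_k z N hmax q hP3 b hb)

private theorem fin1_clos {M Mb : Type u} [Field M] [Field Mb] [Algebra M Mb] [IsAlgClosed Mb]
    [Algebra.IsAlgebraic M Mb] (z : X 0 M) (hz : z ∈ ZX 0 M)
    (h : mX 0 (algebraMap M Mb) z ∈ NX 0 Mb) : z ∈ NX 0 M := by
  by_contra hbad
  let s : Set (IntermediateField M Mb) := {N | mX 0 (algebraMap M N) z ∉ NX 0 N}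
  have hbot : (⊥ : IntermediateField M Mb) ∈ s := by
    intro h1
    apply hbad
    have h2 := fin1_NX (IntermediateField.botEquiv M Mb).toRingEquiv.toRingHom _ h1
    rw [← TGF.mX_comp] at h2
    have h3 : ((IntermediateField.botEquiv M Mb).toRingEquiv.toRingHom).comp
        (algebraMap M (⊥ : IntermediateField M Mb)) = RingHom.id M := by
      refine RingHom.ext fun x => ?_
      exact IntermediateField.botEquiv_def x
    rwa [h3, TGF.mX_id] at h2
  obtain ⟨N, -, hNm⟩ := zorn_le_nonempty₀ s (fun c hcs hc N0 hN0 => by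
    refine ⟨⨆ i : c, (i : IntermediateField M Mb), ?_, ?_⟩
    · intro h1
      obtain ⟨N, hN1, hN2⟩ := fin1_chain z c hc N0 hN0 h1
      exact hcs hN1 hN2
    · intro N hN
      exact le_iSup (fun i : c => (i : IntermediateField M Mb)) ⟨N, hN⟩) ⊥ hbot
  refine hNm.prop (fin1_max z hz h N fun N' h1 h2 => ?_)
  by_contra h3
  exact h2 (hNm.le_of_ge h3 h1)

end

section
variable {M L : Type u} [Field M] [Field L]

theorem inj3 (φ : M →+* L) (halg : ∀ x : L, ∃ P : M[X], P ≠ 0 ∧ P.eval₂ φ x = 0) (z : X 0 M)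
    (hz : z ∈ ZX 0 M) (h : mX 0 φ z ∈ NX 0 L) : z ∈ NX 0 M := by
  let _ : Algebra M L := φ.toAlgebra
  have : Algebra.IsAlgebraic M L := ⟨fun x => by
    obtain ⟨P, hP, hx⟩ := halg x
    exact ⟨P, hP, hx⟩⟩
  let e : L →ₐ[M] AlgebraicClosure M := IsAlgClosed.lift
  have he : e.toRingHom.comp φ = algebraMap M (AlgebraicClosure M) :=
    RingHom.ext fun x => e.commutes x
  refine fin1_clos (Mb := AlgebraicClosure M) z hz ?_
  rw [← he, TGF.mX_comp]
  exact fin1_NX _ _ h

end

end GD3
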