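import Pool.Agent.GD3.Defs2
import Pool.Agent.SRG.Mult

set_option autoImplicit false

/-!
# GD3-Fl: finite levels

PLAN.  sg_fin: g ∈ SG S → there is a finite T ⊆ S with g ∈ SG T (AddSubgroup.closure_induction; a smooth polynomial A ≠ 0 only has finitely many monic irreducible divisors, or sm_ind in SRG/Mult.lean; unions: SG_mono).
El: two elements of SG S.  TS: span_induction; a family v : Fin j → G is finite.  Lv, DL: span_induction, Lv_mono, unions of finite sets.  CL = prod.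
-/

noncomputable section

open Polynomial TensorProduct
open scoped Classical

namespace GD3

open Helper14.Gon Helper14.W4 QPL TGF

universe u

section
variable {K : Type u} [Field K] {S : Set K[X]}

private lemma fl_sub_left (T T' : Finset K[X]) :
    (T : Set K[X]) ⊆ ((T ∪ T' : Finset K[X]) : Set K[X]) :=
  Finset.coe_subset.2 Finset.subset_union_left

private lemma fl_sub_right (T T' : Finset K[X]) :
    (T' : Set K[X]) ⊆ ((T ∪ T' : Finset K[X]) : Set K[X]) :=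
  Finset.coe_subset.2 Finset.subset_union_right

private lemma fl_union {T T' : Finset K[X]} (h : (T : Set K[X]) ⊆ S) (h' : (T' : Set K[X]) ⊆ S) :
    ((T ∪ T' : Finset K[X]) : Set K[X]) ⊆ S := by
  rw [Finset.coe_union]
  exact Set.union_subset h h'

private lemma fl_empty : ((∅ : Finset K[X]) : Set K[X]) ⊆ S := by
  rw [Finset.coe_empty]
  exact Set.empty_subset S

private lemma fl_sm {A : K[X]} (hA : A ≠ 0) (hs : SRG.Sm S A) :
    ∃ T : Finset K[X], (T : Set K[X]) ⊆ S ∧ SRG.Sm (T : Set K[X]) A := by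
  refine ⟨((UniqueFactorizationMonoid.normalizedFactors A).toFinset).filter
    (fun Q => Q ∈ S), fun Q hQ => (Finset.mem_filter.1 (Finset.mem_coe.1 hQ)).2,
      Or.inr fun Q hQm hQi hQA => ?_⟩
  rcases hs with h0 | hs
  · exact absurd h0 hA
  have h1 : Q ∈ S := hs Q hQm hQi hQA
  refine Finset.mem_coe.2 (Finset.mem_filter.2 ⟨?_, h1⟩)
  rw [Multiset.mem_toFinset, UniqueFactorizationMonoid.mem_normalizedFactors_iff' hA]
  exact ⟨hQi, hQm.normalize_eq_self, hQA⟩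

theorem sg_fin {g : Additive (RatFunc K)ˣ} (hg : g ∈ SG S) :
    ∃ T : Finset K[X], (T : Set K[X]) ⊆ S ∧ g ∈ SG (T : Set K[X]) := by
  induction hg using AddSubgroup.closure_induction with
  | mem v hv =>
    obtain ⟨A, hA, hA', rfl⟩ := hv
    obtain ⟨T, hT, hT'⟩ := fl_sm hA hA'
    exact ⟨T, hT, SG_pl hA hT'⟩
  | zero => exact ⟨∅, fl_empty, AddSubgroup.zero_mem _⟩
  | add v w _ _ hv hw =>
    obtain ⟨T, hT, hT'⟩ := hv
    obtain ⟨U, hU, hU'⟩ := hw
    exact ⟨T ∪ U, fl_union hT hU, AddSubgroup.add_mem _ (SG_mono (fl_sub_left T U) hT')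
      (SG_mono (fl_sub_right T U) hU')⟩
  | neg v _ hv =>
    obtain ⟨T, hT, hT'⟩ := hv
    exact ⟨T, hT, AddSubgroup.neg_mem _ hT'⟩

private lemma fl_el {x : RatFunc K} (hx : El S x) :
    ∃ T : Finset K[X], (T : Set K[X]) ⊆ S ∧ El (T : Set K[X]) x := by
  obtain ⟨T, hT, hT'⟩ := sg_fin hx.1
  obtain ⟨U, hU, hU'⟩ := sg_fin hx.2
  exact ⟨T ∪ U, fl_union hT hU, SG_mono (fl_sub_left T U) hT', SG_mono (fl_sub_right T U) hU'⟩

private lemma fl_TS (j : ℕ) {ω : Tx j (RatFunc K)} (hω : ω ∈ TS j (SG S)) :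
    ∃ T : Finset K[X], (T : Set K[X]) ⊆ S ∧ ω ∈ TS j (SG (T : Set K[X])) := by
  induction hω using Submodule.span_induction with
  | mem ω hω =>
    obtain ⟨v, hv, rfl⟩ := hω
    choose T hT hT' using fun i => sg_fin (hv i)
    refine ⟨Finset.univ.biUnion T, fun Q hQ => ?_, dm_mem_TS fun i => ?_⟩
    · obtain ⟨i, -, hi⟩ := Finset.mem_biUnion.1 (Finset.mem_coe.1 hQ)
      exact hT i (Finset.mem_coe.2 hi)
    · refine SG_mono (Finset.coe_subset.2 ?_) (hT' i)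
      exact Finset.subset_biUnion_of_mem T (Finset.mem_univ i)
  | zero => exact ⟨∅, fl_empty, Submodule.zero_mem _⟩
  | add a b _ _ ha hb =>
    obtain ⟨T, hT, hT'⟩ := ha
    obtain ⟨U, hU, hU'⟩ := hb
    exact ⟨T ∪ U, fl_union hT hU, Submodule.add_mem _
      (TS_mono j (SG_mono (fl_sub_left T U)) hT')
      (TS_mono j (SG_mono (fl_sub_right T U)) hU')⟩
  | smul c a _ ha =>
    obtain ⟨T, hT, hT'⟩ := ha
    exact ⟨T, hT, Submodule.smul_mem _ c hT'⟩

theorem fin_lv (j : ℕ) {y : X j (RatFunc K)} (hy : y ∈ Lv j S) :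
    ∃ T : Finset K[X], (T : Set K[X]) ⊆ S ∧ y ∈ Lv j (T : Set K[X]) := by
  induction hy using Submodule.span_induction with
  | mem z hz =>
    obtain ⟨x, ω, h1, h3, rfl⟩ := hz
    obtain ⟨T1, a1, b1⟩ := fl_el h1
    obtain ⟨T3, a3, b3⟩ := fl_TS j h3
    exact ⟨T1 ∪ T3, fl_union a1 a3, Submodule.subset_span
      ⟨x, ω, El_mono (fl_sub_left T1 T3) b1,
        TS_mono j (SG_mono (fl_sub_right T1 T3)) b3, rfl⟩⟩
  | zero => exact ⟨∅, fl_empty, Submodule.zero_mem _⟩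
  | add a b _ _ ha hb =>
    obtain ⟨T, hT, hT'⟩ := ha
    obtain ⟨U, hU, hU'⟩ := hb
    exact ⟨T ∪ U, fl_union hT hU, Submodule.add_mem _
      (Lv_mono j (fl_sub_left T U) hT') (Lv_mono j (fl_sub_right T U) hU')⟩
  | smul c a _ ha =>
    obtain ⟨T, hT, hT'⟩ := ha
    exact ⟨T, hT, Submodule.smul_mem _ c hT'⟩

private lemma fl_DL_mono {S S' : Set K[X]} (h : S ⊆ S') : DL S ≤ DL S' := by
  refine Submodule.span_mono ?_
  rintro z ⟨x, y, hx, hy, rfl⟩
  exact ⟨x, y, El_mono h hx, El_mono h hy, rfl⟩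

private lemma fl_DL {y : D (RatFunc K)} (hy : y ∈ DL S) :
    ∃ T : Finset K[X], (T : Set K[X]) ⊆ S ∧ y ∈ DL (T : Set K[X]) := by
  induction hy using Submodule.span_induction with
  | mem z hz =>
    obtain ⟨x, y, h1, h2, rfl⟩ := hz
    obtain ⟨T1, a1, b1⟩ := fl_el h1
    obtain ⟨T2, a2, b2⟩ := fl_el h2
    exact ⟨T1 ∪ T2, fl_union a1 a2, Submodule.subset_span
      ⟨x, y, El_mono (fl_sub_left T1 T2) b1, El_mono (fl_sub_right T1 T2) b2, rfl⟩⟩
  | zero => exact ⟨∅, fl_empty, Submodule.zero_mem _⟩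
  | add a b _ _ ha hb =>
    obtain ⟨T, hT, hT'⟩ := ha
    obtain ⟨U, hU, hU'⟩ := hb
    exact ⟨T ∪ U, fl_union hT hU, Submodule.add_mem _
      (fl_DL_mono (fl_sub_left T U) hT') (fl_DL_mono (fl_sub_right T U) hU')⟩
  | smul c a _ ha =>
    obtain ⟨T, hT, hT'⟩ := ha
    exact ⟨T, hT, Submodule.smul_mem _ c hT'⟩

theorem fin_cl {c : C1 (RatFunc K)} (hc : c ∈ CL S) :
    ∃ T : Finset K[X], (T : Set K[X]) ⊆ S ∧ c ∈ CL (T : Set K[X]) := by
  have h1 : c.1 ∈ Lv 1 S ∧ c.2 ∈ DL S := Submodule.mem_prod.1 hc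
  obtain ⟨T, hT, hT'⟩ := fin_lv 1 h1.1
  obtain ⟨U, hU, hU'⟩ := fl_DL h1.2
  exact ⟨T ∪ U, fl_union hT hU, Submodule.mem_prod.2
    ⟨Lv_mono 1 (fl_sub_left T U) hT', fl_DL_mono (fl_sub_right T U) hU'⟩⟩

end

end GD3
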