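import Pool.Agent.GD3.Bn
import Pool.Agent.GD3.Red3
import Pool.Agent.GD3.Nx
import Pool.Agent.SRG.Quad

set_option autoImplicit false

/-!
# GD3-Gl: chains of level S ∪ P are combinations of entries of small height

exists_bn: b, ν for g.  For A, B nonzero smooth, P ∣ A - B, of degree ≤ 2 d - 1: x = A/B: g(bx x u0) = v(1 - x) b(x, x), v(1-x) = 1 if A ≠ B ((B - A)/P has degree ≤ d - 1 and is not divisible by P; x ∈ El (S ∪ P), Ht (2 d - 1) x), so b(x, x) = 0 by h3 (A = B trivial).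
SRG.quad (SRG/Quad.lean) applied to b restricted to KG p S gives b g g = 0 for g ∈ KG p S.  bn_change with b' = 0: ν' with g(bx x u0) = 0 for units and g(bx x u0) = v(x) ν'.g x for zeros x ∈ El (S ∪ P).
red_all for ν': for A, B as above, x = 1 - A/B = (B - A)/B is a zero (or 0) of height ≤ 2 d - 1, g = 0 by h3, so ν'.g (1 - A/B) = 0, ν'.g (A/B) = 0.  So ν'.g x = ev V _ x = 0 for every zero x.  So g(bx x u0) = 0 for units and zeros in El (S ∪ P); poles by nx_inv (h1); x = 0 by nx_zero.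
Lv 0 is spanned by the bx x ω, ω = q u0 (e0_inj).
-/

noncomputable section

open Polynomial TensorProduct
open scoped Classical

namespace GD3

open Helper14.Gon Helper14.W4 QPL TGF

universe u

section
variable {K k : Type u} [Field K] [Field k] {p : SRG.Pl K k} {V : AC (RatFunc K) k}
  {S : Set K[X]}

variable {W : Type u} [AddCommGroup W] [Module ℚ W]

private lemma Gl_am {A : K[X]} (hA : A ≠ 0) : algebraMap K[X] (RatFunc K) A ≠ 0 :=
  (map_ne_zero_iff _ (RatFunc.algebraMap_injective K)).2 hA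

private lemma Gl_data (hS : SRG.Adm S p.d) (hP : p.P ∉ S) (hV : IsPt p V) {A B : K[X]}
    (hA0 : A ≠ 0) (hB0 : B ≠ 0) (hA : SRG.Sm S A) (hB : SRG.Sm S B) (hh : p.P ∣ A - B)
    (dA : A.natDegree ≤ 2 * p.d - 1) (dB : B.natDegree ≤ 2 * p.d - 1) (hne : A ≠ B) :
    El (insert p.P S) (algebraMap K[X] (RatFunc K) A / algebraMap K[X] (RatFunc K) B) ∧
    V.vH (lg (algebraMap K[X] (RatFunc K) A / algebraMap K[X] (RatFunc K) B)) = 0 ∧
    V.vH (lg (1 - algebraMap K[X] (RatFunc K) A / algebraMap K[X] (RatFunc K) B)) = 1 ∧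
    Ht (2 * p.d - 1) (algebraMap K[X] (RatFunc K) A / algebraMap K[X] (RatFunc K) B) ∧
    Ht (2 * p.d - 1) (1 - algebraMap K[X] (RatFunc K) A / algebraMap K[X] (RatFunc K) B) := by
  obtain ⟨C, hC⟩ := hh
  have ha := Gl_am hA0
  have hb := Gl_am hB0
  have hsub : A - B ≠ 0 := sub_ne_zero.2 hne
  have hC0 : C ≠ 0 := by
    rintro rfl
    rw [mul_zero] at hC
    exact hsub hC
  have hdP : 0 < p.d := p.d_pos
  have hdeg : p.d + C.natDegree ≤ 2 * p.d - 1 := by
    have k1 : (A - B).natDegree ≤ 2 * p.d - 1 :=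
      (Polynomial.natDegree_sub_le A B).trans (max_le dA dB)
    rw [hC, Polynomial.natDegree_mul p.irr.ne_zero hC0] at k1
    exact k1
  have hCd : C.natDegree < p.d := by omega
  have hPC : ¬ p.P ∣ C := by
    intro k1
    have k2 := Polynomial.natDegree_le_of_dvd k1 hC0
    exact absurd k2 (not_le.2 hCd)
  have hCs : SRG.Sm S C := hS.sm hCd
  have hPs : SRG.Sm (insert p.P S) p.P := by
    right
    intro Q hQm hQi hQ
    left
    exact Polynomial.eq_of_monic_of_associated hQm p.monic (hQi.associated_of_dvd p.irr hQ)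
  have hms : S ⊆ insert p.P S := Set.subset_insert _ _
  have hPCs : SRG.Sm (insert p.P S) (p.P * (-C)) := hPs.mul (hCs.neg.mono hms)
  have hPC0 : p.P * (-C) ≠ 0 := mul_ne_zero p.irr.ne_zero (neg_ne_zero.2 hC0)
  have e1 : 1 - algebraMap K[X] (RatFunc K) A / algebraMap K[X] (RatFunc K) B =
      algebraMap K[X] (RatFunc K) (p.P * (-C)) / algebraMap K[X] (RatFunc K) B := by
    rw [eq_div_iff hb, sub_mul, one_mul, div_mul_cancel₀ _ hb, ← map_sub, mul_neg, ← hC, neg_sub]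
  have hx0 : algebraMap K[X] (RatFunc K) A / algebraMap K[X] (RatFunc K) B ≠ 0 := div_ne_zero ha hb
  have h1x : 1 - algebraMap K[X] (RatFunc K) A / algebraMap K[X] (RatFunc K) B ≠ 0 := by
    rw [e1]
    exact div_ne_zero (Gl_am hPC0) hb
  have hvB : V.v (algebraMap K[X] (RatFunc K) B) = 0 :=
    hV.v B (hB.not_dvd hB0 p.monic p.irr hP)
  refine ⟨⟨(SG_iff _ _ hx0).2 ⟨A, B, hA0, hB0, hA.mono hms, hB.mono hms, rfl⟩,
    (SG_iff _ _ h1x).2 ⟨p.P * (-C), B, hPC0, hB0, hPCs, hB.mono hms, e1⟩⟩, ?_, ?_,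
    ⟨A, B, hB0, dA, dB, rfl⟩, ⟨B - A, B, hB0, ?_, dB, ?_⟩⟩
  · rw [lg_div ha hb, map_sub, TGF.vH_lg V ha, TGF.vH_lg V hb, hvB,
      hV.v A (hA.not_dvd hA0 p.monic p.irr hP), sub_zero]
  · rw [e1, lg_div (Gl_am hPC0) hb, map_sub, TGF.vH_lg V (Gl_am hPC0), TGF.vH_lg V hb, hvB, map_mul,
      V.v_mul (Gl_am p.irr.ne_zero) (Gl_am (neg_ne_zero.2 hC0)), hV.vP,
      hV.v (-C) (fun k1 => hPC ((dvd_neg).1 k1)), add_zero, sub_zero]
  · exact (Polynomial.natDegree_sub_le B A).trans (max_le dB dA)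
  · rw [eq_div_iff hb, sub_mul, one_mul, div_mul_cancel₀ _ hb, ← map_sub]

theorem gl_step (hS : SRG.Adm S p.d) (hP : p.P ∉ S) (hV : IsPt p V) (hQ : QD S)
    (g : X 0 (RatFunc K) →ₗ[ℚ] W) (h1 : ∀ z ∈ NX 0 (RatFunc K), g z = 0)
    (h2 : ∀ z ∈ Lv 0 S, g z = 0)
    (h3 : ∀ x : RatFunc K, El (insert p.P S) x → Ht (2 * p.d - 1) x →
      g (bx x (u0 (RatFunc K))) = 0) :
    ∀ z ∈ Lv 0 (insert p.P S), g z = 0 := by
  obtain ⟨b, ν, hb⟩ := exists_bn hS hP hV hQ g h1 h2
  have hq : ∀ x ∈ SRG.KG p S, b x x = 0 := by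
    intro x hx
    refine SRG.quad (p := p) (S := S) hS hP (AddMonoidHom.mk' (fun x : SRG.KG p S =>
      (b (x : Additive (RatFunc K)ˣ)).comp (SRG.KG p S).subtype) (by
        intro x y
        ext z
        simp)) ?_ ⟨x, hx⟩
    intro A B hA0 hB0 hA hB hh dA dB
    show b (lg (algebraMap K[X] (RatFunc K) A) - lg (algebraMap K[X] (RatFunc K) B))
      (lg (algebraMap K[X] (RatFunc K) A) - lg (algebraMap K[X] (RatFunc K) B)) = 0
    by_cases hne : A = B
    · rw [hne, sub_self, map_zero]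
    · obtain ⟨k1, k2, k3, k4, -⟩ := Gl_data (V := V) hS hP hV hA0 hB0 hA hB hh dA dB hne
      have e := hb.un _ k1 k2
      rw [h3 _ k1 k4, k3, one_smul, lg_div (Gl_am hA0) (Gl_am hB0)] at e
      exact e.symm
  obtain ⟨ν', hn⟩ := bn_change hS hP hV hb 0 (by
    intro x hx
    rw [hq x hx]
    rfl)
  have hun : ∀ x, El (insert p.P S) x → V.vH (lg x) = 0 → g (bx x (u0 (RatFunc K))) = 0 := by
    intro x hx h0
    rw [hn.un x hx h0]
    simp
  have hze : ∀ x, El (insert p.P S) x → 0 < V.vH (lg x) →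
      g (bx x (u0 (RatFunc K))) = V.vH (lg x) • ν'.g x := by
    intro x hx h0
    rw [hn.ze x hx h0]
    simp
  obtain ⟨g', hg'⟩ := red_all hS hP hV ν' (by
    intro A B hA0 hB0 hA hB hh dA dB
    show ν'.g (algebraMap K[X] (RatFunc K) A / algebraMap K[X] (RatFunc K) B) = 0
    by_cases hne : A = B
    · rw [hne, div_self (Gl_am hB0)]
      exact ν'.one
    · obtain ⟨k1, k2, k3, k4, k5⟩ := Gl_data (V := V) hS hP hV hA0 hB0 hA hB hh dA dB hne
      have e := hze _ (El_sub k1) (by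
        rw [k3]
        exact one_pos)
      rw [h3 _ (El_sub k1) k5, k3, one_smul, ν'.sub] at e
      exact neg_eq_zero.1 e.symm)
  have hpos : ∀ x, El (insert p.P S) x → 0 < V.vH (lg x) → g (bx x (u0 (RatFunc K))) = 0 := by
    intro x hx h0
    have hx0 : x ≠ 0 := by
      rintro rfl
      rw [lg_zero, map_zero] at h0
      exact lt_irrefl _ h0
    rw [hze x hx h0, hg' x hx, ev, if_neg, smul_zero]
    rintro ⟨-, h5⟩
    rw [TGF.vH_lg V hx0, h5] at h0
    exact lt_irrefl _ h0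
  have hall : ∀ x, El (insert p.P S) x → g (bx x (u0 (RatFunc K))) = 0 := by
    intro x hx
    by_cases hx0 : x = 0
    · rw [hx0]
      exact h1 _ (nx_zero 0 _)
    rcases lt_trichotomy (V.vH (lg x)) 0 with h0 | h0 | h0
    · have hi := h1 _ (nx_inv 0 x hx0 (u0 (RatFunc K)))
      rw [map_sub, sub_eq_zero] at hi
      rw [hi]
      apply hpos _ (El_inv hx)
      rw [lg_inv, map_neg]
      linarith
    · exact hun x hx h0
    · exact hpos x hx h0
  intro z hz
  have hle : Lv 0 (insert p.P S) ≤ LinearMap.ker g := by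
    refine Submodule.span_le.2 ?_
    rintro z ⟨x, ω, hx, -, rfl⟩
    show g (bx x ω) = 0
    rw [← e0_inj ω, bx_smul, map_smul, hall x hx, smul_zero]
  exact hle hz

end

end GD3
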