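import Pool.Agent.GD3.Gl
import Pool.Agent.GD3.Ex0
import Pool.Agent.GD3.Qd

set_option autoImplicit false

/-!
# GD3-Gl2: finite sets of linear primes

PLAN.  Induction on T (Finset.induction_on, as in Ex_union of TGF/Cp.lean): S = SRG.lt K 1 ∪ T, P = Q = p.P of degree 1, p.d = 1, 2 p.d - 1 = 1.  W := X 0 E ⧸ N, N the right side for insert Q T, g = N.mkQ: h1, h3 clear, h2 by the induction hypothesis (monotone: El_mono).
gl_step with QD S from qd_of_exL (exL_stage 1 T hT).  T = ∅: SRG.lt K 1 = ∅ up to: no irreducible polynomial has degree 0, elements of SG are constants: Lv_const / height 0.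
-/

noncomputable section

open Polynomial TensorProduct
open scoped Classical

namespace GD3

open Helper14.Gon Helper14.W4 QPL TGF

universe u

section
variable {K : Type u} [Field K]

private lemma Gl2_deg {S : Set K[X]} (hS : ∀ Q ∈ S, Q.natDegree < 1) {A : K[X]} (hA : A ≠ 0)
    (hs : SRG.Sm S A) : A.natDegree ≤ 1 := by
  have hu : IsUnit A := by
    by_contra h
    obtain ⟨Q, hQm, hQi, hQA⟩ := exists_monic_irreducible_factor A h
    rcases hs with h0 | hs
    · exact hA h0
    · have h1 := hS Q (hs Q hQm hQi hQA)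
      have h2 := hQi.natDegree_pos
      omega
  rw [Polynomial.natDegree_eq_zero_of_isUnit hu]
  exact Nat.zero_le 1

private lemma Gl2_ht {S : Set K[X]} (hS : ∀ Q ∈ S, Q.natDegree < 1) {x : RatFunc K}
    (hx : El S x) : Ht 1 x := by
  by_cases h0 : x = 0
  · refine ⟨0, 1, one_ne_zero, ?_, ?_, ?_⟩
    · rw [natDegree_zero]
      exact Nat.zero_le 1
    · rw [natDegree_one]
      exact Nat.zero_le 1
    · rw [h0, map_zero, zero_div]
  · obtain ⟨A, B, hA, hB, hA', hB', e⟩ := (SG_iff _ x h0).1 hx.1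
    exact ⟨A, B, hB, Gl2_deg hS hA hA', Gl2_deg hS hB hB', e⟩

theorem gl_fin (T : Finset K[X]) (hT : ∀ Q ∈ T, Q.Monic ∧ Irreducible Q ∧ Q.natDegree = 1) :
    ∀ z ∈ Lv 0 (SRG.lt K 1 ∪ (T : Set K[X])), z ∈ Submodule.span ℚ {b : X 0 (RatFunc K) |
      ∃ x : RatFunc K, El (SRG.lt K 1 ∪ (T : Set K[X])) x ∧ Ht 1 x ∧ b = bx x (u0 (RatFunc K))} ⊔
        NX 0 (RatFunc K) := by
  classical
  induction T using Finset.induction_on with
  | empty =>
    intro z hz
    have hS : ∀ Q ∈ SRG.lt K 1 ∪ ((∅ : Finset K[X]) : Set K[X]), Q.natDegree < 1 := by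
      intro Q hQ
      rw [Finset.coe_empty, Set.union_empty] at hQ
      exact hQ.2.2
    refine Submodule.mem_sup_left ?_
    revert z
    refine Submodule.span_le.2 ?_
    rintro z ⟨x, ω, h1, h2, rfl⟩
    show bx x ω ∈ Submodule.span ℚ _
    rw [← e0_inj ω, bx_smul]
    exact Submodule.smul_mem _ _ (Submodule.subset_span ⟨x, h1, Gl2_ht hS h1, rfl⟩)
  | insert Q T hQ ih =>
    have hT' : ∀ R ∈ T, R.Monic ∧ Irreducible R ∧ R.natDegree = 1 := fun R hR =>
      hT R (Finset.mem_insert_of_mem hR)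
    have ih' := ih hT'
    obtain ⟨hm, hi, hn⟩ := hT Q (Finset.mem_insert_self _ _)
    obtain ⟨k, _, p, hp⟩ := SRG.exists_plOf hm hi
    obtain ⟨V, hV⟩ := exists_pt p
    have hd : p.d = 1 := by
      rw [SRG.Pl.d, hp, hn]
    have hS : SRG.Adm (SRG.lt K 1 ∪ (T : Set K[X])) p.d := by
      rw [hd]
      refine ⟨?_, ?_, ?_, ?_⟩
      · rintro R (hR | hR)
        · exact hR.1
        · exact (hT R (Finset.mem_insert_of_mem hR)).1
      · rintro R (hR | hR)
        · exact hR.2.1
        · exact (hT R (Finset.mem_insert_of_mem hR)).2.1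
      · rintro R (hR | hR)
        · exact hR.2.2.le
        · exact (hT R (Finset.mem_insert_of_mem hR)).2.2.le
      · intro R h1 h2 h3
        exact Or.inl ⟨h1, h2, h3⟩
    have hPS : p.P ∉ SRG.lt K 1 ∪ (T : Set K[X]) := by
      rw [hp]
      rintro (h1 | h1)
      · exact absurd hn (h1.2.2).ne
      · exact hQ h1
    have e : SRG.lt K 1 ∪ ((insert Q T : Finset K[X]) : Set K[X]) =
        insert p.P (SRG.lt K 1 ∪ (T : Set K[X])) := by
      rw [hp, Finset.coe_insert, Set.union_insert]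
    rw [e]
    intro z hz
    obtain ⟨N, hN⟩ : ∃ N : Submodule ℚ (X 0 (RatFunc K)), N = Submodule.span ℚ
      {b : X 0 (RatFunc K) | ∃ x : RatFunc K, El (insert p.P (SRG.lt K 1 ∪ (T : Set K[X]))) x ∧
        Ht 1 x ∧ b = bx x (u0 (RatFunc K))} ⊔ NX 0 (RatFunc K) := ⟨_, rfl⟩
    rw [← hN]
    have hg : ∀ y : X 0 (RatFunc K), N.mkQ y = 0 ↔ y ∈ N := fun y => by
      rw [Submodule.mkQ_apply, Submodule.Quotient.mk_eq_zero]
    refine (hg z).1 (gl_step hS hPS hV (qd_of_exL (exL_stage 1 T hT')) N.mkQ ?_ ?_ ?_ z hz)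
    · intro y hy
      rw [hg, hN]
      exact Submodule.mem_sup_right hy
    · intro y hy
      rw [hg, hN]
      obtain ⟨a, ha, c, hc, rfl⟩ := Submodule.mem_sup.1 (ih' y hy)
      refine Submodule.add_mem _ (Submodule.mem_sup_left (Submodule.span_mono ?_ ha))
        (Submodule.mem_sup_right hc)
      rintro b ⟨x, h1, h2, rfl⟩
      exact ⟨x, El_mono (Set.subset_insert _ _) h1, h2, rfl⟩
    · intro x hx hx'
      rw [hd] at hx'
      rw [hg, hN]
      exact Submodule.mem_sup_left (Submodule.subset_span ⟨x, hx, hx', rfl⟩)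

end

end GD3
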