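import Pool.Agent.GD3.Defs2

set_option autoImplicit false

/-!
# GD3-Gm: the prime P over N(s)

PLAN.  M = RatFunc N, R = RatFunc k, r0 : M[X] →+* RatFunc k, eval₂RingHom (rm (q.r.comp C)) (RatFunc.C (q.r X)).  P_M := q.P.map C is monic, r0 P_M = RatFunc.C (q.r q.P) = 0.
Irreducible: Monic.irreducible_iff_irreducible_map_fraction_map (Gauss, N[s] integrally closed, M its fraction field; RatFunc N is IsFractionRing N[X]): P over N[s][T] (q.P.map Polynomial.C): if A B = P.map C with A, B monic in N[s][T] (Monic.irreducible_iff or irreducible_of_monic), apply s = 0 (coefficientwise evaluation at 0): q.P = A(0) B(0), so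
one of A(0), B(0) is 1 (monic of degree 0), and the degree in T does not change, so A = 1 or B = 1.  Kernel: P_M irreducible and r0 P_M = 0, r0 not zero: the kernel is the ideal (P_M) (maximal ideal contained in a proper ideal).  Surjective: the image of r0 is isomorphic to M[X]/(P_M), a field; it contains all polynomials in s with
coefficients in k (k = q.r (N[X]) by q.surj: q.r A = value, RatFunc.C (q.r A) = r0 (A.map C)) and s = r0 (C X); a subring that is a field (closed under inverses) containing k[s] is everything (RatFunc.num_div_denom).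
-/

noncomputable section

open Polynomial TensorProduct
open scoped Classical

namespace GD3

open Helper14.Gon Helper14.W4 QPL TGF

universe u

section
variable {N k : Type u} [Field N] [Field k]

private lemma gm_alg (φ : N →+* k) (A : N[X]) :
    rm φ (algebraMap N[X] (RatFunc N) A) = algebraMap k[X] (RatFunc k) (A.map φ) := by
  rw [rm, RatFunc.coe_mapRingHom_eq_coe_map]
  have h := RatFunc.map_apply_div (mapRingHom φ) (by
    intro P hP
    rw [Submonoid.mem_comap, mem_nonZeroDivisors_iff_ne_zero]
    rw [mem_nonZeroDivisors_iff_ne_zero] at hP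
    intro h
    exact hP (map_injective φ φ.injective (by rw [Polynomial.map_zero]; exact h))) A 1
  simp only [map_one, div_one] at h
  rw [h]
  rfl

private lemma gm_C (φ : N →+* k) (c : N) : rm φ (RatFunc.C c) = RatFunc.C (φ c) := by
  rw [← RatFunc.algebraMap_C, gm_alg, Polynomial.map_C, RatFunc.algebraMap_C]

private lemma gm_X (φ : N →+* k) : rm φ RatFunc.X = RatFunc.X := by
  rw [← RatFunc.algebraMap_X, gm_alg, Polynomial.map_X, RatFunc.algebraMap_X]

theorem exists_plM (q : SRG.Pl N k) : ∃ p : SRG.Pl (RatFunc N) (RatFunc k),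
    p.P = q.P.map (RatFunc.C : N →+* RatFunc N) ∧ p.r Polynomial.X = RatFunc.C (q.r Polynomial.X) ∧
      ∀ c : RatFunc N, p.r (Polynomial.C c) = rm (q.r.comp Polynomial.C) c := by
  set φ : N →+* k := q.r.comp Polynomial.C with hφ
  set r0 : (RatFunc N)[X] →+* RatFunc k := eval₂RingHom (rm φ) (RatFunc.C (q.r X)) with hr0
  have hq : ∀ A : N[X], r0 (A.map (RatFunc.C : N →+* RatFunc N)) = RatFunc.C (q.r A) := by
    intro A
    have h : r0.comp (mapRingHom (RatFunc.C : N →+* RatFunc N)) =
        (RatFunc.C : k →+* RatFunc k).comp q.r := by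
      refine Polynomial.ringHom_ext (fun a => ?_) ?_
      · simp only [RingHom.comp_apply, coe_mapRingHom, Polynomial.map_C, hr0, coe_eval₂RingHom,
          eval₂_C, gm_C, hφ]
      · simp only [RingHom.comp_apply, coe_mapRingHom, Polynomial.map_X, hr0, coe_eval₂RingHom,
          eval₂_X]
    exact DFunLike.congr_fun h A
  have hmon : (q.P.map (RatFunc.C : N →+* RatFunc N)).Monic := q.monic.map _
  have hP0 : r0 (q.P.map (RatFunc.C : N →+* RatFunc N)) = 0 := by
    rw [hq, (q.ker q.P).2 dvd_rfl, map_zero]
  have hirr : Irreducible (q.P.map (RatFunc.C : N →+* RatFunc N)) := by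
    have h1 : Irreducible (q.P.map (Polynomial.C : N →+* N[X])) := by
      refine Monic.irreducible_of_irreducible_map (evalRingHom (0 : N)) _ (q.monic.map _) ?_
      rw [Polynomial.map_map]
      have h2 : (evalRingHom (0 : N)).comp (Polynomial.C : N →+* N[X]) = RingHom.id N := by
        ext a
        simp
      rw [h2, Polynomial.map_id]
      exact q.irr
    have h3 := (Monic.irreducible_iff_irreducible_map_fraction_map (K := RatFunc N)
      (q.monic.map (Polynomial.C : N →+* N[X]))).1 h1
    rw [Polynomial.map_map] at h3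
    have h4 : (algebraMap N[X] (RatFunc N)).comp (Polynomial.C : N →+* N[X]) = RatFunc.C := by
      ext a
      simp
    rwa [h4] at h3
  have hcop : ∀ A : (RatFunc N)[X], ¬ q.P.map (RatFunc.C : N →+* RatFunc N) ∣ A →
      ∃ B : (RatFunc N)[X], r0 B * r0 A = 1 := by
    intro A hA
    obtain ⟨u, v, huv⟩ := (hirr.coprime_iff_not_dvd).2 hA
    refine ⟨v, ?_⟩
    have h := congrArg r0 huv
    rw [map_add, map_mul, map_mul, hP0, mul_zero, zero_add, map_one] at h
    exact h
  have hker : ∀ A : (RatFunc N)[X], r0 A = 0 ↔ q.P.map (RatFunc.C : N →+* RatFunc N) ∣ A := by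
    intro A
    constructor
    · intro h
      by_contra hA
      obtain ⟨B, hB⟩ := hcop A hA
      rw [h, mul_zero] at hB
      exact zero_ne_one hB
    · rintro ⟨B, rfl⟩
      rw [map_mul, hP0, zero_mul]
  have hpol : ∀ A : k[X], ∃ B : (RatFunc N)[X], r0 B = algebraMap k[X] (RatFunc k) A := by
    intro A
    induction A using Polynomial.induction_on' with
    | add A B hA hB =>
      obtain ⟨A', hA'⟩ := hA
      obtain ⟨B', hB'⟩ := hB
      exact ⟨A' + B', by rw [map_add, map_add, hA', hB']⟩
    | monomial n a =>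
      obtain ⟨A', hA'⟩ := q.surj a
      refine ⟨A'.map (RatFunc.C : N →+* RatFunc N) * (Polynomial.C RatFunc.X) ^ n, ?_⟩
      have h1 : r0 (Polynomial.C RatFunc.X) = RatFunc.X := by
        rw [hr0, coe_eval₂RingHom, eval₂_C, gm_X]
      rw [map_mul, map_pow, hq, hA', h1, ← C_mul_X_pow_eq_monomial, map_mul, map_pow,
        RatFunc.algebraMap_C, RatFunc.algebraMap_X]
  have hsurj : Function.Surjective r0 := by
    intro x
    obtain ⟨A, hA⟩ := hpol x.num
    obtain ⟨B, hB⟩ := hpol x.denom
    have hB0 : r0 B ≠ 0 := by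
      rw [hB]
      exact fun h => x.denom_ne_zero ((FaithfulSMul.algebraMap_injective k[X] (RatFunc k))
        (by rw [h, map_zero]))
    obtain ⟨D, hD⟩ := hcop B (fun h => hB0 ((hker B).2 h))
    refine ⟨A * D, ?_⟩
    have h1 : r0 D = (r0 B)⁻¹ := eq_inv_of_mul_eq_one_left hD
    rw [map_mul, h1, hA, hB, ← div_eq_mul_inv, RatFunc.num_div_denom]
  refine ⟨⟨q.P.map (RatFunc.C : N →+* RatFunc N), hmon, hirr, r0, hsurj, hker⟩, rfl, ?_, ?_⟩
  · change r0 X = _
    rw [hr0, coe_eval₂RingHom, eval₂_X]
  · intro c
    change r0 (Polynomial.C c) = _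
    rw [hr0, coe_eval₂RingHom, eval₂_C]

end

end GD3
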