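import Pool.Agent.GD3.Defs2
import Pool.Agent.QPL.Mono
import Pool.Agent.QPL.MonoA

set_option autoImplicit false

/-!
# GD3-Gu1: Gauss valuations over a point of the s-line

PLAN.  U := W.comap (rm j): U.v x = W.v (rm j x), U.lc x = W.lc (rm j x).  rm j (algebraMap A) = algebraMap (A.map j) (QPL/TrC.lean, private: copy), rm j (C a) = C (j a).
v: the constant polynomial C (j a): IsMono with q = 0, m = V.v (j a): geP, iniP of a constant (mono_v in QPL/Mono.lean with i = 0: value V.v (j a), leading coefficient algebraMap (iniP ..), iniP 0 m (C x) = C (V.lc x)); then Over b j V.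
pol: A over N(s) with coefficients of value ≥ 0 or 0 and at least one of value 0: mono_v for A.map j at an index i with W0.v (A.coeff i) = 0: W.v = 0 and W.lc = algebraMap (V.iniP 0 0 (A.map j)), B := V.iniP 0 0 (A.map j), coeff_iniP: B.coeff i = V.ini 0 (j (A.coeff i)) = V.lc if the value is 0, else 0 (Over).
(The valuation W0 of IsAt b in the statement is any; use Over for it.)
-/

noncomputable section

open Polynomial TensorProduct
open scoped Classical

namespace GD3

open Helper14.Gon Helper14.W4 QPL TGF

universe u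

section
variable {N E : Type u} [Field N] [Field E]

private theorem gu1_rm (j : RatFunc N →+* E) (A : (RatFunc N)[X]) :
    rm j (algebraMap (RatFunc N)[X] (RatFunc (RatFunc N)) A) =
      algebraMap E[X] (RatFunc E) (A.map j) := by
  have h1 := RatFunc.map_apply_div (mapRingHom j) (by
    intro P hP
    rw [Submonoid.mem_comap, mem_nonZeroDivisors_iff_ne_zero]
    rw [mem_nonZeroDivisors_iff_ne_zero] at hP
    intro h
    exact hP (map_injective j j.injective (by rw [Polynomial.map_zero]; exact h))) A 1
  rw [map_one, map_one, map_one, div_one, div_one] at h1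
  exact h1

theorem gs_of_mono {b : N} {j : RatFunc N →+* E} {V : AC E N} (h : Over b j V)
    {W : AC (RatFunc E) (RatFunc N)} (hW : IsMono V 0 W) : IsGs b (W.comap (rm j)) := by
  constructor
  · intro W0 hW0 a ha
    obtain ⟨h1, h2⟩ := h W0 hW0 a ha
    have hja : j a ≠ 0 := (map_ne_zero j).2 ha
    have hc : (C (j a) : E[X]).coeff 0 = j a := coeff_C_zero
    obtain ⟨h3, h4⟩ := mono_v hW (C (j a)) 0 (by rw [hc]; exact hja) (by
      intro i hi
      have hi0 : i = 0 := by
        by_contra hne
        exact hi (coeff_C_of_ne_zero hne)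
      rw [hi0])
    have h5 : rm j (RatFunc.C a) = algebraMap E[X] (RatFunc E) (C (j a)) := by
      rw [← RatFunc.algebraMap_C, gu1_rm, Polynomial.map_C]
    constructor
    · change W.v (rm j (RatFunc.C a)) = W0.v a
      rw [h5, h3, hc, h1, mul_zero, add_zero]
    · intro h0
      change W.lc (rm j (RatFunc.C a)) = RatFunc.C (W0.lc a)
      rw [h5, h4, ← RatFunc.algebraMap_C]
      congr 1
      ext i
      rw [coeff_iniP, hc, mul_zero, mul_zero, add_zero, sub_zero, coeff_C, coeff_C]
      by_cases hi : i = 0
      · rw [if_pos hi, if_pos hi, V.ini_self, h2 h0]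
      · rw [if_neg hi, if_neg hi, V.ini_zero]
  · intro W0 hW0 A hA ⟨i, hi, hi0⟩
    have hco : ∀ l, (A.map j).coeff l = j (A.coeff l) := fun l => coeff_map j l
    have hv : ∀ l, A.coeff l ≠ 0 → V.v ((A.map j).coeff l) = W0.v (A.coeff l) := by
      intro l hl
      rw [hco]
      exact (h W0 hW0 _ hl).1
    obtain ⟨h3, h4⟩ := mono_v hW (A.map j) i (by rw [hco]; exact (map_ne_zero j).2 hi) (by
      intro l hl
      have hl' : A.coeff l ≠ 0 := by
        rw [hco] at hl
        exact (map_ne_zero j).1 hl
      rw [hv i hi, hv l hl', hi0, mul_zero, mul_zero, add_zero, add_zero]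
      exact hA l hl')
    rw [hv i hi, hi0, mul_zero, add_zero] at h3 h4
    refine ⟨?_, V.iniP 0 0 (A.map j), ?_, ?_⟩
    · change W.v (rm j (algebraMap (RatFunc N)[X] (RatFunc (RatFunc N)) A)) = 0
      rw [gu1_rm, h3]
    · intro l
      rw [coeff_iniP, mul_zero, sub_zero, hco]
      unfold AC.ini
      by_cases hl : A.coeff l = 0
      · rw [if_neg (by rw [hl, map_zero]; exact fun h => h.1 rfl),
          if_neg (by rw [hl]; exact fun h => h.1 rfl)]
      · obtain ⟨h1, h2⟩ := h W0 hW0 _ hl
        by_cases hl0 : W0.v (A.coeff l) = 0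
        · rw [if_pos ⟨(map_ne_zero j).2 hl, by rw [h1, hl0]⟩, if_pos ⟨hl, hl0⟩, h2 hl0]
        · rw [if_neg (by rw [h1]; exact fun h => hl0 h.2), if_neg (fun h => hl0 h.2)]
    · change W.lc (rm j (algebraMap (RatFunc N)[X] (RatFunc (RatFunc N)) A)) = _
      rw [gu1_rm, h4]

end

end GD3
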