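import Pool.Agent.GD3.Defs2
import Pool.Agent.SRG.Mult

set_option autoImplicit false

/-!
# GD3-Lm: levels under extensions of constants

PLAN.  sm_map: A smooth over S (all monic irreducible divisors in S), then A.map ι is smooth over S': SRG.sm_ind (SRG/Mult.lean) for A: constants, elements of S (h), products (Sm.mul, Polynomial.map_mul); A = 0 trivial.
sg_map: SG S is the closure of the lg of smooth polynomials; resU (rm ι) (lg (algebraMap A)) = lg (algebraMap (A.map ι)) (QPL/TrC.lean proves rm ι (algebraMap A) = algebraMap (A.map ι) privately; copy).  El: rm ι (1 - x) = 1 - rm ι x.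
lv_map: span_induction, mX_bx, resT_eq_tm, TS_map (TGF/Ts.lean).  dl_map: mD_sb.
-/

noncomputable section

open Polynomial TensorProduct
open scoped Classical

namespace GD3

open Helper14.Gon Helper14.W4 QPL TGF

universe u

section
variable {M L : Type u} [Field M] [Field L] (ι : M →+* L) {S : Set M[X]} {S' : Set L[X]}

private theorem lm_rm (A : M[X]) :
    rm ι (algebraMap M[X] (RatFunc M) A) = algebraMap L[X] (RatFunc L) (A.map ι) := by
  have h1 := RatFunc.map_apply_div (mapRingHom ι) (by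
    intro P hP
    rw [Submonoid.mem_comap, mem_nonZeroDivisors_iff_ne_zero]
    rw [mem_nonZeroDivisors_iff_ne_zero] at hP
    intro h
    exact hP (map_injective ι ι.injective (by rw [Polynomial.map_zero]; exact h))) A 1
  rw [map_one, map_one, map_one, div_one, div_one] at h1
  exact h1

private theorem lm_ne {A : M[X]} (hA : A ≠ 0) : A.map ι ≠ 0 := by
  intro h
  exact hA (map_injective ι ι.injective (by rw [Polynomial.map_zero]; exact h))

theorem sm_map (h : ∀ Q ∈ S, SRG.Sm S' (Q.map ι)) {A : M[X]} (hA : SRG.Sm S A) :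
    SRG.Sm S' (A.map ι) := by
  by_cases h0 : A = 0
  · subst h0
    rw [Polynomial.map_zero]
    exact SRG.sm_zero S'
  · refine SRG.sm_ind (S := S) (M := fun A => SRG.Sm S' (A.map ι)) ?_ ?_ ?_ A h0 hA
    · intro c _
      rw [Polynomial.map_C]
      exact SRG.sm_C S' _
    · intro Q hQ _ _
      exact h Q hQ
    · intro A B _ _ _ _ h1 h2
      rw [Polynomial.map_mul]
      exact h1.mul h2

private theorem lm_sg (h : ∀ Q ∈ S, SRG.Sm S' (Q.map ι)) {v : Additive (RatFunc M)ˣ}
    (hv : v ∈ SG S) : resU (rm ι) v ∈ SG S' := by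
  have h1 : SG S ≤ (SG S').comap (resU (rm ι)) := by
    refine (AddSubgroup.closure_le _).2 ?_
    rintro v ⟨A, hA, hs, rfl⟩
    change resU (rm ι) (lg _) ∈ SG S'
    rw [resU_lg, lm_rm]
    exact AddSubgroup.subset_closure ⟨A.map ι, lm_ne ι hA, sm_map ι h hs, rfl⟩
  exact h1 hv

theorem el_map (h : ∀ Q ∈ S, SRG.Sm S' (Q.map ι)) {x : RatFunc M} (hx : El S x) :
    El S' (rm ι x) := by
  refine ⟨?_, ?_⟩
  · rw [← resU_lg]
    exact lm_sg ι h hx.1
  · have e : (1 : RatFunc L) - rm ι x = rm ι (1 - x) := by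
      rw [map_sub, map_one]
    rw [e, ← resU_lg]
    exact lm_sg ι h hx.2

theorem lv_map (h : ∀ Q ∈ S, SRG.Sm S' (Q.map ι)) (j : ℕ) {y : X j (RatFunc M)}
    (hy : y ∈ Lv j S) : mX j (rm ι) y ∈ Lv j S' := by
  have h1 : Lv j S ≤ (Lv j S').comap (mX j (rm ι)) := by
    refine Submodule.span_le.2 ?_
    rintro z ⟨x, ω, hx, hω, rfl⟩
    change mX j (rm ι) (bx x ω) ∈ Lv j S'
    rw [mX_bx, resT_eq_tm]
    exact Submodule.subset_span ⟨rm ι x, _, el_map ι h hx,
      TS_map j _ (fun v hv => lm_sg ι h hv) hω, rfl⟩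
  exact h1 hy

theorem dl_map (h : ∀ Q ∈ S, SRG.Sm S' (Q.map ι)) {σ : D (RatFunc M)} (hσ : σ ∈ DL S) :
    mD (rm ι) σ ∈ DL S' := by
  have h1 : DL S ≤ (DL S').comap (mD (rm ι)) := by
    refine Submodule.span_le.2 ?_
    rintro z ⟨x, y, hx, hy, rfl⟩
    change mD (rm ι) (sb x y) ∈ DL S'
    rw [mD_sb]
    exact Submodule.subset_span ⟨rm ι x, rm ι y, el_map ι h hx, el_map ι h hy, rfl⟩
  exact h1 hσ

end

end GD3
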