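import Pool.Agent.GD3.Defs2
import Pool.Agent.GD3.Lm
import Pool.Agent.TGF.Pt

set_option autoImplicit false

/-!
# GD3-Gu2: levels under Gauss specialisation

PLAN.  M = RatFunc N, p.P = q.P.map C, d = q.d = p.d.  Scaling: for A ∈ M[X], A ≠ 0, there is a ∈ M, a ≠ 0, with A = C a * A', A' as in IsGs.pol (a := a coefficient of minimal value; W0.v).  So U.v A = W0.v a, U.lc A = (constant) * algebraMap B, B ≠ 0, natDegree B ≤ natDegree A (constant = U.lc (C a), which is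
RatFunc.C of a nonzero element of N if W0.v a = 0; in general write a = (s - b)^m a0: U.lc (C (X - C b)) is some element: NOT known to be a constant!  So use the field const below: hcst).
hcst : ∀ a : M, a ≠ 0 → ∃ c : N, c ≠ 0 ∧ U.lc (RatFunc.C a) = RatFunc.C c (true for U = W.comap (rm j), mono_v: prove it as gs_const in this file).
gs_sm: A ∈ M[X] of degree < d, A ≠ 0: U.lc A = algebraMap of a nonzero polynomial of degree < d: so lg (U.lc A) ∈ SG (lt N d).  gs_sg: g ∈ SG (lt M d) → U.lH g ∈ SG (lt N d) (sm_ind: a smooth polynomial over lt M d is a product of constants and primes of degree < d).  U.v (algebraMap p.P) = 0, U.lc (algebraMap p.P) = algebraMap q.P (pol).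
gs_el: El (insert p.P (lt M d)) x, x ≠ 0, U.v x = 0 → El (insert q.P (lt N d)) (U.lc x): lg (U.lc x) = U.lH (lg x); 1 - U.lc x: if x = 1 trivial; U.v (1 - x) = 0: U.lc (1 - x) = 1 - U.lc x (AC.add_ne with y = - x.. or AC.ini lemmas); U.v (1 - x) > 0: U.lc x = 1; (U.v (1-x) < 0 impossible).
gs_lv, gs_dl: spX_bx, spT = tm U.lH, TS_map; spD_sb.  gs_lvp: additionally heights: x = A/B with degrees ≤ h, U.v x = 0: U.lc x = U.lc A / U.lc B = (const) algebraMap B_A / algebraMap B_B, degrees ≤ h; spT U 1 (w1 (lg p.P)) = w1 (lg q.P) (tm_wT, u0); entries x = 0 give bx 0 _ (El, Ht hold for 0).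
-/

noncomputable section

open Polynomial TensorProduct
open scoped Classical

namespace GD3

open Helper14.Gon Helper14.W4 QPL TGF

universe u

section
variable {N k E : Type u} [Field N] [Field k] [Field E]

/-- leading coefficients of constants are constants -/
def GsC (U : AC (RatFunc (RatFunc N)) (RatFunc N)) : Prop :=
  ∀ a : RatFunc N, a ≠ 0 → ∃ c : N, c ≠ 0 ∧ U.lc (RatFunc.C a) = RatFunc.C c

private lemma gu2_rm {M : Type u} [Field M] (ι : M →+* E) (A : M[X]) :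
    rm ι (algebraMap M[X] (RatFunc M) A) = algebraMap E[X] (RatFunc E) (A.map ι) := by
  have h1 := RatFunc.map_apply_div (mapRingHom ι) (by
    intro P hP
    rw [Submonoid.mem_comap, mem_nonZeroDivisors_iff_ne_zero]
    rw [mem_nonZeroDivisors_iff_ne_zero] at hP
    intro h
    exact hP (map_injective ι ι.injective (by rw [Polynomial.map_zero]; exact h))) A 1
  rw [map_one, map_one, map_one, div_one, div_one] at h1
  exact h1

private lemma gu2_C {M : Type u} [Field M] (a : M) :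
    algebraMap M[X] (RatFunc M) (C a) = (RatFunc.C : M →+* RatFunc M) a :=
  RatFunc.algebraMap_C a

private lemma gu2_am {M : Type u} [Field M] {A : M[X]} (hA : A ≠ 0) :
    algebraMap M[X] (RatFunc M) A ≠ 0 :=
  RatFunc.algebraMap_ne_zero hA

theorem gs_const {j : RatFunc N →+* E} {V : AC E N} {W : AC (RatFunc E) (RatFunc N)}
    (hW : IsMono V 0 W) : GsC (W.comap (rm j)) := by
  intro a ha
  have hja : j a ≠ 0 := (map_ne_zero j).2 ha
  refine ⟨V.lc (j a), V.lc_ne hja, ?_⟩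
  change W.lc (rm j (RatFunc.C a)) = _
  rw [← gu2_C a, gu2_rm, map_C]
  have hc0 : (C (j a) : E[X]).coeff 0 = j a := coeff_C_zero
  have h1 := (mono_v hW (C (j a)) 0 (by rw [hc0]; exact hja) (by
    intro i hi
    by_cases h0 : i = 0
    · subst h0
      exact le_refl _
    · exact absurd (coeff_C_of_ne_zero h0) hi)).2
  rw [h1, ← gu2_C (V.lc (j a))]
  congr 1
  ext i
  rw [coeff_iniP, hc0]
  by_cases h0 : i = 0
  · subst h0
    rw [hc0, coeff_C_zero, Nat.cast_zero, zero_mul, add_zero, sub_zero, V.ini_self]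
  · rw [coeff_C_of_ne_zero h0, coeff_C_of_ne_zero h0, V.ini_zero]

/-- the leading coefficient of a polynomial -/
private lemma gu2_pol {b : N} {U : AC (RatFunc (RatFunc N)) (RatFunc N)} (hU : IsGs b U)
    (hC : GsC U) {A : (RatFunc N)[X]} (hA : A ≠ 0) : ∃ B : N[X], B ≠ 0 ∧
      B.natDegree ≤ A.natDegree ∧
      U.lc (algebraMap (RatFunc N)[X] (RatFunc (RatFunc N)) A) = algebraMap N[X] (RatFunc N) B := by
  obtain ⟨W, hW⟩ := exists_at b
  obtain ⟨i0, hi0, hmin⟩ := A.support.exists_min_image (fun i => W.v (A.coeff i))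
    (support_nonempty.2 hA)
  have ha : A.coeff i0 ≠ 0 := mem_support_iff.1 hi0
  set a : RatFunc N := A.coeff i0 with ha'
  set A' : (RatFunc N)[X] := C a⁻¹ * A with hA'
  have hco : ∀ i, A'.coeff i = a⁻¹ * A.coeff i := fun i => by rw [hA', coeff_C_mul]
  have hne : ∀ i, A'.coeff i ≠ 0 → A.coeff i ≠ 0 := fun i h h2 => h (by rw [hco, h2, mul_zero])
  have hA'0 : A' ≠ 0 := by
    intro h
    have h2 := hco i0
    rw [h, coeff_zero, ← ha', inv_mul_cancel₀ ha] at h2
    exact zero_ne_one h2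
  obtain ⟨h1, B, hB, hB2⟩ := hU.pol W hW A' (by
    intro i hi
    have h3 := hne i hi
    rw [hco, W.v_mul (inv_ne_zero ha) h3, W.v_inv ha]
    have h4 := hmin i (mem_support_iff.2 h3)
    linarith) ⟨i0, by rw [hco, ← ha', inv_mul_cancel₀ ha]; exact one_ne_zero, by
      rw [hco, ← ha', inv_mul_cancel₀ ha, W.v_one]⟩
  obtain ⟨c, hc, hc2⟩ := hC a ha
  have e1 : algebraMap (RatFunc N)[X] (RatFunc (RatFunc N)) A =
      RatFunc.C a * algebraMap (RatFunc N)[X] (RatFunc (RatFunc N)) A' := by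
    rw [hA', map_mul, gu2_C, ← mul_assoc, ← map_mul, mul_inv_cancel₀ ha, map_one, one_mul]
  have hB0 : B ≠ 0 := by
    intro h
    rw [h, map_zero] at hB2
    exact U.lc_ne (gu2_am hA'0) hB2
  refine ⟨C c * B, mul_ne_zero (C_ne_zero.2 hc) hB0, ?_, ?_⟩
  · rw [natDegree_C_mul hc]
    refine natDegree_le_iff_coeff_eq_zero.2 fun i hi => ?_
    rw [hB i, if_neg]
    rintro ⟨h2, -⟩
    exact hne i h2 (coeff_eq_zero_of_natDegree_lt hi)
  · rw [e1, map_mul, hc2, hB2, map_mul, gu2_C]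

/-- the leading coefficient of a polynomial with constant coefficients -/
private lemma gu2_cst {b : N} {U : AC (RatFunc (RatFunc N)) (RatFunc N)} (hU : IsGs b U)
    {Q : N[X]} (hQ : Q ≠ 0) :
    U.v (algebraMap (RatFunc N)[X] (RatFunc (RatFunc N))
      (Q.map (RatFunc.C : N →+* RatFunc N))) = 0 ∧
    U.lc (algebraMap (RatFunc N)[X] (RatFunc (RatFunc N))
      (Q.map (RatFunc.C : N →+* RatFunc N))) = algebraMap N[X] (RatFunc N) Q := by
  obtain ⟨W, hW⟩ := exists_at b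
  have hcst : ∀ x : N, x ≠ 0 → W.v (RatFunc.C x) = 0 ∧ W.lc (RatFunc.C x) = x := by
    intro x hx
    have hC : (C x : N[X]) ≠ 0 := C_ne_zero.2 hx
    have hr : (C x : N[X]).rootMultiplicity b = 0 := by
      refine rootMultiplicity_eq_zero ?_
      rw [IsRoot.def, eval_C]
      exact hx
    constructor
    · rw [← gu2_C, hW.v _ hC, hr, Nat.cast_zero]
    · rw [← gu2_C, hW.lc _ hC, hr, pow_zero, divByMonic_one, eval_C]
  have hco : ∀ i, (Q.map (RatFunc.C : N →+* RatFunc N)).coeff i = RatFunc.C (Q.coeff i) :=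
    fun i => coeff_map _ i
  have hne : ∀ i, (Q.map (RatFunc.C : N →+* RatFunc N)).coeff i ≠ 0 → Q.coeff i ≠ 0 :=
    fun i h h2 => h (by rw [hco, h2, map_zero])
  have hne2 : ∀ i, Q.coeff i ≠ 0 → (Q.map (RatFunc.C : N →+* RatFunc N)).coeff i ≠ 0 :=
    fun i h h2 => h ((map_eq_zero (RatFunc.C : N →+* RatFunc N)).1 (by rw [← hco]; exact h2))
  have hQl : Q.coeff Q.natDegree ≠ 0 := leadingCoeff_ne_zero.2 hQ
  obtain ⟨h1, B, hB, hB2⟩ := hU.pol W hW (Q.map (RatFunc.C : N →+* RatFunc N)) (by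
    intro i hi
    rw [hco, (hcst _ (hne i hi)).1]) ⟨Q.natDegree, hne2 _ hQl, by
      rw [hco, (hcst _ hQl).1]⟩
  refine ⟨h1, ?_⟩
  have e : B = Q := by
    ext i
    rw [hB i]
    by_cases h : Q.coeff i = 0
    · rw [if_neg (fun h2 => hne i h2.1 h), h]
    · rw [if_pos ⟨hne2 i h, by rw [hco, (hcst _ h).1]⟩, hco, (hcst _ h).2]
  rw [hB2, e]

/-- smooth polynomials have smooth leading coefficients -/
private lemma gu2_sm {U : AC (RatFunc (RatFunc N)) (RatFunc N)} (hC : GsC U) {S : Set (RatFunc N)[X]} {S' : Set N[X]}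
    (hS : ∀ Q ∈ S, Q ≠ 0 → ∃ B : N[X], B ≠ 0 ∧ SRG.Sm S' B ∧
      U.lc (algebraMap (RatFunc N)[X] (RatFunc (RatFunc N)) Q) = algebraMap N[X] (RatFunc N) B)
    (A : (RatFunc N)[X]) (hA : A ≠ 0) (hs : SRG.Sm S A) : ∃ B : N[X], B ≠ 0 ∧ SRG.Sm S' B ∧
      U.lc (algebraMap (RatFunc N)[X] (RatFunc (RatFunc N)) A) =
        algebraMap N[X] (RatFunc N) B := by
  refine SRG.sm_ind (S := S) (M := fun A => ∃ B : N[X], B ≠ 0 ∧ SRG.Sm S' B ∧
      U.lc (algebraMap (RatFunc N)[X] (RatFunc (RatFunc N)) A) =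
        algebraMap N[X] (RatFunc N) B) ?_ ?_ ?_ A hA hs
  · intro c hc
    obtain ⟨c', hc', e⟩ := hC c hc
    refine ⟨C c', C_ne_zero.2 hc', SRG.sm_C S' c', ?_⟩
    rw [gu2_C, gu2_C, e]
  · intro Q hQ _ hQi
    exact hS Q hQ hQi.ne_zero
  · rintro A1 A2 - - - - ⟨B1, hB1, hs1, e1⟩ ⟨B2, hB2, hs2, e2⟩
    refine ⟨B1 * B2, mul_ne_zero hB1 hB2, hs1.mul hs2, ?_⟩
    rw [map_mul, map_mul, e1, e2, map_mul]

private lemma gu2_sg {U : AC (RatFunc (RatFunc N)) (RatFunc N)}
    {S : Set (RatFunc N)[X]} {S' : Set N[X]}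
    (hS : ∀ A : (RatFunc N)[X], A ≠ 0 → SRG.Sm S A → ∃ B : N[X], B ≠ 0 ∧ SRG.Sm S' B ∧
      U.lc (algebraMap (RatFunc N)[X] (RatFunc (RatFunc N)) A) = algebraMap N[X] (RatFunc N) B)
    {g : Additive (RatFunc (RatFunc N))ˣ} (hg : g ∈ SG S) : U.lH g ∈ SG S' := by
  induction hg using AddSubgroup.closure_induction with
  | mem v hv =>
    obtain ⟨A, hA, hA', rfl⟩ := hv
    obtain ⟨B, hB, hB', e⟩ := hS A hA hA'
    rw [QPL.lH_lg U (gu2_am hA), e]
    exact SG_pl hB hB'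
  | zero => rw [map_zero]; exact (SG S').zero_mem
  | add v w _ _ hv hw => rw [map_add]; exact (SG S').add_mem hv hw
  | neg v _ hv => rw [map_neg]; exact (SG S').neg_mem hv

private lemma gu2_el0 (S' : Set N[X]) : El S' (0 : RatFunc N) := by
  refine ⟨?_, ?_⟩
  · rw [lg_zero]; exact (SG S').zero_mem
  · rw [sub_zero, lg_one]; exact (SG S').zero_mem

private lemma gu2_el {U : AC (RatFunc (RatFunc N)) (RatFunc N)}
    {S : Set (RatFunc N)[X]} {S' : Set N[X]} (hS : ∀ g ∈ SG S, U.lH g ∈ SG S')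
    {x : RatFunc (RatFunc N)} (hx : El S x) (hx0 : x ≠ 0) (hv : U.v x = 0) :
    El S' (U.lc x) := by
  refine ⟨?_, ?_⟩
  · rw [← QPL.lH_lg U hx0]
    exact hS _ hx.1
  · by_cases h : (1 : RatFunc N) + U.lc (-x) = 0
    · rw [U.lc_neg, ← sub_eq_add_neg] at h
      rw [h, lg_zero]
      exact (SG S').zero_mem
    · obtain ⟨h1, -, h3⟩ := U.add_ne (x := 1) (y := -x) one_ne_zero (neg_ne_zero.2 hx0)
        (by rw [U.v_neg, hv, U.v_one]) (by rw [map_one]; exact h)
      rw [← sub_eq_add_neg] at h1 h3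
      rw [map_one, U.lc_neg, ← sub_eq_add_neg] at h3
      rw [← h3, ← QPL.lH_lg U h1]
      exact hS _ hx.2

private lemma gu2_lc0 (U : AC (RatFunc (RatFunc N)) (RatFunc N)) : U.lc 0 = 0 := map_zero U.lc

private lemma gu2_elz {U : AC (RatFunc (RatFunc N)) (RatFunc N)}
    {S : Set (RatFunc N)[X]} {S' : Set N[X]} (hS : ∀ g ∈ SG S, U.lH g ∈ SG S')
    {x : RatFunc (RatFunc N)} (hx : El S x) (hv : x = 0 ∨ U.v x = 0) :
    El S' (U.lc x) := by
  by_cases hx0 : x = 0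
  · subst hx0
    rw [gu2_lc0]
    exact gu2_el0 S'
  · rcases hv with hv | hv
    · exact absurd hv hx0
    · exact gu2_el hS hx hx0 hv

/-- the sets of small polynomials -/
private lemma gu2_lt {b : N} {U : AC (RatFunc (RatFunc N)) (RatFunc N)} (hU : IsGs b U)
    (hC : GsC U) (d : ℕ) : ∀ Q ∈ SRG.lt (RatFunc N) d, Q ≠ 0 → ∃ B : N[X], B ≠ 0 ∧
      SRG.Sm (SRG.lt N d) B ∧
      U.lc (algebraMap (RatFunc N)[X] (RatFunc (RatFunc N)) Q) =
        algebraMap N[X] (RatFunc N) B := by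
  intro Q hQ hQ0
  obtain ⟨B, hB, hd, e⟩ := gu2_pol hU hC hQ0
  refine ⟨B, hB, Or.inr fun R hRm hRi hRB => ⟨hRm, hRi, ?_⟩, e⟩
  have h1 := natDegree_le_of_dvd hRB hB
  exact (h1.trans hd).trans_lt hQ.2.2

private lemma gu2_d {q : SRG.Pl N k} {p : SRG.Pl (RatFunc N) (RatFunc k)}
    (hp : p.P = q.P.map (RatFunc.C : N →+* RatFunc N)) : p.d = q.d := by
  rw [SRG.Pl.d, SRG.Pl.d, hp, natDegree_map]

private lemma gu2_ins {b : N} {U : AC (RatFunc (RatFunc N)) (RatFunc N)} (hU : IsGs b U)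
    (hC : GsC U) (q : SRG.Pl N k) (p : SRG.Pl (RatFunc N) (RatFunc k))
    (hp : p.P = q.P.map (RatFunc.C : N →+* RatFunc N)) :
    ∀ Q ∈ insert p.P (SRG.lt (RatFunc N) p.d), Q ≠ 0 → ∃ B : N[X], B ≠ 0 ∧
      SRG.Sm (insert q.P (SRG.lt N q.d)) B ∧
      U.lc (algebraMap (RatFunc N)[X] (RatFunc (RatFunc N)) Q) =
        algebraMap N[X] (RatFunc N) B := by
  intro Q hQ hQ0
  rcases hQ with rfl | hQ
  · refine ⟨q.P, q.irr.ne_zero, Or.inr fun R hRm hRi hRq => Or.inl ?_, ?_⟩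
    · exact eq_of_monic_of_associated hRm q.monic
        (hRi.associated_of_dvd q.irr hRq)
    · rw [hp]
      exact (gu2_cst hU q.irr.ne_zero).2
  · rw [gu2_d hp] at hQ
    obtain ⟨B, h1, h2, h3⟩ := gu2_lt hU hC q.d Q hQ hQ0
    exact ⟨B, h1, h2.mono (Set.subset_insert _ _), h3⟩

private lemma gu2_sgi {b : N} {U : AC (RatFunc (RatFunc N)) (RatFunc N)} (hU : IsGs b U)
    (hC : GsC U) (q : SRG.Pl N k) (p : SRG.Pl (RatFunc N) (RatFunc k))
    (hp : p.P = q.P.map (RatFunc.C : N →+* RatFunc N)) :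
    ∀ g ∈ SG (insert p.P (SRG.lt (RatFunc N) p.d)), U.lH g ∈ SG (insert q.P (SRG.lt N q.d)) :=
  fun _ hg => gu2_sg (gu2_sm hC (gu2_ins hU hC q p hp)) hg

private lemma gu2_sgl {b : N} {U : AC (RatFunc (RatFunc N)) (RatFunc N)} (hU : IsGs b U)
    (hC : GsC U) (q : SRG.Pl N k) (p : SRG.Pl (RatFunc N) (RatFunc k))
    (hp : p.P = q.P.map (RatFunc.C : N →+* RatFunc N)) :
    ∀ g ∈ SG (SRG.lt (RatFunc N) p.d), U.lH g ∈ SG (SRG.lt N q.d) := by
  rw [gu2_d hp]
  exact fun _ hg => gu2_sg (gu2_sm hC (gu2_lt hU hC q.d)) hg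

theorem gs_lv {b : N} {U : AC (RatFunc (RatFunc N)) (RatFunc N)} (hU : IsGs b U)
    (hC : GsC U) (q : SRG.Pl N k) (p : SRG.Pl (RatFunc N) (RatFunc k))
    (hp : p.P = q.P.map (RatFunc.C : N →+* RatFunc N)) {y : X 1 (RatFunc (RatFunc N))}
    (hy : y ∈ Lv 1 (insert p.P (SRG.lt (RatFunc N) p.d))) :
    spX U 1 y ∈ Lv 1 (insert q.P (SRG.lt N q.d)) := by
  have h := gu2_sgi hU hC q p hp
  induction hy using Submodule.span_induction with
  | mem z hz =>
    obtain ⟨x, ω, h1, h2, rfl⟩ := hz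
    rw [spX_bx]
    split_ifs with hx
    · exact Submodule.subset_span ⟨_, _, gu2_elz h h1 hx, TS_map 1 U.lH h h2, rfl⟩
    · exact Submodule.zero_mem _
  | zero => rw [map_zero]; exact Submodule.zero_mem _
  | add a b _ _ ha hb => rw [map_add]; exact Submodule.add_mem _ ha hb
  | smul c a _ ha => rw [map_smul]; exact Submodule.smul_mem _ c ha

private lemma gu2_w1 (U : AC (RatFunc (RatFunc N)) (RatFunc N))
    (a : Additive (RatFunc (RatFunc N))ˣ) : spT U 1 (w1 a) = w1 (U.lH a) := by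
  rw [w1, w1, spT_wT]
  congr 1
  rw [u0, u0, TGF.spT, tm_dm]
  congr 1
  funext i
  exact i.elim0

theorem gs_lvp {b : N} {U : AC (RatFunc (RatFunc N)) (RatFunc N)} (hU : IsGs b U)
    (hC : GsC U) (q : SRG.Pl N k) (p : SRG.Pl (RatFunc N) (RatFunc k))
    (hp : p.P = q.P.map (RatFunc.C : N →+* RatFunc N)) {y : X 1 (RatFunc (RatFunc N))}
    (hy : y ∈ LvP p (SRG.lt (RatFunc N) p.d)) : spX U 1 y ∈ LvP q (SRG.lt N q.d) := by
  have h := gu2_sgi hU hC q p hp
  have h' := gu2_sgl hU hC q p hp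
  induction hy using Submodule.span_induction with
  | mem z hz =>
    rcases hz with ⟨x, ω, h1, h2, rfl⟩ | ⟨x, h1, h2, rfl⟩
    · rw [spX_bx]
      split_ifs with hx
      · exact Submodule.subset_span (Or.inl ⟨_, _, gu2_elz h h1 hx, TS_map 1 U.lH h' h2, rfl⟩)
      · exact Submodule.zero_mem _
    · rw [spX_bx]
      split_ifs with hx
      · refine Submodule.subset_span (Or.inr ⟨_, gu2_elz h h1 hx, ?_, ?_⟩)
        · rw [← gu2_d hp]
          obtain ⟨A, B, hB, hdA, hdB, e⟩ := h2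
          by_cases hA : A = 0
          · rw [e, hA, map_zero, zero_div, gu2_lc0]
            exact ⟨0, 1, one_ne_zero, by rw [natDegree_zero]; exact Nat.zero_le _,
              by rw [natDegree_one]; exact Nat.zero_le _, by rw [map_zero, zero_div]⟩
          · obtain ⟨A', hA', hdA', eA⟩ := gu2_pol hU hC hA
            obtain ⟨B', hB', hdB', eB⟩ := gu2_pol hU hC hB
            exact ⟨A', B', hB', hdA'.trans hdA, hdB'.trans hdB, by rw [e, U.lc_div, eA, eB]⟩
        · rw [gu2_w1, QPL.lH_lg U (gu2_am p.irr.ne_zero), hp, (gu2_cst hU q.irr.ne_zero).2]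
      · exact Submodule.zero_mem _
  | zero => rw [map_zero]; exact Submodule.zero_mem _
  | add a b _ _ ha hb => rw [map_add]; exact Submodule.add_mem _ ha hb
  | smul c a _ ha => rw [map_smul]; exact Submodule.smul_mem _ c ha

theorem gs_dl {b : N} {U : AC (RatFunc (RatFunc N)) (RatFunc N)} (hU : IsGs b U)
    (hC : GsC U) (q : SRG.Pl N k) (p : SRG.Pl (RatFunc N) (RatFunc k))
    (hp : p.P = q.P.map (RatFunc.C : N →+* RatFunc N)) {σ : D (RatFunc (RatFunc N))}
    (hσ : σ ∈ DL (insert p.P (SRG.lt (RatFunc N) p.d))) :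
    spD U σ ∈ DL (insert q.P (SRG.lt N q.d)) := by
  have h := gu2_sgi hU hC q p hp
  induction hσ using Submodule.span_induction with
  | mem z hz =>
    obtain ⟨x, y, h1, h2, rfl⟩ := hz
    rw [spD_sb]
    split_ifs with hx
    · exact Submodule.subset_span ⟨_, _, gu2_el h h1 hx.1 hx.2.1, gu2_el h h2 hx.2.2.1 hx.2.2.2,
        rfl⟩
    · exact Submodule.zero_mem _
  | zero => rw [map_zero]; exact Submodule.zero_mem _
  | add a b _ _ ha hb => rw [map_add]; exact Submodule.add_mem _ ha hb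
  | smul c a _ ha => rw [map_smul]; exact Submodule.smul_mem _ c ha

end

end GD3
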