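import Pool.Agent.GD3.Gu2
import Pool.Agent.GD3.Gm

set_option autoImplicit false

/-!
# GD3-Gu3: Gauss specialisation and the residue at P

PLAN.  M = RatFunc N, d = q.d.  Key (gu_red): A ∈ M[X] nonzero of degree < d: write A = C a * A' with A' primitive over s = b (coefficients of value ≥ 0, one of value 0; W0 = valuation at b of N(s)).  p.r A = rm(a) * Σ rm(a'_i) C(θ)^i, θ = q.r X; the element Σ rm(a'_i) θ^i of k(s) has Wb-value ≥ 0 and its reduction is
Σ_i red(a'_i) θ^i = q.r B, B as in IsGs.pol, deg B < d, B ≠ 0, so q.r B ≠ 0: value 0, leading coefficient q.r B.  (Wb restricted to N(s) by rm is W0: both are valuations at b: for polynomials over N mapped to k: rootMultiplicity and the leading coefficient are preserved by the field extension: IsAt.v, IsAt.lc or spec.)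
So Wb.v (p.r A) = W0.v a = U.v A, and for a quotient x = A1/A2 of products of such polynomials with U.v x = 0: Wb.lc (p.r A1 / p.r A2) = q.r B1 / q.r B2 up to the constants: (Wb.lc of rm a1/rm a2) = W0.lc (a1/a2) and U.lc (C (a1/a2)) = RatFunc.C (W0.lc (a1/a2)) when the value is 0 (IsGs.v).
In terms of x ∈ RatFunc M with lg x ∈ SG (lt M d): Vp.v x = 0, Vp.lc x = reduction mod P; Vq.v (U.lc x) = 0; claim: Wb.v (Vp.lc x) = U.v x, and if U.v x = 0 then Wb.lc (Vp.lc x) = Vq.lc (U.lc x).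
Statement for a generator y = bx x ω, El (insert p.P (lt M d)) x, ω = w1 g, g ∈ SG (insert p.P (lt M d)) (span_induction; TS 1): g = m P + g0 (SG_insert).  reX Vp 0 y = m [Vp.lc x] if x = 0 or Vp.v x = 0, else 0.  x = 0: both sides are multiples of [0].  x = P^n x0, x0 ∈ SG (lt M d).
 n ≠ 0: Vp.v x = n ≠ 0: reX Vp 0 y = 0; if U.v x = 0: U.lc x = P^n U.lc x0, Vq.v = n ≠ 0: 0; otherwise spX U 1 y = 0.  n = 0: by the claim; the slot: spT U 1 (w1 g) = w1 (U.lH g), Vq.vH (U.lH g) = m (U.lH g0 ∈ SG (lt N d) has value 0, see gs_sg in Gu2; U.lc P = q.P).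
 If Wb.v (Vp.lc x) = U.v x ≠ 0 both sides are 0.
-/

noncomputable section

open Polynomial TensorProduct
open scoped Classical

namespace GD3

open Helper14.Gon Helper14.W4 QPL TGF

universe u

section
variable {N k : Type u} [Field N] [Field k]

private theorem g3_rm (φ : N →+* k) (A : N[X]) :
    rm φ (algebraMap N[X] (RatFunc N) A) = algebraMap k[X] (RatFunc k) (A.map φ) := by
  have h1 := RatFunc.map_apply_div (mapRingHom φ) (by
    intro P hP
    rw [Submonoid.mem_comap, mem_nonZeroDivisors_iff_ne_zero]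
    rw [mem_nonZeroDivisors_iff_ne_zero] at hP
    intro h
    exact hP (map_injective φ φ.injective (by rw [Polynomial.map_zero]; exact h))) A 1
  rw [map_one, map_one, map_one, div_one, div_one] at h1
  exact h1

private theorem g3_am {F : Type u} [Field F] {A : F[X]} (hA : A ≠ 0) :
    algebraMap F[X] (RatFunc F) A ≠ 0 :=
  RatFunc.algebraMap_ne_zero hA

private theorem g3_map_ne (φ : N →+* k) {A : N[X]} (hA : A ≠ 0) : A.map φ ≠ 0 := by
  intro h
  exact hA (map_injective φ φ.injective (by rw [Polynomial.map_zero]; exact h))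

/-- the valuations at `b` and at `φ b` on polynomials -/
private theorem g3_pol {b : N} (φ : N →+* k) {W0 : AC (RatFunc N) N} (h0 : IsAt b W0)
    {Wb : AC (RatFunc k) k} (hb : IsAt (φ b) Wb) {A : N[X]} (hA : A ≠ 0) :
    Wb.v (algebraMap k[X] (RatFunc k) (A.map φ)) = W0.v (algebraMap N[X] (RatFunc N) A) ∧
    Wb.lc (algebraMap k[X] (RatFunc k) (A.map φ)) =
      φ (W0.lc (algebraMap N[X] (RatFunc N) A)) := by
  have hm : rootMultiplicity (φ b) (A.map φ) = rootMultiplicity b A :=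
    (eq_rootMultiplicity_map φ.injective b).symm
  have hmn := g3_map_ne φ hA
  constructor
  · rw [hb.v _ hmn, h0.v _ hA, hm]
  · rw [hb.lc _ hmn, h0.lc _ hA, hm]
    have h1 : ((Polynomial.X - C b) ^ rootMultiplicity b A : N[X]).map φ =
        (Polynomial.X - C (φ b)) ^ rootMultiplicity b A := by
      rw [Polynomial.map_pow, Polynomial.map_sub, map_X, map_C]
    rw [← h1, ← map_divByMonic φ ((monic_X_sub_C b).pow _), eval_map, eval₂_hom]

/-- the valuations at `b` and at `φ b` -/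
private theorem g3_val {b : N} (φ : N →+* k) {W0 : AC (RatFunc N) N} (h0 : IsAt b W0)
    {Wb : AC (RatFunc k) k} (hb : IsAt (φ b) Wb) {x : RatFunc N} (hx : x ≠ 0) :
    Wb.v (rm φ x) = W0.v x ∧ Wb.lc (rm φ x) = φ (W0.lc x) := by
  have hd : x.denom ≠ 0 := x.denom_ne_zero
  have hn : x.num ≠ 0 := RatFunc.num_ne_zero hx
  have hx' : algebraMap N[X] (RatFunc N) x.num / algebraMap N[X] (RatFunc N) x.denom = x :=
    RatFunc.num_div_denom x
  have hrx : rm φ x = algebraMap k[X] (RatFunc k) (x.num.map φ) /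
      algebraMap k[X] (RatFunc k) (x.denom.map φ) := by
    conv_lhs => rw [← hx']
    rw [map_div₀, g3_rm, g3_rm]
  obtain ⟨n1, n2⟩ := g3_pol φ h0 hb hn
  obtain ⟨d1, d2⟩ := g3_pol φ h0 hb hd
  constructor
  · rw [hrx, Wb.v_div (g3_am (g3_map_ne φ hn)) (g3_am (g3_map_ne φ hd)), n1, d1]
    conv_rhs => rw [← hx']
    rw [W0.v_div (g3_am hn) (g3_am hd)]
  · rw [hrx, map_div₀, n2, d2]
    conv_rhs => rw [← hx']
    rw [map_div₀, map_div₀]

private theorem g3_ini {b : N} (φ : N →+* k) {W0 : AC (RatFunc N) N} (h0 : IsAt b W0)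
    {Wb : AC (RatFunc k) k} (hb : IsAt (φ b) Wb) {x : RatFunc N} (hx : W0.ge 0 x) :
    Wb.ge 0 (rm φ x) ∧ Wb.ini 0 (rm φ x) = φ (W0.ini 0 x) := by
  by_cases h : x = 0
  · subst h
    rw [map_zero, Wb.ini_zero, W0.ini_zero, map_zero]
    exact ⟨Or.inl rfl, rfl⟩
  · obtain ⟨h1, h2⟩ := g3_val φ h0 hb h
    refine ⟨Or.inr (by rw [h1]; exact hx.resolve_left h), ?_⟩
    rw [AC.ini, AC.ini]
    by_cases h3 : W0.v x = 0
    · rw [if_pos ⟨(_root_.map_ne_zero _).2 h, by rw [h1]; exact h3⟩, if_pos ⟨h, h3⟩, h2]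
    · rw [if_neg (fun h4 => h3 (by rw [← h1]; exact h4.2)), if_neg (fun h4 => h3 h4.2), map_zero]

/-- constants -/
private theorem g3_C {F : Type u} [Field F] {b : F} {W : AC (RatFunc F) F}
    (hW : IsAt b W) {c : F} (hc : c ≠ 0) : W.v (RatFunc.C c) = 0 ∧ W.lc (RatFunc.C c) = c := by
  have h1 : (RatFunc.C c : RatFunc F) = algebraMap F[X] (RatFunc F) (C c) :=
    (RatFunc.algebraMap_C c).symm
  have h2 : (C c : F[X]) ≠ 0 := C_ne_zero.2 hc
  have h3 : rootMultiplicity b (C c : F[X]) = 0 := rootMultiplicity_C c b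
  rw [h1]
  constructor
  · rw [hW.v _ h2, h3, Nat.cast_zero]
  · rw [hW.lc _ h2, h3, pow_zero, divByMonic_one, eval_C]

private theorem g3_ptC {F l : Type u} [Field F] [Field l] (q : SRG.Pl F l) {V : AC (RatFunc F) l}
    (hV : IsPt q V) {c : F} (hc : c ≠ 0) :
    V.v (RatFunc.C c) = 0 ∧ V.lc (RatFunc.C c) = q.r (C c) := by
  have h1 : (RatFunc.C c : RatFunc F) = algebraMap F[X] (RatFunc F) (C c) :=
    (RatFunc.algebraMap_C c).symm
  have h2 : ¬ q.P ∣ C c := by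
    intro h
    exact q.irr.not_isUnit (isUnit_of_dvd_unit h (isUnit_C.2 (isUnit_iff_ne_zero.2 hc)))
  rw [h1]
  exact ⟨hV.v _ h2, hV.lc _ h2⟩

private theorem g3_ptlt {F l : Type u} [Field F] [Field l] (q : SRG.Pl F l) {V : AC (RatFunc F) l}
    (hV : IsPt q V) {A : F[X]} (hA : A ≠ 0) (hd : A.natDegree < q.P.natDegree) :
    V.v (algebraMap F[X] (RatFunc F) A) = 0 ∧
      V.lc (algebraMap F[X] (RatFunc F) A) = q.r A := by
  have h2 : ¬ q.P ∣ A := by
    intro h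
    exact absurd (natDegree_le_of_dvd h hA) (not_le.2 hd)
  exact ⟨hV.v _ h2, hV.lc _ h2⟩

/-- scaling a polynomial -/
private theorem g3_scale (W0 : AC (RatFunc N) N) {A : (RatFunc N)[X]} (hA : A ≠ 0) :
    ∃ (a : RatFunc N) (A' : (RatFunc N)[X]), a ≠ 0 ∧ A = C a * A' ∧ A' ≠ 0 ∧
      A'.natDegree = A.natDegree ∧
      (∀ i, A'.coeff i ≠ 0 → 0 ≤ W0.v (A'.coeff i)) ∧
      (∃ i, A'.coeff i ≠ 0 ∧ W0.v (A'.coeff i) = 0) := by
  have hs : A.support.Nonempty := by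
    rw [nonempty_support_iff]; exact hA
  obtain ⟨i0, hi0, hmin⟩ := Finset.exists_min_image A.support (fun i => W0.v (A.coeff i)) hs
  have ha : A.coeff i0 ≠ 0 := mem_support_iff.1 hi0
  refine ⟨A.coeff i0, C (A.coeff i0)⁻¹ * A, ha, ?_, ?_, ?_, ?_, ?_⟩
  · rw [← mul_assoc, ← C_mul, mul_inv_cancel₀ ha, C_1, one_mul]
  · exact mul_ne_zero (C_ne_zero.2 (inv_ne_zero ha)) hA
  · rw [natDegree_C_mul (inv_ne_zero ha)]
  · intro i hi
    rw [coeff_C_mul] at hi ⊢
    have h1 : A.coeff i ≠ 0 := right_ne_zero_of_mul hi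
    rw [W0.v_mul (inv_ne_zero ha) h1, W0.v_inv ha]
    have h2 := hmin i (mem_support_iff.2 h1)
    linarith
  · refine ⟨i0, ?_, ?_⟩
    · rw [coeff_C_mul, inv_mul_cancel₀ ha]
      exact one_ne_zero
    · rw [coeff_C_mul, inv_mul_cancel₀ ha, W0.v_one]

/-- the main computation: reduction modulo `P` and at `s = b` -/
private theorem g3_prim {b : N} {U : AC (RatFunc (RatFunc N)) (RatFunc N)} (hU : IsGs b U)
    (q : SRG.Pl N k) (p : SRG.Pl (RatFunc N) (RatFunc k))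
    (hp : p.P = q.P.map (RatFunc.C : N →+* RatFunc N))
    (hX : p.r Polynomial.X = RatFunc.C (q.r Polynomial.X))
    (hc : ∀ c : RatFunc N, p.r (Polynomial.C c) = rm (q.r.comp Polynomial.C) c)
    {Vp : AC (RatFunc (RatFunc N)) (RatFunc k)} (hVp : IsPt p Vp)
    {Vq : AC (RatFunc N) k} (hVq : IsPt q Vq)
    {Wb : AC (RatFunc k) k} (hWb : IsAt (q.r (Polynomial.C b)) Wb)
    {W0 : AC (RatFunc N) N} (h0 : IsAt b W0) {A : (RatFunc N)[X]} (hA0 : A ≠ 0)
    (hd : A.natDegree < p.P.natDegree)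
    (h1 : ∀ i, A.coeff i ≠ 0 → 0 ≤ W0.v (A.coeff i))
    (h2 : ∃ i, A.coeff i ≠ 0 ∧ W0.v (A.coeff i) = 0) :
    U.v (algebraMap _ (RatFunc (RatFunc N)) A) = 0 ∧
    Vp.v (algebraMap _ (RatFunc (RatFunc N)) A) = 0 ∧
    Vq.v (U.lc (algebraMap _ (RatFunc (RatFunc N)) A)) = 0 ∧
    Wb.v (Vp.lc (algebraMap _ (RatFunc (RatFunc N)) A)) = 0 ∧
    Wb.lc (Vp.lc (algebraMap _ (RatFunc (RatFunc N)) A)) =
      Vq.lc (U.lc (algebraMap _ (RatFunc (RatFunc N)) A)) := by
  obtain ⟨hv, B, hB, hlc⟩ := hU.pol W0 h0 A h1 h2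
  have hB' : ∀ i, B.coeff i = W0.ini 0 (A.coeff i) := fun i => by rw [hB i, AC.ini]
  have hge : ∀ i, W0.ge 0 (A.coeff i) := by
    intro i
    by_cases h : A.coeff i = 0
    · exact Or.inl h
    · exact Or.inr (h1 i h)
  have hB0 : B ≠ 0 := by
    obtain ⟨i, hi, hi'⟩ := h2
    intro h
    have h3 := hB i
    rw [if_pos ⟨hi, hi'⟩, h, coeff_zero] at h3
    exact W0.lc_ne hi h3.symm
  have hdB : B.natDegree ≤ A.natDegree := by
    refine natDegree_le_iff_coeff_eq_zero.2 fun i hi => ?_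
    rw [hB', coeff_eq_zero_of_natDegree_lt hi, W0.ini_zero]
  have hdq : B.natDegree < q.P.natDegree := by
    have h3 : p.P.natDegree = q.P.natDegree := by rw [hp, natDegree_map]
    omega
  obtain ⟨b1, b2⟩ := g3_ptlt q hVq hB0 hdq
  obtain ⟨a1, a2⟩ := g3_ptlt p hVp hA0 hd
  have hqB : q.r B ≠ 0 := by
    intro h
    rw [q.ker] at h
    exact absurd (natDegree_le_of_dvd h hB0) (not_le.2 hdq)
  have hφb : q.r (Polynomial.C b) = (q.r.comp Polynomial.C) b := rfl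
  rw [hφb] at hWb
  have hgt : Wb.ge 0 (RatFunc.C (q.r Polynomial.X) : RatFunc k) ∧
      Wb.ini 0 (RatFunc.C (q.r Polynomial.X) : RatFunc k) = q.r Polynomial.X := by
    by_cases h : q.r Polynomial.X = 0
    · rw [h, map_zero, Wb.ini_zero]
      exact ⟨Or.inl rfl, rfl⟩
    · obtain ⟨e1, e2⟩ := g3_C hWb h
      refine ⟨Or.inr (by rw [e1]), ?_⟩
      rw [AC.ini, if_pos ⟨(_root_.map_ne_zero _).2 h, e1⟩, e2]
  have hpow : ∀ i : ℕ, Wb.ge 0 ((RatFunc.C (q.r Polynomial.X) : RatFunc k) ^ i) ∧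
      Wb.ini 0 ((RatFunc.C (q.r Polynomial.X) : RatFunc k) ^ i) = (q.r Polynomial.X) ^ i := by
    intro i
    induction i with
    | zero =>
      rw [pow_zero, pow_zero, Wb.ini_one]
      exact ⟨Or.inr (by rw [Wb.v_one]), rfl⟩
    | succ i ih =>
      have e1 := Wb.ge_mul ih.1 hgt.1
      have e2 := Wb.ini_mul ih.1 hgt.1
      rw [add_zero] at e1 e2
      rw [pow_succ, pow_succ, e2, ih.2, hgt.2]
      exact ⟨e1, rfl⟩
  have hterm : ∀ i : ℕ, Wb.ge 0 (rm (q.r.comp Polynomial.C) (A.coeff i) *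
      (RatFunc.C (q.r Polynomial.X) : RatFunc k) ^ i) ∧
      Wb.ini 0 (rm (q.r.comp Polynomial.C) (A.coeff i) *
      (RatFunc.C (q.r Polynomial.X) : RatFunc k) ^ i) =
        (q.r.comp Polynomial.C) (B.coeff i) * (q.r Polynomial.X) ^ i := by
    intro i
    obtain ⟨e1, e2⟩ := g3_ini (q.r.comp Polynomial.C) h0 hWb (hge i)
    have e3 := Wb.ge_mul e1 (hpow i).1
    have e4 := Wb.ini_mul e1 (hpow i).1
    rw [add_zero] at e3 e4
    rw [e4, e2, (hpow i).2, hB']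
    exact ⟨e3, rfl⟩
  have hpA : p.r A = ∑ i ∈ A.support, rm (q.r.comp Polynomial.C) (A.coeff i) *
      (RatFunc.C (q.r Polynomial.X) : RatFunc k) ^ i := by
    conv_lhs => rw [A.as_sum_support_C_mul_X_pow]
    rw [map_sum]
    refine Finset.sum_congr rfl fun i _ => ?_
    rw [map_mul, map_pow, hX, hc]
  have hqB2 : q.r B = ∑ i ∈ A.support, (q.r.comp Polynomial.C) (B.coeff i) *
      (q.r Polynomial.X) ^ i := by
    have h3 : B.support ⊆ A.support := by
      intro i hi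
      rw [mem_support_iff] at hi ⊢
      intro h4
      apply hi
      rw [hB', h4, W0.ini_zero]
    have h4 : B = ∑ i ∈ A.support, C (B.coeff i) * Polynomial.X ^ i := by
      conv_lhs => rw [B.as_sum_support_C_mul_X_pow]
      refine Finset.sum_subset h3 fun i _ hi => ?_
      rw [notMem_support_iff.1 hi, C_0, zero_mul]
    conv_lhs => rw [h4]
    rw [map_sum]
    refine Finset.sum_congr rfl fun i _ => ?_
    rw [map_mul, map_pow]
    rfl
  have hini : Wb.ini 0 (p.r A) = q.r B := by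
    rw [hpA, Wb.ini_sum _ _ (fun i _ => (hterm i).1), hqB2]
    exact Finset.sum_congr rfl fun i _ => (hterm i).2
  obtain ⟨r1, r2, r3⟩ := Wb.of_ini_ne (m := 0) (x := p.r A) (by rw [hini]; exact hqB)
  refine ⟨hv, a1, ?_, ?_, ?_⟩
  · rw [hlc]; exact b1
  · rw [a2]; exact r2
  · rw [a2, hlc, b2, r3, hini]

/-- `x = a x'` with `x'` of good reduction -/
private def GE (U : AC (RatFunc (RatFunc N)) (RatFunc N))
    (Vp : AC (RatFunc (RatFunc N)) (RatFunc k)) (Vq : AC (RatFunc N) k) (Wb : AC (RatFunc k) k)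
    (x : RatFunc (RatFunc N)) : Prop :=
  ∃ (a : RatFunc N) (x' : RatFunc (RatFunc N)), a ≠ 0 ∧ x' ≠ 0 ∧ x = RatFunc.C a * x' ∧
    U.v x' = 0 ∧ Vp.v x' = 0 ∧ Vq.v (U.lc x') = 0 ∧ Wb.v (Vp.lc x') = 0 ∧
    Wb.lc (Vp.lc x') = Vq.lc (U.lc x')

private theorem g3_ge_mul {U : AC (RatFunc (RatFunc N)) (RatFunc N)}
    {Vp : AC (RatFunc (RatFunc N)) (RatFunc k)} {Vq : AC (RatFunc N) k} {Wb : AC (RatFunc k) k}
    {x y : RatFunc (RatFunc N)} (hx : GE U Vp Vq Wb x) (hy : GE U Vp Vq Wb y) :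
    GE U Vp Vq Wb (x * y) := by
  obtain ⟨a, x', ha, hx', rfl, x1, x2, x3, x4, x5⟩ := hx
  obtain ⟨c, y', hc, hy', rfl, y1, y2, y3, y4, y5⟩ := hy
  refine ⟨a * c, x' * y', mul_ne_zero ha hc, mul_ne_zero hx' hy', ?_, ?_, ?_, ?_, ?_, ?_⟩
  · rw [map_mul]; ring
  · rw [U.v_mul hx' hy', x1, y1, add_zero]
  · rw [Vp.v_mul hx' hy', x2, y2, add_zero]
  · rw [map_mul, Vq.v_mul (U.lc_ne hx') (U.lc_ne hy'), x3, y3, add_zero]
  · rw [map_mul, Wb.v_mul (Vp.lc_ne hx') (Vp.lc_ne hy'), x4, y4, add_zero]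
  · rw [map_mul, map_mul, map_mul, map_mul, x5, y5]

private theorem g3_ge_inv {U : AC (RatFunc (RatFunc N)) (RatFunc N)}
    {Vp : AC (RatFunc (RatFunc N)) (RatFunc k)} {Vq : AC (RatFunc N) k} {Wb : AC (RatFunc k) k}
    {x : RatFunc (RatFunc N)} (hx : GE U Vp Vq Wb x) : GE U Vp Vq Wb x⁻¹ := by
  obtain ⟨a, x', ha, hx', rfl, x1, x2, x3, x4, x5⟩ := hx
  refine ⟨a⁻¹, x'⁻¹, inv_ne_zero ha, inv_ne_zero hx', ?_, ?_, ?_, ?_, ?_, ?_⟩
  · rw [mul_inv, map_inv₀]
  · rw [U.v_inv hx', x1, neg_zero]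
  · rw [Vp.v_inv hx', x2, neg_zero]
  · rw [U.lc_inv, Vq.v_inv (U.lc_ne hx'), x3, neg_zero]
  · rw [Vp.lc_inv, Wb.v_inv (Vp.lc_ne hx'), x4, neg_zero]
  · rw [Vp.lc_inv, Wb.lc_inv, U.lc_inv, Vq.lc_inv, x5]

private theorem g3_tm0 {F l : Type u} [Field F] [Field l] (σ σ' : Additive Fˣ →+ Additive lˣ)
    (ω : Tx 0 F) : tm 0 σ ω = tm 0 σ' ω := by
  have : tm 0 σ = tm 0 σ' := by
    refine Helper14.W4.Tx_ext fun v => ?_
    change tm 0 σ (dm v) = tm 0 σ' (dm v)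
    rw [tm_dm, tm_dm]
    congr 1
    funext i
    exact i.elim0
  rw [this]

theorem gs_res {b : N} {U : AC (RatFunc (RatFunc N)) (RatFunc N)} (hU : IsGs b U)
    (hC : GsC U) (q : SRG.Pl N k) (p : SRG.Pl (RatFunc N) (RatFunc k))
    (hp : p.P = q.P.map (RatFunc.C : N →+* RatFunc N))
    (hX : p.r Polynomial.X = RatFunc.C (q.r Polynomial.X))
    (hc : ∀ c : RatFunc N, p.r (Polynomial.C c) = rm (q.r.comp Polynomial.C) c)
    (Vp : AC (RatFunc (RatFunc N)) (RatFunc k)) (hVp : IsPt p Vp)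
    (Vq : AC (RatFunc N) k) (hVq : IsPt q Vq)
    (Wb : AC (RatFunc k) k) (hWb : IsAt (q.r (Polynomial.C b)) Wb)
    {y : X 1 (RatFunc (RatFunc N))} (hy : y ∈ Lv 1 (insert p.P (SRG.lt (RatFunc N) p.d))) :
    reX Vq 0 (spX U 1 y) - spX Wb 0 (reX Vp 0 y) ∈ Z0 0 k := by
  obtain ⟨W0, h0⟩ := exists_at (k := N) b
  have hWb' : IsAt ((q.r.comp Polynomial.C) b) Wb := hWb
  have hPS : p.P ∉ SRG.lt (RatFunc N) p.d := fun h => lt_irrefl _ h.2.2
  have hP0 : algebraMap (RatFunc N)[X] (RatFunc (RatFunc N)) p.P ≠ 0 := g3_am p.irr.ne_zero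
  -- polynomials of degree less than `d`
  have hlow : ∀ A : (RatFunc N)[X], A ≠ 0 → A.natDegree < p.P.natDegree →
      GE U Vp Vq Wb (algebraMap _ (RatFunc (RatFunc N)) A) := by
    intro A hA hd
    obtain ⟨a, A', ha, hAA, hA', hd', h1, h2⟩ := g3_scale W0 hA
    obtain ⟨e1, e2, e3, e4, e5⟩ := g3_prim hU q p hp hX hc hVp hVq hWb h0 hA' (by rw [hd']; exact hd)
      h1 h2
    refine ⟨a, algebraMap _ (RatFunc (RatFunc N)) A', ha, g3_am hA', ?_, e1, e2, e3, e4, e5⟩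
    rw [hAA, map_mul, RatFunc.algebraMap_C]
  have hdpos : 0 < p.P.natDegree := p.irr.natDegree_pos
  have hsm : ∀ A : (RatFunc N)[X], A ≠ 0 → SRG.Sm (SRG.lt (RatFunc N) p.d) A →
      GE U Vp Vq Wb (algebraMap _ (RatFunc (RatFunc N)) A) := by
    intro A hA hs
    refine SRG.sm_ind (M := fun A => GE U Vp Vq Wb (algebraMap _ (RatFunc (RatFunc N)) A))
      ?_ ?_ ?_ A hA hs
    · intro c hc
      exact hlow _ (C_ne_zero.2 hc) (by rw [natDegree_C]; exact hdpos)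
    · intro Q hQ _ _
      exact hlow Q hQ.1.ne_zero hQ.2.2
    · intro A B _ _ _ _ h1 h2
      change GE U Vp Vq Wb (algebraMap _ (RatFunc (RatFunc N)) (A * B))
      rw [map_mul]
      exact g3_ge_mul h1 h2
  have hSG : ∀ x : RatFunc (RatFunc N), x ≠ 0 → lg x ∈ SG (SRG.lt (RatFunc N) p.d) →
      GE U Vp Vq Wb x := by
    intro x hx hlx
    obtain ⟨A, B, hA, hB, hA', hB', rfl⟩ := (SG_iff _ x hx).1 hlx
    rw [div_eq_mul_inv]
    exact g3_ge_mul (hsm A hA hA') (g3_ge_inv (hsm B hB hB'))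
  -- the claim for elements of `SG (lt M d)`
  have hclaim : ∀ x : RatFunc (RatFunc N), x ≠ 0 → lg x ∈ SG (SRG.lt (RatFunc N) p.d) →
      Vq.v (U.lc x) = 0 ∧ Wb.v (Vp.lc x) = U.v x ∧
        (U.v x = 0 → Wb.lc (Vp.lc x) = Vq.lc (U.lc x)) := by
    intro x hx hlx
    obtain ⟨a, x', ha, hx', rfl, x1, x2, x3, x4, x5⟩ := hSG x hx hlx
    have hCa : (RatFunc.C a : RatFunc (RatFunc N)) ≠ 0 := (_root_.map_ne_zero _).2 ha
    obtain ⟨c, hc0, hcc⟩ := hC a ha
    obtain ⟨c1, c2⟩ := g3_ptC q hVq hc0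
    obtain ⟨u1, u2⟩ := hU.v W0 h0 a ha
    obtain ⟨v1, v2⟩ := g3_ptC p hVp ha
    rw [hc] at v2
    obtain ⟨w1, w2⟩ := g3_val (q.r.comp Polynomial.C) h0 hWb' ha
    refine ⟨?_, ?_, ?_⟩
    · rw [map_mul, Vq.v_mul (U.lc_ne hCa) (U.lc_ne hx'), hcc, c1, x3, add_zero]
    · rw [map_mul, Wb.v_mul (Vp.lc_ne hCa) (Vp.lc_ne hx'), v2, w1, x4, U.v_mul hCa hx', u1, x1]
    · intro h
      rw [U.v_mul hCa hx', u1, x1, add_zero] at h
      have hW : W0.lc a ≠ 0 := W0.lc_ne ha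
      rw [map_mul, map_mul, map_mul, map_mul, v2, w2, u2 h, x5, (g3_ptC q hVq hW).2]
      rfl
  -- `P`
  have hUP : U.v (algebraMap _ (RatFunc (RatFunc N)) p.P) = 0 ∧
      U.lc (algebraMap _ (RatFunc (RatFunc N)) p.P) = algebraMap _ (RatFunc N) q.P := by
    have hcoef : ∀ i, p.P.coeff i = RatFunc.C (q.P.coeff i) := fun i => by rw [hp, coeff_map]
    have hz : ∀ i, p.P.coeff i ≠ 0 → q.P.coeff i ≠ 0 := by
      intro i hi h
      apply hi
      rw [hcoef, h, map_zero]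
    obtain ⟨e1, B, e2, e3⟩ := hU.pol W0 h0 p.P (by
      intro i hi
      rw [hcoef, (g3_C h0 (hz i hi)).1]) ⟨p.P.natDegree, by
        rw [coeff_natDegree, p.monic.leadingCoeff]
        exact ⟨one_ne_zero, W0.v_one⟩⟩
    refine ⟨e1, ?_⟩
    rw [e3]
    congr 1
    ext i
    rw [e2 i]
    by_cases hi : p.P.coeff i = 0
    · rw [if_neg (fun h => h.1 hi)]
      rw [hcoef, map_eq_zero] at hi
      exact hi.symm
    · have h1 := g3_C h0 (hz i hi)
      rw [if_pos ⟨hi, by rw [hcoef]; exact h1.1⟩, hcoef, h1.2]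
  -- slots
  have hslot0 : ∀ w ∈ SG (SRG.lt (RatFunc N) p.d), Vq.vH (U.lH w) = 0 := by
    intro w hw
    have hwn : ((Additive.toMul w : (RatFunc (RatFunc N))ˣ) : RatFunc (RatFunc N)) ≠ 0 :=
      Units.ne_zero _
    have hwl : lg ((Additive.toMul w : (RatFunc (RatFunc N))ˣ) : RatFunc (RatFunc N)) = w :=
      lg_unit _
    have h1 := (hclaim _ hwn (by rw [hwl]; exact hw)).1
    rw [← hwl, TGF.lH_lg U hwn, TGF.vH_lg Vq (U.lc_ne hwn)]
    exact h1
  have hslot : ∀ w ∈ SG (insert p.P (SRG.lt (RatFunc N) p.d)), Vq.vH (U.lH w) = Vp.vH w := by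
    intro w hw
    obtain ⟨m, w', hw', rfl⟩ := SG_insert p hPS hw
    rw [map_add, map_add, map_add, hslot0 w' hw', SG_v hVp hPS hw', map_zsmul, map_zsmul,
      map_zsmul, TGF.lH_lg U hP0, hUP.2, TGF.vH_lg Vq (g3_am q.irr.ne_zero), TGF.vH_lg Vp hP0, hVq.vP, hVp.vP]
  -- the claim for all elements of `SG (insert P (lt M d))`
  have hrel : ∀ ω ∈ TS 1 (SG (insert p.P (SRG.lt (RatFunc N) p.d))),
      reT Vq 0 (spT U 1 ω) = spT Wb 0 (reT Vp 0 ω) := by
    intro ω hω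
    refine TS_succ_ind (fun z => reT Vq 0 (spT U 1 z) = spT Wb 0 (reT Vp 0 z)) ?_ ?_ ?_ hω
    · simp only [map_zero]
    · intro a c _ _ h1 h2
      rw [map_add, map_add, map_add, map_add, h1, h2]
    · intro v hv η _
      change reT Vq 0 (tm 1 U.lH (wT 0 v η)) = tm 0 Wb.lH (reT Vp 0 (wT 0 v η))
      rw [tm_wT, TGF.reT_wT_zero, TGF.reT_wT_zero, hslot v hv, map_smul]
      congr 1
      change tm 0 Vq.lH (tm 0 U.lH η) = tm 0 Wb.lH (tm 0 Vp.lH η)
      rw [← tm_comp, ← tm_comp]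
      exact g3_tm0 _ _ η
  have hmain : ∀ (x : RatFunc (RatFunc N)) (ω : Tx 1 (RatFunc (RatFunc N))),
      El (insert p.P (SRG.lt (RatFunc N) p.d)) x →
      ω ∈ TS 1 (SG (insert p.P (SRG.lt (RatFunc N) p.d))) →
      reX Vq 0 (spX U 1 (bx x ω)) - spX Wb 0 (reX Vp 0 (bx x ω)) ∈ Z0 0 k := by
    intro x ω hx hω
    by_cases hx0 : x = 0
    · subst hx0
      rw [spX_bx, if_pos (Or.inl rfl), reX_bx Vp, if_pos (Or.inl rfl), map_zero, map_zero, spX_bx,
        if_pos (Or.inl rfl), map_zero, reX_bx, if_pos (Or.inl rfl), map_zero]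
      exact Submodule.sub_mem _ ⟨_, rfl⟩ ⟨_, rfl⟩
    obtain ⟨m, w, hw, hxw⟩ := SG_insert p hPS hx.1
    have hvx : Vp.v x = m := by
      rw [← TGF.vH_lg Vp hx0, hxw, map_add, SG_v hVp hPS hw, map_zsmul, TGF.vH_lg Vp hP0, hVp.vP,
        add_zero, zsmul_eq_mul, mul_one]
    by_cases hm : m = 0
    · subst hm
      rw [zero_zsmul, zero_add] at hxw
      obtain ⟨k1, k2, k3⟩ := hclaim x hx0 (by rw [hxw]; exact hw)
      have hvx0 : Vp.v x = 0 := by rw [hvx, Int.cast_zero]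
      have hlx : Vp.lc x ≠ 0 := Vp.lc_ne hx0
      by_cases hux : U.v x = 0
      · rw [spX_bx, if_pos (Or.inr hux), reX_bx, if_pos (Or.inr k1), reX_bx,
          if_pos (Or.inr hvx0), spX_bx, if_pos (Or.inr (by rw [k2]; exact hux)), k3 hux,
          hrel ω hω, sub_self]
        exact Submodule.zero_mem _
      · rw [spX_bx, if_neg (by rintro (h | h); exacts [hx0 h, hux h]), map_zero, reX_bx,
          if_pos (Or.inr hvx0), spX_bx, if_neg (by
            rintro (h | h)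
            · exact hlx h
            · exact hux (by rw [← k2]; exact h)), sub_self]
        exact Submodule.zero_mem _
    · have hvx0 : Vp.v x ≠ 0 := by rw [hvx]; exact_mod_cast hm
      have h1 : reX Vp 0 (bx x ω) = 0 := by
        rw [reX_bx, if_neg (by rintro (h | h); exacts [hx0 h, hvx0 h])]
      rw [h1, map_zero, sub_zero, spX_bx]
      by_cases hux : U.v x = 0
      · have h2 : Vq.v (U.lc x) = m := by
          rw [← TGF.vH_lg Vq (U.lc_ne hx0), ← TGF.lH_lg U hx0, hslot _ hx.1, TGF.vH_lg Vp hx0, hvx]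
        rw [if_pos (Or.inr hux), reX_bx, if_neg (by
          rintro (h | h)
          · exact U.lc_ne hx0 h
          · rw [h2] at h
            exact hm (by exact_mod_cast h))]
        exact Submodule.zero_mem _
      · rw [if_neg (by rintro (h | h); exacts [hx0 h, hux h]), map_zero]
        exact Submodule.zero_mem _
  induction hy using Submodule.span_induction with
  | mem z hz =>
    obtain ⟨x, ω, hx, hω, rfl⟩ := hz
    exact hmain x ω hx hω
  | zero =>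
    simp only [map_zero, sub_self]
    exact Submodule.zero_mem _
  | add a c _ _ h1 h2 =>
    have e : reX Vq 0 (spX U 1 (a + c)) - spX Wb 0 (reX Vp 0 (a + c)) =
        (reX Vq 0 (spX U 1 a) - spX Wb 0 (reX Vp 0 a)) +
          (reX Vq 0 (spX U 1 c) - spX Wb 0 (reX Vp 0 c)) := by
      rw [map_add, map_add, map_add, map_add]
      abel
    rw [e]
    exact Submodule.add_mem _ h1 h2
  | smul r a _ h1 =>
    have e : reX Vq 0 (spX U 1 (r • a)) - spX Wb 0 (reX Vp 0 (r • a)) =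
        r • (reX Vq 0 (spX U 1 a) - spX Wb 0 (reX Vp 0 a)) := by
      rw [map_smul, map_smul, map_smul, map_smul, smul_sub]
    rw [e]
    exact Submodule.smul_mem _ r h1

end

end GD3
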