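import Pool.Agent.GD3.Defs

set_option autoImplicit false

/-!
# GD3-Hat: a functional on B_3 modulo level S factors through d3

With `N = Lv 1 S ⊔ Rel 1 E`, the map `h` vanishes on the kernel of `N.mkQ ∘ d3 0` (`QD S`), so it factors through its range and
extends to `X 1 E ⧸ N` (`LinearMap.exists_extend`).
-/

noncomputable section

open Polynomial TensorProduct
open scoped Classical

namespace GD3

open Helper14.Gon Helper14.W4 QPL TGF

universe u

section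
variable {K k : Type u} [Field K] [Field k] {p : SRG.Pl K k} {V : AC (RatFunc K) k}
  {S : Set K[X]}

private theorem hat_fac {A B W : Type*} [AddCommGroup A] [Module ℚ A] [AddCommGroup B] [Module ℚ B] [AddCommGroup W]
    [Module ℚ W] (f : A →ₗ[ℚ] B) (h : A →ₗ[ℚ] W) (hk : ∀ z, f z = 0 → h z = 0) :
    ∃ g : B →ₗ[ℚ] W, ∀ z, g (f z) = h z := by
  have hker : LinearMap.ker f ≤ LinearMap.ker h := fun z hz => hk z hz
  obtain ⟨g, hg⟩ := LinearMap.exists_extend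
    (((LinearMap.ker f).liftQ h hker) ∘ₗ (f.quotKerEquivRange.symm : LinearMap.range f →ₗ[ℚ] (A ⧸ LinearMap.ker f)))
  refine ⟨g, fun z => ?_⟩
  have h1 := LinearMap.congr_fun hg (⟨f z, LinearMap.mem_range_self f z⟩ : LinearMap.range f)
  have h2 : f.quotKerEquivRange.symm (⟨f z, LinearMap.mem_range_self f z⟩ : LinearMap.range f) =
      (LinearMap.ker f).mkQ z := LinearMap.quotKerEquivRange_symm_apply_image f z _
  have h3 : g (f z) = ((LinearMap.ker f).liftQ h hker)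
      (f.quotKerEquivRange.symm (⟨f z, LinearMap.mem_range_self f z⟩ : LinearMap.range f)) := h1
  rw [h3, h2]
  exact Submodule.liftQ_apply _ _ _

theorem exists_hat {W : Type u} [AddCommGroup W] [Module ℚ W] (hQ : QD S)
    (h : X 0 (RatFunc K) →ₗ[ℚ] W) (h1 : ∀ z ∈ NX 0 (RatFunc K), h z = 0)
    (h2 : ∀ z ∈ Lv 0 S, h z = 0) :
    ∃ H : X 1 (RatFunc K) →ₗ[ℚ] W, (∀ z ∈ Rel 1 (RatFunc K), H z = 0) ∧
      (∀ z ∈ Lv 1 S, H z = 0) ∧ ∀ z, H (d3 0 z) = h z := by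
  obtain ⟨N, hN⟩ : ∃ N : Submodule ℚ (X 1 (RatFunc K)), N = Lv 1 S ⊔ Rel 1 (RatFunc K) := ⟨_, rfl⟩
  obtain ⟨g, hg⟩ := hat_fac (N.mkQ ∘ₗ (d3 0)) h (by
    intro z hz
    have h3 : d3 0 z ∈ N := (Submodule.Quotient.mk_eq_zero N).1 hz
    rw [hN] at h3
    obtain ⟨a, ha, b, hb, rfl⟩ := Submodule.mem_sup.1 (hQ z h3)
    rw [map_add, h2 a ha, h1 b hb, add_zero])
  have h4 : ∀ z ∈ N, (g ∘ₗ N.mkQ) z = 0 := by
    intro z hz
    have h5 : N.mkQ z = 0 := (Submodule.Quotient.mk_eq_zero N).2 hz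
    show g (N.mkQ z) = 0
    rw [h5, map_zero]
  refine ⟨g ∘ₗ N.mkQ, fun z hz => h4 z ?_, fun z hz => h4 z ?_, fun z => hg z⟩
  · rw [hN]
    exact Submodule.mem_sup_right hz
  · rw [hN]
    exact Submodule.mem_sup_left hz

end

end GD3
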