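import Pool.Agent.GD3.Defs2
import Pool.Agent.QPL.Mono
import Pool.Agent.QPL.MonoA

set_option autoImplicit false

/-!
# GD3-Irr: irreducibility is preserved by extensions with the same residue field

PLAN.  W from exists_mono V 0 (Gauss valuation of L(T) with residue field N(T)).  Suppose P0.map i = A * B with A, B monic of positive degree over E (a monic reducible polynomial has such a factorisation: Polynomial.Monic.irreducible_iff_natDegree or irreducible_iff_natDegree').
For a monic polynomial A: m_A := min over the coefficients a_l ≠ 0 of V.v a_l is ≤ 0 (leading coefficient 1); W.v (algebraMap A) = m_A, W.lc (algebraMap A) = algebraMap (iniP) (mono_v).  For P0.map i: all nonzero coefficients have value 0: W.v = 0 and W.lc = algebraMap P0 (V.iniP 0 0 (P0.map i) = P0, coeff_iniP).  m_A + m_B = 0, so m_A = m_B = 0;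
the initial parts A0, B0 ∈ N[X] are monic of the same degrees as A, B (the leading coefficient 1 has value 0) and W.lc multiplicative gives algebraMap P0 = algebraMap A0 * algebraMap B0, P0 = A0 B0: contradiction to irreducibility.
-/

noncomputable section

open Polynomial TensorProduct
open scoped Classical

namespace GD3

open Helper14.Gon Helper14.W4 QPL TGF

universe u

section
variable {N E : Type u} [Field N] [Field E]

private theorem Irr_le (V : AC E N) {A : E[X]} (hA : A.Monic) {m : ℚ} (h : V.geP 0 m A) : m ≤ 0 := by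
  have h1 := h A.natDegree
  rw [hA.coeff_natDegree, mul_zero, sub_zero] at h1
  rcases h1 with h1 | h1
  · exact absurd h1 one_ne_zero
  · rwa [V.v_one] at h1

private theorem Irr_coeff (V : AC E N) (A : E[X]) (j : ℕ) :
    (V.iniP 0 0 A).coeff j = V.ini 0 (A.coeff j) := by
  rw [coeff_iniP, mul_zero, sub_zero]

private theorem Irr_monic (V : AC E N) {A : E[X]} (hA : A.Monic) :
    (V.iniP 0 0 A).Monic ∧ (V.iniP 0 0 A).natDegree = A.natDegree := by
  have h1 : (V.iniP 0 0 A).coeff A.natDegree = 1 := by
    rw [Irr_coeff, hA.coeff_natDegree, V.ini_one]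
  have h2 : (V.iniP 0 0 A).natDegree ≤ A.natDegree := by
    rw [natDegree_le_iff_coeff_eq_zero]
    intro j hj
    rw [Irr_coeff, coeff_eq_zero_of_natDegree_lt hj, V.ini_zero]
  have h3 : (V.iniP 0 0 A).natDegree = A.natDegree :=
    le_antisymm h2 (le_natDegree_of_ne_zero (by rw [h1]; exact one_ne_zero))
  refine ⟨?_, h3⟩
  unfold Monic leadingCoeff
  rw [h3, h1]

private theorem Irr_map (V : AC E N) (i : N →+* E)
    (hi : ∀ c : N, c ≠ 0 → V.v (i c) = 0 ∧ V.lc (i c) = c) (P0 : N[X]) :
    V.geP 0 0 (P0.map i) ∧ V.iniP 0 0 (P0.map i) = P0 := by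
  constructor
  · intro j
    rw [mul_zero, sub_zero, coeff_map]
    by_cases h : P0.coeff j = 0
    · rw [h, map_zero]
      exact V.ge_zero _
    · right
      rw [(hi _ h).1]
  · ext j
    rw [Irr_coeff, coeff_map]
    by_cases h : P0.coeff j = 0
    · rw [h, map_zero]
      exact V.ini_zero _
    · have h1 := V.ini_self (i (P0.coeff j))
      rw [(hi _ h).1, (hi _ h).2] at h1
      exact h1

theorem irr_map (V : AC E N) (i : N →+* E)
    (hi : ∀ c : N, c ≠ 0 → V.v (i c) = 0 ∧ V.lc (i c) = c) (P0 : N[X]) (hm : P0.Monic)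
    (hP : Irreducible P0) : Irreducible (P0.map i) := by
  obtain ⟨h1, h2⟩ := (hm.irreducible_iff_natDegree).1 hP
  rw [(hm.map i).irreducible_iff_natDegree]
  refine ⟨fun h => h1 ?_, ?_⟩
  · apply map_injective i i.injective
    rw [h, Polynomial.map_one]
  · intro A B hA hB hAB
    obtain ⟨h3, h4⟩ := Irr_map V i hi P0
    obtain ⟨a, ha1, ha2⟩ := ex_geP V 0 hA.ne_zero
    obtain ⟨b, hb1, hb2⟩ := ex_geP V 0 hB.ne_zero
    obtain ⟨h5, h6⟩ := mul_geP V 0 ha1 hb1
    rw [hAB] at h5 h6
    have h7 : V.iniP 0 (a + b) (P0.map i) ≠ 0 := by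
      rw [h6]
      exact mul_ne_zero ha2 hb2
    have ha := Irr_le V hA ha1
    have hb := Irr_le V hB hb1
    have hab : a + b = 0 := by
      rcases lt_trichotomy (a + b) 0 with h | h | h
      · exact absurd (lt_geP V 0 h h3).2 h7
      · exact h
      · exfalso
        linarith
    have ha0 : a = 0 := by linarith
    have hb0 : b = 0 := by linarith
    rw [ha0, hb0, add_zero, h4] at h6
    have h8 := h2 _ _ (Irr_monic V hA).1 (Irr_monic V hB).1 h6.symm
    rw [(Irr_monic V hA).2, (Irr_monic V hB).2] at h8
    exact h8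

end

end GD3
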