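import Pool.Agent.GD3.Defs2

set_option autoImplicit false

/-!
# GD3-Nr: no roots in a field with a place
-/

noncomputable section

open Polynomial TensorProduct
open scoped Classical

namespace GD3

open Helper14.Gon Helper14.W4 QPL TGF

universe u

section

theorem over_C {N E : Type u} [Field N] [Field E] {b : N} {j : RatFunc N →+* E} {V : AC E N}
    (h : Over b j V) (c : N) (hc : c ≠ 0) :
    V.v (j (RatFunc.C c)) = 0 ∧ V.lc (j (RatFunc.C c)) = c := by
  obtain ⟨W, hW⟩ := exists_at b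
  have hC : (RatFunc.C c : RatFunc N) ≠ 0 := (map_ne_zero (RatFunc.C : N →+* RatFunc N)).2 hc
  obtain ⟨h1, h2⟩ := h W hW (RatFunc.C c) hC
  obtain ⟨h3, h4⟩ := at_C hW c hc
  exact ⟨h1.trans h3, (h2 h3).trans h4⟩

private theorem nr_pow {N L : Type u} [Field N] [Field L] (W : AC L N) {y : L} (hy : W.ge 0 y)
    (j : ℕ) : W.ge 0 (y ^ j) ∧ W.ini 0 (y ^ j) = W.ini 0 y ^ j := by
  induction j with
  | zero =>
    rw [pow_zero, pow_zero]
    exact ⟨W.ge_one, W.ini_one⟩
  | succ j ih =>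
    have h1 := W.ge_mul ih.1 hy
    have h2 := W.ini_mul ih.1 hy
    rw [add_zero] at h1 h2
    rw [pow_succ, pow_succ]
    exact ⟨h1, by rw [h2, ih.2]⟩

private theorem nr_i {N L : Type u} [Field N] [Field L] (V : AC L N) (i : N →+* L)
    (hi : ∀ c : N, c ≠ 0 → V.v (i c) = 0 ∧ V.lc (i c) = c) (c : N) :
    V.ge 0 (i c) ∧ V.ini 0 (i c) = c := by
  by_cases hc : c = 0
  · rw [hc, map_zero, V.ini_zero]
    exact ⟨V.ge_zero 0, rfl⟩
  · obtain ⟨h1, h2⟩ := hi c hc
    refine ⟨Or.inr h1.ge, ?_⟩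
    rw [AC.ini, if_pos ⟨(map_ne_zero i).2 hc, h1⟩, h2]

private theorem nr_term {N L : Type u} [Field N] [Field L] (V : AC L N) (i : N →+* L)
    (hi : ∀ c : N, c ≠ 0 → V.v (i c) = 0 ∧ V.lc (i c) = c) (c : N) {y : L} (hy : V.ge 0 y)
    (j : ℕ) : V.ge 0 (i c * y ^ j) ∧ V.ini 0 (i c * y ^ j) = c * V.ini 0 y ^ j := by
  have h1 := V.ge_mul (nr_i V i hi c).1 (nr_pow V hy j).1
  have h2 := V.ini_mul (nr_i V i hi c).1 (nr_pow V hy j).1
  rw [add_zero] at h1 h2
  exact ⟨h1, by rw [h2, (nr_pow V hy j).2, (nr_i V i hi c).2]⟩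

private theorem nr_noroot {N : Type u} [Field N] (P : N[X]) (hP : Irreducible P)
    (hd : 2 ≤ P.natDegree) (z : N) : P.eval z ≠ 0 := by
  intro hz
  have h4 : P.degree = 1 := Polynomial.degree_eq_one_of_irreducible_of_root hP hz
  have h5 : P.natDegree = 1 := Polynomial.natDegree_eq_of_degree_eq_some h4
  omega

theorem no_root {N L : Type u} [Field N] [Field L] (V : AC L N) (i : N →+* L)
    (hi : ∀ c : N, c ≠ 0 → V.v (i c) = 0 ∧ V.lc (i c) = c) (P : N[X]) (hP : Irreducible P)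
    (hd : 2 ≤ P.natDegree) (a : L) : P.eval₂ i a ≠ 0 := by
  intro he
  rw [Polynomial.eval₂_eq_sum_range] at he
  by_cases hge : V.ge 0 a
  · have h1 := V.ini_sum (Finset.range (P.natDegree + 1)) (fun m => i (P.coeff m) * a ^ m)
      (fun m _ => (nr_term V i hi (P.coeff m) hge m).1)
    rw [he, V.ini_zero] at h1
    refine nr_noroot P hP hd (V.ini 0 a) ?_
    rw [Polynomial.eval_eq_sum_range, h1]
    exact Finset.sum_congr rfl fun m _ => (nr_term V i hi (P.coeff m) hge m).2.symm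
  · have ha : a ≠ 0 := fun h => hge (Or.inl h)
    have hv : V.v a < 0 := by
      by_contra h
      exact hge (Or.inr (not_lt.1 h))
    have hb : V.ge 0 a⁻¹ := by
      right
      rw [V.v_inv ha]
      linarith
    have hbi : V.ini 0 a⁻¹ = 0 := by
      refine if_neg fun h => ?_
      have := h.2
      rw [V.v_inv ha] at this
      linarith
    have hs : ∑ m ∈ Finset.range (P.natDegree + 1),
        i (P.coeff m) * a⁻¹ ^ (P.natDegree - m) = 0 := by
      have h1 : ∑ m ∈ Finset.range (P.natDegree + 1),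
          i (P.coeff m) * a⁻¹ ^ (P.natDegree - m) =
          (∑ m ∈ Finset.range (P.natDegree + 1), i (P.coeff m) * a ^ m) *
            a⁻¹ ^ P.natDegree := by
        rw [Finset.sum_mul]
        refine Finset.sum_congr rfl fun m hm => ?_
        have hm' : m ≤ P.natDegree := Nat.lt_succ_iff.1 (Finset.mem_range.1 hm)
        have h2 : a⁻¹ ^ P.natDegree = a⁻¹ ^ m * a⁻¹ ^ (P.natDegree - m) := by
          rw [← pow_add, Nat.add_sub_cancel' hm']
        rw [h2, mul_assoc, ← mul_assoc (a ^ m), ← mul_pow, mul_inv_cancel₀ ha, one_pow, one_mul]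
      rw [h1, he, zero_mul]
    have h1 := V.ini_sum (Finset.range (P.natDegree + 1))
      (fun m => i (P.coeff m) * a⁻¹ ^ (P.natDegree - m))
      (fun m _ => (nr_term V i hi (P.coeff m) hb (P.natDegree - m)).1)
    rw [hs, V.ini_zero] at h1
    have h2 : ∑ m ∈ Finset.range (P.natDegree + 1),
        V.ini 0 (i (P.coeff m) * a⁻¹ ^ (P.natDegree - m)) = P.coeff P.natDegree := by
      rw [Finset.sum_range_succ]
      rw [Finset.sum_eq_zero, zero_add, (nr_term V i hi _ hb _).2, Nat.sub_self, pow_zero, mul_one]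
      intro m hm
      have hm' : m < P.natDegree := Finset.mem_range.1 hm
      rw [(nr_term V i hi _ hb _).2, hbi, zero_pow (by omega), mul_zero]
    rw [h2] at h1
    have h3 : P ≠ 0 := hP.ne_zero
    exact Polynomial.leadingCoeff_ne_zero.2 h3 h1.symm

theorem no_root_map {N L : Type u} [Field N] [Field L] (ι : RatFunc N →+* L)
    (h : ∀ F : Finset L, ∃ V : AC (KS ι F) N, Over 0 (toKS ι F) V) (P : N[X])
    (hP : Irreducible P) (hd : 2 ≤ P.natDegree) (a : L) :
    (P.map (RatFunc.C : N →+* RatFunc N)).eval₂ ι a ≠ 0 := by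
  intro he
  obtain ⟨V, hV⟩ := h {a}
  have ha : a ∈ KS ι {a} := Subfield.subset_closure (Or.inr (by simp))
  have h1 := no_root V ((toKS ι {a}).comp (RatFunc.C : N →+* RatFunc N))
    (fun c hc => over_C hV c hc) P hP hd ⟨a, ha⟩
  apply h1
  have h2 : (KS ι {a}).subtype
      (P.eval₂ ((toKS ι {a}).comp (RatFunc.C : N →+* RatFunc N)) ⟨a, ha⟩) = 0 := by
    rw [Polynomial.hom_eval₂, ← he, Polynomial.eval₂_map]
    rfl
  exact (map_eq_zero (KS ι {a}).subtype).1 h2

end

end GD3
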