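import Pool.Agent.GD3.Defs2
import Pool.Agent.QPL.Ext

set_option autoImplicit false

/-!
# GD3-Pd: descent of the leading coefficients for finitely generated extensions

`pd_fin`: `E` is finite over `N(s)`, so all elements are roots of polynomials of bounded degree.
`pd_two`: if a sum of nonzero terms is zero then two of the terms have the same valuation.
`pd_uni`: the valuation is discrete, there is a uniformizer `ϖ`.
`exists_desc`: the leading coefficient of `x` is the element `c` of `N` whose image is the leading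
coefficient of the unit `x ϖ^(-m)`.
-/

noncomputable section

open Polynomial TensorProduct
open scoped Classical

namespace GD3

open Helper14.Gon Helper14.W4 QPL TGF

universe u

section
variable {N Nb E : Type u} [Field N] [Field Nb] [Field E]

/-- the powers of an element of a finite extension are dependent, with a bounded degree -/
private lemma pd_fin (j : RatFunc N →+* E) (S : Finset E)
    (hS : Subfield.closure (Set.range j ∪ (S : Set E)) = ⊤)
    (halg : ∀ x ∈ S, ∃ f : (RatFunc N)[X], f ≠ 0 ∧ f.eval₂ j x = 0) :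
    ∃ n : ℕ, ∀ x : E, ∃ f : (RatFunc N)[X], f ≠ 0 ∧ f.natDegree ≤ n ∧ f.eval₂ j x = 0 := by
  letI : Algebra (RatFunc N) E := j.toAlgebra
  have hj : algebraMap (RatFunc N) E = j := rfl
  have hint : ∀ x ∈ (S : Set E), IsIntegral (RatFunc N) x := by
    intro x hx
    obtain ⟨f, hf, hfx⟩ := halg x hx
    apply isAlgebraic_iff_isIntegral.1
    exact ⟨f, hf, hfx⟩
  haveI h1 : FiniteDimensional (RatFunc N) (IntermediateField.adjoin (RatFunc N) (S : Set E)) :=
    IntermediateField.finiteDimensional_adjoin hint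
  have htop : IntermediateField.adjoin (RatFunc N) (S : Set E) = ⊤ := by
    rw [eq_top_iff]
    intro x _
    have hx : x ∈ Subfield.closure (Set.range j ∪ (S : Set E)) := by
      rw [hS]
      exact Subfield.mem_top x
    exact hx
  haveI h2 : FiniteDimensional (RatFunc N) (⊤ : IntermediateField (RatFunc N) E) := htop ▸ h1
  haveI h3 : FiniteDimensional (RatFunc N) E :=
    (IntermediateField.topEquiv (F := RatFunc N) (E := E)).toLinearEquiv.finiteDimensional
  refine ⟨Module.finrank (RatFunc N) E, fun x => ⟨minpoly (RatFunc N) x, ?_, ?_, ?_⟩⟩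
  · exact minpoly.ne_zero (IsIntegral.of_finite (RatFunc N) x)
  · exact minpoly.natDegree_le x
  · exact minpoly.aeval (RatFunc N) x

private lemma pd_add (W : AC E Nb) (f : ℕ → E) (i0 : ℕ) (hi0 : f i0 ≠ 0) (t : Finset ℕ)
    (ht : ∀ l ∈ t, W.v (f i0) < W.v (f l)) :
    f i0 + ∑ l ∈ t, f l ≠ 0 ∧ W.v (f i0 + ∑ l ∈ t, f l) = W.v (f i0) := by
  induction t using Finset.induction_on with
  | empty => simpa using hi0
  | insert a t ha ih =>
    obtain ⟨h1, h2⟩ := ih fun l hl => ht l (Finset.mem_insert_of_mem hl)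
    have h3 := ht a (Finset.mem_insert_self a t)
    rw [← h2] at h3
    have h4 := W.add_lt h1 (Or.inr h3)
    have h5 : f i0 + ∑ l ∈ insert a t, f l = f i0 + ∑ l ∈ t, f l + f a := by
      rw [Finset.sum_insert ha]
      ring
    rw [h5]
    exact ⟨h4.1, h4.2.1.trans h2⟩

/-- two terms of a vanishing sum have the same valuation -/
private lemma pd_two (W : AC E Nb) (s : Finset ℕ) (f : ℕ → E) (hs : s.Nonempty)
    (hf : ∀ l ∈ s, f l ≠ 0) (h0 : ∑ l ∈ s, f l = 0) :
    ∃ l ∈ s, ∃ m ∈ s, l < m ∧ W.v (f l) = W.v (f m) := by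
  obtain ⟨i0, hi0, hmin⟩ := s.exists_min_image (fun l => W.v (f l)) hs
  by_contra hc
  push Not at hc
  have hlt : ∀ l ∈ s.erase i0, W.v (f i0) < W.v (f l) := by
    intro l hl
    obtain ⟨h1, h2⟩ := Finset.mem_erase.1 hl
    refine lt_of_le_of_ne (hmin l h2) fun he => ?_
    rcases lt_or_gt_of_ne h1 with h3 | h3
    · exact hc l h2 i0 hi0 h3 he.symm
    · exact hc i0 hi0 l h2 h3 he
  have h1 := (pd_add W f i0 (hf i0 hi0) (s.erase i0) hlt).1
  exact h1 (by rw [Finset.add_sum_erase s f hi0, h0])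

private lemma pd_pow (W : AC E Nb) {x : E} (hx : x ≠ 0) (n : ℕ) : W.v (x ^ n) = n * W.v x := by
  induction n with
  | zero => rw [pow_zero, AC.v_one, Nat.cast_zero, zero_mul]
  | succ n ih =>
    rw [pow_succ, W.v_mul (pow_ne_zero _ hx) hx, ih, Nat.cast_succ]
    ring

private lemma pd_zpow (W : AC E Nb) {x : E} (hx : x ≠ 0) (n : ℤ) :
    W.v (x ^ n) = n * W.v x := by
  rcases Int.eq_nat_or_neg n with ⟨m, rfl | rfl⟩
  · rw [zpow_natCast, pd_pow W hx, Int.cast_natCast]
  · rw [zpow_neg, zpow_natCast, AC.v_inv W (pow_ne_zero m hx), pd_pow W hx, Int.cast_neg,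
      Int.cast_natCast]
    ring

/-- the values of a rational function are integers -/
private lemma pd_int {b : N} (W0 : AC (RatFunc N) N) (h : IsAt b W0) {x : RatFunc N}
    (hx : x ≠ 0) : ∃ z : ℤ, W0.v x = z := by
  have h1 : algebraMap N[X] (RatFunc N) x.num ≠ 0 := by
    rw [Ne, map_eq_zero_iff _ (RatFunc.algebraMap_injective N)]
    exact RatFunc.num_ne_zero hx
  have h2 : algebraMap N[X] (RatFunc N) x.denom ≠ 0 := by
    rw [Ne, map_eq_zero_iff _ (RatFunc.algebraMap_injective N)]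
    exact RatFunc.denom_ne_zero x
  refine ⟨(x.num.rootMultiplicity b : ℤ) - (x.denom.rootMultiplicity b : ℤ), ?_⟩
  have h3 : W0.v x = W0.v (algebraMap N[X] (RatFunc N) x.num / algebraMap N[X] (RatFunc N) x.denom) := by
    rw [RatFunc.num_div_denom]
  rw [h3, AC.v_div W0 h1 h2, h.v _ (RatFunc.num_ne_zero hx), h.v _ (RatFunc.denom_ne_zero x)]
  push_cast
  rfl

/-- the valuation is discrete -/
private lemma pd_uni (b : N) (j : RatFunc N →+* E) (S : Finset E)
    (hS : Subfield.closure (Set.range j ∪ (S : Set E)) = ⊤)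
    (halg : ∀ x ∈ S, ∃ f : (RatFunc N)[X], f ≠ 0 ∧ f.eval₂ j x = 0) (W : AC E Nb)
    (W0 : AC (RatFunc N) N) (h0 : IsAt b W0)
    (hW : ∀ x : RatFunc N, x ≠ 0 → W.v (j x) = W0.v x) :
    ∃ w : E, w ≠ 0 ∧ W.v w ≠ 0 ∧ ∀ x : E, x ≠ 0 → ∃ m : ℤ, W.v x = m * W.v w := by
  obtain ⟨n, hn⟩ := pd_fin j S hS halg
  have key : ∀ x : E, x ≠ 0 → ∃ z : ℤ, (z : ℚ) = (n.factorial : ℚ) * W.v x := by
    intro x hx
    obtain ⟨p, hp, hpn, hpx⟩ := hn x
    have h1 : ∑ l ∈ p.support, j (p.coeff l) * x ^ l = 0 := by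
      rw [← hpx, Polynomial.eval₂_eq_sum, Polynomial.sum]
    have hc : ∀ l ∈ p.support, j (p.coeff l) ≠ 0 := fun l hl =>
      (map_ne_zero j).2 (Polynomial.mem_support_iff.1 hl)
    obtain ⟨l, hl, m, hm, hlm, he⟩ := pd_two W p.support (fun l => j (p.coeff l) * x ^ l)
      (Polynomial.support_nonempty.2 hp)
      (fun l hl => mul_ne_zero (hc l hl) (pow_ne_zero _ hx)) h1
    obtain ⟨z1, hz1⟩ := pd_int W0 h0 (Polynomial.mem_support_iff.1 hl)
    obtain ⟨z2, hz2⟩ := pd_int W0 h0 (Polynomial.mem_support_iff.1 hm)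
    rw [W.v_mul (hc l hl) (pow_ne_zero _ hx), W.v_mul (hc m hm) (pow_ne_zero _ hx),
      pd_pow W hx, pd_pow W hx, hW _ (Polynomial.mem_support_iff.1 hl),
      hW _ (Polynomial.mem_support_iff.1 hm), hz1, hz2] at he
    have hmn : m - l ≤ n :=
      (Nat.sub_le m l).trans ((Polynomial.le_natDegree_of_mem_supp m hm).trans hpn)
    obtain ⟨q, hq⟩ : m - l ∣ n.factorial := Nat.dvd_factorial (Nat.sub_pos_of_lt hlm) hmn
    refine ⟨q * (z1 - z2), ?_⟩
    have h2 : ((m - l : ℕ) : ℚ) = (m : ℚ) - l := Nat.cast_sub hlm.le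
    rw [hq]
    push_cast
    rw [h2]
    linear_combination (q : ℚ) * he
  let H : AddSubgroup ℤ :=
    { carrier := {z | ∃ x : E, x ≠ 0 ∧ (z : ℚ) = (n.factorial : ℚ) * W.v x}
      zero_mem' := ⟨1, one_ne_zero, by rw [AC.v_one, Int.cast_zero, mul_zero]⟩
      add_mem' := by
        rintro a c ⟨x, hx, h1⟩ ⟨y, hy, h2⟩
        exact ⟨x * y, mul_ne_zero hx hy, by rw [W.v_mul hx hy, Int.cast_add, h1, h2]; ring⟩
      neg_mem' := by
        rintro a ⟨x, hx, h1⟩
        exact ⟨x⁻¹, inv_ne_zero hx, by rw [AC.v_inv W hx, Int.cast_neg, h1]; ring⟩ }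
  obtain ⟨g, hg⟩ := Int.subgroup_cyclic H
  have hgH : g ∈ H := by
    rw [hg]
    exact AddSubgroup.subset_closure rfl
  obtain ⟨w, hw0, hw⟩ := hgH
  have hF : (n.factorial : ℚ) ≠ 0 := by exact_mod_cast n.factorial_ne_zero
  have hmem : ∀ x : E, x ≠ 0 → ∃ m : ℤ, W.v x = m * W.v w := by
    intro x hx
    obtain ⟨z, hz⟩ := key x hx
    have hzH : z ∈ H := ⟨x, hx, hz⟩
    rw [hg, AddSubgroup.mem_closure_singleton] at hzH
    obtain ⟨m, hm⟩ := hzH
    refine ⟨m, ?_⟩
    have h1 : (n.factorial : ℚ) * W.v x = (n.factorial : ℚ) * (m * W.v w) := by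
      rw [← hz, ← hm, smul_eq_mul, Int.cast_mul, hw]
      ring
    exact mul_left_cancel₀ hF h1
  refine ⟨w, hw0, ?_, hmem⟩
  intro hv
  have hX : (Polynomial.X - C b : N[X]) ≠ 0 := X_sub_C_ne_zero b
  have h1 : W0.v (algebraMap N[X] (RatFunc N) (Polynomial.X - C b)) = 1 := by
    rw [h0.v _ hX, Polynomial.rootMultiplicity_X_sub_C_self, Nat.cast_one]
  have hX1 : algebraMap N[X] (RatFunc N) (Polynomial.X - C b) ≠ 0 := by
    rw [Ne, map_eq_zero_iff _ (RatFunc.algebraMap_injective N)]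
    exact hX
  obtain ⟨m, hm⟩ := hmem (j (algebraMap N[X] (RatFunc N) (Polynomial.X - C b))) ((map_ne_zero j).2 hX1)
  rw [hW _ hX1, h1, hv, mul_zero] at hm
  exact one_ne_zero hm

theorem exists_desc (i : N →+* Nb) (b : N) (j : RatFunc N →+* E) (S : Finset E)
    (hS : Subfield.closure (Set.range j ∪ (S : Set E)) = ⊤)
    (halg : ∀ x ∈ S, ∃ f : (RatFunc N)[X], f ≠ 0 ∧ f.eval₂ j x = 0) (W : AC E Nb)
    (hW : ∀ W0 : AC (RatFunc N) N, IsAt b W0 → ∀ x : RatFunc N, x ≠ 0 →
      W.v (j x) = W0.v x ∧ W.lc (j x) = i (W0.lc x))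
    (hr : ∀ x : E, x ≠ 0 → W.v x = 0 → ∃ n : N, W.lc x = i n) :
    ∃ V : AC E N, Over b j V := by
  obtain ⟨W0, h0⟩ := exists_at b
  obtain ⟨w, hw0, hwv, hm⟩ := pd_uni b j S hS halg W W0 h0 fun x hx => (hW W0 h0 x hx).1
  choose m hm using hm
  have hL : W.lc w ≠ 0 := W.lc_ne hw0
  have key : ∀ (x : E) (hx : x ≠ 0), ∃ c : N, i c = W.lc x * W.lc w ^ (- m x hx) := by
    intro x hx
    have h1 : w ^ (- m x hx) ≠ 0 := zpow_ne_zero _ hw0
    obtain ⟨c, hc⟩ := hr (x * w ^ (- m x hx)) (mul_ne_zero hx h1) (by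
      rw [W.v_mul hx h1, pd_zpow W hw0, hm x hx]
      push_cast
      ring)
    refine ⟨c, ?_⟩
    rw [← hc, map_mul, map_zpow₀]
  choose c hc using key
  have hmeq : ∀ (x y : E) (hx : x ≠ 0) (hy : y ≠ 0), W.v x = W.v y → m x hx = m y hy := by
    intro x y hx hy h
    rw [hm x hx, hm y hy] at h
    exact_mod_cast mul_right_cancel₀ hwv h
  have hm0 : ∀ (x : E) (hx : x ≠ 0), W.v x = 0 → m x hx = 0 := by
    intro x hx h
    rw [hm x hx] at h
    rcases mul_eq_zero.1 h with h1 | h1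
    · exact_mod_cast h1
    · exact absurd h1 hwv
  have hc' : ∀ (x : E) (hx : x ≠ 0), W.lc x = i (c x hx) * W.lc w ^ (m x hx) := by
    intro x hx
    rw [hc x hx, mul_assoc, ← zpow_add₀ hL, neg_add_cancel, zpow_zero, mul_one]
  have hcne : ∀ (x : E) (hx : x ≠ 0), c x hx ≠ 0 := by
    intro x hx h
    have h1 := hc' x hx
    rw [h, map_zero, zero_mul] at h1
    exact W.lc_ne hx h1
  have hinj := i.injective
  let l : E →*₀ N :=
    { toFun := fun x => if hx : x = 0 then 0 else c x hx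
      map_zero' := dif_pos rfl
      map_one' := by
        rw [dif_neg one_ne_zero]
        apply hinj
        rw [hc, hm0 1 one_ne_zero (AC.v_one W), map_one, map_one, neg_zero, zpow_zero, mul_one]
      map_mul' := by
        intro x y
        by_cases hx : x = 0
        · rw [dif_pos hx, dif_pos (by rw [hx, zero_mul]), zero_mul]
        by_cases hy : y = 0
        · rw [dif_pos hy, dif_pos (by rw [hy, mul_zero]), mul_zero]
        have hxy : x * y ≠ 0 := mul_ne_zero hx hy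
        rw [dif_neg hx, dif_neg hy, dif_neg hxy]
        apply hinj
        have h1 : m (x * y) hxy = m x hx + m y hy := by
          have h2 := W.v_mul hx hy
          rw [hm _ hxy, hm _ hx, hm _ hy, ← add_mul] at h2
          exact_mod_cast mul_right_cancel₀ hwv h2
        rw [map_mul, hc, hc, hc, h1, map_mul, neg_add, zpow_add₀ hL]
        ring }
  have hl : ∀ (x : E) (hx : x ≠ 0), l x = c x hx := fun x hx => dif_neg hx
  refine ⟨{ v := W.v, lc := l, lc_ne := ?_, v_mul := W.v_mul, add_lt := ?_, add_ne := ?_,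
            add_eq := ?_ }, ?_⟩
  · intro x hx
    rw [hl x hx]
    exact hcne x hx
  · intro x y hx hy
    obtain ⟨h1, h2, h3⟩ := W.add_lt hx hy
    refine ⟨h1, h2, ?_⟩
    rw [hl x hx, hl _ h1]
    apply hinj
    rw [hc, hc, h3, hmeq _ _ h1 hx h2]
  · intro x y hx hy h hne
    rw [hl x hx, hl y hy] at hne
    have hxy := hmeq x y hx hy h
    have h1 : W.lc x + W.lc y = i (c x hx + c y hy) * W.lc w ^ (m x hx) := by
      rw [hc' x hx, hc' y hy, ← hxy, map_add, add_mul]
    have h2 : W.lc x + W.lc y ≠ 0 := by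
      rw [h1]
      exact mul_ne_zero ((map_ne_zero i).2 hne) (zpow_ne_zero _ hL)
    obtain ⟨h3, h4, h5⟩ := W.add_ne hx hy h h2
    refine ⟨h3, h4, ?_⟩
    rw [hl _ h3, hl x hx, hl y hy]
    apply hinj
    rw [hc, h5, h1, hmeq _ _ h3 hx h4, mul_assoc, ← zpow_add₀ hL, add_neg_cancel, zpow_zero,
      mul_one]
  · intro x y hx hy h he
    rw [hl x hx, hl y hy] at he
    have hxy := hmeq x y hx hy h
    have h1 : W.lc x + W.lc y = i (c x hx + c y hy) * W.lc w ^ (m x hx) := by
      rw [hc' x hx, hc' y hy, ← hxy, map_add, add_mul]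
    rw [he, map_zero, zero_mul] at h1
    exact W.add_eq hx hy h h1
  · intro W1 h1 x hx
    obtain ⟨h2, h3⟩ := hW W1 h1 x hx
    refine ⟨h2, fun h4 => ?_⟩
    have hjx : j x ≠ 0 := (map_ne_zero j).2 hx
    change l (j x) = W1.lc x
    rw [hl _ hjx]
    apply hinj
    rw [hc, h3, hm0 (j x) hjx (h2.trans h4), neg_zero, zpow_zero, mul_one]

end

end GD3
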