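import Pool.Agent.GD3.Pz
import Pool.Agent.GD3.Pd
import Pool.Agent.QPL.Ext

set_option autoImplicit false

/-!
# GD3-Pi: an extension of N(s) with two places over s = 0, 1

PLAN.  Mb := AlgebraicClosure (RatFunc N), Nb := AlgebraicClosure N, i = algebraMap N Nb.  For b = 0, 1: W0 from exists_at b (QPL/At.lean), exists_ext (QPL/Ext.lean) for W0.push i : AC (RatFunc N) Nb and the algebraic extension Mb: W_b : AC Mb Nb with W_b.v (algebraMap x) = W0.v x, W_b.lc (algebraMap x) = i (W0.lc x).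
L00 := range of algebraMap as a subfield: RC W_b i L00.  exists_max: L_b.  L := L_0 ⊓ L_1 (Subfield), as a type ↥L, ι : RatFunc N →+* L the corestriction of algebraMap.  CLd d L: f ∈ L[X] of degree between 1 and d - 1 has a root x in Mb (IsAlgClosed); map f to L_0[X] and L_1[X] (Subfield.inclusion): x ∈ L_0, x ∈ L_1.
For F : Finset L: E := KS ι F (QPL/ColimA.lean: Subfield.closure (Set.range ι ∪ F) ≤ ↥L), j := toKS ι F, S := the image of F in E (elements of F are in E), W := W_b.comap of the inclusion E → L → Mb: exists_desc.  The closure of (range j ∪ S) in E is ⊤: map to L.  Algebraicity: Mb is algebraic over RatFunc N.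
-/

noncomputable section

open Polynomial TensorProduct
open scoped Classical

namespace GD3

open Helper14.Gon Helper14.W4 QPL TGF

universe u

section

/-- a valuation at `b` is determined -/
private lemma pi_uniq {N : Type u} [Field N] {b : N} {W W' : AC (RatFunc N) N} (h : IsAt b W)
    (h' : IsAt b W') {x : RatFunc N} (hx : x ≠ 0) : W.v x = W'.v x ∧ W.lc x = W'.lc x := by
  have hn0 := RatFunc.num_ne_zero hx
  have hd0 := RatFunc.denom_ne_zero x
  have hn : algebraMap N[X] (RatFunc N) x.num ≠ 0 := RatFunc.algebraMap_ne_zero hn0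
  have hd : algebraMap N[X] (RatFunc N) x.denom ≠ 0 := RatFunc.algebraMap_ne_zero hd0
  have e1 : W.v x = W.v (algebraMap N[X] (RatFunc N) x.num) -
      W.v (algebraMap N[X] (RatFunc N) x.denom) := by
    rw [← W.v_div hn hd, RatFunc.num_div_denom]
  have e2 : W'.v x = W'.v (algebraMap N[X] (RatFunc N) x.num) -
      W'.v (algebraMap N[X] (RatFunc N) x.denom) := by
    rw [← W'.v_div hn hd, RatFunc.num_div_denom]
  have e3 : W.lc x = W.lc (algebraMap N[X] (RatFunc N) x.num) /
      W.lc (algebraMap N[X] (RatFunc N) x.denom) := by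
    rw [← W.lc_div, RatFunc.num_div_denom]
  have e4 : W'.lc x = W'.lc (algebraMap N[X] (RatFunc N) x.num) /
      W'.lc (algebraMap N[X] (RatFunc N) x.denom) := by
    rw [← W'.lc_div, RatFunc.num_div_denom]
  rw [e1, e2, e3, e4, h.v _ hn0, h.v _ hd0, h'.v _ hn0, h'.v _ hd0, h.lc _ hn0, h.lc _ hd0,
    h'.lc _ hn0, h'.lc _ hd0]
  exact ⟨rfl, rfl⟩

/-- the maximal extension for one place -/
private lemma pi_one (N : Type u) [Field N] (d : ℕ) (hN : CLd d N) (b : N) :
    ∃ (W : AC (AlgebraicClosure (RatFunc N)) (AlgebraicClosure N))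
      (L : Subfield (AlgebraicClosure (RatFunc N))),
      (∀ W0 : AC (RatFunc N) N, IsAt b W0 → ∀ x : RatFunc N, x ≠ 0 →
        W.v (algebraMap (RatFunc N) (AlgebraicClosure (RatFunc N)) x) = W0.v x ∧
        W.lc (algebraMap (RatFunc N) (AlgebraicClosure (RatFunc N)) x) =
          algebraMap N (AlgebraicClosure N) (W0.lc x)) ∧
      (∀ x : RatFunc N, algebraMap (RatFunc N) (AlgebraicClosure (RatFunc N)) x ∈ L) ∧
      RC W (algebraMap N (AlgebraicClosure N)) L ∧
      ∀ (x : AlgebraicClosure (RatFunc N)) (f : L[X]), f ≠ 0 → f.natDegree < d →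
        f.eval₂ L.subtype x = 0 → x ∈ L := by
  obtain ⟨W0, h0⟩ := exists_at b
  obtain ⟨W, hv, hl⟩ := exists_ext (W0.push (algebraMap N (AlgebraicClosure N)))
    (AlgebraicClosure (RatFunc N))
  have h00 : RC W (algebraMap N (AlgebraicClosure N))
      (algebraMap (RatFunc N) (AlgebraicClosure (RatFunc N))).fieldRange := by
    rintro _ ⟨x, rfl⟩ _ _
    exact ⟨W0.lc x, hl x⟩
  obtain ⟨L, hL, hRC, hmax⟩ := exists_max hN _ W _ h00
  refine ⟨W, L, ?_, fun x => hL ⟨x, rfl⟩, hRC, hmax⟩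
  intro W1 h1 x hx
  obtain ⟨e1, e2⟩ := pi_uniq h0 h1 hx
  refine ⟨?_, ?_⟩
  · rw [hv x hx, ← e1]
    rfl
  · rw [hl x, ← e2]
    rfl

private lemma pi_root {M : Type u} [Field M] {L L1 : Subfield M} (hL : L ≤ L1) {d : ℕ}
    (hm : ∀ (x : M) (f : L1[X]), f ≠ 0 → f.natDegree < d → f.eval₂ L1.subtype x = 0 → x ∈ L1)
    (f : L[X]) (hf : 0 < f.natDegree) (hd : f.natDegree < d) (x : M)
    (hx : f.eval₂ L.subtype x = 0) : x ∈ L1 := by
  have h1 : (f.map (Subfield.inclusion hL)).natDegree = f.natDegree :=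
    Polynomial.natDegree_map_eq_of_injective (Subfield.inclusion hL).injective f
  refine hm x (f.map (Subfield.inclusion hL)) ?_ ?_ ?_
  · intro h
    rw [h, natDegree_zero] at h1
    omega
  · rw [h1]
    exact hd
  · rw [Polynomial.eval₂_map]
    exact hx

private lemma pi_top {M L : Type u} [Field M] [Field L] (ι : M →+* L) (F : Finset L) :
    Subfield.closure (Set.range (toKS ι F) ∪
      ((F.attach.image fun x => (⟨x.1, Subfield.subset_closure (Or.inr x.2)⟩ : KS ι F) :
        Finset (KS ι F)) : Set (KS ι F))) = ⊤ := by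
  rw [eq_top_iff]
  intro x _
  have h1 : (x : L) ∈ (Subfield.closure (Set.range (toKS ι F) ∪
      ((F.attach.image fun x => (⟨x.1, Subfield.subset_closure (Or.inr x.2)⟩ : KS ι F) :
        Finset (KS ι F)) : Set (KS ι F)))).map (KS ι F).subtype := by
    rw [RingHom.map_field_closure]
    refine (Subfield.closure_mono ?_) x.2
    rintro y (⟨z, rfl⟩ | hy)
    · exact ⟨toKS ι F z, Or.inl ⟨z, rfl⟩, rfl⟩
    · refine ⟨⟨y, Subfield.subset_closure (Or.inr hy)⟩, Or.inr ?_, rfl⟩
      rw [Finset.mem_coe, Finset.mem_image]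
      exact ⟨⟨y, hy⟩, Finset.mem_attach _ _, rfl⟩
  obtain ⟨y, hy, he⟩ := h1
  have h2 : y = x := Subtype.ext he
  rw [← h2]
  exact hy

theorem exists_L (N : Type u) [Field N] (d : ℕ) (hN : CLd d N) :
    ∃ (L : Type u) (_ : Field L) (ι : RatFunc N →+* L), CLd d L ∧
      ∀ F : Finset L, ∃ V0 V1 : AC (KS ι F) N, Over 0 (toKS ι F) V0 ∧ Over 1 (toKS ι F) V1 := by
  obtain ⟨W0, L0, hW0, hr0, hR0, hm0⟩ := pi_one N d hN 0
  obtain ⟨W1, L1, hW1, hr1, hR1, hm1⟩ := pi_one N d hN 1
  let L : Subfield (AlgebraicClosure (RatFunc N)) := L0 ⊓ L1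
  let ι : RatFunc N →+* L := (algebraMap (RatFunc N) (AlgebraicClosure (RatFunc N))).codRestrict L
    fun x => ⟨hr0 x, hr1 x⟩
  have hdesc : ∀ (F : Finset L) (b : N) (W : AC (AlgebraicClosure (RatFunc N)) (AlgebraicClosure N))
      (Lb : Subfield (AlgebraicClosure (RatFunc N))) (_ : L ≤ Lb)
      (_ : ∀ W0 : AC (RatFunc N) N, IsAt b W0 → ∀ x : RatFunc N, x ≠ 0 →
        W.v (algebraMap (RatFunc N) (AlgebraicClosure (RatFunc N)) x) = W0.v x ∧
        W.lc (algebraMap (RatFunc N) (AlgebraicClosure (RatFunc N)) x) =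
          algebraMap N (AlgebraicClosure N) (W0.lc x))
      (_ : RC W (algebraMap N (AlgebraicClosure N)) Lb),
      ∃ V : AC (KS ι F) N, Over b (toKS ι F) V := by
    intro F b W Lb hLb hW hR
    refine exists_desc (algebraMap N (AlgebraicClosure N)) b (toKS ι F) _ (pi_top ι F) ?_
      (W.comap (L.subtype.comp (KS ι F).subtype)) ?_ ?_
    · intro x _
      have h1 : IsAlgebraic (RatFunc N) ((L.subtype.comp (KS ι F).subtype) x) :=
        Algebra.IsAlgebraic.isAlgebraic _
      obtain ⟨f, hf, hfx⟩ := h1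
      refine ⟨f, hf, (L.subtype.comp (KS ι F).subtype).injective ?_⟩
      rw [Polynomial.hom_eval₂, map_zero]
      exact hfx
    · intro V0 h0 x hx
      exact hW V0 h0 x hx
    · intro x hx hv
      refine hR _ (hLb x.1.2) ?_ hv
      exact (map_ne_zero (L.subtype.comp (KS ι F).subtype)).2 hx
  refine ⟨L, inferInstance, ι, ?_, ?_⟩
  · intro f hf hd
    obtain ⟨x, hx⟩ := IsAlgClosed.exists_eval₂_eq_zero L.subtype f (by
      intro h
      have h1 : f.natDegree = 0 := natDegree_eq_of_degree_eq_some h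
      omega)
    have hx0 : x ∈ L0 := pi_root inf_le_left hm0 f hf hd x hx
    have hx1 : x ∈ L1 := pi_root inf_le_right hm1 f hf hd x hx
    refine ⟨⟨x, hx0, hx1⟩, L.subtype.injective ?_⟩
    rw [map_zero, ← Polynomial.eval₂_at_apply]
    exact hx
  · intro F
    obtain ⟨V0, h0⟩ := hdesc F 0 W0 L0 inf_le_left hW0 hR0
    obtain ⟨V1, h1⟩ := hdesc F 1 W1 L1 inf_le_right hW1 hR1
    exact ⟨V0, V1, h0, h1⟩

end

end GD3
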