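import Pool.Agent.GD3.Defs2
import Pool.Agent.QPL.TrC
import Pool.Agent.QPL.TrD
import Pool.Agent.TGF.Pt

set_option autoImplicit false

/-!
# GD3-Tm1: the total residue under extensions of constants

PLAN.  y of level insert P' (lt E 2), P' monic irreducible without roots in L.  For a ∈ E: reX (VA (i a)) 0 (mX 1 (rm i) y) = mX 0 i (reX (VA a) 0 y): QPL.re_alg for the closed point X - C a of E (residue field E, r = evalRingHom a: SRG.Pl; IsPt from IsAt), multiplicity of i a in X - C (i a) is 1, V = VA a; or directly with re_comap, re_unif.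
For b ∈ L not in i(E): the residue is 0: every Q ∈ insert P' (lt E 2) has Q.map i (b) ≠ 0 (linear Q = X - C a: b ≠ i a), so VA b has value 0 on the slots: reX_TS (lv_map to the level S' of all monic irreducible factors of the Q.map i; or directly: resU (rm i) g has value 0 for g ∈ SG S, QPL/TrC at_alg / IsAt.v: rootMultiplicity of A.map i at b is 0).
Infinity: re_inf.  tot_eq with s and s.map i.
-/

noncomputable section

open Polynomial TensorProduct
open scoped Classical

namespace GD3

open Helper14.Gon Helper14.W4 QPL TGF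

universe u

section
variable {E L : Type u} [Field E] [Field L]

/-- the closed point `t = a` -/
private def Tm1_pl (a : E) : SRG.Pl E E where
  P := Polynomial.X - C a
  monic := monic_X_sub_C a
  irr := irreducible_X_sub_C a
  r := evalRingHom a
  surj := fun c => ⟨C c, by rw [coe_evalRingHom, eval_C]⟩
  ker := fun A => by rw [coe_evalRingHom, dvd_iff_isRoot, IsRoot.def]

private lemma Tm1_pt (a : E) : IsPt (Tm1_pl a) (VA a) where
  vP := by
    rw [(VA_at a).v _ (Tm1_pl a).irr.ne_zero]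
    change (((Polynomial.X - C a : E[X]).rootMultiplicity a : ℕ) : ℚ) = 1
    rw [rootMultiplicity_X_sub_C_self, Nat.cast_one]
  lP := by
    rw [(VA_at a).lc _ (Tm1_pl a).irr.ne_zero]
    change ((Polynomial.X - C a : E[X]) /ₘ (Polynomial.X - C a) ^ (Polynomial.X - C a : E[X]).rootMultiplicity a).eval a = 1
    have h1 := mul_divByMonic_cancel_left (1 : E[X]) (monic_X_sub_C a)
    rw [mul_one] at h1
    rw [rootMultiplicity_X_sub_C_self, pow_one, h1, eval_one]
  v := by
    intro A hA
    have hA0 : A ≠ 0 := by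
      rintro rfl
      exact hA (dvd_zero _)
    have h1 : ¬ IsRoot A a := by
      intro h
      have h2 : (Polynomial.X - C a : E[X]) ∣ A := dvd_iff_isRoot.2 h
      exact hA h2
    rw [(VA_at a).v A hA0, rootMultiplicity_eq_zero h1, Nat.cast_zero]
  lc := by
    intro A hA
    have hA0 : A ≠ 0 := by
      rintro rfl
      exact hA (dvd_zero _)
    have h1 : ¬ IsRoot A a := by
      intro h
      have h2 : (Polynomial.X - C a : E[X]) ∣ A := dvd_iff_isRoot.2 h
      exact hA h2
    rw [(VA_at a).lc A hA0, rootMultiplicity_eq_zero h1, pow_zero, divByMonic_one]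
    rfl

private lemma Tm1_rm (i : E →+* L) (A : E[X]) :
    rm i (algebraMap E[X] (RatFunc E) A) = algebraMap L[X] (RatFunc L) (A.map i) := by
  have h1 := RatFunc.map_apply_div (mapRingHom i) (by
    intro P hP
    rw [Submonoid.mem_comap, mem_nonZeroDivisors_iff_ne_zero]
    rw [mem_nonZeroDivisors_iff_ne_zero] at hP
    intro h
    exact hP (map_injective i i.injective (by rw [Polynomial.map_zero]; exact h))) A 1
  rw [map_one, map_one, map_one, div_one, div_one] at h1
  exact h1

/-- smooth polynomials do not vanish outside the field of constants -/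
private lemma Tm1_sm (i : E →+* L) (P' : E[X]) (hP' : ∀ b : L, P'.eval₂ i b ≠ 0) (b : L)
    (hb : ∀ a : E, b ≠ i a) (A : E[X]) (hA : A ≠ 0) (hs : SRG.Sm (insert P' (SRG.lt E 2)) A) :
    A.eval₂ i b ≠ 0 := by
  refine SRG.sm_ind (S := insert P' (SRG.lt E 2)) (M := fun A => A.eval₂ i b ≠ 0) ?_ ?_ ?_ A hA hs
  · intro c hc
    rw [eval₂_C]
    exact (map_ne_zero i).2 hc
  · intro Q hQ hm hi
    rcases Set.mem_insert_iff.1 hQ with h | h
    · rw [h]
      exact hP' b
    · have hd : Q.natDegree = 1 := by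
        have h1 : 0 < Q.natDegree := hi.natDegree_pos
        have h2 : Q.natDegree < 2 := h.2.2
        omega
      obtain ⟨c, hc⟩ : ∃ c : E, Q = Polynomial.X + C c := ⟨Q.coeff 0, hm.eq_X_add_C hd⟩
      rw [hc, eval₂_add, eval₂_X, eval₂_C]
      intro h0
      refine hb (-c) ?_
      rw [map_neg]
      exact eq_neg_of_add_eq_zero_left h0
  · intro A B _ _ _ _ h1 h2
    rw [eval₂_mul]
    exact mul_ne_zero h1 h2

private lemma Tm1_vH (i : E →+* L) (P' : E[X]) (hP' : ∀ b : L, P'.eval₂ i b ≠ 0) (b : L)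
    (hb : ∀ a : E, b ≠ i a) : ∀ v ∈ SG (insert P' (SRG.lt E 2)), ((VA b).comap (rm i)).vH v = 0 := by
  intro v hv
  refine AddSubgroup.closure_induction (p := fun v _ => ((VA b).comap (rm i)).vH v = 0) ?_ ?_ ?_ ?_ hv
  · rintro _ ⟨A, hA, hs, rfl⟩
    have h0 : algebraMap E[X] (RatFunc E) A ≠ 0 := RatFunc.algebraMap_ne_zero hA
    rw [TGF.vH_lg _ h0]
    change (VA b).v (rm i (algebraMap E[X] (RatFunc E) A)) = 0
    have hm : A.map i ≠ 0 := by
      intro h
      exact hA (map_injective i i.injective (by rw [Polynomial.map_zero]; exact h))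
    have h1 : ¬ IsRoot (A.map i) b := by
      rw [IsRoot.def, eval_map]
      exact Tm1_sm i P' hP' b hb A hA hs
    rw [Tm1_rm, (VA_at b).v _ hm, rootMultiplicity_eq_zero h1, Nat.cast_zero]
  · rw [map_zero]
  · intro x y _ _ hx hy
    rw [map_add, hx, hy, add_zero]
  · intro x _ hx
    rw [map_neg, hx, neg_zero]

private lemma Tm1_zero (i : E →+* L) (P' : E[X]) (hP' : ∀ b : L, P'.eval₂ i b ≠ 0)
    {y : X 1 (RatFunc E)} (hy : y ∈ Lv 1 (insert P' (SRG.lt E 2))) (b : L) (hb : ∀ a : E, b ≠ i a) :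
    reX (VA b) 0 (mX 1 (rm i) y) = 0 := by
  rw [← reX_comap]
  have h : Lv 1 (insert P' (SRG.lt E 2)) ≤ LinearMap.ker (reX ((VA b).comap (rm i)) 0) := by
    refine Submodule.span_le.2 ?_
    rintro _ ⟨x, ω, _, hω, rfl⟩
    exact LinearMap.mem_ker.2 (reX_TS _ 0 (Tm1_vH i P' hP' b hb) x hω)
  exact LinearMap.mem_ker.1 (h hy)

private lemma Tm1_VA (i : E →+* L) (a : E) (y : X 1 (RatFunc E)) :
    reX (VA (i a)) 0 (mX 1 (rm i) y) = mX 0 i (reX (VA a) 0 y) := by
  rw [← reX_comap, ← reX_push]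
  have hm : (((Tm1_pl a).P.map i).rootMultiplicity (i a) : ℚ) = 1 := by
    have h1 : (Tm1_pl a).P.map i = Polynomial.X - C (i a) := by
      change (Polynomial.X - C a : E[X]).map i = Polynomial.X - C (i a)
      rw [Polynomial.map_sub, map_X, map_C]
    rw [h1, rootMultiplicity_X_sub_C_self, Nat.cast_one]
  have hcomp : i.comp ((Tm1_pl a).r.comp C) = i := by
    ext c
    change i ((C c : E[X]).eval a) = i c
    rw [eval_C]
  have hX : i ((Tm1_pl a).r Polynomial.X) = i a := by
    change i ((Polynomial.X : E[X]).eval a) = i a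
    rw [eval_X]
  have h := reX_unif ((VA a).push i) ((VA (i a)).comap (rm i)) 1
    (fun x hx => by
      have h1 := (at_alg i (Tm1_pl a) (VA a) (Tm1_pt a) (i a) (VA (i a)) (VA_at (i a)) i hcomp hX x hx).1
      rw [hm] at h1
      exact h1)
    (fun x hx h0 =>
      (at_alg i (Tm1_pl a) (VA a) (Tm1_pt a) (i a) (VA (i a)) (VA_at (i a)) i hcomp hX x hx).2 h0) 0 y
  rw [one_smul] at h
  exact h

private lemma Tm1_inf (i : E →+* L) (y : X 1 (RatFunc E)) :
    reX VI 0 (mX 1 (rm i) y) = mX 0 i (reX VI 0 y) := by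
  rw [← reX_comap, ← reX_push]
  have h := reX_unif ((VI : AC (RatFunc E) E).push i) ((VI : AC (RatFunc L) L).comap (rm i)) 1
    (fun x hx => ((at_inf i VI VI_inf VI VI_inf x hx).1).trans (one_mul _).symm)
    (fun x hx _ => (at_inf i VI VI_inf VI VI_inf x hx).2) 0 y
  rw [one_smul] at h
  exact h

theorem tot_map (i : E →+* L) (P' : E[X]) (hP' : ∀ b : L, P'.eval₂ i b ≠ 0)
    {y : X 1 (RatFunc E)} (hy : y ∈ Lv 1 (insert P' (SRG.lt E 2))) :
    tot (mX 1 (rm i) y) = mX 0 i (tot y) := by
  obtain ⟨s, hs⟩ := res_fin y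
  rw [tot_eq y s hs, tot_eq (mX 1 (rm i) y) (s.image i) ?_]
  · rw [Finset.sum_image (fun a _ b _ h => i.injective h), Tm1_inf, map_add, map_sum]
    congr 1
    exact Finset.sum_congr rfl fun a _ => Tm1_VA i a y
  · intro b hb
    by_cases h : ∃ a : E, b = i a
    · obtain ⟨a, rfl⟩ := h
      have ha : a ∉ s := fun h1 => hb (Finset.mem_image_of_mem i h1)
      rw [Tm1_VA, hs a ha, map_zero]
    · exact Tm1_zero i P' hP' hy b fun a h1 => h ⟨a, h1⟩

theorem res_VA (i : E →+* L) (a : E) (y : X 1 (RatFunc E)) :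
    reX (VA (i a)) 0 (mX 1 (rm i) y) = mX 0 i (reX (VA a) 0 y) :=
  Tm1_VA i a y

end

end GD3
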