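import Pool.Agent.GD3.Rho
import Pool.Agent.GD3.Hom
import Pool.Agent.GD3.Pi
import Pool.Agent.GD3.Nr
import Pool.Agent.GD3.Gm
import Pool.Agent.GD3.Tm1
import Pool.Agent.GD3.Irr
import Pool.Agent.GD3.Fl
import Pool.Agent.GD3.Lm
import Pool.Agent.QPL.ColimN
import Pool.Agent.QPL.ColimA

set_option autoImplicit false

/-!
# GD3-Hp1: the total residue of a lift over N(s)

PLAN.  M = RatFunc N, p from the statement (p.P = q.P.map C, p.d = q.d =: d ≥ 2).  exists_L N d hN: L, ι.  rho_lift (hr: no_root_map) : z ∈ ZX 0 M with tot (mX 1 (rm ι) c.1) - mX 0 ι z ∈ NX 0 L.  zx_const: z - mX 0 C γ ∈ NX 0 M, γ ∈ ZX 0 N; hence tot (mX 1 (rm ι) c.1) - mX 0 (ι.comp C) γ ∈ NX 0 L (L2.map_N, map_comp).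
Finite level (fin_cl): a finite T ⊆ insert p.P (lt M d) with c ∈ CL T.  F1 := all roots in L of the Q.map ι, Q ∈ T, Q ≠ p.P.  For E = KS ι F with F1 ⊆ F: every Q ∈ T, Q ≠ p.P, of degree < d splits over L (CLd d L: sm_cl gives a product of linear factors; Splits) with all roots in E, so Q.map (toKS ι F) is smooth over lt E 2; p.P.map (toKS ι F) = q.P.map ((toKS ι F).comp C) is monic irreducible
over E (irr_map for the place V0 of E, over_C), so it is smooth over {itself}.  So mC (rm (toKS ι F)) c ∈ CL (insert (q.P.map ..) (lt E 2)) (lv_map, dl_map).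
tot over E: tot_map for E.subtype : E → L (no roots in L: no_root_map): mX 0 E.subtype (tot (mX 1 (rm (toKS ι F)) c.1)) = tot (mX 1 (rm ι) c.1) (rm of a composition; mX_comp).  With E1 = KS ι F1: z1 := tot (mX 1 (rm (toKS ι F1)) c.1) - mX 0 ((toKS ι F1).comp C) γ ∈ X 0 E1 is null in L.
colimN_NX (QPL/ColimN.lean) with M := E1, φ := E1.subtype: a finite S ⊆ L; F := F1 ∪ S, E := KS ι F, ψ : E1 → E the inclusion (Subfield.inclusion, closure_mono), i := E.subtype: mX 0 ψ z1 ∈ NX 0 E, and mX 0 ψ z1 = tot (mX 1 (rm (toKS ι F)) c.1) - mX 0 .. γ by tot_map for ψ (level over E1 as above).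
V0, V1 from exists_L for F.
-/

noncomputable section

open Polynomial TensorProduct
open scoped Classical

namespace GD3

open Helper14.Gon Helper14.W4 QPL TGF

universe u

section
variable {N k : Type u} [Field N] [Field k]

private theorem hp1_rm_alg {A B : Type u} [Field A] [Field B] (φ : A →+* B) (P : A[X]) :
    rm φ (algebraMap A[X] (RatFunc A) P) = algebraMap B[X] (RatFunc B) (P.map φ) := by
  have hφ : nonZeroDivisors A[X] ≤ (nonZeroDivisors (Polynomial B)).comap (mapRingHom φ) := by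
    intro P hP
    rw [Submonoid.mem_comap, mem_nonZeroDivisors_iff_ne_zero]
    rw [mem_nonZeroDivisors_iff_ne_zero] at hP
    intro h
    exact hP (map_injective φ φ.injective (by rw [Polynomial.map_zero]; exact h))
  have h := RatFunc.map_apply_div (K := A) (mapRingHom φ) hφ P 1
  rw [map_one, map_one, map_one, div_one, div_one] at h
  exact h

private theorem hp1_rm_comp {A B B' : Type u} [Field A] [Field B] [Field B'] (φ : A →+* B)
    (ψ : B →+* B') : rm (ψ.comp φ) = (rm ψ).comp (rm φ) := by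
  refine RingHom.ext fun x => ?_
  rw [RingHom.comp_apply, ← RatFunc.num_div_denom x, map_div₀, map_div₀, map_div₀,
    hp1_rm_alg, hp1_rm_alg, hp1_rm_alg, hp1_rm_alg, hp1_rm_alg, hp1_rm_alg, Polynomial.map_map,
    Polynomial.map_map]

/-- a polynomial of small degree whose roots lie in a subfield -/
private theorem hp1_split {A B B' : Type u} [Field A] [Field B] [Field B'] {n : ℕ}
    (hL : CLd n B') (j : A →+* B) (i : B →+* B') (Q : A[X]) (hQ : Q.natDegree < n) (hQ0 : Q ≠ 0)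
    (hr : ∀ x : B', (Q.map (i.comp j)).IsRoot x → ∃ y : B, i y = x) :
    SRG.Sm (SRG.lt B 2) (Q.map j) := by
  refine Or.inr fun R hRm hRi hRd => ⟨hRm, hRi, ?_⟩
  have hd1 : (R.map i) ∣ Q.map (i.comp j) := by
    rw [← Polynomial.map_map]
    exact Polynomial.map_dvd i hRd
  have hne : Q.map (i.comp j) ≠ 0 := (Polynomial.map_ne_zero_iff (i.comp j).injective).2 hQ0
  have hdeg : (R.map i).natDegree = R.natDegree := Polynomial.natDegree_map i
  have hle : (R.map i).natDegree ≤ Q.natDegree := by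
    have h1 := Polynomial.natDegree_le_of_dvd hd1 hne
    rwa [Polynomial.natDegree_map (f := i.comp j)] at h1
  have hpos : 0 < (R.map i).natDegree := by
    rw [hdeg]
    exact hRi.natDegree_pos
  obtain ⟨x, hx⟩ := hL (R.map i) hpos (lt_of_le_of_lt hle hQ)
  obtain ⟨y, hy⟩ := hr x (Polynomial.IsRoot.dvd hx hd1)
  have hRy : R.IsRoot y := by
    rw [← hy, Polynomial.eval_map, Polynomial.eval₂_hom] at hx
    exact i.injective (by rw [hx, map_zero])
  have h1 := Polynomial.degree_eq_one_of_irreducible_of_root hRi hRy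
  have h2 := Polynomial.natDegree_eq_of_degree_eq_some h1
  rw [h2]
  norm_num

private theorem hp1_self {A : Type u} [Field A] {P : A[X]} (hm : P.Monic) (hi : Irreducible P)
    (S : Set A[X]) : SRG.Sm (insert P S) P := by
  refine Or.inr fun R hRm hRi hRd => ?_
  have h1 := Polynomial.eq_of_monic_of_associated hRm hm (hRi.associated_of_dvd hi hRd)
  rw [h1]
  exact Set.mem_insert _ _

private theorem hp1_sm_mono {A : Type u} [Field A] {S S' : Set A[X]} (h : S ⊆ S') {P : A[X]}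
    (hP : SRG.Sm S P) : SRG.Sm S' P := by
  rcases hP with h0 | h1
  · exact Or.inl h0
  · exact Or.inr fun Q h2 h3 h4 => h (h1 Q h2 h3 h4)

/-- the levels over a field which contains the roots -/
private theorem hp1_lev {A B B' : Type u} [Field A] [Field B] [Field B'] {n : ℕ}
    (hL : CLd n B') (j : A →+* B) (i : B →+* B') (P : A[X]) (hm : (P.map j).Monic)
    (hi : Irreducible (P.map j)) (T : Finset A[X]) (hT : (T : Set A[X]) ⊆ insert P (SRG.lt A n))
    (hr : ∀ Q ∈ T, Q ≠ P → ∀ x : B', (Q.map (i.comp j)).IsRoot x → ∃ y : B, i y = x) :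
    ∀ Q ∈ (T : Set A[X]), SRG.Sm (insert (P.map j) (SRG.lt B 2)) (Q.map j) := by
  intro Q hQ
  by_cases hQP : Q = P
  · rw [hQP]
    exact hp1_self hm hi _
  · rcases hT hQ with h1 | h1
    · exact absurd h1 hQP
    · refine hp1_sm_mono (Set.subset_insert _ _) (hp1_split hL j i Q h1.2.2 h1.1.ne_zero
        (hr Q hQ hQP))

/-- total residues along extensions of constants -/
private theorem hp1_tot {A B B' : Type u} [Field A] [Field B] [Field B'] (j : A →+* B)
    (i : B →+* B') (ι : A →+* B') (hι : i.comp j = ι) (P' : B[X])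
    (hP' : ∀ b : B', P'.eval₂ i b ≠ 0) (y : X 1 (RatFunc A))
    (hy : mX 1 (rm j) y ∈ Lv 1 (insert P' (SRG.lt B 2))) :
    tot (mX 1 (rm ι) y) = mX 0 i (tot (mX 1 (rm j) y)) := by
  subst hι
  rw [hp1_rm_comp, mX_comp]
  exact tot_map i P' hP' hy

private theorem hp1_nr {N' A B B' : Type u} [Field N'] [Field A] [Field B] [Field B']
    (C' : N' →+* A) (P : N'[X]) (j : A →+* B) (i : B →+* B') (ι : A →+* B')
    (hι : i.comp j = ι) (h : ∀ a : B', (P.map C').eval₂ ι a ≠ 0) (b : B') :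
    (P.map (j.comp C')).eval₂ i b ≠ 0 := by
  subst hι
  have h1 := h b
  rw [Polynomial.eval₂_map] at h1 ⊢
  rwa [← RingHom.comp_assoc]

private theorem hp1_le {A B : Type u} [Field A] [Field B] (ι : A →+* B) (F F' : Finset B)
    (h : F ⊆ F') : KS ι F ≤ KS ι F' := by
  refine Subfield.closure_mono ?_
  refine Set.union_subset_union_right _ ?_
  exact_mod_cast h

private theorem hp1_sub {A B : Type u} [Field A] [Field B] (ι : A →+* B) (S S' : Subfield B)
    (h : S ≤ S') (a : A →+* S) (a' : A →+* S') (h1 : ∀ x, ((a x : S) : B) = ι x)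
    (h2 : ∀ x, ((a' x : S') : B) = ι x) : ∃ ψ : S →+* S', ψ.comp a = a' ∧
      (S'.subtype).comp ψ = S.subtype := by
  refine ⟨Subfield.inclusion h, RingHom.ext fun x => Subtype.ext ?_, RingHom.ext fun x => ?_⟩
  · rw [h2]
    exact h1 x
  · rfl

private theorem hp1_incl {A B : Type u} [Field A] [Field B] (ι : A →+* B) (F F' : Finset B)
    (h : F ⊆ F') : ∃ ψ : KS ι F →+* KS ι F', ψ.comp (toKS ι F) = toKS ι F' ∧
      ((KS ι F').subtype).comp ψ = (KS ι F).subtype :=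
  hp1_sub ι (KS ι F) (KS ι F') (hp1_le ι F F' h) (toKS ι F) (toKS ι F') (fun _ => rfl)
    (fun _ => rfl)

private theorem hp1_end {N' A B B' : Type u} [Field N'] [Field A] [Field B] [Field B']
    (C' : N' →+* A) (j : A →+* B) (ψ : B →+* B') (j' : A →+* B') (hψ : ψ.comp j = j')
    (x : X 0 B) (x' : X 0 B') (hx : x' = mX 0 ψ x) (γ : X 0 N')
    (h : mX 0 ψ (x - mX 0 (j.comp C') γ) ∈ NX 0 B') :
    x' - mX 0 (j'.comp C') γ ∈ NX 0 B' := by
  subst hψ
  rw [map_sub, ← mX_comp, ← hx, ← RingHom.comp_assoc] at h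
  exact h

private theorem hp1_beg {N' A B B' : Type u} [Field N'] [Field A] [Field B] [Field B']
    (C' : N' →+* A) (j : A →+* B) (ψ : B →+* B') (j' : A →+* B') (hψ : ψ.comp j = j')
    (x : X 0 B) (x' : X 0 B') (hx : x' = mX 0 ψ x) (γ : X 0 N')
    (h : x' - mX 0 (j'.comp C') γ ∈ NX 0 B') :
    mX 0 ψ (x - mX 0 (j.comp C') γ) ∈ NX 0 B' := by
  subst hψ
  rw [map_sub, ← mX_comp, ← hx, ← RingHom.comp_assoc]
  exact h

private theorem hp1_nr2 {N' A B B' : Type u} [Field N'] [Field A] [Field B] [Field B']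
    (P : A[X]) (j : A →+* B) (i : B →+* B') (ι : A →+* B')
    (hι : i.comp j = ι) (h : ∀ a : B', P.eval₂ ι a ≠ 0) (b : B) : P.eval₂ j b ≠ 0 := by
  subst hι
  intro ha
  refine h (i b) ?_
  have h5 := congrArg i ha
  rw [map_zero, Polynomial.hom_eval₂] at h5
  exact h5

theorem hp_one (q : SRG.Pl N k) (hN : CLd q.d N) (hd : 2 ≤ q.d)
    (p : SRG.Pl (RatFunc N) (RatFunc k))
    (hp : p.P = q.P.map (RatFunc.C : N →+* RatFunc N)) (c : C1 (RatFunc (RatFunc N)))
    (hc : c ∈ CZ (RatFunc (RatFunc N)))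
    (hl : c ∈ CL (insert p.P (SRG.lt (RatFunc N) p.d))) :
    ∃ γ ∈ ZX 0 N, ∃ (E : Type u) (_ : Field E) (j : RatFunc N →+* E) (V0 V1 : AC E N),
      Over 0 j V0 ∧ Over 1 j V1 ∧
      mC (rm j) c ∈ CL (insert (q.P.map (j.comp RatFunc.C)) (SRG.lt E 2)) ∧
      tot (mX 1 (rm j) c.1) - mX 0 (j.comp (RatFunc.C : N →+* RatFunc N)) γ ∈ NX 0 E := by
  obtain ⟨L, hLf, ι, hL, hV⟩ := exists_L N q.d hN
  have hpd : p.d = q.d := by
    change p.P.natDegree = q.P.natDegree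
    rw [hp, Polynomial.natDegree_map]
  have hd' : 2 ≤ q.P.natDegree := hd
  -- no roots in L
  have hnr : ∀ a : L, (q.P.map (RatFunc.C : N →+* RatFunc N)).eval₂ ι a ≠ 0 := fun a =>
    no_root_map ι (fun F => by
      obtain ⟨V0, V1, h0, h1⟩ := hV F
      exact ⟨V0, h0⟩) q.P q.irr hd' a
  -- the lift
  obtain ⟨z, hz, hzt⟩ := rho_lift p ι (by rw [hpd]; exact hL) (by rw [hp]; exact hnr) c hc
    hl.1
  obtain ⟨γ, hγ, hγz⟩ := zx_const z hz
  refine ⟨γ, hγ, ?_⟩
  have hL0 : tot (mX 1 (rm ι) c.1) - mX 0 (ι.comp (RatFunc.C : N →+* RatFunc N)) γ ∈ NX 0 L := by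
    have h1 : mX 0 ι (z - mX 0 (RatFunc.C : N →+* RatFunc N) γ) ∈ NX 0 L :=
      L2.map_N _ _ ι 0 _ hγz
    rw [map_sub, ← mX_comp] at h1
    have h2 := Submodule.add_mem _ hzt h1
    rw [sub_add_sub_cancel] at h2
    exact h2
  -- finite levels
  rw [hpd] at hl
  obtain ⟨T, hT, hcT⟩ := fin_cl hl
  obtain ⟨F1, hF1⟩ : ∃ F1 : Finset L, ∀ Q ∈ T, Q ≠ p.P → ∀ x : L, (Q.map ι).IsRoot x → x ∈ F1 := by
    refine ⟨T.biUnion fun Q => if Q = p.P then ∅ else (Q.map ι).roots.toFinset, ?_⟩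
    intro Q hQ hQP x hx
    have hQ0 : Q ≠ 0 := by
      rcases hT hQ with h1 | h1
      · exact absurd h1 hQP
      · exact h1.1.ne_zero
    have hne : Q.map ι ≠ 0 := (Polynomial.map_ne_zero_iff ι.injective).2 hQ0
    rw [Finset.mem_biUnion]
    refine ⟨Q, hQ, ?_⟩
    rw [if_neg hQP, Multiset.mem_toFinset, Polynomial.mem_roots hne]
    exact hx
  have hcomp : ∀ F : Finset L, ((KS ι F).subtype).comp (toKS ι F) = ι := fun F =>
    RingHom.ext fun x => rfl
  -- the level over KS ι F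
  have hlev : ∀ (F : Finset L), F1 ⊆ F → ∀ Q ∈ (T : Set (RatFunc N)[X]),
      SRG.Sm (insert (q.P.map ((toKS ι F).comp RatFunc.C)) (SRG.lt (KS ι F) 2))
        (Q.map (toKS ι F)) := by
    intro F hF
    obtain ⟨V0, V1, h0, h1⟩ := hV F
    have hirr := irr_map V0 ((toKS ι F).comp RatFunc.C) (fun c hc => over_C h0 c hc) q.P q.monic
      q.irr
    have hmon : (q.P.map ((toKS ι F).comp RatFunc.C)).Monic := q.monic.map _
    have heq : p.P.map (toKS ι F) = q.P.map ((toKS ι F).comp RatFunc.C) := by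
      rw [hp, Polynomial.map_map]
    have h3 := hp1_lev hL (toKS ι F) ((KS ι F).subtype) p.P (by rw [heq]; exact hmon)
      (by rw [heq]; exact hirr) T hT (by
        rw [hcomp F]
        intro Q hQ hQP x hx
        exact ⟨⟨x, Subfield.subset_closure (Or.inr (hF (hF1 Q hQ hQP x hx)))⟩, rfl⟩)
    rw [heq] at h3
    exact h3
  have htotL : ∀ F : Finset L, F1 ⊆ F → tot (mX 1 (rm ι) c.1) =
      mX 0 ((KS ι F).subtype) (tot (mX 1 (rm (toKS ι F)) c.1)) := fun F hF =>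
    hp1_tot (toKS ι F) ((KS ι F).subtype) ι (hcomp F)
      (q.P.map ((toKS ι F).comp RatFunc.C))
      (hp1_nr RatFunc.C q.P (toKS ι F) ((KS ι F).subtype) ι (hcomp F) hnr) c.1
      (lv_map (toKS ι F) (hlev F hF) 1 hcT.1)
  have hz1N := hp1_beg (RatFunc.C : N →+* RatFunc N) (toKS ι F1) ((KS ι F1).subtype) ι (hcomp F1)
    (tot (mX 1 (rm (toKS ι F1)) c.1)) (tot (mX 1 (rm ι) c.1))
    (htotL F1 (Finset.Subset.refl _)) γ hL0
  obtain ⟨S, hS⟩ := colimN_NX ((KS ι F1).subtype) 0 _ hz1N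
  have hF1S : F1 ⊆ F1 ∪ S := Finset.subset_union_left
  obtain ⟨ψ, hψ, hψ2⟩ := hp1_incl ι F1 (F1 ∪ S) hF1S
  obtain ⟨V0, V1, h0, h1⟩ := hV (F1 ∪ S)
  have hzS := hS (KS ι (F1 ∪ S)) ψ ((KS ι (F1 ∪ S)).subtype) hψ2
    (fun x hx => ⟨⟨x, Subfield.subset_closure (Or.inr (Finset.mem_union_right F1 hx))⟩, rfl⟩)
  have hnr2 : ∀ a : KS ι (F1 ∪ S),
      (q.P.map (RatFunc.C : N →+* RatFunc N)).eval₂ (toKS ι (F1 ∪ S)) a ≠ 0 :=
    hp1_nr2 (N' := N) _ (toKS ι (F1 ∪ S)) ((KS ι (F1 ∪ S)).subtype) ι (hcomp (F1 ∪ S)) hnr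
  have h3 := hp1_tot (toKS ι F1) ψ (toKS ι (F1 ∪ S)) hψ
    (q.P.map ((toKS ι F1).comp RatFunc.C))
    (hp1_nr RatFunc.C q.P (toKS ι F1) ψ (toKS ι (F1 ∪ S)) hψ hnr2) c.1
    (lv_map (toKS ι F1) (hlev F1 (Finset.Subset.refl _)) 1 hcT.1)
  have h4 := hp1_end (RatFunc.C : N →+* RatFunc N) (toKS ι F1) ψ (toKS ι (F1 ∪ S)) hψ
    (tot (mX 1 (rm (toKS ι F1)) c.1)) (tot (mX 1 (rm (toKS ι (F1 ∪ S))) c.1)) h3 γ hzS
  have h5 : mC (rm (toKS ι (F1 ∪ S))) c ∈
      CL (insert (q.P.map ((toKS ι (F1 ∪ S)).comp RatFunc.C)) (SRG.lt (KS ι (F1 ∪ S)) 2)) :=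
    ⟨lv_map (toKS ι (F1 ∪ S)) (hlev _ hF1S) 1 hcT.1,
      dl_map (toKS ι (F1 ∪ S)) (hlev _ hF1S) hcT.2⟩
  exact ⟨KS ι (F1 ∪ S), inferInstance, toKS ι (F1 ∪ S), V0, V1, h0, h1, h5, h4⟩

end

end GD3
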