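import Pool.Agent.GD3.Lr11
import Pool.Agent.TGF.Lvs

set_option autoImplicit false

/-!
# GD3-Lr12: finite levels

Every element of the group generated by the smooth polynomials of the level `SRG.lt L 2 ∪ {P}`
needs only finitely many linear primes (induction on the closure); the same for the cochains of
this level (induction on the spans); `lr_lt` is `lr_set` for this finite set.
-/

noncomputable section

open Polynomial TensorProduct
open scoped Classical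

namespace GD3

open Helper14.Gon Helper14.W4 QPL TGF

universe u

section
variable {L : Type u} [Field L] {P : L[X]}

/-- finite sets of linear primes -/
private def Lr12_ok (T : Finset L[X]) : Prop := ∀ Q ∈ T, ∃ a, Q = Polynomial.X - C a

private lemma Lr12_ok_empty : Lr12_ok (∅ : Finset L[X]) :=
  fun Q hQ => absurd hQ (Finset.notMem_empty Q)

private lemma Lr12_ok_union {T T' : Finset L[X]} (h : Lr12_ok T) (h' : Lr12_ok T') :
    Lr12_ok (T ∪ T') := fun Q hQ => (Finset.mem_union.1 hQ).elim (h Q) (h' Q)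

private lemma Lr12_sub_left (P : L[X]) (T T' : Finset L[X]) :
    (T : Set L[X]) ∪ {P} ⊆ ((T ∪ T' : Finset L[X]) : Set L[X]) ∪ {P} :=
  Set.union_subset_union_left _ (Finset.coe_subset.2 Finset.subset_union_left)

private lemma Lr12_sub_right (P : L[X]) (T T' : Finset L[X]) :
    (T' : Set L[X]) ∪ {P} ⊆ ((T ∪ T' : Finset L[X]) : Set L[X]) ∪ {P} :=
  Set.union_subset_union_left _ (Finset.coe_subset.2 Finset.subset_union_right)

private lemma Lr12_lin {Q : L[X]} (h : Q ∈ SRG.lt L 2) : ∃ a, Q = Polynomial.X - C a := by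
  obtain ⟨hm, hi, hd⟩ := h
  have h0 : 0 < Q.natDegree := hi.natDegree_pos
  have h1 : Q.natDegree = 1 := by omega
  refine ⟨- Q.coeff 0, ?_⟩
  have h2 := Polynomial.eq_X_add_C_of_natDegree_le_one h1.le
  have h3 : Q.coeff 1 = 1 := by
    have h4 := hm.coeff_natDegree
    rwa [h1] at h4
  rw [h3, C_1, one_mul] at h2
  rw [C_neg, sub_neg_eq_add]
  exact h2

private lemma Lr12_sm {A : L[X]} (hA : A ≠ 0) (hs : SRG.Sm (SRG.lt L 2 ∪ {P}) A) :
    ∃ T : Finset L[X], Lr12_ok T ∧ SRG.Sm ((T : Set L[X]) ∪ {P}) A := by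
  refine ⟨((UniqueFactorizationMonoid.normalizedFactors A).toFinset).filter
    (fun Q => Q ∈ SRG.lt L 2), fun Q hQ => Lr12_lin (Finset.mem_filter.1 hQ).2,
      Or.inr fun Q hQm hQi hQA => ?_⟩
  rcases hs with h0 | hs
  · exact absurd h0 hA
  rcases hs Q hQm hQi hQA with h1 | h1
  · left
    refine Finset.mem_coe.2 (Finset.mem_filter.2 ⟨?_, h1⟩)
    rw [Multiset.mem_toFinset, UniqueFactorizationMonoid.mem_normalizedFactors_iff' hA]
    exact ⟨hQi, hQm.normalize_eq_self, hQA⟩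
  · exact Or.inr h1

theorem sg_fin_lr {w : Additive (RatFunc L)ˣ} (hw : w ∈ SG (SRG.lt L 2 ∪ {P})) :
    ∃ T : Finset L[X], (∀ Q ∈ T, ∃ a, Q = Polynomial.X - C a) ∧
      w ∈ SG ((T : Set L[X]) ∪ {P}) := by
  change ∃ T : Finset L[X], Lr12_ok T ∧ w ∈ SG ((T : Set L[X]) ∪ {P})
  induction hw using AddSubgroup.closure_induction with
  | mem v hv =>
    obtain ⟨A, hA, hA', rfl⟩ := hv
    obtain ⟨T, hT, hT'⟩ := Lr12_sm hA hA'
    exact ⟨T, hT, SG_pl hA hT'⟩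
  | zero => exact ⟨∅, Lr12_ok_empty, AddSubgroup.zero_mem _⟩
  | add v w _ _ hv hw =>
    obtain ⟨T, hT, hT'⟩ := hv
    obtain ⟨U, hU, hU'⟩ := hw
    exact ⟨T ∪ U, Lr12_ok_union hT hU, AddSubgroup.add_mem _ (SG_mono (Lr12_sub_left P T U) hT')
      (SG_mono (Lr12_sub_right P T U) hU')⟩
  | neg v _ hv =>
    obtain ⟨T, hT, hT'⟩ := hv
    exact ⟨T, hT, AddSubgroup.neg_mem _ hT'⟩

private lemma Lr12_El {x : RatFunc L} (hx : El (SRG.lt L 2 ∪ {P}) x) :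
    ∃ T : Finset L[X], Lr12_ok T ∧ El ((T : Set L[X]) ∪ {P}) x := by
  obtain ⟨T1, a1, b1⟩ := sg_fin_lr hx.1
  obtain ⟨T2, a2, b2⟩ := sg_fin_lr hx.2
  exact ⟨T1 ∪ T2, Lr12_ok_union a1 a2, SG_mono (Lr12_sub_left P T1 T2) b1,
    SG_mono (Lr12_sub_right P T1 T2) b2⟩

private lemma Lr12_TS (j : ℕ) {ω : Tx j (RatFunc L)} (hω : ω ∈ TS j (SG (SRG.lt L 2 ∪ {P}))) :
    ∃ T : Finset L[X], Lr12_ok T ∧ ω ∈ TS j (SG ((T : Set L[X]) ∪ {P})) := by
  induction hω using Submodule.span_induction with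
  | mem ω hω =>
    obtain ⟨v, hv, rfl⟩ := hω
    choose T hT hT' using fun i => sg_fin_lr (hv i)
    refine ⟨Finset.univ.biUnion T, fun Q hQ => ?_, dm_mem_TS fun i => ?_⟩
    · obtain ⟨i, -, hi⟩ := Finset.mem_biUnion.1 hQ
      exact hT i Q hi
    · refine SG_mono (Set.union_subset_union_left _ (Finset.coe_subset.2 ?_)) (hT' i)
      exact Finset.subset_biUnion_of_mem T (Finset.mem_univ i)
  | zero => exact ⟨∅, Lr12_ok_empty, Submodule.zero_mem _⟩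
  | add a b _ _ ha hb =>
    obtain ⟨T, hT, hT'⟩ := ha
    obtain ⟨U, hU, hU'⟩ := hb
    exact ⟨T ∪ U, Lr12_ok_union hT hU, Submodule.add_mem _
      (TS_mono j (SG_mono (Lr12_sub_left P T U)) hT')
      (TS_mono j (SG_mono (Lr12_sub_right P T U)) hU')⟩
  | smul c a _ ha =>
    obtain ⟨T, hT, hT'⟩ := ha
    exact ⟨T, hT, Submodule.smul_mem _ c hT'⟩

private lemma Lr12_Lv (j : ℕ) {z : X j (RatFunc L)} (hz : z ∈ Lv j (SRG.lt L 2 ∪ {P})) :
    ∃ T : Finset L[X], Lr12_ok T ∧ z ∈ Lv j ((T : Set L[X]) ∪ {P}) := by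
  induction hz using Submodule.span_induction with
  | mem z hz =>
    obtain ⟨x, ω, h1, h3, rfl⟩ := hz
    obtain ⟨T1, a1, b1⟩ := Lr12_El h1
    obtain ⟨T3, a3, b3⟩ := Lr12_TS j h3
    exact ⟨T1 ∪ T3, Lr12_ok_union a1 a3, Submodule.subset_span
      ⟨x, ω, El_mono (Lr12_sub_left P T1 T3) b1,
        TS_mono j (SG_mono (Lr12_sub_right P T1 T3)) b3, rfl⟩⟩
  | zero => exact ⟨∅, Lr12_ok_empty, Submodule.zero_mem _⟩
  | add a b _ _ ha hb =>
    obtain ⟨T, hT, hT'⟩ := ha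
    obtain ⟨U, hU, hU'⟩ := hb
    exact ⟨T ∪ U, Lr12_ok_union hT hU, Submodule.add_mem _
      (Lv_mono j (Lr12_sub_left P T U) hT') (Lv_mono j (Lr12_sub_right P T U) hU')⟩
  | smul c a _ ha =>
    obtain ⟨T, hT, hT'⟩ := ha
    exact ⟨T, hT, Submodule.smul_mem _ c hT'⟩

private lemma Lr12_DL_mono {S S' : Set L[X]} (h : S ⊆ S') : DL S ≤ DL S' := by
  refine Submodule.span_mono ?_
  rintro z ⟨x, y, h1, h2, rfl⟩
  exact ⟨x, y, El_mono h h1, El_mono h h2, rfl⟩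

private lemma Lr12_DL {z : D (RatFunc L)} (hz : z ∈ DL (SRG.lt L 2 ∪ {P})) :
    ∃ T : Finset L[X], Lr12_ok T ∧ z ∈ DL ((T : Set L[X]) ∪ {P}) := by
  induction hz using Submodule.span_induction with
  | mem z hz =>
    obtain ⟨x, y, h1, h3, rfl⟩ := hz
    obtain ⟨T1, a1, b1⟩ := Lr12_El h1
    obtain ⟨T3, a3, b3⟩ := Lr12_El h3
    exact ⟨T1 ∪ T3, Lr12_ok_union a1 a3, Submodule.subset_span
      ⟨x, y, El_mono (Lr12_sub_left P T1 T3) b1, El_mono (Lr12_sub_right P T1 T3) b3, rfl⟩⟩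
  | zero => exact ⟨∅, Lr12_ok_empty, Submodule.zero_mem _⟩
  | add a b _ _ ha hb =>
    obtain ⟨T, hT, hT'⟩ := ha
    obtain ⟨U, hU, hU'⟩ := hb
    exact ⟨T ∪ U, Lr12_ok_union hT hU, Submodule.add_mem _
      (Lr12_DL_mono (Lr12_sub_left P T U) hT') (Lr12_DL_mono (Lr12_sub_right P T U) hU')⟩
  | smul c a _ ha =>
    obtain ⟨T, hT, hT'⟩ := ha
    exact ⟨T, hT, Submodule.smul_mem _ c hT'⟩

theorem cl_fin {c1 : C1 (RatFunc L)} (h : c1 ∈ CL (SRG.lt L 2 ∪ {P})) :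
    ∃ T : Finset L[X], (∀ Q ∈ T, ∃ a, Q = Polynomial.X - C a) ∧
      c1 ∈ CL ((T : Set L[X]) ∪ {P}) := by
  obtain ⟨h1, h2⟩ := Submodule.mem_prod.1 h
  obtain ⟨T1, a1, b1⟩ := Lr12_Lv 1 h1
  obtain ⟨T2, a2, b2⟩ := Lr12_DL h2
  exact ⟨T1 ∪ T2, Lr12_ok_union a1 a2, Submodule.mem_prod.2
    ⟨Lv_mono 1 (Lr12_sub_left P T1 T2) b1, Lr12_DL_mono (Lr12_sub_right P T1 T2) b2⟩⟩

end

section
variable {L N : Type u} [Field L] [Field N] {V : AC L N} {i : N →+* L} {P0 : N[X]}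
  {VN : N → AC (RatFunc N) N} {VN' : AC (RatFunc N) N} {VL : L → AC (RatFunc L) L}
  {VL' : AC (RatFunc L) L}

/-- the total residue specialises (linear level and `P`) -/
theorem lr_lt (hB : LB V i P0) (hVN : ∀ b, IsAt b (VN b)) (hVN' : IsInf VN')
    (hVL : ∀ a, IsAt a (VL a)) (hVL' : IsInf VL') (hR : RecH VN VN') {c1 : C1 (RatFunc L)}
    (h1 : c1 ∈ CZ (RatFunc L)) (h2 : c1 ∈ CL (SRG.lt L 2 ∪ {P0.map i}))
    {W : AC (RatFunc L) (RatFunc N)} (hW : IsMono V 0 W) {s : Finset L} {t : Finset N}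
    (hs : ∀ a, a ∉ s → reX (VL a) 0 c1.1 = 0)
    (ht : ∀ b, b ∉ t → reX (VN b) 0 (spX W 1 c1.1) = 0) :
    spX V 0 (∑ a ∈ s, reX (VL a) 0 c1.1 + reX VL' 0 c1.1) -
      (∑ b ∈ t, reX (VN b) 0 (spX W 1 c1.1) + reX VN' 0 (spX W 1 c1.1)) ∈ NX 0 N := by
  obtain ⟨T, hT, h3⟩ := cl_fin h2
  exact lr_set hB hVN hVN' hVL hVL' hR h1 hT h3 hW hs ht

end

end GD3
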