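import Pool.Agent.GD3.Defs2
import Pool.Agent.GD3.Rec1
import Pool.Agent.GD3.Un
import Pool.Agent.GD3.Lr12

set_option autoImplicit false

/-!
# GD3-Lr: the total residue commutes with a place

The interface of the modules `Lr0`, …, `Lr12`.
-/

noncomputable section

open Polynomial TensorProduct
open scoped Classical

namespace GD3

open Helper14.Gon Helper14.W4 QPL TGF

universe u

section
variable {L N : Type u} [Field L] [Field N]

private lemma lr_recH (K : Type u) [Field K] :
    RecH (fun a : K => VA a) (VI : AC (RatFunc K) K) := by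
  intro c hc hl
  exact rec1 c hc hl (fun V x y hx hx1 hy hy1 hxy => star_unr V hx hx1 hy hy1 hxy)
    (fun a => VA a) VI (fun a => VA_at a) VI_inf

private lemma lr_nr {P0 : N[X]} (hP : Irreducible P0) (hd : 2 ≤ P0.natDegree) (c : N) :
    P0.eval c ≠ 0 := by
  intro h
  have h1 := Polynomial.degree_eq_one_of_irreducible_of_root hP (show P0.IsRoot c from h)
  have h2 : P0.natDegree = 1 := Polynomial.natDegree_eq_of_degree_eq_some h1
  rw [h2] at hd
  exact absurd hd (by norm_num)

theorem lr (V : AC L N) (i : N →+* L) (hi : ∀ c : N, c ≠ 0 → V.v (i c) = 0 ∧ V.lc (i c) = c)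
    (P0 : N[X]) (hm : P0.Monic) (hP : Irreducible P0) (hd : 2 ≤ P0.natDegree)
    (c : C1 (RatFunc L)) (hc : c ∈ CZ (RatFunc L))
    (hl : c ∈ CL (insert (P0.map i) (SRG.lt L 2))) (W : AC (RatFunc L) (RatFunc N))
    (hW : IsMono V 0 W) : spX V 0 (tot c.1) - tot (spX W 1 c.1) ∈ NX 0 N := by
  have hB : LB V i P0 :=
    { hv := fun z hz => (hi z hz).1
      hl := fun z => by
        by_cases hz : z = 0
        · rw [hz, map_zero, map_zero]
        · exact (hi z hz).2
      mon := hm
      nr := lr_nr hP hd }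
  obtain ⟨s, hs⟩ := res_fin c.1
  obtain ⟨t, ht⟩ := res_fin (spX W 1 c.1)
  have hl' : c ∈ CL (SRG.lt L 2 ∪ {P0.map i}) := by
    have h1 : SRG.lt L 2 ∪ {P0.map i} = insert (P0.map i) (SRG.lt L 2) := by
      rw [Set.union_comm, ← Set.insert_eq]
    rw [h1]
    exact hl
  rw [tot_eq c.1 s hs, tot_eq (spX W 1 c.1) t ht]
  exact lr_lt (VN := fun b => VA b) (VN' := VI) (VL := fun a => VA a) (VL' := VI) hB
    (fun b => VA_at b) VI_inf (fun a => VA_at a) VI_inf (lr_recH N) hc hl' hW hs ht

end

end GD3
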