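import Pool.Agent.GD3.Hp1
import Pool.Agent.GD3.Lr
import Pool.Agent.GD3.Gu1
import Pool.Agent.GD3.Gu3
import Pool.Agent.GD3.Lift1
import Pool.Agent.GD3.Fr
import Pool.Agent.GD3.Hom

set_option autoImplicit false

/-!
# GD3-Hp2: the homotopy

PLAN.  p from exists_plM q, Vp from exists_pt p.  lift1 hVp β: c ∈ CZ (RatFunc M), M = RatFunc N, c.1 ∈ LvP p (lt M d), c ∈ CL (insert p.P (lt M d)), reX Vp 0 c.1 - β ∈ Z0 0 (RatFunc k).  hp_one: γ, E, j, V0, V1.  For b = 0, 1: V = V_b, W from exists_mono V 0 (QPL/Mono.lean), U := W.comap (rm j), c_b := spC W (mC (rm j) c).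
cz: cz_map, cz_sp.  c_b.1 = spX W 1 (mX 1 (rm j) c.1) = spX U 1 c.1 (L2.sp_comap of TGF/Fin.lean, th2.sp = spX), c_b.2 = spD W (mD (rm j) c.2) = spD U c.2 (D_ind, spD_sb, comap).  gs_of_mono, gs_const: levels by gs_lvp, gs_dl; residue by gs_res: reX Vq 0 c_b.1 - spX Wb 0 (reX Vp 0 c.1) ∈ Z0, and spX Wb 0 maps Z0 to Z0; q.r (C 0) = 0, q.r (C 1) = 1.
tot c_b.1 - γ ∈ NX 0 N: lr for V, i = j.comp C (over_C), P0 = q.P, mC (rm j) c: spX V 0 (tot (mX 1 (rm j) c.1)) - tot c_b.1 ∈ NX 0 N; spX_NX0: spX V 0 (tot .. - mX 0 (j.comp C) γ) ∈ NX 0 N; spX V 0 (mX 0 (j.comp C) γ) - γ ∈ Z0 0 N ≤ NX 0 N (Z0 ≤ NX 0: Z0_c3).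
c := c_0 - c_1.
-/

noncomputable section

open Polynomial TensorProduct
open scoped Classical

namespace GD3

open Helper14.Gon Helper14.W4 QPL TGF

universe u

section

private theorem hp2_spD {F L M : Type u} [Field F] [Field L] [Field M] (V : AC L M) (φ : F →+* L)
    (σ : D F) : spD V (mD φ σ) = spD (V.comap φ) σ := by
  have h : (spD V) ∘ₗ (mD φ) = spD (V.comap φ) := by
    apply D_ext
    intro x y
    rw [LinearMap.comp_apply, mD_sb, spD_sb, spD_sb]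
    have hx : (φ x ≠ 0) ↔ (x ≠ 0) := map_ne_zero φ
    have hy : (φ y ≠ 0) ↔ (y ≠ 0) := map_ne_zero φ
    by_cases hc : x ≠ 0 ∧ V.v (φ x) = 0 ∧ y ≠ 0 ∧ V.v (φ y) = 0
    · have hc1 : φ x ≠ 0 ∧ V.v (φ x) = 0 ∧ φ y ≠ 0 ∧ V.v (φ y) = 0 :=
        ⟨hx.2 hc.1, hc.2.1, hy.2 hc.2.2.1, hc.2.2.2⟩
      have hc2 : x ≠ 0 ∧ (V.comap φ).v x = 0 ∧ y ≠ 0 ∧ (V.comap φ).v y = 0 := hc
      rw [if_pos hc1, if_pos hc2]
      rfl
    · have hc1 : ¬ (φ x ≠ 0 ∧ V.v (φ x) = 0 ∧ φ y ≠ 0 ∧ V.v (φ y) = 0) := fun h =>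
        hc ⟨hx.1 h.1, h.2.1, hy.1 h.2.2.1, h.2.2.2⟩
      have hc2 : ¬ (x ≠ 0 ∧ (V.comap φ).v x = 0 ∧ y ≠ 0 ∧ (V.comap φ).v y = 0) := hc
      rw [if_neg hc1, if_neg hc2]
  exact LinearMap.congr_fun h σ

private theorem hp2_Z0 {L M : Type u} [Field L] [Field M] (V : AC L M) {z : X 0 L}
    (hz : z ∈ Z0 0 L) : spX V 0 z ∈ Z0 0 M := by
  obtain ⟨ω, rfl⟩ := hz
  rw [bxL_apply, spX_bx, if_pos (Or.inl rfl), map_zero]
  exact ⟨spT V 0 ω, bxL_apply _ _⟩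

private theorem hp2_triv {E N : Type u} [Field E] [Field N] (V : AC E N) (i : N →+* E)
    (hi : ∀ c : N, c ≠ 0 → V.v (i c) = 0 ∧ V.lc (i c) = c) (γ : X 0 N) :
    spX V 0 (mX 0 i γ) = γ := by
  have h1 : spX (V.comap i) 0 γ = spX V 0 (mX 0 i γ) := L2.sp_comap N E N V i 0 γ
  have h2 : spX (V.comap i) 0 γ = mX 0 (RingHom.id N) γ :=
    L2.sp_triv N N (V.comap i) (RingHom.id N) (fun x hx => hi x hx) 0 γ
  have h3 : mX 0 (RingHom.id N) γ = γ := L2.map_id N 0 γ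
  rw [← h1, h2, h3]

end

section
variable {N k : Type u} [Field N] [Field k]

private theorem hp2_side (q : SRG.Pl N k) (hd : 2 ≤ q.d) (Vq : AC (RatFunc N) k)
    (hVq : IsPt q Vq) (p : SRG.Pl (RatFunc N) (RatFunc k))
    (hp : p.P = q.P.map (RatFunc.C : N →+* RatFunc N))
    (hX : p.r Polynomial.X = RatFunc.C (q.r Polynomial.X))
    (hc : ∀ c : RatFunc N, p.r (Polynomial.C c) = rm (q.r.comp Polynomial.C) c)
    (Vp : AC (RatFunc (RatFunc N)) (RatFunc k)) (hVp : IsPt p Vp) (β : X 0 (RatFunc k))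
    (c : C1 (RatFunc (RatFunc N))) (hcz : c ∈ CZ (RatFunc (RatFunc N)))
    (hcp : c.1 ∈ LvP p (SRG.lt (RatFunc N) p.d))
    (hc1 : c.1 ∈ Lv 1 (insert p.P (SRG.lt (RatFunc N) p.d)))
    (hc2 : c.2 ∈ DL (insert p.P (SRG.lt (RatFunc N) p.d)))
    (hcr : reX Vp 0 c.1 - β ∈ Z0 0 (RatFunc k)) (γ : X 0 N) {E : Type u} [Field E]
    (j : RatFunc N →+* E) (b : N) (V : AC E N) (hV : Over b j V)
    (hlE : mC (rm j) c ∈ CL (insert (q.P.map (j.comp RatFunc.C)) (SRG.lt E 2)))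
    (htot : tot (mX 1 (rm j) c.1) - mX 0 (j.comp (RatFunc.C : N →+* RatFunc N)) γ ∈ NX 0 E)
    (Wb : AC (RatFunc k) k) (hWb : IsAt (q.r (Polynomial.C b)) Wb) :
    ∃ cb ∈ CZ (RatFunc N), cb.1 ∈ LvP q (SRG.lt N q.d) ∧
      cb.2 ∈ DL (insert q.P (SRG.lt N q.d)) ∧ reX Vq 0 cb.1 - spX Wb 0 β ∈ Z0 0 k ∧
      tot cb.1 - γ ∈ NX 0 N := by
  obtain ⟨W, hW⟩ := exists_mono V 0
  have hU : IsGs b (W.comap (rm j)) := gs_of_mono hV hW
  have hC : GsC (W.comap (rm j)) := gs_const hW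
  have hmz : mC (rm j) c ∈ CZ (RatFunc E) := cz_map (rm j) hcz
  have hsz : spC W (mC (rm j) c) ∈ CZ (RatFunc N) := cz_sp W hmz
  have e1 : (spC W (mC (rm j) c)).1 = spX (W.comap (rm j)) 1 c.1 :=
    (L2.sp_comap (RatFunc (RatFunc N)) (RatFunc E) (RatFunc N) W (rm j) 1 c.1).symm
  have e2 : (spC W (mC (rm j) c)).2 = spD (W.comap (rm j)) c.2 := hp2_spD W (rm j) c.2
  refine ⟨spC W (mC (rm j) c), hsz, ?_, ?_, ?_, ?_⟩
  · rw [e1]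
    exact gs_lvp hU hC q p hp hcp
  · rw [e2]
    exact gs_dl hU hC q p hp hc2
  · have h1 := gs_res hU hC q p hp hX hc Vp hVp Vq hVq Wb hWb hc1
    have h2 := hp2_Z0 Wb hcr
    rw [map_sub] at h2
    have h3 := (Z0 0 k).add_mem h1 h2
    rw [e1]
    have h4 : reX Vq 0 (spX (W.comap (rm j)) 1 c.1) - spX Wb 0 β =
        reX Vq 0 (spX (W.comap (rm j)) 1 c.1) - spX Wb 0 (reX Vp 0 c.1) +
          (spX Wb 0 (reX Vp 0 c.1) - spX Wb 0 β) := by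
      abel
    rw [h4]
    exact h3
  · have hi : ∀ a : N, a ≠ 0 → V.v ((j.comp (RatFunc.C : N →+* RatFunc N)) a) = 0 ∧
        V.lc ((j.comp (RatFunc.C : N →+* RatFunc N)) a) = a := fun a ha => over_C hV a ha
    have h1 : spX V 0 (tot (mC (rm j) c).1) - tot (spX W 1 (mC (rm j) c).1) ∈ NX 0 N :=
      lr V (j.comp (RatFunc.C : N →+* RatFunc N)) hi q.P q.monic q.irr hd (mC (rm j) c) hmz hlE
        W hW
    have h2 := spX_NX0 V _ htot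
    rw [map_sub, hp2_triv V (j.comp (RatFunc.C : N →+* RatFunc N)) hi γ] at h2
    have h3 := (NX 0 N).sub_mem h2 h1
    have h4 : tot (spC W (mC (rm j) c)).1 - γ =
        (spX V 0 (tot (mX 1 (rm j) c.1)) - γ) -
          (spX V 0 (tot (mC (rm j) c).1) - tot (spX W 1 (mC (rm j) c).1)) := by
      rw [mC_fst, spC_fst, mC_fst]
      abel
    rw [h4]
    exact h3

theorem hp (q : SRG.Pl N k) (hN : CLd q.d N) (hd : 2 ≤ q.d) (Vq : AC (RatFunc N) k)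
    (hVq : IsPt q Vq) (W0 W1 : AC (RatFunc k) k) (h0 : IsAt 0 W0) (h1 : IsAt 1 W1)
    (β : X 0 (RatFunc k)) (hβ : β ∈ ZX 0 (RatFunc k)) :
    ∃ c ∈ CZ (RatFunc N), c.1 ∈ LvP q (SRG.lt N q.d) ∧ c.2 ∈ DL (insert q.P (SRG.lt N q.d)) ∧
      reX Vq 0 c.1 - (spX W0 0 β - spX W1 0 β) ∈ Z0 0 k ∧ tot c.1 ∈ NX 0 N := by
  obtain ⟨p, hp, hX, hc⟩ := exists_plM q
  obtain ⟨Vp, hVp⟩ := exists_pt p
  obtain ⟨c, hcz, hcp, hc1, hc2, hcr⟩ := lift1 hVp β hβ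
  obtain ⟨γ, hγ, E, iE, j, V0, V1, hO0, hO1, hlE, htot⟩ := hp_one q hN hd p hp c hcz ⟨hc1, hc2⟩
  have h0' : IsAt (q.r (Polynomial.C (0 : N))) W0 := by
    rw [map_zero, map_zero]
    exact h0
  have h1' : IsAt (q.r (Polynomial.C (1 : N))) W1 := by
    rw [map_one, map_one]
    exact h1
  obtain ⟨a, ha, ha1, ha2, ha3, ha4⟩ := hp2_side q hd Vq hVq p hp hX hc Vp hVp β c hcz hcp hc1
    hc2 hcr γ j 0 V0 hO0 hlE htot W0 h0'
  obtain ⟨b, hb, hb1, hb2, hb3, hb4⟩ := hp2_side q hd Vq hVq p hp hX hc Vp hVp β c hcz hcp hc1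
    hc2 hcr γ j 1 V1 hO1 hlE htot W1 h1'
  refine ⟨a - b, (CZ (RatFunc N)).sub_mem ha hb, ?_, ?_, ?_, ?_⟩
  · rw [Prod.fst_sub]
    exact Submodule.sub_mem _ ha1 hb1
  · rw [Prod.snd_sub]
    exact Submodule.sub_mem _ ha2 hb2
  · rw [Prod.fst_sub, map_sub]
    have h := (Z0 0 k).sub_mem ha3 hb3
    have e : reX Vq 0 a.1 - reX Vq 0 b.1 - (spX W0 0 β - spX W1 0 β) =
        reX Vq 0 a.1 - spX W0 0 β - (reX Vq 0 b.1 - spX W1 0 β) := by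
      abel
    rw [e]
    exact h
  · rw [Prod.fst_sub, map_sub]
    have h := (NX 0 N).sub_mem ha4 hb4
    have e : tot a.1 - tot b.1 = tot a.1 - γ - (tot b.1 - γ) := by
      abel
    rw [e]
    exact h

end

end GD3
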