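import Pool.Agent.GD3.Defs
import Pool.Agent.TGF.Tq

set_option autoImplicit false

/-!
# GD3-Kz: a Koszul lemma

PLAN.  Extend b to a bilinear symmetric map on the rational vector space WQ F (Helper14/W4/H2: WQ, toQ, wW) with values in Tx 1 F →ₗ W (b is determined on ℚ-multiples; see Koz_lin in TGF/Koz.lean for such an
extension).  Let π : WQ → WQ be a linear projection onto the ℚ-span of H, c v = v - π v.  Tx 1 F is spanned by the w1 l (Tx_ind, e0_inj).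
χ(k) for k ∈ WQ is the linear functional on Tx 2 F with χ(k)(v ∧ l) = (1/3)(b(π k, π v)(π l) - b(π k, π l)(π v)) + (1/2)(b(π k, π v)(c l) - b(π k, π l)(c v)), where (l) stands for w1 l extended to WQ:
bilinear alternating in (v, l).  To get a linear map on Tx 2 F from an alternating bilinear map use the universal property (exteriorPower.alternatingMapLinearEquiv, LinearMap.liftBaseChange, see ctT in Helper14/W4/H1) or, simpler, `koszul` / `exists_tq` / the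
tensor trick: Tx 2 F ≅ quotient, or `koszul 0 ⊤ ⊤` of TGF/Koz.lean: an additive map χ' : F^* → (Tx 1 F →ₗ W) with χ' v (w1 v) = 0 for all v extends: there is Om : Tx 2 F →ₗ W with Om (wT 1 v μ) = χ' v μ.  (To get additivity and linearity in k choose Om for the
target W' = Hom: apply koszul with W replaced by (WQ →ₗ[ℚ] W) or (Additive Fˣ →+ W), so that k is a parameter.)
Check: for g, g' ∈ H, l ∈ F^*: χ(g)(g' ∧ l) + χ(g')(g ∧ l) = (1/3)(2 b(g,g')(π l) - b(g, π l)(g') - b(g', π l)(g)) + (1/2)(b(g,g') + b(g',g))(c l) = b(g,g')(π l) + b(g,g')(c l), using the cyclic relation for g, g', π l (rational combination of elements of H).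
-/

noncomputable section

open Polynomial TensorProduct
open scoped Classical

namespace GD3

open Helper14.Gon Helper14.W4 QPL TGF

universe u

section
variable {F : Type u} [Field F] {W : Type u} [AddCommGroup W] [Module ℚ W]

/-- the linear extension -/
private def Kz_lin {A : Type u} [AddCommGroup A] [Module ℚ A] (χ : Additive Fˣ →+ A) : WQ F →ₗ[ℚ] A :=
  LinearMap.liftBaseChange ℚ χ.toIntLinearMap

private lemma Kz_lin_toQ {A : Type u} [AddCommGroup A] [Module ℚ A] (χ : Additive Fˣ →+ A) (v : Additive Fˣ) :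
    Kz_lin χ (toQ v) = χ v := by
  simp only [Kz_lin, toQ]
  exact LinearMap.liftBaseChange_one_tmul ℚ _ _

private lemma Kz_add (a b : Additive Fˣ) : (toQ (a + b) : WQ F) = toQ a + toQ b := by
  rw [toQ, toQ, toQ, tmul_add]

/-- the span of the classes of the elements of `H` -/
private def Kz_sp (H : AddSubgroup (Additive Fˣ)) : Submodule ℚ (WQ F) :=
  Submodule.span ℚ {x | ∃ v ∈ H, x = toQ v}

private lemma Kz_mem {H : AddSubgroup (Additive Fˣ)} {v : Additive Fˣ} (hv : v ∈ H) : (toQ v : WQ F) ∈ Kz_sp H :=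
  Submodule.subset_span ⟨v, hv, rfl⟩

private lemma Kz_ind {H : AddSubgroup (Additive Fˣ)} (f : WQ F →ₗ[ℚ] W) (h : ∀ v ∈ H, f (toQ v) = 0) {x : WQ F}
    (hx : x ∈ Kz_sp H) : f x = 0 := by
  have h1 : Kz_sp H ≤ LinearMap.ker f := by
    refine Submodule.span_le.2 ?_
    rintro _ ⟨v, hv, rfl⟩
    exact h v hv
  exact h1 hx

/-- the isomorphism `F^* ⊗ ℚ → Λ^1` -/
private def Kz_phi : WQ F →ₗ[ℚ] Tx 1 F := (LinearMap.applyₗ (u0 F)) ∘ₗ (wW 0)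

private lemma Kz_phi_toQ (v : Additive Fˣ) : Kz_phi (toQ v) = w1 v := by
  show wW 0 (toQ v) (u0 F) = wT 0 v (u0 F)
  rw [wW_toQ]

private lemma Kz_psi : ∃ ψ : Tx 1 F →ₗ[ℚ] WQ F, (∀ (v : Additive Fˣ) (μ : Tx 0 F), ψ (wT 0 v μ) = e0 F μ • toQ v) ∧
    ∀ μ, Kz_phi (ψ μ) = μ := by
  obtain ⟨ψ, hψ⟩ := koszul0 (F := F) (W := WQ F) (AddMonoidHom.mk' (fun v => (e0 F).smulRight (toQ v)) (fun a b => by
    refine LinearMap.ext fun μ => ?_
    show e0 F μ • (toQ (a + b) : WQ F) = e0 F μ • toQ a + e0 F μ • toQ b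
    rw [Kz_add, smul_add]))
  have h1 : ∀ (v : Additive Fˣ) (μ : Tx 0 F), ψ (wT 0 v μ) = e0 F μ • toQ v := fun v μ => hψ v μ
  refine ⟨ψ, h1, fun μ => ?_⟩
  have h2 : Kz_phi ∘ₗ ψ = LinearMap.id := by
    refine Tx_ext_succ fun v ω => ?_
    show Kz_phi (ψ (wT 0 v ω)) = wT 0 v ω
    rw [h1, map_smul, Kz_phi_toQ, w1, ← map_smul, e0_inj]
  exact LinearMap.congr_fun h2 μ

/-- the trilinear form for a first argument in `F^*` -/
private def Kz_b (b : Additive Fˣ →+ Additive Fˣ →+ (Tx 1 F →ₗ[ℚ] W)) : Additive Fˣ →+ (WQ F →ₗ[ℚ] WQ F →ₗ[ℚ] W) :=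
  AddMonoidHom.mk' (fun v => Kz_lin (AddMonoidHom.mk' (fun w => (b v w) ∘ₗ Kz_phi) (fun x y => by
    rw [map_add, LinearMap.add_comp]))) (fun x y => by
    refine WQ_ext fun w => ?_
    rw [LinearMap.add_apply, Kz_lin_toQ, Kz_lin_toQ, Kz_lin_toQ]
    show (b (x + y) w) ∘ₗ Kz_phi = (b x w) ∘ₗ Kz_phi + (b y w) ∘ₗ Kz_phi
    rw [map_add, AddMonoidHom.add_apply, LinearMap.add_comp])

/-- the trilinear form -/
private def Kz_B (b : Additive Fˣ →+ Additive Fˣ →+ (Tx 1 F →ₗ[ℚ] W)) : WQ F →ₗ[ℚ] WQ F →ₗ[ℚ] WQ F →ₗ[ℚ] W :=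
  Kz_lin (Kz_b b)

private lemma Kz_B_toQ (b : Additive Fˣ →+ Additive Fˣ →+ (Tx 1 F →ₗ[ℚ] W)) (v w : Additive Fˣ) (l : WQ F) :
    Kz_B b (toQ v) (toQ w) l = b v w (Kz_phi l) := by
  rw [Kz_B, Kz_lin_toQ]
  have h : Kz_b b v (toQ w) = (b v w) ∘ₗ Kz_phi := Kz_lin_toQ _ w
  rw [h]
  rfl

private lemma Kz_symm (b : Additive Fˣ →+ Additive Fˣ →+ (Tx 1 F →ₗ[ℚ] W)) (hb : ∀ v w, b v w = b w v) (x y : WQ F) :
    Kz_B b x y = Kz_B b y x := by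
  have h1 : Kz_B b = (Kz_B b).flip := by
    refine WQ_ext fun v => WQ_ext fun w => ?_
    refine LinearMap.ext fun l => ?_
    show Kz_B b (toQ v) (toQ w) l = Kz_B b (toQ w) (toQ v) l
    rw [Kz_B_toQ, Kz_B_toQ, hb]
  exact LinearMap.congr_fun (LinearMap.congr_fun h1 x) y

private lemma Kz_cyc (H : AddSubgroup (Additive Fˣ))
    (b : Additive Fˣ →+ Additive Fˣ →+ (Tx 1 F →ₗ[ℚ] W))
    (hc : ∀ g₁ ∈ H, ∀ g₂ ∈ H, ∀ g₃ ∈ H,
      b g₁ g₂ (w1 g₃) + b g₂ g₃ (w1 g₁) + b g₃ g₁ (w1 g₂) = 0) {x y z : WQ F} (hx : x ∈ Kz_sp H) (hy : y ∈ Kz_sp H)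
    (hz : z ∈ Kz_sp H) : Kz_B b x y z + Kz_B b y z x + Kz_B b z x y = 0 := by
  have key : ∀ y z : WQ F, (∀ g ∈ H, Kz_B b (toQ g) y z + Kz_B b y z (toQ g) + Kz_B b z (toQ g) y = 0) →
      ∀ x ∈ Kz_sp H, Kz_B b x y z + Kz_B b y z x + Kz_B b z x y = 0 := by
    intro y z h x hx
    exact Kz_ind ((LinearMap.applyₗ z) ∘ₗ ((LinearMap.applyₗ y) ∘ₗ (Kz_B b)) + Kz_B b y z + (LinearMap.applyₗ y) ∘ₗ (Kz_B b z))
      (fun g hg => h g hg) hx
  have s1 : ∀ g₂ ∈ H, ∀ g₃ ∈ H, ∀ x ∈ Kz_sp H, Kz_B b x (toQ g₂) (toQ g₃) + Kz_B b (toQ g₂) (toQ g₃) x +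
      Kz_B b (toQ g₃) x (toQ g₂) = 0 := by
    intro g₂ h2 g₃ h3
    refine key _ _ fun g hg => ?_
    rw [Kz_B_toQ, Kz_B_toQ, Kz_B_toQ, Kz_phi_toQ, Kz_phi_toQ, Kz_phi_toQ]
    exact hc g hg g₂ h2 g₃ h3
  have s2 : ∀ g₃ ∈ H, ∀ x ∈ Kz_sp H, ∀ y ∈ Kz_sp H, Kz_B b y (toQ g₃) x + Kz_B b (toQ g₃) x y +
      Kz_B b x y (toQ g₃) = 0 := by
    intro g₃ h3 x hx
    refine key _ _ fun g hg => ?_
    have := s1 g hg g₃ h3 x hx
    rw [← this]
    abel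
  have s3 : ∀ x ∈ Kz_sp H, ∀ y ∈ Kz_sp H, ∀ z ∈ Kz_sp H, Kz_B b z x y + Kz_B b x y z + Kz_B b y z x = 0 := by
    intro x hx y hy
    refine key _ _ fun g hg => ?_
    have := s2 g hg x hx y hy
    rw [← this]
    abel
  have := s3 x hx y hy z hz
  rw [← this]
  abel

/-- the value of `χ(k)` at `v ∧ l` -/
private def Kz_val (B : WQ F →ₗ[ℚ] WQ F →ₗ[ℚ] WQ F →ₗ[ℚ] W) (π : WQ F →ₗ[ℚ] WQ F) (v l k : WQ F) : W :=
  (1 / 3 : ℚ) • (B (π k) (π v) (π l) - B (π k) (π l) (π v)) +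
    (1 / 2 : ℚ) • (B (π k) (π v) (l - π l) - B (π k) (π l) (v - π v))

/-- the alternating form as a linear map -/
private def Kz_A (B : WQ F →ₗ[ℚ] WQ F →ₗ[ℚ] WQ F →ₗ[ℚ] W) (π : WQ F →ₗ[ℚ] WQ F) (v : WQ F) :
    WQ F →ₗ[ℚ] WQ F →ₗ[ℚ] W :=
  LinearMap.mk₂ ℚ (fun l k => Kz_val B π v l k)
    (fun l l' k => by
      simp only [Kz_val, map_add, map_sub, LinearMap.add_apply]
      module)
    (fun c l k => by
      simp only [Kz_val, map_smul, map_sub, LinearMap.smul_apply]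
      module)
    (fun l k k' => by
      simp only [Kz_val, map_add, map_sub, LinearMap.add_apply]
      module)
    (fun c l k => by
      simp only [Kz_val, map_smul, map_sub, LinearMap.smul_apply]
      module)

private lemma Kz_A_add (B : WQ F →ₗ[ℚ] WQ F →ₗ[ℚ] WQ F →ₗ[ℚ] W) (π : WQ F →ₗ[ℚ] WQ F) (v v' : WQ F) :
    Kz_A B π (v + v') = Kz_A B π v + Kz_A B π v' := by
  refine LinearMap.ext fun l => LinearMap.ext fun k => ?_
  show Kz_val B π (v + v') l k = Kz_val B π v l k + Kz_val B π v' l k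
  simp only [Kz_val, map_add, map_sub, LinearMap.add_apply]
  module

private lemma Kz_A_self (B : WQ F →ₗ[ℚ] WQ F →ₗ[ℚ] WQ F →ₗ[ℚ] W) (π : WQ F →ₗ[ℚ] WQ F) (v : WQ F) :
    Kz_A B π v v = 0 := by
  refine LinearMap.ext fun k => ?_
  show Kz_val B π v v k = 0
  simp only [Kz_val, sub_self, smul_zero, add_zero]

theorem exists_kz (H : AddSubgroup (Additive Fˣ))
    (b : Additive Fˣ →+ Additive Fˣ →+ (Tx 1 F →ₗ[ℚ] W)) (hb : ∀ v w, b v w = b w v)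
    (hc : ∀ g₁ ∈ H, ∀ g₂ ∈ H, ∀ g₃ ∈ H,
      b g₁ g₂ (w1 g₃) + b g₂ g₃ (w1 g₁) + b g₃ g₁ (w1 g₂) = 0) :
    ∃ χ : Additive Fˣ →+ (Tx 2 F →ₗ[ℚ] W), ∀ g ∈ H, ∀ g' ∈ H, ∀ μ : Tx 1 F,
      χ g (wT 1 g' μ) + χ g' (wT 1 g μ) = b g g' μ := by
  obtain ⟨ψ, hψ, hφ⟩ := Kz_psi (F := F)
  obtain ⟨r, hr⟩ := LinearMap.exists_leftInverse_of_injective (Kz_sp H).subtype (Kz_sp H).ker_subtype
  set π : WQ F →ₗ[ℚ] WQ F := (Kz_sp H).subtype ∘ₗ r with hπ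
  have hπm : ∀ x, π x ∈ Kz_sp H := fun x => (r x).2
  have hπs : ∀ x ∈ Kz_sp H, π x = x := by
    intro x hx
    have h1 := LinearMap.congr_fun hr ⟨x, hx⟩
    have h2 : r x = ⟨x, hx⟩ := h1
    show ((r x : Kz_sp H) : WQ F) = x
    rw [h2]
  obtain ⟨Om, hOm⟩ := koszul (F := F) (W := WQ F →ₗ[ℚ] W) 0 ⊤ ⊤ le_rfl
    (AddMonoidHom.mk' (fun v => (Kz_A (Kz_B b) π (toQ v)) ∘ₗ ψ) (fun x y => by
      rw [Kz_add, Kz_A_add, LinearMap.add_comp])) (fun k _ μ _ => by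
      show Kz_A (Kz_B b) π (toQ k) (ψ (wT 0 k μ)) = 0
      rw [hψ, map_smul, Kz_A_self, smul_zero])
  have hOm' : ∀ (k : Additive Fˣ) (μ : Tx 1 F), Om (wT 1 k μ) = Kz_A (Kz_B b) π (toQ k) (ψ μ) :=
    fun k μ => hOm k (AddSubgroup.mem_top _) μ (TS_top 1 μ)
  refine ⟨AddMonoidHom.mk' (fun k => (LinearMap.applyₗ (toQ k)) ∘ₗ Om) (fun x y => by
    refine LinearMap.ext fun ω => ?_
    show Om ω (toQ (x + y)) = Om ω (toQ x) + Om ω (toQ y)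
    rw [Kz_add, map_add]), ?_⟩
  intro g hg g' hg' μ
  show Om (wT 1 g' μ) (toQ g) + Om (wT 1 g μ) (toQ g') = b g g' μ
  rw [hOm', hOm']
  show Kz_val (Kz_B b) π (toQ g') (ψ μ) (toQ g) + Kz_val (Kz_B b) π (toQ g) (ψ μ) (toQ g') = b g g' μ
  have e1 : π (toQ g) = toQ g := hπs _ (Kz_mem hg)
  have e2 : π (toQ g') = toQ g' := hπs _ (Kz_mem hg')
  have e3 := Kz_cyc H b hc (Kz_mem hg) (Kz_mem hg') (hπm (ψ μ))
  rw [Kz_symm b hb (π (ψ μ)) (toQ g)] at e3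
  have e4 : Kz_B b (toQ g) (toQ g') (ψ μ) = b g g' μ := by
    rw [Kz_B_toQ, hφ]
  have e5 : Kz_B b (toQ g') (toQ g) = Kz_B b (toQ g) (toQ g') := Kz_symm b hb _ _
  have e6 : Kz_B b (toQ g') (π (ψ μ)) (toQ g) =
      -Kz_B b (toQ g) (toQ g') (π (ψ μ)) - Kz_B b (toQ g) (π (ψ μ)) (toQ g') := by
    rw [← sub_eq_zero, ← e3]
    abel
  rw [← e4]
  simp only [Kz_val, e1, e2, e5, sub_self, map_zero, sub_zero, map_sub, e6]
  module

end

end GD3
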