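import Pool.Agent.GD3.Bn
import Pool.Agent.GD3.Nx

set_option autoImplicit false

/-!
# GD3-Lam: the forms b, ν of a functional on chains with slots

`h z μ := ψ (mu 1 (ρ μ) z)` for a linear projection `ρ` of `Tx 1 E` onto `TS 1 (SG S)`; `h` vanishes on the null chains and on the chains of level `S`, so
`exists_bn_sym` and `bn_change` apply to it, with values in `Tx 1 E →ₗ[ℚ] W`.
-/

noncomputable section

open Polynomial TensorProduct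
open scoped Classical

namespace GD3

open Helper14.Gon Helper14.W4 QPL TGF

universe u

section
variable {K k : Type u} [Field K] [Field k] {p : SRG.Pl K k} {V : AC (RatFunc K) k}
  {S : Set K[X]}

variable {W : Type u} [AddCommGroup W] [Module ℚ W]

private lemma Lam_rho (S : Set K[X]) :
    ∃ ρ : Tx 1 (RatFunc K) →ₗ[ℚ] Tx 1 (RatFunc K),
      (∀ μ, ρ μ ∈ TS 1 (SG S)) ∧ (∀ μ ∈ TS 1 (SG S), ρ μ = μ) := by
  obtain ⟨g, hg⟩ := LinearMap.exists_leftInverse_of_injective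
    (TS 1 (SG S)).subtype (Submodule.ker_subtype _)
  refine ⟨(TS 1 (SG S)).subtype ∘ₗ g, fun μ => (g μ).2, fun μ hμ => ?_⟩
  have h := LinearMap.congr_fun hg ⟨μ, hμ⟩
  have h1 : g μ = ⟨μ, hμ⟩ := h
  rw [LinearMap.comp_apply, h1]
  rfl

private lemma Lam_bx {F : Type u} [Field F] (j : ℕ) (μ : Tx j F) (x : F) (ω : Tx 0 F) :
    mu j μ (bx x ω) = e0 F ω • bx x μ := by
  rw [mu, xl_bx, LinearMap.comp_apply, LinearMap.toSpanSingleton_apply]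

private lemma Lam_add {F : Type u} [Field F] (j : ℕ) (μ μ' : Tx j F) (z : X 0 F) :
    mu j (μ + μ') z = mu j μ z + mu j μ' z := by
  have h : mu j (μ + μ') = mu j μ + mu j μ' := by
    refine x_ext fun x ω => ?_
    rw [LinearMap.add_apply, Lam_bx, Lam_bx, Lam_bx, bx_add, smul_add]
  rw [h, LinearMap.add_apply]

private lemma Lam_smul {F : Type u} [Field F] (j : ℕ) (q : ℚ) (μ : Tx j F) (z : X 0 F) :
    mu j (q • μ) z = q • mu j μ z := by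
  have h : mu j (q • μ) = q • mu j μ := by
    refine x_ext fun x ω => ?_
    rw [LinearMap.smul_apply, Lam_bx, Lam_bx, bx_smul, smul_comm]
  rw [h, LinearMap.smul_apply]

private lemma Lam_lv {S : Set K[X]} {ν : Tx 1 (RatFunc K)} (hν : ν ∈ TS 1 (SG S))
    {z : X 0 (RatFunc K)} (hz : z ∈ Lv 0 S) : mu 1 ν z ∈ Lv 1 S := by
  refine Submodule.span_induction (p := fun z _ => mu 1 ν z ∈ Lv 1 S) ?_ ?_ ?_ ?_ hz
  · rintro z ⟨x, ω, hx, -, rfl⟩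
    rw [Lam_bx]
    exact Submodule.smul_mem _ _ (Submodule.subset_span ⟨x, ν, hx, hν, rfl⟩)
  · rw [map_zero]
    exact Submodule.zero_mem _
  · intro a b _ _ ha hb
    rw [map_add]
    exact Submodule.add_mem _ ha hb
  · intro q a _ ha
    rw [map_smul]
    exact Submodule.smul_mem _ _ ha

/-- the functional with values in the functionals on the slots -/
private def Lam_h (ρ : Tx 1 (RatFunc K) →ₗ[ℚ] Tx 1 (RatFunc K))
    (ψ : X 1 (RatFunc K) →ₗ[ℚ] W) :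
    X 0 (RatFunc K) →ₗ[ℚ] (Tx 1 (RatFunc K) →ₗ[ℚ] W) :=
  LinearMap.mk₂ ℚ (fun z μ => ψ (mu 1 (ρ μ) z))
    (fun z z' μ => by rw [map_add, map_add]) (fun q z μ => by rw [map_smul, map_smul])
    (fun z μ μ' => by rw [map_add, Lam_add, map_add])
    (fun q z μ => by rw [map_smul, Lam_smul, map_smul])

private lemma Lam_h_apply (ρ : Tx 1 (RatFunc K) →ₗ[ℚ] Tx 1 (RatFunc K))
    (ψ : X 1 (RatFunc K) →ₗ[ℚ] W) (z : X 0 (RatFunc K)) (μ : Tx 1 (RatFunc K)) :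
    Lam_h ρ ψ z μ = ψ (mu 1 (ρ μ) z) := rfl

private lemma Lam_h_bx (ρ : Tx 1 (RatFunc K) →ₗ[ℚ] Tx 1 (RatFunc K))
    (ψ : X 1 (RatFunc K) →ₗ[ℚ] W) (x : RatFunc K) (μ : Tx 1 (RatFunc K)) :
    Lam_h ρ ψ (bx x (u0 (RatFunc K))) μ = ψ (bx x (ρ μ)) := by
  rw [Lam_h_apply, mu_bx]

/-- precomposition with `ρ` -/
private def Lam_R (W : Type u) [AddCommGroup W] [Module ℚ W]
    (ρ : Tx 1 (RatFunc K) →ₗ[ℚ] Tx 1 (RatFunc K)) :
    (Tx 1 (RatFunc K) →ₗ[ℚ] W) →+ (Tx 1 (RatFunc K) →ₗ[ℚ] W) where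
  toFun f := f ∘ₗ ρ
  map_zero' := LinearMap.zero_comp _
  map_add' _ _ := LinearMap.add_comp _ _ _

private lemma Lam_R_apply (ρ : Tx 1 (RatFunc K) →ₗ[ℚ] Tx 1 (RatFunc K))
    (f : Tx 1 (RatFunc K) →ₗ[ℚ] W) (μ : Tx 1 (RatFunc K)) : Lam_R W ρ f μ = f (ρ μ) := rfl

private def Lam_b (ρ : Tx 1 (RatFunc K) →ₗ[ℚ] Tx 1 (RatFunc K))
    (b : Additive (RatFunc K)ˣ →+ Additive (RatFunc K)ˣ →+ (Tx 1 (RatFunc K) →ₗ[ℚ] W)) :
    Additive (RatFunc K)ˣ →+ Additive (RatFunc K)ˣ →+ (Tx 1 (RatFunc K) →ₗ[ℚ] W) where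
  toFun v := (Lam_R W ρ).comp (b v)
  map_zero' := by
    refine AddMonoidHom.ext fun w => ?_
    rw [AddMonoidHom.comp_apply, map_zero, AddMonoidHom.zero_apply, map_zero]
  map_add' v v' := by
    refine AddMonoidHom.ext fun w => ?_
    rw [AddMonoidHom.comp_apply, map_add, AddMonoidHom.add_apply, map_add,
      AddMonoidHom.add_apply, AddMonoidHom.comp_apply, AddMonoidHom.comp_apply]

private lemma Lam_b_apply (ρ : Tx 1 (RatFunc K) →ₗ[ℚ] Tx 1 (RatFunc K))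
    (b : Additive (RatFunc K)ˣ →+ Additive (RatFunc K)ˣ →+ (Tx 1 (RatFunc K) →ₗ[ℚ] W))
    (v w : Additive (RatFunc K)ˣ) (μ : Tx 1 (RatFunc K)) :
    Lam_b ρ b v w μ = b v w (ρ μ) := rfl

private def Lam_ν (ρ : Tx 1 (RatFunc K) →ₗ[ℚ] Tx 1 (RatFunc K))
    (ν : SRG.FV (RatFunc K) (Tx 1 (RatFunc K) →ₗ[ℚ] W)) :
    SRG.FV (RatFunc K) (Tx 1 (RatFunc K) →ₗ[ℚ] W) where
  g x := Lam_R W ρ (ν.g x)
  zero := by rw [ν.zero, map_zero]
  one := by rw [ν.one, map_zero]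
  inv x := by rw [ν.inv, map_neg]
  sub x := by rw [ν.sub, map_neg]
  five x y hx hx1 hy hy1 hxy := by
    have h := congrArg (Lam_R W ρ) (ν.five x y hx hx1 hy hy1 hxy)
    rw [map_add, map_sub, map_add, map_sub, map_zero] at h
    exact h

theorem exists_bnl (hS : SRG.Adm S p.d) (hP : p.P ∉ S) (hV : IsPt p V) (hQ : QD S)
    {ψ : X 1 (RatFunc K) →ₗ[ℚ] W} {ϕ : RatFunc K → RatFunc K → W} (h : FS ψ ϕ) (hk : KL S ψ ϕ) :
    ∃ (b : Additive (RatFunc K)ˣ →+ Additive (RatFunc K)ˣ →+ (Tx 1 (RatFunc K) →ₗ[ℚ] W))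
      (ν : SRG.FV (RatFunc K) (Tx 1 (RatFunc K) →ₗ[ℚ] W)),
      (∀ v w, b v w = b w v) ∧ BNL p V S ψ b ν := by
  obtain ⟨ρ, h1, h2⟩ := Lam_rho S
  obtain ⟨b, ν, hb, H⟩ := exists_bn_sym hS hP hV hQ (Lam_h ρ ψ)
    (fun z hz => LinearMap.ext fun μ => by
      rw [Lam_h_apply, LinearMap.zero_apply]
      exact h.n1 _ (nx_mu 1 (ρ μ) z hz))
    (fun z hz => LinearMap.ext fun μ => by
      rw [Lam_h_apply, LinearMap.zero_apply]
      exact hk.lv _ (Lam_lv (h1 μ) hz))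
  refine ⟨b, ν, hb, ⟨?_, ?_⟩⟩
  · intro x hx h0 μ hμ
    have h3 := LinearMap.congr_fun (H.un x hx h0) μ
    rw [Lam_h_bx, h2 μ hμ, LinearMap.smul_apply] at h3
    exact h3
  · intro x hx h0 μ hμ
    have h3 := LinearMap.congr_fun (H.ze x hx h0) μ
    rw [Lam_h_bx, h2 μ hμ, LinearMap.smul_apply, LinearMap.sub_apply] at h3
    exact h3

theorem bnl_change (hS : SRG.Adm S p.d) (hP : p.P ∉ S) (hV : IsPt p V)
    {ψ : X 1 (RatFunc K) →ₗ[ℚ] W}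
    {b : Additive (RatFunc K)ˣ →+ Additive (RatFunc K)ˣ →+ (Tx 1 (RatFunc K) →ₗ[ℚ] W)}
    {ν : SRG.FV (RatFunc K) (Tx 1 (RatFunc K) →ₗ[ℚ] W)} (H : BNL p V S ψ b ν)
    (b' : Additive (RatFunc K)ˣ →+ Additive (RatFunc K)ˣ →+ (Tx 1 (RatFunc K) →ₗ[ℚ] W))
    (hb : ∀ g ∈ SRG.KG p S, ∀ μ ∈ TS 1 (SG S), b' g g μ = b g g μ) :
    ∃ ν' : SRG.FV (RatFunc K) (Tx 1 (RatFunc K) →ₗ[ℚ] W), BNL p V S ψ b' ν' := by
  obtain ⟨ρ, h1, h2⟩ := Lam_rho S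
  have H1 : BN p V S (Lam_h ρ ψ) (Lam_b ρ b) (Lam_ν ρ ν) := by
    refine ⟨?_, ?_⟩
    · intro x hx h0
      refine LinearMap.ext fun μ => ?_
      rw [Lam_h_bx, LinearMap.smul_apply, Lam_b_apply]
      exact H.un x hx h0 (ρ μ) (h1 μ)
    · intro x hx h0
      refine LinearMap.ext fun μ => ?_
      rw [Lam_h_bx, LinearMap.smul_apply, LinearMap.sub_apply, Lam_b_apply]
      exact H.ze x hx h0 (ρ μ) (h1 μ)
  obtain ⟨ν', H2⟩ := bn_change hS hP hV H1 (Lam_b ρ b') (fun g hg => by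
    refine LinearMap.ext fun μ => ?_
    rw [Lam_b_apply, Lam_b_apply]
    exact hb g hg (ρ μ) (h1 μ))
  refine ⟨ν', ⟨?_, ?_⟩⟩
  · intro x hx h0 μ hμ
    have h3 := LinearMap.congr_fun (H2.un x hx h0) μ
    rw [Lam_h_bx, LinearMap.smul_apply, Lam_b_apply, h2 μ hμ] at h3
    exact h3
  · intro x hx h0 μ hμ
    have h3 := LinearMap.congr_fun (H2.ze x hx h0) μ
    rw [Lam_h_bx, LinearMap.smul_apply, LinearMap.sub_apply, Lam_b_apply, h2 μ hμ] at h3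
    exact h3

end

end GD3
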