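import Pool.Agent.GD3.Defs

set_option autoImplicit false

/-!
# GD3-Low: generation of the 1-units by those of degree at most d

`R ξ` is a polynomial of degree less than `d` with residue class `ξ`.  Modulo the subgroup generated by the fractions of height at most `d`,
`pl A` is the class of `R (p.r A)` for every smooth `A` of degree at most `d` (`lowOne`), and `R (ζ * p.r U)` is the class of `R ζ` plus that of `U`
(`lowC`, induction on the degree of `U`, Pade approximation of `ζ`).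
-/

noncomputable section

open Polynomial TensorProduct
open scoped Classical

namespace GD3

open Helper14.Gon Helper14.W4 QPL TGF

universe u

section
variable {K k : Type u} [Field K] [Field k] {p : SRG.Pl K k} {V : AC (RatFunc K) k}
  {S : Set K[X]}

/-- Pade approximation with general degrees -/
private theorem lowPade {K k : Type u} [Field K] [Field k] (p : SRG.Pl K k) (e1 e2 : ℕ) (he : e1 + e2 + 1 = p.d)
    (x : k) (hx : x ≠ 0) : ∃ A B : K[X], A ≠ 0 ∧ B ≠ 0 ∧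
    A.natDegree ≤ e1 ∧ B.natDegree ≤ e2 ∧ p.r A = x * p.r B := by
  obtain ⟨X, hX⟩ := p.surj x
  have hmem : ∀ y : (degreeLT K (e1 + 1)) × (degreeLT K (e2 + 1)),
      ((modByMonicHom p.P) ∘ₗ ((degreeLT K (e1 + 1)).subtype.coprod
        (-((LinearMap.mulLeft K X) ∘ₗ (degreeLT K (e2 + 1)).subtype)))) y
        ∈ degreeLT K p.d := by
    intro y
    rw [mem_degreeLT]
    have h1 : degree (((modByMonicHom p.P) ∘ₗ ((degreeLT K (e1 + 1)).subtype.coprod
        (-((LinearMap.mulLeft K X) ∘ₗ (degreeLT K (e2 + 1)).subtype)))) y)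
        < degree p.P := degree_modByMonic_lt _ p.monic
    rw [degree_eq_natDegree p.irr.ne_zero] at h1
    exact h1
  have hfr : Module.finrank K (degreeLT K p.d) <
      Module.finrank K ((degreeLT K (e1 + 1)) × (degreeLT K (e2 + 1))) := by
    rw [Module.finrank_prod, (degreeLTEquiv K p.d).finrank_eq,
      (degreeLTEquiv K (e1 + 1)).finrank_eq, (degreeLTEquiv K (e2 + 1)).finrank_eq]
    simp only [Module.finrank_fin_fun]
    omega
  have hker := LinearMap.ker_ne_bot_of_finrank_lt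
    (f := LinearMap.codRestrict (degreeLT K p.d) _ hmem) hfr
  obtain ⟨y, hy, hy0⟩ := (Submodule.ne_bot_iff _).1 hker
  obtain ⟨⟨A, hA⟩, ⟨B, hB⟩⟩ := y
  rw [LinearMap.mem_ker] at hy
  have hy1 : (A + -(X * B)) %ₘ p.P = 0 := by
    have h2 := congrArg Subtype.val hy
    exact h2
  have hr : p.r A = x * p.r B := by
    have h3 : p.P ∣ A + -(X * B) := (modByMonic_eq_zero_iff_dvd p.monic).1 hy1
    have h4 := (p.ker _).2 h3
    rw [map_add, map_neg, map_mul, hX] at h4
    linear_combination h4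
  rw [mem_degreeLT] at hA hB
  have hA1 : A.natDegree ≤ e1 := by
    rw [natDegree_le_iff_degree_le]
    exact Order.le_of_lt_succ (by exact_mod_cast hA)
  have hB1 : B.natDegree ≤ e2 := by
    rw [natDegree_le_iff_degree_le]
    exact Order.le_of_lt_succ (by exact_mod_cast hB)
  have hAB : A = 0 ↔ B = 0 := by
    constructor
    · intro h
      by_contra h5
      have h6 := SRG.Pl.ne (p := p) h5 (by omega)
      rw [h, map_zero] at hr
      exact mul_ne_zero hx h6 hr.symm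
    · intro h
      by_contra h5
      have h6 := SRG.Pl.ne (p := p) h5 (by omega)
      rw [h, map_zero, mul_zero] at hr
      exact h6 hr
  have hA0 : A ≠ 0 := by
    intro h
    apply hy0
    have h7 := hAB.1 h
    subst h
    subst h7
    rfl
  exact ⟨A, B, hA0, fun h => hA0 (hAB.2 h), hA1, hB1, hr⟩

/-- small representatives of the residue classes -/
private theorem lowRep {K k : Type u} [Field K] [Field k] (p : SRG.Pl K k) :
    ∃ R : k → K[X], ∀ x : k, x ≠ 0 → R x ≠ 0 ∧ (R x).natDegree < p.d ∧ p.r (R x) = x := by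
  have hd := p.d_pos
  have h : ∀ x : k, ∃ A : K[X], x ≠ 0 → A ≠ 0 ∧ A.natDegree < p.d ∧ p.r A = x := by
    intro x
    obtain ⟨X, hX⟩ := p.surj x
    refine ⟨X %ₘ p.P, fun hx => ?_⟩
    have hr : p.r (X %ₘ p.P) = x := by
      have h1 := modByMonic_add_div X p.P
      have h2 := congrArg p.r h1
      rw [map_add, map_mul, (p.ker p.P).2 dvd_rfl, zero_mul, add_zero, hX] at h2
      exact h2
    refine ⟨?_, ?_, hr⟩
    · intro h0
      rw [h0, map_zero] at hr
      exact hx hr.symm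
    · refine natDegree_modByMonic_lt X p.monic ?_
      intro h1
      have h2 : p.d = p.P.natDegree := rfl
      rw [h1, natDegree_one] at h2
      omega
  choose R hR using h
  exact ⟨R, hR⟩

/-- smooth polynomials of degree at most `d` are congruent to their residue -/
private theorem lowOne (hS : SRG.Adm S p.d) {Γ : AddSubgroup (Additive (RatFunc K)ˣ)}
    (hΓ : ∀ A B : K[X], A ≠ 0 → B ≠ 0 → SRG.Sm S A → SRG.Sm S B → p.P ∣ A - B → A.natDegree ≤ p.d →
      B.natDegree ≤ p.d → SRG.pl A - SRG.pl B ∈ Γ)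
    {R : k → K[X]} (hR : ∀ x : k, x ≠ 0 → R x ≠ 0 ∧ (R x).natDegree < p.d ∧ p.r (R x) = x)
    {A : K[X]} (h0 : A ≠ 0) (hA : SRG.Sm S A) (hr : p.r A ≠ 0) (hd : A.natDegree ≤ p.d) :
    SRG.pl A - SRG.pl (R (p.r A)) ∈ Γ := by
  obtain ⟨h1, h2, h3⟩ := hR _ hr
  refine hΓ A _ h0 h1 hA (hS.sm h2) ?_ hd h2.le
  rw [← p.ker, map_sub, h3, sub_self]

/-- additivity in a polynomial of small degree -/
private theorem lowC (hS : SRG.Adm S p.d) {Γ : AddSubgroup (Additive (RatFunc K)ˣ)}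
    (hΓ : ∀ A B : K[X], A ≠ 0 → B ≠ 0 → SRG.Sm S A → SRG.Sm S B → p.P ∣ A - B → A.natDegree ≤ p.d →
      B.natDegree ≤ p.d → SRG.pl A - SRG.pl B ∈ Γ)
    {R : k → K[X]} (hR : ∀ x : k, x ≠ 0 → R x ≠ 0 ∧ (R x).natDegree < p.d ∧ p.r (R x) = x) (q : ℕ) :
    q + 1 ≤ p.d → ∀ (U : K[X]) (x : k), U ≠ 0 → U.natDegree ≤ q → x ≠ 0 →
      SRG.pl (R (x * p.r U)) - SRG.pl (R x) - SRG.pl U ∈ Γ := by
  have hd := p.d_pos
  induction q with
  | zero =>
    intro _ U x hU hU0 hx
    obtain ⟨h1, h2, h3⟩ := hR x hx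
    have hrU : p.r U ≠ 0 := SRG.Pl.ne hU (by omega)
    have hdeg : (R x * U).natDegree ≤ p.d := le_trans natDegree_mul_le (by omega)
    have hrr : p.r (R x * U) = x * p.r U := by rw [map_mul, h3]
    have h4 := lowOne hS hΓ hR (mul_ne_zero h1 hU) ((hS.sm h2).mul (hS.sm (by omega)))
      (by rw [hrr]; exact mul_ne_zero hx hrU) hdeg
    rw [hrr, SRG.pl_mul h1 hU] at h4
    have h5 := Γ.neg_mem h4
    have e : -(SRG.pl (R x) + SRG.pl U - SRG.pl (R (x * p.r U))) =
        SRG.pl (R (x * p.r U)) - SRG.pl (R x) - SRG.pl U := by abel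
    rw [e] at h5
    exact h5
  | succ q ih =>
    intro hq U x hU hU0 hx
    obtain ⟨W, Q, hW, hQ, dW, dQ, hWQ⟩ := lowPade p (p.d - 1 - q) q (by omega) x hx
    have hrU : p.r U ≠ 0 := SRG.Pl.ne hU (by omega)
    have hrQ : p.r Q ≠ 0 := SRG.Pl.ne hQ (by omega)
    have hrW : p.r W ≠ 0 := by
      rw [hWQ]
      exact mul_ne_zero hx hrQ
    have c1 := ih (by omega) Q x hQ dQ hx
    have c2 := ih (by omega) Q (x * p.r U) hQ dQ (mul_ne_zero hx hrU)
    have sW : SRG.Sm S W := hS.sm (by omega)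
    have sU : SRG.Sm S U := hS.sm (by omega)
    have hrr : p.r (W * U) = x * p.r U * p.r Q := by
      rw [map_mul, hWQ]
      ring
    have c3 := lowOne hS hΓ hR (mul_ne_zero hW hU) (sW.mul sU)
      (by rw [map_mul]; exact mul_ne_zero hrW hrU) (le_trans natDegree_mul_le (by omega))
    have c4 := lowOne hS hΓ hR hW sW hrW (by omega)
    rw [hrr, SRG.pl_mul hW hU] at c3
    rw [hWQ] at c4
    have h5 := Γ.add_mem (Γ.sub_mem c1 c2) (Γ.sub_mem c4 c3)
    have e : SRG.pl (R (x * p.r Q)) - SRG.pl (R x) - SRG.pl Q -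
        (SRG.pl (R (x * p.r U * p.r Q)) - SRG.pl (R (x * p.r U)) - SRG.pl Q) +
        (SRG.pl W - SRG.pl (R (x * p.r Q)) -
          (SRG.pl W + SRG.pl U - SRG.pl (R (x * p.r U * p.r Q)))) =
        SRG.pl (R (x * p.r U)) - SRG.pl (R x) - SRG.pl U := by abel
    rw [e] at h5
    exact h5

theorem KG_low (hS : SRG.Adm S p.d) (hP : p.P ∉ S) : SRG.KG p S =
    AddSubgroup.closure {x | ∃ A B : K[X], A ≠ 0 ∧ B ≠ 0 ∧ SRG.Sm S A ∧ SRG.Sm S B ∧
      p.P ∣ A - B ∧ A.natDegree ≤ p.d ∧ B.natDegree ≤ p.d ∧ x = SRG.pl A - SRG.pl B} := by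
  have hd := p.d_pos
  apply le_antisymm
  · obtain ⟨Γ, hΓe⟩ : ∃ Γ : AddSubgroup (Additive (RatFunc K)ˣ), Γ =
      AddSubgroup.closure {x | ∃ A B : K[X], A ≠ 0 ∧ B ≠ 0 ∧ SRG.Sm S A ∧ SRG.Sm S B ∧
      p.P ∣ A - B ∧ A.natDegree ≤ p.d ∧ B.natDegree ≤ p.d ∧ x = SRG.pl A - SRG.pl B} := ⟨_, rfl⟩
    rw [← hΓe]
    have hΓ : ∀ A B : K[X], A ≠ 0 → B ≠ 0 → SRG.Sm S A → SRG.Sm S B → p.P ∣ A - B → A.natDegree ≤ p.d →
        B.natDegree ≤ p.d → SRG.pl A - SRG.pl B ∈ Γ := by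
      intro A B hA hB sA sB hAB dA dB
      rw [hΓe]
      exact AddSubgroup.subset_closure ⟨A, B, hA, hB, sA, sB, hAB, dA, dB, rfl⟩
    obtain ⟨R, hR⟩ := lowRep p
    have hr : ∀ Y : K[X], Y ≠ 0 → SRG.Sm S Y → p.r Y ≠ 0 := fun Y h0 hY h =>
      hY.not_dvd h0 p.monic p.irr hP ((p.ker Y).1 h)
    have key : ∀ Y : K[X], Y ≠ 0 → SRG.Sm S Y → SRG.pl Y - SRG.pl (R (p.r Y)) ∈ Γ := by
      intro Y hY0 hY
      refine SRG.sm_ind (S := S) (M := fun Y => SRG.pl Y - SRG.pl (R (p.r Y)) ∈ Γ) ?_ ?_ ?_ Y hY0 hY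
      · intro c hc
        exact lowOne hS hΓ hR (C_ne_zero.2 hc) (SRG.sm_C S c) (hr _ (C_ne_zero.2 hc) (SRG.sm_C S c))
          (by rw [natDegree_C]; omega)
      · intro Q hQ hm hi
        have sQ : SRG.Sm S Q := by
          refine Or.inr fun T hT hiT hdT => ?_
          have h1 : Associated T Q := (hiT.dvd_irreducible_iff_associated hi).1 hdT
          rw [Polynomial.eq_of_monic_of_associated hT hm h1]
          exact hQ
        exact lowOne hS hΓ hR hm.ne_zero sQ (hr _ hm.ne_zero sQ) (hS.le Q hQ)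
      · intro Y Z hY0 hZ0 sY sZ hMY hMZ
        have hMY' : SRG.pl Y - SRG.pl (R (p.r Y)) ∈ Γ := hMY
        have hMZ' : SRG.pl Z - SRG.pl (R (p.r Z)) ∈ Γ := hMZ
        have hy := hr Y hY0 sY
        have hz := hr Z hZ0 sZ
        obtain ⟨h1, h2, h3⟩ := hR _ hz
        have h4 := lowC hS hΓ hR (p.d - 1) (by omega) (R (p.r Z)) (p.r Y) h1 (by omega) hy
        rw [h3] at h4
        show SRG.pl (Y * Z) - SRG.pl (R (p.r (Y * Z))) ∈ Γ
        rw [map_mul, SRG.pl_mul hY0 hZ0]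
        have h5 := Γ.sub_mem (Γ.add_mem hMY' hMZ') h4
        have e : SRG.pl Y - SRG.pl (R (p.r Y)) + (SRG.pl Z - SRG.pl (R (p.r Z))) -
            (SRG.pl (R (p.r Y * p.r Z)) - SRG.pl (R (p.r Y)) - SRG.pl (R (p.r Z))) =
            SRG.pl Y + SRG.pl Z - SRG.pl (R (p.r Y * p.r Z)) := by abel
        rw [e] at h5
        exact h5
    rw [SRG.KG, AddSubgroup.closure_le]
    rintro x ⟨A, B, hA, hB, hsA, hsB, hAB, rfl⟩
    have h1 := key A hA hsA
    have h2 := key B hB hsB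
    have hrr : p.r A = p.r B := by
      have h3 := (p.ker _).2 hAB
      rw [map_sub, sub_eq_zero] at h3
      exact h3
    rw [← hrr] at h2
    have h3 := Γ.sub_mem h1 h2
    rw [sub_sub_sub_cancel_right] at h3
    exact h3
  · rw [AddSubgroup.closure_le]
    rintro x ⟨A, B, hA, hB, hsA, hsB, hAB, -, -, rfl⟩
    exact SRG.KG_mk hA hB hsA hsB hAB

end

end GD3
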