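import Pool.Agent.GD3.Defs

set_option autoImplicit false

/-!
# GD3-Lr0: specialisation of the total residue (definitions)

`L`, `N` are fields, `V : AC L N`, `i : N →+* L` a section of the reduction, `P0 : N[X]` monic
without roots in `N`, `P = P0.map i`.  The level is `PS A P`: the primes `X - C a`, `a ∈ A`, and
`P`.  `DP V c q W`: `W` is the monomial extension of `V` to `L(T)` for which `T - c` has value `q`
and leading coefficient the variable (closed disc with centre `c` and radius `q`).
`Gd V c q`: the open disc with centre `c` and radius `q` contains no root of `P`;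
`Sg V c q`: the closed disc contains no root of `P`.
-/

noncomputable section

open Polynomial TensorProduct
open scoped Classical

namespace GD3

open Helper14.Gon Helper14.W4 QPL TGF

universe u v w

section
variable {L : Type u} [Field L]

/-- `T - a` as an element of `L(T)` -/
def pt (a : L) : RatFunc L := algebraMap L[X] (RatFunc L) (Polynomial.X - C a)

/-- the primes `X - C a`, `a ∈ A`, and `P` -/
def PS (A : Finset L) (P : L[X]) : Set L[X] := {Q | Q = P ∨ ∃ a ∈ A, Q = Polynomial.X - C a}

lemma pt_ne (a : L) : pt a ≠ 0 := RatFunc.algebraMap_ne_zero (X_sub_C_ne_zero a)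

end

section
variable {L N : Type u} [Field L] [Field N]

/-- the base: `i` is a section of the reduction, `P0` is monic without roots -/
structure LB (V : AC L N) (i : N →+* L) (P0 : N[X]) : Prop where
  hv : ∀ c : N, c ≠ 0 → V.v (i c) = 0
  hl : ∀ c : N, V.lc (i c) = c
  mon : P0.Monic
  nr : ∀ c : N, P0.eval c ≠ 0

/-- the place of the closed disc with centre `c` and radius `q` -/
structure DP (V : AC L N) (c : L) (q : ℚ) (W : AC (RatFunc L) (RatFunc N)) : Prop where
  cv : ∀ z : L, z ≠ 0 → W.v (algebraMap L[X] (RatFunc L) (C z)) = V.v z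
  cl : ∀ z : L, W.lc (algebraMap L[X] (RatFunc L) (C z)) =
    algebraMap N[X] (RatFunc N) (C (V.lc z))
  nv : ∀ a : L, V.ge q (a - c) → W.v (pt a) = q
  nl : ∀ a : L, V.ge q (a - c) → W.lc (pt a) = pt (V.ini q (a - c))
  fv : ∀ a : L, ¬ V.ge q (a - c) → W.v (pt a) = V.v (a - c)
  fl : ∀ a : L, ¬ V.ge q (a - c) → W.lc (pt a) = algebraMap N[X] (RatFunc N) (C (V.lc (c - a)))

/-- the open disc with centre `c` and radius `q` contains no root of `P` -/
def Gd (V : AC L N) (c : L) (q : ℚ) : Prop := 0 ≤ q ∨ (c ≠ 0 ∧ V.v c ≤ q)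

/-- the closed disc with centre `c` and radius `q` contains no root of `P` -/
def Sg (V : AC L N) (c : L) (q : ℚ) : Prop := 0 < q ∨ (c ≠ 0 ∧ V.v c < q)

/-- `z` has value greater than `q` (or is `0`) -/
def gt (V : AC L N) (q : ℚ) (z : L) : Prop := z = 0 ∨ q < V.v z

end

/-- reciprocity for formal cocycles of linear level -/
def RecH {N : Type u} [Field N] (VN : N → AC (RatFunc N) N) (VN' : AC (RatFunc N) N) : Prop :=
  ∀ c : C1 (RatFunc N), c ∈ CZ (RatFunc N) → c ∈ CL (SRG.lt N 2) →
    ∃ s : Finset N, (∀ a, a ∉ s → reX (VN a) 0 c.1 = 0) ∧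
      ∑ a ∈ s, reX (VN a) 0 c.1 + reX VN' 0 c.1 ∈ NX 0 N

end GD3
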