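import Pool.Agent.GD3.Lr0
import Pool.Agent.QPL.ReT

set_option autoImplicit false

/-!
# GD3-Lr1: composites of places

PLAN.  w1 g = wT 0 g u0.  a_bx: spX_bx (condition x = 0 ∨ W.v x = 0), spT W 1 (w1 g) = w1 (W.lH g) (spT_wT in QPL/ReT.lean, spT of u0 is u0), reX_bx, reT U 0 (w1 h) = U.vH h • u0 (reT_wT_zero); W.lc x = 0 ↔ x = 0 (AC.lc_ne, map_zero).  If a condition fails both sides are 0 (bx_zero, bx_smul).  b_bx in the same way.
cmp_aa: Lv 1 S is the span of the bx x ω, El S x (so lg x ∈ SG S), ω ∈ TS 1 (SG S) = span of the dm v; dm v = w1 (v 0) (TS_succ_ind in TGF/Ts.lean gives ω = wT 0 g μ with g ∈ SG S, μ : Tx 0, and μ = e0 μ • u0 (e0_inj, Helper14/W4/Lk3.lean)).  Submodule.span_induction; on bx x (w1 g): a_bx on both sides.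
x = 0: both sides are multiples of bx 0 u0 with coefficients U'.vH (W'.lH g) = e U.vH (W.lH g) (h2).  x ≠ 0: W.v x = W.vH (lg x) (vH_lg), U.v (W.lc x) = U.vH (W.lH (lg x)) (lH_lg): by h1, h2 for lg x and e ≠ 0 the two conditions are equivalent; the leading coefficients agree by h3 for lg x (lg is injective on nonzero elements: dif_neg, Additive.toMul).
cmp_ab in the same way with b_bx.
-/

noncomputable section

open Polynomial TensorProduct
open scoped Classical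

namespace GD3

open Helper14.Gon Helper14.W4 QPL TGF

universe u

section
variable {F K1 K2 k : Type u} [Field F] [Field K1] [Field K2] [Field k]

private lemma lr1_sp0 (W : AC F K1) : spT W 0 (u0 F) = u0 K1 := by
  change tm 0 W.lH (dm _) = dm _
  rw [tm_dm]
  congr 1
  funext i
  exact i.elim0

private lemma lr1_inj {x y : F} (hx : x ≠ 0) (hy : y ≠ 0) (h : lg x = lg y) : x = y := by
  rw [lg, lg, dif_neg hx, dif_neg hy] at h
  have h1 := Additive.ofMul.injective h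
  have h2 := congrArg Units.val h1
  exact h2

theorem a_bx (W : AC F K1) (U : AC K1 k) (x : F) (g : Additive Fˣ) :
    reX U 0 (spX W 1 (bx x (w1 g))) = if x = 0 ∨ (W.v x = 0 ∧ U.v (W.lc x) = 0) then
      U.vH (W.lH g) • bx (U.lc (W.lc x)) (u0 k) else 0 := by
  rw [spX_bx]
  by_cases h1 : x = 0 ∨ W.v x = 0
  · rw [if_pos h1, w1, QPL.spT_wT, lr1_sp0, reX_bx, QPL.reT_wT_zero, lr1_sp0]
    by_cases hx : x = 0
    · have h0 : W.lc x = 0 := by rw [hx, map_zero]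
      rw [if_pos (Or.inl h0), if_pos (Or.inl hx), bx_smul]
    · have h2 : W.v x = 0 := h1.resolve_left hx
      have h3 := W.lc_ne hx
      by_cases h4 : U.v (W.lc x) = 0
      · rw [if_pos (Or.inr h4), if_pos (Or.inr ⟨h2, h4⟩), bx_smul]
      · rw [if_neg (not_or.2 ⟨h3, h4⟩), if_neg (not_or.2 ⟨hx, fun h => h4 h.2⟩)]
  · rw [if_neg h1, map_zero, if_neg]
    rintro (h | h)
    · exact h1 (Or.inl h)
    · exact h1 (Or.inr h.1)

theorem b_bx (W : AC F K1) (U : AC K1 k) (x : F) (g : Additive Fˣ) :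
    spX U 0 (reX W 0 (bx x (w1 g))) = if x = 0 ∨ (W.v x = 0 ∧ U.v (W.lc x) = 0) then
      W.vH g • bx (U.lc (W.lc x)) (u0 k) else 0 := by
  rw [reX_bx]
  by_cases h1 : x = 0 ∨ W.v x = 0
  · rw [if_pos h1, w1, QPL.reT_wT_zero, lr1_sp0, bx_smul, map_smul, spX_bx, lr1_sp0]
    by_cases hx : x = 0
    · have h0 : W.lc x = 0 := by rw [hx, map_zero]
      rw [if_pos (Or.inl h0), if_pos (Or.inl hx)]
    · have h2 : W.v x = 0 := h1.resolve_left hx
      have h3 := W.lc_ne hx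
      by_cases h4 : U.v (W.lc x) = 0
      · rw [if_pos (Or.inr h4), if_pos (Or.inr ⟨h2, h4⟩)]
      · rw [if_neg (not_or.2 ⟨h3, h4⟩), if_neg (not_or.2 ⟨hx, fun h => h4 h.2⟩), smul_zero]
  · rw [if_neg h1, map_zero, if_neg]
    rintro (h | h)
    · exact h1 (Or.inl h)
    · exact h1 (Or.inr h.1)

end

section
variable {L K1 K2 k : Type u} [Field L] [Field K1] [Field K2] [Field k]
  {W : AC (RatFunc L) K1} {U : AC K1 k} {W' : AC (RatFunc L) K2} {U' : AC K2 k} {S : Set L[X]}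

omit [Field K1] [Field K2] [Field k] in
private lemma lr1_ind {q : X 1 (RatFunc L) → Prop} (h0 : q 0)
    (ha : ∀ a b, q a → q b → q (a + b)) (hs : ∀ (c : ℚ) (a : X 1 (RatFunc L)), q a → q (c • a))
    (h1 : ∀ (x : RatFunc L) (g : Additive (RatFunc L)ˣ), lg x ∈ SG S → g ∈ SG S →
      q (bx x (w1 g))) {y : X 1 (RatFunc L)} (hy : y ∈ Lv 1 S) : q y := by
  rw [Lv] at hy
  induction hy using Submodule.span_induction with
  | mem z hz =>
    obtain ⟨x, ω, hx, hω, rfl⟩ := hz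
    refine TS_succ_ind (q := fun ω => q (bx x ω)) ?_ ?_ ?_ hω
    · show q (bx x 0)
      rw [bx_zero]
      exact h0
    · intro a b _ _ k1 k2
      rw [bx_add]
      exact ha _ _ k1 k2
    · intro v hv μ _
      rw [← e0_inj μ, map_smul, bx_smul]
      exact hs _ _ (h1 x v hx.1 hv)
  | zero => exact h0
  | add a b _ _ k1 k2 => exact ha _ _ k1 k2
  | smul c a _ k1 => exact hs _ _ k1

theorem cmp_aa (r e : ℚ) (he : e ≠ 0)
    (h1 : ∀ g ∈ SG S, W'.vH g = W.vH g + r * U.vH (W.lH g))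
    (h2 : ∀ g ∈ SG S, U'.vH (W'.lH g) = e * U.vH (W.lH g))
    (h3 : ∀ g ∈ SG S, U'.lH (W'.lH g) = U.lH (W.lH g))
    {y : X 1 (RatFunc L)} (hy : y ∈ Lv 1 S) :
    reX U' 0 (spX W' 1 y) = e • reX U 0 (spX W 1 y) := by
  refine lr1_ind (q := fun y => reX U' 0 (spX W' 1 y) = e • reX U 0 (spX W 1 y)) ?_ ?_ ?_ ?_ hy
  · simp only [map_zero, smul_zero]
  · intro a b ha hb
    rw [map_add, map_add, map_add, map_add, smul_add, ha, hb]
  · intro c a ha
    rw [map_smul, map_smul, map_smul, map_smul, ha, smul_comm]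
  · intro x g hx hg
    rw [a_bx, a_bx]
    rcases eq_or_ne x 0 with rfl | hx0
    · rw [if_pos (Or.inl rfl), if_pos (Or.inl rfl), map_zero, map_zero, map_zero, map_zero,
        h2 g hg, mul_smul]
    · have e1 := h1 _ hx
      have e2 := h2 _ hx
      have e3 := h3 _ hx
      rw [QPL.vH_lg _ hx0, QPL.vH_lg _ hx0, QPL.lH_lg _ hx0, QPL.vH_lg _ (W.lc_ne hx0)] at e1
      rw [QPL.lH_lg _ hx0, QPL.lH_lg _ hx0, QPL.vH_lg _ (W.lc_ne hx0), QPL.vH_lg _ (W'.lc_ne hx0)] at e2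
      rw [QPL.lH_lg _ hx0, QPL.lH_lg _ hx0, QPL.lH_lg _ (W.lc_ne hx0), QPL.lH_lg _ (W'.lc_ne hx0)] at e3
      have e4 := lr1_inj (U'.lc_ne (W'.lc_ne hx0)) (U.lc_ne (W.lc_ne hx0)) e3
      by_cases hc : W.v x = 0 ∧ U.v (W.lc x) = 0
      · have hc' : W'.v x = 0 ∧ U'.v (W'.lc x) = 0 := by
          rw [e1, e2, hc.1, hc.2]
          exact ⟨by ring, by ring⟩
        rw [if_pos (Or.inr hc'), if_pos (Or.inr hc), h2 g hg, mul_smul, e4]
      · have hc' : ¬ (W'.v x = 0 ∧ U'.v (W'.lc x) = 0) := by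
          rintro ⟨k1, k2⟩
          rw [e2] at k2
          have k3 : U.v (W.lc x) = 0 := (mul_eq_zero.1 k2).resolve_left he
          rw [e1, k3, mul_zero, add_zero] at k1
          exact hc ⟨k1, k3⟩
        rw [if_neg (not_or.2 ⟨hx0, hc'⟩), if_neg (not_or.2 ⟨hx0, hc⟩), smul_zero]

theorem cmp_ab (r : ℚ)
    (h1 : ∀ g ∈ SG S, W.vH g = r * W'.vH g + U'.vH (W'.lH g))
    (h2 : ∀ g ∈ SG S, U.vH (W.lH g) = W'.vH g)
    (h3 : ∀ g ∈ SG S, U.lH (W.lH g) = U'.lH (W'.lH g))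
    {y : X 1 (RatFunc L)} (hy : y ∈ Lv 1 S) :
    reX U 0 (spX W 1 y) = spX U' 0 (reX W' 0 y) := by
  refine lr1_ind (q := fun y => reX U 0 (spX W 1 y) = spX U' 0 (reX W' 0 y)) ?_ ?_ ?_ ?_ hy
  · simp only [map_zero]
  · intro a b ha hb
    rw [map_add, map_add, map_add, map_add, ha, hb]
  · intro c a ha
    rw [map_smul, map_smul, map_smul, map_smul, ha]
  · intro x g hx hg
    rw [a_bx, b_bx]
    rcases eq_or_ne x 0 with rfl | hx0
    · rw [if_pos (Or.inl rfl), if_pos (Or.inl rfl), map_zero, map_zero, map_zero, map_zero,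
        h2 g hg]
    · have e1 := h1 _ hx
      have e2 := h2 _ hx
      have e3 := h3 _ hx
      rw [QPL.vH_lg _ hx0, QPL.vH_lg _ hx0, QPL.lH_lg _ hx0, QPL.vH_lg _ (W'.lc_ne hx0)] at e1
      rw [QPL.lH_lg _ hx0, QPL.vH_lg _ (W.lc_ne hx0), QPL.vH_lg _ hx0] at e2
      rw [QPL.lH_lg _ hx0, QPL.lH_lg _ hx0, QPL.lH_lg _ (W.lc_ne hx0), QPL.lH_lg _ (W'.lc_ne hx0)] at e3
      have e4 := lr1_inj (U.lc_ne (W.lc_ne hx0)) (U'.lc_ne (W'.lc_ne hx0)) e3
      by_cases hc : W'.v x = 0 ∧ U'.v (W'.lc x) = 0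
      · have hc' : W.v x = 0 ∧ U.v (W.lc x) = 0 := by
          rw [e1, e2, hc.1, hc.2]
          exact ⟨by ring, rfl⟩
        rw [if_pos (Or.inr hc'), if_pos (Or.inr hc), h2 g hg, e4]
      · have hc' : ¬ (W.v x = 0 ∧ U.v (W.lc x) = 0) := by
          rintro ⟨k1, k2⟩
          rw [e2] at k2
          rw [e1, k2, mul_zero, zero_add] at k1
          exact hc ⟨k2, k1⟩
        rw [if_neg (not_or.2 ⟨hx0, hc'⟩), if_neg (not_or.2 ⟨hx0, hc⟩)]

end

end GD3
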