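import Pool.Agent.GD3.Lr9

set_option autoImplicit false

/-!
# GD3-Lr10: the neighbourhood of infinity

Induction on the number of points of `A` outside the closed disc with centre `0` and radius `q`:
the next radius is the largest value of such a point.
-/

noncomputable section

open Polynomial TensorProduct
open scoped Classical

namespace GD3

open Helper14.Gon Helper14.W4 QPL TGF

universe u

section
variable {L N : Type u} [Field L] [Field N] {V : AC L N} {i : N →+* L} {P0 : N[X]}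
  {VN : N → AC (RatFunc N) N} {VN' : AC (RatFunc N) N} {VL : L → AC (RatFunc L) L}
  {VL' : AC (RatFunc L) L} {A : Finset L}

private lemma Lr10_gt {q : ℚ} {a z : L} (hz : V.ge q z) :
    gt V q (a - z) ↔ V.ge q a ∧ V.ini q a = V.ini q z := by
  constructor
  · intro h
    have h1 : V.ge q (a - z) := h.imp id le_of_lt
    have h2 : V.ini q (a - z) = 0 := by
      refine if_neg ?_
      rintro ⟨h3, h4⟩
      rcases h with h | h
      · exact h3 h
      · linarith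
    have h3 : (a - z) + z = a := sub_add_cancel a z
    have h5 := V.ge_add h1 hz
    have h6 := V.ini_add h1 hz
    rw [h3] at h5 h6
    rw [h2, zero_add] at h6
    exact ⟨h5, h6⟩
  · rintro ⟨h1, h2⟩
    have h3 : V.ge q (a - z) := by
      rw [sub_eq_add_neg]
      exact V.ge_add h1 (V.ge_neg hz)
    have h4 : V.ini q (a - z) = 0 := by
      rw [sub_eq_add_neg, V.ini_add h1 (V.ge_neg hz), V.ini_neg, h2, add_neg_cancel]
    exact V.lt_of_ini h3 h4

private lemma Lr10_not {q : ℚ} {a : L} : ¬ V.ge q a ↔ a ≠ 0 ∧ V.v a < q := by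
  rw [AC.ge, not_or, not_le]

private lemma Lr10_iff {q q' : ℚ} (hq : q' < q) {a : L} (ha : ¬ V.ge q a → V.v a ≤ q') :
    ¬ V.ge q a ↔ (V.ge q' a ∧ V.ini q' a ≠ 0) ∨ ¬ V.ge q' a := by
  constructor
  · intro h
    by_cases h1 : V.ge q' a
    · left
      obtain ⟨h2, h3⟩ := Lr10_not.1 h
      have h4 : V.v a = q' := le_antisymm (ha h) (h1.resolve_left h2)
      refine ⟨h1, ?_⟩
      rw [AC.ini, if_pos ⟨h2, h4⟩]
      exact V.lc_ne h2
    · exact Or.inr h1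
  · rintro (⟨-, h2⟩ | h)
    · obtain ⟨h3, h4, -⟩ := V.of_ini_ne h2
      exact Lr10_not.2 ⟨h3, by rw [h4]; exact hq⟩
    · exact fun h1 => h (V.ge_mono hq.le h1)

private lemma Lr10_empty (hB : LB V i P0) (hVN' : IsInf VN') (hVL' : IsInf VL')
    {y : X 1 (RatFunc L)} (hy : y ∈ Lv 1 (PS A (P0.map i))) {q : ℚ} (hq : q ≤ 0)
    {W : AC (RatFunc L) (RatFunc N)} (hD : DP V 0 q W)
    (he : A.filter (fun a => ¬ V.ge q a) = ∅) :
    reX VN' 0 (spX W 1 y) -
      ∑ a ∈ A.filter (fun a => ¬ V.ge q a), spX V 0 (reX (VL a) 0 y) -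
      spX V 0 (reX VL' 0 y) ∈ NX 0 N := by
  have hA : ∀ a ∈ A, V.ge q a := by
    intro a ha
    by_contra h
    have h1 : a ∈ A.filter (fun a => ¬ V.ge q a) := Finset.mem_filter.2 ⟨ha, h⟩
    rw [he] at h1
    exact absurd h1 (Finset.notMem_empty a)
  rw [he, Finset.sum_empty, one_inf hB hVN' hVL' hq hD hA hy, sub_zero, sub_self]
  exact Submodule.zero_mem _

/-- one direction -/
private lemma Lr10_dir (hB : LB V i P0) (hVN : ∀ b, IsAt b (VN b)) (hVN' : IsInf VN')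
    (hVL : ∀ a, IsAt a (VL a)) (hR : RecH VN VN') {c1 : C1 (RatFunc L)}
    (h1 : c1 ∈ CZ (RatFunc L)) (h2 : c1 ∈ CL (PS A (P0.map i))) {a1 : L} (ha1 : a1 ≠ 0)
    {W' : AC (RatFunc L) (RatFunc N)} (hD' : DP V 0 (V.v a1) W') {b : N} (hb : b ≠ 0) :
    reX (VN b) 0 (spX W' 1 c1.1) -
      ∑ a ∈ A.filter (fun a => V.ge (V.v a1) a ∧ V.ini (V.v a1) a = b),
        spX V 0 (reX (VL a) 0 c1.1) ∈ NX 0 N := by
  have hy : c1.1 ∈ Lv 1 (PS A (P0.map i)) := (Submodule.mem_prod.1 h2).1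
  obtain ⟨z, hz, hzb⟩ := exists_z hB ha1 b
  obtain ⟨h3, h4, -⟩ := V.of_ini_ne (m := V.v a1) (x := z) (by rw [hzb]; exact hb)
  obtain ⟨W1, hW1⟩ := exists_dp V (0 + z) (V.v a1)
  have h5 := dir hB hVN hD' hW1 hz hy
  rw [hzb] at h5
  have hG : Gd V (0 + z) (V.v a1) := by
    rw [zero_add]
    exact Or.inr ⟨h3, h4.le⟩
  have h6 := od hB hVN hVN' hVL hR h1 h2 A.card (0 + z) (V.v a1) W1 hW1 hG
    (Finset.card_filter_le _ _)
  have h7 : A.filter (fun a => gt V (V.v a1) (a - (0 + z))) =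
      A.filter (fun a => V.ge (V.v a1) a ∧ V.ini (V.v a1) a = b) := by
    refine Finset.filter_congr fun a _ => ?_
    rw [zero_add, Lr10_gt hz, hzb]
  rw [h5, h7] at h6
  exact h6

private lemma Lr10_step (hB : LB V i P0) (hVN : ∀ b, IsAt b (VN b)) (hVN' : IsInf VN')
    (hVL : ∀ a, IsAt a (VL a)) (hR : RecH VN VN') {c1 : C1 (RatFunc L)}
    (h1 : c1 ∈ CZ (RatFunc L)) (h2 : c1 ∈ CL (PS A (P0.map i))) {a1 : L} (ha1 : a1 ≠ 0)
    (hv : V.v a1 < 0) {W' : AC (RatFunc L) (RatFunc N)} (hD' : DP V 0 (V.v a1) W') :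
    reX (VN 0) 0 (spX W' 1 c1.1) +
      ∑ a ∈ A.filter (fun a => V.ge (V.v a1) a ∧ V.ini (V.v a1) a ≠ 0),
        spX V 0 (reX (VL a) 0 c1.1) + reX VN' 0 (spX W' 1 c1.1) ∈ NX 0 N := by
  obtain ⟨s0, hs0, hs⟩ := rec_dp (c := 0) hB hR hD' (Or.inr ⟨hv, Or.inl rfl⟩) h1 h2
  obtain ⟨R, hRd⟩ : ∃ R : N → X 0 N, ∀ b, R b = reX (VN b) 0 (spX W' 1 c1.1) := ⟨_, fun _ => rfl⟩
  obtain ⟨f, hf⟩ : ∃ f : L → X 0 N, ∀ a, f a = spX V 0 (reX (VL a) 0 c1.1) := ⟨_, fun _ => rfl⟩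
  simp only [← hRd] at hs0 hs
  have hdir : ∀ b : N, b ≠ 0 → R b -
      ∑ a ∈ A.filter (fun a => V.ge (V.v a1) a ∧ V.ini (V.v a1) a = b), f a ∈ NX 0 N := by
    intro b hb
    simp only [hRd, hf]
    exact Lr10_dir hB hVN hVN' hVL hR h1 h2 ha1 hD' hb
  simp only [← hRd, ← hf]
  obtain ⟨s, hsd⟩ : ∃ s : Finset N, s = insert 0 (s0 ∪ A.image (V.ini (V.v a1))) := ⟨_, rfl⟩
  have h0 : (0 : N) ∈ s := by
    rw [hsd]
    exact Finset.mem_insert_self _ _
  have hss : s0 ⊆ s := by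
    intro b hb
    rw [hsd]
    exact Finset.mem_insert_of_mem (Finset.mem_union_left _ hb)
  have hsum : ∑ b ∈ s0, R b = ∑ b ∈ s, R b :=
    Finset.sum_subset hss fun b _ hb => hs0 b hb
  rw [hsum, ← Finset.add_sum_erase s R h0] at hs
  have hT : ∑ b ∈ s.erase 0,
      ∑ a ∈ A.filter (fun a => V.ge (V.v a1) a ∧ V.ini (V.v a1) a = b), f a =
      ∑ a ∈ A.filter (fun a => V.ge (V.v a1) a ∧ V.ini (V.v a1) a ≠ 0), f a := by
    have hm : ∀ a ∈ A.filter (fun a => V.ge (V.v a1) a ∧ V.ini (V.v a1) a ≠ 0),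
        V.ini (V.v a1) a ∈ s.erase 0 := by
      intro a ha
      obtain ⟨ha, -, ha2⟩ := Finset.mem_filter.1 ha
      refine Finset.mem_erase.2 ⟨ha2, ?_⟩
      rw [hsd]
      exact Finset.mem_insert_of_mem (Finset.mem_union_right _ (Finset.mem_image_of_mem _ ha))
    rw [← Finset.sum_fiberwise_of_maps_to hm f]
    refine Finset.sum_congr rfl fun b hb => ?_
    have hb0 : b ≠ 0 := (Finset.mem_erase.1 hb).1
    rw [Finset.filter_filter]
    refine Finset.sum_congr (Finset.filter_congr fun a _ => ?_) fun _ _ => rfl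
    constructor
    · rintro ⟨h3, h4⟩
      exact ⟨⟨h3, by rw [h4]; exact hb0⟩, h4⟩
    · rintro ⟨⟨h3, -⟩, h4⟩
      exact ⟨h3, h4⟩
  have hE : ∑ b ∈ s.erase 0, (R b -
      ∑ a ∈ A.filter (fun a => V.ge (V.v a1) a ∧ V.ini (V.v a1) a = b), f a) ∈ NX 0 N :=
    Submodule.sum_mem _ fun b hb => hdir b (Finset.mem_erase.1 hb).1
  rw [Finset.sum_sub_distrib, hT] at hE
  have h9 := Submodule.sub_mem _ hs hE
  have h10 : R 0 + ∑ b ∈ s.erase 0, R b + reX VN' 0 (spX W' 1 c1.1) -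
      (∑ b ∈ s.erase 0, R b -
        ∑ a ∈ A.filter (fun a => V.ge (V.v a1) a ∧ V.ini (V.v a1) a ≠ 0), f a) =
      R 0 + ∑ a ∈ A.filter (fun a => V.ge (V.v a1) a ∧ V.ini (V.v a1) a ≠ 0), f a +
        reX VN' 0 (spX W' 1 c1.1) := by
    abel
  rw [h10] at h9
  exact h9

theorem ou (hB : LB V i P0) (hVN : ∀ b, IsAt b (VN b)) (hVN' : IsInf VN')
    (hVL : ∀ a, IsAt a (VL a)) (hVL' : IsInf VL') (hR : RecH VN VN') {c1 : C1 (RatFunc L)}
    (h1 : c1 ∈ CZ (RatFunc L)) (h2 : c1 ∈ CL (PS A (P0.map i))) (n : ℕ) :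
    ∀ (q : ℚ) (W : AC (RatFunc L) (RatFunc N)), q ≤ 0 → DP V 0 q W →
      (A.filter fun a => ¬ V.ge q a).card ≤ n →
      reX VN' 0 (spX W 1 c1.1) -
        ∑ a ∈ A.filter (fun a => ¬ V.ge q a), spX V 0 (reX (VL a) 0 c1.1) -
        spX V 0 (reX VL' 0 c1.1) ∈ NX 0 N := by
  have hy : c1.1 ∈ Lv 1 (PS A (P0.map i)) := (Submodule.mem_prod.1 h2).1
  induction n with
  | zero =>
    intro q W hq hD hc
    exact Lr10_empty hB hVN' hVL' hy hq hD (Finset.card_eq_zero.1 (Nat.le_zero.1 hc))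
  | succ n ih =>
    intro q W hq hD hc
    by_cases he : A.filter (fun a => ¬ V.ge q a) = ∅
    · exact Lr10_empty hB hVN' hVL' hy hq hD he
    obtain ⟨a1, ha1, hmax⟩ := Finset.exists_max_image (A.filter fun a => ¬ V.ge q a) (fun a => V.v a)
      (Finset.nonempty_iff_ne_empty.2 he)
    obtain ⟨ha1A, ha1q⟩ := Finset.mem_filter.1 ha1
    obtain ⟨h10, h1q⟩ := Lr10_not.1 ha1q
    have hlt : V.v a1 < 0 := lt_of_lt_of_le h1q hq
    obtain ⟨W', hD'⟩ := exists_dp V 0 (V.v a1)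
    have hmax' : ∀ a ∈ A, ¬ V.ge q a → V.v a ≤ V.v a1 := fun a ha h =>
      hmax a (Finset.mem_filter.2 ⟨ha, h⟩)
    -- the annulus
    have hann : reX VN' 0 (spX W 1 c1.1) = - reX (VN 0) 0 (spX W' 1 c1.1) := by
      refine ann hB hVN hVN' h1q hD' hD ?_ (Or.inr ⟨hq, Or.inl rfl⟩) hy
      intro a ha
      rw [sub_zero]
      by_cases h : V.ge q a
      · exact Or.inl h
      · exact Or.inr ⟨(Lr10_not.1 h).1, hmax' a ha h⟩
    -- the two sets
    have hF : A.filter (fun a => ¬ V.ge q a) =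
        A.filter (fun a => V.ge (V.v a1) a ∧ V.ini (V.v a1) a ≠ 0) ∪
          A.filter (fun a => ¬ V.ge (V.v a1) a) := by
      rw [← Finset.filter_or]
      exact Finset.filter_congr fun a ha => Lr10_iff h1q (hmax' a ha)
    have hdj : Disjoint (A.filter (fun a => V.ge (V.v a1) a ∧ V.ini (V.v a1) a ≠ 0))
        (A.filter (fun a => ¬ V.ge (V.v a1) a)) := by
      rw [Finset.disjoint_filter]
      rintro a - ⟨h3, -⟩ h4
      exact h4 h3
    have hcard : (A.filter fun a => ¬ V.ge (V.v a1) a).card ≤ n := by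
      have h3 : (A.filter fun a => ¬ V.ge (V.v a1) a) ⊂ A.filter fun a => ¬ V.ge q a := by
        rw [Finset.ssubset_iff_of_subset]
        · exact ⟨a1, ha1, fun h => (Finset.mem_filter.1 h).2 (V.ge_self a1)⟩
        · rw [hF]
          exact Finset.subset_union_right
      have h4 := Finset.card_lt_card h3
      omega
    have hih := ih (V.v a1) W' hlt.le hD' hcard
    have hst := Lr10_step hB hVN hVN' hVL hR h1 h2 h10 hlt hD'
    rw [hann, hF, Finset.sum_union hdj]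
    have h11 := Submodule.sub_mem _ hih hst
    refine (congrArg (fun t => t ∈ NX 0 N) ?_).mp h11
    abel

end

end GD3
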