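import Pool.Agent.GD3.Lr10

set_option autoImplicit false

/-!
# GD3-Lr11: specialisation of the total residue

PLAN.  hD : DP V 0 0 W (dp_mono, Lr3).  f a := spX V 0 (reX (VL a) 0 c1.1), R_b := reX (VN b) 0 (spX W 1 c1.1).
ou (Lr10) for q = 0 and n = A.card: reX VN' 0 (spX W 1 c1.1) ≡ sum of f over the a ∈ A with not V.ge 0 a, plus spX V 0 (reX VL' 0 c1.1).
For b : N: i b has V.ge 0 and V.ini 0 (i b) = b (LB.hv, LB.hl; b = 0: map_zero); W_b := exists_dp V (0 + i b) 0, dir (Lr5): reX (VN 0) 0 (spX W_b 1 c1.1) = R_b; od (Lr9) for i b, q = 0 (Gd: 0 ≤ 0): R_b ≡ sum of f over A.filter (gt V 0 (a - i b)) = (A.filter (V.ge 0 a)).filter (V.ini 0 a = b).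
Sum over b ∈ t ∪ A.image (V.ini 0) (sum_fiberwise_of_maps_to; R_b = 0 for b ∉ t): the sum over t of R_b ≡ sum of f over the a ∈ A with V.ge 0 a.  Together: sum over t + reX VN' ≡ sum of f over A + spX V 0 (reX VL' ..) and the sum of f over A is the sum over s of f (both are the sum over s ∪ A: hs, and res_out (Lr7) for a ∉ A).
lr_set: the level may be given by an arbitrary finite set T of primes X - C a: T ⊆ {X - C a}: A := T.image (fun Q => - Q.coeff 0) and (T : Set L[X]) ∪ {P} ⊆ PS A P (Lv_mono, span_mono for DL; Q = X - C a gives Q.coeff 0 = - a).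
-/

noncomputable section

open Polynomial TensorProduct
open scoped Classical

namespace GD3

open Helper14.Gon Helper14.W4 QPL TGF

universe u

section
variable {L N : Type u} [Field L] [Field N] {V : AC L N} {i : N →+* L} {P0 : N[X]}
  {VN : N → AC (RatFunc N) N} {VN' : AC (RatFunc N) N} {VL : L → AC (RatFunc L) L}
  {VL' : AC (RatFunc L) L} {A : Finset L}

private lemma Lr11_mono {S S' : Set L[X]} (h : S ⊆ S') : CL S ≤ CL S' := by
  refine Submodule.prod_mono (Lv_mono 1 h) (Submodule.span_mono ?_)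
  rintro z ⟨x, y, hx, hy, rfl⟩
  exact ⟨x, y, El_mono h hx, El_mono h hy, rfl⟩

private lemma Lr11_ib (hB : LB V i P0) (b : N) : V.ge 0 (i b) ∧ V.ini 0 (i b) = b := by
  by_cases hb : b = 0
  · subst hb
    rw [map_zero]
    exact ⟨V.ge_zero 0, V.ini_zero 0⟩
  · have h0 : i b ≠ 0 := (_root_.map_ne_zero i).2 hb
    have h1 := hB.hv b hb
    refine ⟨Or.inr h1.ge, ?_⟩
    rw [AC.ini, if_pos ⟨h0, h1⟩, hB.hl]

private lemma Lr11_filter (hB : LB V i P0) (b : N) :
    A.filter (fun a => gt V 0 (a - (0 + i b))) =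
      (A.filter fun a => V.ge 0 a).filter fun a => V.ini 0 a = b := by
  obtain ⟨g1, g2⟩ := Lr11_ib hB b
  rw [Finset.filter_filter]
  refine Finset.filter_congr fun a _ => ?_
  rw [zero_add]
  constructor
  · intro h
    have h1 : V.ge 0 (a - i b) := h.imp id le_of_lt
    have h2 : V.ini 0 (a - i b) = 0 := by
      rcases h with h | h
      · rw [h, V.ini_zero]
      · exact V.ini_of_lt h (V.ge_self _)
    have e : a = (a - i b) + i b := by ring
    rw [e]
    exact ⟨V.ge_add h1 g1, by rw [V.ini_add h1 g1, h2, g2, zero_add]⟩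
  · rintro ⟨h1, h2⟩
    refine V.lt_of_ini (m := 0) ?_ ?_
    · rw [sub_eq_add_neg]
      exact V.ge_add h1 (V.ge_neg g1)
    · rw [sub_eq_add_neg, V.ini_add h1 (V.ge_neg g1), V.ini_neg, h2, g2, add_neg_cancel]

/-- the total residue specialises -/
theorem lr_ps (hB : LB V i P0) (hVN : ∀ b, IsAt b (VN b)) (hVN' : IsInf VN')
    (hVL : ∀ a, IsAt a (VL a)) (hVL' : IsInf VL') (hR : RecH VN VN') {c1 : C1 (RatFunc L)}
    (h1 : c1 ∈ CZ (RatFunc L)) (h2 : c1 ∈ CL (PS A (P0.map i)))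
    {W : AC (RatFunc L) (RatFunc N)} (hW : IsMono V 0 W) {s : Finset L} {t : Finset N}
    (hs : ∀ a, a ∉ s → reX (VL a) 0 c1.1 = 0)
    (ht : ∀ b, b ∉ t → reX (VN b) 0 (spX W 1 c1.1) = 0) :
    spX V 0 (∑ a ∈ s, reX (VL a) 0 c1.1 + reX VL' 0 c1.1) -
      (∑ b ∈ t, reX (VN b) 0 (spX W 1 c1.1) + reX VN' 0 (spX W 1 c1.1)) ∈ NX 0 N := by
  have hD : DP V 0 0 W := dp_mono hW
  have hy : c1.1 ∈ Lv 1 (PS A (P0.map i)) := (Submodule.mem_prod.1 h2).1
  set f : L → X 0 N := fun a => spX V 0 (reX (VL a) 0 c1.1) with hf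
  set R : N → X 0 N := fun b => reX (VN b) 0 (spX W 1 c1.1) with hRd
  have ho := ou hB hVN hVN' hVL hVL' hR h1 h2 A.card 0 W le_rfl hD (Finset.card_filter_le _ _)
  have key : ∀ b : N, R b -
      ∑ a ∈ (A.filter fun a => V.ge 0 a).filter (fun a => V.ini 0 a = b), f a ∈ NX 0 N := by
    intro b
    obtain ⟨g1, g2⟩ := Lr11_ib hB b
    obtain ⟨Wb, hWb⟩ := exists_dp V (0 + i b) 0
    have e1 := dir hB hVN hD hWb g1 hy
    rw [g2] at e1
    have e2 := od hB hVN hVN' hVL hR h1 h2 A.card (0 + i b) 0 Wb hWb (Or.inl le_rfl)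
      (Finset.card_filter_le _ _)
    rw [e1, Lr11_filter hB b] at e2
    exact e2
  set B : Finset L := A.filter fun a => V.ge 0 a with hBd
  set T : Finset N := t ∪ B.image (V.ini 0) with hT
  have s1 : ∑ b ∈ T, ∑ a ∈ B.filter (fun a => V.ini 0 a = b), f a = ∑ a ∈ B, f a :=
    Finset.sum_fiberwise_of_maps_to (fun a ha =>
      Finset.mem_union_right _ (Finset.mem_image_of_mem _ ha)) _
  have s2 : ∑ b ∈ t, R b = ∑ b ∈ T, R b :=
    Finset.sum_subset Finset.subset_union_left fun b _ hb => ht b hb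
  have s3 : ∑ a ∈ s, f a = ∑ a ∈ A, f a := by
    have u1 : ∑ a ∈ s, f a = ∑ a ∈ s ∪ A, f a :=
      Finset.sum_subset Finset.subset_union_left fun a _ ha => by
        simp only [hf]
        rw [hs a ha, map_zero]
    have u2 : ∑ a ∈ A, f a = ∑ a ∈ s ∪ A, f a :=
      Finset.sum_subset Finset.subset_union_right fun a _ ha => by
        simp only [hf]
        rw [res_out hB hVL ha hy, map_zero]
    rw [u1, u2]
  have s4 : ∑ a ∈ A, f a = ∑ a ∈ B, f a + ∑ a ∈ A.filter (fun a => ¬ V.ge 0 a), f a :=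
    (Finset.sum_filter_add_sum_filter_not A (fun a => V.ge 0 a) f).symm
  have k1 : ∑ b ∈ T, (R b - ∑ a ∈ B.filter (fun a => V.ini 0 a = b), f a) ∈ NX 0 N :=
    sum_mem fun b _ => key b
  rw [Finset.sum_sub_distrib, s1, ← s2] at k1
  have k2 := neg_mem (add_mem k1 ho)
  rw [map_add, map_sum]
  change ∑ a ∈ s, f a + spX V 0 (reX VL' 0 c1.1) -
    (∑ b ∈ t, R b + reX VN' 0 (spX W 1 c1.1)) ∈ NX 0 N
  rw [s3, s4]
  convert k2 using 1
  simp only [hf]
  abel

/-- the same for an arbitrary finite set of linear primes -/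
theorem lr_set (hB : LB V i P0) (hVN : ∀ b, IsAt b (VN b)) (hVN' : IsInf VN')
    (hVL : ∀ a, IsAt a (VL a)) (hVL' : IsInf VL') (hR : RecH VN VN') {c1 : C1 (RatFunc L)}
    (h1 : c1 ∈ CZ (RatFunc L)) {T : Finset L[X]} (hT : ∀ Q ∈ T, ∃ a, Q = Polynomial.X - C a)
    (h2 : c1 ∈ CL ((T : Set L[X]) ∪ {P0.map i}))
    {W : AC (RatFunc L) (RatFunc N)} (hW : IsMono V 0 W) {s : Finset L} {t : Finset N}
    (hs : ∀ a, a ∉ s → reX (VL a) 0 c1.1 = 0)
    (ht : ∀ b, b ∉ t → reX (VN b) 0 (spX W 1 c1.1) = 0) :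
    spX V 0 (∑ a ∈ s, reX (VL a) 0 c1.1 + reX VL' 0 c1.1) -
      (∑ b ∈ t, reX (VN b) 0 (spX W 1 c1.1) + reX VN' 0 (spX W 1 c1.1)) ∈ NX 0 N := by
  set A0 : Finset L := T.image fun Q => - Q.coeff 0 with hA0
  have hsub : (T : Set L[X]) ∪ {P0.map i} ⊆ PS A0 (P0.map i) := by
    rintro Q (hQ | hQ)
    · right
      obtain ⟨a, rfl⟩ := hT Q hQ
      refine ⟨a, ?_, rfl⟩
      rw [hA0, Finset.mem_image]
      refine ⟨_, hQ, ?_⟩
      simp
    · left
      exact hQ
  exact lr_ps hB hVN hVN' hVL hVL' hR h1 (Lr11_mono hsub h2) hW hs ht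

end

end GD3
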