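import Pool.Agent.GD3.Lr0
import Pool.Agent.TGF.Pt
import Pool.Agent.TGF.Ts
import Pool.Agent.QPL.Calc
import Pool.Agent.QPL.ReT

set_option autoImplicit false

/-!
# GD3-Lr2: generators of the group of smooth elements; places of `N(s)` on linear polynomials

PLAN.  sg_ind: SG (PS A P) is generated by the lg (algebraMap B), B ≠ 0, Sm (PS A P) B.  Strong induction on B.natDegree: if B is a unit it is a constant C z, z ≠ 0.  Otherwise B has a monic irreducible factor Q (exists_monic_irreducible_factor), Q ∈ PS A P, B = Q * B', B' ≠ 0 smooth of smaller degree (factors of B' are factors of B),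
lg (Q B') = lg Q + lg B' (lg_mul, RatFunc.algebraMap_ne_zero).
sp_El: x = 0: W.lc 0 = 0, lg 0 = 0, lg 1 = 0.  x ≠ 0, W.v x = 0: lg (W.lc x) = W.lH (lg x) (lH_lg).  If W.lc x = 1: lg (1 - 1) = 0.  Otherwise 1 - x has value 0 and leading coefficient 1 - W.lc x (AC.add_ne for 1 and -x; AC.v_one, AC.v_neg, AC.lc_neg), so lg (1 - W.lc x) = W.lH (lg (1 - x)).
lv_sp: Submodule.span_induction, spX_bx; spT W j ω ∈ TS j (SG S') for ω ∈ TS j (SG S): TS_map (TGF/Ts.lean, spT = tm of W.lH).  dl_sp: spD_sb, for x, y ≠ 0 with W.v x = W.v y = 0 the symbol goes to sb (W.lc x) (W.lc y), otherwise to 0.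
at_C, at_pt, at_pol: IsAt.v, IsAt.lc: rootMultiplicity is 0 if the value at b is not 0 (rootMultiplicity_eq_zero), then /ₘ 1; for X - C b: rootMultiplicity 1, quotient 1 (rootMultiplicity_X_sub_C_self, or QPL/At.lean).  inf_*: IsInf.
-/

noncomputable section

open Polynomial TensorProduct
open scoped Classical

namespace GD3

open Helper14.Gon Helper14.W4 QPL TGF

universe u v

section
variable {L N : Type u} [Field L] [Field N]

private lemma lr2_ind {A : Finset L} {P : L[X]} (H : AddSubgroup (Additive (RatFunc L)ˣ))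
    (hC : ∀ z : L, z ≠ 0 → lg (algebraMap L[X] (RatFunc L) (C z)) ∈ H)
    (ha : ∀ a ∈ A, lg (pt a) ∈ H) (hP : lg (algebraMap L[X] (RatFunc L) P) ∈ H) (n : ℕ) :
    ∀ B : L[X], B.natDegree ≤ n → B ≠ 0 → SRG.Sm (PS A P) B → lg (algebraMap L[X] (RatFunc L) B) ∈ H := by
  induction n with
  | zero =>
    intro B hn h0 _
    have h1 := Polynomial.eq_C_of_natDegree_eq_zero (Nat.le_zero.1 hn)
    rw [h1]
    refine hC _ fun h2 => h0 ?_
    rw [h1, h2, Polynomial.C_0]
  | succ n ih =>
    intro B hn h0 hs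
    by_cases hB : B.natDegree = 0
    · have h1 := Polynomial.eq_C_of_natDegree_eq_zero hB
      rw [h1]
      refine hC _ fun h2 => h0 ?_
      rw [h1, h2, Polynomial.C_0]
    · have hu : ¬ IsUnit B := fun h => hB (Polynomial.natDegree_eq_zero_of_isUnit h)
      obtain ⟨Q, hQm, hQi, B', rfl⟩ := Polynomial.exists_monic_irreducible_factor B hu
      have hQ0 : Q ≠ 0 := hQi.ne_zero
      have hB0 : B' ≠ 0 := right_ne_zero_of_mul h0
      have hdeg : B'.natDegree ≤ n := by
        rw [Polynomial.natDegree_mul hQ0 hB0] at hn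
        have h1 := hQi.natDegree_pos
        omega
      have hsQ : Q ∈ PS A P := (hs.resolve_left h0) Q hQm hQi (dvd_mul_right Q B')
      have hsB : SRG.Sm (PS A P) B' := Or.inr fun R hR1 hR2 hR3 =>
        (hs.resolve_left h0) R hR1 hR2 (hR3.trans (dvd_mul_left B' Q))
      have hlQ : lg (algebraMap L[X] (RatFunc L) Q) ∈ H := by
        rcases hsQ with h1 | ⟨a, haA, h1⟩
        · rw [h1]
          exact hP
        · rw [h1]
          exact ha a haA
      rw [map_mul, lg_mul (RatFunc.algebraMap_ne_zero hQ0) (RatFunc.algebraMap_ne_zero hB0)]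
      exact H.add_mem hlQ (ih B' hdeg hB0 hsB)

theorem sg_ind {A : Finset L} {P : L[X]} (H : AddSubgroup (Additive (RatFunc L)ˣ))
    (hC : ∀ z : L, z ≠ 0 → lg (algebraMap L[X] (RatFunc L) (C z)) ∈ H)
    (ha : ∀ a ∈ A, lg (pt a) ∈ H) (hP : lg (algebraMap L[X] (RatFunc L) P) ∈ H) :
    SG (PS A P) ≤ H := by
  refine (AddSubgroup.closure_le _).2 ?_
  rintro v ⟨B, h0, hs, rfl⟩
  exact lr2_ind H hC ha hP B.natDegree B le_rfl h0 hs

/-- homomorphisms which agree on the generators agree on `SG (PS A P)` -/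
theorem sg_ext {B : Type v} [AddCommGroup B] {A : Finset L} {P : L[X]}
    (f g : Additive (RatFunc L)ˣ →+ B)
    (hC : ∀ z : L, z ≠ 0 → f (lg (algebraMap L[X] (RatFunc L) (C z))) =
      g (lg (algebraMap L[X] (RatFunc L) (C z))))
    (ha : ∀ a ∈ A, f (lg (pt a)) = g (lg (pt a)))
    (hP : f (lg (algebraMap L[X] (RatFunc L) P)) = g (lg (algebraMap L[X] (RatFunc L) P))) :
    ∀ w ∈ SG (PS A P), f w = g w := by
  intro w hw
  exact sg_ind (AddMonoidHom.eqLocus f g) hC ha hP hw

theorem sp_El {S : Set L[X]} {S' : Set N[X]} (W : AC (RatFunc L) (RatFunc N))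
    (hG : ∀ w ∈ SG S, W.lH w ∈ SG S') {x : RatFunc L} (hx : El S x)
    (h : x = 0 ∨ W.v x = 0) : El S' (W.lc x) := by
  by_cases h0 : x = 0
  · rw [h0, map_zero]
    refine ⟨?_, ?_⟩
    · rw [lg_zero]
      exact AddSubgroup.zero_mem _
    · rw [sub_zero, lg_one]
      exact AddSubgroup.zero_mem _
  · have hv : W.v x = 0 := h.resolve_left h0
    refine ⟨?_, ?_⟩
    · rw [← TGF.lH_lg W h0]
      exact hG _ hx.1
    · by_cases h1 : W.lc x = 1
      · rw [h1, sub_self, lg_zero]
        exact AddSubgroup.zero_mem _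
      · have hv1 : W.v 1 = W.v (-x) := by rw [v_one, v_neg W h0, hv]
        have hl1 : W.lc 1 + W.lc (-x) ≠ 0 := by
          rw [map_one, lc_neg, ← sub_eq_add_neg]
          exact sub_ne_zero.2 (Ne.symm h1)
        obtain ⟨h2, -, h3⟩ := W.add_ne one_ne_zero (neg_ne_zero.2 h0) hv1 hl1
        rw [← sub_eq_add_neg] at h2 h3
        rw [map_one, lc_neg, ← sub_eq_add_neg] at h3
        rw [← h3, ← TGF.lH_lg W h2]
        exact hG _ hx.2

theorem lv_sp {S : Set L[X]} {S' : Set N[X]} (W : AC (RatFunc L) (RatFunc N))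
    (hG : ∀ w ∈ SG S, W.lH w ∈ SG S') (j : ℕ) {z : X j (RatFunc L)} (hz : z ∈ Lv j S) :
    spX W j z ∈ Lv j S' := by
  have key : Lv j S ≤ (Lv j S').comap (spX W j) := by
    rw [Lv, Submodule.span_le]
    rintro z ⟨x, ω, hx, hω, rfl⟩
    change spX W j (bx x ω) ∈ Lv j S'
    rw [spX_bx]
    split_ifs with h
    · exact Submodule.subset_span ⟨_, _, sp_El W hG hx h, TS_map j W.lH hG hω, rfl⟩
    · exact Submodule.zero_mem _
  exact key hz

theorem dl_sp {S : Set L[X]} {S' : Set N[X]} (W : AC (RatFunc L) (RatFunc N))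
    (hG : ∀ w ∈ SG S, W.lH w ∈ SG S') {z : D (RatFunc L)} (hz : z ∈ DL S) :
    spD W z ∈ DL S' := by
  have key : DL S ≤ (DL S').comap (spD W) := by
    rw [DL, Submodule.span_le]
    rintro z ⟨x, y, hx, hy, rfl⟩
    change spD W (sb x y) ∈ DL S'
    rw [spD_sb]
    split_ifs with h
    · exact Submodule.subset_span ⟨_, _, sp_El W hG hx (Or.inr h.2.1), sp_El W hG hy (Or.inr h.2.2.2), rfl⟩
    · exact Submodule.zero_mem _
  exact key hz

end

section
variable {N : Type u} [Field N] {U : AC (RatFunc N) N}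

theorem at_pol {b : N} (h : IsAt b U) {Q : N[X]} (hQ : Q.eval b ≠ 0) :
    U.v (algebraMap N[X] (RatFunc N) Q) = 0 ∧
      U.lc (algebraMap N[X] (RatFunc N) Q) = Q.eval b := by
  have h0 : Q ≠ 0 := by
    rintro rfl
    exact hQ Polynomial.eval_zero
  have hr : Q.rootMultiplicity b = 0 := Polynomial.rootMultiplicity_eq_zero hQ
  constructor
  · rw [h.v Q h0, hr, Nat.cast_zero]
  · rw [h.lc Q h0, hr, pow_zero, Polynomial.divByMonic_one]

theorem at_C {b : N} (h : IsAt b U) {z : N} (hz : z ≠ 0) :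
    U.v (algebraMap N[X] (RatFunc N) (C z)) = 0 ∧
      U.lc (algebraMap N[X] (RatFunc N) (C z)) = z := by
  have h1 := at_pol h (Q := C z) (by rw [Polynomial.eval_C]; exact hz)
  rw [Polynomial.eval_C] at h1
  exact h1

theorem at_pt {b : N} (h : IsAt b U) (β : N) : U.v (pt β) = (if β = b then 1 else 0) ∧
    U.lc (pt β) = if β = b then 1 else b - β := by
  by_cases hb : β = b
  · rw [if_pos hb, if_pos hb, hb]
    have h0 : (Polynomial.X - C b : N[X]) ≠ 0 := X_sub_C_ne_zero b
    constructor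
    · rw [pt, h.v _ h0, Polynomial.rootMultiplicity_X_sub_C_self, Nat.cast_one]
    · rw [pt, h.lc _ h0, Polynomial.rootMultiplicity_X_sub_C_self, pow_one]
      have h1 := Polynomial.mul_divByMonic_cancel_left (1 : N[X]) (Polynomial.monic_X_sub_C b)
      rw [mul_one] at h1
      rw [h1, Polynomial.eval_one]
  · rw [if_neg hb, if_neg hb]
    have h1 := at_pol h (Q := Polynomial.X - C β) (by
      rw [Polynomial.eval_sub, Polynomial.eval_X, Polynomial.eval_C]
      exact sub_ne_zero.2 (Ne.symm hb))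
    rw [Polynomial.eval_sub, Polynomial.eval_X, Polynomial.eval_C] at h1
    exact h1

theorem inf_C (h : IsInf U) {z : N} (hz : z ≠ 0) :
    U.v (algebraMap N[X] (RatFunc N) (C z)) = 0 ∧
      U.lc (algebraMap N[X] (RatFunc N) (C z)) = z := by
  have h0 : (C z : N[X]) ≠ 0 := Polynomial.C_ne_zero.2 hz
  constructor
  · rw [h.v _ h0, Polynomial.natDegree_C, Nat.cast_zero, neg_zero]
  · rw [h.lc _ h0, Polynomial.leadingCoeff_C]

theorem inf_pt (h : IsInf U) (β : N) : U.v (pt β) = -1 ∧ U.lc (pt β) = 1 := by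
  have h0 : (Polynomial.X - C β : N[X]) ≠ 0 := X_sub_C_ne_zero β
  constructor
  · rw [pt, h.v _ h0, Polynomial.natDegree_X_sub_C, Nat.cast_one]
  · rw [pt, h.lc _ h0]
    exact Polynomial.monic_X_sub_C β

theorem inf_pol (h : IsInf U) {Q : N[X]} (hQ : Q.Monic) :
    U.v (algebraMap N[X] (RatFunc N) Q) = -(Q.natDegree : ℚ) ∧
      U.lc (algebraMap N[X] (RatFunc N) Q) = 1 := by
  exact ⟨h.v Q hQ.ne_zero, (h.lc Q hQ.ne_zero).trans hQ⟩

end

end GD3
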