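import Pool.Agent.GD3.Lr0
import Pool.Agent.QPL.Mono

set_option autoImplicit false

/-!
# GD3-Lr3: the places of discs exist

The monomial extension is the place of the closed disc with centre `0`; the place of the disc with
centre `c` is its pullback along the translation `T ↦ T + c`.
-/

noncomputable section

open Polynomial TensorProduct
open scoped Classical

namespace GD3

open Helper14.Gon Helper14.W4 QPL TGF

universe u

section
variable {L N : Type u} [Field L] [Field N]

private lemma lr3_coeff (a : L) (i : ℕ) :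
    (Polynomial.X - C a).coeff i = if i = 0 then -a else if i = 1 then 1 else 0 := by
  rw [coeff_sub, coeff_X, coeff_C]
  by_cases h0 : i = 0
  · subst h0
    simp
  · by_cases h1 : i = 1
    · subst h1
      simp
    · rw [if_neg (fun h => h1 h.symm), if_neg h0, if_neg h0, if_neg h1, sub_zero]

private lemma lr3_val {V : AC L N} {q : ℚ} {W : AC (RatFunc L) (RatFunc N)} (hW : IsMono V q W)
    {m : ℚ} {P : L[X]} {Q : N[X]} (h1 : V.geP q m P) (h2 : V.iniP q m P = Q) (hQ : Q ≠ 0) :
    W.v (algebraMap L[X] (RatFunc L) P) = m ∧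
      W.lc (algebraMap L[X] (RatFunc L) P) = algebraMap N[X] (RatFunc N) Q := by
  obtain ⟨-, h4⟩ := hW m P h1
  rw [h2] at h4
  have h5 : W.ini m (algebraMap L[X] (RatFunc L) P) ≠ 0 := by
    rw [h4]
    exact RatFunc.algebraMap_ne_zero hQ
  obtain ⟨-, h6, h7⟩ := W.of_ini_ne h5
  exact ⟨h6, h7.trans h4⟩

private lemma lr3_C {V : AC L N} {q : ℚ} {W : AC (RatFunc L) (RatFunc N)} (hW : IsMono V q W)
    {z : L} (hz : z ≠ 0) :
    W.v (algebraMap L[X] (RatFunc L) (C z)) = V.v z ∧
      W.lc (algebraMap L[X] (RatFunc L) (C z)) = algebraMap N[X] (RatFunc N) (C (V.lc z)) := by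
  refine lr3_val hW ?_ ?_ (C_ne_zero.2 (V.lc_ne hz))
  · intro i
    rw [coeff_C]
    by_cases h : i = 0
    · rw [if_pos h, h, Nat.cast_zero, zero_mul, sub_zero]
      exact V.ge_self z
    · rw [if_neg h]
      exact V.ge_zero _
  · ext i
    rw [coeff_iniP, coeff_C, coeff_C]
    by_cases h : i = 0
    · rw [if_pos h, if_pos h, h, Nat.cast_zero, zero_mul, sub_zero]
      exact V.ini_self z
    · rw [if_neg h, if_neg h]
      exact V.ini_zero _

private lemma lr3_near {V : AC L N} {q : ℚ} {W : AC (RatFunc L) (RatFunc N)} (hW : IsMono V q W)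
    {a : L} (ha : V.ge q a) :
    W.v (algebraMap L[X] (RatFunc L) (Polynomial.X - C a)) = q ∧
      W.lc (algebraMap L[X] (RatFunc L) (Polynomial.X - C a)) =
        algebraMap N[X] (RatFunc N) (Polynomial.X - C (V.ini q a)) := by
  refine lr3_val hW ?_ ?_ (X_sub_C_ne_zero _)
  · intro i
    rw [lr3_coeff]
    by_cases h : i = 0
    · rw [if_pos h, h, Nat.cast_zero, zero_mul, sub_zero]
      exact V.ge_neg ha
    · by_cases h1 : i = 1
      · rw [if_neg h, if_pos h1, h1, Nat.cast_one, one_mul, sub_self]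
        exact V.ge_one
      · rw [if_neg h, if_neg h1]
        exact V.ge_zero _
  · ext i
    rw [coeff_iniP, lr3_coeff, lr3_coeff]
    by_cases h : i = 0
    · rw [if_pos h, if_pos h, h, Nat.cast_zero, zero_mul, sub_zero]
      exact V.ini_neg q a
    · by_cases h1 : i = 1
      · rw [if_neg h, if_neg h, if_pos h1, if_pos h1, h1, Nat.cast_one, one_mul, sub_self]
        exact V.ini_one
      · rw [if_neg h, if_neg h, if_neg h1, if_neg h1]
        exact V.ini_zero _

private lemma lr3_far {V : AC L N} {q : ℚ} {W : AC (RatFunc L) (RatFunc N)} (hW : IsMono V q W)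
    {a : L} (ha : ¬ V.ge q a) :
    W.v (algebraMap L[X] (RatFunc L) (Polynomial.X - C a)) = V.v a ∧
      W.lc (algebraMap L[X] (RatFunc L) (Polynomial.X - C a)) =
        algebraMap N[X] (RatFunc N) (C (V.lc (-a))) := by
  have ha0 : a ≠ 0 := fun h => ha (Or.inl h)
  have ha1 : V.v a < q := not_le.1 fun h => ha (Or.inr h)
  refine lr3_val hW ?_ ?_ (C_ne_zero.2 (V.lc_ne (neg_ne_zero.2 ha0)))
  · intro i
    rw [lr3_coeff]
    by_cases h : i = 0
    · rw [if_pos h, h, Nat.cast_zero, zero_mul, sub_zero]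
      exact V.ge_neg (V.ge_self a)
    · by_cases h1 : i = 1
      · rw [if_neg h, if_pos h1, h1, Nat.cast_one, one_mul]
        exact V.ge_mono (by linarith) V.ge_one
      · rw [if_neg h, if_neg h1]
        exact V.ge_zero _
  · ext i
    rw [coeff_iniP, lr3_coeff, coeff_C]
    by_cases h : i = 0
    · rw [if_pos h, if_pos h, h, Nat.cast_zero, zero_mul, sub_zero, V.ini_neg, V.ini_self, V.lc_neg]
    · by_cases h1 : i = 1
      · rw [if_neg h, if_neg h, if_pos h1, h1, Nat.cast_one, one_mul]
        exact V.ini_of_lt (by linarith) V.ge_one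
      · rw [if_neg h, if_neg h, if_neg h1]
        exact V.ini_zero _

theorem dp_mono {V : AC L N} {q : ℚ} {W : AC (RatFunc L) (RatFunc N)} (hW : IsMono V q W) :
    DP V 0 q W where
  cv z hz := (lr3_C hW hz).1
  cl z := by
    by_cases hz : z = 0
    · rw [hz, C_0, map_zero, map_zero, map_zero, C_0, map_zero]
    · exact (lr3_C hW hz).2
  nv a ha := by
    rw [sub_zero] at ha
    exact (lr3_near hW ha).1
  nl a ha := by
    rw [sub_zero] at ha ⊢
    exact (lr3_near hW ha).2
  fv a ha := by
    rw [sub_zero] at ha ⊢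
    exact (lr3_far hW ha).1
  fl a ha := by
    rw [sub_zero] at ha
    rw [zero_sub]
    exact (lr3_far hW ha).2

private lemma lr3_inj (c : L) : Function.Injective
    ((algebraMap L[X] (RatFunc L)).comp (compRingHom (Polynomial.X + C c))) := by
  intro P Q h
  have h1 : P.comp (Polynomial.X + C c) = Q.comp (Polynomial.X + C c) :=
    IsFractionRing.injective L[X] (RatFunc L) h
  rw [← taylor_apply, ← taylor_apply] at h1
  exact taylor_injective c h1

theorem exists_dp (V : AC L N) (c : L) (q : ℚ) : ∃ W : AC (RatFunc L) (RatFunc N),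
    DP V c q W := by
  obtain ⟨W0, hW0⟩ := exists_mono V q
  have hd := dp_mono hW0
  let τ : RatFunc L →+* RatFunc L := IsFractionRing.lift (lr3_inj c)
  have hτ : ∀ P : L[X], τ (algebraMap L[X] (RatFunc L) P) =
      algebraMap L[X] (RatFunc L) (P.comp (Polynomial.X + C c)) := fun P =>
    IsFractionRing.lift_algebraMap (lr3_inj c) P
  have hτC : ∀ z : L, τ (algebraMap L[X] (RatFunc L) (C z)) = algebraMap L[X] (RatFunc L) (C z) := by
    intro z
    rw [hτ, C_comp]
  have hτp : ∀ a : L, τ (pt a) = pt (a - c) := by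
    intro a
    rw [pt, pt, hτ, sub_comp, X_comp, C_comp, C_sub]
    congr 1
    ring
  refine ⟨W0.comap τ, ?_, ?_, ?_, ?_, ?_, ?_⟩
  · intro z hz
    change W0.v (τ _) = _
    rw [hτC]
    exact hd.cv z hz
  · intro z
    change W0.lc (τ _) = _
    rw [hτC]
    exact hd.cl z
  · intro a ha
    change W0.v (τ _) = _
    rw [hτp]
    exact hd.nv (a - c) (by rwa [sub_zero])
  · intro a ha
    change W0.lc (τ _) = _
    rw [hτp, hd.nl (a - c) (by rwa [sub_zero]), sub_zero]
  · intro a ha
    change W0.v (τ _) = _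
    rw [hτp, hd.fv (a - c) (by rwa [sub_zero]), sub_zero]
  · intro a ha
    change W0.lc (τ _) = _
    rw [hτp, hd.fl (a - c) (by rwa [sub_zero]), zero_sub, neg_sub]

end

end GD3
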