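import Pool.Agent.GD3.Lr2
import Pool.Agent.QPL.Calc

set_option autoImplicit false

/-!
# GD3-Lr4: the polynomial `P` at the places of discs

`pol_ge`, `pol_lt`: values and leading coefficients of `P0.eval₂ φ t` when the coefficients have value `0`, for `t` of value at
least `0` and for `t` of negative value.  They are applied to `V` (`p_ge`, `p_lt`) and to the places of discs (`p_sg`, `p_zero`,
`p_neg`, `p_gd`).
-/

noncomputable section

open Polynomial TensorProduct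
open scoped Classical

namespace GD3

open Helper14.Gon Helper14.W4 QPL TGF

universe u

section
variable {N F K1 : Type u} [Field N] [Field F] [Field K1]

private theorem lr4_pow_v (W : AC F K1) {t : F} (ht : t ≠ 0) (n : ℕ) : W.v (t ^ n) = n * W.v t := by
  induction n with
  | zero => rw [pow_zero, W.v_one, Nat.cast_zero, zero_mul]
  | succ n ih =>
    rw [pow_succ, W.v_mul (pow_ne_zero n ht) ht, ih, Nat.cast_succ]
    ring

private theorem lr4_pow (W : AC F K1) {t : F} (ht : W.ge 0 t) (n : ℕ) :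
    W.ge 0 (t ^ n) ∧ W.ini 0 (t ^ n) = W.ini 0 t ^ n := by
  induction n with
  | zero =>
    rw [pow_zero, pow_zero]
    exact ⟨W.ge_one, W.ini_one⟩
  | succ n ih =>
    have h1 := W.ge_mul ih.1 ht
    have h2 := W.ini_mul ih.1 ht
    rw [add_zero] at h1 h2
    rw [pow_succ, pow_succ]
    exact ⟨h1, by rw [h2, ih.2]⟩

private theorem lr4_coef (W : AC F K1) (φ : N →+* F) (ψ : N →+* K1) (h : ∀ z : N, z ≠ 0 → W.v (φ z) = 0)
    (h' : ∀ z : N, W.lc (φ z) = ψ z) (z : N) : W.ge 0 (φ z) ∧ W.ini 0 (φ z) = ψ z := by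
  by_cases hz : z = 0
  · rw [hz, map_zero, map_zero]
    exact ⟨W.ge_zero 0, W.ini_zero 0⟩
  · have h1 := W.ge_self (φ z)
    have h2 := W.ini_self (φ z)
    rw [h z hz] at h1 h2
    exact ⟨h1, by rw [h2, h' z]⟩

theorem pol_ge (W : AC F K1) (φ : N →+* F) (ψ : N →+* K1) (h : ∀ z : N, z ≠ 0 → W.v (φ z) = 0)
    (h' : ∀ z : N, W.lc (φ z) = ψ z) (P0 : N[X]) {t : F} (ht : W.ge 0 t) :
    W.ge 0 (P0.eval₂ φ t) ∧ W.ini 0 (P0.eval₂ φ t) = P0.eval₂ ψ (W.ini 0 t) := by
  induction P0 using Polynomial.induction_on' with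
  | add p q hp hq =>
    rw [Polynomial.eval₂_add, Polynomial.eval₂_add]
    exact ⟨W.ge_add hp.1 hq.1, by rw [W.ini_add hp.1 hq.1, hp.2, hq.2]⟩
  | monomial n a =>
    rw [Polynomial.eval₂_monomial, Polynomial.eval₂_monomial]
    have h1 := lr4_coef W φ ψ h h' a
    have h2 := lr4_pow W ht n
    have h3 := W.ge_mul h1.1 h2.1
    have h4 := W.ini_mul h1.1 h2.1
    rw [add_zero] at h3 h4
    exact ⟨h3, by rw [h4, h1.2, h2.2]⟩

theorem pol_lt (W : AC F K1) (φ : N →+* F) (ψ : N →+* K1) (h : ∀ z : N, z ≠ 0 → W.v (φ z) = 0)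
    (h' : ∀ z : N, W.lc (φ z) = ψ z) {P0 : N[X]} (hm : P0.Monic) {t : F} (ht : t ≠ 0)
    (hv : W.v t < 0) : P0.eval₂ φ t ≠ 0 ∧ W.v (P0.eval₂ φ t) = P0.natDegree * W.v t ∧
      W.lc (P0.eval₂ φ t) = W.lc t ^ P0.natDegree := by
  have e : P0.eval₂ φ t = t ^ P0.natDegree + P0.eraseLead.eval₂ φ t := by
    conv_lhs => rw [← P0.eraseLead_add_monomial_natDegree_leadingCoeff]
    rw [Polynomial.eval₂_add, Polynomial.eval₂_monomial, hm.leadingCoeff, map_one, one_mul, add_comm]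
  have hr : P0.eraseLead.eval₂ φ t = 0 ∨ W.v (t ^ P0.natDegree) < W.v (P0.eraseLead.eval₂ φ t) := by
    rcases Polynomial.eraseLead_natDegree_lt_or_eraseLead_eq_zero P0 with h1 | h1
    · have h2 : W.ge (((P0.natDegree : ℚ) - 1) * W.v t) (P0.eraseLead.eval₂ φ t) := by
        rw [Polynomial.eval₂_eq_sum_range]
        refine W.ge_sum _ _ fun j hj => ?_
        have hj' : (j : ℚ) ≤ (P0.natDegree : ℚ) - 1 := by
          have h3 : j + 1 ≤ P0.natDegree := by
            have := Finset.mem_range.1 hj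
            omega
          have h4 : ((j + 1 : ℕ) : ℚ) ≤ (P0.natDegree : ℚ) := by exact_mod_cast h3
          push_cast at h4
          linarith
        have h5 : W.ge (j * W.v t) (t ^ j) := by
          rw [← lr4_pow_v W ht j]
          exact W.ge_self _
        have h6 := W.ge_mul (lr4_coef W φ ψ h h' (P0.eraseLead.coeff j)).1 h5
        refine W.ge_mono ?_ h6
        rw [zero_add]
        exact mul_le_mul_of_nonpos_right hj' hv.le
      rcases h2 with h2 | h2
      · exact Or.inl h2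
      · right
        rw [lr4_pow_v W ht]
        refine lt_of_lt_of_le ?_ h2
        have : ((P0.natDegree : ℚ) - 1) * W.v t = P0.natDegree * W.v t - W.v t := by ring
        rw [this]
        linarith
    · left
      rw [h1, Polynomial.eval₂_zero]
  obtain ⟨h1, h2, h3⟩ := W.add_lt (pow_ne_zero P0.natDegree ht) hr
  rw [e]
  exact ⟨h1, by rw [h2, lr4_pow_v W ht], by rw [h3, map_pow]⟩

end

section
variable {L N : Type u} [Field L] [Field N] {V : AC L N} {i : N →+* L} {P0 : N[X]}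

private theorem lr4_not_ge {V : AC L N} {q : ℚ} {c : L} (h : ¬ V.ge q c) : c ≠ 0 ∧ V.v c < q := by
  refine ⟨fun hc => h (Or.inl hc), ?_⟩
  by_contra h1
  exact h (Or.inr (not_lt.1 h1))

theorem p_ge (hB : LB V i P0) {c : L} (hc : V.ge 0 c) : (P0.map i).eval c ≠ 0 ∧
    V.v ((P0.map i).eval c) = 0 ∧ V.lc ((P0.map i).eval c) = P0.eval (V.ini 0 c) := by
  have h1 := (pol_ge V i (RingHom.id N) hB.hv (fun z => hB.hl z) P0 hc).2
  have h2 : P0.eval₂ (RingHom.id N) (V.ini 0 c) = P0.eval (V.ini 0 c) := rfl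
  rw [h2] at h1
  have h3 : V.ini 0 (P0.eval₂ i c) ≠ 0 := by
    rw [h1]
    exact hB.nr _
  have h4 := V.of_ini_ne h3
  rw [Polynomial.eval_map]
  exact ⟨h4.1, h4.2.1, h4.2.2.trans h1⟩

theorem p_lt (hB : LB V i P0) {c : L} (hc : c ≠ 0) (h : V.v c < 0) : (P0.map i).eval c ≠ 0 ∧
    V.v ((P0.map i).eval c) = P0.natDegree * V.v c ∧
      V.lc ((P0.map i).eval c) = V.lc c ^ P0.natDegree := by
  rw [Polynomial.eval_map]
  exact pol_lt V i (RingHom.id N) hB.hv (fun z => hB.hl z) hB.mon hc h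

theorem p_ne (hB : LB V i P0) (c : L) : (P0.map i).eval c ≠ 0 := by
  by_cases h : V.ge 0 c
  · exact (p_ge hB h).1
  · exact (p_lt hB (lr4_not_ge h).1 (lr4_not_ge h).2).1

private theorem lr4_alg (i : N →+* L) (P0 : N[X]) : algebraMap L[X] (RatFunc L) (P0.map i) =
    P0.eval₂ ((algebraMap L[X] (RatFunc L)).comp ((Polynomial.C : L →+* L[X]).comp i)) (pt 0) := by
  have h1 : (pt 0 : RatFunc L) = algebraMap L[X] (RatFunc L) Polynomial.X := by
    rw [pt, Polynomial.C_0, sub_zero]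
  rw [h1, ← Polynomial.hom_eval₂]
  rfl

private theorem lr4_v (hB : LB V i P0) {c : L} {q : ℚ} {W : AC (RatFunc L) (RatFunc N)}
    (hD : DP V c q W) (z : N) (hz : z ≠ 0) :
    W.v ((algebraMap L[X] (RatFunc L)).comp ((Polynomial.C : L →+* L[X]).comp i) z) = 0 := by
  have h1 : i z ≠ 0 := fun h => hz (i.injective (by rw [h, map_zero]))
  have h2 := hD.cv (i z) h1
  rw [hB.hv z hz] at h2
  exact h2

private theorem lr4_lc (hB : LB V i P0) {c : L} {q : ℚ} {W : AC (RatFunc L) (RatFunc N)}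
    (hD : DP V c q W) (z : N) :
    W.lc ((algebraMap L[X] (RatFunc L)).comp ((Polynomial.C : L →+* L[X]).comp i) z) =
      (algebraMap N[X] (RatFunc N)).comp (Polynomial.C : N →+* N[X]) z := by
  have h2 := hD.cl (i z)
  rw [hB.hl z] at h2
  exact h2

private theorem lr4_nv {c : L} {q : ℚ} {W : AC (RatFunc L) (RatFunc N)}
    (hD : DP V c q W) (h : V.ge q c) : W.v (pt 0) = q ∧ W.lc (pt 0) = pt (- V.ini q c) := by
  have h1 : V.ge q (0 - c) := by
    rw [zero_sub]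
    exact V.ge_neg h
  refine ⟨hD.nv 0 h1, ?_⟩
  rw [hD.nl 0 h1, zero_sub, V.ini_neg]

private theorem lr4_fv {c : L} {q : ℚ} {W : AC (RatFunc L) (RatFunc N)}
    (hD : DP V c q W) (h : ¬ V.ge q c) : W.v (pt 0) = V.v c ∧
      W.lc (pt 0) = algebraMap N[X] (RatFunc N) (C (V.lc c)) := by
  have h1 : ¬ V.ge q (0 - c) := by
    intro h2
    apply h
    have h3 := V.ge_neg h2
    rwa [zero_sub, neg_neg] at h3
  refine ⟨?_, ?_⟩
  · rw [hD.fv 0 h1, zero_sub, V.v_neg]
  · rw [hD.fl 0 h1, sub_zero]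

private theorem lr4_evC (P0 : N[X]) (y : N[X]) :
    P0.eval₂ ((algebraMap N[X] (RatFunc N)).comp (Polynomial.C : N →+* N[X]))
      (algebraMap N[X] (RatFunc N) y) = algebraMap N[X] (RatFunc N) (P0.comp y) := by
  rw [← Polynomial.hom_eval₂]
  rfl

theorem p_sg (hB : LB V i P0) {c : L} {q : ℚ} {W : AC (RatFunc L) (RatFunc N)}
    (hD : DP V c q W) (h : Sg V c q) :
    W.v (algebraMap L[X] (RatFunc L) (P0.map i)) = V.v ((P0.map i).eval c) ∧
      W.lc (algebraMap L[X] (RatFunc L) (P0.map i)) =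
        algebraMap N[X] (RatFunc N) (C (V.lc ((P0.map i).eval c))) := by
  by_cases hc : V.ge 0 c
  · obtain ⟨-, h2, h3⟩ := p_ge hB hc
    have h4 : W.ge 0 (pt 0) ∧ W.ini 0 (pt 0) = algebraMap N[X] (RatFunc N) (C (V.ini 0 c)) := by
      by_cases hq : V.ge q c
      · obtain ⟨h5, -⟩ := lr4_nv hD hq
        have hq0 : 0 < q := by
          rcases h with h6 | h6
          · exact h6
          · rcases hq with h7 | h7
            · exact absurd h7 h6.1
            · exact absurd h6.2 (not_lt.2 h7)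
        have h6 : W.ge q (pt 0) := Or.inr h5.ge
        refine ⟨W.ge_mono hq0.le h6, ?_⟩
        rw [W.ini_of_lt hq0 h6, V.ini_of_lt hq0 hq, Polynomial.C_0, map_zero]
      · obtain ⟨h5, h6⟩ := lr4_fv hD hq
        have hc1 := lr4_not_ge hq
        have h7 : 0 ≤ V.v c := hc.resolve_left hc1.1
        refine ⟨Or.inr (by rw [h5]; exact h7), ?_⟩
        rcases h7.eq_or_lt with h8 | h8
        · have h9 := W.ini_self (pt 0)
          have h10 := V.ini_self c
          rw [h5, ← h8] at h9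
          rw [← h8] at h10
          rw [h9, h10, h6]
        · have h9 : W.ge (V.v c) (pt 0) := Or.inr h5.ge
          rw [W.ini_of_lt h8 h9, V.ini_of_lt h8 (V.ge_self c), Polynomial.C_0, map_zero]
    have h5 := (pol_ge W _ _ (lr4_v hB hD) (lr4_lc hB hD) P0 h4.1).2
    rw [← lr4_alg, h4.2, lr4_evC, Polynomial.comp_C] at h5
    have h6 : W.ini 0 (algebraMap L[X] (RatFunc L) (P0.map i)) ≠ 0 := by
      rw [h5]
      exact RatFunc.algebraMap_ne_zero (Polynomial.C_ne_zero.2 (hB.nr _))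
    obtain ⟨-, h7, h8⟩ := W.of_ini_ne h6
    exact ⟨by rw [h7, h2], by rw [h8, h5, h3]⟩
  · obtain ⟨hc0, hc1⟩ := lr4_not_ge hc
    obtain ⟨-, h2, h3⟩ := p_lt hB hc0 hc1
    have hq : ¬ V.ge q c := by
      intro hq
      have h4 : q ≤ V.v c := hq.resolve_left hc0
      rcases h with h5 | h5
      · linarith
      · linarith [h5.2]
    obtain ⟨h5, h6⟩ := lr4_fv hD hq
    obtain ⟨-, h7, h8⟩ := pol_lt W _ _ (lr4_v hB hD) (lr4_lc hB hD) hB.mon (pt_ne (0 : L))
      (by rw [h5]; exact hc1)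
    rw [← lr4_alg] at h7 h8
    refine ⟨by rw [h7, h2, h5], ?_⟩
    rw [h8, h3, h6, Polynomial.C_pow, map_pow]

theorem p_zero (hB : LB V i P0) {c : L} {W : AC (RatFunc L) (RatFunc N)}
    (hD : DP V c 0 W) (h : V.ge 0 c) :
    W.v (algebraMap L[X] (RatFunc L) (P0.map i)) = 0 ∧
      W.lc (algebraMap L[X] (RatFunc L) (P0.map i)) =
        algebraMap N[X] (RatFunc N) (P0.comp (Polynomial.X + C (V.ini 0 c))) := by
  obtain ⟨h1, h2⟩ := lr4_nv hD h
  have h3 : W.ge 0 (pt 0) := Or.inr h1.ge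
  have h4 : W.ini 0 (pt 0) = algebraMap N[X] (RatFunc N) (Polynomial.X + C (V.ini 0 c)) := by
    have h5 := W.ini_self (pt 0)
    rw [h1, h2] at h5
    rw [h5, pt, Polynomial.C_neg, sub_neg_eq_add]
  have h5 := (pol_ge W _ _ (lr4_v hB hD) (lr4_lc hB hD) P0 h3).2
  rw [← lr4_alg, h4, lr4_evC] at h5
  have h6 : W.ini 0 (algebraMap L[X] (RatFunc L) (P0.map i)) ≠ 0 := by
    rw [h5]
    exact RatFunc.algebraMap_ne_zero (hB.mon.comp_X_add_C _).ne_zero
  obtain ⟨-, h7, h8⟩ := W.of_ini_ne h6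
  exact ⟨h7, h8.trans h5⟩

theorem p_neg (hB : LB V i P0) {c : L} {q : ℚ} {W : AC (RatFunc L) (RatFunc N)}
    (hD : DP V c q W) (hq : q < 0) (h : V.ge q c) :
    W.v (algebraMap L[X] (RatFunc L) (P0.map i)) = P0.natDegree * q ∧
      W.lc (algebraMap L[X] (RatFunc L) (P0.map i)) = pt (- V.ini q c) ^ P0.natDegree := by
  obtain ⟨h1, h2⟩ := lr4_nv hD h
  obtain ⟨-, h7, h8⟩ := pol_lt W _ _ (lr4_v hB hD) (lr4_lc hB hD) hB.mon (pt_ne (0 : L))
    (by rw [h1]; exact hq)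
  rw [← lr4_alg] at h7 h8
  exact ⟨by rw [h7, h1], by rw [h8, h2]⟩

/-- `P` at the direction `0` of a disc whose interior contains no root of `P` -/
theorem p_gd (hB : LB V i P0) {c : L} {q : ℚ} {W : AC (RatFunc L) (RatFunc N)}
    (hD : DP V c q W) (h : Gd V c q) {U : AC (RatFunc N) N} (hU : IsAt 0 U) :
    W.v (algebraMap L[X] (RatFunc L) (P0.map i)) = V.v ((P0.map i).eval c) ∧
      U.v (W.lc (algebraMap L[X] (RatFunc L) (P0.map i))) = 0 ∧
      U.lc (W.lc (algebraMap L[X] (RatFunc L) (P0.map i))) = V.lc ((P0.map i).eval c) := by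
  by_cases hS : Sg V c q
  · obtain ⟨h1, h2⟩ := p_sg hB hD hS
    obtain ⟨h3, h4⟩ := at_C hU (V.lc_ne (p_ne hB c))
    exact ⟨h1, by rw [h2, h3], by rw [h2, h4]⟩
  have hq0 : q ≤ 0 := not_lt.1 fun h1 => hS (Or.inl h1)
  have hge : V.ge q c := by
    by_contra h1
    exact hS (Or.inr (lr4_not_ge h1))
  rcases hq0.eq_or_lt with hq | hq
  · subst hq
    obtain ⟨h1, h2⟩ := p_zero hB hD hge
    obtain ⟨-, h3, h4⟩ := p_ge hB hge
    have h5 : (P0.comp (Polynomial.X + C (V.ini 0 c))).eval 0 = P0.eval (V.ini 0 c) := by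
      rw [Polynomial.eval_comp, Polynomial.eval_add, Polynomial.eval_X, Polynomial.eval_C, zero_add]
    obtain ⟨h6, h7⟩ := at_pol hU (Q := P0.comp (Polynomial.X + C (V.ini 0 c)))
      (by rw [h5]; exact hB.nr _)
    exact ⟨by rw [h1, h3], by rw [h2, h6], by rw [h2, h7, h5, h4]⟩
  · obtain ⟨hc, hvc⟩ : c ≠ 0 ∧ V.v c ≤ q := by
      rcases h with h1 | h1
      · exact absurd hq (not_lt.2 h1)
      · exact h1
    have hv : V.v c = q := le_antisymm hvc (hge.resolve_left hc)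
    obtain ⟨h1, h2⟩ := p_neg hB hD hq hge
    obtain ⟨-, h3, h4⟩ := p_lt hB hc (by rw [hv]; exact hq)
    have h5 : V.ini q c = V.lc c := by rw [← hv, V.ini_self]
    have h6 : - V.lc c ≠ 0 := neg_ne_zero.2 (V.lc_ne hc)
    obtain ⟨h7, h8⟩ := at_pt hU (- V.lc c)
    rw [if_neg h6] at h7 h8
    rw [h5] at h2
    refine ⟨by rw [h1, h3, hv], ?_, ?_⟩
    · rw [h2, lr4_pow_v U (pt_ne _), h7, mul_zero]
    · rw [h2, map_pow, h8, zero_sub, neg_neg, h4]

end

end GD3
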