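import Pool.Agent.GD3.Lr1
import Pool.Agent.GD3.Lr2
import Pool.Agent.GD3.Lr4

set_option autoImplicit false

/-!
# GD3-Lr5: directions at a closed disc

The places `W` and `W'` of the same closed disc, with the centres `c` and `c + z`: the direction `V.ini q z` for `W` is the direction `0` for `W'`.
The values and the leading coefficients agree on the generators of the group of smooth elements: constants, the primes `T - a`, and `P`.
-/

noncomputable section

open Polynomial TensorProduct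
open scoped Classical

namespace GD3

open Helper14.Gon Helper14.W4 QPL TGF

universe u

section
variable {L N : Type u} [Field L] [Field N] {V : AC L N} {i : N →+* L} {P0 : N[X]}
  {VN : N → AC (RatFunc N) N} {A : Finset L}

/-- the two composite places agree at `x` -/
private def Lr5T (W W' : AC (RatFunc L) (RatFunc N)) (U U' : AC (RatFunc N) N) (x : RatFunc L) : Prop :=
  W'.v x = W.v x ∧ U'.v (W'.lc x) = U.v (W.lc x) ∧ U'.lc (W'.lc x) = U.lc (W.lc x)

private theorem lr5_pow (U : AC (RatFunc N) N) {x : RatFunc N} (hx : x ≠ 0) (d : ℕ) : U.v (x ^ d) = d * U.v x := by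
  induction d with
  | zero => rw [pow_zero, U.v_one, Nat.cast_zero, zero_mul]
  | succ d ih =>
    rw [pow_succ, U.v_mul (pow_ne_zero d hx) hx, ih]
    push_cast
    ring

private theorem lr5_lt {c z : L} {q : ℚ} (hz : V.ge q z) (hc : c ≠ 0) (h : V.v c < q) :
    c + z ≠ 0 ∧ V.v (c + z) = V.v c ∧ V.lc (c + z) = V.lc c :=
  V.add_lt hc (hz.imp id fun h1 => lt_of_lt_of_le h h1)

private theorem lr5_const {U U' : AC (RatFunc N) N} {b : N} (hU : IsAt b U) (hU' : IsAt 0 U')
    {W W' : AC (RatFunc L) (RatFunc N)} {x : RatFunc L} {l : N} (hl : l ≠ 0) (h0 : W'.v x = W.v x)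
    (h1 : W.lc x = algebraMap N[X] (RatFunc N) (C l)) (h2 : W'.lc x = algebraMap N[X] (RatFunc N) (C l)) : Lr5T W W' U U' x := by
  refine ⟨h0, ?_, ?_⟩
  · rw [h1, h2, (at_C hU hl).1, (at_C hU' hl).1]
  · rw [h1, h2, (at_C hU hl).2, (at_C hU' hl).2]

private theorem lr5_C {U U' : AC (RatFunc N) N} {c z : L} {q : ℚ} {b : N} (hU : IsAt b U) (hU' : IsAt 0 U')
    {W W' : AC (RatFunc L) (RatFunc N)} (hD : DP V c q W) (hD' : DP V (c + z) q W') {x : L} (hx : x ≠ 0) :
    Lr5T W W' U U' (algebraMap L[X] (RatFunc L) (C x)) :=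
  lr5_const hU hU' (V.lc_ne hx) (by rw [hD.cv x hx, hD'.cv x hx]) (hD.cl x) (hD'.cl x)

private theorem lr5_pt {U U' : AC (RatFunc N) N} {c z : L} {q : ℚ} (hU : IsAt (V.ini q z) U) (hU' : IsAt 0 U')
    {W W' : AC (RatFunc L) (RatFunc N)} (hD : DP V c q W) (hD' : DP V (c + z) q W') (hz : V.ge q z) (a : L) :
    Lr5T W W' U U' (pt a) := by
  have e : a - (c + z) = (a - c) + (-z) := by ring
  by_cases h : V.ge q (a - c)
  · have h' : V.ge q (a - (c + z)) := by
      rw [e]
      exact V.ge_add h (V.ge_neg hz)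
    have h3 : V.ini q (a - (c + z)) = V.ini q (a - c) - V.ini q z := by
      rw [e, V.ini_add h (V.ge_neg hz), V.ini_neg]
      ring
    refine ⟨by rw [hD.nv a h, hD'.nv a h'], ?_, ?_⟩
    · rw [hD.nl a h, hD'.nl a h', (at_pt hU _).1, (at_pt hU' _).1, h3]
      simp only [sub_eq_zero]
    · rw [hD.nl a h, hD'.nl a h', (at_pt hU _).2, (at_pt hU' _).2, h3]
      simp only [sub_eq_zero]
      split_ifs
      · rfl
      · ring
  · have h1 : a - c ≠ 0 := fun h2 => h (Or.inl h2)
    have h2 : V.v (a - c) < q := by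
      by_contra h3
      exact h (Or.inr (not_lt.1 h3))
    obtain ⟨k1, k2, k3⟩ := lr5_lt (V.ge_neg hz) h1 h2
    rw [← e] at k1 k2 k3
    have h' : ¬ V.ge q (a - (c + z)) := by
      rintro (h4 | h4)
      · exact k1 h4
      · rw [k2] at h4
        linarith
    have h5 : V.lc (c + z - a) = V.lc (c - a) := by
      have e1 : c + z - a = -(a - (c + z)) := by ring
      have e2 : c - a = -(a - c) := by ring
      rw [e1, e2, V.lc_neg, V.lc_neg, k3]
    have h6 : c - a ≠ 0 := by
      intro h7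
      apply h1
      rw [sub_eq_zero] at h7 ⊢
      exact h7.symm
    refine lr5_const hU hU' (V.lc_ne h6) ?_ (hD.fl a h) ?_
    · rw [hD.fv a h, hD'.fv a h', k2]
    · rw [hD'.fl a h', h5]

private theorem lr5_sg (hB : LB V i P0) {c z : L} {q : ℚ} (hz : V.ge q z) (h : Sg V c q) :
    Sg V (c + z) q ∧ V.v ((P0.map i).eval (c + z)) = V.v ((P0.map i).eval c) ∧
      V.lc ((P0.map i).eval (c + z)) = V.lc ((P0.map i).eval c) := by
  by_cases h0 : V.ge 0 c
  · have hq : 0 < q := by
      rcases h with h1 | ⟨h1, h2⟩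
      · exact h1
      · rcases h0 with h3 | h3
        · exact absurd h3 h1
        · linarith
    have hz0 := V.ge_mono hq.le hz
    have h1 := V.ge_add h0 hz0
    have h2 : V.ini 0 (c + z) = V.ini 0 c := by
      rw [V.ini_add h0 hz0, V.ini_of_lt hq hz, add_zero]
    refine ⟨Or.inl hq, ?_, ?_⟩
    · rw [(p_ge hB h0).2.1, (p_ge hB h1).2.1]
    · rw [(p_ge hB h0).2.2, (p_ge hB h1).2.2, h2]
  · have hc : c ≠ 0 := fun h1 => h0 (Or.inl h1)
    have hv : V.v c < 0 := by
      by_contra h3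
      exact h0 (Or.inr (not_lt.1 h3))
    have hq : V.v c < q := by
      rcases h with h1 | ⟨-, h2⟩
      · linarith
      · exact h2
    obtain ⟨k1, k2, k3⟩ := lr5_lt hz hc hq
    refine ⟨Or.inr ⟨k1, by rw [k2]; exact hq⟩, ?_, ?_⟩
    · rw [(p_lt hB hc hv).2.1, (p_lt hB k1 (by rw [k2]; exact hv)).2.1, k2]
    · rw [(p_lt hB hc hv).2.2, (p_lt hB k1 (by rw [k2]; exact hv)).2.2, k3]

private theorem lr5_P (hB : LB V i P0) {U U' : AC (RatFunc N) N} {c z : L} {q : ℚ} (hU : IsAt (V.ini q z) U) (hU' : IsAt 0 U')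
    {W W' : AC (RatFunc L) (RatFunc N)} (hD : DP V c q W) (hD' : DP V (c + z) q W') (hz : V.ge q z) :
    Lr5T W W' U U' (algebraMap L[X] (RatFunc L) (P0.map i)) := by
  by_cases h : Sg V c q
  · obtain ⟨k1, k2, k3⟩ := lr5_sg hB hz h
    have h1 := p_sg hB hD h
    have h2 := p_sg hB hD' k1
    refine lr5_const hU hU' (V.lc_ne (p_ne hB c)) ?_ h1.2 ?_
    · rw [h1.1, h2.1, k2]
    · rw [h2.2, k3]
  · have hq : q ≤ 0 := by
      by_contra h1
      exact h (Or.inl (not_le.1 h1))
    have hc : V.ge q c := by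
      by_cases h1 : c = 0
      · exact Or.inl h1
      · right
        by_contra h2
        exact h (Or.inr ⟨h1, not_le.1 h2⟩)
    have hcz := V.ge_add hc hz
    have hi := V.ini_add hc hz
    rcases hq.lt_or_eq with h0 | h0
    · have h1 := p_neg hB hD h0 hc
      have h2 := p_neg hB hD' h0 hcz
      refine ⟨by rw [h1.1, h2.1], ?_, ?_⟩
      · rw [h1.2, h2.2, lr5_pow _ (pt_ne _), lr5_pow _ (pt_ne _), (at_pt hU _).1, (at_pt hU' _).1, hi]
        have e : (-(V.ini q c + V.ini q z) = 0) ↔ (-V.ini q c = V.ini q z) := by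
          constructor
          · intro h3
            linear_combination h3
          · intro h3
            linear_combination h3
        simp only [e]
      · rw [h1.2, h2.2, map_pow, map_pow, (at_pt hU _).2, (at_pt hU' _).2, hi]
        have e : (-(V.ini q c + V.ini q z) = 0) ↔ (-V.ini q c = V.ini q z) := by
          constructor
          · intro h3
            linear_combination h3
          · intro h3
            linear_combination h3
        simp only [e]
        congr 1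
        split_ifs
        · rfl
        · ring
    · subst h0
      have h1 := p_zero hB hD hc
      have h2 := p_zero hB hD' hcz
      have e1 : (P0.comp (Polynomial.X + C (V.ini 0 c))).eval (V.ini 0 z) = P0.eval (V.ini 0 c + V.ini 0 z) := by
        rw [eval_comp, eval_add, eval_X, eval_C, add_comm]
      have e2 : (P0.comp (Polynomial.X + C (V.ini 0 (c + z)))).eval 0 = P0.eval (V.ini 0 c + V.ini 0 z) := by
        rw [eval_comp, eval_add, eval_X, eval_C, hi, zero_add]
      have n1 : (P0.comp (Polynomial.X + C (V.ini 0 c))).eval (V.ini 0 z) ≠ 0 := by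
        rw [e1]
        exact hB.nr _
      have n2 : (P0.comp (Polynomial.X + C (V.ini 0 (c + z)))).eval 0 ≠ 0 := by
        rw [e2]
        exact hB.nr _
      refine ⟨by rw [h1.1, h2.1], ?_, ?_⟩
      · rw [h1.2, h2.2, (at_pol hU n1).1, (at_pol hU' n2).1]
      · rw [h1.2, h2.2, (at_pol hU n1).2, (at_pol hU' n2).2, e1, e2]

theorem dir (hB : LB V i P0) (hVN : ∀ b, IsAt b (VN b)) {c z : L} {q : ℚ}
    {W W' : AC (RatFunc L) (RatFunc N)} (hD : DP V c q W) (hD' : DP V (c + z) q W')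
    (hz : V.ge q z) {y : X 1 (RatFunc L)} (hy : y ∈ Lv 1 (PS A (P0.map i))) :
    reX (VN 0) 0 (spX W' 1 y) = reX (VN (V.ini q z)) 0 (spX W 1 y) := by
  have hU := hVN (V.ini q z)
  have hU' := hVN 0
  have kC : ∀ x : L, x ≠ 0 → Lr5T W W' (VN (V.ini q z)) (VN 0) (algebraMap L[X] (RatFunc L) (C x)) :=
    fun x hx => lr5_C hU hU' hD hD' hx
  have kA : ∀ a ∈ A, Lr5T W W' (VN (V.ini q z)) (VN 0) (pt a) := fun a _ => lr5_pt hU hU' hD hD' hz a
  have kP := lr5_P hB hU hU' hD hD' hz
  have nC : ∀ x : L, x ≠ 0 → algebraMap L[X] (RatFunc L) (C x) ≠ 0 := fun x hx =>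
    RatFunc.algebraMap_ne_zero (C_ne_zero.2 hx)
  have nP : algebraMap L[X] (RatFunc L) (P0.map i) ≠ 0 := RatFunc.algebraMap_ne_zero (hB.mon.map i).ne_zero
  have t1 : ∀ x : RatFunc L, x ≠ 0 → Lr5T W W' (VN (V.ini q z)) (VN 0) x → W'.vH (lg x) = W.vH (lg x) := by
    intro x hx h
    rw [TGF.vH_lg W' hx, TGF.vH_lg W hx, h.1]
  have t2 : ∀ x : RatFunc L, x ≠ 0 → Lr5T W W' (VN (V.ini q z)) (VN 0) x →
      ((VN 0).vH.comp W'.lH) (lg x) = ((VN (V.ini q z)).vH.comp W.lH) (lg x) := by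
    intro x hx h
    rw [AddMonoidHom.comp_apply, AddMonoidHom.comp_apply, TGF.lH_lg W' hx, TGF.lH_lg W hx, TGF.vH_lg _ (W'.lc_ne hx),
      TGF.vH_lg _ (W.lc_ne hx), h.2.1]
  have t3 : ∀ x : RatFunc L, x ≠ 0 → Lr5T W W' (VN (V.ini q z)) (VN 0) x →
      ((VN 0).lH.comp W'.lH) (lg x) = ((VN (V.ini q z)).lH.comp W.lH) (lg x) := by
    intro x hx h
    rw [AddMonoidHom.comp_apply, AddMonoidHom.comp_apply, TGF.lH_lg W' hx, TGF.lH_lg W hx, TGF.lH_lg _ (W'.lc_ne hx),
      TGF.lH_lg _ (W.lc_ne hx), h.2.2]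
  have s1 := sg_ext (A := A) (P := P0.map i) W'.vH W.vH (fun x hx => t1 _ (nC x hx) (kC x hx))
    (fun a ha => t1 _ (pt_ne a) (kA a ha)) (t1 _ nP kP)
  have s2 := sg_ext (A := A) (P := P0.map i) ((VN 0).vH.comp W'.lH) ((VN (V.ini q z)).vH.comp W.lH)
    (fun x hx => t2 _ (nC x hx) (kC x hx)) (fun a ha => t2 _ (pt_ne a) (kA a ha)) (t2 _ nP kP)
  have s3 := sg_ext (A := A) (P := P0.map i) ((VN 0).lH.comp W'.lH) ((VN (V.ini q z)).lH.comp W.lH)
    (fun x hx => t3 _ (nC x hx) (kC x hx)) (fun a ha => t3 _ (pt_ne a) (kA a ha)) (t3 _ nP kP)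
  have h := cmp_aa (W := W) (U := VN (V.ini q z)) (W' := W') (U' := VN 0) (S := PS A (P0.map i)) 0 1 one_ne_zero
    (fun g hg => by rw [s1 g hg]; ring)
    (fun g hg => by
      have h4 := s2 g hg
      rw [AddMonoidHom.comp_apply, AddMonoidHom.comp_apply] at h4
      rw [h4, one_mul])
    (fun g hg => by
      have h4 := s3 g hg
      rw [AddMonoidHom.comp_apply, AddMonoidHom.comp_apply] at h4
      exact h4) hy
  rw [h, one_smul]

end

end GD3
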