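import Pool.Agent.GD3.Lr1
import Pool.Agent.GD3.Lr2
import Pool.Agent.GD3.Lr4

set_option autoImplicit false

/-!
# GD3-Lr6: the two ends of an annulus

PLAN.  cmp_aa (Lr1) with (W, VN 0), (W', VN'), r = q' - q, e = -1; h1, h2, h3 by sg_ext (Lr2) on the generators (vH_lg, lH_lg).
C z: value V.v z for both, leading coefficient C (V.lc z): at_C, inf_C.
pt a with V.ge q' (a - c): then V.ge q (a - c), V.ini q (a - c) = 0 (AC.ini_of_lt): W: value q, pt 0 at 0: value 1, leading coefficient 1 (at_pt); W': value q', pt β at infinity: value -1, leading coefficient 1 (inf_pt); q' = q + (q' - q) * 1.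
pt a with a ≠ c, V.v (a - c) ≤ q: W': value V.v (a - c), constant V.lc (c - a), inf_C.  W: if V.v (a - c) < q: the same, at_C; if V.v (a - c) = q: value q, pt (V.lc (a - c)) at 0: value 0, leading coefficient 0 - V.lc (a - c) = V.lc (c - a) (at_pt; V.lc (a - c) ≠ 0, AC.lc_neg).
P: (1) Gd V c q: then Sg V c q' and p_gd (at 0 for W), p_sg and inf_C for W' (P(c) ≠ 0: p_ne): same value V.v P(c), same leading coefficient, U.vH = 0 on both sides.
(2) q' ≤ 0 and V.ge q' c: q < 0, V.ge q c and V.ini q c = 0: p_neg for W: value d q, pt (-0) ^ d: value d, leading coefficient 1 at 0.  W': if q' < 0 p_neg: value d q', pt (..) ^ d at infinity: value -d, leading coefficient 1 (inf_pt); if q' = 0 p_zero: value 0, P0.comp (X + C γ) monic of degree d (Monic.comp_X_add_C, natDegree_comp), inf_pol.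
Equation for W'.vH: d q' = d q + (q' - q) d.
-/

noncomputable section

open Polynomial TensorProduct
open scoped Classical

namespace GD3

open Helper14.Gon Helper14.W4 QPL TGF

universe u

section
variable {L N : Type u} [Field L] [Field N] {V : AC L N} {i : N →+* L} {P0 : N[X]}
  {VN : N → AC (RatFunc N) N} {VN' : AC (RatFunc N) N} {A : Finset L}

/-- the relation between the two places on one element -/
private def AG (W W' : AC (RatFunc L) (RatFunc N)) (U U' : AC (RatFunc N) N) (r : ℚ)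
    (x : RatFunc L) : Prop :=
  W'.v x = W.v x + r * U.v (W.lc x) ∧ U'.v (W'.lc x) = - U.v (W.lc x) ∧
    U'.lc (W'.lc x) = U.lc (W.lc x)

private lemma ann_v_pow (U : AC (RatFunc N) N) {x : RatFunc N} (hx : x ≠ 0) (n : ℕ) :
    U.v (x ^ n) = n * U.v x := by
  induction n with
  | zero => rw [pow_zero, AC.v_one, Nat.cast_zero, zero_mul]
  | succ n ih =>
    rw [pow_succ, U.v_mul (pow_ne_zero n hx) hx, ih, Nat.cast_succ, add_mul, one_mul]

private lemma ann_C {c : L} {q q' : ℚ} {W W' : AC (RatFunc L) (RatFunc N)}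
    (hD : DP V c q W) (hD' : DP V c q' W') {U U' : AC (RatFunc N) N} (hU : IsAt 0 U)
    (hU' : IsInf U') {z : L} (hz : z ≠ 0) :
    AG W W' U U' (q' - q) (algebraMap L[X] (RatFunc L) (C z)) := by
  have h1 := at_C hU (V.lc_ne hz)
  have h2 := inf_C hU' (V.lc_ne hz)
  refine ⟨?_, ?_, ?_⟩
  · rw [hD.cv z hz, hD'.cv z hz, hD.cl z, h1.1, mul_zero, add_zero]
  · rw [hD.cl z, hD'.cl z, h1.1, h2.1, neg_zero]
  · rw [hD.cl z, hD'.cl z, h1.2, h2.2]

private lemma ann_pt {c : L} {q q' : ℚ} (hq : q < q') {W W' : AC (RatFunc L) (RatFunc N)}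
    (hD : DP V c q W) (hD' : DP V c q' W') {U U' : AC (RatFunc N) N} (hU : IsAt 0 U)
    (hU' : IsInf U') {a : L} (ha : V.ge q' (a - c) ∨ (a ≠ c ∧ V.v (a - c) ≤ q)) :
    AG W W' U U' (q' - q) (pt a) := by
  by_cases h : V.ge q' (a - c)
  · have h0 : V.ge q (a - c) := AC.ge_mono V hq.le h
    have hi : V.ini q (a - c) = 0 := AC.ini_of_lt V hq h
    have h1 := at_pt hU (0 : N)
    rw [if_pos rfl, if_pos rfl] at h1
    have h2 := inf_pt hU' (V.ini q' (a - c))
    refine ⟨?_, ?_, ?_⟩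
    · rw [hD.nv a h0, hD'.nv a h, hD.nl a h0, hi, h1.1]
      ring
    · rw [hD.nl a h0, hD'.nl a h, hi, h1.1, h2.1]
    · rw [hD.nl a h0, hD'.nl a h, hi, h1.2, h2.2]
  · obtain ⟨hac, hv⟩ := ha.resolve_left h
    have hne : c - a ≠ 0 := sub_ne_zero.2 (Ne.symm hac)
    have hne' : a - c ≠ 0 := sub_ne_zero.2 hac
    have h2 := inf_C hU' (V.lc_ne hne)
    by_cases h0 : V.ge q (a - c)
    · have hvq : V.v (a - c) = q := le_antisymm hv (h0.resolve_left hne')
      have hi : V.ini q (a - c) = V.lc (a - c) := if_pos ⟨hne', hvq⟩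
      have hlne : V.lc (a - c) ≠ 0 := V.lc_ne hne'
      have h1 := at_pt hU (V.lc (a - c))
      rw [if_neg hlne, if_neg hlne] at h1
      have hl : V.lc (c - a) = 0 - V.lc (a - c) := by
        rw [← neg_sub a c, AC.lc_neg, zero_sub]
      refine ⟨?_, ?_, ?_⟩
      · rw [hD.nv a h0, hD'.fv a h, hD.nl a h0, hi, h1.1, hvq]
        ring
      · rw [hD.nl a h0, hD'.fl a h, hi, h1.1, h2.1, neg_zero]
      · rw [hD.nl a h0, hD'.fl a h, hi, h1.2, h2.2, hl]
    · have h1 := at_C hU (V.lc_ne hne)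
      refine ⟨?_, ?_, ?_⟩
      · rw [hD.fv a h0, hD'.fv a h, hD.fl a h0, h1.1, mul_zero, add_zero]
      · rw [hD.fl a h0, hD'.fl a h, h1.1, h2.1, neg_zero]
      · rw [hD.fl a h0, hD'.fl a h, h1.2, h2.2]

private lemma ann_P (hB : LB V i P0) {c : L} {q q' : ℚ} (hq : q < q')
    {W W' : AC (RatFunc L) (RatFunc N)}
    (hD : DP V c q W) (hD' : DP V c q' W') {U U' : AC (RatFunc N) N} (hU : IsAt 0 U)
    (hU' : IsInf U') (hP : Gd V c q ∨ (q' ≤ 0 ∧ V.ge q' c)) :
    AG W W' U U' (q' - q) (algebraMap L[X] (RatFunc L) (P0.map i)) := by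
  rcases hP with hG | ⟨hq0, hge⟩
  · have hS : Sg V c q' := by
      rcases hG with h | h
      · exact Or.inl (lt_of_le_of_lt h hq)
      · exact Or.inr ⟨h.1, lt_of_le_of_lt h.2 hq⟩
    have h1 := p_gd hB hD hG hU
    have h2 := p_sg hB hD' hS
    have h3 := inf_C hU' (V.lc_ne (p_ne hB c))
    refine ⟨?_, ?_, ?_⟩
    · rw [h1.1, h2.1, h1.2.1, mul_zero, add_zero]
    · rw [h2.2, h1.2.1, h3.1, neg_zero]
    · rw [h2.2, h1.2.2, h3.2]
  · have hqn : q < 0 := lt_of_lt_of_le hq hq0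
    have hge0 : V.ge q c := AC.ge_mono V hq.le hge
    have hi : V.ini q c = 0 := AC.ini_of_lt V hq hge
    have h1 := p_neg hB hD hqn hge0
    rw [hi, neg_zero] at h1
    have h2 := at_pt hU (0 : N)
    rw [if_pos rfl, if_pos rfl] at h2
    have e1 : U.v (W.lc (algebraMap L[X] (RatFunc L) (P0.map i))) = P0.natDegree := by
      rw [h1.2, ann_v_pow U (pt_ne 0), h2.1, mul_one]
    have e2 : U.lc (W.lc (algebraMap L[X] (RatFunc L) (P0.map i))) = 1 := by
      rw [h1.2, map_pow, h2.2, one_pow]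
    rcases lt_or_eq_of_le hq0 with hlt | heq
    · have h3 := p_neg hB hD' hlt hge
      have h4 := inf_pt hU' (- V.ini q' c)
      refine ⟨?_, ?_, ?_⟩
      · rw [h1.1, h3.1, e1]
        ring
      · rw [h3.2, ann_v_pow U' (pt_ne _), h4.1, e1]
        ring
      · rw [h3.2, map_pow, h4.2, one_pow, e2]
    · subst heq
      have h3 := p_zero hB hD' hge
      have hm : (P0.comp (Polynomial.X + C (V.ini 0 c))).Monic := hB.mon.comp_X_add_C _
      have hd : (P0.comp (Polynomial.X + C (V.ini 0 c))).natDegree = P0.natDegree := by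
        rw [natDegree_comp, natDegree_X_add_C, mul_one]
      have h4 := inf_pol hU' hm
      rw [hd] at h4
      refine ⟨?_, ?_, ?_⟩
      · rw [h1.1, h3.1, e1]
        ring
      · rw [h3.2, h4.1, e1]
      · rw [h3.2, h4.2, e2]

theorem ann (hB : LB V i P0) (hVN : ∀ b, IsAt b (VN b)) (hVN' : IsInf VN') {c : L} {q q' : ℚ}
    (hq : q < q') {W W' : AC (RatFunc L) (RatFunc N)} (hD : DP V c q W) (hD' : DP V c q' W')
    (hA : ∀ a ∈ A, V.ge q' (a - c) ∨ (a ≠ c ∧ V.v (a - c) ≤ q))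
    (hP : Gd V c q ∨ (q' ≤ 0 ∧ V.ge q' c))
    {y : X 1 (RatFunc L)} (hy : y ∈ Lv 1 (PS A (P0.map i))) :
    reX VN' 0 (spX W' 1 y) = - reX (VN 0) 0 (spX W 1 y) := by
  have hPne : (algebraMap L[X] (RatFunc L) (P0.map i)) ≠ 0 := by
    refine RatFunc.algebraMap_ne_zero ?_
    exact (hB.mon.map i).ne_zero
  have hCne : ∀ z : L, z ≠ 0 → (algebraMap L[X] (RatFunc L) (C z)) ≠ 0 := fun z hz =>
    RatFunc.algebraMap_ne_zero (C_ne_zero.2 hz)
  have gC : ∀ z : L, z ≠ 0 → AG W W' (VN 0) VN' (q' - q) (algebraMap L[X] (RatFunc L) (C z)) :=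
    fun z hz => ann_C hD hD' (hVN 0) hVN' hz
  have gA : ∀ a ∈ A, AG W W' (VN 0) VN' (q' - q) (pt a) := fun a ha =>
    ann_pt hq hD hD' (hVN 0) hVN' (hA a ha)
  have gP : AG W W' (VN 0) VN' (q' - q) (algebraMap L[X] (RatFunc L) (P0.map i)) :=
    ann_P hB hq hD hD' (hVN 0) hVN' hP
  have k1 : ∀ x : RatFunc L, x ≠ 0 → AG W W' (VN 0) VN' (q' - q) x →
      W'.vH (lg x) = (W.vH + (AddMonoidHom.mulLeft (q' - q)).comp ((VN 0).vH.comp W.lH)) (lg x) := by
    intro x hx h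
    rw [AddMonoidHom.add_apply, AddMonoidHom.comp_apply, AddMonoidHom.comp_apply,
      AddMonoidHom.coe_mulLeft, TGF.vH_lg W' hx, TGF.vH_lg W hx, TGF.lH_lg W hx,
      TGF.vH_lg (VN 0) (W.lc_ne hx)]
    exact h.1
  have k2 : ∀ x : RatFunc L, x ≠ 0 → AG W W' (VN 0) VN' (q' - q) x →
      (VN'.vH.comp W'.lH) (lg x) = (-((VN 0).vH.comp W.lH)) (lg x) := by
    intro x hx h
    rw [AddMonoidHom.neg_apply, AddMonoidHom.comp_apply, AddMonoidHom.comp_apply,
      TGF.lH_lg W' hx, TGF.lH_lg W hx, TGF.vH_lg VN' (W'.lc_ne hx), TGF.vH_lg (VN 0) (W.lc_ne hx)]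
    exact h.2.1
  have k3 : ∀ x : RatFunc L, x ≠ 0 → AG W W' (VN 0) VN' (q' - q) x →
      (VN'.lH.comp W'.lH) (lg x) = ((VN 0).lH.comp W.lH) (lg x) := by
    intro x hx h
    rw [AddMonoidHom.comp_apply, AddMonoidHom.comp_apply, TGF.lH_lg W' hx, TGF.lH_lg W hx,
      TGF.lH_lg VN' (W'.lc_ne hx), TGF.lH_lg (VN 0) (W.lc_ne hx), h.2.2]
  have h1 : ∀ g ∈ SG (PS A (P0.map i)), W'.vH g = W.vH g + (q' - q) * (VN 0).vH (W.lH g) :=
    fun g hg => sg_ext (W'.vH)
      (W.vH + (AddMonoidHom.mulLeft (q' - q)).comp ((VN 0).vH.comp W.lH))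
      (fun z hz => k1 _ (hCne z hz) (gC z hz)) (fun a ha => k1 _ (pt_ne a) (gA a ha))
      (k1 _ hPne gP) g hg
  have h2 : ∀ g ∈ SG (PS A (P0.map i)), VN'.vH (W'.lH g) = (-1) * (VN 0).vH (W.lH g) := by
    intro g hg
    have h := sg_ext (VN'.vH.comp W'.lH) (-((VN 0).vH.comp W.lH))
      (fun z hz => k2 _ (hCne z hz) (gC z hz)) (fun a ha => k2 _ (pt_ne a) (gA a ha))
      (k2 _ hPne gP) g hg
    rw [neg_one_mul]
    exact h
  have h3 : ∀ g ∈ SG (PS A (P0.map i)), VN'.lH (W'.lH g) = (VN 0).lH (W.lH g) :=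
    fun g hg => sg_ext (VN'.lH.comp W'.lH) ((VN 0).lH.comp W.lH)
      (fun z hz => k3 _ (hCne z hz) (gC z hz)) (fun a ha => k3 _ (pt_ne a) (gA a ha))
      (k3 _ hPne gP) g hg
  have h4 := cmp_aa (W := W) (U := VN 0) (W' := W') (U' := VN') (q' - q) (-1)
    (by norm_num) h1 h2 h3 hy
  rw [h4, neg_one_smul]

end

end GD3
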