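import Pool.Agent.GD3.Lr1
import Pool.Agent.GD3.Lr2
import Pool.Agent.GD3.Lr4
import Pool.Agent.TGF.Star2

set_option autoImplicit false

/-!
# GD3-Lr7: discs with one point

`lr7_cmp`: `cmp_ab` with hypotheses on the generators of the group of smooth elements.
`one`: the centre of a disc without other points and without roots of `P` in its interior.
`res_out`: there is no residue at the points outside `A`.
`one_inf`: the point at infinity and a disc containing all points of `A`.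
-/

noncomputable section

open Polynomial TensorProduct
open scoped Classical

namespace GD3

open Helper14.Gon Helper14.W4 QPL TGF

universe u

section
variable {L N : Type u} [Field L] [Field N] {V : AC L N} {i : N →+* L} {P0 : N[X]}
  {VN : N → AC (RatFunc N) N} {VN' : AC (RatFunc N) N} {VL : L → AC (RatFunc L) L}
  {VL' : AC (RatFunc L) L} {A : Finset L}

private lemma lr7_cmp {A : Finset L} {P : L[X]} (hP0 : P ≠ 0) {W : AC (RatFunc L) (RatFunc N)}
    {U : AC (RatFunc N) N} {W' : AC (RatFunc L) L} {U' : AC L N} (r : ℚ)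
    (hC : ∀ z : L, z ≠ 0 →
      W.v (algebraMap L[X] (RatFunc L) (C z)) = r * W'.v (algebraMap L[X] (RatFunc L) (C z)) +
        U'.v (W'.lc (algebraMap L[X] (RatFunc L) (C z))) ∧
      U.v (W.lc (algebraMap L[X] (RatFunc L) (C z))) =
        W'.v (algebraMap L[X] (RatFunc L) (C z)) ∧
      U.lc (W.lc (algebraMap L[X] (RatFunc L) (C z))) =
        U'.lc (W'.lc (algebraMap L[X] (RatFunc L) (C z))))
    (ha : ∀ a ∈ A, W.v (pt a) = r * W'.v (pt a) + U'.v (W'.lc (pt a)) ∧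
      U.v (W.lc (pt a)) = W'.v (pt a) ∧ U.lc (W.lc (pt a)) = U'.lc (W'.lc (pt a)))
    (hP : W.v (algebraMap L[X] (RatFunc L) P) = r * W'.v (algebraMap L[X] (RatFunc L) P) +
        U'.v (W'.lc (algebraMap L[X] (RatFunc L) P)) ∧
      U.v (W.lc (algebraMap L[X] (RatFunc L) P)) = W'.v (algebraMap L[X] (RatFunc L) P) ∧
      U.lc (W.lc (algebraMap L[X] (RatFunc L) P)) =
        U'.lc (W'.lc (algebraMap L[X] (RatFunc L) P)))
    {y : X 1 (RatFunc L)} (hy : y ∈ Lv 1 (PS A P)) :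
    reX U 0 (spX W 1 y) = spX U' 0 (reX W' 0 y) := by
  have key1 : ∀ x : RatFunc L, x ≠ 0 → W.v x = r * W'.v x + U'.v (W'.lc x) →
      W.vH (lg x) = ((AddMonoidHom.mulLeft r).comp W'.vH + U'.vH.comp W'.lH) (lg x) := by
    intro x hx h
    rw [AddMonoidHom.add_apply, AddMonoidHom.comp_apply, AddMonoidHom.comp_apply,
      AddMonoidHom.coe_mulLeft, TGF.vH_lg W hx, TGF.vH_lg W' hx, TGF.lH_lg W' hx,
      TGF.vH_lg U' (W'.lc_ne hx), h]
  have key2 : ∀ x : RatFunc L, x ≠ 0 → U.v (W.lc x) = W'.v x →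
      (U.vH.comp W.lH) (lg x) = W'.vH (lg x) := by
    intro x hx h
    rw [AddMonoidHom.comp_apply, TGF.lH_lg W hx, TGF.vH_lg U (W.lc_ne hx), TGF.vH_lg W' hx, h]
  have key3 : ∀ x : RatFunc L, x ≠ 0 → U.lc (W.lc x) = U'.lc (W'.lc x) →
      (U.lH.comp W.lH) (lg x) = (U'.lH.comp W'.lH) (lg x) := by
    intro x hx h
    rw [AddMonoidHom.comp_apply, AddMonoidHom.comp_apply, TGF.lH_lg W hx, TGF.lH_lg W' hx,
      TGF.lH_lg U (W.lc_ne hx), TGF.lH_lg U' (W'.lc_ne hx), h]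
  have nC : ∀ z : L, z ≠ 0 → algebraMap L[X] (RatFunc L) (C z) ≠ 0 := fun z hz =>
    RatFunc.algebraMap_ne_zero (C_ne_zero.2 hz)
  have nP : algebraMap L[X] (RatFunc L) P ≠ 0 := RatFunc.algebraMap_ne_zero hP0
  refine cmp_ab r ?_ ?_ ?_ hy
  · intro g hg
    have h := sg_ext W.vH ((AddMonoidHom.mulLeft r).comp W'.vH + U'.vH.comp W'.lH)
      (fun z hz => key1 _ (nC z hz) (hC z hz).1) (fun a h => key1 _ (pt_ne a) (ha a h).1)
      (key1 _ nP hP.1) g hg
    rw [h, AddMonoidHom.add_apply, AddMonoidHom.comp_apply, AddMonoidHom.comp_apply,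
      AddMonoidHom.coe_mulLeft]
  · intro g hg
    exact sg_ext (U.vH.comp W.lH) W'.vH
      (fun z hz => key2 _ (nC z hz) (hC z hz).2.1) (fun a h => key2 _ (pt_ne a) (ha a h).2.1)
      (key2 _ nP hP.2.1) g hg
  · intro g hg
    exact sg_ext (U.lH.comp W.lH) (U'.lH.comp W'.lH)
      (fun z hz => key3 _ (nC z hz) (hC z hz).2.2) (fun a h => key3 _ (pt_ne a) (ha a h).2.2)
      (key3 _ nP hP.2.2) g hg

theorem one (hB : LB V i P0) (hVN : ∀ b, IsAt b (VN b)) (hVL : ∀ a, IsAt a (VL a)) {c : L}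
    {q : ℚ} {W : AC (RatFunc L) (RatFunc N)} (hD : DP V c q W) (hG : Gd V c q)
    (hA : ∀ a ∈ A, a = c ∨ V.v (a - c) ≤ q) {y : X 1 (RatFunc L)}
    (hy : y ∈ Lv 1 (PS A (P0.map i))) :
    reX (VN 0) 0 (spX W 1 y) = spX V 0 (reX (VL c) 0 y) := by
  have hPc := p_ne hB c
  have hP0 : P0.map i ≠ 0 := by
    intro h
    rw [h, Polynomial.eval_zero] at hPc
    exact hPc rfl
  refine lr7_cmp hP0 q ?_ ?_ ?_ hy
  · intro z hz
    obtain ⟨h1, h2⟩ := at_C (hVL c) hz
    obtain ⟨h3, h4⟩ := at_C (hVN 0) (V.lc_ne hz)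
    rw [hD.cv z hz, hD.cl z, h1, h2, h3, h4]
    refine ⟨?_, rfl, rfl⟩
    ring
  · intro a haA
    by_cases hac : a = c
    · obtain ⟨h1, h2⟩ := at_pt (hVL c) a
      rw [if_pos hac] at h1 h2
      have hge : V.ge q (a - c) := by
        rw [hac, sub_self]
        exact AC.ge_zero V q
      have hini : V.ini q (a - c) = 0 := by
        rw [hac, sub_self]
        exact AC.ini_zero V q
      obtain ⟨h3, h4⟩ := at_pt (hVN 0) (0 : N)
      rw [if_pos rfl] at h3 h4
      rw [hD.nv a hge, hD.nl a hge, hini, h1, h2, h3, h4, TGF.v_one, map_one]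
      refine ⟨?_, rfl, rfl⟩
      ring
    · obtain ⟨h1, h2⟩ := at_pt (hVL c) a
      rw [if_neg hac] at h1 h2
      have hne : a - c ≠ 0 := sub_ne_zero.2 hac
      have hne' : c - a ≠ 0 := sub_ne_zero.2 (Ne.symm hac)
      have hv : V.v (c - a) = V.v (a - c) := by
        rw [← neg_sub a c, TGF.v_neg V hne]
      have hl : V.lc (c - a) = - V.lc (a - c) := by
        rw [← neg_sub a c, TGF.lc_neg V]
      have hle : V.v (a - c) ≤ q := (hA a haA).resolve_left hac
      rcases lt_or_eq_of_le hle with hlt | heq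
      · have hnge : ¬ V.ge q (a - c) := by
          rintro (h | h)
          · exact hne h
          · exact absurd h (not_le.2 hlt)
        obtain ⟨h3, h4⟩ := at_C (hVN 0) (V.lc_ne hne')
        rw [hD.fv a hnge, hD.fl a hnge, h1, h2, h3, h4, hv]
        refine ⟨?_, rfl, rfl⟩
        ring
      · have hge : V.ge q (a - c) := Or.inr heq.symm.le
        have hini : V.ini q (a - c) = V.lc (a - c) := by
          rw [← heq]
          exact AC.ini_self V (a - c)
        obtain ⟨h3, h4⟩ := at_pt (hVN 0) (V.lc (a - c))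
        rw [if_neg (V.lc_ne hne)] at h3 h4
        rw [hD.nv a hge, hD.nl a hge, hini, h1, h2, h3, h4, hv, hl]
        refine ⟨?_, rfl, ?_⟩
        · rw [heq]
          ring
        · ring
  · obtain ⟨h1, h2⟩ := at_pol (hVL c) hPc
    obtain ⟨h3, h4, h5⟩ := p_gd hB hD hG (hVN 0)
    rw [h1, h2, h3, h4, h5]
    refine ⟨?_, rfl, rfl⟩
    ring

theorem res_out (hB : LB V i P0) (hVL : ∀ a, IsAt a (VL a)) {a : L} (ha : a ∉ A)
    {y : X 1 (RatFunc L)} (hy : y ∈ Lv 1 (PS A (P0.map i))) : reX (VL a) 0 y = 0 := by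
  have hv : ∀ g ∈ SG (PS A (P0.map i)), (VL a).vH g = 0 := by
    intro g hg
    have hPa := p_ne hB a
    have hP0 : P0.map i ≠ 0 := by
      intro h
      rw [h, Polynomial.eval_zero] at hPa
      exact hPa rfl
    refine sg_ext (VL a).vH (0 : Additive (RatFunc L)ˣ →+ ℚ) ?_ ?_ ?_ g hg
    · intro z hz
      rw [TGF.vH_lg _ (RatFunc.algebraMap_ne_zero (C_ne_zero.2 hz)), (at_C (hVL a) hz).1]
      rfl
    · intro a' ha'
      have hne : a' ≠ a := fun h => ha (h ▸ ha')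
      rw [TGF.vH_lg _ (pt_ne a'), (at_pt (hVL a) a').1, if_neg hne]
      rfl
    · rw [TGF.vH_lg _ (RatFunc.algebraMap_ne_zero hP0), (at_pol (hVL a) hPa).1]
      rfl
  have h : Lv 1 (PS A (P0.map i)) ≤ LinearMap.ker (reX (VL a) 0) := by
    refine Submodule.span_le.2 ?_
    rintro _ ⟨x, ω, _, hω, rfl⟩
    exact LinearMap.mem_ker.2 (reX_TS (VL a) 0 hv x hω)
  exact LinearMap.mem_ker.1 (h hy)

theorem one_inf (hB : LB V i P0) (hVN' : IsInf VN') (hVL' : IsInf VL') {q : ℚ} (hq : q ≤ 0)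
    {W : AC (RatFunc L) (RatFunc N)} (hD : DP V 0 q W) (hA : ∀ a ∈ A, V.ge q a)
    {y : X 1 (RatFunc L)} (hy : y ∈ Lv 1 (PS A (P0.map i))) :
    reX VN' 0 (spX W 1 y) = spX V 0 (reX VL' 0 y) := by
  have hP0 : P0.map i ≠ 0 := (hB.mon.map i).ne_zero
  refine lr7_cmp hP0 (-q) ?_ ?_ ?_ hy
  · intro z hz
    obtain ⟨h1, h2⟩ := inf_C hVL' hz
    obtain ⟨h3, h4⟩ := inf_C hVN' (V.lc_ne hz)
    rw [hD.cv z hz, hD.cl z, h1, h2, h3, h4]
    refine ⟨?_, rfl, rfl⟩
    ring
  · intro a haA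
    have hge : V.ge q (a - 0) := by
      rw [sub_zero]
      exact hA a haA
    obtain ⟨h1, h2⟩ := inf_pt hVL' a
    obtain ⟨h3, h4⟩ := inf_pt hVN' (V.ini q (a - 0))
    rw [hD.nv a hge, hD.nl a hge, h1, h2, h3, h4, TGF.v_one, map_one]
    refine ⟨?_, rfl, rfl⟩
    ring
  · obtain ⟨h1, h2⟩ := inf_pol hVL' (hB.mon.map i)
    rw [Polynomial.natDegree_map] at h1
    rw [h1, h2, TGF.v_one, map_one]
    rcases lt_or_eq_of_le hq with hlt | heq
    · obtain ⟨h3, h4⟩ := p_neg hB hD hlt (AC.ge_zero V q)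
      obtain ⟨h5, h6⟩ := inf_pol hVN' ((monic_X_sub_C (- V.ini q (0 : L))).pow P0.natDegree)
      rw [Polynomial.natDegree_pow, Polynomial.natDegree_X_sub_C, mul_one] at h5
      rw [map_pow] at h5 h6
      change VN'.v (pt (- V.ini q (0 : L)) ^ P0.natDegree) = _ at h5
      change VN'.lc (pt (- V.ini q (0 : L)) ^ P0.natDegree) = _ at h6
      rw [h3, h4, h5, h6]
      refine ⟨?_, rfl, rfl⟩
      ring
    · rw [heq] at hD ⊢
      obtain ⟨h3, h4⟩ := p_zero hB hD (AC.ge_zero V 0)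
      obtain ⟨h5, h6⟩ := inf_pol hVN' (hB.mon.comp_X_add_C (V.ini 0 (0 : L)))
      rw [Polynomial.natDegree_comp, Polynomial.natDegree_X_add_C, mul_one] at h5
      rw [h3, h4, h5, h6]
      refine ⟨?_, rfl, rfl⟩
      ring

end

end GD3
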