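import Pool.Agent.GD3.Lr2
import Pool.Agent.GD3.Lr4
import Pool.Agent.GD3.Fr
import Pool.Agent.QPL.RecFin

set_option autoImplicit false

/-!
# GD3-Lr8: reciprocity at a disc

PLAN.  c' := (spX W 1 c1.1, spD W c1.2) is in CZ (cz_sp, GD3/Fr.lean) and in CL (SRG.lt N 2) = (Lv 1 ..).prod (DL ..) (Submodule.mem_prod; lv_sp, dl_sp in Lr2), as W.lH maps SG (PS A P) into SG (SRG.lt N 2): sg_ind with the comap: constants C z ↦ constant; pt a ↦ pt β (monic irreducible of degree 1 < 2; SG_pl, Sm)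
or a constant; P: Sg V c q: constant (p_sg; P(c) ≠ 0: p_ne); q < 0, V.ge q c: a power of pt (p_neg; lg of a power, lg_pow).  Then hR c'.
Smoothness: Sm (SRG.lt N 2) (C z), z ≠ 0: no irreducible factor; Sm (SRG.lt N 2) (X - C β): a monic irreducible divisor Q of X - C β has degree ≤ 1.  SRG.lt is in SRG/Glob.lean.
-/

noncomputable section

open Polynomial TensorProduct
open scoped Classical

namespace GD3

open Helper14.Gon Helper14.W4 QPL TGF

universe u

section
variable {N : Type u} [Field N]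

private lemma lr8_C {z : N} (hz : z ≠ 0) :
    lg (algebraMap N[X] (RatFunc N) (C z)) ∈ SG (SRG.lt N 2) := by
  refine AddSubgroup.subset_closure ⟨C z, C_ne_zero.2 hz, Or.inr fun Q _ hi hd => ?_, rfl⟩
  exact absurd (isUnit_of_dvd_unit hd (isUnit_C.2 (isUnit_iff_ne_zero.2 hz))) hi.not_isUnit

private lemma lr8_pt (β : N) : lg (pt β) ∈ SG (SRG.lt N 2) := by
  refine AddSubgroup.subset_closure ⟨Polynomial.X - C β, X_sub_C_ne_zero β,
    Or.inr fun Q hm hi hd => ⟨hm, hi, ?_⟩, rfl⟩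
  have h := natDegree_le_of_dvd hd (X_sub_C_ne_zero β)
  rw [natDegree_X_sub_C] at h
  omega

private lemma lr8_pow (β : N) (d : ℕ) : lg (pt β ^ d) ∈ SG (SRG.lt N 2) := by
  induction d with
  | zero => rw [pow_zero, lg_one]; exact AddSubgroup.zero_mem _
  | succ d ih =>
    rw [pow_succ, lg_mul (pow_ne_zero _ (pt_ne β)) (pt_ne β)]
    exact AddSubgroup.add_mem _ ih (lr8_pt β)

end

section
variable {L N : Type u} [Field L] [Field N] {V : AC L N} {i : N →+* L} {P0 : N[X]}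
  {VN : N → AC (RatFunc N) N} {VN' : AC (RatFunc N) N} {A : Finset L}

theorem rec_dp (hB : LB V i P0) (hR : RecH VN VN') {c : L} {q : ℚ}
    {W : AC (RatFunc L) (RatFunc N)} (hD : DP V c q W) (hc : Sg V c q ∨ (q < 0 ∧ V.ge q c))
    {c1 : C1 (RatFunc L)} (h1 : c1 ∈ CZ (RatFunc L)) (h2 : c1 ∈ CL (PS A (P0.map i))) :
    ∃ s : Finset N, (∀ b, b ∉ s → reX (VN b) 0 (spX W 1 c1.1) = 0) ∧
      ∑ b ∈ s, reX (VN b) 0 (spX W 1 c1.1) + reX VN' 0 (spX W 1 c1.1) ∈ NX 0 N := by
  have hPne : algebraMap L[X] (RatFunc L) (P0.map i) ≠ 0 :=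
    RatFunc.algebraMap_ne_zero (hB.mon.map i).ne_zero
  have hG : ∀ w ∈ SG (PS A (P0.map i)), W.lH w ∈ SG (SRG.lt N 2) := by
    have h : SG (PS A (P0.map i)) ≤ (SG (SRG.lt N 2)).comap W.lH := by
      refine sg_ind _ ?_ ?_ ?_
      · intro z hz
        rw [AddSubgroup.mem_comap, QPL.lH_lg W (RatFunc.algebraMap_ne_zero (C_ne_zero.2 hz)), hD.cl z]
        exact lr8_C (V.lc_ne hz)
      · intro a _
        rw [AddSubgroup.mem_comap, QPL.lH_lg W (pt_ne a)]
        by_cases h : V.ge q (a - c)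
        · rw [hD.nl a h]
          exact lr8_pt _
        · rw [hD.fl a h]
          refine lr8_C (V.lc_ne ?_)
          intro h0
          refine h (Or.inl ?_)
          rw [← neg_sub, h0, neg_zero]
      · rw [AddSubgroup.mem_comap, QPL.lH_lg W hPne]
        rcases hc with hc | ⟨hq, hc⟩
        · rw [(p_sg hB hD hc).2]
          exact lr8_C (V.lc_ne (p_ne hB c))
        · rw [(p_neg hB hD hq hc).2]
          exact lr8_pow _ _
    exact fun w hw => h hw
  exact hR (spX W 1 c1.1, spD W c1.2) (cz_sp W h1)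
    (Submodule.mem_prod.2 ⟨lv_sp W hG 1 h2.1, dl_sp W hG h2.2⟩)

end

end GD3
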