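import Pool.Agent.GD3.Lr3
import Pool.Agent.GD3.Lr5
import Pool.Agent.GD3.Lr6
import Pool.Agent.GD3.Lr7
import Pool.Agent.GD3.Lr8

set_option autoImplicit false

/-!
# GD3-Lr9: the open disc lemma

PLAN.  exists_z: ϖ ≠ 0 in L: z := ϖ * i (b / V.lc ϖ) has V.ge (V.v ϖ) z and V.ini (V.v ϖ) z = b (b = 0: z = 0).
od: induction on n.  f a := spX V 0 (reX (VL a) 0 c1.1), R0 W := reX (VN 0) 0 (spX W 1 c1.1), F := A.filter (gt V q (a - c)).  hy : c1.1 ∈ Lv 1 (PS A P) from h2.
CASE card F ≤ 1 (this includes n = 0): let a0 := the element of F, or c if F = ∅.  Wa := exists_dp V a0 q; dir (Lr5) with z = a0 - c (gt V q z or z = 0, so V.ge q z, V.ini q z = 0): R0 Wa = R0 W.  one (Lr7) for a0: Gd V a0 q (see below); a ∈ A, a ≠ a0: a ∉ F, so V.v (a - c) ≤ q < V.v (a0 - c) (or a0 = c): V.v (a - a0) = V.v (a - c) ≤ q.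
So R0 W = f a0, and the sum over F is f a0 (if F = ∅: a0 = c ∉ A because c ∈ A would be in F; res_out gives f c = 0).
CASE card F ≥ 2 (n ≥ 1): a0 ∈ F, F' := F.erase a0, a1 ∈ F' with V.v (a1 - a0) =: q' minimal (Finset.exists_min_image).  q < q' (both a0 - c, a1 - c are gt q, a1 ≠ a0).  Gd V a0 q: from Gd V c q: 0 ≤ q, or c ≠ 0, V.v c ≤ q < V.v (a0 - c) (or a0 = c): V.v a0 = V.v c, a0 ≠ 0.  Hence Sg V a0 q'.
Wa := exists_dp V a0 q, W' := exists_dp V a0 q'.  dir: R0 Wa = R0 W.  ann (Lr6) for a0, q < q': a ∈ F: a = a0 or V.v (a - a0) ≥ q': V.ge q' (a - a0); a ∈ A \ F: V.v (a - a0) = V.v (a - c) ≤ q.  So R0 W = - reX VN' 0 (spX W' 1 c1.1).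
rec_dp (Lr8): s0 and the sum over s0 of R_b := reX (VN b) 0 (spX W' 1 c1.1) plus reX VN' ... is in NX 0 N.
For b : N: z_b from exists_z for ϖ = a1 - a0 (value q').  W_b := exists_dp V (a0 + z_b) q'; dir: R0 W_b = R_b.  Gd V (a0 + z_b) q': 0 < q', or a0 ≠ 0, V.v a0 < q' ≤ V.v z_b (or z_b = 0): V.v (a0 + z_b) = V.v a0.
F_b := A.filter (gt V q' (a - (a0 + z_b))) = F.filter (V.ini q' (a - a0) = b): if gt V q' (a - a0 - z_b) then gt V q (a - c) (sum of three terms gt q: a - a0 - z_b, z_b, a0 - c), and V.ini q' (a - a0) = V.ini q' z_b = b; conversely a ∈ F has V.ge q' (a - a0), and V.ini q' (a - a0 - z_b) = b - b = 0, so gt (AC.lt_of_ini).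
card F_b ≤ n: F_b ⊂ F, and not both a0, a1 are in F_b (V.ini q' 0 = 0 ≠ V.lc (a1 - a0) = V.ini q' (a1 - a0)).  Induction hypothesis: R_b - sum over F_b of f ∈ NX 0 N.
s := s0 ∪ F.image (fun a => V.ini q' (a - a0)): the sum over b ∈ s of the sums over F_b is the sum over F (Finset.sum_fiberwise_of_maps_to); the sum over s of R_b is the sum over s0 (Finset.sum_subset).  Combine in the submodule NX 0 N.
-/

noncomputable section

open Polynomial TensorProduct
open scoped Classical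

namespace GD3

open Helper14.Gon Helper14.W4 QPL TGF

universe u

section
variable {L N : Type u} [Field L] [Field N] {V : AC L N}

private lemma l9_iff {q : ℚ} {z : L} : gt V q z ↔ V.ge q z ∧ V.ini q z = 0 := by
  constructor
  · rintro (h | h)
    · rw [h]
      exact ⟨V.ge_zero q, V.ini_zero q⟩
    · exact ⟨Or.inr h.le, V.ini_of_lt h (V.ge_self z)⟩
  · rintro ⟨h1, h2⟩
    exact V.lt_of_ini h1 h2

private lemma l9_add {q : ℚ} {x y : L} (hx : gt V q x) (hy : gt V q y) : gt V q (x + y) := by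
  rw [l9_iff] at hx hy ⊢
  exact ⟨V.ge_add hx.1 hy.1, by rw [V.ini_add hx.1 hy.1, hx.2, hy.2, add_zero]⟩

private lemma l9_neg {q : ℚ} {x : L} (hx : gt V q x) : gt V q (-x) := by
  rw [l9_iff] at hx ⊢
  exact ⟨V.ge_neg hx.1, by rw [V.ini_neg, hx.2, neg_zero]⟩

private lemma l9_mono {q q' : ℚ} (h : q ≤ q') {x : L} (hx : gt V q' x) : gt V q x :=
  hx.imp id fun h' => lt_of_le_of_lt h h'

private lemma l9_of_ge {q q' : ℚ} (h : q < q') {x : L} (hx : V.ge q' x) : gt V q x :=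
  hx.imp id fun h' => lt_of_lt_of_le h h'

private lemma l9_gd {c a : L} {q : ℚ} (h : Gd V c q) (ha : gt V q (a - c)) : Gd V a q := by
  rcases h with h | ⟨h1, h2⟩
  · exact Or.inl h
  · right
    have h3 := V.add_lt (x := c) (y := a - c) h1 (ha.imp id fun h' => lt_of_le_of_lt h2 h')
    rw [add_sub_cancel] at h3
    exact ⟨h3.1, by rw [h3.2.1]; exact h2⟩

private lemma l9_gz {c z : L} {q : ℚ} (h : Sg V c q) (hz : V.ge q z) : Gd V (c + z) q := by
  rcases h with h | ⟨h1, h2⟩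
  · exact Or.inl h.le
  · right
    have h3 := V.add_lt (x := c) (y := z) h1 (hz.imp id fun h' => lt_of_lt_of_le h2 h')
    exact ⟨h3.1, by rw [h3.2.1]; exact h2.le⟩

/-- a point of `A` outside the open disc is far from every point of the disc -/
private lemma l9_far {c a0 a : L} {q : ℚ} (h0 : gt V q (a0 - c)) (ha : ¬ gt V q (a - c)) :
    V.v (a - a0) ≤ q := by
  by_contra h
  push Not at h
  apply ha
  have h1 : gt V q (a - a0) := Or.inr h
  have h2 := l9_add h1 h0
  rwa [sub_add_sub_cancel] at h2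

end

section
variable {L N : Type u} [Field L] [Field N] {V : AC L N} {i : N →+* L} {P0 : N[X]}
  {VN : N → AC (RatFunc N) N} {VN' : AC (RatFunc N) N} {VL : L → AC (RatFunc L) L}
  {A : Finset L}

theorem exists_z (hB : LB V i P0) {ϖ : L} (h : ϖ ≠ 0) (b : N) : ∃ z : L,
    V.ge (V.v ϖ) z ∧ V.ini (V.v ϖ) z = b := by
  by_cases hb : b = 0
  · exact ⟨0, V.ge_zero _, by rw [V.ini_zero, hb]⟩
  · have hl : V.lc ϖ ≠ 0 := V.lc_ne h
    have hc : b / V.lc ϖ ≠ 0 := div_ne_zero hb hl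
    have hi : i (b / V.lc ϖ) ≠ 0 := (map_ne_zero i).2 hc
    have hz : ϖ * i (b / V.lc ϖ) ≠ 0 := mul_ne_zero h hi
    have hv : V.v (ϖ * i (b / V.lc ϖ)) = V.v ϖ := by
      rw [V.v_mul h hi, hB.hv _ hc, add_zero]
    refine ⟨ϖ * i (b / V.lc ϖ), Or.inr hv.ge, ?_⟩
    rw [← hv, V.ini_self, map_mul, hB.hl, mul_div_cancel₀ b hl]

private lemma l9_dir (hB : LB V i P0) (hVN : ∀ b, IsAt b (VN b)) {c a0 : L} {q : ℚ}
    {W W' : AC (RatFunc L) (RatFunc N)} (hD : DP V c q W) (hD' : DP V a0 q W')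
    (hz : gt V q (a0 - c)) {y : X 1 (RatFunc L)} (hy : y ∈ Lv 1 (PS A (P0.map i))) :
    reX (VN 0) 0 (spX W' 1 y) = reX (VN 0) 0 (spX W 1 y) := by
  have h1 := l9_iff.1 hz
  have hD2 : DP V (c + (a0 - c)) q W' := by
    rw [add_sub_cancel]
    exact hD'
  have h2 := dir (A := A) hB hVN hD hD2 h1.1 hy
  rw [h1.2] at h2
  exact h2

private lemma l9_one (hB : LB V i P0) (hVN : ∀ b, IsAt b (VN b))
    (hVL : ∀ a, IsAt a (VL a)) {c a0 : L} {q : ℚ} {W : AC (RatFunc L) (RatFunc N)}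
    (hD : DP V c q W) (hG : Gd V c q) (h0 : gt V q (a0 - c))
    (hA : ∀ a ∈ A, gt V q (a - c) → a = a0) {y : X 1 (RatFunc L)}
    (hy : y ∈ Lv 1 (PS A (P0.map i))) :
    reX (VN 0) 0 (spX W 1 y) = spX V 0 (reX (VL a0) 0 y) := by
  obtain ⟨Wa, hWa⟩ := exists_dp V a0 q
  rw [← l9_dir hB hVN hD hWa h0 hy]
  refine one hB hVN hVL hWa (l9_gd hG h0) (fun a ha => ?_) hy
  by_cases h : a = a0
  · exact Or.inl h
  · exact Or.inr (l9_far h0 fun h' => h (hA a ha h'))

private lemma l9_small (hB : LB V i P0) (hVN : ∀ b, IsAt b (VN b))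
    (hVL : ∀ a, IsAt a (VL a)) {c : L} {q : ℚ} {W : AC (RatFunc L) (RatFunc N)}
    (hD : DP V c q W) (hG : Gd V c q) {y : X 1 (RatFunc L)}
    (hy : y ∈ Lv 1 (PS A (P0.map i)))
    (hc : (A.filter fun a => gt V q (a - c)).card ≤ 1) :
    reX (VN 0) 0 (spX W 1 y) -
      ∑ a ∈ A.filter (fun a => gt V q (a - c)), spX V 0 (reX (VL a) 0 y) ∈ NX 0 N := by
  rcases Nat.lt_or_ge 0 (A.filter fun a => gt V q (a - c)).card with h | h
  · obtain ⟨a0, ha0⟩ := Finset.card_eq_one.1 (le_antisymm hc h)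
    have h1 : a0 ∈ A.filter fun a => gt V q (a - c) := by
      rw [ha0]
      exact Finset.mem_singleton_self a0
    have h2 := (Finset.mem_filter.1 h1).2
    rw [ha0, Finset.sum_singleton, l9_one hB hVN hVL hD hG h2 (fun a ha h' => ?_) hy, sub_self]
    · exact Submodule.zero_mem _
    · have h3 : a ∈ A.filter fun a => gt V q (a - c) := Finset.mem_filter.2 ⟨ha, h'⟩
      rw [ha0] at h3
      exact Finset.mem_singleton.1 h3
  · have h0 : (A.filter fun a => gt V q (a - c)) = ∅ :=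
      Finset.card_eq_zero.1 (Nat.le_zero.1 h)
    have h1 : gt V q (c - c) := Or.inl (sub_self c)
    have h2 : c ∉ A := by
      intro h3
      have h4 : c ∈ A.filter fun a => gt V q (a - c) := Finset.mem_filter.2 ⟨h3, h1⟩
      rw [h0] at h4
      exact absurd h4 (Finset.notMem_empty c)
    rw [h0, Finset.sum_empty, sub_zero, l9_one hB hVN hVL hD hG h1 (fun a ha h' => ?_) hy,
      res_out hB hVL h2 hy, map_zero]
    · exact Submodule.zero_mem _
    · have h4 : a ∈ A.filter fun a => gt V q (a - c) := Finset.mem_filter.2 ⟨ha, h'⟩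
      rw [h0] at h4
      exact absurd h4 (Finset.notMem_empty a)

theorem od (hB : LB V i P0) (hVN : ∀ b, IsAt b (VN b)) (hVN' : IsInf VN')
    (hVL : ∀ a, IsAt a (VL a)) (hR : RecH VN VN') {c1 : C1 (RatFunc L)}
    (h1 : c1 ∈ CZ (RatFunc L)) (h2 : c1 ∈ CL (PS A (P0.map i))) (n : ℕ) :
    ∀ (c : L) (q : ℚ) (W : AC (RatFunc L) (RatFunc N)), DP V c q W → Gd V c q →
      (A.filter fun a => gt V q (a - c)).card ≤ n →
      reX (VN 0) 0 (spX W 1 c1.1) -
        ∑ a ∈ A.filter (fun a => gt V q (a - c)), spX V 0 (reX (VL a) 0 c1.1) ∈ NX 0 N := by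
  have hy : c1.1 ∈ Lv 1 (PS A (P0.map i)) := (Submodule.mem_prod.1 h2).1
  induction n with
  | zero =>
    intro c q W hD hG hc
    exact l9_small hB hVN hVL hD hG hy (hc.trans (Nat.zero_le 1))
  | succ m ih =>
    intro c q W hD hG hc
    by_cases hs : (A.filter fun a => gt V q (a - c)).card ≤ 1
    · exact l9_small hB hVN hVL hD hG hy hs
    push Not at hs
    set F : Finset L := A.filter (fun a => gt V q (a - c)) with hF
    have hne : F.Nonempty := Finset.card_pos.1 (by omega)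
    obtain ⟨a0, ha0⟩ := hne
    have hne' : (F.erase a0).Nonempty := by
      rw [← Finset.card_pos, Finset.card_erase_of_mem ha0]
      omega
    obtain ⟨a1, ha1, hmin⟩ := Finset.exists_min_image (F.erase a0) (fun a => V.v (a - a0)) hne'
    have ha1F : a1 ∈ F := Finset.mem_of_mem_erase ha1
    have hne1 : a1 ≠ a0 := Finset.ne_of_mem_erase ha1
    have hd : a1 - a0 ≠ 0 := sub_ne_zero.2 hne1
    have g0 : gt V q (a0 - c) := (Finset.mem_filter.1 ha0).2
    have g1 : gt V q (a1 - c) := (Finset.mem_filter.1 ha1F).2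
    have hqq : q < V.v (a1 - a0) := by
      have h3 := l9_add g1 (l9_neg g0)
      have h4 : a1 - c + -(a0 - c) = a1 - a0 := by ring
      rw [h4] at h3
      exact h3.resolve_left hd
    set q' : ℚ := V.v (a1 - a0) with hq'
    have hG0 : Gd V a0 q := l9_gd hG g0
    have hS0 : Sg V a0 q' := by
      rcases hG0 with h | ⟨h3, h4⟩
      · exact Or.inl (lt_of_le_of_lt h hqq)
      · exact Or.inr ⟨h3, lt_of_le_of_lt h4 hqq⟩
    have hge : ∀ a ∈ F, V.ge q' (a - a0) := by
      intro a ha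
      by_cases h : a = a0
      · exact Or.inl (sub_eq_zero.2 h)
      · exact Or.inr (hmin a (Finset.mem_erase.2 ⟨h, ha⟩))
    obtain ⟨Wa, hWa⟩ := exists_dp V a0 q
    obtain ⟨W', hW'⟩ := exists_dp V a0 q'
    have e1 := l9_dir hB hVN hD hWa g0 hy
    have e2 := ann (A := A) hB hVN hVN' hqq hWa hW' (fun a ha => by
      by_cases h : gt V q (a - c)
      · exact Or.inl (hge a (Finset.mem_filter.2 ⟨ha, h⟩))
      · by_cases h' : a = a0
        · exact Or.inl (Or.inl (sub_eq_zero.2 h'))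
        · exact Or.inr ⟨h', l9_far g0 h⟩) (Or.inl hG0) hy
    obtain ⟨s0, hs0, hs1⟩ := rec_dp hB hR hW' (Or.inl hS0) h1 h2
    have key : ∀ b : N, reX (VN b) 0 (spX W' 1 c1.1) -
        ∑ a ∈ F.filter (fun a => V.ini q' (a - a0) = b), spX V 0 (reX (VL a) 0 c1.1) ∈
          NX 0 N := by
      intro b
      obtain ⟨z, hz1, hz2⟩ := exists_z hB hd b
      rw [← hq'] at hz1 hz2
      obtain ⟨Wb, hWb⟩ := exists_dp V (a0 + z) q'
      have e3 := dir (A := A) hB hVN hW' hWb hz1 hy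
      rw [hz2] at e3
      have hFb : (A.filter fun a => gt V q' (a - (a0 + z))) =
          F.filter (fun a => V.ini q' (a - a0) = b) := by
        ext a
        rw [Finset.mem_filter, Finset.mem_filter, hF, Finset.mem_filter]
        constructor
        · rintro ⟨h3, h4⟩
          refine ⟨⟨h3, ?_⟩, ?_⟩
          · have h5 := l9_add (l9_add (l9_mono hqq.le h4) (l9_of_ge hqq hz1)) g0
            have h6 : a - (a0 + z) + z + (a0 - c) = a - c := by ring
            rwa [h6] at h5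
          · have h5 := l9_iff.1 h4
            have h6 : a - a0 = a - (a0 + z) + z := by ring
            rw [h6, V.ini_add h5.1 hz1, h5.2, hz2, zero_add]
        · rintro ⟨⟨h3, h4⟩, h5⟩
          refine ⟨h3, ?_⟩
          have h6 := hge a (Finset.mem_filter.2 ⟨h3, h4⟩)
          have h7 : a - (a0 + z) = (a - a0) + -z := by ring
          rw [h7, l9_iff]
          exact ⟨V.ge_add h6 (V.ge_neg hz1), by
            rw [V.ini_add h6 (V.ge_neg hz1), V.ini_neg, h5, hz2, add_neg_cancel]⟩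
      have hlt : (F.filter (fun a => V.ini q' (a - a0) = b)).card < F.card := by
        refine Finset.card_lt_card (Finset.filter_ssubset.2 ?_)
        by_cases hb : b = 0
        · refine ⟨a1, ha1F, ?_⟩
          rw [hb, hq', V.ini_self]
          exact V.lc_ne hd
        · refine ⟨a0, ha0, ?_⟩
          rw [sub_self, V.ini_zero]
          exact fun h => hb h.symm
      have h3 := ih (a0 + z) q' Wb hWb (l9_gz hS0 hz1) (by
        rw [hFb]
        omega)
      rw [hFb, e3] at h3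
      exact h3
    set g : L → N := fun a => V.ini q' (a - a0) with hg
    set s : Finset N := s0 ∪ F.image g with hsd
    have e4 : ∑ b ∈ s, ∑ a ∈ F.filter (fun a => g a = b), spX V 0 (reX (VL a) 0 c1.1) =
        ∑ a ∈ F, spX V 0 (reX (VL a) 0 c1.1) := by
      refine Finset.sum_fiberwise_of_maps_to (fun a ha => ?_) _
      exact Finset.mem_union_right _ (Finset.mem_image_of_mem g ha)
    have e5 : ∑ b ∈ s0, reX (VN b) 0 (spX W' 1 c1.1) = ∑ b ∈ s, reX (VN b) 0 (spX W' 1 c1.1) :=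
      Finset.sum_subset Finset.subset_union_left fun b _ hb => hs0 b hb
    have e6 : ∑ b ∈ s, (reX (VN b) 0 (spX W' 1 c1.1) -
        ∑ a ∈ F.filter (fun a => g a = b), spX V 0 (reX (VL a) 0 c1.1)) ∈ NX 0 N :=
      Submodule.sum_mem _ fun b _ => key b
    rw [Finset.sum_sub_distrib, e4, ← e5] at e6
    have e7 := Submodule.sub_mem _ e6 hs1
    rw [e2, e1] at e7
    have e8 : ∑ b ∈ s0, reX (VN b) 0 (spX W' 1 c1.1) -
        ∑ a ∈ F, spX V 0 (reX (VL a) 0 c1.1) -
        (∑ b ∈ s0, reX (VN b) 0 (spX W' 1 c1.1) + -reX (VN 0) 0 (spX W 1 c1.1)) =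
        reX (VN 0) 0 (spX W 1 c1.1) - ∑ a ∈ F, spX V 0 (reX (VL a) 0 c1.1) := by
      abel
    rwa [e8] at e7

end

end GD3
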