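import Pool.Agent.GD3.Tau2
import Pool.Agent.GD3.Kz
import Pool.Agent.TGF.Fv
import Pool.Agent.TGF.Ts
import Pool.Agent.TGF.Koz
import Pool.Agent.TGF.Pt

set_option autoImplicit false

/-!
# GD3-Om: the functional ω on Λ^2-slots

PLAN.  exists_bnl: b, ν; b_cyc; exists_kz with H = KG p S: χ.  b' (v, w) μ := 2 χ v (wT 1 w μ) (additive in v, w).  b' g g μ = 2 χ g (wT 1 g μ) = b g g μ for g ∈ KG p S.
bnl_change: ν'.  χ extends to Tx 1 E: X1 : Tx 1 E →ₗ (Tx 2 E →ₗ W) with X1 (w1 v) = χ v (koszul0 in TGF/Koz.lean, or liftBaseChange).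
ω (bx x μ) := 2 X1 (gr V x) μ + ν'.g x (ctT 1 V.vH μ), a linear map by `xl`.
Rel 2: x ↦ gr V x and ν' are FV functions (gr V x = ctT 1 V.vH (w2 (lg (1 - x)) (lg x)), the contraction of d2 0 (bx x u0): FV by d2_rel; rel_of_fv' in TGF/Fv.lean).
El S x, μ ∈ TS 2 (SG S): gr V x = 0 (SG_v) and ctT 1 V.vH μ = 0 (ctT_TS).
x ∈ El (S ∪ P), μ ∈ TS 1 (SG S): d3 1 (bx x μ) = bx x (wT 1 (lg x) μ); ctT 1 V.vH (wT 1 (lg x) μ) = v(x) μ - (lg x) ∧ ctT 0 .. μ = v(x) μ (ctT_wT, ctT_TS).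
 unit (v x = 0): gr V x = v(1-x) w1 (lg x): ω = 2 v(1-x) χ (lg x) (wT 1 (lg x) μ) = BNL.un for b'.
 zero (v x > 0, v(1-x) = 0 by kg_zero): gr V x = - v(x) w1 (lg (1-x)): ω = v(x) (ν' x μ - b'(1-x, x) μ) = BNL.ze.
 pole (x ≠ 0, v x < 0): ψ (bx x μ) = ψ (bx x⁻¹ μ) (nx_inv, FS.n1), and ω (bx x⁻¹ (wT 1 (lg x⁻¹) μ)) = ω (bx x (wT 1 (lg x) μ)) since ω kills bx x _ + bx x⁻¹ _ and lg x⁻¹ = - lg x.  x = 0: lg 0 = 0, nx_zero.
-/

noncomputable section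

open Polynomial TensorProduct
open scoped Classical

namespace GD3

open Helper14.Gon Helper14.W4 QPL TGF

universe u

section
variable {F : Type u} [Field F] {W W' : Type u} [AddCommGroup W] [Module ℚ W]
  [AddCommGroup W'] [Module ℚ W']

/-- the composition of a five-term function with an additive map -/
private def om_fv (g : SRG.FV F W) (f : W →+ W') : SRG.FV F W' where
  g := fun x => f (g.g x)
  zero := by rw [g.zero, map_zero]
  one := by rw [g.one, map_zero]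
  inv := fun x => by rw [g.inv, map_neg]
  sub := fun x => by rw [g.sub, map_neg]
  five := fun x y hx hx1 hy hy1 hxy => by
    rw [← map_sub, ← map_add, ← map_sub, ← map_add, g.five x y hx hx1 hy hy1 hxy, map_zero]

/-- the linear extension of an additive map -/
private lemma om_ext (χ : Additive Fˣ →+ W') :
    ∃ X1 : Tx 1 F →ₗ[ℚ] W', ∀ v : Additive Fˣ, X1 (w1 v) = χ v := by
  obtain ⟨X1, h1⟩ := koszul0 (F := F) (W := W')
    (AddMonoidHom.mk' (fun v => (e0 F).smulRight (χ v)) (fun a b => by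
      refine LinearMap.ext fun μ => ?_
      rw [LinearMap.add_apply, LinearMap.smulRight_apply, LinearMap.smulRight_apply,
        LinearMap.smulRight_apply, map_add, smul_add]))
  refine ⟨X1, fun v => ?_⟩
  have h2 : e0 F (u0 F) = 1 := e0_dm _
  rw [w1, h1]
  show e0 F (u0 F) • χ v = χ v
  rw [h2, one_smul]

end

section
variable {K k : Type u} [Field K] [Field k] {p : SRG.Pl K k} {V : AC (RatFunc K) k}
  {S : Set K[X]}

/-- the form `gr` as a contraction of the differential -/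
private lemma om_gr (V : AC (RatFunc K) k) (x : RatFunc K) :
    gr V x = ctT 1 V.vH (d2 0 (bx x (u0 (RatFunc K)))) := by
  rw [d2_bx, ctT_wT, ctT_wT_zero, map_smul]
  rfl

variable {W : Type u} [AddCommGroup W] [Module ℚ W]

theorem exists_omega (hS : SRG.Adm S p.d) (hP : p.P ∉ S) (hV : IsPt p V) (hQ : QD S)
    {ψ : X 1 (RatFunc K) →ₗ[ℚ] W} {ϕ : RatFunc K → RatFunc K → W} (h : FS ψ ϕ)
    (hk : KL S ψ ϕ) : ∃ ω : X 2 (RatFunc K) →ₗ[ℚ] W, (∀ z ∈ Rel 2 (RatFunc K), ω z = 0) ∧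
      (∀ x : RatFunc K, El S x → ∀ μ ∈ TS 2 (SG S), ω (bx x μ) = 0) ∧
      ∀ x : RatFunc K, El (insert p.P S) x → ∀ μ ∈ TS 1 (SG S),
        ω (d3 1 (bx x μ)) = ψ (bx x μ) := by
  obtain ⟨b, ν, hb, hB⟩ := exists_bnl hS hP hV hQ h hk
  obtain ⟨χ, hχ⟩ := exists_kz (SRG.KG p S) b hb
    (fun g₁ h1 g₂ h2 g₃ h3 => b_cyc hS hP hV h hk hb hB h1 h2 h3)
  -- the new form
  obtain ⟨b', hb'⟩ : ∃ b' : Additive (RatFunc K)ˣ →+ Additive (RatFunc K)ˣ →+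
      (Tx 1 (RatFunc K) →ₗ[ℚ] W), ∀ v w μ, b' v w μ = (2 : ℚ) • χ v (wT 1 w μ) := by
    refine ⟨AddMonoidHom.mk' (fun v => AddMonoidHom.mk'
      (fun w => (2 : ℚ) • ((χ v) ∘ₗ (wT 1 w))) (fun w w' => ?_)) (fun v v' => ?_),
      fun v w μ => rfl⟩
    · refine LinearMap.ext fun μ => ?_
      show (2 : ℚ) • χ v (wT 1 (w + w') μ) = (2 : ℚ) • χ v (wT 1 w μ) + (2 : ℚ) • χ v (wT 1 w' μ)
      rw [wT_add, LinearMap.add_apply, map_add, smul_add]
    · refine AddMonoidHom.ext fun w => LinearMap.ext fun μ => ?_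
      show (2 : ℚ) • χ (v + v') (wT 1 w μ) =
        (2 : ℚ) • χ v (wT 1 w μ) + (2 : ℚ) • χ v' (wT 1 w μ)
      rw [map_add, LinearMap.add_apply, smul_add]
  obtain ⟨ν', hN⟩ := bnl_change hS hP hV hB b' (fun g hg μ _ => by
    rw [hb', two_smul, hχ g hg g hg μ])
  obtain ⟨X1, hX1⟩ := om_ext χ
  -- the functional
  let ω1 : X 2 (RatFunc K) →ₗ[ℚ] W := xl fun x => (2 : ℚ) • X1 (gr V x)
  let ω2 : X 2 (RatFunc K) →ₗ[ℚ] W := xl fun x => (ν'.g x) ∘ₗ (ctT 1 V.vH)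
  have hω : ∀ (x : RatFunc K) (μ : Tx 2 (RatFunc K)), (ω1 + ω2) (bx x μ) =
      (2 : ℚ) • X1 (gr V x) μ + ν'.g x (ctT 1 V.vH μ) := by
    intro x μ
    rw [LinearMap.add_apply]
    show xl _ (bx x μ) + xl _ (bx x μ) = _
    rw [xl_bx, xl_bx]
    rfl
  have hrel : ∀ z ∈ Rel 2 (RatFunc K), (ω1 + ω2) z = 0 := by
    intro z hz
    have r1 : ω1 z = 0 := by
      refine rel_of_fv' 2 ω1 (fun μ => ?_) hz
      let f : Tx 1 (RatFunc K) →ₗ[ℚ] W := (2 : ℚ) • ((LinearMap.applyₗ μ) ∘ₗ X1)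
      obtain ⟨g, hg⟩ := fv_of 0 (f ∘ₗ (ctT 1 V.vH) ∘ₗ (d2 0)) (fun z hz => by
        show f (ctT 1 V.vH (d2 0 z)) = 0
        rw [d2_rel 0 hz, map_zero, map_zero])
      refine ⟨om_fv g (LinearMap.applyₗ (u0 (RatFunc K)) :
        (Tx 0 (RatFunc K) →ₗ[ℚ] W) →ₗ[ℚ] W).toAddMonoidHom, fun x => ?_⟩
      show g.g x (u0 (RatFunc K)) = xl _ (bx x μ)
      rw [hg, xl_bx, om_gr]
      rfl
    have r2 : ω2 z = 0 := by
      refine rel_of_fv' 2 ω2 (fun μ => ?_) hz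
      refine ⟨om_fv ν' (LinearMap.applyₗ (ctT 1 V.vH μ) :
        (Tx 1 (RatFunc K) →ₗ[ℚ] W) →ₗ[ℚ] W).toAddMonoidHom, fun x => ?_⟩
      show ν'.g x (ctT 1 V.vH μ) = xl _ (bx x μ)
      rw [xl_bx]
      rfl
    rw [LinearMap.add_apply, r1, r2, add_zero]
  have hval : ∀ x : RatFunc K, ∀ μ ∈ TS 1 (SG S), (ω1 + ω2) (d3 1 (bx x μ)) =
      (2 : ℚ) • X1 (gr V x) (wT 1 (lg x) μ) + V.vH (lg x) • ν'.g x μ := by
    intro x μ hμ
    rw [d3_bx, hω, ctT_wT, ctT_TS 0 (fun v hv => SG_v hV hP hv) hμ, map_zero, sub_zero, map_smul]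
  have hun : ∀ x : RatFunc K, El (insert p.P S) x → V.vH (lg x) = 0 → ∀ μ ∈ TS 1 (SG S),
      (ω1 + ω2) (d3 1 (bx x μ)) = ψ (bx x μ) := by
    intro x hx h0 μ hμ
    rw [hval x μ hμ, hN.un x hx h0 μ hμ, hb', gr, h0, zero_smul, sub_zero, zero_smul, add_zero,
      map_smul, hX1, LinearMap.smul_apply, smul_comm]
  have hze : ∀ x : RatFunc K, El (insert p.P S) x → 0 < V.vH (lg x) → ∀ μ ∈ TS 1 (SG S),
      (ω1 + ω2) (d3 1 (bx x μ)) = ψ (bx x μ) := by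
    intro x hx h0 μ hμ
    rw [hval x μ hμ, hN.ze x hx h0 μ hμ, hb', gr, (kg_zero hS hP hV hx h0).2, zero_smul, zero_sub,
      map_neg, map_smul, hX1, LinearMap.neg_apply, LinearMap.smul_apply, smul_sub, smul_neg,
      smul_comm (2 : ℚ)]
    abel
  refine ⟨ω1 + ω2, hrel, fun x hx μ hμ => ?_, fun x hx μ hμ => ?_⟩
  · rw [hω, gr, SG_v hV hP hx.1, SG_v hV hP hx.2, zero_smul, zero_smul, sub_zero, map_zero,
      LinearMap.zero_apply, smul_zero, zero_add, ctT_TS 1 (fun v hv => SG_v hV hP hv) hμ, map_zero]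
  · rcases lt_trichotomy (V.vH (lg x)) 0 with h0 | h0 | h0
    · have hx0 : x ≠ 0 := by
        rintro rfl
        rw [lg_zero, map_zero] at h0
        exact lt_irrefl _ h0
      have h1 : lg x⁻¹ = - lg x := by
        rw [inv_eq_one_div, lg_div one_ne_zero hx0, lg_one, zero_sub]
      have h2 : ψ (bx x μ) = ψ (bx x⁻¹ μ) := by
        have h3 := h.n1 _ (nx_inv 1 x hx0 μ)
        rw [map_sub] at h3
        exact sub_eq_zero.1 h3
      have h4 : 0 < V.vH (lg x⁻¹) := by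
        rw [h1, map_neg]
        exact neg_pos.2 h0
      rw [h2, ← hze x⁻¹ (El_inv hx) h4 μ hμ, d3_bx, d3_bx, h1, wT_neg, LinearMap.neg_apply]
      have h5 := hrel _ (Submodule.subset_span
        (Or.inl (Or.inl (Or.inr ⟨x, wT 1 (lg x) μ, rfl⟩))))
      rw [map_add] at h5
      have h6 : bx x⁻¹ (-(wT 1 (lg x) μ)) = - bx x⁻¹ (wT 1 (lg x) μ) := by
        rw [bx, bx, Finsupp.single_neg]
      rw [h6, map_neg]
      exact eq_neg_of_add_eq_zero_left h5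
    · exact hun x hx h0 μ hμ
    · exact hze x hx h0 μ hμ

end

end GD3
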