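import Pool.Agent.GD3.Spl

set_option autoImplicit false

/-!
# GD3-Pz: a maximal extension with the same residue field
-/

noncomputable section

open Polynomial TensorProduct
open scoped Classical

namespace GD3

open Helper14.Gon Helper14.W4 QPL TGF

universe u

section
variable {N Nb Mb : Type u} [Field N] [Field Nb] [Field Mb]

/-- all units of `L` have leading coefficient in `N` -/
def RC (W : AC Mb Nb) (i : N →+* Nb) (L : Subfield Mb) : Prop :=
  ∀ x ∈ L, x ≠ 0 → W.v x = 0 → ∃ n : N, W.lc x = i n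

private theorem pz_pow (W : AC Mb Nb) {y : Mb} (hy : W.ge 0 y) (j : ℕ) :
    W.ge 0 (y ^ j) ∧ W.ini 0 (y ^ j) = W.ini 0 y ^ j := by
  induction j with
  | zero =>
    rw [pow_zero, pow_zero]
    exact ⟨W.ge_one, W.ini_one⟩
  | succ j ih =>
    have h1 := W.ge_mul ih.1 hy
    have h2 := W.ini_mul ih.1 hy
    rw [add_zero] at h1 h2
    rw [pow_succ, pow_succ]
    exact ⟨h1, by rw [h2, ih.2]⟩

private theorem pz_key {d : ℕ} (hN : CLd d N) (i : N →+* Nb) (W : AC Mb Nb) (L : Subfield Mb)
    (hL : RC W i L) (g : L[X]) (hg : g ≠ 0) (hd : g.natDegree < d) (y : Mb) (hy : y ≠ 0)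
    (hv : W.v y = 0) (he : g.eval₂ L.subtype y = 0) : ∃ n : N, W.lc y = i n := by
  obtain ⟨m, hm, hmin⟩ := Finset.exists_min_image g.support (fun m => W.v (g.coeff m : Mb))
    (Polynomial.support_nonempty.2 hg)
  have hm0 : (g.coeff m : Mb) ≠ 0 := by
    have := Polynomial.mem_support_iff.1 hm
    exact fun h => this (Subtype.ext h)
  have hge : ∀ j : ℕ, W.ge 0 ((g.coeff j : Mb) / (g.coeff m : Mb)) := by
    intro j
    by_cases hj : j ∈ g.support
    · have hj0 : (g.coeff j : Mb) ≠ 0 := by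
        have := Polynomial.mem_support_iff.1 hj
        exact fun h => this (Subtype.ext h)
      right
      rw [W.v_div hj0 hm0]
      have := hmin j hj
      linarith
    · left
      have : g.coeff j = 0 := Polynomial.notMem_support_iff.1 hj
      rw [this]
      simp
  have hc : ∀ j : ℕ, ∃ c : N, W.ini 0 ((g.coeff j : Mb) / (g.coeff m : Mb)) = i c := by
    intro j
    by_cases h : (g.coeff j : Mb) / (g.coeff m : Mb) ≠ 0 ∧
        W.v ((g.coeff j : Mb) / (g.coeff m : Mb)) = 0
    · obtain ⟨n, hn⟩ := hL _ (L.div_mem (g.coeff j).2 (g.coeff m).2) h.1 h.2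
      exact ⟨n, by rw [AC.ini, if_pos h, hn]⟩
    · exact ⟨0, by rw [AC.ini, if_neg h, map_zero]⟩
  choose c hc using hc
  have hy0 : W.ge 0 y := Or.inr hv.ge
  have hiy : W.ini 0 y = W.lc y := by rw [AC.ini, if_pos ⟨hy, hv⟩]
  have hsum : ∑ j ∈ Finset.range (g.natDegree + 1),
      (g.coeff j : Mb) / (g.coeff m : Mb) * y ^ j = 0 := by
    rw [Polynomial.eval₂_eq_sum_range] at he
    have h1 : ∑ j ∈ Finset.range (g.natDegree + 1),
        (g.coeff j : Mb) / (g.coeff m : Mb) * y ^ j =
        (∑ j ∈ Finset.range (g.natDegree + 1), L.subtype (g.coeff j) * y ^ j) /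
          (g.coeff m : Mb) := by
      rw [Finset.sum_div]
      refine Finset.sum_congr rfl fun j _ => ?_
      rw [Subfield.coe_subtype]
      ring
    rw [h1, he, zero_div]
  have hterm : ∀ j : ℕ, W.ge 0 ((g.coeff j : Mb) / (g.coeff m : Mb) * y ^ j) ∧
      W.ini 0 ((g.coeff j : Mb) / (g.coeff m : Mb) * y ^ j) = i (c j) * W.lc y ^ j := by
    intro j
    have h1 := W.ge_mul (hge j) (pz_pow W hy0 j).1
    have h2 := W.ini_mul (hge j) (pz_pow W hy0 j).1
    rw [add_zero] at h1 h2
    exact ⟨h1, by rw [h2, (pz_pow W hy0 j).2, hiy, hc j]⟩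
  have hred : ∑ j ∈ Finset.range (g.natDegree + 1), i (c j) * W.lc y ^ j = 0 := by
    have h1 := W.ini_sum (Finset.range (g.natDegree + 1))
      (fun j => (g.coeff j : Mb) / (g.coeff m : Mb) * y ^ j) (fun j _ => (hterm j).1)
    rw [hsum, W.ini_zero] at h1
    rw [h1]
    exact Finset.sum_congr rfl fun j _ => (hterm j).2.symm
  set h : N[X] := ∑ j ∈ Finset.range (g.natDegree + 1), Polynomial.C (c j) * Polynomial.X ^ j
    with hh
  have hco : ∀ k : ℕ, h.coeff k = if k ∈ Finset.range (g.natDegree + 1) then c k else 0 := by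
    intro k
    rw [hh, Polynomial.finsetSum_coeff]
    simp only [Polynomial.coeff_C_mul, Polynomial.coeff_X_pow, mul_ite, mul_one, mul_zero]
    rw [Finset.sum_ite_eq]
  have hcm : c m = 1 := by
    have h1 := hc m
    rw [div_self hm0, W.ini_one] at h1
    exact i.injective (by rw [← h1, map_one])
  have hh0 : h ≠ 0 := by
    intro h0
    have h1 := hco m
    rw [h0, Polynomial.coeff_zero, if_pos (Finset.mem_range.2 (Nat.lt_succ_of_le
      (Polynomial.le_natDegree_of_mem_supp m hm))), hcm] at h1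
    exact zero_ne_one h1
  have hhd : h.natDegree ≤ g.natDegree := by
    rw [Polynomial.natDegree_le_iff_coeff_eq_zero]
    intro k hk
    rw [hco k, if_neg (fun h1 => by rw [Finset.mem_range] at h1; omega)]
  have hhe : h.eval₂ i (W.lc y) = 0 := by
    rw [hh, Polynomial.eval₂_finsetSum]
    simp only [Polynomial.eval₂_mul, Polynomial.eval₂_C, Polynomial.eval₂_X_pow]
    exact hred
  obtain ⟨n, hn⟩ := root_cl hN i h hh0 (lt_of_le_of_lt hhd hd) (W.lc y) hhe
  exact ⟨n, hn.symm⟩

theorem exists_max {d : ℕ} (hN : CLd d N) (i : N →+* Nb) (W : AC Mb Nb) (L0 : Subfield Mb)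
    (h0 : RC W i L0) : ∃ L : Subfield Mb, L0 ≤ L ∧ RC W i L ∧
      ∀ (x : Mb) (f : L[X]), f ≠ 0 → f.natDegree < d → f.eval₂ L.subtype x = 0 → x ∈ L := by
  obtain ⟨L, hL1, hL2⟩ := zorn_le_nonempty₀ {L : Subfield Mb | RC W i L} (by
    intro c hc hchain y hy
    refine ⟨sSup c, ?_, fun z hz => le_sSup hz⟩
    intro x hx hx0 hxv
    obtain ⟨s, hs, hxs⟩ := (Subfield.mem_sSup_of_directedOn ⟨y, hy⟩ hchain.directedOn).1 hx
    exact hc hs x hxs hx0 hxv) L0 h0
  refine ⟨L, hL1, hL2.1, ?_⟩
  intro x f hf hd he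
  have hal : IsIntegral L x := by
    rw [← isAlgebraic_iff_isIntegral]
    exact ⟨f, hf, he⟩
  have hmd : (minpoly L x).natDegree ≤ f.natDegree := by
    have h1 : (Polynomial.aeval x) f = 0 := he
    exact Polynomial.natDegree_le_of_dvd (minpoly.dvd L x h1) hf
  have : FiniteDimensional L (IntermediateField.adjoin L {x}) :=
    IntermediateField.adjoin.finiteDimensional hal
  have hfr : Module.finrank L (IntermediateField.adjoin L {x}) < d := by
    rw [IntermediateField.adjoin.finrank hal]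
    exact lt_of_le_of_lt hmd hd
  have hrc : RC W i (IntermediateField.adjoin L {x}).toSubfield := by
    intro y hy hy0 hyv
    have hy' : y ∈ IntermediateField.adjoin L {x} := hy
    have h1 := minpoly.natDegree_le (A := L) (⟨y, hy'⟩ : IntermediateField.adjoin L {x})
    have hint : IsIntegral L (⟨y, hy'⟩ : IntermediateField.adjoin L {x}) :=
      IsIntegral.of_finite L _
    refine pz_key hN i W L hL2.1 (minpoly L (⟨y, hy'⟩ : IntermediateField.adjoin L {x}))
      (minpoly.ne_zero hint) (lt_of_le_of_lt h1 hfr) y hy0 hyv ?_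
    have h2 := minpoly.aeval L (⟨y, hy'⟩ : IntermediateField.adjoin L {x})
    have h3 := congrArg (IntermediateField.adjoin L {x}).val h2
    rw [map_zero, ← Polynomial.aeval_algHom_apply] at h3
    exact h3
  have hle : L ≤ (IntermediateField.adjoin L {x}).toSubfield := by
    intro z hz
    exact (IntermediateField.adjoin L {x}).algebraMap_mem (⟨z, hz⟩ : L)
  have hle2 : (IntermediateField.adjoin L {x}).toSubfield ≤ L := hL2.2 hrc hle
  exact hle2 (IntermediateField.mem_adjoin_simple_self L x)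

end

end GD3
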