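import Pool.Agent.GD3.Fin1
import Pool.Agent.TLO.T2

set_option autoImplicit false

/-!
# GD3-Res1: descent in degree one and weight three, and vanishing over algebraic extensions of
`F_p(s)`, in terms of the groups `HC`
-/

noncomputable section

open Polynomial TensorProduct
open scoped Classical

namespace GD3

open Helper14.Gon Helper14.W4 Helper14.Loc QPL TGF

universe u

section
variable {M L : Type u} [Field M] [Field L]

/-- injectivity of `H^1(Γ(M, 3) ⊗ ℚ) → H^1(Γ(L, 3) ⊗ ℚ)` for algebraic extensions -/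
theorem hm_inj (φ : M →+* L) (halg : ∀ x : L, ∃ P : M[X], P ≠ 0 ∧ P.eval₂ φ x = 0) :
    Function.Injective (hm 1 0 φ) := by
  rw [injective_iff_map_eq_zero]
  intro x hx
  obtain ⟨z, rfl⟩ : ∃ z : ↥(ZC M 1 0), hc z = x := Submodule.Quotient.mk_surjective _ x
  obtain ⟨h, e⟩ := hm_ind 1 0 φ z
  have e0 : ∀ (L' : Type u) [Field L'] (w : ↥(ZC L' 1 0)), hc w = 0 ↔ w.1 ∈ BC L' 1 0 :=
    fun L' _ w => Submodule.Quotient.mk_eq_zero ((BC L' 1 0).submoduleOf (ZC L' 1 0))
  rw [e, e0] at hx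
  change rs 1 0 φ z.1 ∈ BC L 1 0 at hx
  obtain ⟨w, hw⟩ := t2_surj 0 z.1
  rw [← hw, t2_rs, t2_B] at hx
  have hwZ : w ∈ th2.Z M 0 := by
    rw [← t2_Z, hw]
    exact z.2
  rw [e0, ← hw, t2_B]
  exact inj3 φ halg w hwZ hx

end

section
variable (M F : Type u) [Field M] [Field F] [Algebra M F] [IsAlgClosure M F]

theorem dinj1 : DInj M F 1 0 := by
  refine hm_inj (algebraMap M F) fun x => ?_
  haveI : Algebra.IsAlgebraic M F := IsAlgClosure.isAlgebraic
  obtain ⟨P, hP, h⟩ := Algebra.IsAlgebraic.isAlgebraic (R := M) x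
  exact ⟨P, hP, by rw [← Polynomial.aeval_def]; exact h⟩

end

section
variable (p : ℕ) [Fact p.Prime] (F : Type u) [Field F] [Algebra (RatFunc (ZMod p)) F]
  [Algebra.IsAlgebraic (RatFunc (ZMod p)) F]

include p

private theorem van3_aux (F' : Type u) [Field F'] [Algebra F F'] [IsAlgClosure F F'] :
    Subsingleton (HC F 1 0) := by
  letI : Algebra (RatFunc (ZMod p)) F' :=
    ((algebraMap F F').comp (algebraMap (RatFunc (ZMod p)) F)).toAlgebra
  haveI : IsScalarTower (RatFunc (ZMod p)) F F' := IsScalarTower.of_algebraMap_eq' rfl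
  haveI : Algebra.IsAlgebraic F F' := IsAlgClosure.isAlgebraic
  haveI : IsAlgClosed F' := IsAlgClosure.isAlgClosed F
  haveI : Algebra.IsAlgebraic (RatFunc (ZMod p)) F' :=
    Algebra.IsAlgebraic.trans (RatFunc (ZMod p)) F F'
  haveI : Subsingleton (HC F' 1 0) := van1 p F' L2 (recP _ L2) 0
  exact (dinj1 F F').subsingleton

/-- `H^1(Γ(F, 3) ⊗ ℚ) = 0` for `F` algebraic over `F_p(s)` -/
theorem van3 : Subsingleton (HC F 1 0) := van3_aux p F (AlgebraicClosure F)

/-- `H^1(Γ(F(t), 3) ⊗ ℚ) = 0` for `F` algebraic over `F_p(s)` -/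
theorem van3t : Subsingleton (HC (RatFunc F) 1 0) :=
  TLO.sub_of_bij 1 (TLO.bij_one 1 (locOne 1)) (van3 p F)

end

end GD3
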