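import Pool.Agent.GD3.Res1
import Pool.Agent.TGF.Fin

set_option autoImplicit false

/-!
# GD3-Res2: injectivity for arbitrary field extensions, descent for normal extensions
-/

noncomputable section

open Polynomial TensorProduct
open scoped Classical

namespace GD3

open Helper14.Gon Helper14.W4 Helper14.Loc QPL TGF

universe u

section
variable {M L : Type u} [Field M] [Field L]

/-- a homomorphism of fields fits into a square with the algebraic closures -/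
private theorem res2_sq (φ : M →+* L) : ∃ (Mb Lb : Type u) (_ : Field Mb) (_ : Field Lb)
    (_ : IsAlgClosed Mb) (i : M →+* Mb) (q : L →+* Lb) (ψ : Mb →+* Lb),
    (∀ x : Mb, ∃ P : M[X], P ≠ 0 ∧ P.eval₂ i x = 0) ∧ ψ.comp i = q.comp φ := by
  letI : Algebra M L := φ.toAlgebra
  letI : Algebra M (AlgebraicClosure L) :=
    ((algebraMap L (AlgebraicClosure L)).comp φ).toAlgebra
  let ψ : AlgebraicClosure M →ₐ[M] AlgebraicClosure L := IsAlgClosed.lift
  refine ⟨AlgebraicClosure M, AlgebraicClosure L, inferInstance, inferInstance, inferInstance,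
    algebraMap M (AlgebraicClosure M), algebraMap L (AlgebraicClosure L), (ψ : _ →+* _),
    fun x => ?_, ?_⟩
  · obtain ⟨P, hP, h⟩ := Algebra.IsAlgebraic.isAlgebraic (R := M) x
    exact ⟨P, hP, by rw [← Polynomial.aeval_def]; exact h⟩
  · exact RingHom.ext fun x => ψ.commutes x

/-- null cochains are detected in arbitrary extensions -/
private theorem res2_ext (H : Thy.{u}) (hH : Laws H) (j : ℕ)
    (hI : ∀ (M F : Type u) [Field M] [Field F] (φ : M →+* F),
      (∀ x : F, ∃ P : M[X], P ≠ 0 ∧ P.eval₂ φ x = 0) → ∀ z : H.Y M j, z ∈ H.Z M j →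
      H.map φ j z ∈ H.N F j → z ∈ H.N M j) (φ : M →+* L) (z : H.Y M j) (hz : z ∈ H.Z M j)
    (h : H.map φ j z ∈ H.N L j) : z ∈ H.N M j := by
  obtain ⟨Mb, Lb, _, _, _, i, q, ψ, halg, hsq⟩ := res2_sq φ
  refine hI M Mb i halg z hz (hH.inj Mb Lb ψ j _ ?_)
  rw [← hH.map_comp, hsq, hH.map_comp]
  exact hH.map_N _ _ q j _ h

private theorem res2_hc0 {k j : ℕ} (w : ↥(ZC L k j)) : hc w = 0 ↔ w.1 ∈ BC L k j :=
  Submodule.Quotient.mk_eq_zero ((BC L k j).submoduleOf (ZC L k j))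

private theorem res2_hm (H : Thy.{u}) (hH : Laws H) (k j : ℕ)
    (t : (L : Type u) → [Field L] → H.Y L j →ₗ[ℚ] CC k j L)
    (t_surj : ∀ (L : Type u) [Field L] (y : CC k j L), ∃ z, t L z = y)
    (t_Z : ∀ (L : Type u) [Field L] (z : H.Y L j), t L z ∈ ZC L k j ↔ z ∈ H.Z L j)
    (t_B : ∀ (L : Type u) [Field L] (z : H.Y L j), t L z ∈ BC L k j ↔ z ∈ H.N L j)
    (t_rs : ∀ (L L' : Type u) [Field L] [Field L'] (φ : L →+* L') (z : H.Y L j),
      rs k j φ (t L z) = t L' (H.map φ j z))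
    (hI : ∀ (M F : Type u) [Field M] [Field F] (φ : M →+* F),
      (∀ x : F, ∃ P : M[X], P ≠ 0 ∧ P.eval₂ φ x = 0) → ∀ z : H.Y M j, z ∈ H.Z M j →
      H.map φ j z ∈ H.N F j → z ∈ H.N M j) (φ : M →+* L) :
    Function.Injective (hm k j φ) := by
  rw [injective_iff_map_eq_zero]
  intro x hx
  obtain ⟨z, rfl⟩ : ∃ z : ↥(ZC M k j), hc z = x := Submodule.Quotient.mk_surjective _ x
  obtain ⟨h, e⟩ := hm_ind k j φ z
  rw [e, res2_hc0] at hx
  change rs k j φ z.1 ∈ BC L k j at hx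
  obtain ⟨w, hw⟩ := t_surj M z.1
  rw [← hw, t_rs, t_B] at hx
  have hwZ : w ∈ H.Z M j := by
    rw [← t_Z, hw]
    exact z.2
  rw [res2_hc0, ← hw, t_B]
  exact res2_ext H hH j hI φ w hwZ hx

/-- `H^{n-1}(Γ(M, n) ⊗ ℚ) → H^{n-1}(Γ(L, n) ⊗ ℚ)` is injective -/
theorem inj0 (j : ℕ) (φ : M →+* L) : Function.Injective (hm 0 j φ) :=
  res2_hm th1 L1 0 j (fun _ _ => t1 j) (fun _ _ y => t1_surj j y) (fun _ _ z => t1_Z j z)
    (fun _ _ z => t1_B j z) (fun _ _ _ _ φ z => t1_rs j φ z)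
    (fun _ _ _ _ φ halg z hz h => inj_alg th1 L1 exact1 φ halg j z hz h) φ

/-- `H^1(Γ(M, 3) ⊗ ℚ) → H^1(Γ(L, 3) ⊗ ℚ)` is injective -/
theorem inj1 (φ : M →+* L) : Function.Injective (hm 1 0 φ) :=
  res2_hm th2 L2 1 0 (fun _ _ => t2 0) (fun _ _ y => t2_surj 0 y) (fun _ _ z => t2_Z 0 z)
    (fun _ _ z => t2_B 0 z) (fun _ _ _ _ φ z => t2_rs 0 φ z)
    (fun _ _ _ _ φ halg z hz h => inj3 φ halg z hz h) φ

/-- `H^n(Γ(M, n) ⊗ ℚ) → H^n(Γ(L, n) ⊗ ℚ)` is injective -/
theorem injT (n : ℕ) (φ : M →+* L) : Function.Injective (hmt n φ) := by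
  rw [injective_iff_map_eq_zero]
  intro x hx
  obtain ⟨z, rfl⟩ : ∃ z : TT n M, ht z = x := Submodule.Quotient.mk_surjective _ x
  have e0 : ∀ (L' : Type u) [Field L'] (w : TT n L'), ht w = 0 ↔ w ∈ BT L' n :=
    fun L' _ w => Submodule.Quotient.mk_eq_zero (BT L' n)
  obtain ⟨w, hw⟩ := t0_surj n z
  rw [hmt_ind n φ z, e0, ← hw, t0_rt, t0_B] at hx
  rw [e0, ← hw, t0_B]
  exact res2_ext th0 L0 n (fun _ _ _ _ φ halg z hz h => inj_alg th0 L0 exact0 φ halg n z hz h)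
    φ w (Submodule.mem_top : (show Tx n M from w) ∈ (⊤ : Submodule ℚ (Tx n M))) hx

end

section
variable {F F' F'' : Type u} [Field F] [Field F'] [Field F'']

private theorem res2_hmc (H : Thy.{u}) (hH : Laws H) (k j : ℕ)
    (t : (L : Type u) → [Field L] → H.Y L j →ₗ[ℚ] CC k j L)
    (t_surj : ∀ (L : Type u) [Field L] (y : CC k j L), ∃ z, t L z = y)
    (t_rs : ∀ (L L' : Type u) [Field L] [Field L'] (φ : L →+* L') (z : H.Y L j),
      rs k j φ (t L z) = t L' (H.map φ j z)) (φ : F →+* F') (ψ : F' →+* F'') (x : HC F k j) :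
    hm k j (ψ.comp φ) x = hm k j ψ (hm k j φ x) := by
  obtain ⟨z, rfl⟩ : ∃ z : ↥(ZC F k j), hc z = x := Submodule.Quotient.mk_surjective _ x
  obtain ⟨h, e⟩ := hm_ind k j φ z
  obtain ⟨h', e'⟩ := hm_ind k j ψ ⟨_, h⟩
  obtain ⟨h'', e''⟩ := hm_ind k j (ψ.comp φ) z
  rw [e, e', e'']
  congr 1
  refine Subtype.ext ?_
  change rs k j (ψ.comp φ) z.1 = rs k j ψ (rs k j φ z.1)
  obtain ⟨w, hw⟩ := t_surj F z.1
  rw [← hw, t_rs, t_rs, t_rs, hH.map_comp]

private theorem res2_c0 (j : ℕ) (φ : F →+* F') (ψ : F' →+* F'') (x : HC F 0 j) :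
    hm 0 j (ψ.comp φ) x = hm 0 j ψ (hm 0 j φ x) :=
  res2_hmc th1 L1 0 j (fun _ _ => t1 j) (fun _ _ y => t1_surj j y)
    (fun _ _ _ _ φ z => t1_rs j φ z) φ ψ x

private theorem res2_c1 (j : ℕ) (φ : F →+* F') (ψ : F' →+* F'') (x : HC F 1 j) :
    hm 1 j (ψ.comp φ) x = hm 1 j ψ (hm 1 j φ x) :=
  res2_hmc th2 L2 1 j (fun _ _ => t2 j) (fun _ _ y => t2_surj j y)
    (fun _ _ _ _ φ z => t2_rs j φ z) φ ψ x

private theorem res2_cT (n : ℕ) (φ : F →+* F') (ψ : F' →+* F'') (x : HT F n) :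
    hmt n (ψ.comp φ) x = hmt n ψ (hmt n φ x) := by
  obtain ⟨z, rfl⟩ : ∃ z : TT n F, ht z = x := Submodule.Quotient.mk_surjective _ x
  rw [hmt_ind n φ z, hmt_ind n ψ _, hmt_ind n (ψ.comp φ) z]
  obtain ⟨w, hw⟩ := t0_surj n z
  rw [← hw, t0_rt, t0_rt, t0_rt, L0.map_comp]

end

section
variable (M L : Type u) [Field M] [Field L] [Algebra M L] [Normal M L]

/-- the general descent argument: a functor with injective maps -/
private theorem res2_desc (A : (F : Type u) → [Field F] → Type u)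
    (m : (F F' : Type u) → [Field F] → [Field F'] → (F →+* F') → A F → A F')
    (mc : ∀ (F F' F'' : Type u) [Field F] [Field F'] [Field F''] (φ : F →+* F') (ψ : F' →+* F'')
      (x : A F), m F F'' (ψ.comp φ) x = m F' F'' ψ (m F F' φ x))
    (hi : ∀ (F F' : Type u) [Field F] [Field F'] (φ : F →+* F'), Function.Injective (m F F' φ))
    (hd : ∀ (F : Type u) [Field F] [Algebra M F] [IsAlgClosure M F] (c : A F),
      (∃ x : A M, m M F (algebraMap M F) x = c) ↔ ∀ σ : F ≃ₐ[M] F, m F F (σ : F →+* F) c = c)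
    (c : A L) : (∃ x : A M, m M L (algebraMap M L) x = c) ↔
      ∀ σ : L ≃ₐ[M] L, m L L (σ : L →+* L) c = c := by
  constructor
  · rintro ⟨x, rfl⟩ σ
    rw [← mc]
    congr 1
    exact RingHom.ext fun x => σ.commutes x
  · intro hσ
    have halg : Algebra.IsAlgebraic M (AlgebraicClosure L) :=
      Algebra.IsAlgebraic.trans M L (AlgebraicClosure L)
    haveI : IsAlgClosure M (AlgebraicClosure L) := ⟨inferInstance, halg⟩
    obtain ⟨x, hx⟩ := (hd (AlgebraicClosure L)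
      (m L (AlgebraicClosure L) (algebraMap L (AlgebraicClosure L)) c)).2 (by
      intro σ
      rw [← mc]
      have h1 : (σ : AlgebraicClosure L →+* AlgebraicClosure L).comp
          (algebraMap L (AlgebraicClosure L)) =
          (algebraMap L (AlgebraicClosure L)).comp ((σ.restrictNormal L : L ≃ₐ[M] L) : L →+* L) :=
        RingHom.ext fun x => (σ.restrictNormal_commutes L x).symm
      rw [h1, mc, hσ])
    refine ⟨x, hi L (AlgebraicClosure L) (algebraMap L (AlgebraicClosure L)) ?_⟩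
    rw [← mc, ← hx]
    congr 1

/-- descent in degree `n - 1` for normal algebraic extensions -/
theorem descN0 (j : ℕ) : Desc M L 0 j := fun c =>
  res2_desc M L (fun F _ => HC F 0 j) (fun _ _ _ _ φ => hm 0 j φ)
    (fun _ _ _ _ _ _ φ ψ x => res2_c0 j φ ψ x) (fun _ _ _ _ φ => inj0 j φ)
    (fun F _ _ _ => desc0 M F L1 (trP _ L1) j) c

/-- descent in degree `1` and weight `3` for normal algebraic extensions -/
theorem descN1 : Desc M L 1 0 := fun c =>
  res2_desc M L (fun F _ => HC F 1 0) (fun _ _ _ _ φ => hm 1 0 φ)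
    (fun _ _ _ _ _ _ φ ψ x => res2_c1 0 φ ψ x) (fun _ _ _ _ φ => inj1 φ)
    (fun F _ _ _ => desc1 M F L2 (trP _ L2) 0) c

/-- descent in degree `n` for normal algebraic extensions -/
theorem descNT (n : ℕ) : DescT M L n := fun c =>
  res2_desc M L (fun F _ => HT F n) (fun _ _ _ _ φ => hmt n φ)
    (fun _ _ _ _ _ _ φ ψ x => res2_cT n φ ψ x) (fun _ _ _ _ φ => injT n φ)
    (fun F _ _ _ => descT M F L0 (trP _ L0) n) c

end

end GD3
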