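import Pool.Agent.GD3.Desc
import Pool.Agent.GD3.Fr

set_option autoImplicit false

/-!
# GD3-Rho: the total residue of a formal cocycle over a large field

The points of `L` are grouped along their minimal polynomials over `M` (`fiber_sum`): the point
`p` has no root in `L`, the points of smaller degree are treated by `desc`, at the points outside of
the level the residue is `0`, and the point at infinity is treated by `re_inf`.
-/

noncomputable section

open Polynomial TensorProduct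
open scoped Classical

namespace GD3

open Helper14.Gon Helper14.W4 QPL TGF

universe u

section
variable {M k L : Type u} [Field M] [Field k] [Field L]

private lemma Rho_cld {m n : ℕ} (h : m ≤ n) {F : Type u} [Field F] (hF : CLd n F) : CLd m F :=
  fun f h0 h1 => hF f h0 (lt_of_lt_of_le h1 h)

private lemma Rho_tr (ι : M →+* L) (a : L) (ha : ∀ P : M[X], P ≠ 0 → P.eval₂ ι a ≠ 0)
    (z : X 1 (RatFunc M)) : reX (VA a) 0 (mX 1 (rm ι) z) = 0 :=
  re_tr th2 L2 ι a (VA a) (VA_at a) ha 0 z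

private lemma Rho_inf (ι : M →+* L) (W : AC (RatFunc L) L) (hW : IsInf W)
    (W' : AC (RatFunc M) M) (hW' : IsInf W') (z : X 1 (RatFunc M)) :
    reX W 0 (mX 1 (rm ι) z) = mX 0 ι (reX W' 0 z) :=
  re_inf th2 L2 ι W hW W' hW' 0 z

private lemma Rho_cz (W : AC (RatFunc M) M) (c : C1 (RatFunc M)) (hc : c ∈ CZ (RatFunc M)) :
    reX W 0 c.1 ∈ ZX 0 M := cz_res W hc

private lemma Rho_czi (c : C1 (RatFunc M)) (hc : c ∈ CZ (RatFunc M)) :
    reX (VI : AC (RatFunc M) M) 0 c.1 ∈ ZX 0 M := Rho_cz VI c hc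

theorem rho_lift (p : SRG.Pl M k) (ι : M →+* L) (hL : CLd p.d L)
    (hr : ∀ a : L, p.P.eval₂ ι a ≠ 0) (c : C1 (RatFunc M)) (hc : c ∈ CZ (RatFunc M))
    (hl : c.1 ∈ Lv 1 (insert p.P (SRG.lt M p.d))) :
    ∃ z ∈ ZX 0 M, tot (mX 1 (rm ι) c.1) - mX 0 ι z ∈ NX 0 L := by
  set D : Submodule ℚ (X 0 L) := (ZX 0 M).map (mX 0 ι) ⊔ NX 0 L with hD
  have hND : ∀ x, x ∈ NX 0 L → x ∈ D := fun x hx => Submodule.mem_sup_right hx
  have hZD : ∀ x, x ∈ ZX 0 M → mX 0 ι x ∈ D := fun x hx =>
    Submodule.mem_sup_left (Submodule.mem_map_of_mem hx)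
  obtain ⟨S, hS⟩ := res_fin (mX 1 (rm ι) c.1)
  have hfib := fiber_sum ι D.toAddSubgroup (fun a => reX (VA a) 0 (mX 1 (rm ι) c.1)) S hS
    p.P p.monic p.irr (fun a ha => Rho_tr ι a ha c.1) (by
      intro P hm hi hne
      obtain ⟨k', _, p', rfl⟩ := exists_pl_irr P hm hi
      obtain ⟨V', hV'⟩ := TGF.exists_pt p'
      obtain ⟨T', hT'⟩ := exists_T' ι p'
      obtain ⟨m, _, hm'⟩ := sum_roots' ι p' V' hV' T' hT' c.1
      change ∑ a ∈ (p'.P.map ι).roots.toFinset, reX (VA a) 0 (mX 1 (rm ι) c.1) ∈ D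
      rw [hm']
      refine D.smul_mem _ ?_
      by_cases hd : p'.P.natDegree < p.d
      · have hcl : CLd (p'.d + 1) L := Rho_cld (by unfold SRG.Pl.d at hd ⊢; omega) hL
        obtain ⟨s, hs, h1⟩ := desc p' ι hcl T' hT' (reX V' 0 c.1) (cz_res V' hc)
        have h2 := D.add_mem (hND _ h1) (hZD _ hs)
        rw [sub_add_cancel] at h2
        exact h2
      · have hnot : p'.P ∉ insert p.P (SRG.lt M p.d) := by
          intro h
          rcases Set.mem_insert_iff.1 h with h | h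
          · exact hne h
          · exact hd h.2.2
        rw [reX_Lv hV' hnot 0 hl]
        have h0 : ∑ y ∈ T', mX 0 y (0 : X 0 k') = 0 :=
          Finset.sum_eq_zero fun y _ => map_zero _
        rw [h0]
        exact zero_mem _)
  have hroot : (p.P.map ι).roots.toFinset = ∅ := by
    refine Finset.eq_empty_of_forall_notMem fun a ha => ?_
    rw [Multiset.mem_toFinset, Polynomial.mem_roots (p.monic.map ι).ne_zero,
      Polynomial.IsRoot.def, Polynomial.eval_map] at ha
    exact hr a ha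
  rw [hroot, Finset.sum_empty, sub_zero] at hfib
  have hfib' : ∑ a ∈ S, reX (VA a) 0 (mX 1 (rm ι) c.1) ∈ D := hfib
  have hinf : reX VI 0 (mX 1 (rm ι) c.1) ∈ D := by
    rw [Rho_inf ι VI VI_inf VI VI_inf c.1]
    exact hZD _ (Rho_czi c hc)
  have htot : tot (mX 1 (rm ι) c.1) ∈ D := by
    rw [tot_eq _ S hS]
    exact D.add_mem hfib' hinf
  obtain ⟨x, hx, y, hy, h⟩ := Submodule.mem_sup.1 htot
  obtain ⟨s, hs, rfl⟩ := hx
  refine ⟨s, hs, ?_⟩
  rw [← h, add_sub_cancel_left]
  exact hy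

end

end GD3
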