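import Pool.Agent.GD3.Fr
import Pool.Agent.TGF.RL

set_option autoImplicit false

/-!
# GD3-Rl1: the reduction lemma with two slots and formal stars

PLAN.  `RL_core hS hP hV 1 U hU hk` exactly as in the case succ of `TGF.RL` (i = 0): U is the span of the bx x μ, El (insert P S) x, μ ∈ TS 1 (SG S), and of the star 0 x y μ, μ ∈ TS 0 (SG S) with El S x, x ≠ 0, 1, El (insert P S) y, y ≠ 0, 0 < V.v y; hk by psi_ker_succ.
By span_induction on A ∈ U: there are A' ∈ Lw p S 1, σ ∈ DL (insert P S) with d3 1 A - dC1 E (A', σ) ∈ Rel 2 E: for a star element with μ = q • u0 (e0_inj): σ = q • sb x y, by d3_star (TGF/Star1.lean; y ≠ 1 as v y > 0, x ≠ y as v x = 0): d3 1 (star 0 x y u0) - dS (sb x y) ∈ Rel 2.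
-/

noncomputable section

open Polynomial TensorProduct
open scoped Classical

namespace GD3

open Helper14.Gon Helper14.W4 QPL TGF

universe u

section
variable {K k : Type u} [Field K] [Field k] {p : SRG.Pl K k} {V : AC (RatFunc K) k}
  {S : Set K[X]}

private lemma rl1_star {F : Type u} [Field F] {x y : F} (hx : x ≠ 0) (hx1 : x ≠ 1) (hy : y ≠ 0)
    (hy1 : y ≠ 1) (hxy : x ≠ y) (μ : Tx 0 F) :
    d3 1 (star 0 x y μ) - dC1 F (0, e0 F μ • sb x y) ∈ Rel 2 F := by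
  have h1 := d3_star 0 hx hx1 hy hy1 hxy (u0 F)
  have h2 : star 0 x y μ = e0 F μ • star 0 x y (u0 F) := by
    conv_lhs => rw [← e0_inj μ]
    simp only [TGF.star, map_smul, bx_smul, smul_sub, smul_add]
  have h3 : d3 1 (star 0 x y μ) - dC1 F (0, e0 F μ • sb x y) =
      e0 F μ • (d3 (0 + 1) (star 0 x y (u0 F)) + bx x (wT (0 + 1) (lg (1 - y)) (wT 0 (lg y) (u0 F))) -
        bx y (wT (0 + 1) (lg (1 - x)) (wT 0 (lg x) (u0 F)))) := by
    rw [h2, dC1_apply]
    change d3 (0 + 1) (e0 F μ • star 0 x y (u0 F)) - (d3 1 (0 : X 1 F) + dS F (e0 F μ • sb x y)) = _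
    rw [map_zero (d3 1), zero_add (dS F (e0 F μ • sb x y)), map_smul, map_smul, dS_sb, ← smul_sub]
    congr 1
    change d3 (0 + 1) (star 0 x y (u0 F)) - (bx y (wT (0 + 1) (lg (1 - x)) (wT 0 (lg x) (u0 F))) -
      bx x (wT (0 + 1) (lg (1 - y)) (wT 0 (lg y) (u0 F)))) = _
    abel
  rw [h3]
  exact Submodule.smul_mem _ _ h1

theorem rl1 (hS : SRG.Adm S p.d) (hP : p.P ∉ S) (hV : IsPt p V) {y : X 2 (RatFunc K)}
    (hy : y ∈ Lv 2 (insert p.P S)) (h2 : d2 2 y = 0) (hr : reX V 1 y ∈ Rel 1 k) :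
    ∃ A ∈ Lw p S 1, ∃ σ ∈ DL (insert p.P S), ∃ y' ∈ Lv 2 S,
      y - dC1 (RatFunc K) (A, σ) - y' ∈ Rel 2 (RatFunc K) := by
  obtain ⟨A, hA, y', hy', h⟩ := RL_core hS hP hV (0 + 1)
      (Submodule.span ℚ ({z | ∃ (x : RatFunc K) (μ : Tx (0 + 1) (RatFunc K)),
        El (insert p.P S) x ∧ μ ∈ TS (0 + 1) (SG S) ∧ z = bx x μ} ∪
        {z | ∃ (x y : RatFunc K) (μ : Tx 0 (RatFunc K)), El S x ∧ x ≠ 0 ∧ x ≠ 1 ∧
          El (insert p.P S) y ∧ y ≠ 0 ∧ 0 < V.v y ∧ μ ∈ TS 0 (SG S) ∧ z = star 0 x y μ}))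
      (fun x hx μ hμ => Submodule.subset_span (Or.inl ⟨x, μ, hx, hμ, rfl⟩))
      (fun ψ hp hu x hx μ hμ h0 => psi_ker_succ hS hP hV hp
        (fun x y hx hx0 hx1 hy hy0 hv μ hμ => hu _ (Submodule.subset_span
          (Or.inr ⟨x, y, μ, hx, hx0, hx1, hy, hy0, hv, hμ, rfl⟩))) hx hμ h0) hy h2 hr
  have key : ∃ A' ∈ Lw p S 1, ∃ σ ∈ DL (insert p.P S),
      d3 1 A - dC1 (RatFunc K) (A', σ) ∈ Rel 2 (RatFunc K) := by
    clear h
    induction hA using Submodule.span_induction with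
    | mem z hz =>
      rcases hz with ⟨x, μ, hx, hμ, rfl⟩ | ⟨x, y, μ, hx, hx0, hx1, hy, hy0, hv, hμ, rfl⟩
      · refine ⟨bx x μ, Submodule.subset_span ⟨x, μ, hx, hμ, rfl⟩, 0, Submodule.zero_mem _, ?_⟩
        rw [dC1_apply]
        simp only [map_zero, add_zero, sub_self]
        exact Submodule.zero_mem _
      · have hy1 : y ≠ 1 := by
          rintro rfl
          rw [v_one] at hv
          exact lt_irrefl _ hv
        have hxy : x ≠ y := by
          rintro rfl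
          have h3 := SG_v hV hP hx.1
          rw [TGF.vH_lg V hx0] at h3
          rw [h3] at hv
          exact lt_irrefl _ hv
        refine ⟨0, Submodule.zero_mem _, e0 (RatFunc K) μ • sb x y, Submodule.smul_mem _ _
          (Submodule.subset_span ⟨x, y, El_mono (Set.subset_insert p.P S) hx, hy, rfl⟩), ?_⟩
        exact rl1_star hx0 hx1 hy0 hy1 hxy μ
    | zero =>
      refine ⟨0, Submodule.zero_mem _, 0, Submodule.zero_mem _, ?_⟩
      rw [dC1_apply]
      simp only [map_zero, add_zero, sub_self]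
      exact Submodule.zero_mem _
    | add a b _ _ ha hb =>
      obtain ⟨A1, hA1, σ1, hσ1, e1⟩ := ha
      obtain ⟨A2, hA2, σ2, hσ2, e2⟩ := hb
      refine ⟨A1 + A2, Submodule.add_mem _ hA1 hA2, σ1 + σ2, Submodule.add_mem _ hσ1 hσ2, ?_⟩
      have e3 := Submodule.add_mem _ e1 e2
      have e4 : d3 1 (a + b) - dC1 (RatFunc K) (A1 + A2, σ1 + σ2) =
          d3 1 a - dC1 (RatFunc K) (A1, σ1) + (d3 1 b - dC1 (RatFunc K) (A2, σ2)) := by
        simp only [dC1_apply, map_add]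
        abel
      rw [e4]
      exact e3
    | smul c a _ ha =>
      obtain ⟨A1, hA1, σ1, hσ1, e1⟩ := ha
      refine ⟨c • A1, Submodule.smul_mem _ _ hA1, c • σ1, Submodule.smul_mem _ _ hσ1, ?_⟩
      have e4 : d3 1 (c • a) - dC1 (RatFunc K) (c • A1, c • σ1) =
          c • (d3 1 a - dC1 (RatFunc K) (A1, σ1)) := by
        simp only [dC1_apply, map_smul, smul_sub, smul_add]
      rw [e4]
      exact Submodule.smul_mem _ _ e1
  obtain ⟨A', hA', σ, hσ, e⟩ := key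
  refine ⟨A', hA', σ, hσ, y', hy', ?_⟩
  have e5 : y - dC1 (RatFunc K) (A', σ) - y' =
      (y - d3 (0 + 1) A - y') + (d3 1 A - dC1 (RatFunc K) (A', σ)) := by
    change y - dC1 (RatFunc K) (A', σ) - y' = (y - d3 1 A - y') + (d3 1 A - dC1 (RatFunc K) (A', σ))
    abel
  rw [e5]
  exact Submodule.add_mem _ h e

end

end GD3
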