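import Pool.Agent.GD3.Cls
import Pool.Agent.GD3.Lam

set_option autoImplicit false

/-!
# GD3-Tau1: the star relation in a class

`tau_self`: the relation `[x] x = 0` for the quotient of two elements of a class; `tau_star`: the
star relation for the quotients of three elements of a class.
-/

noncomputable section

open Polynomial TensorProduct
open scoped Classical

namespace GD3

open Helper14.Gon Helper14.W4 QPL TGF

universe u

section
variable {K k : Type u} [Field K] [Field k] {p : SRG.Pl K k} {V : AC (RatFunc K) k}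
  {S : Set K[X]}

private lemma Tau1_ne {A : K[X]} (hA : A ≠ 0) : algebraMap K[X] (RatFunc K) A ≠ 0 :=
  RatFunc.algebraMap_ne_zero hA

private lemma Tau1_sm_insert {P A : K[X]} (h : SRG.Sm S A) : SRG.Sm (insert P S) A := by
  rcases h with h | h
  · exact Or.inl h
  · exact Or.inr fun Q h1 h2 h3 => Set.mem_insert_of_mem _ (h Q h1 h2 h3)

private lemma Tau1_sm_mul {D : K[X]} (hD : SRG.Sm S D) : SRG.Sm (insert p.P S) (p.P * D) := by
  rcases hD with hD | hD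
  · left
    rw [hD, mul_zero]
  · right
    intro Q h1 h2 h3
    rcases h2.prime.dvd_or_dvd h3 with h4 | h4
    · left
      exact Polynomial.eq_of_monic_of_associated h1 p.monic (h2.associated_of_dvd p.irr h4)
    · exact Set.mem_insert_of_mem _ (hD Q h1 h2 h4)

private lemma Tau1_mem {T : Set K[X]} {A : K[X]} (hA : A ≠ 0) (sA : SRG.Sm T A) :
    SRG.pl A ∈ SG T :=
  AddSubgroup.subset_closure ⟨A, hA, sA, rfl⟩

private lemma Tau1_nd (hP : p.P ∉ S) {A : K[X]} (hA : A ≠ 0) (sA : SRG.Sm S A) : ¬ p.P ∣ A := by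
  intro h
  rcases sA with h1 | h1
  · exact hA h1
  · exact hP (h1 p.P p.monic p.irr h)

private lemma Tau1_vH (hP : p.P ∉ S) (hV : IsPt p V) {A : K[X]} (hA : A ≠ 0)
    (sA : SRG.Sm S A) : V.vH (SRG.pl A) = 0 := by
  have h1 : V.vH (SRG.pl A) = V.v (algebraMap K[X] (RatFunc K) A) := TGF.vH_lg V (Tau1_ne hA)
  rw [h1]
  exact hV.v A (Tau1_nd hP hA sA)

private lemma Tau1_lg {A B : K[X]} (hA : A ≠ 0) (hB : B ≠ 0) :
    lg (algebraMap K[X] (RatFunc K) A / algebraMap K[X] (RatFunc K) B) = SRG.pl A - SRG.pl B :=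
  SRG.lg_div_pl hA hB

private lemma Tau1_one_sub {A B C : K[X]} (hB : B ≠ 0) (h : B - A = C) :
    1 - algebraMap K[X] (RatFunc K) A / algebraMap K[X] (RatFunc K) B =
      algebraMap K[X] (RatFunc K) C / algebraMap K[X] (RatFunc K) B := by
  have hb : algebraMap K[X] (RatFunc K) B ≠ 0 := Tau1_ne hB
  rw [← h, map_sub, _root_.sub_div, div_self hb]

private lemma Tau1_w1 {g : Additive (RatFunc K)ˣ} (hg : g ∈ SG S) : w1 g ∈ TS 1 (SG S) :=
  wT_mem_TS 0 hg (TS_zero _ _)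

private lemma Tau1_w1_zero : w1 (0 : Additive (RatFunc K)ˣ) = 0 := by
  rw [w1, wT_zero]
  rfl

private lemma Tau1_el {A B C : K[X]} (hA : A ≠ 0) (hB : B ≠ 0) (hC : C ≠ 0) (h : B - A = C)
    (mA : SRG.pl A ∈ SG S) (mB : SRG.pl B ∈ SG S) (mC : SRG.pl C ∈ SG S) :
    El S (algebraMap K[X] (RatFunc K) A / algebraMap K[X] (RatFunc K) B) := by
  refine ⟨?_, ?_⟩
  · rw [Tau1_lg hA hB]
    exact sub_mem mA mB
  · rw [Tau1_one_sub hB h, Tau1_lg hC hB]
    exact sub_mem mC mB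

variable {W : Type u} [AddCommGroup W] [Module ℚ W]

private theorem Tau1_un (hS : SRG.Adm S p.d) (hP : p.P ∉ S) (hV : IsPt p V)
    {ψ : X 1 (RatFunc K) →ₗ[ℚ] W}
    {b : Additive (RatFunc K)ˣ →+ Additive (RatFunc K)ˣ →+ (Tx 1 (RatFunc K) →ₗ[ℚ] W)}
    {ν : SRG.FV (RatFunc K) (Tx 1 (RatFunc K) →ₗ[ℚ] W)} (H : BNL p V S ψ b ν)
    {c : k} {u w : K[X]} (hu : XA p S c u) (hw : XA p S c w) (huw : u ≠ w)
    {μ : Tx 1 (RatFunc K)} (hμ : μ ∈ TS 1 (SG S)) :
    ψ (bx (algebraMap K[X] (RatFunc K) u / algebraMap K[X] (RatFunc K) w) μ) =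
      b (SRG.pl u - SRG.pl w) (SRG.pl u - SRG.pl w) μ := by
  obtain ⟨D, hD, sD, hD0⟩ := xa_sub hS hP hw hu
  have hDne : D ≠ 0 := hD0 huw.symm
  have hPne : p.P ≠ 0 := p.irr.ne_zero
  have hPD : p.P * D ≠ 0 := mul_ne_zero hPne hDne
  have e1 := Tau1_lg (K := K) hu.1 hw.1
  have e2 := Tau1_one_sub (K := K) hw.1 hD
  have e3 := Tau1_lg (K := K) hPD hw.1
  have hv : V.vH (lg (algebraMap K[X] (RatFunc K) u / algebraMap K[X] (RatFunc K) w)) = 0 := by
    rw [e1, map_sub, Tau1_vH hP hV hu.1 hu.2.1, Tau1_vH hP hV hw.1 hw.2.1, sub_zero]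
  have hv1 : V.vH (lg (1 - algebraMap K[X] (RatFunc K) u / algebraMap K[X] (RatFunc K) w)) =
      1 := by
    have h1 : V.vH (SRG.pl p.P) = V.v (algebraMap K[X] (RatFunc K) p.P) :=
      TGF.vH_lg V (Tau1_ne hPne)
    rw [e2, e3, SRG.pl_mul hPne hDne, map_sub, map_add, h1, hV.vP, Tau1_vH hP hV hDne sD,
      Tau1_vH hP hV hw.1 hw.2.1]
    norm_num
  have hE : El (insert p.P S)
      (algebraMap K[X] (RatFunc K) u / algebraMap K[X] (RatFunc K) w) := by
    refine Tau1_el hu.1 hw.1 hPD hD (Tau1_mem hu.1 (Tau1_sm_insert hu.2.1))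
      (Tau1_mem hw.1 (Tau1_sm_insert hw.2.1)) (Tau1_mem hPD (Tau1_sm_mul sD))
  have h := H.un _ hE hv μ hμ
  rw [hv1, one_smul, e1] at h
  exact h

theorem tau_self (hS : SRG.Adm S p.d) (hP : p.P ∉ S) (hV : IsPt p V)
    {ψ : X 1 (RatFunc K) →ₗ[ℚ] W} {ϕ : RatFunc K → RatFunc K → W} (h : FS ψ ϕ) (hk : KL S ψ ϕ)
    {b : Additive (RatFunc K)ˣ →+ Additive (RatFunc K)ˣ →+ (Tx 1 (RatFunc K) →ₗ[ℚ] W)}
    {ν : SRG.FV (RatFunc K) (Tx 1 (RatFunc K) →ₗ[ℚ] W)} (H : BNL p V S ψ b ν)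
    {c : k} {u w : K[X]} (hu : XA p S c u) (hw : XA p S c w) :
    b (SRG.pl u - SRG.pl w) (SRG.pl u - SRG.pl w) (w1 (SRG.pl u - SRG.pl w)) = 0 := by
  by_cases huw : u = w
  · rw [huw, sub_self, map_zero]
    rfl
  · have hG : SRG.pl u - SRG.pl w ∈ SG S :=
      sub_mem (Tau1_mem hu.1 hu.2.1) (Tau1_mem hw.1 hw.2.1)
    rw [← Tau1_un hS hP hV H hu hw huw (Tau1_w1 hG)]
    have h1 := nx_self (algebraMap K[X] (RatFunc K) u / algebraMap K[X] (RatFunc K) w)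
    rw [Tau1_lg hu.1 hw.1] at h1
    exact h.n1 _ h1

private lemma Tau1_cancel {P a b : K[X]} (hP : P ≠ 0) (h : P * a = P * b) : a = b :=
  mul_left_cancel₀ hP h

theorem tau_star (hS : SRG.Adm S p.d) (hP : p.P ∉ S) (hV : IsPt p V)
    {ψ : X 1 (RatFunc K) →ₗ[ℚ] W} {ϕ : RatFunc K → RatFunc K → W} (h : FS ψ ϕ) (hk : KL S ψ ϕ)
    {b : Additive (RatFunc K)ˣ →+ Additive (RatFunc K)ˣ →+ (Tx 1 (RatFunc K) →ₗ[ℚ] W)}
    {ν : SRG.FV (RatFunc K) (Tx 1 (RatFunc K) →ₗ[ℚ] W)} (hb : ∀ v w, b v w = b w v)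
    (H : BNL p V S ψ b ν)
    {c : k} {u v w : K[X]} (hu : XA p S c u) (hv : XA p S c v) (hw : XA p S c w) :
    (2 : ℚ) • b (SRG.pl u - SRG.pl w) (SRG.pl v - SRG.pl w) (w1 (SRG.pl u - SRG.pl w)) +
      b (SRG.pl u - SRG.pl w) (SRG.pl u - SRG.pl w) (w1 (SRG.pl v - SRG.pl w)) = 0 := by
  have hself := tau_self hS hP hV h hk H hu hw
  by_cases huw : u = w
  · rw [huw, sub_self, map_zero]
    show (2 : ℚ) • (0 : W) + 0 = 0
    rw [smul_zero, add_zero]
  by_cases hvw : v = w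
  · rw [hvw, sub_self, Tau1_w1_zero, map_zero, map_zero]
    show (2 : ℚ) • (0 : W) + 0 = 0
    rw [smul_zero, add_zero]
  by_cases huv : u = v
  · rw [← huv, hself, smul_zero, add_zero]
  -- the three differences
  obtain ⟨D1, hD1, sD1, nD1⟩ := xa_sub hS hP hw hu
  obtain ⟨D2, hD2, sD2, nD2⟩ := xa_sub hS hP hv hu
  obtain ⟨D3, hD3, sD3, nD3⟩ := xa_sub hS hP hv hw
  have d1 : D1 ≠ 0 := nD1 (fun e => huw e.symm)
  have d2 : D2 ≠ 0 := nD2 (fun e => huv e.symm)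
  have d3 : D3 ≠ 0 := nD3 hvw
  have hPne : p.P ≠ 0 := p.irr.ne_zero
  have i1 : D2 - D1 = D3 := by
    refine Tau1_cancel hPne ?_
    rw [mul_sub, ← hD1, ← hD2, ← hD3]
    ring
  have i2 : w * D2 - v * D1 = u * D3 := by
    refine Tau1_cancel hPne ?_
    have h1 : p.P * (w * D2 - v * D1) = w * (p.P * D2) - v * (p.P * D1) := by ring
    have h2 : p.P * (u * D3) = u * (p.P * D3) := by ring
    rw [h1, h2, ← hD1, ← hD2, ← hD3]
    ring
  have hu0 := hu.1
  have hv0 := hv.1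
  have hw0 := hw.1
  have mu' := Tau1_mem hu0 hu.2.1
  have mv := Tau1_mem hv0 hv.2.1
  have mw := Tau1_mem hw0 hw.2.1
  have m1 := Tau1_mem d1 sD1
  have m2 := Tau1_mem d2 sD2
  have m3 := Tau1_mem d3 sD3
  have mvD : SRG.pl (v * D1) ∈ SG S := by
    rw [SRG.pl_mul hv0 d1]
    exact add_mem mv m1
  have mwD : SRG.pl (w * D2) ∈ SG S := by
    rw [SRG.pl_mul hw0 d2]
    exact add_mem mw m2
  have muD : SRG.pl (u * D3) ∈ SG S := by
    rw [SRG.pl_mul hu0 d3]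
    exact add_mem mu' m3
  have nvD := mul_ne_zero hv0 d1
  have nwD := mul_ne_zero hw0 d2
  have nuD := mul_ne_zero hu0 d3
  have hG : SRG.pl u - SRG.pl w ∈ SG S := sub_mem mu' mw
  have hC : SRG.pl v - SRG.pl w ∈ SG S := sub_mem mv mw
  -- the arguments
  obtain ⟨x, hx⟩ : ∃ x, x = algebraMap K[X] (RatFunc K) (v * D1) /
    algebraMap K[X] (RatFunc K) (w * D2) := ⟨_, rfl⟩
  obtain ⟨y, hy⟩ : ∃ y, y = algebraMap K[X] (RatFunc K) D1 /
    algebraMap K[X] (RatFunc K) D2 := ⟨_, rfl⟩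
  have hx1 : 1 - x = algebraMap K[X] (RatFunc K) (u * D3) /
      algebraMap K[X] (RatFunc K) (w * D2) := by
    rw [hx]
    exact Tau1_one_sub nwD i2
  have hy1 : 1 - y = algebraMap K[X] (RatFunc K) D3 / algebraMap K[X] (RatFunc K) D2 := by
    rw [hy]
    exact Tau1_one_sub d2 i1
  have hEx : El S x := by
    rw [hx]
    exact Tau1_el nvD nwD nuD i2 mvD mwD muD
  have hEy : El S y := by
    rw [hy]
    exact Tau1_el d1 d2 d3 i1 m1 m2 m3
  have au := Tau1_ne hu0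
  have av := Tau1_ne hv0
  have aw := Tau1_ne hw0
  have a1 := Tau1_ne d1
  have a2 := Tau1_ne d2
  have a3 := Tau1_ne d3
  have x0 : x ≠ 0 := by
    rw [hx]
    exact div_ne_zero (Tau1_ne nvD) (Tau1_ne nwD)
  have y0 : y ≠ 0 := by
    rw [hy]
    exact div_ne_zero a1 a2
  have x1 : 1 - x ≠ 0 := by
    rw [hx1]
    exact div_ne_zero (Tau1_ne nuD) (Tau1_ne nwD)
  have y1 : 1 - y ≠ 0 := by
    rw [hy1]
    exact div_ne_zero a3 a2
  have e1 : x / y = algebraMap K[X] (RatFunc K) v / algebraMap K[X] (RatFunc K) w := by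
    rw [hx, hy, map_mul, map_mul]
    field_simp
  have e2 : (1 - x) / (1 - y) = algebraMap K[X] (RatFunc K) u /
      algebraMap K[X] (RatFunc K) w := by
    rw [hx1, hy1, map_mul, map_mul]
    field_simp
  have e3 : y * (1 - x) / (x * (1 - y)) = algebraMap K[X] (RatFunc K) u /
      algebraMap K[X] (RatFunc K) v := by
    rw [hx1, hy1, hx, hy, map_mul, map_mul, map_mul]
    field_simp
  have hxy : x ≠ y := by
    intro e
    have h1 : x / y = 1 := by
      rw [e]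
      exact div_self y0
    rw [e1, div_eq_one_iff_eq aw] at h1
    exact hvw (RatFunc.algebraMap_injective K h1)
  have key := h.star x y x0 (fun e => x1 (by rw [e, sub_self])) y0
    (fun e => y1 (by rw [e, sub_self])) hxy
  rw [hk.ph x y hEx hEy] at key
  -- the terms of level `S`
  have z : ∀ (a : RatFunc K) (g : Additive (RatFunc K)ˣ), El S a → g ∈ SG S →
      ψ (bx a (wT 0 g (u0 (RatFunc K)))) = 0 := fun a g ha hg =>
    hk.lv _ (Submodule.subset_span ⟨a, _, ha, Tau1_w1 hg, rfl⟩)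
  have hE1 : El S (1 : RatFunc K) := by
    refine ⟨?_, ?_⟩
    · rw [lg_one]
      exact zero_mem _
    · rw [sub_self, lg_zero]
      exact zero_mem _
  have hE1x : El S (1 - x) := ⟨hEx.2, by rw [sub_sub_cancel]; exact hEx.1⟩
  have hE1y : El S (1 - y) := ⟨hEy.2, by rw [sub_sub_cancel]; exact hEy.1⟩
  have l1 : lg ((1 - x) / (1 - y)) = SRG.pl u - SRG.pl w := by
    rw [e2]
    exact Tau1_lg hu0 hw0
  have l2 : lg (x / y) = SRG.pl v - SRG.pl w := by
    rw [e1]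
    exact Tau1_lg hv0 hw0
  have t1 := Tau1_un hS hP hV H hv hw hvw (Tau1_w1 hG)
  have t2 := Tau1_un hS hP hV H hu hv huv (Tau1_w1 hG)
  have t3 := Tau1_un hS hP hV H hu hw huw (Tau1_w1 hC)
  rw [TGF.star, l1, l2, e1, e2, e3] at key
  simp only [map_add, map_sub] at key
  rw [z x _ hEx hG, z y _ hEy hG, z 1 _ hE1 hG, z (1 - x) _ hE1x hEy.1,
    z (1 - y) _ hE1y hEx.1] at key
  have key2 : ψ (bx (algebraMap K[X] (RatFunc K) v / algebraMap K[X] (RatFunc K) w)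
        (w1 (SRG.pl u - SRG.pl w))) -
      ψ (bx (algebraMap K[X] (RatFunc K) u / algebraMap K[X] (RatFunc K) v)
        (w1 (SRG.pl u - SRG.pl w))) - 0 - 0 + 0 +
      ψ (bx (algebraMap K[X] (RatFunc K) u / algebraMap K[X] (RatFunc K) w)
        (w1 (SRG.pl v - SRG.pl w))) + 0 - 0 = 0 := key
  rw [t1, t2, t3] at key2
  have e4 : SRG.pl u - SRG.pl v = (SRG.pl u - SRG.pl w) - (SRG.pl v - SRG.pl w) := by abel
  rw [e4] at key2
  generalize SRG.pl u - SRG.pl w = G at *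
  generalize SRG.pl v - SRG.pl w = C at *
  have e5 : b (G - C) (G - C) (w1 G) = b G G (w1 G) - (2 : ℚ) • b G C (w1 G) +
      b C C (w1 G) := by
    rw [map_sub b, AddMonoidHom.sub_apply, map_sub, map_sub, hb C G]
    simp only [LinearMap.sub_apply]
    rw [two_smul]
    abel
  rw [e5, hself] at key2
  rw [← key2]
  abel

end

end GD3
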