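import Pool.Agent.GD3.Tau1

set_option autoImplicit false

/-!
# GD3-Tau2: the cyclic relation

`b_cyc`: for `g₁, g₂, g₃ ∈ KG p S` the cyclic sum of `b g₁ g₂ (w1 g₃)` vanishes.  The cyclic sum is
symmetric and additive in each variable; `tau_star` with two base points gives it for the
generators `pl u - pl w` of `KG p S` (`KG_cls`).
-/

noncomputable section

open Polynomial TensorProduct
open scoped Classical

namespace GD3

open Helper14.Gon Helper14.W4 QPL TGF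

universe u

section
variable {A : Type*} [AddCommGroup A] {W : Type*} [AddCommGroup W]

private lemma Tau2_one {s : Set A} (f : A → W) (a : ∀ x x', f (x + x') = f x + f x')
    (h : ∀ x ∈ s, f x = 0) : ∀ x ∈ AddSubgroup.closure s, f x = 0 := by
  intro x hx
  have h1 : AddSubgroup.closure s ≤ (AddMonoidHom.mk' f a).ker := by
    rw [AddSubgroup.closure_le]
    intro y hy
    exact h y hy
  exact h1 hx

private lemma Tau2_cl {s : Set A} (T : A → A → A → W)
    (a1 : ∀ x x' y z, T (x + x') y z = T x y z + T x' y z)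
    (a2 : ∀ x y y' z, T x (y + y') z = T x y z + T x y' z)
    (a3 : ∀ x y z z', T x y (z + z') = T x y z + T x y z')
    (h : ∀ x ∈ s, ∀ y ∈ s, ∀ z ∈ s, T x y z = 0) :
    ∀ x ∈ AddSubgroup.closure s, ∀ y ∈ AddSubgroup.closure s, ∀ z ∈ AddSubgroup.closure s,
      T x y z = 0 := by
  intro x hx y hy z hz
  refine Tau2_one (s := s) (fun x => T x y z) (fun a b => a1 a b y z) (fun x hx => ?_) x hx
  refine Tau2_one (s := s) (fun y => T x y z) (fun a b => a2 x a b z) (fun y hy => ?_) y hy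
  exact Tau2_one (s := s) (fun z => T x y z) (fun a b => a3 x y a b) (fun z hz => h x hx y hy z hz)
    z hz

end

section
variable {K k : Type u} [Field K] [Field k] {p : SRG.Pl K k} {V : AC (RatFunc K) k}
  {S : Set K[X]}

variable {W : Type u} [AddCommGroup W] [Module ℚ W]

theorem b_cyc (hS : SRG.Adm S p.d) (hP : p.P ∉ S) (hV : IsPt p V)
    {ψ : X 1 (RatFunc K) →ₗ[ℚ] W} {ϕ : RatFunc K → RatFunc K → W} (h : FS ψ ϕ) (hk : KL S ψ ϕ)
    {b : Additive (RatFunc K)ˣ →+ Additive (RatFunc K)ˣ →+ (Tx 1 (RatFunc K) →ₗ[ℚ] W)}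
    {ν : SRG.FV (RatFunc K) (Tx 1 (RatFunc K) →ₗ[ℚ] W)} (hb : ∀ v w, b v w = b w v)
    (H : BNL p V S ψ b ν) {g₁ g₂ g₃ : Additive (RatFunc K)ˣ} (h1 : g₁ ∈ SRG.KG p S)
    (h2 : g₂ ∈ SRG.KG p S) (h3 : g₃ ∈ SRG.KG p S) :
    b g₁ g₂ (w1 g₃) + b g₂ g₃ (w1 g₁) + b g₃ g₁ (w1 g₂) = 0 := by
  have wa : ∀ x y : Additive (RatFunc K)ˣ, w1 (x + y) = w1 x + w1 y := fun x y => by
    rw [w1, wT_add, LinearMap.add_apply]; rfl
  have wz : w1 (0 : Additive (RatFunc K)ˣ) = 0 := by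
    have h1 := wa 0 0
    rw [add_zero] at h1
    exact left_eq_add.1 h1
  have wn : ∀ x : Additive (RatFunc K)ˣ, w1 (-x) = - w1 x := fun x => by
    have h1 := wa x (-x)
    rw [add_neg_cancel, wz] at h1
    exact (neg_eq_of_add_eq_zero_right h1.symm).symm
  have ws : ∀ x y : Additive (RatFunc K)ˣ, w1 (x - y) = w1 x - w1 y := fun x y => by
    rw [sub_eq_add_neg, wa, wn, sub_eq_add_neg]
  have key : ∀ u ∈ {x | XA p S (1 : k) x}, ∀ v ∈ {x | XA p S (1 : k) x},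
      ∀ z ∈ {x | XA p S (1 : k) x}, ∀ w ∈ {x | XA p S (1 : k) x},
      b (SRG.pl u - SRG.pl w) (SRG.pl v - SRG.pl w) (w1 (SRG.pl z - SRG.pl w)) +
      b (SRG.pl v - SRG.pl w) (SRG.pl z - SRG.pl w) (w1 (SRG.pl u - SRG.pl w)) +
      b (SRG.pl z - SRG.pl w) (SRG.pl u - SRG.pl w) (w1 (SRG.pl v - SRG.pl w)) = 0 := by
    intro u hu v hv z hz w hw
    have st : ∀ x y r : K[X], XA p S (1 : k) x → XA p S (1 : k) y → XA p S (1 : k) r →
        (2 : ℚ) • b (SRG.pl x - SRG.pl r) (SRG.pl y - SRG.pl r) (w1 (SRG.pl x - SRG.pl r)) +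
          b (SRG.pl x - SRG.pl r) (SRG.pl x - SRG.pl r) (w1 (SRG.pl y - SRG.pl r)) = 0 :=
      fun x y r hx hy hr => tau_star hS hP hV h hk hb H hx hy hr
    have e1 := st u v w hu hv hw
    have e2 := st u z w hu hz hw
    have e3 := st z u w hz hu hw
    have e4 := st z v w hz hv hw
    have e5 := st z z w hz hz hw
    have e6 := st u v z hu hv hz
    have r1 : SRG.pl u - SRG.pl z = (SRG.pl u - SRG.pl w) - (SRG.pl z - SRG.pl w) := by abel
    have r2 : SRG.pl v - SRG.pl z = (SRG.pl v - SRG.pl w) - (SRG.pl z - SRG.pl w) := by abel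
    rw [r1, r2] at e6
    clear r1 r2 st
    generalize SRG.pl u - SRG.pl w = a at *
    generalize SRG.pl v - SRG.pl w = c at *
    generalize SRG.pl z - SRG.pl w = d at *
    simp only [ws, map_sub, AddMonoidHom.sub_apply, LinearMap.sub_apply] at e6
    have s2 := hb d a
    have s3 := hb c d
    simp only [s2, s3] at e1 e2 e3 e4 e5 e6 ⊢
    have hh : (2 : ℚ) • (b a c (w1 d) + b d c (w1 a) + b a d (w1 c)) = 0 := by
      linear_combination (norm := module) e1 - e2 + (2 : ℚ) • e3 + e4 - e5 - e6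
    exact (smul_eq_zero.1 hh).resolve_left two_ne_zero
  rw [KG_cls hS hP (one_ne_zero : (1 : k) ≠ 0)] at h1 h2 h3
  refine Tau2_cl (fun x y z => b x y (w1 z) + b y z (w1 x) + b z x (w1 y)) ?_ ?_ ?_ ?_
    g₁ h1 g₂ h2 g₃ h3
  · intro x x' y z
    simp only [wa, map_add, AddMonoidHom.add_apply, LinearMap.add_apply]
    abel
  · intro x y y' z
    simp only [wa, map_add, AddMonoidHom.add_apply, LinearMap.add_apply]
    abel
  · intro x y z z'
    simp only [wa, map_add, AddMonoidHom.add_apply, LinearMap.add_apply]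
    abel
  · rintro x ⟨u₁, w, hu₁, hw, rfl⟩ y ⟨u₂, w₂, hu₂, hw₂, rfl⟩ z ⟨u₃, w₃, hu₃, hw₃, rfl⟩
    have r2 : SRG.pl u₂ - SRG.pl w₂ = (SRG.pl u₂ - SRG.pl w) - (SRG.pl w₂ - SRG.pl w) := by abel
    have r3 : SRG.pl u₃ - SRG.pl w₃ = (SRG.pl u₃ - SRG.pl w) - (SRG.pl w₃ - SRG.pl w) := by abel
    have k1 := key u₁ hu₁ u₂ hu₂ u₃ hu₃ w hw
    have k2 := key u₁ hu₁ w₂ hw₂ u₃ hu₃ w hw
    have k3 := key u₁ hu₁ u₂ hu₂ w₃ hw₃ w hw
    have k4 := key u₁ hu₁ w₂ hw₂ w₃ hw₃ w hw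
    rw [r2, r3]
    generalize SRG.pl u₁ - SRG.pl w = a at *
    generalize SRG.pl u₂ - SRG.pl w = a₂ at *
    generalize SRG.pl w₂ - SRG.pl w = c₂ at *
    generalize SRG.pl u₃ - SRG.pl w = a₃ at *
    generalize SRG.pl w₃ - SRG.pl w = c₃ at *
    simp only [ws, map_sub, AddMonoidHom.sub_apply, LinearMap.sub_apply]
    linear_combination (norm := module) k1 - k2 - k3 + k4

end

end GD3
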